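import Mathlib

/-!
Piecewise affine functions on an interval, slope bounds.
-/

namespace MP44e4f6

/-- all slopes of `a` on `[p,q]` lie between `l` and `u` -/
def SB (l u p q : ℝ) (a : ℝ → ℝ) : Prop :=
  ∀ x y : ℝ, p ≤ x → x ≤ y → y ≤ q → l * (y - x) ≤ a y - a x ∧ a y - a x ≤ u * (y - x)

/-- `a` is piecewise affine on `[p,q]` with finitely many pieces -/
inductive PL : ℝ → ℝ → (ℝ → ℝ) → Prop
  | aff (p q k b : ℝ) (a : ℝ → ℝ) (h : ∀ x, p ≤ x → x ≤ q → a x = k * x + b) : PL p q a
  | glue (p m q : ℝ) (a : ℝ → ℝ) (hpm : p ≤ m) (hmq : m ≤ q) (h1 : PL p m a) (h2 : PL m q a) :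
      PL p q a

theorem PL.congr {p q : ℝ} {a : ℝ → ℝ} (h : PL p q a) :
    ∀ {b : ℝ → ℝ}, (∀ x, p ≤ x → x ≤ q → b x = a x) → PL p q b := by
  induction h with
  | aff p q k c a h =>
    intro b hb
    exact PL.aff p q k c b (fun x h1 h2 => by rw [hb x h1 h2, h x h1 h2])
  | glue p m q a hpm hmq h1 h2 ih1 ih2 =>
    intro b hb
    exact PL.glue p m q b hpm hmq (ih1 (fun x hx hx' => hb x hx (hx'.trans hmq)))
      (ih2 (fun x hx hx' => hb x (hpm.trans hx) hx'))

theorem PL.restrict {p q : ℝ} {a : ℝ → ℝ} (h : PL p q a) :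
    ∀ {p' q' : ℝ}, p ≤ p' → p' ≤ q' → q' ≤ q → PL p' q' a := by
  induction h with
  | aff p q k c a h =>
    intro p' q' h1 h2 h3
    exact PL.aff p' q' k c a (fun x hx hx' => h x (h1.trans hx) (hx'.trans h3))
  | glue p m q a hpm hmq h1 h2 ih1 ih2 =>
    intro p' q' hp hpq hq
    by_cases hm : q' ≤ m
    · exact ih1 hp hpq hm
    · by_cases hm' : m ≤ p'
      · exact ih2 hm' hpq hq
      · push Not at hm hm'
        exact PL.glue p' m q' a hm'.le hm.le (ih1 hp hm'.le le_rfl) (ih2 le_rfl hm.le hq)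

theorem PL.of_gt {p q : ℝ} {a : ℝ → ℝ} (h : q < p) : PL p q a :=
  PL.aff p q 0 0 a (fun x h1 h2 => absurd (h1.trans h2) (not_le.2 h))

theorem PL.map2 (F : ℝ → ℝ → ℝ)
    (hF : ∀ p q k b k' b' : ℝ, PL p q (fun x => F (k * x + b) (k' * x + b')))
    {p q : ℝ} {f : ℝ → ℝ} (hf : PL p q f) :
    ∀ {g : ℝ → ℝ}, PL p q g → PL p q (fun x => F (f x) (g x)) := by
  induction hf with
  | aff p q k c f hf =>
    intro g hg
    induction hg with
    | aff p q k' c' g hg =>
      exact (hF p q k c k' c').congr (fun x h1 h2 => by rw [hf x h1 h2, hg x h1 h2])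
    | glue p m q g hpm hmq h1 h2 ih1 ih2 =>
      exact PL.glue p m q _ hpm hmq (ih1 (fun x h h' => hf x h (h'.trans hmq)))
        (ih2 (fun x h h' => hf x (hpm.trans h) h'))
  | glue p m q f hpm hmq h1 h2 ih1 ih2 =>
    intro g hg
    exact PL.glue p m q _ hpm hmq (ih1 (hg.restrict le_rfl hpm hmq))
      (ih2 (hg.restrict hpm hmq le_rfl))

theorem PL.lin (p q k b : ℝ) : PL p q (fun x => k * x + b) :=
  PL.aff p q k b _ (fun _ _ _ => rfl)

theorem PL.max_aff (p q k b k' b' : ℝ) : PL p q (fun x => max (k * x + b) (k' * x + b')) := by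
  wlog hk : k ≤ k' generalizing k b k' b'
  · have := this k' b' k b (le_of_not_ge hk)
    exact this.congr (fun x _ _ => max_comm _ _)
  rcases eq_or_lt_of_le hk with rfl | hk
  · rcases le_total b b' with hb | hb
    · exact PL.aff p q k b' _ (fun x _ _ => max_eq_right (by linarith))
    · exact PL.aff p q k b _ (fun x _ _ => max_eq_left (by linarith))
  · have hk0 : 0 < k' - k := by linarith
    set m := (b - b') / (k' - k) with hm
    have hm' : m * (k' - k) = b - b' := by rw [hm]; field_simp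
    have hR : ∀ x, m ≤ x → max (k * x + b) (k' * x + b') = k' * x + b' := by
      intro x hx
      apply max_eq_right
      nlinarith [mul_le_mul_of_nonneg_right hx hk0.le]
    have hL : ∀ x, x ≤ m → max (k * x + b) (k' * x + b') = k * x + b := by
      intro x hx
      apply max_eq_left
      nlinarith [mul_le_mul_of_nonneg_right hx hk0.le]
    by_cases h1 : m ≤ p
    · exact PL.aff p q k' b' _ (fun x hx _ => hR x (h1.trans hx))
    · by_cases h2 : q ≤ m
      · exact PL.aff p q k b _ (fun x _ hx => hL x (hx.trans h2))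
      · push Not at h1 h2
        exact PL.glue p m q _ h1.le h2.le (PL.aff p m k b _ (fun x _ hx => hL x hx))
          (PL.aff m q k' b' _ (fun x hx _ => hR x hx))

theorem PL.max {p q : ℝ} {f g : ℝ → ℝ} (hf : PL p q f) (hg : PL p q g) :
    PL p q (fun x => max (f x) (g x)) :=
  PL.map2 (fun s t => Max.max s t) (fun p q k b k' b' => PL.max_aff p q k b k' b') hf hg

theorem PL.comb {p q : ℝ} {f g : ℝ → ℝ} (c d : ℝ) (hf : PL p q f) (hg : PL p q g) :
    PL p q (fun x => c * f x + d * g x) :=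
  PL.map2 (fun s t => c * s + d * t)
    (fun p q k b k' b' => PL.aff p q (c * k + d * k') (c * b + d * b') _
      (fun x _ _ => by ring)) hf hg

theorem PL.neg {p q : ℝ} {f : ℝ → ℝ} (hf : PL p q f) : PL p q (fun x => - f x) :=
  (PL.comb (-1) 0 hf hf).congr (fun x _ _ => by ring)

theorem PL.min {p q : ℝ} {f g : ℝ → ℝ} (hf : PL p q f) (hg : PL p q g) :
    PL p q (fun x => min (f x) (g x)) :=
  ((hf.neg.max hg.neg).neg).congr (fun x _ _ => by
    rw [max_neg_neg, neg_neg])

theorem PL.reflect {p q : ℝ} {f : ℝ → ℝ} (hf : PL p q f) : PL (-q) (-p) (fun x => f (-x)) := by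
  induction hf with
  | aff p q k b f h =>
    exact PL.aff (-q) (-p) (-k) b _ (fun x h1 h2 => by
      rw [h (-x) (by linarith) (by linarith)]; ring)
  | glue p m q f hpm hmq h1 h2 ih1 ih2 =>
    exact PL.glue (-q) (-m) (-p) _ (by linarith) (by linarith) ih2 ih1

/-! slope bounds -/

theorem SB.mono {l u p q p' q' : ℝ} {a : ℝ → ℝ} (h : SB l u p q a) (hp : p ≤ p') (hq : q' ≤ q) :
    SB l u p' q' a :=
  fun x y h1 h2 h3 => h x y (hp.trans h1) h2 (h3.trans hq)

theorem SB.max {l u p q : ℝ} {f g : ℝ → ℝ} (hf : SB l u p q f) (hg : SB l u p q g) :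
    SB l u p q (fun x => max (f x) (g x)) := by
  intro x y h1 h2 h3
  have hf' := hf x y h1 h2 h3
  have hg' := hg x y h1 h2 h3
  constructor
  · have : Max.max (f x) (g x) ≤ Max.max (f y) (g y) - l * (y - x) := by
      apply max_le
      · have := le_max_left (f y) (g y); linarith [hf'.1]
      · have := le_max_right (f y) (g y); linarith [hg'.1]
    show l * (y - x) ≤ Max.max (f y) (g y) - Max.max (f x) (g x)
    linarith
  · have : Max.max (f y) (g y) ≤ Max.max (f x) (g x) + u * (y - x) := by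
      apply max_le
      · have := le_max_left (f x) (g x); linarith [hf'.2]
      · have := le_max_right (f x) (g x); linarith [hg'.2]
    show Max.max (f y) (g y) - Max.max (f x) (g x) ≤ u * (y - x)
    linarith

theorem SB.neg {l u p q : ℝ} {f : ℝ → ℝ} (hf : SB l u p q f) :
    SB (-u) (-l) p q (fun x => - f x) := by
  intro x y h1 h2 h3
  have hf' := hf x y h1 h2 h3
  constructor
  · show -u * (y - x) ≤ - f y - - f x
    linarith [hf'.2]
  · show - f y - - f x ≤ -l * (y - x)
    linarith [hf'.1]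

theorem SB.min {l u p q : ℝ} {f g : ℝ → ℝ} (hf : SB l u p q f) (hg : SB l u p q g) :
    SB l u p q (fun x => min (f x) (g x)) := by
  have h := (hf.neg.max hg.neg).neg
  rw [neg_neg, neg_neg] at h
  intro x y h1 h2 h3
  have := h x y h1 h2 h3
  simp only [max_neg_neg, neg_neg] at this
  exact this

theorem SB.comb {l u p q : ℝ} {f g : ℝ → ℝ} {c d : ℝ} (hc : 0 ≤ c) (hd : 0 ≤ d) (hcd : c + d = 1)
    (hf : SB l u p q f) (hg : SB l u p q g) : SB l u p q (fun x => c * f x + d * g x) := by
  intro x y h1 h2 h3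
  have hf' := hf x y h1 h2 h3
  have hg' := hg x y h1 h2 h3
  constructor
  · show l * (y - x) ≤ c * f y + d * g y - (c * f x + d * g x)
    have e1 := mul_le_mul_of_nonneg_left hf'.1 hc
    have e2 := mul_le_mul_of_nonneg_left hg'.1 hd
    have : l * (y - x) = c * (l * (y - x)) + d * (l * (y - x)) := by
      rw [← add_mul, hcd, one_mul]
    linarith
  · show c * f y + d * g y - (c * f x + d * g x) ≤ u * (y - x)
    have e1 := mul_le_mul_of_nonneg_left hf'.2 hc
    have e2 := mul_le_mul_of_nonneg_left hg'.2 hd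
    have : u * (y - x) = c * (u * (y - x)) + d * (u * (y - x)) := by
      rw [← add_mul, hcd, one_mul]
    linarith

theorem SB.aff {l u k b : ℝ} (hl : l ≤ k) (hu : k ≤ u) (p q : ℝ) :
    SB l u p q (fun x => k * x + b) := by
  intro x y _ h2 _
  have h : 0 ≤ y - x := by linarith
  constructor
  · show l * (y - x) ≤ k * y + b - (k * x + b)
    have := mul_le_mul_of_nonneg_right hl h
    linarith
  · show k * y + b - (k * x + b) ≤ u * (y - x)
    have := mul_le_mul_of_nonneg_right hu h
    linarith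

theorem SB.congr {l u p q : ℝ} {f g : ℝ → ℝ} (hf : SB l u p q f)
    (h : ∀ x, p ≤ x → x ≤ q → g x = f x) : SB l u p q g := by
  intro x y h1 h2 h3
  rw [h x h1 (h2.trans h3), h y (h1.trans h2) h3]
  exact hf x y h1 h2 h3

theorem SB.reflect {l u p q : ℝ} {f : ℝ → ℝ} (hf : SB l u p q f) :
    SB (-u) (-l) (-q) (-p) (fun x => f (-x)) := by
  intro x y h1 h2 h3
  have := hf (-y) (-x) (by linarith) (by linarith) (by linarith)
  constructor
  · show -u * (y - x) ≤ f (-y) - f (-x)
    linarith [this.2]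
  · show f (-y) - f (-x) ≤ -l * (y - x)
    linarith [this.1]

/-- gluing slope bounds -/
theorem SB.glue {l u p m q : ℝ} {f : ℝ → ℝ} (h1 : SB l u p m f) (h2 : SB l u m q f)
    : SB l u p q f := by
  intro x y hx hxy hy
  by_cases hm : y ≤ m
  · exact h1 x y hx hxy hm
  · by_cases hm' : m ≤ x
    · exact h2 x y hm' hxy hy
    · push Not at hm hm'
      have e1 := h1 x m hx hm'.le le_rfl
      have e2 := h2 m y le_rfl hm.le hy
      constructor
      · linarith [e1.1, e2.1]
      · linarith [e1.2, e2.2]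

end MP44e4f6
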