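import Mathlib
import Pool.Agent.Lib.MP_44e4f6_lc.PL

/-!
Replacement lemmas: explicit max/min functions and the intermediate value theorem.
-/

namespace MP44e4f6

open Set MeasureTheory intervalIntegral

/-- upper envelope -/
noncomputable def UU (l u p q ap aq : ℝ) (x : ℝ) : ℝ :=
  min (u * x + (ap - u * p)) (l * x + (aq - l * q))

noncomputable def el1 (l u p q ap aq s : ℝ) (x : ℝ) : ℝ := l * x + (UU l u p q ap aq s - l * s)

noncomputable def el2 (l u p q ap aq r : ℝ) (x : ℝ) : ℝ := u * x + (UU l u p q ap aq r - u * r)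

noncomputable def bb (l u p q ap aq : ℝ) (φ : ℝ → ℝ) (s r : ℝ) (x : ℝ) : ℝ :=
  min (UU l u p q ap aq x)
    (max (φ x) (max (el1 l u p q ap aq s x) (el2 l u p q ap aq r x)))

section

variable {l u p q ap aq : ℝ}

theorem UU_continuous : Continuous (UU l u p q ap aq) := by
  unfold UU; fun_prop

theorem UU_SB (hlu : l ≤ u) (x y : ℝ) : SB l u x y (UU l u p q ap aq) :=
  SB.min (SB.aff hlu le_rfl x y) (SB.aff le_rfl hlu x y)

theorem UU_up (hlu : l ≤ u) {x y : ℝ} (h : x ≤ y) :
    UU l u p q ap aq y ≤ UU l u p q ap aq x + u * (y - x) := by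
  have := (UU_SB (p := p) (q := q) (ap := ap) (aq := aq) hlu x y x y le_rfl h le_rfl).2
  linarith

theorem UU_lo (hlu : l ≤ u) {x y : ℝ} (h : x ≤ y) :
    UU l u p q ap aq x + l * (y - x) ≤ UU l u p q ap aq y := by
  have := (UU_SB (p := p) (q := q) (ap := ap) (aq := aq) hlu x y x y le_rfl h le_rfl).1
  linarith

theorem UU_PL (x y : ℝ) : PL x y (UU l u p q ap aq) :=
  PL.min (PL.lin _ _ _ _) (PL.lin _ _ _ _)

theorem bb_PL {φ : ℝ → ℝ} {x y : ℝ} (hφ : PL x y φ) (s r : ℝ) :
    PL x y (bb l u p q ap aq φ s r) :=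
  PL.min (UU_PL _ _) (PL.max hφ (PL.max (PL.lin _ _ _ _) (PL.lin _ _ _ _)))

theorem bb_SB (hlu : l ≤ u) {φ : ℝ → ℝ} {x y : ℝ} (hφ : SB l u x y φ) (s r : ℝ) :
    SB l u x y (bb l u p q ap aq φ s r) :=
  SB.min (UU_SB hlu _ _) (SB.max hφ (SB.max (SB.aff le_rfl hlu _ _) (SB.aff hlu le_rfl _ _)))

theorem bb_continuous {φ : ℝ → ℝ} (hφ : Continuous φ) :
    Continuous (fun z : (ℝ × ℝ) × ℝ => bb l u p q ap aq φ z.1.1 z.1.2 z.2) := by
  have hU : Continuous (UU l u p q ap aq) := UU_continuous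
  unfold bb el1 el2
  fun_prop

theorem bb_continuous' {φ : ℝ → ℝ} (hφ : Continuous φ) (s r : ℝ) :
    Continuous (bb l u p q ap aq φ s r) := by
  have h := (bb_continuous (l := l) (u := u) (p := p) (q := q) (ap := ap) (aq := aq) hφ).comp
    (Continuous.prodMk_right (s, r) : Continuous fun x : ℝ => ((s, r), x))
  exact h

/-- `r = p`: nothing is cut -/
theorem bb_left (hlu : l ≤ u) {φ : ℝ → ℝ} {s r x : ℝ} (h : r ≤ x) :
    bb l u p q ap aq φ s r x = UU l u p q ap aq x := by
  unfold bb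
  apply min_eq_left
  refine le_trans ?_ (le_max_right _ _)
  refine le_trans ?_ (le_max_right _ _)
  have := UU_up (p := p) (q := q) (ap := ap) (aq := aq) hlu h
  unfold el2
  linarith

theorem bb_right (hlu : l ≤ u) {φ : ℝ → ℝ} {s r x : ℝ} (h : x ≤ s) :
    bb l u p q ap aq φ s r x = UU l u p q ap aq x := by
  unfold bb
  apply min_eq_left
  refine le_trans ?_ (le_max_right _ _)
  refine le_trans ?_ (le_max_left _ _)
  have := UU_lo (p := p) (q := q) (ap := ap) (aq := aq) hlu h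
  unfold el1
  linarith

theorem bb_le_U {φ : ℝ → ℝ} {s r x : ℝ} : bb l u p q ap aq φ s r x ≤ UU l u p q ap aq x :=
  min_le_left _ _

theorem bb_mono_s (hlu : l ≤ u) {φ : ℝ → ℝ} {s s' r x : ℝ} (h : s ≤ s') :
    bb l u p q ap aq φ s r x ≤ bb l u p q ap aq φ s' r x := by
  unfold bb
  apply min_le_min_left
  apply max_le_max_left
  apply max_le_max_right
  have := UU_lo (p := p) (q := q) (ap := ap) (aq := aq) hlu h
  unfold el1
  linarith

theorem bb_anti_r (hlu : l ≤ u) {φ : ℝ → ℝ} {s r r' x : ℝ} (h : r ≤ r') :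
    bb l u p q ap aq φ s r' x ≤ bb l u p q ap aq φ s r x := by
  unfold bb
  apply min_le_min_left
  apply max_le_max_left
  apply max_le_max_left
  have := UU_up (p := p) (q := q) (ap := ap) (aq := aq) hlu h
  unfold el2
  linarith

end

section

variable {l u p q : ℝ} {a : ℝ → ℝ}

/-- `a ≤ U` -/
theorem le_UU (hpq : p ≤ q) (ha : SB l u p q a) {x : ℝ} (h1 : p ≤ x) (h2 : x ≤ q) :
    a x ≤ UU l u p q (a p) (a q) x := by
  unfold UU
  apply le_min
  · have := (ha p x le_rfl h1 h2).2; linarith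
  · have := (ha x q h1 h2 le_rfl).1; linarith

theorem UU_p (hpq : p ≤ q) (ha : SB l u p q a) : UU l u p q (a p) (a q) p = a p := by
  apply le_antisymm _ (le_UU hpq ha le_rfl hpq)
  unfold UU
  exact (min_le_left _ _).trans (by linarith)

theorem UU_q (hpq : p ≤ q) (ha : SB l u p q a) : UU l u p q (a p) (a q) q = a q := by
  apply le_antisymm _ (le_UU hpq ha hpq le_rfl)
  unfold UU
  exact (min_le_right _ _).trans (by linarith)

theorem el1_p_le (hpq : p ≤ q) (ha : SB l u p q a) {x : ℝ} (h1 : p ≤ x) (h2 : x ≤ q) :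
    el1 l u p q (a p) (a q) p x ≤ a x := by
  unfold el1
  rw [UU_p hpq ha]
  have := (ha p x le_rfl h1 h2).1; linarith

theorem el2_q_le (hpq : p ≤ q) (ha : SB l u p q a) {x : ℝ} (h1 : p ≤ x) (h2 : x ≤ q) :
    el2 l u p q (a p) (a q) q x ≤ a x := by
  unfold el2
  rw [UU_q hpq ha]
  have := (ha x q h1 h2 le_rfl).2; linarith

theorem bb_at_p (hlu : l ≤ u) (hpq : p ≤ q) (ha : SB l u p q a) {φ : ℝ → ℝ} {s r : ℝ}
    (hs : p ≤ s) : bb l u p q (a p) (a q) φ s r p = a p := by
  rw [bb_right hlu hs, UU_p hpq ha]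

theorem bb_at_q (hlu : l ≤ u) (hpq : p ≤ q) (ha : SB l u p q a) {φ : ℝ → ℝ} {s r : ℝ}
    (hr : r ≤ q) : bb l u p q (a p) (a q) φ s r q = a q := by
  rw [bb_left hlu hr, UU_q hpq ha]

/-- `∫_p^x (b_{s,q} - a) ≥ 0` -/
theorem early (hlu : l ≤ u) (hpq : p ≤ q) (ha : SB l u p q a) (hac : Continuous a) {φ : ℝ → ℝ}
    (hφc : Continuous φ) (hφ : ∀ x, p ≤ x → x ≤ q → φ x ≤ a x) {s : ℝ}
    (hI : ∫ x in p..q, bb l u p q (a p) (a q) φ s q x = ∫ x in p..q, a x) {x : ℝ}
    (h1 : p ≤ x) (h2 : x ≤ q) :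
    ∫ y in p..x, a y ≤ ∫ y in p..x, bb l u p q (a p) (a q) φ s q y := by
  have hbc : Continuous (bb l u p q (a p) (a q) φ s q) := bb_continuous' hφc s q
  by_cases hx : a x ≤ el1 l u p q (a p) (a q) s x
  · apply intervalIntegral.integral_mono_on h1 (hac.intervalIntegrable _ _)
      (hbc.intervalIntegrable _ _)
    intro y hy
    have hy1 := (ha y x hy.1 hy.2 h2).1
    have : a y ≤ el1 l u p q (a p) (a q) s y := by
      unfold el1 at hx ⊢
      linarith
    unfold bb
    exact le_min (le_UU hpq ha hy.1 (hy.2.trans h2))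
      (this.trans ((le_max_left _ _).trans (le_max_right _ _)))
  · push Not at hx
    have h3 : ∫ y in x..q, bb l u p q (a p) (a q) φ s q y ≤ ∫ y in x..q, a y := by
      apply intervalIntegral.integral_mono_on h2 (hbc.intervalIntegrable _ _)
        (hac.intervalIntegrable _ _)
      intro y hy
      have hy1 := (ha x y h1 hy.1 hy.2).1
      have : el1 l u p q (a p) (a q) s y ≤ a y := by
        unfold el1 at hx ⊢
        linarith
      unfold bb
      exact (min_le_right _ _).trans (max_le (hφ y (h1.trans hy.1) hy.2)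
        (max_le this (el2_q_le hpq ha (h1.trans hy.1) hy.2)))
    have e1 := intervalIntegral.integral_add_adjacent_intervals
      (hbc.intervalIntegrable p x) (hbc.intervalIntegrable x q) (μ := volume)
    have e2 := intervalIntegral.integral_add_adjacent_intervals
      (hac.intervalIntegrable p x) (hac.intervalIntegrable x q) (μ := volume)
    linarith

/-- `∫_p^x (b_{p,r} - a) ≤ 0` -/
theorem late (hlu : l ≤ u) (hpq : p ≤ q) (ha : SB l u p q a) (hac : Continuous a) {φ : ℝ → ℝ}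
    (hφc : Continuous φ) (hφ : ∀ x, p ≤ x → x ≤ q → φ x ≤ a x) {r : ℝ}
    (hI : ∫ x in p..q, bb l u p q (a p) (a q) φ p r x = ∫ x in p..q, a x) {x : ℝ}
    (h1 : p ≤ x) (h2 : x ≤ q) :
    ∫ y in p..x, bb l u p q (a p) (a q) φ p r y ≤ ∫ y in p..x, a y := by
  have hbc : Continuous (bb l u p q (a p) (a q) φ p r) := bb_continuous' hφc p r
  by_cases hx : a x ≤ el2 l u p q (a p) (a q) r x
  · have h3 : ∫ y in x..q, a y ≤ ∫ y in x..q, bb l u p q (a p) (a q) φ p r y := by
      apply intervalIntegral.integral_mono_on h2 (hac.intervalIntegrable _ _)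
        (hbc.intervalIntegrable _ _)
      intro y hy
      have hy1 := (ha x y h1 hy.1 hy.2).2
      have : a y ≤ el2 l u p q (a p) (a q) r y := by
        unfold el2 at hx ⊢
        linarith
      unfold bb
      exact le_min (le_UU hpq ha (h1.trans hy.1) hy.2)
        (this.trans ((le_max_right _ _).trans (le_max_right _ _)))
    have e1 := intervalIntegral.integral_add_adjacent_intervals
      (hbc.intervalIntegrable p x) (hbc.intervalIntegrable x q) (μ := volume)
    have e2 := intervalIntegral.integral_add_adjacent_intervals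
      (hac.intervalIntegrable p x) (hac.intervalIntegrable x q) (μ := volume)
    linarith
  · push Not at hx
    apply intervalIntegral.integral_mono_on h1 (hbc.intervalIntegrable _ _)
      (hac.intervalIntegrable _ _)
    intro y hy
    have hy1 := (ha y x hy.1 hy.2 h2).2
    have : el2 l u p q (a p) (a q) r y ≤ a y := by
      unfold el2 at hx ⊢
      linarith
    unfold bb
    exact (min_le_right _ _).trans (max_le (hφ y hy.1 (hy.2.trans h2))
      (max_le (el1_p_le hpq ha hy.1 (hy.2.trans h2)) this))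

/-- existence of the switching points -/
theorem exists_sr (hlu : l ≤ u) (hpq : p ≤ q) (ha : SB l u p q a) (hac : Continuous a)
    {φ : ℝ → ℝ} (hφc : Continuous φ) (hφ : ∀ x, p ≤ x → x ≤ q → φ x ≤ a x) :
    ∃ s r : ℝ, p ≤ s ∧ s ≤ q ∧ p ≤ r ∧ r ≤ q ∧
      (∫ x in p..q, bb l u p q (a p) (a q) φ s r x = ∫ x in p..q, a x) ∧
      (∫ x in p..q, ∫ y in p..x, bb l u p q (a p) (a q) φ s r y =
        ∫ x in p..q, ∫ y in p..x, a y) := by
  set F : ℝ × ℝ → ℝ := fun z => ∫ x in p..q, bb l u p q (a p) (a q) φ z.1 z.2 x with hF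
  set G : ℝ × ℝ → ℝ := fun z => ∫ x in p..q, ∫ y in p..x, bb l u p q (a p) (a q) φ z.1 z.2 y
    with hG
  set M : ℝ := ∫ x in p..q, a x with hM
  set M1 : ℝ := ∫ x in p..q, ∫ y in p..x, a y with hM1
  have hbc := bb_continuous (l := l) (u := u) (p := p) (q := q) (ap := a p) (aq := a q) hφc
  have hFc : Continuous F :=
    intervalIntegral.continuous_parametric_intervalIntegral_of_continuous'
      (f := fun (z : ℝ × ℝ) (x : ℝ) => bb l u p q (a p) (a q) φ z.1 z.2 x) hbc p q
  have hGc : Continuous G := by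
    apply intervalIntegral.continuous_parametric_intervalIntegral_of_continuous'
      (f := fun (z : ℝ × ℝ) (x : ℝ) => ∫ y in p..x, bb l u p q (a p) (a q) φ z.1 z.2 y)
    have h1 : Continuous (Function.uncurry
        (fun (w : (ℝ × ℝ) × ℝ) (y : ℝ) => bb l u p q (a p) (a q) φ w.1.1 w.1.2 y)) := by
      have : Continuous (fun z : ((ℝ × ℝ) × ℝ) × ℝ => ((z.1.1, z.2) : (ℝ × ℝ) × ℝ)) := by
        fun_prop
      exact hbc.comp this
    exact intervalIntegral.continuous_parametric_intervalIntegral_of_continuous h1 continuous_snd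
  have hbi : ∀ s r x y : ℝ, IntervalIntegrable (bb l u p q (a p) (a q) φ s r) volume x y :=
    fun s r x y => (bb_continuous' hφc s r).intervalIntegrable _ _
  have hai : ∀ x y : ℝ, IntervalIntegrable a volume x y := fun x y => hac.intervalIntegrable _ _
  -- monotonicity
  have hFs : ∀ s s' r, s ≤ s' → F (s, r) ≤ F (s', r) := fun s s' r h =>
    intervalIntegral.integral_mono_on hpq (hbi _ _ _ _) (hbi _ _ _ _)
      (fun x _ => bb_mono_s hlu h)
  -- `r = p` and `s = q`
  have hFp : ∀ s, M ≤ F (s, p) := fun s =>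
    intervalIntegral.integral_mono_on hpq (hai _ _) (hbi _ _ _ _)
      (fun x hx => by rw [bb_left hlu hx.1]; exact le_UU hpq ha hx.1 hx.2)
  have hFq : M ≤ F (q, q) :=
    intervalIntegral.integral_mono_on hpq (hai _ _) (hbi _ _ _ _)
      (fun x hx => by rw [bb_right hlu hx.2]; exact le_UU hpq ha hx.1 hx.2)
  have hFpq : F (p, q) ≤ M :=
    intervalIntegral.integral_mono_on hpq (hbi _ _ _ _) (hai _ _)
      (fun x hx => (min_le_right _ _).trans (max_le (hφ x hx.1 hx.2)
        (max_le (el1_p_le hpq ha hx.1 hx.2) (el2_q_le hpq ha hx.1 hx.2))))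
  -- `s1`
  obtain ⟨s1, hs1, hs1M⟩ : ∃ s1 ∈ Icc p q, F (s1, q) = M := by
    have hc : ContinuousOn (fun s => F (s, q)) (Icc p q) := by fun_prop
    exact intermediate_value_Icc hpq hc ⟨hFpq, hFq⟩
  have hex : ∀ s ∈ Icc p s1, ∃ r ∈ Icc p q, F (s, r) = M := by
    intro s hs
    have hc : ContinuousOn (fun r => F (s, r)) (Icc p q) := by fun_prop
    have h1 : F (s, q) ≤ M := by rw [← hs1M]; exact hFs _ _ _ hs.2
    exact intermediate_value_Icc' hpq hc ⟨h1, hFp s⟩
  -- the two closed sets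
  set K1 : Set (ℝ × ℝ) := (Icc p s1 ×ˢ Icc p q) ∩ {z | F z = M ∧ M1 ≤ G z} with hK1
  set K2 : Set (ℝ × ℝ) := (Icc p s1 ×ˢ Icc p q) ∩ {z | F z = M ∧ G z ≤ M1} with hK2
  have hK1c : IsCompact K1 := by
    apply IsCompact.inter_right (isCompact_Icc.prod isCompact_Icc)
    exact (isClosed_eq hFc continuous_const).inter (isClosed_le continuous_const hGc)
  have hK2c : IsCompact K2 := by
    apply IsCompact.inter_right (isCompact_Icc.prod isCompact_Icc)
    exact (isClosed_eq hFc continuous_const).inter (isClosed_le hGc continuous_const)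
  have hS1 : IsClosed (Prod.fst '' K1) := (hK1c.image continuous_fst).isClosed
  have hS2 : IsClosed (Prod.fst '' K2) := (hK2c.image continuous_fst).isClosed
  have hps1 : p ≤ s1 := hs1.1
  have hcov : Icc p s1 ⊆ Prod.fst '' K1 ∪ Prod.fst '' K2 := by
    intro s hs
    obtain ⟨r, hr, hrM⟩ := hex s hs
    rcases le_total M1 (G (s, r)) with h | h
    · left; exact ⟨(s, r), ⟨⟨hs, hr⟩, hrM, h⟩, rfl⟩
    · right; exact ⟨(s, r), ⟨⟨hs, hr⟩, hrM, h⟩, rfl⟩
  have hvc : ∀ s r, Continuous (fun x => ∫ y in p..x, bb l u p q (a p) (a q) φ s r y) :=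
    fun s r => intervalIntegral.continuous_primitive (hbi s r) p
  have hva : Continuous (fun x => ∫ y in p..x, a y) :=
    intervalIntegral.continuous_primitive hai p
  have hne1 : (Icc p s1 ∩ Prod.fst '' K1).Nonempty := by
    refine ⟨s1, ⟨hps1, le_rfl⟩, (s1, q), ⟨⟨⟨hps1, le_rfl⟩, ⟨hpq, le_rfl⟩⟩, hs1M, ?_⟩, rfl⟩
    apply intervalIntegral.integral_mono_on hpq (hva.intervalIntegrable _ _)
      ((hvc _ _).intervalIntegrable _ _)
    intro x hx
    exact early hlu hpq ha hac hφc hφ hs1M hx.1 hx.2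
  have hne2 : (Icc p s1 ∩ Prod.fst '' K2).Nonempty := by
    obtain ⟨r, hr, hrM⟩ := hex p ⟨le_rfl, hps1⟩
    refine ⟨p, ⟨le_rfl, hps1⟩, (p, r), ⟨⟨⟨le_rfl, hps1⟩, hr⟩, hrM, ?_⟩, rfl⟩
    apply intervalIntegral.integral_mono_on hpq ((hvc _ _).intervalIntegrable _ _)
      (hva.intervalIntegrable _ _)
    intro x hx
    exact late hlu hpq ha hac hφc hφ hrM hx.1 hx.2
  obtain ⟨s, hs, ⟨⟨s', r⟩, ⟨⟨hz1, hz2⟩, hzF, hzG⟩, hzs⟩, ⟨⟨s'', r'⟩, ⟨⟨hw1, hw2⟩, hwF, hwG⟩, hws⟩⟩ :=
    (isPreconnected_closed_iff.1 isPreconnected_Icc) _ _ hS1 hS2 hcov hne1 hne2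
  simp only at hzs hws
  subst hzs
  subst hws
  -- uniqueness
  have huniq : ∀ r r' : ℝ, r ≤ r' → F (s'', r) = F (s'', r') → G (s'', r) = G (s'', r') := by
    intro r r' hrr hE
    apply intervalIntegral.integral_congr
    intro x hx
    rw [uIcc_of_le hpq] at hx
    have h1 : ∫ y in p..x, bb l u p q (a p) (a q) φ s'' r' y ≤
        ∫ y in p..x, bb l u p q (a p) (a q) φ s'' r y :=
      intervalIntegral.integral_mono_on hx.1 (hbi _ _ _ _) (hbi _ _ _ _)
        (fun y _ => bb_anti_r hlu hrr)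
    have h2 : ∫ y in x..q, bb l u p q (a p) (a q) φ s'' r' y ≤
        ∫ y in x..q, bb l u p q (a p) (a q) φ s'' r y :=
      intervalIntegral.integral_mono_on hx.2 (hbi _ _ _ _) (hbi _ _ _ _)
        (fun y _ => bb_anti_r hlu hrr)
    have e1 := intervalIntegral.integral_add_adjacent_intervals (hbi s'' r p x) (hbi s'' r x q)
    have e2 := intervalIntegral.integral_add_adjacent_intervals (hbi s'' r' p x) (hbi s'' r' x q)
    have e3 : ∫ y in p..q, bb l u p q (a p) (a q) φ s'' r y =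
      ∫ y in p..q, bb l u p q (a p) (a q) φ s'' r' y := hE
    show ∫ y in p..x, bb l u p q (a p) (a q) φ s'' r y =
      ∫ y in p..x, bb l u p q (a p) (a q) φ s'' r' y
    linarith
  have hGG : G (s'', r) = G (s'', r') := by
    rcases le_total r r' with h | h
    · exact huniq r r' h (hzF.trans hwF.symm)
    · exact (huniq r' r h (hwF.trans hzF.symm)).symm
  refine ⟨s'', r, hz1.1, hz1.2.trans hs1.2, hz2.1, hz2.2, hzF, ?_⟩
  exact le_antisymm (by rw [← hG] at *; exact hGG.le.trans hwG) hzG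

end

end MP44e4f6
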