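import Mathlib
import Pool.Agent.Lib.MP_44e4f6_lc.PL
import Pool.Agent.Lib.MP_44e4f6_lc.Mom

/-!
Replacement of a path by a path with piecewise affine second derivative.
-/

namespace MP44e4f6

open Set MeasureTheory intervalIntegral

/-- `h' = v`, `v' = a`, in integrated form, on the whole line -/
structure IsPath (h v a : ℝ → ℝ) : Prop where
  cont : Continuous a
  hv : ∀ s x, v x = v s + ∫ t in s..x, a t
  hh : ∀ s x, h x = h s + ∫ t in s..x, v t

theorem IsPath.vcont {h v a : ℝ → ℝ} (H : IsPath h v a) : Continuous v := by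
  have : v = fun x => v 0 + ∫ t in (0:ℝ)..x, a t := funext (fun x => H.hv 0 x)
  rw [this]
  exact continuous_const.add
    (intervalIntegral.continuous_primitive (fun x y => H.cont.intervalIntegrable x y) 0)

theorem isPath_mk {b : ℝ → ℝ} (hb : Continuous b) (p h0 v0 : ℝ) :
    IsPath (fun x => h0 + ∫ t in p..x, (v0 + ∫ y in p..t, b y)) (fun x => v0 + ∫ y in p..x, b y)
      b := by
  have hbi : ∀ x y, IntervalIntegrable b volume x y := fun x y => hb.intervalIntegrable x y
  have hvc : Continuous (fun x => v0 + ∫ y in p..x, b y) :=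
    continuous_const.add (intervalIntegral.continuous_primitive hbi p)
  have hvi : ∀ x y, IntervalIntegrable (fun x => v0 + ∫ y in p..x, b y) volume x y :=
    fun x y => hvc.intervalIntegrable x y
  refine ⟨hb, fun s x => ?_, fun s x => ?_⟩
  · have := intervalIntegral.integral_add_adjacent_intervals (hbi p s) (hbi s x)
    show v0 + ∫ y in p..x, b y = v0 + (∫ y in p..s, b y) + ∫ y in s..x, b y
    linarith
  · have := intervalIntegral.integral_add_adjacent_intervals (hvi p s) (hvi s x)
    show h0 + ∫ t in p..x, (v0 + ∫ y in p..t, b y) =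
      (h0 + ∫ t in p..s, (v0 + ∫ y in p..t, b y)) + ∫ t in s..x, (v0 + ∫ y in p..t, b y)
    linarith

/-- sign pattern `+ - +` and two vanishing moments -/
theorem dom {p q : ℝ} (hpq : p ≤ q) {E : ℝ → ℝ} (hE : Continuous E)
    (hN : ∀ x y z, p ≤ x → x ≤ y → y ≤ z → z ≤ q → E x < 0 → E z < 0 → E y < 0)
    (h0 : ∫ x in p..q, E x = 0) (h1 : ∫ x in p..q, ∫ y in p..x, E y = 0) {x : ℝ}
    (hx : p ≤ x) (hx' : x ≤ q) : 0 ≤ ∫ t in p..x, ∫ y in p..t, E y := by
  have hEi : ∀ x y, IntervalIntegrable E volume x y := fun x y => hE.intervalIntegrable x y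
  have hec : Continuous (fun x => ∫ y in p..x, E y) := intervalIntegral.continuous_primitive hEi p
  have hei : ∀ x y, IntervalIntegrable (fun x => ∫ y in p..x, E y) volume x y :=
    fun x y => hec.intervalIntegrable x y
  have key : ∀ x y, p ≤ x → x ≤ y → y ≤ q → ∫ t in p..x, E t < 0 → ∫ t in p..y, E t ≤ 0 := by
    intro x y hx hxy hy hneg
    by_contra hpos
    push Not at hpos
    have a1 : ∃ z, p ≤ z ∧ z ≤ x ∧ E z < 0 := by
      by_contra hcon
      push Not at hcon
      have : 0 ≤ ∫ t in p..x, E t :=
        intervalIntegral.integral_nonneg hx (fun t ht => hcon t ht.1 ht.2)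
      linarith
    have a3 : ∃ z, y ≤ z ∧ z ≤ q ∧ E z < 0 := by
      by_contra hcon
      push Not at hcon
      have : 0 ≤ ∫ t in y..q, E t :=
        intervalIntegral.integral_nonneg hy (fun t ht => hcon t ht.1 ht.2)
      have e := intervalIntegral.integral_add_adjacent_intervals (hEi p y) (hEi y q)
      linarith
    have a2 : ∃ z, x ≤ z ∧ z ≤ y ∧ 0 ≤ E z := by
      by_contra hcon
      push Not at hcon
      have : 0 ≤ ∫ t in x..y, - E t :=
        intervalIntegral.integral_nonneg hxy (fun t ht => by linarith [hcon t ht.1 ht.2])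
      rw [intervalIntegral.integral_neg] at this
      have e := intervalIntegral.integral_add_adjacent_intervals (hEi p x) (hEi x y)
      linarith
    obtain ⟨z1, h11, h12, h13⟩ := a1
    obtain ⟨z2, h21, h22, h23⟩ := a2
    obtain ⟨z3, h31, h32, h33⟩ := a3
    have := hN z1 z2 z3 h11 (h12.trans h21) (h22.trans h31) h32 h13 h33
    linarith
  by_cases hc : ∃ x', p ≤ x' ∧ x' ≤ x ∧ ∫ t in p..x', E t < 0
  · obtain ⟨x', h2, h3, h4⟩ := hc
    have : 0 ≤ ∫ t in x..q, - ∫ y in p..t, E y := by
      apply intervalIntegral.integral_nonneg hx'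
      intro t ht
      have := key x' t h2 (h3.trans ht.1) ht.2 h4
      linarith
    rw [intervalIntegral.integral_neg] at this
    have e := intervalIntegral.integral_add_adjacent_intervals (hei p x) (hei x q)
    linarith
  · push Not at hc
    exact intervalIntegral.integral_nonneg hx (fun t ht => hc t ht.1 ht.2)

section

variable {l u p q : ℝ} {a : ℝ → ℝ}

theorem exists_early (hlu : l ≤ u) (hpq : p ≤ q) (ha : SB l u p q a) (hac : Continuous a)
    {φ : ℝ → ℝ} (hφc : Continuous φ) (hφ : ∀ x, p ≤ x → x ≤ q → φ x ≤ a x) :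
    ∃ s : ℝ, p ≤ s ∧ s ≤ q ∧
      (∫ x in p..q, bb l u p q (a p) (a q) φ s q x = ∫ x in p..q, a x) := by
  have hbc := bb_continuous (l := l) (u := u) (p := p) (q := q) (ap := a p) (aq := a q) hφc
  have hFc : Continuous (fun z : ℝ × ℝ => ∫ x in p..q, bb l u p q (a p) (a q) φ z.1 z.2 x) :=
    intervalIntegral.continuous_parametric_intervalIntegral_of_continuous'
      (f := fun (z : ℝ × ℝ) (x : ℝ) => bb l u p q (a p) (a q) φ z.1 z.2 x) hbc p q
  have hbi : ∀ s r x y : ℝ, IntervalIntegrable (bb l u p q (a p) (a q) φ s r) volume x y :=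
    fun s r x y => (bb_continuous' hφc s r).intervalIntegrable _ _
  have hai : ∀ x y : ℝ, IntervalIntegrable a volume x y := fun x y => hac.intervalIntegrable _ _
  have hFq : ∫ x in p..q, a x ≤ ∫ x in p..q, bb l u p q (a p) (a q) φ q q x :=
    intervalIntegral.integral_mono_on hpq (hai _ _) (hbi _ _ _ _)
      (fun x hx => by rw [bb_right hlu hx.2]; exact le_UU hpq ha hx.1 hx.2)
  have hFpq : ∫ x in p..q, bb l u p q (a p) (a q) φ p q x ≤ ∫ x in p..q, a x :=
    intervalIntegral.integral_mono_on hpq (hbi _ _ _ _) (hai _ _)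
      (fun x hx => (min_le_right _ _).trans (max_le (hφ x hx.1 hx.2)
        (max_le (el1_p_le hpq ha hx.1 hx.2) (el2_q_le hpq ha hx.1 hx.2))))
  have hc : ContinuousOn (fun s => ∫ x in p..q, bb l u p q (a p) (a q) φ s q x) (Icc p q) :=
    (hFc.comp (Continuous.prodMk_left q : Continuous fun s : ℝ => (s, q))).continuousOn
  obtain ⟨s, hs, h⟩ := intermediate_value_Icc hpq hc ⟨hFpq, hFq⟩
  exact ⟨s, hs.1, hs.2, h⟩

theorem el1_cont (l u p q ap aq s : ℝ) : Continuous (el1 l u p q ap aq s) := by
  unfold el1; fun_prop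

theorem el1_mono (hlu : l ≤ u) {ap aq s s' x : ℝ} (h : s ≤ s') :
    el1 l u p q ap aq s x ≤ el1 l u p q ap aq s' x := by
  have := UU_lo (p := p) (q := q) (ap := ap) (aq := aq) hlu h
  unfold el1
  linarith

/-- the replacement lies above -/
theorem up (hlu : l ≤ u) (hpq : p ≤ q) (ha : SB l u p q a) (hac : Continuous a) :
    ∃ b : ℝ → ℝ, Continuous b ∧ PL p q b ∧ SB l u p q b ∧ b p = a p ∧ b q = a q ∧
      (∫ x in p..q, b x = ∫ x in p..q, a x) ∧
      (∫ x in p..q, ∫ y in p..x, b y = ∫ x in p..q, ∫ y in p..x, a y) ∧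
      ∀ x, p ≤ x → x ≤ q → ∫ t in p..x, ∫ y in p..t, a y ≤ ∫ t in p..x, ∫ y in p..t, b y := by
  obtain ⟨s, r, hs, hs', hr, hr', h0, h1⟩ :=
    exists_sr hlu hpq ha hac (el1_cont l u p q (a p) (a q) p)
      (fun x h1 h2 => el1_p_le hpq ha h1 h2)
  set φ := el1 l u p q (a p) (a q) p with hφ
  have hbc : Continuous (bb l u p q (a p) (a q) φ s r) :=
    bb_continuous' (el1_cont l u p q (a p) (a q) p) s r
  have hbi : ∀ x y : ℝ, IntervalIntegrable (bb l u p q (a p) (a q) φ s r) volume x y :=
    fun x y => hbc.intervalIntegrable _ _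
  have hai : ∀ x y : ℝ, IntervalIntegrable a volume x y := fun x y => hac.intervalIntegrable _ _
  refine ⟨bb l u p q (a p) (a q) φ s r, hbc, bb_PL (PL.lin _ _ _ _) _ _,
    bb_SB hlu (SB.aff le_rfl hlu _ _) _ _, bb_at_p hlu hpq ha hs, bb_at_q hlu hpq ha hr', h0, h1,
    ?_⟩
  intro x hx hx'
  have hsub : ∀ t, ∫ y in p..t, (bb l u p q (a p) (a q) φ s r y - a y) =
      (∫ y in p..t, bb l u p q (a p) (a q) φ s r y) - ∫ y in p..t, a y := fun t =>
    intervalIntegral.integral_sub (hbi _ _) (hai _ _)
  have hvb : Continuous (fun t => ∫ y in p..t, bb l u p q (a p) (a q) φ s r y) :=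
    intervalIntegral.continuous_primitive hbi p
  have hva : Continuous (fun t => ∫ y in p..t, a y) :=
    intervalIntegral.continuous_primitive hai p
  have hsub2 : ∀ t, ∫ w in p..t, ∫ y in p..w, (bb l u p q (a p) (a q) φ s r y - a y) =
      (∫ w in p..t, ∫ y in p..w, bb l u p q (a p) (a q) φ s r y) - ∫ w in p..t, ∫ y in p..w, a y := by
    intro t
    rw [← intervalIntegral.integral_sub (hvb.intervalIntegrable _ _) (hva.intervalIntegrable _ _)]
    exact intervalIntegral.integral_congr (fun w _ => hsub w)
  have hd := dom hpq (E := fun y => bb l u p q (a p) (a q) φ s r y - a y) (hbc.sub hac)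
    (by
      intro x y z hx hxy hyz hz hEx hEz
      have hxq : x ≤ q := hxy.trans (hyz.trans hz)
      have hpz : p ≤ z := hx.trans (hxy.trans hyz)
      have k1 : el1 l u p q (a p) (a q) s x < a x := by
        by_contra hcon
        push Not at hcon
        have : a x ≤ bb l u p q (a p) (a q) φ s r x :=
          le_min (le_UU hpq ha hx hxq) (hcon.trans ((le_max_left _ _).trans (le_max_right _ _)))
        linarith
      have k2 : el2 l u p q (a p) (a q) r z < a z := by
        by_contra hcon
        push Not at hcon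
        have : a z ≤ bb l u p q (a p) (a q) φ s r z :=
          le_min (le_UU hpq ha hpz hz) (hcon.trans ((le_max_right _ _).trans (le_max_right _ _)))
        linarith
      have k1' : el1 l u p q (a p) (a q) s y < a y := by
        have := (ha x y hx hxy (hyz.trans hz)).1
        unfold el1 at k1 ⊢
        linarith
      have k2' : el2 l u p q (a p) (a q) r y < a y := by
        have := (ha y z (hx.trans hxy) hyz hz).2
        unfold el2 at k2 ⊢
        linarith
      have k3 : φ y < a y := (el1_mono hlu hs).trans_lt k1'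
      have : bb l u p q (a p) (a q) φ s r y < a y :=
        (min_le_right _ _).trans_lt (max_lt k3 (max_lt k1' k2'))
      show bb l u p q (a p) (a q) φ s r y - a y < 0
      linarith)
    (by rw [hsub]; linarith) (by rw [hsub2]; linarith) hx hx'
  rw [hsub2] at hd
  linarith

/-- the replacement respects a floor -/
theorem floor (hlu : l ≤ u) (hpq : p ≤ q) (ha : SB l u p q a) (hac : Continuous a)
    {φ : ℝ → ℝ} (hφc : Continuous φ) (hφP : PL p q φ) (hφS : SB l u p q φ)
    (hφ : ∀ x, p ≤ x → x ≤ q → φ x ≤ a x) :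
    ∃ b : ℝ → ℝ, Continuous b ∧ PL p q b ∧ SB l u p q b ∧ b p = a p ∧ b q = a q ∧
      (∫ x in p..q, b x = ∫ x in p..q, a x) ∧
      (∫ x in p..q, ∫ y in p..x, b y = ∫ x in p..q, ∫ y in p..x, a y) ∧
      ∀ x, p ≤ x → x ≤ q → φ x ≤ b x := by
  obtain ⟨s, r, hs, hs', hr, hr', h0, h1⟩ := exists_sr hlu hpq ha hac hφc hφ
  refine ⟨bb l u p q (a p) (a q) φ s r, bb_continuous' hφc s r, bb_PL hφP _ _,
    bb_SB hlu hφS _ _, bb_at_p hlu hpq ha hs, bb_at_q hlu hpq ha hr', h0, h1, ?_⟩
  intro x hx hx'
  exact le_min ((hφ x hx hx').trans (le_UU hpq ha hx hx')) (le_max_left _ _)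

/-- smallest nonnegative candidate -/
noncomputable def cc (l u q aq s : ℝ) (x : ℝ) : ℝ :=
  min (max 0 (u * x + -(u * s))) (l * x + (aq - l * q))

theorem cc_cont (l u q aq : ℝ) : Continuous (fun z : ℝ × ℝ => cc l u q aq z.1 z.2) := by
  unfold cc; fun_prop

theorem cc_cont' (l u q aq s : ℝ) : Continuous (cc l u q aq s) := by
  unfold cc; fun_prop

theorem vpos (hlu : l ≤ u) (hl0 : l ≤ 0) (hu0 : 0 ≤ u) (hpq : p ≤ q) (ha : SB l u p q a)
    (hac : Continuous a) (hap : a p = 0) (hv : ∀ x, p ≤ x → x ≤ q → 0 ≤ ∫ y in p..x, a y) :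
    ∃ b : ℝ → ℝ, Continuous b ∧ PL p q b ∧ SB l u p q b ∧ b p = a p ∧ b q = a q ∧
      (∫ x in p..q, b x = ∫ x in p..q, a x) ∧
      (∫ x in p..q, ∫ y in p..x, b y = ∫ x in p..q, ∫ y in p..x, a y) ∧
      ∀ x, p ≤ x → x ≤ q → 0 ≤ ∫ y in p..x, b y := by
  have hai : ∀ x y : ℝ, IntervalIntegrable a volume x y := fun x y => hac.intervalIntegrable _ _
  have hci : ∀ s x y : ℝ, IntervalIntegrable (cc l u q (a q) s) volume x y := fun s x y =>
    (cc_cont' l u q (a q) s).intervalIntegrable _ _
  have hD : ∀ x, p ≤ x → x ≤ q → a x ≤ l * x + (a q - l * q) := by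
    intro x h1 h2
    have := (ha x q h1 h2 le_rfl).1; linarith
  have hU : ∀ x, p ≤ x → x ≤ q → a x ≤ u * (x - p) := by
    intro x h1 h2
    have := (ha p x le_rfl h1 h2).2; linarith
  -- the range of `s`
  obtain ⟨sm, hsm1, hsm2, hsmq, hsmI⟩ : ∃ sm, p ≤ sm ∧ sm ≤ q ∧ (∀ s, s ≤ sm →
      a q ≤ max 0 (u * q + -(u * s))) ∧ ∫ x in p..q, cc l u q (a q) sm x ≤ ∫ x in p..q, a x := by
    by_cases haq : a q ≤ 0
    · refine ⟨q, hpq, le_rfl, fun s _ => haq.trans (le_max_left _ _), ?_⟩
      have h1 : 0 ≤ ∫ x in p..q, - cc l u q (a q) q x := by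
        apply intervalIntegral.integral_nonneg hpq
        intro x hx
        have : cc l u q (a q) q x ≤ 0 := by
          unfold cc
          refine (min_le_left _ _).trans (max_le le_rfl ?_)
          nlinarith [mul_nonneg hu0 (sub_nonneg.2 hx.2)]
        linarith
      rw [intervalIntegral.integral_neg] at h1
      have := hv q hpq le_rfl
      linarith
    · push Not at haq
      have hu : 0 < u := by
        rcases eq_or_lt_of_le hu0 with h | h
        · exfalso
          have := hU q hpq le_rfl
          rw [← h] at this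
          linarith
        · exact h
      set sm := q - a q / u with hsm
      have hsm' : u * sm = u * q - a q := by rw [hsm]; field_simp
      have h1 : p ≤ sm := by
        have := hU q hpq le_rfl
        by_contra hcon
        push Not at hcon
        have := mul_lt_mul_of_pos_left hcon hu
        linarith
      have h2 : sm ≤ q := by
        have : 0 ≤ a q / u := by positivity
        linarith
      refine ⟨sm, h1, h2, fun s hs => ?_, ?_⟩
      · refine le_trans ?_ (le_max_right _ _)
        have := mul_le_mul_of_nonneg_left hs hu.le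
        linarith
      · have e1 := intervalIntegral.integral_add_adjacent_intervals (hci sm p sm) (hci sm sm q)
        have e2 := intervalIntegral.integral_add_adjacent_intervals (hai p sm) (hai sm q)
        have h3 : 0 ≤ ∫ x in p..sm, - cc l u q (a q) sm x := by
          apply intervalIntegral.integral_nonneg h1
          intro x hx
          have : cc l u q (a q) sm x ≤ 0 := by
            unfold cc
            refine (min_le_left _ _).trans (max_le le_rfl ?_)
            nlinarith [mul_nonneg hu0 (sub_nonneg.2 hx.2)]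
          linarith
        rw [intervalIntegral.integral_neg] at h3
        have h4 : ∫ x in sm..q, cc l u q (a q) sm x ≤ ∫ x in sm..q, a x := by
          apply intervalIntegral.integral_mono_on h2 (hci _ _ _) (hai _ _)
          intro x hx
          unfold cc
          refine (min_le_left _ _).trans ?_
          have h5 := (ha x q (h1.trans hx.1) hx.2 le_rfl).2
          have h6 : 0 ≤ u * (x - sm) := mul_nonneg hu0 (sub_nonneg.2 hx.1)
          apply max_le
          · linarith
          · linarith
        have := hv sm h1 h2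
        linarith
  -- `s`
  obtain ⟨s, hs, hsI⟩ : ∃ s ∈ Icc p sm, ∫ x in p..q, cc l u q (a q) s x = ∫ x in p..q, a x := by
    have hFc : Continuous (fun s : ℝ => ∫ x in p..q, cc l u q (a q) s x) :=
      intervalIntegral.continuous_parametric_intervalIntegral_of_continuous'
        (f := fun (s : ℝ) (x : ℝ) => cc l u q (a q) s x) (cc_cont l u q (a q)) p q
    have h1 : ∫ x in p..q, a x ≤ ∫ x in p..q, cc l u q (a q) p x := by
      apply intervalIntegral.integral_mono_on hpq (hai _ _) (hci _ _ _)
      intro x hx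
      unfold cc
      apply le_min
      · refine le_trans ?_ (le_max_right _ _)
        have := hU x hx.1 hx.2
        linarith
      · exact hD x hx.1 hx.2
    obtain ⟨s, hs, h⟩ := intermediate_value_Icc' hsm1 hFc.continuousOn ⟨hsmI, h1⟩
    exact ⟨s, hs, h⟩
  have hsq : s ≤ q := hs.2.trans hsm2
  -- properties of `cc s`
  have hcq : cc l u q (a q) s q = a q := by
    unfold cc
    rw [min_eq_right]
    · ring
    · have := hsmq s hs.2
      linarith
  have hcp : cc l u q (a q) s p = 0 := by
    unfold cc
    have h1 : max 0 (u * p + -(u * s)) = 0 := by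
      apply max_eq_left
      nlinarith [mul_nonneg hu0 (sub_nonneg.2 hs.1)]
    rw [h1]
    apply min_eq_left
    have := hD p le_rfl hpq
    linarith
  have hcle : ∀ x, x ≤ s → cc l u q (a q) s x ≤ 0 := by
    intro x hx
    unfold cc
    refine (min_le_left _ _).trans (max_le le_rfl ?_)
    nlinarith [mul_nonneg hu0 (sub_nonneg.2 hx)]
  have hvq := hv q hpq le_rfl
  have hcv0 : ∀ x, p ≤ x → x ≤ q → 0 ≤ ∫ y in p..x, cc l u q (a q) s y := by
    intro x h1 h2
    by_cases hDx : 0 ≤ l * x + (a q - l * q)
    · apply intervalIntegral.integral_nonneg h1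
      intro y hy
      unfold cc
      apply le_min (le_max_left _ _)
      nlinarith [mul_nonneg (neg_nonneg.2 hl0) (sub_nonneg.2 hy.2)]
    · push Not at hDx
      have h3 : 0 ≤ ∫ y in x..q, - cc l u q (a q) s y := by
        apply intervalIntegral.integral_nonneg h2
        intro y hy
        have : cc l u q (a q) s y ≤ l * y + (a q - l * q) := min_le_right _ _
        nlinarith [mul_nonneg (neg_nonneg.2 hl0) (sub_nonneg.2 hy.1)]
      rw [intervalIntegral.integral_neg] at h3
      have e1 := intervalIntegral.integral_add_adjacent_intervals (hci s p x) (hci s x q)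
      linarith
  have hcv1 : ∀ x, p ≤ x → x ≤ q → ∫ y in p..x, cc l u q (a q) s y ≤ ∫ y in p..x, a y := by
    intro x h1 h2
    have hneg : ∀ x, p ≤ x → x ≤ s → ∫ y in p..x, cc l u q (a q) s y ≤ 0 := by
      intro x h1 h2
      have h3 : 0 ≤ ∫ y in p..x, - cc l u q (a q) s y := by
        apply intervalIntegral.integral_nonneg h1
        intro y hy
        have := hcle y (hy.2.trans h2)
        linarith
      rw [intervalIntegral.integral_neg] at h3
      linarith
    by_cases hxs : x ≤ s
    · exact (hneg x h1 hxs).trans (hv x h1 h2)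
    · push Not at hxs
      by_cases hax : u * (x - s) ≤ a x
      · have e1 := intervalIntegral.integral_add_adjacent_intervals (hci s p s) (hci s s x)
        have e2 := intervalIntegral.integral_add_adjacent_intervals (hai p s) (hai s x)
        have h3 : ∫ y in s..x, cc l u q (a q) s y ≤ ∫ y in s..x, a y := by
          apply intervalIntegral.integral_mono_on hxs.le (hci _ _ _) (hai _ _)
          intro y hy
          unfold cc
          refine (min_le_left _ _).trans ?_
          have h5 := (ha y x (hs.1.trans hy.1) hy.2 h2).2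
          have h6 : 0 ≤ u * (y - s) := mul_nonneg hu0 (sub_nonneg.2 hy.1)
          apply max_le
          · linarith
          · linarith
        have h4 := hneg s hs.1 le_rfl
        have h5 := hv s hs.1 hsq
        linarith
      · push Not at hax
        have h3 : ∫ y in x..q, a y ≤ ∫ y in x..q, cc l u q (a q) s y := by
          apply intervalIntegral.integral_mono_on h2 (hai _ _) (hci _ _ _)
          intro y hy
          unfold cc
          apply le_min
          · refine le_trans ?_ (le_max_right _ _)
            have h5 := (ha x y h1 hy.1 hy.2).2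
            linarith
          · exact hD y (h1.trans hy.1) hy.2
        have e1 := intervalIntegral.integral_add_adjacent_intervals (hci s p x) (hci s x q)
        have e2 := intervalIntegral.integral_add_adjacent_intervals (hai p x) (hai x q)
        linarith
  -- the early function
  obtain ⟨s', hs'1, hs'2, hs'I⟩ := exists_early hlu hpq ha hac (el1_cont l u p q (a p) (a q) p)
      (fun x h1 h2 => el1_p_le hpq ha h1 h2)
  set φ := el1 l u p q (a p) (a q) p with hφ
  set b1 := bb l u p q (a p) (a q) φ s' q with hb1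
  have hb1c : Continuous b1 := bb_continuous' (el1_cont l u p q (a p) (a q) p) s' q
  have hb1i : ∀ x y : ℝ, IntervalIntegrable b1 volume x y := fun x y => hb1c.intervalIntegrable _ _
  have hearly : ∀ x, p ≤ x → x ≤ q → ∫ y in p..x, a y ≤ ∫ y in p..x, b1 y := fun x h1 h2 =>
    early hlu hpq ha hac (el1_cont l u p q (a p) (a q) p)
      (fun x h1 h2 => el1_p_le hpq ha h1 h2) hs'I h1 h2
  set c0 := cc l u q (a q) s with hc0
  have hc0c : Continuous c0 := cc_cont' l u q (a q) s
  have hva : Continuous (fun t => ∫ y in p..t, a y) :=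
    intervalIntegral.continuous_primitive hai p
  have hvb1 : Continuous (fun t => ∫ y in p..t, b1 y) :=
    intervalIntegral.continuous_primitive hb1i p
  have hvc0 : Continuous (fun t => ∫ y in p..t, c0 y) :=
    intervalIntegral.continuous_primitive (hci s) p
  set I := ∫ x in p..q, ∫ y in p..x, a y with hI
  set I0 := ∫ x in p..q, ∫ y in p..x, c0 y with hI0
  set I1 := ∫ x in p..q, ∫ y in p..x, b1 y with hI1
  have hI0I : I0 ≤ I := intervalIntegral.integral_mono_on hpq (hvc0.intervalIntegrable _ _)
    (hva.intervalIntegrable _ _) (fun x hx => hcv1 x hx.1 hx.2)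
  have hII1 : I ≤ I1 := intervalIntegral.integral_mono_on hpq (hva.intervalIntegrable _ _)
    (hvb1.intervalIntegrable _ _) (fun x hx => hearly x hx.1 hx.2)
  obtain ⟨c, d, hc, hd, hcd, hcI⟩ : ∃ c d : ℝ, 0 ≤ c ∧ 0 ≤ d ∧ c + d = 1 ∧ c * I0 + d * I1 = I := by
    rcases eq_or_lt_of_le (hI0I.trans hII1) with h | h
    · exact ⟨1, 0, zero_le_one, le_rfl, by ring, by linarith⟩
    · refine ⟨(I1 - I) / (I1 - I0), (I - I0) / (I1 - I0), ?_, ?_, ?_, ?_⟩
      · apply div_nonneg <;> linarith
      · apply div_nonneg <;> linarith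
      · have : I1 - I0 ≠ 0 := by linarith
        field_simp
        ring
      · have : I1 - I0 ≠ 0 := by linarith
        field_simp
        ring
  have hlinv : ∀ x, ∫ y in p..x, (c * c0 y + d * b1 y) =
      c * (∫ y in p..x, c0 y) + d * ∫ y in p..x, b1 y := by
    intro x
    rw [intervalIntegral.integral_add ((hci s p x).const_mul c) ((hb1i p x).const_mul d),
      intervalIntegral.integral_const_mul, intervalIntegral.integral_const_mul]
  refine ⟨fun x => c * c0 x + d * b1 x, by fun_prop, ?_, ?_, ?_, ?_, ?_, ?_, ?_⟩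
  · apply PL.comb
    · exact PL.min (PL.max (PL.aff _ _ 0 0 _ (fun x _ _ => by ring)) (PL.lin _ _ _ _))
        (PL.lin _ _ _ _)
    · exact bb_PL (PL.lin _ _ _ _) _ _
  · apply SB.comb hc hd hcd
    · exact SB.min (SB.max ((SB.aff (k := 0) (b := 0) hl0 hu0 _ _).congr
        (fun x _ _ => by ring)) (SB.aff hlu le_rfl _ _)) (SB.aff le_rfl hlu _ _)
    · exact bb_SB hlu (SB.aff le_rfl hlu _ _) _ _
  · show c * c0 p + d * b1 p = a p
    rw [hb1, bb_at_p hlu hpq ha hs'1, hcp, hap]
    ring
  · show c * c0 q + d * b1 q = a q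
    rw [hb1, bb_at_q hlu hpq ha le_rfl, hcq, ← add_mul, hcd, one_mul]
  · rw [hlinv, hsI, hs'I, ← add_mul, hcd, one_mul]
  · rw [intervalIntegral.integral_congr (fun x _ => hlinv x),
      intervalIntegral.integral_add ((hvc0.intervalIntegrable _ _).const_mul c)
        ((hvb1.intervalIntegrable _ _).const_mul d),
      intervalIntegral.integral_const_mul, intervalIntegral.integral_const_mul]
    exact hcI
  · intro x h1 h2
    rw [hlinv]
    have e1 := hcv0 x h1 h2
    have e2 := (hv x h1 h2).trans (hearly x h1 h2)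
    exact add_nonneg (mul_nonneg hc e1) (mul_nonneg hd e2)

end

end MP44e4f6
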