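import Mathlib
import Pool.Agent.Lib.MP_44e4f6_lc.PL
import Pool.Agent.Lib.MP_44e4f6_lc.Mom
import Pool.Agent.Lib.MP_44e4f6_lc.Rep

/-!
Local replacement to the right of a point.
-/

namespace MP44e4f6

open Set MeasureTheory intervalIntegral

def LowCrit (C : Set ℝ) (y : ℝ) : Prop := ∀ z ∈ C, y ≤ z
def UpCrit (C : Set ℝ) (y : ℝ) : Prop := ∀ z ∈ C, z ≤ y

theorem mem_of_near {C : Set ℝ} (hC : C.OrdConnected) {y : ℝ} (hy : y ∈ C) :
    ∃ ε > 0, ∀ z, |z - y| < ε → (LowCrit C y → y ≤ z) → (UpCrit C y → z ≤ y) → z ∈ C := by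
  have h1 : ∃ ε > 0, ∀ z, |z - y| < ε → z ≤ y → (LowCrit C y → y ≤ z) → z ∈ C := by
    by_cases h : LowCrit C y
    · refine ⟨1, one_pos, fun z _ hz hl => ?_⟩
      have : z = y := le_antisymm hz (hl h)
      rwa [this]
    · unfold LowCrit at h
      push Not at h
      obtain ⟨z1, hz1, hz1y⟩ := h
      refine ⟨y - z1, by linarith, fun z hz hzy _ => ?_⟩
      rw [abs_lt] at hz
      exact hC.out hz1 hy ⟨by linarith, hzy⟩
  have h2 : ∃ ε > 0, ∀ z, |z - y| < ε → y ≤ z → (UpCrit C y → z ≤ y) → z ∈ C := by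
    by_cases h : UpCrit C y
    · refine ⟨1, one_pos, fun z _ hz hl => ?_⟩
      have : z = y := le_antisymm (hl h) hz
      rwa [this]
    · unfold UpCrit at h
      push Not at h
      obtain ⟨z1, hz1, hz1y⟩ := h
      refine ⟨z1 - y, by linarith, fun z hz hzy _ => ?_⟩
      rw [abs_lt] at hz
      exact hC.out hy hz1 ⟨hzy, by linarith⟩
  obtain ⟨e1, he1, h1⟩ := h1
  obtain ⟨e2, he2, h2⟩ := h2
  refine ⟨min e1 e2, lt_min he1 he2, fun z hz hl hu => ?_⟩
  rcases le_total z y with hzy | hzy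
  · exact h1 z (hz.trans_le (min_le_left _ _)) hzy hl
  · exact h2 z (hz.trans_le (min_le_right _ _)) hzy hu

/-- a path is close to its initial data -/
theorem near (l u p h0 v0 a0 : ℝ) {ε : ℝ} (hε : 0 < ε) :
    ∃ δ > 0, ∀ q, p ≤ q → q < p + δ → ∀ H V b : ℝ → ℝ, IsPath H V b → SB l u p q b →
      H p = h0 → V p = v0 → b p = a0 → ∀ x, p ≤ x → x ≤ q →
      |b x - a0| < ε ∧ |V x - v0| < ε ∧ |H x - h0| < ε := by
  set K := |l| + |u| + 1 with hK
  set A := |a0| + K with hA
  set B := |v0| + A with hB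
  have hK0 : 0 < K := by positivity
  have hA0 : 0 < A := by positivity
  have hB0 : 0 < B := by positivity
  set δ := min 1 (ε / (A + B + K)) with hδ
  have hδ0 : 0 < δ := lt_min one_pos (by positivity)
  refine ⟨δ, hδ0, ?_⟩
  intro q hpq hq H V b hP hS hHp hVp hbp x hx hx'
  have hxδ : x - p < δ := by linarith
  have hx1 : x - p ≤ 1 := by
    have := min_le_left 1 (ε / (A + B + K)); linarith
  have hx2 : (x - p) * (A + B + K) < ε := by
    have h1 : δ ≤ ε / (A + B + K) := min_le_right _ _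
    have h2 : x - p < ε / (A + B + K) := lt_of_lt_of_le hxδ h1
    rwa [lt_div_iff₀ (by positivity)] at h2
  have hb : ∀ y, p ≤ y → y ≤ x → |b y - a0| ≤ K * (y - p) := by
    intro y hy hy'
    have := hS p y le_rfl hy (hy'.trans hx')
    rw [hbp] at this
    have e0 : 0 ≤ y - p := by linarith
    have e1 : -(|l|) ≤ l := neg_abs_le l
    have e2 : u ≤ |u| := le_abs_self u
    have e3 : 0 ≤ |l| := abs_nonneg l
    have e4 : 0 ≤ |u| := abs_nonneg u
    rw [abs_le]
    constructor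
    · nlinarith [mul_le_mul_of_nonneg_right e1 e0, mul_nonneg e4 e0]
    · nlinarith [mul_le_mul_of_nonneg_right e2 e0, mul_nonneg e3 e0]
  have hbA : ∀ y, p ≤ y → y ≤ x → |b y| ≤ A := by
    intro y hy hy'
    have h1 := hb y hy hy'
    have h2 : |b y| ≤ |b y - a0| + |a0| := by
      have := abs_add_le (b y - a0) a0
      rwa [sub_add_cancel] at this
    have h3 : K * (y - p) ≤ K * 1 := mul_le_mul_of_nonneg_left (by linarith) hK0.le
    linarith
  have hV : ∀ y, p ≤ y → y ≤ x → |V y - v0| ≤ A * (y - p) := by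
    intro y hy hy'
    have h1 := hP.hv p y
    rw [hVp] at h1
    rw [h1, add_sub_cancel_left]
    have h2 := intervalIntegral.norm_integral_le_of_norm_le_const (a := p) (b := y) (f := b)
      (C := A) (fun t ht => by
        rw [uIoc_of_le hy] at ht
        rw [Real.norm_eq_abs]
        exact hbA t ht.1.le (ht.2.trans hy'))
    rwa [Real.norm_eq_abs, abs_of_nonneg (by linarith : (0:ℝ) ≤ y - p)] at h2
  have hVB : ∀ y, p ≤ y → y ≤ x → |V y| ≤ B := by
    intro y hy hy'
    have h1 := hV y hy hy'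
    have h2 : |V y| ≤ |V y - v0| + |v0| := by
      have := abs_add_le (V y - v0) v0
      rwa [sub_add_cancel] at this
    have h3 : A * (y - p) ≤ A * 1 := mul_le_mul_of_nonneg_left (by linarith) hA0.le
    linarith
  have hH : |H x - h0| ≤ B * (x - p) := by
    have h1 := hP.hh p x
    rw [hHp] at h1
    rw [h1, add_sub_cancel_left]
    have h2 := intervalIntegral.norm_integral_le_of_norm_le_const (a := p) (b := x) (f := V)
      (C := B) (fun t ht => by
        rw [uIoc_of_le hx] at ht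
        rw [Real.norm_eq_abs]
        exact hVB t ht.1.le ht.2)
    rwa [Real.norm_eq_abs, abs_of_nonneg (by linarith : (0:ℝ) ≤ x - p)] at h2
  have hxp : 0 ≤ x - p := by linarith
  refine ⟨(hb x hx le_rfl).trans_lt ?_, (hV x hx le_rfl).trans_lt ?_, hH.trans_lt ?_⟩
  · nlinarith [mul_nonneg hA0.le hxp, mul_nonneg hB0.le hxp]
  · nlinarith [mul_nonneg hK0.le hxp, mul_nonneg hB0.le hxp]
  · nlinarith [mul_nonneg hA0.le hxp, mul_nonneg hK0.le hxp]

/-- feasibility on an interval, constant constraints -/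
structure Feas (C0 C1 C2 : Set ℝ) (l u s t : ℝ) (h v a : ℝ → ℝ) : Prop where
  sb : SB l u s t a
  m0 : ∀ x, s ≤ x → x ≤ t → h x ∈ C0
  m1 : ∀ x, s ≤ x → x ≤ t → v x ∈ C1
  m2 : ∀ x, s ≤ x → x ≤ t → a x ∈ C2

theorem Feas.mono {C0 C1 C2 : Set ℝ} {l u s t s' t' : ℝ} {h v a : ℝ → ℝ}
    (H : Feas C0 C1 C2 l u s t h v a) (hs : s ≤ s') (ht : t' ≤ t) :
    Feas C0 C1 C2 l u s' t' h v a :=
  ⟨H.sb.mono hs ht, fun x h1 h2 => H.m0 x (hs.trans h1) (h2.trans ht),
    fun x h1 h2 => H.m1 x (hs.trans h1) (h2.trans ht),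
    fun x h1 h2 => H.m2 x (hs.trans h1) (h2.trans ht)⟩

/-- the path can be replaced on `[s,t]` by a piecewise cubic one -/
def Repl (C0 C1 C2 : Set ℝ) (l u s t : ℝ) (h v a : ℝ → ℝ) : Prop :=
  ∃ H V b : ℝ → ℝ, IsPath H V b ∧ PL s t b ∧ H s = h s ∧ V s = v s ∧ b s = a s ∧
    H t = h t ∧ V t = v t ∧ b t = a t ∧ Feas C0 C1 C2 l u s t H V b

/-- replacement on all short intervals `[p, q]` -/
def RLoc (C0 C1 C2 : Set ℝ) (l u p t : ℝ) (h v a : ℝ → ℝ) : Prop :=
  ∃ δ > 0, ∀ q, p < q → q < p + δ → q ≤ t → Repl C0 C1 C2 l u p q h v a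

section paths

variable {l u p q : ℝ} {h v a : ℝ → ℝ}

theorem IsPath.h_eq (P : IsPath h v a) (p x : ℝ) :
    h x = h p + (x - p) * v p + ∫ t in p..x, ∫ y in p..t, a y := by
  rw [P.hh p x]
  have hva : Continuous (fun t => ∫ y in p..t, a y) :=
    intervalIntegral.continuous_primitive (fun x y => P.cont.intervalIntegrable x y) p
  have : ∫ t in p..x, v t = ∫ t in p..x, (v p + ∫ y in p..t, a y) :=
    intervalIntegral.integral_congr (fun t _ => P.hv p t)
  rw [this, intervalIntegral.integral_add (continuous_const.intervalIntegrable _ _)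
    (hva.intervalIntegrable _ _), intervalIntegral.integral_const, smul_eq_mul]
  ring

theorem path_of (P : IsPath h v a) {b : ℝ → ℝ} (hb : Continuous b)
    (h0 : ∫ x in p..q, b x = ∫ x in p..q, a x)
    (h1 : ∫ x in p..q, ∫ y in p..x, b y = ∫ x in p..q, ∫ y in p..x, a y) :
    ∃ H V : ℝ → ℝ, IsPath H V b ∧ H p = h p ∧ V p = v p ∧ H q = h q ∧ V q = v q := by
  have Q := isPath_mk hb p (h p) (v p)
  refine ⟨_, _, Q, ?_, ?_, ?_, ?_⟩
  · simp
  · simp
  · rw [Q.h_eq p q, P.h_eq p q, h1]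
    simp
  · show v p + ∫ y in p..q, b y = v q
    rw [h0, ← P.hv p q]

/-- replacement above -/
theorem repl_up (P : IsPath h v a) (hlu : l ≤ u) (hpq : p ≤ q) (ha : SB l u p q a) :
    ∃ H V b : ℝ → ℝ, IsPath H V b ∧ PL p q b ∧ SB l u p q b ∧ H p = h p ∧ V p = v p ∧ b p = a p ∧
      H q = h q ∧ V q = v q ∧ b q = a q ∧ ∀ x, p ≤ x → x ≤ q → h x ≤ H x := by
  obtain ⟨b, hbc, hbP, hbS, hbp, hbq, h0, h1, h2⟩ := up hlu hpq ha P.cont
  obtain ⟨H, V, Q, e1, e2, e3, e4⟩ := path_of P hbc h0 h1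
  refine ⟨H, V, b, Q, hbP, hbS, e1, e2, hbp, e3, e4, hbq, ?_⟩
  intro x hx hx'
  rw [Q.h_eq p x, P.h_eq p x, e1, e2]
  linarith [h2 x hx hx']

/-- replacement above a floor for `a` -/
theorem repl_floor (P : IsPath h v a) (hlu : l ≤ u) (hu : 0 ≤ u) (hpq : p ≤ q)
    (ha : SB l u p q a) (hfl : ∀ x, p ≤ x → x ≤ q → a p ≤ a x) :
    ∃ H V b : ℝ → ℝ, IsPath H V b ∧ PL p q b ∧ SB l u p q b ∧ H p = h p ∧ V p = v p ∧ b p = a p ∧
      H q = h q ∧ V q = v q ∧ b q = a q ∧ ∀ x, p ≤ x → x ≤ q → a p ≤ b x := by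
  set k := max l 0 with hk
  obtain ⟨b, hbc, hbP, hbS, hbp, hbq, h0, h1, h2⟩ := floor hlu hpq ha P.cont
    (φ := fun x => k * x + (a p - k * p)) (by fun_prop) (PL.lin _ _ _ _)
    (SB.aff (le_max_left _ _) (max_le hlu hu) _ _) (by
      intro x hx hx'
      rcases le_total l 0 with hl | hl
      · rw [hk, max_eq_right hl]
        have := hfl x hx hx'
        linarith
      · rw [hk, max_eq_left hl]
        have := (ha p x le_rfl hx hx').1
        linarith)
  obtain ⟨H, V, Q, e1, e2, e3, e4⟩ := path_of P hbc h0 h1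
  refine ⟨H, V, b, Q, hbP, hbS, e1, e2, hbp, e3, e4, hbq, ?_⟩
  intro x hx hx'
  refine le_trans ?_ (h2 x hx hx')
  have : 0 ≤ k * (x - p) := mul_nonneg (le_max_right _ _) (by linarith)
  show a p ≤ k * x + (a p - k * p)
  linarith

/-- replacement with `V ≥ v p` -/
theorem repl_vpos (P : IsPath h v a) (hlu : l ≤ u) (hu : 0 ≤ u) (hpq : p ≤ q)
    (ha : SB l u p q a) (hap : a p = 0) (hv : ∀ x, p ≤ x → x ≤ q → v p ≤ v x) :
    ∃ H V b : ℝ → ℝ, IsPath H V b ∧ PL p q b ∧ SB l u p q b ∧ H p = h p ∧ V p = v p ∧ b p = a p ∧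
      H q = h q ∧ V q = v q ∧ b q = a q ∧ ∀ x, p ≤ x → x ≤ q → v p ≤ V x := by
  rcases le_total l 0 with hl | hl
  · obtain ⟨b, hbc, hbP, hbS, hbp, hbq, h0, h1, h2⟩ := vpos hlu hl hu hpq ha P.cont hap (by
      intro x hx hx'
      have := P.hv p x
      linarith [hv x hx hx'])
    obtain ⟨H, V, Q, e1, e2, e3, e4⟩ := path_of P hbc h0 h1
    refine ⟨H, V, b, Q, hbP, hbS, e1, e2, hbp, e3, e4, hbq, ?_⟩
    intro x hx hx'
    rw [Q.hv p x, e2]
    linarith [h2 x hx hx']
  · obtain ⟨H, V, b, Q, hbP, hbS, e1, e2, hbp, e3, e4, hbq, _⟩ := repl_up P hlu hpq ha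
    refine ⟨H, V, b, Q, hbP, hbS, e1, e2, hbp, e3, e4, hbq, ?_⟩
    intro x hx hx'
    rw [Q.hv p x, e2]
    have : 0 ≤ ∫ t in p..x, b t := by
      apply intervalIntegral.integral_nonneg hx
      intro y hy
      have h1 := (hbS p y le_rfl hy.1 (hy.2.trans hx')).1
      rw [hbp, hap] at h1
      have : 0 ≤ l * (y - p) := mul_nonneg hl (by linarith [hy.1])
      linarith
    linarith

/-- the path itself, if `a` is constant -/
theorem repl_self {C0 C1 C2 : Set ℝ} (P : IsPath h v a) (hF : Feas C0 C1 C2 l u p q h v a)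
    (hc : ∀ x, p ≤ x → x ≤ q → a x = a p) : Repl C0 C1 C2 l u p q h v a :=
  ⟨h, v, a, P, PL.aff p q 0 (a p) a (fun x h1 h2 => by rw [hc x h1 h2]; ring), rfl, rfl, rfl, rfl,
    rfl, rfl, hF⟩

theorem IsPath.dv (P : IsPath h v a) (x : ℝ) : HasDerivAt v (a x) x := by
  have : v = fun x => v 0 + ∫ t in (0:ℝ)..x, a t := funext (fun x => P.hv 0 x)
  rw [this]
  exact (intervalIntegral.integral_hasDerivAt_right (P.cont.intervalIntegrable _ _)
    (P.cont.stronglyMeasurableAtFilter _ _) P.cont.continuousAt).const_add _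

theorem IsPath.dh (P : IsPath h v a) (x : ℝ) : HasDerivAt h (v x) x := by
  have : h = fun x => h 0 + ∫ t in (0:ℝ)..x, v t := funext (fun x => P.hh 0 x)
  rw [this]
  exact (intervalIntegral.integral_hasDerivAt_right (P.vcont.intervalIntegrable _ _)
    (P.vcont.stronglyMeasurableAtFilter _ _) P.vcont.continuousAt).const_add _

theorem zero_of_const {F f : ℝ → ℝ} (hF : ∀ x, HasDerivAt F (f x) x) (hpq : p < q)
    (hc : ∀ x, p ≤ x → x ≤ q → F x = F p) : ∀ x, p ≤ x → x ≤ q → f x = 0 := by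
  intro x hx hx'
  have h1 : HasDerivWithinAt F (f x) (Icc p q) x := (hF x).hasDerivWithinAt
  have h2 : HasDerivWithinAt F 0 (Icc p q) x :=
    (hasDerivWithinAt_const x (Icc p q) (F p)).congr (fun y hy => hc y hy.1 hy.2) (hc x hx hx')
  exact ((uniqueDiffOn_Icc hpq) x ⟨hx, hx'⟩).eq_deriv _ h1 h2

/-- vanishing of `a` -/
theorem a_zero_of (P : IsPath h v a) (hpq : p < q) (h1 : ∀ x, p ≤ x → x ≤ q → 0 ≤ a x)
    (h2 : ∀ x, p ≤ x → x ≤ q → v x ≤ v p) : ∀ x, p ≤ x → x ≤ q → a x = 0 := by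
  apply zero_of_const P.dv hpq
  intro x hx hx'
  apply le_antisymm (h2 x hx hx')
  rw [P.hv p x]
  have : 0 ≤ ∫ t in p..x, a t :=
    intervalIntegral.integral_nonneg hx (fun t ht => h1 t ht.1 (ht.2.trans hx'))
  linarith

theorem v_zero_of (P : IsPath h v a) (hpq : p < q) (h1 : ∀ x, p ≤ x → x ≤ q → 0 ≤ v x)
    (h2 : ∀ x, p ≤ x → x ≤ q → h x ≤ h p) : ∀ x, p ≤ x → x ≤ q → v x = 0 := by
  apply zero_of_const P.dh hpq
  intro x hx hx'
  apply le_antisymm (h2 x hx hx')
  rw [P.hh p x]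
  have : 0 ≤ ∫ t in p..x, v t :=
    intervalIntegral.integral_nonneg hx (fun t ht => h1 t ht.1 (ht.2.trans hx'))
  linarith

theorem IsPath.mono_v (P : IsPath h v a) {x y : ℝ} (hxy : x ≤ y)
    (h1 : ∀ t, x ≤ t → t ≤ y → 0 ≤ a t) : v x ≤ v y := by
  rw [P.hv x y]
  have : 0 ≤ ∫ t in x..y, a t :=
    intervalIntegral.integral_nonneg hxy (fun t ht => h1 t ht.1 ht.2)
  linarith

theorem IsPath.mono_h (P : IsPath h v a) {x y : ℝ} (hxy : x ≤ y)
    (h1 : ∀ t, x ≤ t → t ≤ y → 0 ≤ v t) : h x ≤ h y := by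
  rw [P.hh x y]
  have : 0 ≤ ∫ t in x..y, v t :=
    intervalIntegral.integral_nonneg hxy (fun t ht => h1 t ht.1 ht.2)
  linarith

theorem IsPath.neg (P : IsPath h v a) :
    IsPath (fun x => - h x) (fun x => - v x) (fun x => - a x) := by
  refine ⟨P.cont.neg, fun s x => ?_, fun s x => ?_⟩
  · show - v x = - v s + ∫ t in s..x, - a t
    rw [intervalIntegral.integral_neg, P.hv s x]; ring
  · show - h x = - h s + ∫ t in s..x, - v t
    rw [intervalIntegral.integral_neg, P.hh s x]; ring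

theorem IsPath.reflect (P : IsPath h v a) :
    IsPath (fun x => h (-x)) (fun x => - v (-x)) (fun x => a (-x)) := by
  refine ⟨P.cont.comp continuous_neg, fun s x => ?_, fun s x => ?_⟩
  · show - v (-x) = - v (-s) + ∫ t in s..x, a (-t)
    rw [intervalIntegral.integral_comp_neg (fun t => a t), P.hv (-x) (-s)]; ring
  · show h (-x) = h (-s) + ∫ t in s..x, - v (-t)
    rw [intervalIntegral.integral_neg, intervalIntegral.integral_comp_neg (fun t => v t),
      P.hh (-x) (-s)]; ring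

end paths

section neg

variable {C0 C1 C2 : Set ℝ} {l u p t : ℝ} {h v a : ℝ → ℝ}

theorem Feas.neg (F : Feas C0 C1 C2 l u p t h v a) :
    Feas (-C0) (-C1) (-C2) (-u) (-l) p t (fun x => - h x) (fun x => - v x) (fun x => - a x) :=
  ⟨F.sb.neg, fun x h1 h2 => by simpa using F.m0 x h1 h2, fun x h1 h2 => by simpa using F.m1 x h1 h2,
    fun x h1 h2 => by simpa using F.m2 x h1 h2⟩

theorem Repl.neg (R : Repl C0 C1 C2 l u p t h v a) :
    Repl (-C0) (-C1) (-C2) (-u) (-l) p t (fun x => - h x) (fun x => - v x) (fun x => - a x) := by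
  obtain ⟨H, V, b, P, hP, e1, e2, e3, e4, e5, e6, F⟩ := R
  exact ⟨_, _, _, P.neg, hP.neg, by simp [e1], by simp [e2], by simp [e3], by simp [e4],
    by simp [e5], by simp [e6], F.neg⟩

theorem RLoc.of_neg
    (R : RLoc (-C0) (-C1) (-C2) (-u) (-l) p t (fun x => - h x) (fun x => - v x) (fun x => - a x)) :
    RLoc C0 C1 C2 l u p t h v a := by
  obtain ⟨δ, hδ, R⟩ := R
  refine ⟨δ, hδ, fun q h1 h2 h3 => ?_⟩
  have := (R q h1 h2 h3).neg
  simpa using this

end neg

section loc

variable {C0 C1 C2 : Set ℝ} {l u p t : ℝ} {h v a : ℝ → ℝ}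

/-- `a p < 0` and `v` critical from below is impossible -/
theorem low1 (P : IsPath h v a) (hpt : p < t) (hc : ∀ x, p ≤ x → x ≤ t → v p ≤ v x) : 0 ≤ a p := by
  by_contra hcon
  push Not at hcon
  obtain ⟨δ, hδ, hd⟩ := Metric.continuousAt_iff.1 (P.cont.continuousAt (x := p)) (- a p) (by linarith)
  set q := min t (p + δ / 2) with hq
  have hpq : p < q := lt_min hpt (by linarith)
  have hneg : ∀ x, p ≤ x → x ≤ q → 0 ≤ - a x := by
    intro x hx hx'
    have : dist x p < δ := by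
      rw [Real.dist_eq, abs_of_nonneg (by linarith)]
      have := min_le_right t (p + δ / 2)
      linarith
    have := hd this
    rw [Real.dist_eq, abs_lt] at this
    linarith [this.2]
  have hz := a_zero_of P.neg hpq hneg (by
    intro x hx hx'
    have := hc x hx (hx'.trans (min_le_left _ _))
    show - v x ≤ - v p
    linarith) p le_rfl hpq.le
  linarith

theorem low0 (P : IsPath h v a) (hpt : p < t) (hc : ∀ x, p ≤ x → x ≤ t → h p ≤ h x) :
    0 ≤ v p ∧ (v p = 0 → 0 ≤ a p) := by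
  constructor
  · by_contra hcon
    push Not at hcon
    obtain ⟨δ, hδ, hd⟩ := Metric.continuousAt_iff.1 (P.vcont.continuousAt (x := p)) (- v p)
      (by linarith)
    set q := min t (p + δ / 2) with hq
    have hpq : p < q := lt_min hpt (by linarith)
    have hneg : ∀ x, p ≤ x → x ≤ q → 0 ≤ - v x := by
      intro x hx hx'
      have : dist x p < δ := by
        rw [Real.dist_eq, abs_of_nonneg (by linarith)]
        have := min_le_right t (p + δ / 2)
        linarith
      have := hd this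
      rw [Real.dist_eq, abs_lt] at this
      linarith [this.2]
    have hz := v_zero_of P.neg hpq hneg (by
      intro x hx hx'
      have := hc x hx (hx'.trans (min_le_left _ _))
      show - h x ≤ - h p
      linarith) p le_rfl hpq.le
    linarith
  · intro hv0
    by_contra hcon
    push Not at hcon
    obtain ⟨δ, hδ, hd⟩ := Metric.continuousAt_iff.1 (P.cont.continuousAt (x := p)) (- a p)
      (by linarith)
    set q := min t (p + δ / 2) with hq
    have hpq : p < q := lt_min hpt (by linarith)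
    have hneg : ∀ x, p ≤ x → x ≤ q → 0 ≤ - a x := by
      intro x hx hx'
      have : dist x p < δ := by
        rw [Real.dist_eq, abs_of_nonneg (by linarith)]
        have := min_le_right t (p + δ / 2)
        linarith
      have := hd this
      rw [Real.dist_eq, abs_lt] at this
      linarith [this.2]
    have hvneg : ∀ x, p ≤ x → x ≤ q → 0 ≤ - v x := by
      intro x hx hx'
      have := P.neg.mono_v hx (fun y h1 h2 => hneg y h1 (h2.trans hx'))
      simp only [hv0] at this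
      linarith
    have hz := v_zero_of P.neg hpq hvneg (by
      intro x hx hx'
      have := hc x hx (hx'.trans (min_le_left _ _))
      show - h x ≤ - h p
      linarith)
    have hz2 := zero_of_const P.dv hpq (by
      intro x hx hx'
      have e1 := hz x hx hx'
      rw [hv0]
      linarith) p le_rfl hpq.le
    linarith

end loc

end MP44e4f6
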