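import Mathlib
import Pool.Agent.Lib.MP_44e4f6_lc.PL
import Pool.Agent.Lib.MP_44e4f6_lc.Mom
import Pool.Agent.Lib.MP_44e4f6_lc.Rep
import Pool.Agent.Lib.MP_44e4f6_lc.Loc

/-!
Local replacement: case analysis.
-/

namespace MP44e4f6

open Set MeasureTheory intervalIntegral

section loc

variable {C0 C1 C2 : Set ℝ} {l u p t : ℝ} {h v a : ℝ → ℝ}

theorem lowhalf (P : IsPath h v a) (hpt : p < t)
    (m0 : ∀ x, p ≤ x → x ≤ t → h x ∈ C0) (m1 : ∀ x, p ≤ x → x ≤ t → v x ∈ C1) :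
    ∃ δ > 0, ∀ q, p ≤ q → q < p + δ → ∀ H V b : ℝ → ℝ, IsPath H V b → SB l u p q b →
      H p = h p → V p = v p → b p = a p →
      (LowCrit C1 (v p) → (a p = 0 → ∀ x, p ≤ x → x ≤ q → v p ≤ V x) →
        ∀ x, p ≤ x → x ≤ q → v p ≤ V x) ∧
      (LowCrit C0 (h p) → (a p = 0 → v p = 0 → ∀ x, p ≤ x → x ≤ q → h p ≤ H x) →
        ∀ x, p ≤ x → x ≤ q → h p ≤ H x) := by
  set ε := min (if a p = 0 then 1 else |a p|) (if v p = 0 then 1 else |v p|) with hε
  have hε0 : 0 < ε := by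
    apply lt_min
    · split_ifs with h0
      · exact one_pos
      · exact abs_pos.2 h0
    · split_ifs with h0
      · exact one_pos
      · exact abs_pos.2 h0
  obtain ⟨δ, hδ, hn⟩ := near l u p (h p) (v p) (a p) hε0
  refine ⟨δ, hδ, ?_⟩
  intro q hpq hq H V b Q hS e1 e2 e3
  have hN := hn q hpq hq H V b Q hS e1 e2 e3
  have hbpos : 0 < a p → ∀ x, p ≤ x → x ≤ q → 0 ≤ b x := by
    intro h0 x h1 h2
    have h3 := (hN x h1 h2).1
    have h4 : ε ≤ a p := by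
      rw [hε, if_neg h0.ne', abs_of_pos h0]
      exact min_le_left _ _
    have := (abs_lt.1 h3).1
    linarith
  have hVpos : 0 < v p → ∀ x, p ≤ x → x ≤ q → 0 ≤ V x := by
    intro h0 x h1 h2
    have h3 := (hN x h1 h2).2.1
    have h4 : ε ≤ v p := by
      have h5 : (if v p = 0 then 1 else |v p|) = v p := by
        rw [if_neg h0.ne', abs_of_pos h0]
      rw [hε, h5]
      exact min_le_right _ _
    have := (abs_lt.1 h3).1
    linarith
  constructor
  · intro hc hyp x h1 h2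
    have ha0 := low1 P hpt (fun y hy hy' => hc _ (m1 y hy hy'))
    rcases eq_or_lt_of_le ha0 with h0 | h0
    · exact hyp h0.symm x h1 h2
    · rw [← e2]
      exact Q.mono_v h1 (fun y hy hy' => hbpos h0 y hy (hy'.trans h2))
  · intro hc hyp x h1 h2
    obtain ⟨hv0, hva⟩ := low0 P hpt (fun y hy hy' => hc _ (m0 y hy hy'))
    rcases eq_or_lt_of_le hv0 with h0 | h0
    · rcases eq_or_lt_of_le (hva h0.symm) with h3 | h3
      · exact hyp h3.symm h0.symm x h1 h2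
      · rw [← e1]
        apply Q.mono_h h1
        intro y hy hy'
        have := Q.mono_v hy (fun z hz hz' => hbpos h3 z hz (hz'.trans (hy'.trans h2)))
        rw [e2, ← h0] at this
        exact this
    · rw [← e1]
      exact Q.mono_h h1 (fun y hy hy' => hVpos h0 y hy (hy'.trans h2))

theorem lowCrit_neg {C : Set ℝ} {y : ℝ} (h : UpCrit C y) : LowCrit (-C) (-y) := by
  intro z hz
  have := h (-z) (by simpa using hz)
  linarith

theorem upCrit_neg {C : Set ℝ} {y : ℝ} (h : LowCrit C y) : UpCrit (-C) (-y) := by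
  intro z hz
  have := h (-z) (by simpa using hz)
  linarith

theorem lowCrit_neg_iff {C : Set ℝ} {y : ℝ} : LowCrit (-C) (-y) ↔ UpCrit C y := by
  constructor
  · intro h
    have := upCrit_neg h
    simpa using this
  · exact lowCrit_neg

theorem upCrit_neg_iff {C : Set ℝ} {y : ℝ} : UpCrit (-C) (-y) ↔ LowCrit C y := by
  constructor
  · intro h
    have := lowCrit_neg h
    simpa using this
  · exact upCrit_neg

theorem finish (P : IsPath h v a) (hpt : p < t) (F : Feas C0 C1 C2 l u p t h v a)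
    (o0 : C0.OrdConnected) (o1 : C1.OrdConnected) :
    ∃ δ > 0, ∀ q, p ≤ q → q < p + δ → ∀ H V b : ℝ → ℝ, IsPath H V b → SB l u p q b →
      H p = h p → V p = v p → b p = a p → (∀ x, p ≤ x → x ≤ q → b x ∈ C2) →
      (LowCrit C1 (v p) → a p = 0 → ∀ x, p ≤ x → x ≤ q → v p ≤ V x) →
      (UpCrit C1 (v p) → a p = 0 → ∀ x, p ≤ x → x ≤ q → V x ≤ v p) →
      (LowCrit C0 (h p) → a p = 0 → v p = 0 → ∀ x, p ≤ x → x ≤ q → h p ≤ H x) →
      (UpCrit C0 (h p) → a p = 0 → v p = 0 → ∀ x, p ≤ x → x ≤ q → H x ≤ h p) →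
      Feas C0 C1 C2 l u p q H V b := by
  obtain ⟨ε0, hε0, hm0⟩ := mem_of_near o0 (F.m0 p le_rfl hpt.le)
  obtain ⟨ε1, hε1, hm1⟩ := mem_of_near o1 (F.m1 p le_rfl hpt.le)
  obtain ⟨δ1, hδ1, hn⟩ := near l u p (h p) (v p) (a p) (lt_min hε0 hε1)
  obtain ⟨δ2, hδ2, hl⟩ := lowhalf (l := l) (u := u) P hpt F.m0 F.m1
  obtain ⟨δ3, hδ3, hu⟩ := lowhalf (l := -u) (u := -l) P.neg hpt F.neg.m0 F.neg.m1
  refine ⟨min δ1 (min δ2 δ3), lt_min hδ1 (lt_min hδ2 hδ3), ?_⟩
  intro q hpq hq H V b Q hS e1 e2 e3 hb a1 a2 a3 a4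
  have hq1 : q < p + δ1 := hq.trans_le (by linarith [min_le_left δ1 (min δ2 δ3)])
  have hq2 : q < p + δ2 := hq.trans_le (by
    linarith [min_le_right δ1 (min δ2 δ3), min_le_left δ2 δ3])
  have hq3 : q < p + δ3 := hq.trans_le (by
    linarith [min_le_right δ1 (min δ2 δ3), min_le_right δ2 δ3])
  have hN := hn q hpq hq1 H V b Q hS e1 e2 e3
  have hL := hl q hpq hq2 H V b Q hS e1 e2 e3
  have hU := hu q hpq hq3 _ _ _ Q.neg hS.neg (by simp [e1]) (by simp [e2]) (by simp [e3])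
  refine ⟨hS, ?_, ?_, hb⟩
  · intro x h1 h2
    apply hm0 _ ((hN x h1 h2).2.2.trans_le (min_le_left _ _))
    · intro hc
      exact hL.2 hc (a3 hc) x h1 h2
    · intro hc
      have := hU.2 (lowCrit_neg hc) (by
        intro b1 b2 x h1 h2
        have := a4 hc (by simpa using b1) (by simpa using b2) x h1 h2
        show - h p ≤ - H x
        linarith) x h1 h2
      have this' : - h p ≤ - H x := this
      linarith
  · intro x h1 h2
    apply hm1 _ ((hN x h1 h2).2.1.trans_le (min_le_right _ _))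
    · intro hc
      exact hL.1 hc (a1 hc) x h1 h2
    · intro hc
      have := hU.1 (lowCrit_neg hc) (by
        intro b1 x h1 h2
        have := a2 hc (by simpa using b1) x h1 h2
        show - v p ≤ - V x
        linarith) x h1 h2
      have this' : - v p ≤ - V x := this
      linarith

/-- `u < 0` and `a` critical from below is impossible -/
theorem u_nonneg (hpt : p < t) (F : Feas C0 C1 C2 l u p t h v a)
    (hc : ∀ x, p ≤ x → x ≤ t → a p ≤ a x) : 0 ≤ u := by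
  have h1 := (F.sb p t le_rfl hpt.le le_rfl).2
  have h2 := hc t hpt.le le_rfl
  by_contra hcon
  push Not at hcon
  have : u * (t - p) < 0 := mul_neg_of_neg_of_pos hcon (by linarith)
  linarith

theorem u_nonneg' (P : IsPath h v a) (hpt : p < t) (F : Feas C0 C1 C2 l u p t h v a)
    (hap : a p = 0) (hc : ∀ x, p ≤ x → x ≤ t → v p ≤ v x) : 0 ≤ u := by
  by_contra hcon
  push Not at hcon
  have hneg : ∀ x, p ≤ x → x ≤ t → 0 ≤ - a x := by
    intro x hx hx'
    have h1 := (F.sb p x le_rfl hx hx').2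
    have : u * (x - p) ≤ 0 := mul_nonpos_of_nonpos_of_nonneg hcon.le (by linarith)
    linarith
  have hz := a_zero_of P.neg hpt hneg (by
    intro x hx hx'
    have := hc x hx hx'
    show - v x ≤ - v p
    linarith) t hpt.le le_rfl
  have h1 := (F.sb p t le_rfl hpt.le le_rfl).2
  have : u * (t - p) < 0 := mul_neg_of_neg_of_pos hcon (by linarith)
  linarith

/-- the trivial case -/
theorem triv (P : IsPath h v a) (hpt : p < t) (F : Feas C0 C1 C2 l u p t h v a)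
    (hc : ∀ x, p ≤ x → x ≤ t → a x = a p) : RLoc C0 C1 C2 l u p t h v a :=
  ⟨1, one_pos, fun q h1 _ h3 => repl_self P (F.mono le_rfl h3)
    (fun x hx hx' => hc x hx (hx'.trans h3))⟩

theorem case2 (hlu : l ≤ u) (P : IsPath h v a) (hpt : p < t) (F : Feas C0 C1 C2 l u p t h v a)
    (o0 : C0.OrdConnected) (o1 : C1.OrdConnected) (o2 : C2.OrdConnected)
    (c1 : LowCrit C2 (a p)) (c2 : ¬ UpCrit C2 (a p)) : RLoc C0 C1 C2 l u p t h v a := by
  have hge : ∀ x, p ≤ x → x ≤ t → a p ≤ a x := fun x h1 h2 => c1 _ (F.m2 x h1 h2)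
  have hu := u_nonneg hpt F hge
  by_cases t1 : a p = 0 ∧ UpCrit C1 (v p)
  · have hz := a_zero_of P hpt (fun x h1 h2 => t1.1 ▸ hge x h1 h2)
      (fun x h1 h2 => t1.2 _ (F.m1 x h1 h2))
    exact triv P hpt F (fun x h1 h2 => by rw [hz x h1 h2, t1.1])
  by_cases t2 : a p = 0 ∧ v p = 0 ∧ UpCrit C0 (h p)
  · have hvge : ∀ x, p ≤ x → x ≤ t → 0 ≤ v x := by
      intro x h1 h2
      have := P.mono_v h1 (fun y hy hy' => t2.1 ▸ hge y hy (hy'.trans h2))
      rwa [t2.2.1] at this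
    have hz := v_zero_of P hpt hvge (fun x h1 h2 => t2.2.2 _ (F.m0 x h1 h2))
    have hz2 := zero_of_const P.dv hpt (fun x h1 h2 => by rw [hz x h1 h2, t2.2.1])
    exact triv P hpt F (fun x h1 h2 => by rw [hz2 x h1 h2, t2.1])
  obtain ⟨ε, hε, hm⟩ := mem_of_near o2 (F.m2 p le_rfl hpt.le)
  obtain ⟨δ1, hδ1, hn⟩ := near l u p (h p) (v p) (a p) hε
  obtain ⟨δ2, hδ2, hf⟩ := finish P hpt F o0 o1
  refine ⟨min δ1 δ2, lt_min hδ1 hδ2, ?_⟩
  intro q hpq hq hqt
  have hq1 : q < p + δ1 := hq.trans_le (by linarith [min_le_left δ1 δ2])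
  have hq2 : q < p + δ2 := hq.trans_le (by linarith [min_le_right δ1 δ2])
  obtain ⟨H, V, b, Q, hPL, hS, e1, e2, e3, e4, e5, e6, hfl⟩ :=
    repl_floor P hlu hu hpq.le (F.sb.mono le_rfl hqt) (fun x h1 h2 => hge x h1 (h2.trans hqt))
  have hN := hn q hpq.le hq1 H V b Q hS e1 e2 e3
  have hVge : a p = 0 → ∀ x, p ≤ x → x ≤ q → v p ≤ V x := by
    intro h0 x h1 h2
    rw [← e2]
    exact Q.mono_v h1 (fun y hy hy' => h0 ▸ hfl y hy (hy'.trans h2))
  refine ⟨H, V, b, Q, hPL, e1, e2, e3, e4, e5, e6, hf q hpq.le hq2 H V b Q hS e1 e2 e3 ?_ ?_ ?_ ?_ ?_⟩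
  · intro x h1 h2
    exact hm _ (hN x h1 h2).1 (fun _ => hfl x h1 h2) (fun hc => absurd hc c2)
  · intro _ h0
    exact hVge h0
  · intro hc h0
    exact absurd ⟨h0, hc⟩ t1
  · intro _ h0 hv0 x h1 h2
    rw [← e1]
    apply Q.mono_h h1
    intro y hy hy'
    have := hVge h0 y hy (hy'.trans h2)
    rwa [hv0] at this
  · intro hc h0 hv0
    exact absurd ⟨h0, hv0, hc⟩ t2

theorem case1 (hlu : l ≤ u) (P : IsPath h v a) (hpt : p < t) (F : Feas C0 C1 C2 l u p t h v a)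
    (o0 : C0.OrdConnected) (o1 : C1.OrdConnected) (o2 : C2.OrdConnected)
    (c1 : ¬ LowCrit C2 (a p)) (c2 : ¬ UpCrit C2 (a p)) (hap : a p = 0)
    (d1 : LowCrit C1 (v p)) (d2 : ¬ UpCrit C1 (v p)) : RLoc C0 C1 C2 l u p t h v a := by
  have hge : ∀ x, p ≤ x → x ≤ t → v p ≤ v x := fun x h1 h2 => d1 _ (F.m1 x h1 h2)
  have hu := u_nonneg' P hpt F hap hge
  by_cases t2 : v p = 0 ∧ UpCrit C0 (h p)
  · have hz := v_zero_of P hpt (fun x h1 h2 => t2.1 ▸ hge x h1 h2)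
      (fun x h1 h2 => t2.2 _ (F.m0 x h1 h2))
    have hz2 := zero_of_const P.dv hpt (fun x h1 h2 => by rw [hz x h1 h2, t2.1])
    exact triv P hpt F (fun x h1 h2 => by rw [hz2 x h1 h2, hap])
  obtain ⟨ε, hε, hm⟩ := mem_of_near o2 (F.m2 p le_rfl hpt.le)
  obtain ⟨δ1, hδ1, hn⟩ := near l u p (h p) (v p) (a p) hε
  obtain ⟨δ2, hδ2, hf⟩ := finish P hpt F o0 o1
  refine ⟨min δ1 δ2, lt_min hδ1 hδ2, ?_⟩
  intro q hpq hq hqt
  have hq1 : q < p + δ1 := hq.trans_le (by linarith [min_le_left δ1 δ2])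
  have hq2 : q < p + δ2 := hq.trans_le (by linarith [min_le_right δ1 δ2])
  obtain ⟨H, V, b, Q, hPL, hS, e1, e2, e3, e4, e5, e6, hVge⟩ :=
    repl_vpos P hlu hu hpq.le (F.sb.mono le_rfl hqt) hap
      (fun x h1 h2 => hge x h1 (h2.trans hqt))
  have hN := hn q hpq.le hq1 H V b Q hS e1 e2 e3
  refine ⟨H, V, b, Q, hPL, e1, e2, e3, e4, e5, e6, hf q hpq.le hq2 H V b Q hS e1 e2 e3 ?_ ?_ ?_ ?_ ?_⟩
  · intro x h1 h2
    exact hm _ (hN x h1 h2).1 (fun hc => absurd hc c1) (fun hc => absurd hc c2)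
  · intro _ _
    exact hVge
  · intro hc _
    exact absurd hc d2
  · intro _ _ hv0 x h1 h2
    rw [← e1]
    apply Q.mono_h h1
    intro y hy hy'
    have := hVge y hy (hy'.trans h2)
    rwa [hv0] at this
  · intro hc _ hv0
    exact absurd ⟨hv0, hc⟩ t2

theorem case0 (hlu : l ≤ u) (P : IsPath h v a) (hpt : p < t) (F : Feas C0 C1 C2 l u p t h v a)
    (o0 : C0.OrdConnected) (o1 : C1.OrdConnected) (o2 : C2.OrdConnected)
    (c1 : ¬ LowCrit C2 (a p)) (c2 : ¬ UpCrit C2 (a p))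
    (d1 : a p = 0 → ¬ LowCrit C1 (v p)) (d2 : a p = 0 → ¬ UpCrit C1 (v p))
    (e0 : a p = 0 → v p = 0 → ¬ UpCrit C0 (h p)) : RLoc C0 C1 C2 l u p t h v a := by
  obtain ⟨ε, hε, hm⟩ := mem_of_near o2 (F.m2 p le_rfl hpt.le)
  obtain ⟨δ1, hδ1, hn⟩ := near l u p (h p) (v p) (a p) hε
  obtain ⟨δ2, hδ2, hf⟩ := finish P hpt F o0 o1
  refine ⟨min δ1 δ2, lt_min hδ1 hδ2, ?_⟩
  intro q hpq hq hqt
  have hq1 : q < p + δ1 := hq.trans_le (by linarith [min_le_left δ1 δ2])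
  have hq2 : q < p + δ2 := hq.trans_le (by linarith [min_le_right δ1 δ2])
  obtain ⟨H, V, b, Q, hPL, hS, e1, e2, e3, e4, e5, e6, hHge⟩ :=
    repl_up P hlu hpq.le (F.sb.mono le_rfl hqt)
  have hN := hn q hpq.le hq1 H V b Q hS e1 e2 e3
  refine ⟨H, V, b, Q, hPL, e1, e2, e3, e4, e5, e6, hf q hpq.le hq2 H V b Q hS e1 e2 e3 ?_ ?_ ?_ ?_ ?_⟩
  · intro x h1 h2
    exact hm _ (hN x h1 h2).1 (fun hc => absurd hc c1) (fun hc => absurd hc c2)
  · intro hc h0
    exact absurd hc (d1 h0)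
  · intro hc h0
    exact absurd hc (d2 h0)
  · intro hc _ _ x h1 h2
    exact (hc _ (F.m0 x h1 (h2.trans hqt))).trans (hHge x h1 h2)
  · intro hc h0 hv0
    exact absurd hc (e0 h0 hv0)

theorem ordConnected_neg {C : Set ℝ} (h : C.OrdConnected) : (-C).OrdConnected := by
  constructor
  intro x hx y hy z hz
  have := h.out (x := -y) (y := -x) (by simpa using hy) (by simpa using hx)
    (⟨by linarith [hz.2], by linarith [hz.1]⟩ : -z ∈ Icc (-y) (-x))
  simpa using this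

theorem rloc (hlu : l ≤ u) (P : IsPath h v a) (hpt : p < t) (F : Feas C0 C1 C2 l u p t h v a)
    (o0 : C0.OrdConnected) (o1 : C1.OrdConnected) (o2 : C2.OrdConnected) :
    RLoc C0 C1 C2 l u p t h v a := by
  have hlu' : -u ≤ -l := by linarith
  have n0 := ordConnected_neg o0
  have n1 := ordConnected_neg o1
  have n2 := ordConnected_neg o2
  by_cases c1 : LowCrit C2 (a p)
  · by_cases c2 : UpCrit C2 (a p)
    · exact triv P hpt F (fun x h1 h2 =>
        le_antisymm (c2 _ (F.m2 x h1 h2)) (c1 _ (F.m2 x h1 h2)))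
    · exact case2 hlu P hpt F o0 o1 o2 c1 c2
  by_cases c2 : UpCrit C2 (a p)
  · apply RLoc.of_neg
    exact case2 hlu' P.neg hpt F.neg n0 n1 n2 (lowCrit_neg c2)
      (fun hc => c1 (upCrit_neg_iff.1 hc))
  by_cases hap : a p = 0
  · by_cases d1 : LowCrit C1 (v p)
    · by_cases d2 : UpCrit C1 (v p)
      · have hz := zero_of_const P.dv hpt (fun x h1 h2 =>
          le_antisymm (d2 _ (F.m1 x h1 h2)) (d1 _ (F.m1 x h1 h2)))
        exact triv P hpt F (fun x h1 h2 => by rw [hz x h1 h2, hap])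
      · exact case1 hlu P hpt F o0 o1 o2 c1 c2 hap d1 d2
    by_cases d2 : UpCrit C1 (v p)
    · apply RLoc.of_neg
      exact case1 hlu' P.neg hpt F.neg n0 n1 n2 (fun hc => c2 (lowCrit_neg_iff.1 hc))
        (fun hc => c1 (upCrit_neg_iff.1 hc)) (by simp [hap]) (lowCrit_neg d2)
        (fun hc => d1 (upCrit_neg_iff.1 hc))
    by_cases hvp : v p = 0
    · by_cases f2 : UpCrit C0 (h p)
      · by_cases f1 : LowCrit C0 (h p)
        · have hz := zero_of_const P.dh hpt (fun x h1 h2 =>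
            le_antisymm (f2 _ (F.m0 x h1 h2)) (f1 _ (F.m0 x h1 h2)))
          have hz2 := zero_of_const P.dv hpt (fun x h1 h2 => by rw [hz x h1 h2, hvp])
          exact triv P hpt F (fun x h1 h2 => by rw [hz2 x h1 h2, hap])
        · apply RLoc.of_neg
          exact case0 hlu' P.neg hpt F.neg n0 n1 n2 (fun hc => c2 (lowCrit_neg_iff.1 hc))
            (fun hc => c1 (upCrit_neg_iff.1 hc)) (fun _ hc => d2 (lowCrit_neg_iff.1 hc))
            (fun _ hc => d1 (upCrit_neg_iff.1 hc)) (fun _ _ hc => f1 (upCrit_neg_iff.1 hc))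
      · exact case0 hlu P hpt F o0 o1 o2 c1 c2 (fun _ => d1) (fun _ => d2) (fun _ _ => f2)
    · exact case0 hlu P hpt F o0 o1 o2 c1 c2 (fun _ => d1) (fun _ => d2)
        (fun _ h0 => absurd h0 hvp)
  · exact case0 hlu P hpt F o0 o1 o2 c1 c2 (fun h0 => absurd h0 hap) (fun h0 => absurd h0 hap)
      (fun h0 => absurd h0 hap)

end loc

end MP44e4f6
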