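import Mathlib
import Pool.Agent.Lib.MP_44e4f6_lc.PL
import Pool.Agent.Lib.MP_44e4f6_lc.Mom
import Pool.Agent.Lib.MP_44e4f6_lc.Rep
import Pool.Agent.Lib.MP_44e4f6_lc.Loc
import Pool.Agent.Lib.MP_44e4f6_lc.Loc2

/-!
Global replacement: a supremum argument.
-/

namespace MP44e4f6

open Set MeasureTheory intervalIntegral

/-- a single step (real data) -/
structure Stp where
  c : ℝ
  r : ℝ
  lo : ℝ
  hi : ℝ

/-- value constraints on `[s,t]` -/
def VC (L : List Stp) (s t : ℝ) (f : ℝ → ℝ) : Prop :=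
  ∀ st ∈ L, ∀ x, s ≤ x → x ≤ t → |x - st.c| < st.r → st.lo ≤ f x ∧ f x ≤ st.hi

/-- slope constraints on `[s,t]` -/
def SC (L : List Stp) (s t : ℝ) (f : ℝ → ℝ) : Prop :=
  ∀ st ∈ L, ∀ x y, s ≤ x → x ≤ y → y ≤ t → |x - st.c| < st.r → |y - st.c| < st.r →
    st.lo * (y - x) ≤ f y - f x ∧ f y - f x ≤ st.hi * (y - x)

section basic

variable {L : List Stp} {s t s' t' m : ℝ} {f g : ℝ → ℝ}

theorem VC.mono (H : VC L s t f) (hs : s ≤ s') (ht : t' ≤ t) : VC L s' t' f :=
  fun st hst x h1 h2 h3 => H st hst x (hs.trans h1) (h2.trans ht) h3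

theorem SC.mono (H : SC L s t f) (hs : s ≤ s') (ht : t' ≤ t) : SC L s' t' f :=
  fun st hst x y h1 h2 h3 h4 h5 => H st hst x y (hs.trans h1) h2 (h3.trans ht) h4 h5

theorem VC.congr (H : VC L s t f) (h : ∀ x, s ≤ x → x ≤ t → g x = f x) : VC L s t g := by
  intro st hst x h1 h2 h3
  rw [h x h1 h2]
  exact H st hst x h1 h2 h3

theorem SC.congr (H : SC L s t f) (h : ∀ x, s ≤ x → x ≤ t → g x = f x) : SC L s t g := by
  intro st hst x y h1 h2 h3 h4 h5
  rw [h x h1 (h2.trans h3), h y (h1.trans h2) h3]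
  exact H st hst x y h1 h2 h3 h4 h5

theorem VC.glue (H1 : VC L s m f) (H2 : VC L m t f) : VC L s t f := by
  intro st hst x h1 h2 h3
  rcases le_total x m with h | h
  · exact H1 st hst x h1 h h3
  · exact H2 st hst x h h2 h3

theorem SC.glue (H1 : SC L s m f) (H2 : SC L m t f) : SC L s t f := by
  intro st hst x y h1 h2 h3 h4 h5
  rcases le_total y m with h | h
  · exact H1 st hst x y h1 h2 h h4 h5
  · rcases le_total m x with h' | h'
    · exact H2 st hst x y h' h2 h3 h4 h5
    · rw [abs_lt] at h4 h5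
      have hm : |m - st.c| < st.r := by
        rw [abs_lt]
        constructor <;> linarith
      rw [← abs_lt] at h4 h5
      have e1 := H1 st hst x m h1 h' le_rfl h4 hm
      have e2 := H2 st hst m y le_rfl h h3 hm h5
      constructor
      · linarith [e1.1, e2.1]
      · linarith [e1.2, e2.2]

end basic

/-- a closed condition on the open interval extends to the closed interval -/
theorem closed_Icc {A : Set ℝ} (hA : IsClosed A) {s t : ℝ} (hst : s < t)
    (h : ∀ x, s < x → x < t → x ∈ A) : ∀ x, s ≤ x → x ≤ t → x ∈ A := by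
  intro x h1 h2
  have h3 : x ∈ closure (Ioo s t) := by
    rw [closure_Ioo hst.ne]
    exact ⟨h1, h2⟩
  exact closure_minimal (fun y hy => h y hy.1 hy.2) hA h3

theorem vc_right (L : List Stp) {f : ℝ → ℝ} (hf : Continuous f) {x q : ℝ} (hxq : x < q)
    (hV : VC L x q f) :
    ∃ C : Set ℝ, C.OrdConnected ∧ ∃ δ > 0, x + δ ≤ q ∧ (∀ y, x ≤ y → y ≤ x + δ → f y ∈ C) ∧
      ∀ (g : ℝ → ℝ) (t : ℝ), t ≤ x + δ → (∀ y, x ≤ y → y ≤ t → g y ∈ C) → VC L x t g := by
  induction L with
  | nil =>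
    exact ⟨univ, ordConnected_univ, q - x, by linarith, by linarith, fun _ _ _ => trivial,
      fun g t _ _ st hst => absurd hst (List.not_mem_nil)⟩
  | cons st L ih =>
    obtain ⟨C, hC, δ, hδ, hδq, hm, hg⟩ := ih (fun st' h' => hV st' (List.mem_cons_of_mem _ h'))
    by_cases h1 : x < st.c + st.r
    · by_cases h2 : st.c - st.r ≤ x
      · set δ' := min δ ((st.c + st.r - x) / 2) with hδ'
        have hd0 : 0 < δ' := lt_min hδ (by linarith)
        have hd1 : δ' ≤ δ := min_le_left _ _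
        have hd2 : δ' ≤ (st.c + st.r - x) / 2 := min_le_right _ _
        refine ⟨C ∩ Icc st.lo st.hi, hC.inter ordConnected_Icc, δ', hd0, by linarith, ?_, ?_⟩
        · have hcl : ∀ y, x ≤ y → y ≤ x + δ' → y ∈ f ⁻¹' (Icc st.lo st.hi) := by
            apply closed_Icc (isClosed_Icc.preimage hf) (by linarith)
            intro y hy hy'
            have := hV st (List.mem_cons_self) y hy.le (by linarith) (by
              rw [abs_lt]; constructor <;> linarith)
            exact ⟨this.1, this.2⟩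
          intro y hy hy'
          exact ⟨hm y hy (by linarith), hcl y hy hy'⟩
        · intro g t ht hgm st' hst'
          rcases List.mem_cons.1 hst' with rfl | hst'
          · intro y hy hy' _
            exact (hgm y hy hy').2
          · exact hg g t (by linarith) (fun y hy hy' => (hgm y hy hy').1) st' hst'
      · push Not at h2
        set δ' := min δ (st.c - st.r - x) with hδ'
        have hd0 : 0 < δ' := lt_min hδ (by linarith)
        have hd1 : δ' ≤ δ := min_le_left _ _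
        have hd2 : δ' ≤ st.c - st.r - x := min_le_right _ _
        refine ⟨C, hC, δ', hd0, by linarith, fun y hy hy' => hm y hy (by linarith), ?_⟩
        intro g t ht hgm st' hst'
        rcases List.mem_cons.1 hst' with rfl | hst'
        · intro y hy hy' hc
          rw [abs_lt] at hc
          linarith [hc.1]
        · exact hg g t (by linarith) hgm st' hst'
    · refine ⟨C, hC, δ, hδ, hδq, hm, ?_⟩
      intro g t ht hgm st' hst'
      rcases List.mem_cons.1 hst' with rfl | hst'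
      · intro y hy hy' hc
        rw [abs_lt] at hc
        push Not at h1
        linarith [hc.2]
      · exact hg g t ht hgm st' hst'

theorem SB.closed {lo hi x t : ℝ} {f : ℝ → ℝ} (hf : Continuous f)
    (h : ∀ y z, x < y → y ≤ z → z ≤ t → lo * (z - y) ≤ f z - f y ∧ f z - f y ≤ hi * (z - y)) :
    SB lo hi x t f := by
  intro y z hy hyz hz
  rcases eq_or_lt_of_le (hy.trans hyz) with hxz | hxz
  · have : y = z := le_antisymm hyz (by linarith)
    subst this
    simp
  have hA : IsClosed {w : ℝ | lo * (z - w) ≤ f z - f w ∧ f z - f w ≤ hi * (z - w)} := by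
    have e1 : IsClosed {w : ℝ | lo * (z - w) ≤ f z - f w} :=
      isClosed_le (f := fun w : ℝ => lo * (z - w)) (g := fun w : ℝ => f z - f w)
        (by fun_prop) (by fun_prop)
    have e2 : IsClosed {w : ℝ | f z - f w ≤ hi * (z - w)} :=
      isClosed_le (f := fun w : ℝ => f z - f w) (g := fun w : ℝ => hi * (z - w))
        (by fun_prop) (by fun_prop)
    exact e1.inter e2
  exact closed_Icc hA hxz (fun w hw hw' => h w z hw hw'.le hz) y hy hyz

theorem SB.weaken {l u l' u' s t : ℝ} {f : ℝ → ℝ} (h : SB l u s t f) (hl : l' ≤ l) (hu : u ≤ u') :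
    SB l' u' s t f := by
  intro x y h1 h2 h3
  have := h x y h1 h2 h3
  have e : 0 ≤ y - x := by linarith
  exact ⟨(mul_le_mul_of_nonneg_right hl e).trans this.1,
    this.2.trans (mul_le_mul_of_nonneg_right hu e)⟩

theorem SB.inter {l u l' u' s t : ℝ} {f : ℝ → ℝ} (h : SB l u s t f) (h' : SB l' u' s t f) :
    SB (Max.max l l') (Min.min u u') s t f := by
  intro x y h1 h2 h3
  have e1 := h x y h1 h2 h3
  have e2 := h' x y h1 h2 h3
  constructor
  · rcases le_total l l' with h4 | h4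
    · rw [max_eq_right h4]; exact e2.1
    · rw [max_eq_left h4]; exact e1.1
  · rcases le_total u u' with h4 | h4
    · rw [min_eq_left h4]; exact e1.2
    · rw [min_eq_right h4]; exact e2.2

theorem sc_right (L : List Stp) {f : ℝ → ℝ} (hf : Continuous f) {K x q : ℝ} (hxq : x < q)
    (hS : SB (-K) K x q f) (hV : SC L x q f) :
    ∃ l u : ℝ, -K ≤ l ∧ u ≤ K ∧ ∃ δ > 0, x + δ ≤ q ∧ SB l u x (x + δ) f ∧
      ∀ (g : ℝ → ℝ) (t : ℝ), t ≤ x + δ → SB l u x t g → SC L x t g := by
  induction L with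
  | nil =>
    exact ⟨-K, K, le_rfl, le_rfl, q - x, by linarith, by linarith, hS.mono le_rfl (by linarith),
      fun g t _ _ st hst => absurd hst (List.not_mem_nil)⟩
  | cons st L ih =>
    obtain ⟨l, u, hl, hu, δ, hδ, hδq, hm, hg⟩ :=
      ih (fun st' h' => hV st' (List.mem_cons_of_mem _ h'))
    by_cases h1 : x < st.c + st.r
    · by_cases h2 : st.c - st.r ≤ x
      · set δ' := min δ ((st.c + st.r - x) / 2) with hδ'
        have hd0 : 0 < δ' := lt_min hδ (by linarith)
        have hd1 : δ' ≤ δ := min_le_left _ _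
        have hd2 : δ' ≤ (st.c + st.r - x) / 2 := min_le_right _ _
        have hst : SB st.lo st.hi x (x + δ') f := by
          apply SB.closed hf
          intro y z hy hyz hz
          exact hV st (List.mem_cons_self) y z hy.le hyz (by linarith)
            (by rw [abs_lt]; constructor <;> linarith) (by rw [abs_lt]; constructor <;> linarith)
        refine ⟨Max.max l st.lo, Min.min u st.hi, hl.trans (le_max_left _ _),
          (min_le_left _ _).trans hu, δ', hd0, by linarith,
          (hm.mono le_rfl (by linarith)).inter hst, ?_⟩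
        intro g t ht hgm st' hst'
        rcases List.mem_cons.1 hst' with rfl | hst'
        · intro y z hy hyz hz _ _
          exact (hgm.weaken (le_max_right _ _) (min_le_right _ _)) y z hy hyz hz
        · exact hg g t (by linarith) (hgm.weaken (le_max_left _ _) (min_le_left _ _)) st' hst'
      · push Not at h2
        set δ' := min δ (st.c - st.r - x) with hδ'
        have hd0 : 0 < δ' := lt_min hδ (by linarith)
        have hd1 : δ' ≤ δ := min_le_left _ _
        have hd2 : δ' ≤ st.c - st.r - x := min_le_right _ _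
        refine ⟨l, u, hl, hu, δ', hd0, by linarith, hm.mono le_rfl (by linarith), ?_⟩
        intro g t ht hgm st' hst'
        rcases List.mem_cons.1 hst' with rfl | hst'
        · intro y z hy hyz hz _ hc
          rw [abs_lt] at hc
          linarith [hc.1]
        · exact hg g t (by linarith) hgm st' hst'
    · refine ⟨l, u, hl, hu, δ, hδ, hδq, hm, ?_⟩
      intro g t ht hgm st' hst'
      rcases List.mem_cons.1 hst' with rfl | hst'
      · intro y z hy hyz hz hc _
        rw [abs_lt] at hc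
        push Not at h1
        linarith [hc.2]
      · exact hg g t ht hgm st' hst'

/-- all constraints on `[s,t]` -/
structure GF (L0 L1 L2 L3 : List Stp) (K s t : ℝ) (h v a : ℝ → ℝ) : Prop where
  c0 : VC L0 s t h
  c1 : VC L1 s t v
  c2 : VC L2 s t a
  c3 : SC L3 s t a
  sb : SB (-K) K s t a

def GRepl (L0 L1 L2 L3 : List Stp) (K s t : ℝ) (h v a : ℝ → ℝ) : Prop :=
  ∃ H V b : ℝ → ℝ, IsPath H V b ∧ PL s t b ∧ H s = h s ∧ V s = v s ∧ b s = a s ∧
    H t = h t ∧ V t = v t ∧ b t = a t ∧ GF L0 L1 L2 L3 K s t H V b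

section glob

variable {L0 L1 L2 L3 : List Stp} {K s t m x p q : ℝ} {h v a : ℝ → ℝ}

theorem GF.mono (F : GF L0 L1 L2 L3 K s t h v a) {s' t' : ℝ} (hs : s ≤ s') (ht : t' ≤ t) :
    GF L0 L1 L2 L3 K s' t' h v a :=
  ⟨F.c0.mono hs ht, F.c1.mono hs ht, F.c2.mono hs ht, F.c3.mono hs ht, F.sb.mono hs ht⟩

theorem GF.congr (F : GF L0 L1 L2 L3 K s t h v a) {H V b : ℝ → ℝ}
    (h0 : ∀ x, s ≤ x → x ≤ t → H x = h x) (h1 : ∀ x, s ≤ x → x ≤ t → V x = v x)
    (h2 : ∀ x, s ≤ x → x ≤ t → b x = a x) : GF L0 L1 L2 L3 K s t H V b :=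
  ⟨F.c0.congr h0, F.c1.congr h1, F.c2.congr h2, F.c3.congr h2, F.sb.congr h2⟩

theorem GF.glue (F : GF L0 L1 L2 L3 K s m h v a) (G : GF L0 L1 L2 L3 K m t h v a) :
    GF L0 L1 L2 L3 K s t h v a :=
  ⟨F.c0.glue G.c0, F.c1.glue G.c1, F.c2.glue G.c2, F.c3.glue G.c3, F.sb.glue G.sb⟩

theorem gright (P : IsPath h v a) (hxq : x < q) (F : GF L0 L1 L2 L3 K x q h v a) :
    ∃ δ > 0, ∀ y, x < y → y < x + δ → GRepl L0 L1 L2 L3 K x y h v a := by
  have hhc : Continuous h := by
    rw [continuous_iff_continuousAt]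
    exact fun y => (P.dh y).continuousAt
  obtain ⟨C0, o0, d0, hd0, hq0, m0, g0⟩ := vc_right L0 hhc hxq F.c0
  obtain ⟨C1, o1, d1, hd1, hq1, m1, g1⟩ := vc_right L1 P.vcont hxq F.c1
  obtain ⟨C2, o2, d2, hd2, hq2, m2, g2⟩ := vc_right L2 P.cont hxq F.c2
  obtain ⟨l, u, hl, hu, d3, hd3, hq3, m3, g3⟩ := sc_right L3 P.cont hxq F.sb F.c3
  set δ := min (min d0 d1) (min d2 d3) with hδ
  have hδ0 : 0 < δ := lt_min (lt_min hd0 hd1) (lt_min hd2 hd3)
  have e0 : δ ≤ d0 := (min_le_left _ _).trans (min_le_left _ _)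
  have e1 : δ ≤ d1 := (min_le_left _ _).trans (min_le_right _ _)
  have e2 : δ ≤ d2 := (min_le_right _ _).trans (min_le_left _ _)
  have e3 : δ ≤ d3 := (min_le_right _ _).trans (min_le_right _ _)
  have Fe : Feas C0 C1 C2 l u x (x + δ) h v a :=
    ⟨m3.mono le_rfl (by linarith), fun y h1 h2 => m0 y h1 (by linarith),
      fun y h1 h2 => m1 y h1 (by linarith), fun y h1 h2 => m2 y h1 (by linarith)⟩
  have hlu : l ≤ u := by
    have := Fe.sb x (x + δ) le_rfl (by linarith) le_rfl
    have h2 : l * (x + δ - x) ≤ u * (x + δ - x) := this.1.trans this.2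
    have h3 : 0 < x + δ - x := by linarith
    exact le_of_mul_le_mul_right h2 h3
  obtain ⟨δ', hδ', R⟩ := rloc hlu P (by linarith : x < x + δ) Fe o0 o1 o2
  refine ⟨min δ δ', lt_min hδ0 hδ', ?_⟩
  intro y hxy hy
  have hy1 : y < x + δ := hy.trans_le (by linarith [min_le_left δ δ'])
  have hy2 : y < x + δ' := hy.trans_le (by linarith [min_le_right δ δ'])
  obtain ⟨H, V, b, Q, hPL, i1, i2, i3, i4, i5, i6, G⟩ := R y hxy hy2 hy1.le
  exact ⟨H, V, b, Q, hPL, i1, i2, i3, i4, i5, i6, g0 _ _ (by linarith) G.m0,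
    g1 _ _ (by linarith) G.m1, g2 _ _ (by linarith) G.m2, g3 _ _ (by linarith) G.sb,
    G.sb.weaken hl hu⟩

/-! reflection -/

def Stp.R (st : Stp) : Stp := ⟨-st.c, st.r, st.lo, st.hi⟩
def Stp.N (st : Stp) : Stp := ⟨-st.c, st.r, -st.hi, -st.lo⟩

theorem map_RR (L : List Stp) : (L.map Stp.R).map Stp.R = L := by
  rw [List.map_map]
  have : Stp.R ∘ Stp.R = id := by
    funext st
    simp [Stp.R]
  rw [this, List.map_id]

theorem map_NN (L : List Stp) : (L.map Stp.N).map Stp.N = L := by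
  rw [List.map_map]
  have : Stp.N ∘ Stp.N = id := by
    funext st
    simp [Stp.N]
  rw [this, List.map_id]

theorem abs_neg_sub' (x c : ℝ) : |-x - c| = |x - -c| := by
  rw [← abs_neg]; congr 1; ring

theorem VC.reflect {L : List Stp} {f : ℝ → ℝ} (H : VC L s t f) :
    VC (L.map Stp.R) (-t) (-s) (fun x => f (-x)) := by
  intro st hst x h1 h2 h3
  obtain ⟨st', hst', rfl⟩ := List.mem_map.1 hst
  exact H st' hst' (-x) (by linarith) (by linarith) (by
    rw [abs_neg_sub']; exact h3)

theorem VC.reflect' {L : List Stp} {f : ℝ → ℝ} (H : VC L s t f) :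
    VC (L.map Stp.N) (-t) (-s) (fun x => - f (-x)) := by
  intro st hst x h1 h2 h3
  obtain ⟨st', hst', rfl⟩ := List.mem_map.1 hst
  have := H st' hst' (-x) (by linarith) (by linarith) (by
    rw [abs_neg_sub']; exact h3)
  exact ⟨neg_le_neg this.2, neg_le_neg this.1⟩

theorem SC.reflect {L : List Stp} {f : ℝ → ℝ} (H : SC L s t f) :
    SC (L.map Stp.N) (-t) (-s) (fun x => f (-x)) := by
  intro st hst x y h1 h2 h3 h4 h5
  obtain ⟨st', hst', rfl⟩ := List.mem_map.1 hst
  have := H st' hst' (-y) (-x) (by linarith) (by linarith) (by linarith)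
    (by rw [abs_neg_sub']; exact h5) (by rw [abs_neg_sub']; exact h4)
  constructor
  · show -st'.hi * (y - x) ≤ f (-y) - f (-x)
    linarith [this.2]
  · show f (-y) - f (-x) ≤ -st'.lo * (y - x)
    linarith [this.1]

theorem GF.reflect (F : GF L0 L1 L2 L3 K s t h v a) :
    GF (L0.map Stp.R) (L1.map Stp.N) (L2.map Stp.R) (L3.map Stp.N) K (-t) (-s)
      (fun x => h (-x)) (fun x => - v (-x)) (fun x => a (-x)) :=
  ⟨F.c0.reflect, F.c1.reflect', F.c2.reflect, F.c3.reflect, by
    have := F.sb.reflect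
    rwa [neg_neg] at this⟩

theorem GRepl.reflect (R : GRepl L0 L1 L2 L3 K s t h v a) :
    GRepl (L0.map Stp.R) (L1.map Stp.N) (L2.map Stp.R) (L3.map Stp.N) K (-t) (-s)
      (fun x => h (-x)) (fun x => - v (-x)) (fun x => a (-x)) := by
  obtain ⟨H, V, b, Q, hPL, i1, i2, i3, i4, i5, i6, G⟩ := R
  exact ⟨_, _, _, Q.reflect, hPL.reflect, by simpa using i4, by simpa using i5, by simpa using i6,
    by simpa using i1, by simpa using i2, by simpa using i3, G.reflect⟩

theorem gleft (P : IsPath h v a) (hsx : s < x) (F : GF L0 L1 L2 L3 K s x h v a) :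
    ∃ δ > 0, ∀ y, y < x → x - δ < y → GRepl L0 L1 L2 L3 K y x h v a := by
  obtain ⟨δ, hδ, R⟩ := gright P.reflect (by linarith : -x < -s) F.reflect
  refine ⟨δ, hδ, fun y h1 h2 => ?_⟩
  have := (R (-y) (by linarith) (by linarith)).reflect
  rw [map_RR, map_NN, map_RR, map_NN] at this
  simpa using this

/-! gluing -/

theorem GRepl.glue (hsm : s ≤ m) (hmt : m ≤ t) (R1 : GRepl L0 L1 L2 L3 K s m h v a)
    (R2 : GRepl L0 L1 L2 L3 K m t h v a) : GRepl L0 L1 L2 L3 K s t h v a := by
  obtain ⟨H1, V1, b1, Q1, P1, i1, i2, i3, i4, i5, i6, G1⟩ := R1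
  obtain ⟨H2, V2, b2, Q2, P2, j1, j2, j3, j4, j5, j6, G2⟩ := R2
  set b : ℝ → ℝ := fun x => if x ≤ m then b1 x else b2 x with hb
  have hbc : Continuous b := by
    apply Continuous.if_le Q1.cont Q2.cont continuous_id continuous_const
    intro x hx
    have hx' : x = m := hx
    rw [hx', i6, j3]
  have hbl : ∀ x, x ≤ m → b x = b1 x := fun x hx => if_pos hx
  have hbr : ∀ x, m ≤ x → b x = b2 x := by
    intro x hx
    rcases eq_or_lt_of_le hx with hx' | hx'
    · rw [← hx', hbl m le_rfl, i6, j3]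
    · exact if_neg (not_le.2 hx')
  have Q := isPath_mk hbc m (h m) (v m)
  set V : ℝ → ℝ := fun x => v m + ∫ y in m..x, b y with hV
  set H : ℝ → ℝ := fun x => h m + ∫ t in m..x, (v m + ∫ y in m..t, b y) with hH
  have hVl : ∀ x, x ≤ m → V x = V1 x := by
    intro x hx
    rw [Q1.hv m x, i5]
    show v m + ∫ y in m..x, b y = _
    congr 1
    apply intervalIntegral.integral_congr
    intro y hy
    rw [uIcc_of_ge hx] at hy
    exact hbl y hy.2
  have hVr : ∀ x, m ≤ x → V x = V2 x := by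
    intro x hx
    rw [Q2.hv m x, j2]
    show v m + ∫ y in m..x, b y = _
    congr 1
    apply intervalIntegral.integral_congr
    intro y hy
    rw [uIcc_of_le hx] at hy
    exact hbr y hy.1
  have hHl : ∀ x, x ≤ m → H x = H1 x := by
    intro x hx
    rw [Q1.hh m x, i4]
    show h m + ∫ t in m..x, V t = _
    congr 1
    apply intervalIntegral.integral_congr
    intro y hy
    rw [uIcc_of_ge hx] at hy
    exact hVl y hy.2
  have hHr : ∀ x, m ≤ x → H x = H2 x := by
    intro x hx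
    rw [Q2.hh m x, j1]
    show h m + ∫ t in m..x, V t = _
    congr 1
    apply intervalIntegral.integral_congr
    intro y hy
    rw [uIcc_of_le hx] at hy
    exact hVr y hy.1
  refine ⟨H, V, b, Q, ?_, ?_, ?_, ?_, ?_, ?_, ?_, ?_⟩
  · exact PL.glue s m t b hsm hmt (P1.congr (fun x _ h2 => hbl x h2))
      (P2.congr (fun x h1 _ => hbr x h1))
  · rw [hHl s hsm, i1]
  · rw [hVl s hsm, i2]
  · rw [hbl s hsm, i3]
  · rw [hHr t hmt, j4]
  · rw [hVr t hmt, j5]
  · rw [hbr t hmt, j6]
  · exact (G1.congr (fun x _ h2 => hHl x h2) (fun x _ h2 => hVl x h2)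
      (fun x _ h2 => hbl x h2)).glue (G2.congr (fun x h1 _ => hHr x h1) (fun x h1 _ => hVr x h1)
      (fun x h1 _ => hbr x h1))

theorem GRepl.triv (P : IsPath h v a) (F : GF L0 L1 L2 L3 K s s h v a) :
    GRepl L0 L1 L2 L3 K s s h v a :=
  ⟨h, v, a, P, PL.aff s s 0 (a s) a (fun x h1 h2 => by
    rw [le_antisymm h2 h1]; ring), rfl, rfl, rfl, rfl, rfl, rfl, F⟩

theorem gglob (P : IsPath h v a) (hpq : p ≤ q) (F : GF L0 L1 L2 L3 K p q h v a) :
    GRepl L0 L1 L2 L3 K p q h v a := by
  set S : Set ℝ := {x | p ≤ x ∧ x ≤ q ∧ GRepl L0 L1 L2 L3 K p x h v a} with hS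
  have hpS : p ∈ S := ⟨le_rfl, hpq, GRepl.triv P (F.mono le_rfl hpq)⟩
  have hne : S.Nonempty := ⟨p, hpS⟩
  have hbd : BddAbove S := ⟨q, fun x hx => hx.2.1⟩
  set z := sSup S with hz
  have hpz : p ≤ z := le_csSup hbd hpS
  have hzq : z ≤ q := csSup_le hne (fun x hx => hx.2.1)
  have hzS : GRepl L0 L1 L2 L3 K p z h v a := by
    rcases eq_or_lt_of_le hpz with h0 | h0
    · rw [← h0]; exact hpS.2.2
    · obtain ⟨δ, hδ, R⟩ := gleft P h0 (F.mono le_rfl hzq)
      obtain ⟨x, hxS, hx⟩ := exists_lt_of_lt_csSup hne (show z - δ < sSup S by linarith)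
      have hxz : x ≤ z := le_csSup hbd hxS
      rcases eq_or_lt_of_le hxz with h1 | h1
      · rw [← h1]; exact hxS.2.2
      · exact GRepl.glue hxS.1 hxz hxS.2.2 (R x h1 hx)
  rcases eq_or_lt_of_le hzq with h0 | h0
  · rw [← h0]; exact hzS
  · exfalso
    obtain ⟨δ, hδ, R⟩ := gright P h0 (F.mono hpz le_rfl)
    set y := min q (z + δ / 2) with hy
    have hzy : z < y := lt_min h0 (by linarith)
    have hyq : y ≤ q := min_le_left _ _
    have hyδ : y < z + δ := (min_le_right _ _).trans_lt (by linarith)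
    have hyS : y ∈ S := ⟨hpz.trans hzy.le, hyq, GRepl.glue hpz hzy.le hzS (R y hzy hyδ)⟩
    exact absurd (le_csSup hbd hyS) (not_le.2 hzy)

end glob

end MP44e4f6
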