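import Mathlib
import Pool.Agent.Lib.MP_44e4f6_lc.Glob

/-!
Leaf AB: a priori bounds.

`bound_h`: with `T = v(c) d + a(c) d^2 / 2` one has `|h(c + d) - h(c) - T| ≤ K d^3` for `d = ρ` and `d = ρ / 2` (as
`|a(x) - a(c)| ≤ K (x - c)`, integrate twice: `IsPath.hv`, `IsPath.hh`, `intervalIntegral.norm_integral_le_of_norm_le_const`), so
`|v ρ + a ρ^2 / 2| ≤ 2 M + K ρ^3`, `|v ρ / 2 + a ρ^2 / 8| ≤ 2 M + K ρ^3 / 8`, `|a ρ^2 / 4| ≤ 6 M + 2 K ρ^3`.
`bound_v` is the same with one integration. `bound_all`: `|a x| ≤ a0 + K W`, then integrate (`W = q - p`; `c ≤ x` and `x ≤ c`).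
`shift`: subtraction of a quadratic polynomial.
-/

namespace MP44e4f6

open Set

private theorem AB_mono {F f : ℝ → ℝ} (hF : ∀ x, HasDerivAt F (f x) x) {p q : ℝ} (hpq : p ≤ q)
    (h : ∀ x, p ≤ x → x ≤ q → 0 ≤ f x) : F p ≤ F q := by
  have h1 : MonotoneOn F (Set.Icc p q) := by
    apply monotoneOn_of_deriv_nonneg (convex_Icc p q)
    · exact fun x _ => (hF x).continuousAt.continuousWithinAt
    · exact fun x _ => (hF x).differentiableAt.differentiableWithinAt
    · intro x hx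
      rw [interior_Icc] at hx
      rw [(hF x).deriv]
      exact h x hx.1.le hx.2.le
  exact h1 (left_mem_Icc.mpr hpq) (right_mem_Icc.mpr hpq) hpq

private theorem AB_lip {F f : ℝ → ℝ} (hF : ∀ x, HasDerivAt F (f x) x) {p q C : ℝ}
    (h : ∀ x, p ≤ x → x ≤ q → |f x| ≤ C) {x y : ℝ} (hpx : p ≤ x) (hxy : x ≤ y) (hyq : y ≤ q) :
    |F y - F x| ≤ C * (y - x) := by
  have h1 : C * x - F x ≤ C * y - F y := by
    apply AB_mono (F := fun t => C * t - F t) (f := fun t => C * 1 - f t) _ hxy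
    · intro t h1 h2
      have := (abs_le.mp (h t (hpx.trans h1) (h2.trans hyq))).2
      linarith
    · intro t
      exact ((hasDerivAt_id t).const_mul C).sub (hF t)
  have h2 : C * x + F x ≤ C * y + F y := by
    apply AB_mono (F := fun t => C * t + F t) (f := fun t => C * 1 + f t) _ hxy
    · intro t h1 h2
      have := (abs_le.mp (h t (hpx.trans h1) (h2.trans hyq))).1
      linarith
    · intro t
      exact ((hasDerivAt_id t).const_mul C).add (hF t)
  rw [abs_le]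
  constructor <;> linarith

private theorem AB_sq (c t : ℝ) : HasDerivAt (fun x : ℝ => (x - c) ^ 2 / 2) (t - c) t := by
  have h1 := (((hasDerivAt_id t).sub_const c).pow 2).div_const 2
  have h2 : ((2 : ℕ) : ℝ) * (id t - c) ^ (2 - 1) * 1 / 2 = t - c := by
    simp only [id]
    norm_num
  rw [← h2]
  exact h1

private theorem AB_cu (c t : ℝ) : HasDerivAt (fun x : ℝ => (x - c) ^ 3 / 6) ((t - c) ^ 2 / 2) t := by
  have h1 := (((hasDerivAt_id t).sub_const c).pow 3).div_const 6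
  have h2 : ((3 : ℕ) : ℝ) * (id t - c) ^ (3 - 1) * 1 / 6 = (t - c) ^ 2 / 2 := by
    simp only [id]
    norm_num
    ring
  rw [← h2]
  exact h1

private theorem AB_lin (c t : ℝ) : HasDerivAt (fun x : ℝ => x - c) 1 t := (hasDerivAt_id t).sub_const c

private theorem AB_v {c ρ K : ℝ} {h v a : ℝ → ℝ} (P : IsPath h v a)
    (hS : SB (-K) K c (c + ρ) a) {x : ℝ} (hcx : c ≤ x) (hx : x ≤ c + ρ) :
    |v x - v c - a c * (x - c)| ≤ K * ((x - c) ^ 2 / 2) := by
  have h1 := AB_mono (F := fun t => K * ((t - c) ^ 2 / 2) - (v t - a c * (t - c)))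
    (f := fun t => K * (t - c) - (a t - a c * 1))
    (fun t => ((AB_sq c t).const_mul K).sub ((P.dv t).sub ((AB_lin c t).const_mul (a c)))) hcx (by
      intro t h1 h2
      have := (hS c t le_rfl h1 (h2.trans hx)).2
      linarith)
  have h2 := AB_mono (F := fun t => K * ((t - c) ^ 2 / 2) + (v t - a c * (t - c)))
    (f := fun t => K * (t - c) + (a t - a c * 1))
    (fun t => ((AB_sq c t).const_mul K).add ((P.dv t).sub ((AB_lin c t).const_mul (a c)))) hcx (by
      intro t h1 h2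
      have := (hS c t le_rfl h1 (h2.trans hx)).1
      linarith)
  simp only [sub_self] at h1 h2
  rw [abs_le]
  constructor <;> linarith

private theorem AB_h {c ρ K : ℝ} {h v a : ℝ → ℝ} (P : IsPath h v a)
    (hS : SB (-K) K c (c + ρ) a) {x : ℝ} (hcx : c ≤ x) (hx : x ≤ c + ρ) :
    |h x - h c - v c * (x - c) - a c * ((x - c) ^ 2 / 2)| ≤ K * ((x - c) ^ 3 / 6) := by
  have h1 := AB_mono (F := fun t => K * ((t - c) ^ 3 / 6) - (h t - v c * (t - c) - a c * ((t - c) ^ 2 / 2)))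
    (f := fun t => K * ((t - c) ^ 2 / 2) - (v t - v c * 1 - a c * (t - c)))
    (fun t => ((AB_cu c t).const_mul K).sub (((P.dh t).sub ((AB_lin c t).const_mul (v c))).sub
      ((AB_sq c t).const_mul (a c)))) hcx (by
      intro t h1 h2
      have := (abs_le.mp (AB_v P hS h1 (h2.trans hx))).2
      linarith)
  have h2 := AB_mono (F := fun t => K * ((t - c) ^ 3 / 6) + (h t - v c * (t - c) - a c * ((t - c) ^ 2 / 2)))
    (f := fun t => K * ((t - c) ^ 2 / 2) + (v t - v c * 1 - a c * (t - c)))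
    (fun t => ((AB_cu c t).const_mul K).add (((P.dh t).sub ((AB_lin c t).const_mul (v c))).sub
      ((AB_sq c t).const_mul (a c)))) hcx (by
      intro t h1 h2
      have := (abs_le.mp (AB_v P hS h1 (h2.trans hx))).1
      linarith)
  simp only [sub_self] at h1 h2
  rw [abs_le]
  constructor <;> linarith

theorem bound_h {c ρ M K a0 v0 : ℝ} {h v a : ℝ → ℝ} (P : IsPath h v a) (hρ : 0 < ρ) (hK : 0 ≤ K)
    (hS : SB (-K) K c (c + ρ) a) (hM : ∀ x, c ≤ x → x ≤ c + ρ → |h x| ≤ M)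
    (ha0 : 24 * M + 8 * K * ρ ^ 3 ≤ a0 * ρ ^ 2) (hv0 : 14 * M + 5 * K * ρ ^ 3 ≤ v0 * ρ) :
    |a c| ≤ a0 ∧ |v c| ≤ v0 := by
  have hM0 : 0 ≤ M := (abs_nonneg _).trans (hM c le_rfl (by linarith))
  have e1 := AB_h P hS (x := c + ρ) (by linarith) le_rfl
  have e2 := AB_h P hS (x := c + ρ / 2) (by linarith) (by linarith)
  have m0 := abs_le.mp (hM c le_rfl (by linarith))
  have m1 := abs_le.mp (hM (c + ρ / 2) (by linarith) (by linarith))
  have m2 := abs_le.mp (hM (c + ρ) (by linarith) le_rfl)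
  rw [add_sub_cancel_left] at e1 e2
  have hK3 : 0 ≤ K * ρ ^ 3 := mul_nonneg hK (pow_nonneg hρ.le 3)
  obtain ⟨e1a, e1b⟩ := abs_le.mp e1
  obtain ⟨e2a, e2b⟩ := abs_le.mp e2
  constructor
  · have h1 : |a c * ρ ^ 2| ≤ a0 * ρ ^ 2 := by
      rw [abs_le]
      constructor <;> nlinarith
    rw [abs_mul, abs_of_pos (pow_pos hρ 2)] at h1
    exact le_of_mul_le_mul_right h1 (pow_pos hρ 2)
  · have h1 : |v c * ρ| ≤ v0 * ρ := by
      rw [abs_le]
      constructor <;> nlinarith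
    rw [abs_mul, abs_of_pos hρ] at h1
    exact le_of_mul_le_mul_right h1 hρ

theorem bound_v {c ρ M K a0 : ℝ} {h v a : ℝ → ℝ} (P : IsPath h v a) (hρ : 0 < ρ) (hK : 0 ≤ K)
    (hS : SB (-K) K c (c + ρ) a) (hM : ∀ x, c ≤ x → x ≤ c + ρ → |v x| ≤ M)
    (ha0 : 2 * M + K * ρ ^ 2 ≤ a0 * ρ) : |a c| ≤ a0 := by
  have e1 := AB_v P hS (x := c + ρ) (by linarith) le_rfl
  have m0 := abs_le.mp (hM c le_rfl (by linarith))
  have m2 := abs_le.mp (hM (c + ρ) (by linarith) le_rfl)
  rw [add_sub_cancel_left] at e1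
  have hK3 : 0 ≤ K * ρ ^ 2 := mul_nonneg hK (pow_nonneg hρ.le 2)
  obtain ⟨e1a, e1b⟩ := abs_le.mp e1
  have h1 : |a c * ρ| ≤ a0 * ρ := by
    rw [abs_le]
    constructor <;> nlinarith
  rw [abs_mul, abs_of_pos hρ] at h1
  exact le_of_mul_le_mul_right h1 hρ

theorem bound_all {p q c K a0 v0 h0 B : ℝ} {h v a : ℝ → ℝ} (P : IsPath h v a) (hpc : p ≤ c)
    (hcq : c ≤ q) (hK : 0 ≤ K) (hS : SB (-K) K p q a) (ha : |a c| ≤ a0) (hv : |v c| ≤ v0)
    (hh : |h c| ≤ h0) (h1 : a0 + K * (q - p) ≤ B) (h2 : v0 + (a0 + K * (q - p)) * (q - p) ≤ B)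
    (h3 : h0 + (v0 + (a0 + K * (q - p)) * (q - p)) * (q - p) ≤ B) :
    ∀ x, p ≤ x → x ≤ q → |a x| ≤ B ∧ |v x| ≤ B ∧ |h x| ≤ B := by
  have hW : 0 ≤ q - p := by linarith
  have ha0 : 0 ≤ a0 := (abs_nonneg _).trans ha
  have hv0 : 0 ≤ v0 := (abs_nonneg _).trans hv
  have hKW : 0 ≤ K * (q - p) := mul_nonneg hK hW
  have ea : ∀ x, p ≤ x → x ≤ q → |a x| ≤ a0 + K * (q - p) := by
    intro x hpx hxq
    obtain ⟨a1, a2⟩ := abs_le.mp ha
    rw [abs_le]
    rcases le_total c x with hcx | hxc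
    · obtain ⟨b1, b2⟩ := hS c x hpc hcx hxq
      have b3 : K * (x - c) ≤ K * (q - p) := mul_le_mul_of_nonneg_left (by linarith) hK
      constructor <;> linarith
    · obtain ⟨b1, b2⟩ := hS x c hpx hxc hcq
      have b3 : K * (c - x) ≤ K * (q - p) := mul_le_mul_of_nonneg_left (by linarith) hK
      constructor <;> linarith
  have key : ∀ (F f : ℝ → ℝ) (C F0 : ℝ), (∀ x, HasDerivAt F (f x) x) → 0 ≤ C →
      (∀ x, p ≤ x → x ≤ q → |f x| ≤ C) → |F c| ≤ F0 → ∀ x, p ≤ x → x ≤ q → |F x| ≤ F0 + C * (q - p) := by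
    intro F f C F0 hF hC hf hc x hpx hxq
    obtain ⟨a1, a2⟩ := abs_le.mp hc
    rw [abs_le]
    rcases le_total c x with hcx | hxc
    · obtain ⟨b1, b2⟩ := abs_le.mp (AB_lip hF hf hpc hcx hxq)
      have b3 : C * (x - c) ≤ C * (q - p) := mul_le_mul_of_nonneg_left (by linarith) hC
      constructor <;> linarith
    · obtain ⟨b1, b2⟩ := abs_le.mp (AB_lip hF hf hpx hxc hcq)
      have b3 : C * (c - x) ≤ C * (q - p) := mul_le_mul_of_nonneg_left (by linarith) hC
      constructor <;> linarith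
  have ev := key v a (a0 + K * (q - p)) v0 P.dv (by linarith) ea hv
  have eh := key h v (v0 + (a0 + K * (q - p)) * (q - p)) h0 P.dh
    (add_nonneg hv0 (mul_nonneg (by linarith) hW)) ev hh
  intro x hpx hxq
  exact ⟨(ea x hpx hxq).trans h1, (ev x hpx hxq).trans h2, (eh x hpx hxq).trans h3⟩

theorem shift {h v a : ℝ → ℝ} (P : IsPath h v a) (c x y z : ℝ) :
    IsPath (fun t => h t - (x + y * (t - c) + z * (t - c) ^ 2 / 2))
      (fun t => v t - (y + z * (t - c))) (fun t => a t - z) := by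
  have dv : ∀ t, HasDerivAt (fun t => v t - (y + z * (t - c))) (a t - z) t := by
    intro t
    have h1 := (P.dv t).sub (((AB_lin c t).const_mul z).const_add y)
    rw [mul_one] at h1
    exact h1
  have dh : ∀ t, HasDerivAt (fun t => h t - (x + y * (t - c) + z * (t - c) ^ 2 / 2))
      (v t - (y + z * (t - c))) t := by
    intro t
    have h1 := (P.dh t).sub ((((AB_lin c t).const_mul y).const_add x).add ((AB_sq c t).const_mul z))
    rw [mul_one] at h1
    refine h1.congr_of_eventuallyEq (Filter.Eventually.of_forall fun s => ?_)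
    simp only [Pi.sub_apply, Pi.add_apply]
    ring
  have hvc : Continuous v := P.vcont
  have hac : Continuous a := P.cont
  refine ⟨hac.sub continuous_const, fun s u => ?_, fun s u => ?_⟩
  · have h1 := intervalIntegral.integral_eq_sub_of_hasDerivAt (a := s) (b := u) (fun t _ => dv t)
      ((hac.sub continuous_const).intervalIntegrable _ _)
    rw [h1]
    ring
  · have h1 := intervalIntegral.integral_eq_sub_of_hasDerivAt (a := s) (b := u) (fun t _ => dh t)
      ((hvc.sub (by fun_prop)).intervalIntegrable _ _)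
    rw [h1]
    ring

end MP44e4f6
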