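import Mathlib

/-!
Leaf AL (MATHLIB ONLY): Artin-Lang over the rationals, in certificate form.

For finitely many real numbers `x i` there are a polynomial `F` over `ℚ` with a sign change between two rational points and
polynomials `g i` over `ℚ` such that every polynomial relation over `ℚ` between the `x i` holds for the `g i` modulo `F`.

Proof. Let `T ⊆ range x` be a maximal algebraically independent subset (`exists_maximal_algebraicIndependent`), `R = MvPolynomial T ℚ`,
`L = FractionRing R`, with the injective map `L → ℝ` given by `T ⊆ ℝ` (`IsFractionRing.lift`; make `ℝ` an `L`-algebra by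
`RingHom.toAlgebra`). All `x i` are algebraic over `L`. By the primitive element theorem (char 0) there is `θ : ℝ`, algebraic
over `L`, and `P i : L[Y]` with `x i = aeval θ (P i)`. Let `M = minpoly L θ`; it is separable, so `M'(θ) ≠ 0` and there are
rational `r < θ < s` with `M(r) M(s) < 0` (values in `ℝ`). Let `D : R`, `D ≠ 0`, be a common denominator of all coefficients of
`M` and of the `P i` (`IsLocalization.exist_integer_multiples_of_finset`), `R' = Localization.Away D`; it embeds in `L`, and `M`,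
`P i` come from `M^ : R'[Y]` (monic) and `P^ i : R'[Y]`. By continuity of polynomials and density of `ℚ` in `ℝ` there is a
rational point `t' : T → ℚ`, near to `T ⊆ ℝ`, with `D(t') ≠ 0` and `(D M)(t', r) (D M)(t', s) < 0`. It gives `e : R' → ℚ`
(`IsLocalization.Away.lift`). Put `F = M^.map e`, `g i = (P^ i).map e`. Let `f(x) = 0`. Then `f(P^) : R'[Y]`; its remainder `W`
modulo the monic `M^` has, mapped to `L[Y]`, degree less than that of `M` and the zero `θ`, so it is `0`, and `W = 0` because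
`R' → L` is injective. So `M^ ∣ f(P^)` in `R'[Y]`; map this by `e`.
-/

open Polynomial

namespace MP44e4f6

/-- A simple real root gives a sign change between rational numbers. -/
private theorem AL_sign {p : ℝ[X]} {θ : ℝ} (h0 : p.eval θ = 0) (h1 : p.derivative.eval θ ≠ 0) :
    ∃ r s : ℚ, r < s ∧ p.eval (r : ℝ) * p.eval (s : ℝ) < 0 := by
  obtain ⟨q, hq⟩ := dvd_iff_isRoot.2 h0
  have h2 : q.eval θ ≠ 0 := by
    rw [hq, derivative_mul, eval_add, eval_mul, eval_mul, eval_sub, eval_X, eval_C, sub_self, zero_mul, add_zero,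
      derivative_sub, derivative_X, derivative_C, sub_zero, eval_one, one_mul] at h1
    exact h1
  have hc : Continuous fun y : ℝ => q.eval y * q.eval θ := (q.continuous).mul continuous_const
  have h3 : 0 < q.eval θ * q.eval θ := mul_self_pos.2 h2
  obtain ⟨ε, hε, hB⟩ := Metric.isOpen_iff.1 (isOpen_lt continuous_const hc) θ h3
  obtain ⟨r, hr1, hr2⟩ := exists_rat_btwn (sub_lt_self θ hε)
  obtain ⟨s, hs1, hs2⟩ := exists_rat_btwn (lt_add_of_pos_right θ hε)
  have e1 : 0 < q.eval (r : ℝ) * q.eval θ := hB (by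
    rw [Metric.mem_ball, Real.dist_eq, abs_lt]
    constructor <;> linarith)
  have e2 : 0 < q.eval (s : ℝ) * q.eval θ := hB (by
    rw [Metric.mem_ball, Real.dist_eq, abs_lt]
    constructor <;> linarith)
  have e3 : 0 < q.eval (r : ℝ) * q.eval (s : ℝ) := by
    have h4 := mul_pos e1 e2
    have h5 : q.eval (r : ℝ) * q.eval θ * (q.eval (s : ℝ) * q.eval θ) =
        (q.eval (r : ℝ) * q.eval (s : ℝ)) * (q.eval θ * q.eval θ) := by ring
    rw [h5] at h4
    exact (pos_iff_pos_of_mul_pos h4).2 h3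
  refine ⟨r, s, by exact_mod_cast hr2.trans hs1, ?_⟩
  rw [hq, eval_mul, eval_mul, eval_sub, eval_sub, eval_X, eval_X, eval_C, eval_C]
  have h6 : ((r : ℝ) - θ) * ((s : ℝ) - θ) < 0 := mul_neg_of_neg_of_pos (by linarith) (by linarith)
  have h7 := mul_neg_of_neg_of_pos h6 e3
  have h8 : ((r : ℝ) - θ) * q.eval (r : ℝ) * (((s : ℝ) - θ) * q.eval (s : ℝ)) =
      ((r : ℝ) - θ) * ((s : ℝ) - θ) * (q.eval (r : ℝ) * q.eval (s : ℝ)) := by ring
  rw [h8]
  exact h7

/-- The primitive element. -/
private theorem AL_prim {L : Type*} [Field L] [CharZero L] [Algebra L ℝ] [Algebra.IsAlgebraic L ℝ] {σ : Type}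
    [Finite σ] (x : σ → ℝ) : ∃ (θ : ℝ) (P : σ → L[X]), ∀ i, aeval θ (P i) = x i := by
  have hfd : FiniteDimensional L (IntermediateField.adjoin L (Set.range x)) :=
    IntermediateField.finiteDimensional_adjoin fun y _ => (Algebra.IsAlgebraic.isAlgebraic y).isIntegral
  obtain ⟨α, hα⟩ := Field.exists_primitive_element L (IntermediateField.adjoin L (Set.range x))
  have h1 : ∀ i, ∃ P : L[X], aeval (α : ℝ) P = x i := by
    intro i
    have hx : x i ∈ IntermediateField.adjoin L (Set.range x) := IntermediateField.subset_adjoin L _ ⟨i, rfl⟩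
    have h2 : (⟨x i, hx⟩ : IntermediateField.adjoin L (Set.range x)) ∈ IntermediateField.adjoin L {α} := by
      rw [hα]
      trivial
    rw [← IntermediateField.mem_toSubalgebra, IntermediateField.adjoin_simple_toSubalgebra_of_isAlgebraic
      (Algebra.IsAlgebraic.isAlgebraic α), Algebra.adjoin_singleton_eq_range_aeval] at h2
    obtain ⟨P, hP⟩ := h2
    refine ⟨P, ?_⟩
    have h3 := congrArg (fun z : IntermediateField.adjoin L (Set.range x) => (z : ℝ)) hP
    have h4 : ((aeval α P : IntermediateField.adjoin L (Set.range x)) : ℝ) = aeval (α : ℝ) P :=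
      (aeval_algebraMap_apply ℝ α P).symm
    rw [← h4]
    exact h3
  choose P hP using h1
  exact ⟨α, P, hP⟩

/-- The theorem for a ring with enough specialisations to the rational numbers. -/
private theorem AL_core {R L : Type*} [CommRing R] [IsDomain R] [Algebra ℚ R] [Field L] [CharZero L] [Algebra R L]
    [IsFractionRing R L] [Algebra L ℝ] [Algebra.IsAlgebraic L ℝ]
    (hspec : ∀ D H : R, D ≠ 0 → algebraMap L ℝ (algebraMap R L H) < 0 → ∃ e : R →+* ℚ, e D ≠ 0 ∧ e H < 0)
    {σ : Type} [Finite σ] (x : σ → ℝ) :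
    ∃ (F : ℚ[X]) (r s : ℚ) (g : σ → ℚ[X]), r < s ∧ F.eval r * F.eval s < 0 ∧
      ∀ f : MvPolynomial σ ℚ, MvPolynomial.aeval x f = 0 → F ∣ MvPolynomial.aeval g f := by
  classical
  have _ : Fintype σ := Fintype.ofFinite σ
  obtain ⟨θ, P, hP⟩ := AL_prim (L := L) x
  have hint : IsIntegral L θ := (Algebra.IsAlgebraic.isAlgebraic θ).isIntegral
  have hM : (minpoly L θ).Monic := minpoly.monic hint
  -- the common denominator
  obtain ⟨b, hb⟩ := IsLocalization.exist_integer_multiples_of_finset (nonZeroDivisors R)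
    ((minpoly L θ).support.image (minpoly L θ).coeff ∪
      Finset.univ.biUnion fun i => (P i).support.image (P i).coeff)
  obtain ⟨D, hD⟩ : ∃ D : R, D = b := ⟨_, rfl⟩
  have hD0 : D ≠ 0 := by
    rw [hD]
    exact nonZeroDivisors.coe_ne_zero b
  have hcoef : ∀ (p : L[X]) (k : ℕ), (∀ a ∈ p.support.image p.coeff, IsLocalization.IsInteger R ((b : R) • a)) →
      ∃ a : R, algebraMap R L a = algebraMap R L D * p.coeff k := by
    intro p k hp
    by_cases hk : p.coeff k = 0
    · exact ⟨0, by rw [hk, mul_zero, map_zero]⟩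
    · obtain ⟨a, ha⟩ := hp _ (Finset.mem_image_of_mem _ (mem_support_iff.2 hk))
      exact ⟨a, by rw [ha, hD, Algebra.smul_def]⟩
  have hDL : IsUnit (algebraMap R L D) :=
    IsUnit.mk0 _ (by rw [Ne, IsFractionRing.to_map_eq_zero_iff]; exact hD0)
  let R' : Type _ := Localization.Away D
  let j : R' →+* L := IsLocalization.Away.lift D (g := algebraMap R L) hDL
  have hj1 : ∀ a : R, j (algebraMap R R' a) = algebraMap R L a := fun a =>
    IsLocalization.Away.lift_eq D hDL a
  have hinjL : Function.Injective (algebraMap R L) := IsFractionRing.injective R L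
  have hinjR' : Function.Injective (algebraMap R R') :=
    IsLocalization.injective R' (powers_le_nonZeroDivisors_of_noZeroDivisors hD0)
  have hj : Function.Injective j := by
    rw [injective_iff_map_eq_zero]
    intro a ha
    obtain ⟨n, c, hc⟩ := IsLocalization.Away.surj D a
    have h1 : c = 0 := by
      apply hinjL
      rw [map_zero, ← hj1, ← hc, map_mul, ha, zero_mul]
    rw [h1, map_zero] at hc
    exact ((IsLocalization.Away.algebraMap_pow_isUnit D n).mul_left_eq_zero).1 hc
  have hlift : ∀ p : L[X], (∀ a ∈ p.support.image p.coeff, IsLocalization.IsInteger R ((b : R) • a)) →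
      p ∈ lifts j := by
    intro p hp
    rw [lifts_iff_coeff_lifts]
    intro k
    obtain ⟨a, ha⟩ := hcoef p k hp
    refine ⟨algebraMap R R' a * IsLocalization.Away.invSelf D, ?_⟩
    have h1 : algebraMap R L D * j (IsLocalization.Away.invSelf D) = 1 := by
      rw [← hj1, ← map_mul, IsLocalization.Away.mul_invSelf, map_one]
    rw [map_mul, hj1, ha]
    linear_combination (p.coeff k) * h1
  obtain ⟨M', hM'1, -, hM'2⟩ := lifts_and_natDegree_eq_and_monic
    (hlift (minpoly L θ) fun a ha => hb a (Finset.mem_union_left _ ha)) hM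
  have hPl : ∀ i, ∃ q : R'[X], q.map j = P i := fun i =>
    (mem_lifts (P i)).1 (hlift (P i) fun a ha => hb a (Finset.mem_union_right _
      (Finset.mem_biUnion.2 ⟨i, Finset.mem_univ i, ha⟩)))
  choose P' hP' using hPl
  -- the sign change over the real numbers
  obtain ⟨r, s, hrs, hneg⟩ := AL_sign (p := (minpoly L θ).map (algebraMap L ℝ)) (θ := θ)
    (by rw [eval_map_algebraMap]; exact minpoly.aeval L θ)
    (by
      rw [derivative_map, eval_map_algebraMap]
      exact (minpoly.irreducible hint).separable.aeval_derivative_ne_zero (minpoly.aeval L θ))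
  let q : ℚ →+* R' := (algebraMap R R').comp (algebraMap ℚ R)
  let ψ : R' →+* ℝ := (algebraMap L ℝ).comp j
  have hψ : ∀ t : ℚ, ψ (M'.eval (q t)) = ((minpoly L θ).map (algebraMap L ℝ)).eval (t : ℝ) := by
    intro t
    have h1 : ψ (q t) = (t : ℝ) := by
      have h2 : (ψ.comp q) = Rat.castHom ℝ := RingHom.ext_rat _ _
      exact congrArg (fun φ : ℚ →+* ℝ => φ t) h2
    rw [← hM'1, map_map, eval_map, ← h1, eval₂_hom]
  obtain ⟨a, ha⟩ : ∃ a : R', a = M'.eval (q r) * M'.eval (q s) := ⟨_, rfl⟩
  have ha0 : ψ a < 0 := by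
    rw [ha, map_mul, hψ, hψ]
    exact hneg
  obtain ⟨n, c, hc⟩ := IsLocalization.Away.surj D a
  have hψR : ∀ u : R, ψ (algebraMap R R' u) = algebraMap L ℝ (algebraMap R L u) := fun u =>
    congrArg (algebraMap L ℝ) (hj1 u)
  have hDR : algebraMap L ℝ (algebraMap R L D) ≠ 0 := by
    rw [Ne, map_eq_zero]
    exact hDL.ne_zero
  have hH : algebraMap L ℝ (algebraMap R L (c * D ^ n)) < 0 := by
    have h1 : ψ (algebraMap R R' (c * D ^ n)) = ψ a * (algebraMap L ℝ (algebraMap R L D) ^ 2) ^ n := by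
      rw [map_mul (algebraMap R R'), ← hc, map_pow (algebraMap R R'), map_mul ψ, map_mul ψ, map_pow ψ, hψR]
      ring
    rw [← hψR, h1]
    exact mul_neg_of_neg_of_pos ha0 (pow_pos (by positivity) n)
  obtain ⟨e, he1, he2⟩ := hspec D (c * D ^ n) hD0 hH
  let e' : R' →+* ℚ := IsLocalization.Away.lift D (g := e) (IsUnit.mk0 _ he1)
  have he' : ∀ u : R, e' (algebraMap R R' u) = e u := fun u => IsLocalization.Away.lift_eq D _ u
  have hea : e' a < 0 := by
    have h1 : e' a * (e D ^ 2) ^ n = e (c * D ^ n) := by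
      rw [map_mul, map_pow, ← he' c, ← hc, map_mul, map_pow, he', mul_assoc, ← pow_add, ← two_mul, pow_mul]
    rw [← h1] at he2
    have h2 : (0 : ℚ) < (e D ^ 2) ^ n := pow_pos (by positivity) n
    exact neg_of_mul_neg_left he2 h2.le
  have heq : ∀ t : ℚ, e' (q t) = t := by
    intro t
    have h2 : (e'.comp q) = RingHom.id ℚ := RingHom.ext_rat _ _
    exact congrArg (fun φ : ℚ →+* ℚ => φ t) h2
  refine ⟨M'.map e', r, s, fun i => (P' i).map e', hrs, ?_, ?_⟩
  · have h1 : ∀ t : ℚ, (M'.map e').eval t = e' (M'.eval (q t)) := by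
      intro t
      conv_lhs => rw [eval_map, ← heq t, eval₂_hom]
    rw [h1, h1, ← map_mul, ← ha]
    exact hea
  · intro f hf
    obtain ⟨Z, hZ⟩ : ∃ Z : R'[X], Z = MvPolynomial.eval₂Hom (C.comp q) P' f := ⟨_, rfl⟩
    have h1 : Z.map j = MvPolynomial.aeval P f := by
      have h2 := MvPolynomial.map_eval₂Hom (C.comp q) P' (mapRingHom j) f
      rw [← hZ] at h2
      have h3 : (mapRingHom j).comp (C.comp q) = algebraMap ℚ L[X] := RingHom.ext_rat _ _
      have h4 : (fun i => mapRingHom j (P' i)) = P := funext fun i => hP' i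
      rw [h3, h4] at h2
      exact h2
    have h2 : Z.map e' = MvPolynomial.aeval (fun i => (P' i).map e') f := by
      have h2 := MvPolynomial.map_eval₂Hom (C.comp q) P' (mapRingHom e') f
      rw [← hZ] at h2
      have h3 : (mapRingHom e').comp (C.comp q) = algebraMap ℚ ℚ[X] := RingHom.ext_rat _ _
      rw [h3] at h2
      exact h2
    have h3 : minpoly L θ ∣ Z.map j := by
      refine minpoly.dvd L θ ?_
      rw [h1]
      have h4 := MvPolynomial.map_eval₂Hom (algebraMap ℚ L[X]) P ((aeval θ : L[X] →ₐ[L] ℝ) : L[X] →+* ℝ) f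
      have h5 : ((aeval θ : L[X] →ₐ[L] ℝ) : L[X] →+* ℝ).comp (algebraMap ℚ L[X]) = algebraMap ℚ ℝ :=
        RingHom.ext_rat _ _
      have h6 : (fun i => ((aeval θ : L[X] →ₐ[L] ℝ) : L[X] →+* ℝ) (P i)) = x := funext fun i => hP i
      rw [h5, h6] at h4
      exact h4.trans hf
    have h4 : M' ∣ Z := by
      rw [← modByMonic_eq_zero_iff_dvd hM'2]
      apply map_injective j hj
      rw [Polynomial.map_zero, map_modByMonic j hM'2, hM'1, modByMonic_eq_zero_iff_dvd hM]
      exact h3
    rw [← h2]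
    exact Polynomial.map_dvd e' h4

theorem AL {σ : Type} [Finite σ] (x : σ → ℝ) :
    ∃ (F : ℚ[X]) (r s : ℚ) (g : σ → ℚ[X]), r < s ∧ F.eval r * F.eval s < 0 ∧
      ∀ f : MvPolynomial σ ℚ, MvPolynomial.aeval x f = 0 → F ∣ MvPolynomial.aeval g f := by
  classical
  obtain ⟨ι, v, hv⟩ := exists_isTranscendenceBasis' ℚ ℝ
  have halg := hv.isAlgebraic
  have hinj : Function.Injective (MvPolynomial.aeval v : MvPolynomial ι ℚ →ₐ[ℚ] ℝ) := hv.1
  let _ : Algebra (MvPolynomial ι ℚ) ℝ := (MvPolynomial.aeval v : MvPolynomial ι ℚ →ₐ[ℚ] ℝ).toRingHom.toAlgebra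
  have hmap : ∀ u : MvPolynomial ι ℚ, algebraMap (MvPolynomial ι ℚ) ℝ u = MvPolynomial.aeval v u := fun _ => rfl
  have hfaith : FaithfulSMul (MvPolynomial ι ℚ) ℝ := (faithfulSMul_iff_algebraMap_injective _ _).2 hinj
  let _ : Algebra (FractionRing (MvPolynomial ι ℚ)) ℝ := FractionRing.liftAlgebra (MvPolynomial ι ℚ) ℝ
  have htow : IsScalarTower (MvPolynomial ι ℚ) (FractionRing (MvPolynomial ι ℚ)) ℝ :=
    FractionRing.isScalarTower_liftAlgebra (MvPolynomial ι ℚ) ℝ
  have hR : Algebra.IsAlgebraic (MvPolynomial ι ℚ) ℝ := by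
    refine ⟨fun y => ?_⟩
    exact IsAlgebraic.of_ringHom_of_comp_eq (S := Algebra.adjoin ℚ (Set.range v))
      (hv.1.aevalEquiv : MvPolynomial ι ℚ ≃ₐ[ℚ] Algebra.adjoin ℚ (Set.range v)) (RingHom.id ℝ)
      (Algebra.IsAlgebraic.isAlgebraic (R := Algebra.adjoin ℚ (Set.range v)) (RingHom.id ℝ y))
      hv.1.aevalEquiv.surjective Function.injective_id (RingHom.ext fun u => by
        show ((hv.1.aevalEquiv u : Algebra.adjoin ℚ (Set.range v)) : ℝ) = MvPolynomial.aeval v u
        exact hv.1.algebraMap_aevalEquiv u)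
  have hL : Algebra.IsAlgebraic (FractionRing (MvPolynomial ι ℚ)) ℝ :=
    Algebra.IsAlgebraic.extendScalars (R := MvPolynomial ι ℚ)
      (IsFractionRing.injective (MvPolynomial ι ℚ) (FractionRing (MvPolynomial ι ℚ)))
  refine AL_core (R := MvPolynomial ι ℚ) (L := FractionRing (MvPolynomial ι ℚ)) ?_ x
  intro D H hD hH
  rw [← IsScalarTower.algebraMap_apply, hmap] at hH
  have hD' : MvPolynomial.aeval v D ≠ 0 := fun h => hD (hinj (by rw [h, map_zero]))
  have hcont : ∀ p : MvPolynomial ι ℚ, Continuous fun w : ι → ℝ => MvPolynomial.aeval w p := by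
    intro p
    have h1 := MvPolynomial.continuous_eval (MvPolynomial.map (algebraMap ℚ ℝ) p)
    have h2 : (fun w : ι → ℝ => MvPolynomial.aeval w p) =
        fun w => MvPolynomial.eval w (MvPolynomial.map (algebraMap ℚ ℝ) p) := by
      funext w
      rw [MvPolynomial.eval_map, MvPolynomial.aeval_def]
    rw [h2]
    exact h1
  have hopen : IsOpen {w : ι → ℝ | MvPolynomial.aeval w D ≠ 0 ∧ MvPolynomial.aeval w H < 0} :=
    (isOpen_ne_fun (hcont D) continuous_const).inter (isOpen_lt (hcont H) continuous_const)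
  have hdense : DenseRange (Pi.map fun (_ : ι) (t : ℚ) => (t : ℝ)) := DenseRange.piMap fun _ => Rat.denseRange_cast
  obtain ⟨w, hw⟩ := hdense.exists_mem_open hopen ⟨v, hD', hH⟩
  have hcast : ∀ p : MvPolynomial ι ℚ, MvPolynomial.aeval (Pi.map (fun (_ : ι) (t : ℚ) => (t : ℝ)) w) p =
      ((MvPolynomial.eval w p : ℚ) : ℝ) := by
    intro p
    have h1 := MvPolynomial.map_eval₂Hom (RingHom.id ℚ) w (algebraMap ℚ ℝ) p
    exact h1.symm
  refine ⟨MvPolynomial.eval w, ?_, ?_⟩
  · have h1 := hw.1
    rw [hcast] at h1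
    exact_mod_cast h1
  · have h1 := hw.2
    rw [hcast] at h1
    exact_mod_cast h1

end MP44e4f6
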