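import Mathlib

/-!
Polynomial expressions; the conditions on one piece of a cubic spline.
-/

namespace MP44e4f6

/-- polynomial expressions with integer constants -/
inductive Ex : Type
  | v (i : ℕ) : Ex
  | c (n : ℤ) : Ex
  | add (a b : Ex) : Ex
  | mul (a b : Ex) : Ex

namespace Ex

/-- evaluation in a ring -/
def ev {R : Type*} [CommRing R] (env : ℕ → R) : Ex → R
  | v i => env i
  | c n => (n : R)
  | add a b => a.ev env + b.ev env
  | mul a b => a.ev env * b.ev env

theorem map_ev {R S : Type*} [CommRing R] [CommRing S] (φ : R →+* S) (env : ℕ → R) (e : Ex) :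
    φ (e.ev env) = e.ev (fun i => φ (env i)) := by
  induction e with
  | v i => rfl
  | c n => simp [ev]
  | add a b iha ihb => simp [ev, iha, ihb]
  | mul a b iha ihb => simp [ev, iha, ihb]

def sub (a b : Ex) : Ex := add a (mul (c (-1)) b)

theorem ev_sub {R : Type*} [CommRing R] (env : ℕ → R) (a b : Ex) :
    (sub a b).ev env = a.ev env - b.ev env := by
  simp only [sub, ev]
  push_cast
  ring

end Ex

open Ex

/-- environment: `0 - 3` the left node `(t, h, v, a)`, `4 - 7` the right node, `8 - 11` the step `(c, r, lo, hi)`, `12` the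
Lipschitz bound -/
def env {R : Type*} [CommRing R] (n n' s : R × R × R × R) (K : R) : ℕ → R
  | 0 => n.1
  | 1 => n.2.1
  | 2 => n.2.2.1
  | 3 => n.2.2.2
  | 4 => n'.1
  | 5 => n'.2.1
  | 6 => n'.2.2.1
  | 7 => n'.2.2.2
  | 8 => s.1
  | 9 => s.2.1
  | 10 => s.2.2.1
  | 11 => s.2.2.2
  | 12 => K
  | _ => 0

/-- the length of the piece -/
def eD : Ex := sub (v 4) (v 0)
/-- `2 (v' - v) = d (a + a')` -/
def eV : Ex := sub (mul (c 2) (sub (v 6) (v 2))) (mul eD (add (v 3) (v 7)))
/-- `6 (h' - h) = 6 d v + d ^ 2 (2 a + a')` -/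
def eH : Ex := sub (mul (c 6) (sub (v 5) (v 1)))
  (add (mul (c 6) (mul eD (v 2))) (mul (mul eD eD) (add (mul (c 2) (v 3)) (v 7))))
/-- `K d ± (a' - a)` -/
def eK1 : Ex := add (mul (v 12) eD) (sub (v 7) (v 3))
def eK2 : Ex := sub (mul (v 12) eD) (sub (v 7) (v 3))
/-- the piece is to the left of the step: `c - r - t'` -/
def eL : Ex := sub (sub (v 8) (v 9)) (v 4)
/-- the piece is to the right of the step: `t - c - r` -/
def eR : Ex := sub (v 0) (add (v 8) (v 9))

/-- conditions for the values of `h` -/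
def at0 : List Ex :=
  [sub (v 1) (v 10),
   sub (add (mul (c 3) (v 1)) (mul eD (v 2))) (mul (c 3) (v 10)),
   sub (add (add (mul (c 6) (v 1)) (mul (c 4) (mul eD (v 2)))) (mul (mul eD eD) (v 3)))
     (mul (c 6) (v 10)),
   sub (v 5) (v 10),
   sub (v 11) (v 1),
   sub (mul (c 3) (v 11)) (add (mul (c 3) (v 1)) (mul eD (v 2))),
   sub (mul (c 6) (v 11))
     (add (add (mul (c 6) (v 1)) (mul (c 4) (mul eD (v 2)))) (mul (mul eD eD) (v 3))),
   sub (v 11) (v 5)]

/-- conditions for the values of `h'` -/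
def at1 : List Ex :=
  [sub (v 2) (v 10),
   sub (add (mul (c 2) (v 2)) (mul eD (v 3))) (mul (c 2) (v 10)),
   sub (v 6) (v 10),
   sub (v 11) (v 2),
   sub (mul (c 2) (v 11)) (add (mul (c 2) (v 2)) (mul eD (v 3))),
   sub (v 11) (v 6)]

/-- conditions for the values of `h''` -/
def at2 : List Ex := [sub (v 3) (v 10), sub (v 7) (v 10), sub (v 11) (v 3), sub (v 11) (v 7)]

/-- conditions for the slopes of `h''` -/
def at3 : List Ex :=
  [sub (sub (v 7) (v 3)) (mul (v 10) eD), sub (mul (v 11) eD) (sub (v 7) (v 3))]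

/-- the conditions of one step on a piece -/
def StepOK {R : Type*} [CommRing R] (N : R → Prop) (A : List Ex) (K : R) (n n' s : R × R × R × R) :
    Prop :=
  N (eL.ev (env n n' s K)) ∨ N (eR.ev (env n n' s K)) ∨ ∀ e ∈ A, N (e.ev (env n n' s K))

/-- all conditions on a piece -/
structure Piece {R : Type*} [CommRing R] (Z N : R → Prop) (K : R)
    (L0 L1 L2 L3 : List (R × R × R × R)) (n n' : R × R × R × R) : Prop where
  hV : Z (eV.ev (env n n' n K))
  hH : Z (eH.ev (env n n' n K))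
  hD : N (eD.ev (env n n' n K))
  hK1 : N (eK1.ev (env n n' n K))
  hK2 : N (eK2.ev (env n n' n K))
  h0 : ∀ s ∈ L0, StepOK N at0 K n n' s
  h1 : ∀ s ∈ L1, StepOK N at1 K n n' s
  h2 : ∀ s ∈ L2, StepOK N at2 K n n' s
  h3 : ∀ s ∈ L3, StepOK N at3 K n n' s

end MP44e4f6
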