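import Mathlib
import Pool.Agent.Lib.MP_44e4f6_lc.Ex
import Pool.Agent.Lib.MP_44e4f6_lc.Glob

/-!
Chains of spline pieces give paths.
-/

namespace MP44e4f6

open Set

/-- the data of a step as a tuple -/
def Stp.tup (s : Stp) : ℝ × ℝ × ℝ × ℝ := (s.c, s.r, s.lo, s.hi)

/-- the conditions on a piece, over the reals -/
def RPiece (K : ℝ) (L0 L1 L2 L3 : List Stp) (n n' : ℝ × ℝ × ℝ × ℝ) : Prop :=
  Piece (fun x : ℝ => x = 0) (fun x : ℝ => 0 ≤ x) K (L0.map Stp.tup) (L1.map Stp.tup)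
    (L2.map Stp.tup) (L3.map Stp.tup) n n'

section unfold

variable {K t h v a t' h' v' a' c r lo hi : ℝ}

theorem eV_ev {s : ℝ × ℝ × ℝ × ℝ} : eV.ev (env (t, h, v, a) (t', h', v', a') s K) =
    2 * (v' - v) - (t' - t) * (a + a') := by
  simp [eV, eD, Ex.ev_sub, Ex.ev, env]

theorem eH_ev {s : ℝ × ℝ × ℝ × ℝ} : eH.ev (env (t, h, v, a) (t', h', v', a') s K) =
    6 * (h' - h) - (6 * ((t' - t) * v) + (t' - t) * (t' - t) * (2 * a + a')) := by
  simp [eH, eD, Ex.ev_sub, Ex.ev, env]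

theorem eD_ev {s : ℝ × ℝ × ℝ × ℝ} : eD.ev (env (t, h, v, a) (t', h', v', a') s K) = t' - t := by
  simp [eD, Ex.ev_sub, Ex.ev, env]

theorem eK1_ev {s : ℝ × ℝ × ℝ × ℝ} : eK1.ev (env (t, h, v, a) (t', h', v', a') s K) =
    K * (t' - t) + (a' - a) := by
  simp [eK1, eD, Ex.ev_sub, Ex.ev, env]

theorem eK2_ev {s : ℝ × ℝ × ℝ × ℝ} : eK2.ev (env (t, h, v, a) (t', h', v', a') s K) =
    K * (t' - t) - (a' - a) := by
  simp [eK2, eD, Ex.ev_sub, Ex.ev, env]

theorem stepOK0 : StepOK (fun x : ℝ => 0 ≤ x) at0 K (t, h, v, a) (t', h', v', a') (c, r, lo, hi) ↔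
    0 ≤ c - r - t' ∨ 0 ≤ t - (c + r) ∨ (0 ≤ h - lo ∧ 0 ≤ 3 * h + (t' - t) * v - 3 * lo ∧
      0 ≤ 6 * h + 4 * ((t' - t) * v) + (t' - t) * (t' - t) * a - 6 * lo ∧ 0 ≤ h' - lo ∧
      0 ≤ hi - h ∧ 0 ≤ 3 * hi - (3 * h + (t' - t) * v) ∧
      0 ≤ 6 * hi - (6 * h + 4 * ((t' - t) * v) + (t' - t) * (t' - t) * a) ∧ 0 ≤ hi - h') := by
  simp [StepOK, at0, eL, eR, eD, Ex.ev_sub, Ex.ev, env]

theorem stepOK1 : StepOK (fun x : ℝ => 0 ≤ x) at1 K (t, h, v, a) (t', h', v', a') (c, r, lo, hi) ↔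
    0 ≤ c - r - t' ∨ 0 ≤ t - (c + r) ∨ (0 ≤ v - lo ∧ 0 ≤ 2 * v + (t' - t) * a - 2 * lo ∧
      0 ≤ v' - lo ∧ 0 ≤ hi - v ∧ 0 ≤ 2 * hi - (2 * v + (t' - t) * a) ∧ 0 ≤ hi - v') := by
  simp [StepOK, at1, eL, eR, eD, Ex.ev_sub, Ex.ev, env]

theorem stepOK2 : StepOK (fun x : ℝ => 0 ≤ x) at2 K (t, h, v, a) (t', h', v', a') (c, r, lo, hi) ↔
    0 ≤ c - r - t' ∨ 0 ≤ t - (c + r) ∨ (0 ≤ a - lo ∧ 0 ≤ a' - lo ∧ 0 ≤ hi - a ∧
      0 ≤ hi - a') := by
  simp [StepOK, at2, eL, eR, Ex.ev_sub, Ex.ev, env]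

theorem stepOK3 : StepOK (fun x : ℝ => 0 ≤ x) at3 K (t, h, v, a) (t', h', v', a') (c, r, lo, hi) ↔
    0 ≤ c - r - t' ∨ 0 ≤ t - (c + r) ∨ (0 ≤ (a' - a) - lo * (t' - t) ∧
      0 ≤ hi * (t' - t) - (a' - a)) := by
  simp [StepOK, at3, eL, eR, eD, Ex.ev_sub, Ex.ev, env]

/-- the conditions on a piece, explicitly -/
theorem rpiece_iff {L0 L1 L2 L3 : List Stp} :
    RPiece K L0 L1 L2 L3 (t, h, v, a) (t', h', v', a') ↔
      2 * (v' - v) - (t' - t) * (a + a') = 0 ∧
      6 * (h' - h) - (6 * ((t' - t) * v) + (t' - t) * (t' - t) * (2 * a + a')) = 0 ∧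
      0 ≤ t' - t ∧ 0 ≤ K * (t' - t) + (a' - a) ∧ 0 ≤ K * (t' - t) - (a' - a) ∧
      (∀ s ∈ L0, StepOK (fun x : ℝ => 0 ≤ x) at0 K (t, h, v, a) (t', h', v', a') s.tup) ∧
      (∀ s ∈ L1, StepOK (fun x : ℝ => 0 ≤ x) at1 K (t, h, v, a) (t', h', v', a') s.tup) ∧
      (∀ s ∈ L2, StepOK (fun x : ℝ => 0 ≤ x) at2 K (t, h, v, a) (t', h', v', a') s.tup) ∧
      (∀ s ∈ L3, StepOK (fun x : ℝ => 0 ≤ x) at3 K (t, h, v, a) (t', h', v', a') s.tup) := by
  constructor
  · rintro ⟨h1, h2, h3, h4, h5, h6, h7, h8, h9⟩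
    rw [eV_ev] at h1
    rw [eH_ev] at h2
    rw [eD_ev] at h3
    rw [eK1_ev] at h4
    rw [eK2_ev] at h5
    exact ⟨h1, h2, h3, h4, h5, fun s hs => h6 _ (List.mem_map_of_mem hs),
      fun s hs => h7 _ (List.mem_map_of_mem hs), fun s hs => h8 _ (List.mem_map_of_mem hs),
      fun s hs => h9 _ (List.mem_map_of_mem hs)⟩
  · rintro ⟨h1, h2, h3, h4, h5, h6, h7, h8, h9⟩
    refine ⟨?_, ?_, ?_, ?_, ?_, ?_, ?_, ?_, ?_⟩
    · rw [eV_ev]; exact h1
    · rw [eH_ev]; exact h2
    · rw [eD_ev]; exact h3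
    · rw [eK1_ev]; exact h4
    · rw [eK2_ev]; exact h5
    · intro s hs
      obtain ⟨s', hs', rfl⟩ := List.mem_map.1 hs
      exact h6 s' hs'
    · intro s hs
      obtain ⟨s', hs', rfl⟩ := List.mem_map.1 hs
      exact h7 s' hs'
    · intro s hs
      obtain ⟨s', hs', rfl⟩ := List.mem_map.1 hs
      exact h8 s' hs'
    · intro s hs
      obtain ⟨s', hs', rfl⟩ := List.mem_map.1 hs
      exact h9 s' hs'

end unfold

/-- paths from derivatives -/
theorem isPath_of_deriv {h v a : ℝ → ℝ} (hc : Continuous a) (h1 : ∀ x, HasDerivAt v (a x) x)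
    (h2 : ∀ x, HasDerivAt h (v x) x) : IsPath h v a := by
  have hvc : Continuous v := by
    rw [continuous_iff_continuousAt]
    exact fun x => (h1 x).continuousAt
  refine ⟨hc, fun s x => ?_, fun s x => ?_⟩
  · have := intervalIntegral.integral_eq_sub_of_hasDerivAt (fun y _ => h1 y)
      (hc.intervalIntegrable s x)
    linarith
  · have := intervalIntegral.integral_eq_sub_of_hasDerivAt (fun y _ => h2 y)
      (hvc.intervalIntegrable s x)
    linarith

theorem cubic_path (t h v a k : ℝ) :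
    IsPath (fun x => h + v * (x - t) + a * (x - t) ^ 2 / 2 + k * (x - t) ^ 3 / 6)
      (fun x => v + a * (x - t) + k * (x - t) ^ 2 / 2) (fun x => a + k * (x - t)) := by
  have hid : ∀ x : ℝ, HasDerivAt (fun y => y - t) 1 x := fun x => (hasDerivAt_id x).sub_const t
  apply isPath_of_deriv (by fun_prop)
  · intro x
    have h1 := ((hid x).const_mul a).const_add v
    have h2 := (((hid x).fun_pow 2).const_mul k).div_const 2
    have h3 := h1.add h2
    apply h3.congr_deriv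
    simp
    ring
  · intro x
    have h0 := ((hid x).const_mul v).const_add h
    have h1 := (((hid x).fun_pow 2).const_mul a).div_const 2
    have h2 := (((hid x).fun_pow 3).const_mul k).div_const 6
    have h3 := (h0.add h1).add h2
    apply h3.congr_deriv
    simp
    ring

theorem nonneg_of_mul3 {d x : ℝ} (hd : 0 < d) (h : 0 ≤ d ^ 3 * x) : 0 ≤ x := by
  by_contra hc
  push Not at hc
  have : d ^ 3 * x < 0 := mul_neg_of_pos_of_neg (by positivity) hc
  linarith

/-- one piece gives a path -/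
theorem piece_path {K : ℝ} {L0 L1 L2 L3 : List Stp} {t h v a t' h' v' a' : ℝ}
    (hP : RPiece K L0 L1 L2 L3 (t, h, v, a) (t', h', v', a')) :
    t ≤ t' ∧ ∃ H V b : ℝ → ℝ, IsPath H V b ∧ H t = h ∧ V t = v ∧ b t = a ∧ H t' = h' ∧ V t' = v' ∧
      b t' = a' ∧ GF L0 L1 L2 L3 K t t' H V b := by
  obtain ⟨i1, i2, i3, i4, i5, i6, i7, i8, i9⟩ := rpiece_iff.1 hP
  have htt : t ≤ t' := by linarith
  refine ⟨htt, ?_⟩
  set d := t' - t with hd
  obtain ⟨k, hk⟩ : ∃ k, k * d = a' - a := by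
    rcases eq_or_lt_of_le i3 with h0 | h0
    · refine ⟨0, ?_⟩
      rw [← h0] at i4 i5
      simp only [mul_zero, zero_add, zero_sub] at i4 i5
      rw [zero_mul]
      linarith
    · exact ⟨(a' - a) / d, div_mul_cancel₀ _ h0.ne'⟩
  have ha' : a' = a + k * d := by linarith
  have hv' : v' = v + a * d + k * d ^ 2 / 2 := by
    rw [ha'] at i1; linarith
  have hh' : h' = h + v * d + a * d ^ 2 / 2 + k * d ^ 3 / 6 := by
    rw [ha'] at i2; linarith
  refine ⟨_, _, _, cubic_path t h v a k, by simp, by simp, by simp, ?_, ?_, ?_, ?_⟩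
  · show h + v * (t' - t) + a * (t' - t) ^ 2 / 2 + k * (t' - t) ^ 3 / 6 = h'
    rw [← hd, hh']
  · show v + a * (t' - t) + k * (t' - t) ^ 2 / 2 = v'
    rw [← hd, hv']
  · show a + k * (t' - t) = a'
    rw [← hd, ha']
  have hslope : ∀ lo hi : ℝ, lo * d ≤ k * d → k * d ≤ hi * d →
      SB lo hi t t' (fun x => a + k * (x - t)) := by
    intro lo hi e1 e2 x y hx hxy hy
    show lo * (y - x) ≤ a + k * (y - t) - (a + k * (x - t)) ∧
      a + k * (y - t) - (a + k * (x - t)) ≤ hi * (y - x)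
    rcases eq_or_lt_of_le i3 with h0 | h0
    · have : x = y := by linarith
      subst this
      simp
    · have f1 : lo ≤ k := le_of_mul_le_mul_right e1 h0
      have f2 : k ≤ hi := le_of_mul_le_mul_right e2 h0
      have f3 : 0 ≤ y - x := by linarith
      constructor
      · have := mul_le_mul_of_nonneg_right f1 f3
        linarith
      · have := mul_le_mul_of_nonneg_right f2 f3
        linarith
  refine ⟨?_, ?_, ?_, ?_, ?_⟩
  · intro s hs x hx hx' hc
    rw [abs_lt] at hc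
    have j := stepOK0.1 (i6 s hs)
    rw [← hd] at j
    rcases j with j | j | j
    · exfalso; linarith [hc.1]
    · exfalso; linarith [hc.2]
    · obtain ⟨j1, j2, j3, j4, j5, j6, j7, j8⟩ := j
      show s.lo ≤ h + v * (x - t) + a * (x - t) ^ 2 / 2 + k * (x - t) ^ 3 / 6 ∧
        h + v * (x - t) + a * (x - t) ^ 2 / 2 + k * (x - t) ^ 3 / 6 ≤ s.hi
      rcases eq_or_lt_of_le i3 with h0 | h0
      · have : x - t = 0 := by linarith
        rw [this]
        constructor
        · linarith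
        · linarith
      · obtain ⟨y, hy⟩ : ∃ y, y = x - t := ⟨_, rfl⟩
        obtain ⟨w, hw⟩ : ∃ w, w = t' - x := ⟨_, rfl⟩
        have hy0 : 0 ≤ y := by linarith
        have hw0 : 0 ≤ w := by linarith
        have hdw : d = y + w := by linarith
        rw [← hy]
        rw [hh'] at j4 j8
        constructor
        · have : 0 ≤ d ^ 3 * (h + v * y + a * y ^ 2 / 2 + k * y ^ 3 / 6 - s.lo) := by
            have e : d ^ 3 * (h + v * y + a * y ^ 2 / 2 + k * y ^ 3 / 6 - s.lo) =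
                w ^ 3 * (h - s.lo) + w ^ 2 * y * (3 * h + d * v - 3 * s.lo) +
                w * y ^ 2 / 2 * (6 * h + 4 * (d * v) + d * d * a - 6 * s.lo) +
                y ^ 3 * (h + v * d + a * d ^ 2 / 2 + k * d ^ 3 / 6 - s.lo) := by
              rw [hdw]; ring
            rw [e]
            positivity
          linarith [nonneg_of_mul3 h0 this]
        · have : 0 ≤ d ^ 3 * (s.hi - (h + v * y + a * y ^ 2 / 2 + k * y ^ 3 / 6)) := by
            have e : d ^ 3 * (s.hi - (h + v * y + a * y ^ 2 / 2 + k * y ^ 3 / 6)) =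
                w ^ 3 * (s.hi - h) + w ^ 2 * y * (3 * s.hi - (3 * h + d * v)) +
                w * y ^ 2 / 2 * (6 * s.hi - (6 * h + 4 * (d * v) + d * d * a)) +
                y ^ 3 * (s.hi - (h + v * d + a * d ^ 2 / 2 + k * d ^ 3 / 6)) := by
              rw [hdw]; ring
            rw [e]
            positivity
          linarith [nonneg_of_mul3 h0 this]
  · intro s hs x hx hx' hc
    rw [abs_lt] at hc
    have j := stepOK1.1 (i7 s hs)
    rw [← hd] at j
    rcases j with j | j | j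
    · exfalso; linarith [hc.1]
    · exfalso; linarith [hc.2]
    · obtain ⟨j1, j2, j3, j4, j5, j6⟩ := j
      show s.lo ≤ v + a * (x - t) + k * (x - t) ^ 2 / 2 ∧
        v + a * (x - t) + k * (x - t) ^ 2 / 2 ≤ s.hi
      rcases eq_or_lt_of_le i3 with h0 | h0
      · have : x - t = 0 := by linarith
        rw [this]
        constructor
        · linarith
        · linarith
      · obtain ⟨y, hy⟩ : ∃ y, y = x - t := ⟨_, rfl⟩
        obtain ⟨w, hw⟩ : ∃ w, w = t' - x := ⟨_, rfl⟩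
        have hy0 : 0 ≤ y := by linarith
        have hw0 : 0 ≤ w := by linarith
        have hdw : d = y + w := by linarith
        rw [← hy]
        rw [hv'] at j3 j6
        constructor
        · have : 0 ≤ d ^ 3 * (v + a * y + k * y ^ 2 / 2 - s.lo) := by
            have e : d ^ 3 * (v + a * y + k * y ^ 2 / 2 - s.lo) =
                d * (w ^ 2 * (v - s.lo) + w * y * (2 * v + d * a - 2 * s.lo) +
                y ^ 2 * (v + a * d + k * d ^ 2 / 2 - s.lo)) := by
              rw [hdw]; ring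
            rw [e]
            positivity
          linarith [nonneg_of_mul3 h0 this]
        · have : 0 ≤ d ^ 3 * (s.hi - (v + a * y + k * y ^ 2 / 2)) := by
            have e : d ^ 3 * (s.hi - (v + a * y + k * y ^ 2 / 2)) =
                d * (w ^ 2 * (s.hi - v) + w * y * (2 * s.hi - (2 * v + d * a)) +
                y ^ 2 * (s.hi - (v + a * d + k * d ^ 2 / 2))) := by
              rw [hdw]; ring
            rw [e]
            positivity
          linarith [nonneg_of_mul3 h0 this]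
  · intro s hs x hx hx' hc
    rw [abs_lt] at hc
    have j := stepOK2.1 (i8 s hs)
    rcases j with j | j | j
    · exfalso; linarith [hc.1]
    · exfalso; linarith [hc.2]
    · obtain ⟨j1, j2, j3, j4⟩ := j
      show s.lo ≤ a + k * (x - t) ∧ a + k * (x - t) ≤ s.hi
      rcases eq_or_lt_of_le i3 with h0 | h0
      · have : x - t = 0 := by linarith
        rw [this]
        constructor
        · linarith
        · linarith
      · obtain ⟨y, hy⟩ : ∃ y, y = x - t := ⟨_, rfl⟩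
        obtain ⟨w, hw⟩ : ∃ w, w = t' - x := ⟨_, rfl⟩
        have hy0 : 0 ≤ y := by linarith
        have hw0 : 0 ≤ w := by linarith
        have hdw : d = y + w := by linarith
        rw [← hy]
        rw [ha'] at j2 j4
        constructor
        · have : 0 ≤ d ^ 3 * (a + k * y - s.lo) := by
            have e : d ^ 3 * (a + k * y - s.lo) =
                d ^ 2 * (w * (a - s.lo) + y * (a + k * d - s.lo)) := by
              rw [hdw]; ring
            rw [e]
            positivity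
          linarith [nonneg_of_mul3 h0 this]
        · have : 0 ≤ d ^ 3 * (s.hi - (a + k * y)) := by
            have e : d ^ 3 * (s.hi - (a + k * y)) =
                d ^ 2 * (w * (s.hi - a) + y * (s.hi - (a + k * d))) := by
              rw [hdw]; ring
            rw [e]
            positivity
          linarith [nonneg_of_mul3 h0 this]
  · intro s hs x y hx hxy hy hc hc'
    rw [abs_lt] at hc hc'
    have j := stepOK3.1 (i9 s hs)
    rw [← hd] at j
    rcases j with j | j | j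
    · exfalso; linarith [hc.1]
    · exfalso; linarith [hc'.2]
    · exact hslope s.lo s.hi (by linarith [j.1]) (by linarith [j.2]) x y hx hxy hy
  · exact hslope (-K) K (by linarith) (by linarith)

/-- gluing of paths -/
theorem glue_path {s m t K : ℝ} {L0 L1 L2 L3 : List Stp} (hsm : s ≤ m) (hmt : m ≤ t)
    {H1 V1 b1 H2 V2 b2 : ℝ → ℝ} (Q1 : IsPath H1 V1 b1) (Q2 : IsPath H2 V2 b2)
    (e0 : H1 m = H2 m) (e1 : V1 m = V2 m) (e2 : b1 m = b2 m)
    (G1 : GF L0 L1 L2 L3 K s m H1 V1 b1) (G2 : GF L0 L1 L2 L3 K m t H2 V2 b2) :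
    ∃ H V b : ℝ → ℝ, IsPath H V b ∧ H s = H1 s ∧ V s = V1 s ∧ b s = b1 s ∧ H t = H2 t ∧
      V t = V2 t ∧ b t = b2 t ∧ GF L0 L1 L2 L3 K s t H V b := by
  set b : ℝ → ℝ := fun x => if x ≤ m then b1 x else b2 x with hb
  have hbc : Continuous b := by
    apply Continuous.if_le Q1.cont Q2.cont continuous_id continuous_const
    intro x hx
    have hx' : x = m := hx
    rw [hx', e2]
  have hbl : ∀ x, x ≤ m → b x = b1 x := fun x hx => if_pos hx
  have hbr : ∀ x, m ≤ x → b x = b2 x := by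
    intro x hx
    rcases eq_or_lt_of_le hx with hx' | hx'
    · rw [← hx', hbl m le_rfl, e2]
    · exact if_neg (not_le.2 hx')
  have Q := isPath_mk hbc m (H1 m) (V1 m)
  set V : ℝ → ℝ := fun x => V1 m + ∫ y in m..x, b y with hV
  set H : ℝ → ℝ := fun x => H1 m + ∫ t in m..x, (V1 m + ∫ y in m..t, b y) with hH
  have hVl : ∀ x, x ≤ m → V x = V1 x := by
    intro x hx
    rw [Q1.hv m x]
    show V1 m + ∫ y in m..x, b y = _
    congr 1
    apply intervalIntegral.integral_congr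
    intro y hy
    rw [uIcc_of_ge hx] at hy
    exact hbl y hy.2
  have hVr : ∀ x, m ≤ x → V x = V2 x := by
    intro x hx
    rw [Q2.hv m x, ← e1]
    show V1 m + ∫ y in m..x, b y = _
    congr 1
    apply intervalIntegral.integral_congr
    intro y hy
    rw [uIcc_of_le hx] at hy
    exact hbr y hy.1
  have hHl : ∀ x, x ≤ m → H x = H1 x := by
    intro x hx
    rw [Q1.hh m x]
    show H1 m + ∫ t in m..x, V t = _
    congr 1
    apply intervalIntegral.integral_congr
    intro y hy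
    rw [uIcc_of_ge hx] at hy
    exact hVl y hy.2
  have hHr : ∀ x, m ≤ x → H x = H2 x := by
    intro x hx
    rw [Q2.hh m x, ← e0]
    show H1 m + ∫ t in m..x, V t = _
    congr 1
    apply intervalIntegral.integral_congr
    intro y hy
    rw [uIcc_of_le hx] at hy
    exact hVr y hy.1
  refine ⟨H, V, b, Q, hHl s hsm, hVl s hsm, hbl s hsm, hHr t hmt, hVr t hmt, hbr t hmt, ?_⟩
  exact (G1.congr (fun x _ h2 => hHl x h2) (fun x _ h2 => hVl x h2)
      (fun x _ h2 => hbl x h2)).glue (G2.congr (fun x h1 _ => hHr x h1) (fun x h1 _ => hVr x h1)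
      (fun x h1 _ => hbr x h1))

/-- a chain gives a path -/
theorem chain_path {K : ℝ} {L0 L1 L2 L3 : List Stp} {n n' : ℝ × ℝ × ℝ × ℝ}
    (h : Relation.TransGen (RPiece K L0 L1 L2 L3) n n') :
    n.1 ≤ n'.1 ∧ ∃ H V b : ℝ → ℝ, IsPath H V b ∧ H n.1 = n.2.1 ∧ V n.1 = n.2.2.1 ∧
      b n.1 = n.2.2.2 ∧ H n'.1 = n'.2.1 ∧ V n'.1 = n'.2.2.1 ∧ b n'.1 = n'.2.2.2 ∧
      GF L0 L1 L2 L3 K n.1 n'.1 H V b := by
  induction h with
  | single h1 =>
    rename_i m
    obtain ⟨t, h, v, a⟩ := n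
    obtain ⟨t', h', v', a'⟩ := m
    exact piece_path h1
  | tail h1 h2 ih =>
    rename_i m m'
    obtain ⟨t', h', v', a'⟩ := m
    obtain ⟨t'', h'', v'', a''⟩ := m'
    obtain ⟨j0, H1, V1, b1, Q1, j1, j2, j3, j4, j5, j6, G1⟩ := ih
    obtain ⟨k0, H2, V2, b2, Q2, k1, k2, k3, k4, k5, k6, G2⟩ := piece_path h2
    refine ⟨j0.trans k0, ?_⟩
    obtain ⟨H, V, b, Q, l1, l2, l3, l4, l5, l6, G⟩ := glue_path j0 k0 Q1 Q2
      (j4.trans k1.symm) (j5.trans k2.symm) (j6.trans k3.symm) G1 G2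
    exact ⟨H, V, b, Q, l1.trans j1, l2.trans j2, l3.trans j3, l4.trans k4, l5.trans k5,
      l6.trans k6, G⟩

end MP44e4f6
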