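import Mathlib
import Pool.Agent.Lib.MP_44e4f6_lc.Chain

/-!
A path with piecewise affine second derivative gives a chain of pieces.
-/

namespace MP44e4f6

open Set

theorem pl_right {p q : ℝ} {b : ℝ → ℝ} (h : PL p q b) : ∀ x, p ≤ x → x < q →
    ∃ δ > 0, x + δ ≤ q ∧ ∃ k c : ℝ, ∀ y, x ≤ y → y ≤ x + δ → b y = k * y + c := by
  induction h with
  | aff p q k c b h =>
    intro x hx hx'
    exact ⟨q - x, by linarith, by linarith, k, c, fun y h1 h2 => h y (by linarith) (by linarith)⟩
  | glue p m q b hpm hmq h1 h2 ih1 ih2 =>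
    intro x hx hx'
    rcases lt_or_ge x m with h3 | h3
    · obtain ⟨δ, hδ, hm, k, c, hb⟩ := ih1 x hx h3
      exact ⟨δ, hδ, by linarith, k, c, hb⟩
    · exact ih2 x h3 hx'

/-- integration of a path with affine second derivative -/
theorem affine_piece {H V b : ℝ → ℝ} (P : IsPath H V b) {x y k c : ℝ} (hxy : x ≤ y)
    (hb : ∀ z, x ≤ z → z ≤ y → b z = k * z + c) :
    2 * (V y - V x) - (y - x) * (b x + b y) = 0 ∧
      6 * (H y - H x) - (6 * ((y - x) * V x) + (y - x) * (y - x) * (2 * b x + b y)) = 0 := by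
  have Q := cubic_path x (H x) (V x) (b x) k
  have hbx : b x = k * x + c := hb x le_rfl hxy
  have hV : ∀ z, x ≤ z → z ≤ y → V z = V x + b x * (z - x) + k * (z - x) ^ 2 / 2 := by
    intro z hz hz'
    rw [P.hv x z]
    have e := Q.hv x z
    simp only [sub_self, mul_zero, add_zero] at e
    have : ∫ t in x..z, b t = ∫ t in x..z, (b x + k * (t - x)) := by
      apply intervalIntegral.integral_congr
      intro w hw
      rw [uIcc_of_le hz] at hw
      show b w = b x + k * (w - x)
      rw [hb w hw.1 (hw.2.trans hz'), hbx]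
      ring
    rw [this]
    norm_num at e
    linarith
  have hH : H y = H x + V x * (y - x) + b x * (y - x) ^ 2 / 2 + k * (y - x) ^ 3 / 6 := by
    rw [P.hh x y]
    have e := Q.hh x y
    have : ∫ t in x..y, V t = ∫ t in x..y, (V x + b x * (t - x) + k * (t - x) ^ 2 / 2) := by
      apply intervalIntegral.integral_congr
      intro w hw
      rw [uIcc_of_le hxy] at hw
      exact hV w hw.1 hw.2
    rw [this]
    norm_num at e
    linarith
  have hVy := hV y hxy le_rfl
  have hby : b y = b x + k * (y - x) := by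
    rw [hb y hxy le_rfl, hbx]; ring
  constructor
  · rw [hVy, hby]; ring
  · rw [hH, hby]; ring

theorem lowB0 (D v b : ℝ) (h0 : 0 ≤ D) (h1 : D = 0 → 0 ≤ v) (h2 : D = 0 → v = 0 → 0 ≤ b) :
    ∃ δ > 0, ∀ d, 0 ≤ d → d < δ → 0 ≤ 3 * D + d * v ∧ 0 ≤ 6 * D + 4 * (d * v) + d * d * b := by
  rcases eq_or_lt_of_le h0 with h3 | h3
  · rcases eq_or_lt_of_le (h1 h3.symm) with h4 | h4
    · refine ⟨1, one_pos, fun d hd _ => ?_⟩
      have := h2 h3.symm h4.symm
      rw [← h3, ← h4]
      constructor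
      · simp
      · have : 0 ≤ d * d * b := by positivity
        linarith
    · refine ⟨v / (|b| + 1), by positivity, fun d hd hd' => ?_⟩
      rw [lt_div_iff₀ (by positivity)] at hd'
      rw [← h3]
      constructor
      · have : 0 ≤ d * v := by positivity
        linarith
      · have e1 : -(|b|) ≤ b := neg_abs_le b
        have e2 : 0 ≤ d * (v + d * b) := by
          apply mul_nonneg hd
          have : d * -(|b|) ≤ d * b := mul_le_mul_of_nonneg_left e1 hd
          nlinarith
        have e3 : 0 ≤ d * v := by positivity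
        nlinarith
  · refine ⟨min 1 (D / (|v| + |b| + 1)), lt_min one_pos (by positivity), fun d hd hd' => ?_⟩
    have hd1 : d < 1 := hd'.trans_le (min_le_left _ _)
    have hd2 : d < D / (|v| + |b| + 1) := hd'.trans_le (min_le_right _ _)
    rw [lt_div_iff₀ (by positivity)] at hd2
    have e1 : -(|b|) ≤ b := neg_abs_le b
    have e2 : -(|v|) ≤ v := neg_abs_le v
    have e3 : d * -(|v|) ≤ d * v := mul_le_mul_of_nonneg_left e2 hd
    have e4 : d * d * -(|b|) ≤ d * d * b := mul_le_mul_of_nonneg_left e1 (by positivity)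
    have e5 : d * d * |b| ≤ d * |b| := by
      have : d * d ≤ d * 1 := mul_le_mul_of_nonneg_left hd1.le hd
      have := mul_le_mul_of_nonneg_right this (abs_nonneg b)
      linarith
    have e6 : 0 ≤ d * |v| := by positivity
    have e7 : 0 ≤ d * |b| := by positivity
    constructor
    · nlinarith
    · nlinarith

theorem lowB1 (D b : ℝ) (h0 : 0 ≤ D) (h1 : D = 0 → 0 ≤ b) :
    ∃ δ > 0, ∀ d, 0 ≤ d → d < δ → 0 ≤ 2 * D + d * b := by
  rcases eq_or_lt_of_le h0 with h3 | h3
  · refine ⟨1, one_pos, fun d hd _ => ?_⟩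
    have := h1 h3.symm
    rw [← h3]
    have : 0 ≤ d * b := by positivity
    linarith
  · refine ⟨D / (|b| + 1), by positivity, fun d hd hd' => ?_⟩
    rw [lt_div_iff₀ (by positivity)] at hd'
    have e1 : -(|b|) ≤ b := neg_abs_le b
    have e3 : d * -(|b|) ≤ d * b := mul_le_mul_of_nonneg_left e1 hd
    nlinarith

theorem list_delta {α : Type*} {L : List α} {x : ℝ} {P : α → ℝ → Prop}
    (h : ∀ s ∈ L, ∃ δ > 0, ∀ y, x < y → y < x + δ → P s y) :
    ∃ δ > 0, ∀ y, x < y → y < x + δ → ∀ s ∈ L, P s y := by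
  induction L with
  | nil => exact ⟨1, one_pos, fun y _ _ s hs => absurd hs List.not_mem_nil⟩
  | cons s L ih =>
    obtain ⟨δ, hδ, h1⟩ := ih (fun s' hs' => h s' (List.mem_cons_of_mem _ hs'))
    obtain ⟨δ', hδ', h2⟩ := h s List.mem_cons_self
    refine ⟨min δ δ', lt_min hδ hδ', fun y hy hy' s' hs' => ?_⟩
    have e1 : y < x + δ := hy'.trans_le (by linarith [min_le_left δ δ'])
    have e2 : y < x + δ' := hy'.trans_le (by linarith [min_le_right δ δ'])
    rcases List.mem_cons.1 hs' with rfl | hs'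
    · exact h2 y hy e2
    · exact h1 y hy e1 s' hs'

/-- a step to the right of a point: active, or out of reach -/
theorem step_right (s : Stp) (x q : ℝ) (hxq : x < q) :
    (∃ δ > 0, ∀ y, x < y → y < x + δ → 0 ≤ s.c - s.r - y ∨ 0 ≤ x - (s.c + s.r)) ∨
      ∃ δ > 0, x + δ ≤ q ∧ ∀ y, x < y → y ≤ x + δ → |y - s.c| < s.r := by
  by_cases h1 : x < s.c + s.r
  · by_cases h2 : s.c - s.r ≤ x
    · right
      refine ⟨min (q - x) ((s.c + s.r - x) / 2), lt_min (by linarith) (by linarith),
        by linarith [min_le_left (q - x) ((s.c + s.r - x) / 2)], fun y hy hy' => ?_⟩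
      have := min_le_right (q - x) ((s.c + s.r - x) / 2)
      rw [abs_lt]
      constructor <;> linarith
    · left
      push Not at h2
      exact ⟨s.c - s.r - x, by linarith, fun y _ hy' => Or.inl (by linarith)⟩
  · left
    push Not at h1
    exact ⟨1, one_pos, fun y _ _ => Or.inr (by linarith)⟩

section right

variable {L0 L1 L2 L3 : List Stp} {K p q x : ℝ} {H V b : ℝ → ℝ}

/-- the node of a path at a point -/
def nd (H V b : ℝ → ℝ) (x : ℝ) : ℝ × ℝ × ℝ × ℝ := (x, H x, V x, b x)

theorem right0 (P : IsPath H V b) (hxq : x < q) {s : Stp}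
    (hV : ∀ y, x ≤ y → y ≤ q → |y - s.c| < s.r → s.lo ≤ H y ∧ H y ≤ s.hi) :
    ∃ δ > 0, ∀ y, x < y → y < x + δ →
      StepOK (fun x : ℝ => 0 ≤ x) at0 K (nd H V b x) (nd H V b y) s.tup := by
  have hHc : Continuous H := by
    rw [continuous_iff_continuousAt]
    exact fun y => (P.dh y).continuousAt
  rcases step_right s x q hxq with ⟨δ, hδ, h⟩ | ⟨δ, hδ, hq, h⟩
  · refine ⟨δ, hδ, fun y hy hy' => ?_⟩
    rcases h y hy hy' with h1 | h1
    · exact stepOK0.2 (Or.inl h1)
    · exact stepOK0.2 (Or.inr (Or.inl h1))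
  · have hcl : ∀ y, x ≤ y → y ≤ x + δ → y ∈ H ⁻¹' (Icc s.lo s.hi) := by
      apply closed_Icc (isClosed_Icc.preimage hHc) (by linarith)
      intro y hy hy'
      have := hV y hy.le (by linarith) (h y hy hy'.le)
      exact ⟨this.1, this.2⟩
    have hx := hcl x le_rfl (by linarith)
    obtain ⟨d1, hd1, g1⟩ := lowB0 (H x - s.lo) (V x) (b x) (by linarith [hx.1])
      (fun h0 => (low0 P (by linarith : x < x + δ) (fun y hy hy' => by
        have := (hcl y hy hy').1; linarith)).1)
      (fun h0 h1 => (low0 P (by linarith : x < x + δ) (fun y hy hy' => by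
        have := (hcl y hy hy').1; linarith)).2 h1)
    have low0' := fun h0 : s.hi - H x = 0 => low0 P.neg (by linarith : x < x + δ)
      (fun y hy hy' => by
        have := (hcl y hy hy').2
        show - H x ≤ - H y
        linarith)
    obtain ⟨d2, hd2, g2⟩ := lowB0 (s.hi - H x) (-V x) (-b x) (by linarith [hx.2])
      (fun h0 => (low0' h0).1) (fun h0 h1 => (low0' h0).2 h1)
    refine ⟨min δ (min d1 d2), lt_min hδ (lt_min hd1 hd2), fun y hy hy' => ?_⟩
    have e1 : y < x + δ := hy'.trans_le (by linarith [min_le_left δ (min d1 d2)])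
    have e2 : y - x < d1 := by
      linarith [min_le_right δ (min d1 d2), min_le_left d1 d2]
    have e3 : y - x < d2 := by
      linarith [min_le_right δ (min d1 d2), min_le_right d1 d2]
    have f1 := g1 (y - x) (by linarith) e2
    have f2 := g2 (y - x) (by linarith) e3
    have f3 := hcl y hy.le e1.le
    refine stepOK0.2 (Or.inr (Or.inr ⟨?_, ?_, ?_, ?_, ?_, ?_, ?_, ?_⟩))
    · linarith [hx.1]
    · linarith [f1.1]
    · linarith [f1.2]
    · linarith [f3.1]
    · linarith [hx.2]
    · linarith [f2.1]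
    · linarith [f2.2]
    · linarith [f3.2]

theorem right1 (P : IsPath H V b) (hxq : x < q) {s : Stp}
    (hV : ∀ y, x ≤ y → y ≤ q → |y - s.c| < s.r → s.lo ≤ V y ∧ V y ≤ s.hi) :
    ∃ δ > 0, ∀ y, x < y → y < x + δ →
      StepOK (fun x : ℝ => 0 ≤ x) at1 K (nd H V b x) (nd H V b y) s.tup := by
  rcases step_right s x q hxq with ⟨δ, hδ, h⟩ | ⟨δ, hδ, hq, h⟩
  · refine ⟨δ, hδ, fun y hy hy' => ?_⟩
    rcases h y hy hy' with h1 | h1
    · exact stepOK1.2 (Or.inl h1)
    · exact stepOK1.2 (Or.inr (Or.inl h1))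
  · have hcl : ∀ y, x ≤ y → y ≤ x + δ → y ∈ V ⁻¹' (Icc s.lo s.hi) := by
      apply closed_Icc (isClosed_Icc.preimage P.vcont) (by linarith)
      intro y hy hy'
      have := hV y hy.le (by linarith) (h y hy hy'.le)
      exact ⟨this.1, this.2⟩
    have hx := hcl x le_rfl (by linarith)
    obtain ⟨d1, hd1, g1⟩ := lowB1 (V x - s.lo) (b x) (by linarith [hx.1])
      (fun h0 => low1 P (by linarith : x < x + δ) (fun y hy hy' => by
        have := (hcl y hy hy').1; linarith))
    obtain ⟨d2, hd2, g2⟩ := lowB1 (s.hi - V x) (-b x) (by linarith [hx.2])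
      (fun h0 => low1 (p := x) P.neg (by linarith : x < x + δ) (fun y hy hy' => by
        have := (hcl y hy hy').2
        show - V x ≤ - V y
        linarith))
    refine ⟨min δ (min d1 d2), lt_min hδ (lt_min hd1 hd2), fun y hy hy' => ?_⟩
    have e1 : y < x + δ := hy'.trans_le (by linarith [min_le_left δ (min d1 d2)])
    have e2 : y - x < d1 := by
      linarith [min_le_right δ (min d1 d2), min_le_left d1 d2]
    have e3 : y - x < d2 := by
      linarith [min_le_right δ (min d1 d2), min_le_right d1 d2]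
    have f1 := g1 (y - x) (by linarith) e2
    have f2 := g2 (y - x) (by linarith) e3
    have f3 := hcl y hy.le e1.le
    refine stepOK1.2 (Or.inr (Or.inr ⟨?_, ?_, ?_, ?_, ?_, ?_⟩))
    · linarith [hx.1]
    · linarith [f1]
    · linarith [f3.1]
    · linarith [hx.2]
    · linarith [f2]
    · linarith [f3.2]

theorem right2 (P : IsPath H V b) (hxq : x < q) {s : Stp}
    (hV : ∀ y, x ≤ y → y ≤ q → |y - s.c| < s.r → s.lo ≤ b y ∧ b y ≤ s.hi) :
    ∃ δ > 0, ∀ y, x < y → y < x + δ →
      StepOK (fun x : ℝ => 0 ≤ x) at2 K (nd H V b x) (nd H V b y) s.tup := by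
  rcases step_right s x q hxq with ⟨δ, hδ, h⟩ | ⟨δ, hδ, hq, h⟩
  · refine ⟨δ, hδ, fun y hy hy' => ?_⟩
    rcases h y hy hy' with h1 | h1
    · exact stepOK2.2 (Or.inl h1)
    · exact stepOK2.2 (Or.inr (Or.inl h1))
  · have hcl : ∀ y, x ≤ y → y ≤ x + δ → y ∈ b ⁻¹' (Icc s.lo s.hi) := by
      apply closed_Icc (isClosed_Icc.preimage P.cont) (by linarith)
      intro y hy hy'
      have := hV y hy.le (by linarith) (h y hy hy'.le)
      exact ⟨this.1, this.2⟩
    have hx := hcl x le_rfl (by linarith)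
    refine ⟨δ, hδ, fun y hy hy' => ?_⟩
    have f3 := hcl y hy.le hy'.le
    refine stepOK2.2 (Or.inr (Or.inr ⟨?_, ?_, ?_, ?_⟩))
    · linarith [hx.1]
    · linarith [f3.1]
    · linarith [hx.2]
    · linarith [f3.2]

theorem right3 (P : IsPath H V b) (hxq : x < q) {s : Stp}
    (hV : ∀ y z, x ≤ y → y ≤ z → z ≤ q → |y - s.c| < s.r → |z - s.c| < s.r →
      s.lo * (z - y) ≤ b z - b y ∧ b z - b y ≤ s.hi * (z - y)) :
    ∃ δ > 0, ∀ y, x < y → y < x + δ →
      StepOK (fun x : ℝ => 0 ≤ x) at3 K (nd H V b x) (nd H V b y) s.tup := by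
  rcases step_right s x q hxq with ⟨δ, hδ, h⟩ | ⟨δ, hδ, hq, h⟩
  · refine ⟨δ, hδ, fun y hy hy' => ?_⟩
    rcases h y hy hy' with h1 | h1
    · exact stepOK3.2 (Or.inl h1)
    · exact stepOK3.2 (Or.inr (Or.inl h1))
  · have hcl : SB s.lo s.hi x (x + δ) b := by
      apply SB.closed P.cont
      intro y z hy hyz hz
      exact hV y z hy.le hyz (by linarith) (h y hy (by linarith)) (h z (by linarith) hz)
    refine ⟨δ, hδ, fun y hy hy' => ?_⟩
    have f3 := hcl x y le_rfl hy.le hy'.le
    refine stepOK3.2 (Or.inr (Or.inr ⟨?_, ?_⟩))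
    · linarith [f3.1]
    · linarith [f3.2]

theorem piece_right (P : IsPath H V b) (hPL : PL p q b) (F : GF L0 L1 L2 L3 K p q H V b)
    (hpx : p ≤ x) (hxq : x < q) :
    ∃ δ > 0, ∀ y, x < y → y < x + δ → RPiece K L0 L1 L2 L3 (nd H V b x) (nd H V b y) := by
  obtain ⟨d0, hd0, hq0, k, c, hb⟩ := pl_right hPL x hpx hxq
  obtain ⟨e0, he0, g0⟩ := list_delta (L := L0) (x := x) (fun s hs =>
    right0 (K := K) P hxq (fun y hy hy' hc => F.c0 s hs y (hpx.trans hy) hy' hc))
  obtain ⟨e1, he1, g1⟩ := list_delta (L := L1) (x := x) (fun s hs =>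
    right1 (K := K) P hxq (fun y hy hy' hc => F.c1 s hs y (hpx.trans hy) hy' hc))
  obtain ⟨e2, he2, g2⟩ := list_delta (L := L2) (x := x) (fun s hs =>
    right2 (K := K) P hxq (fun y hy hy' hc => F.c2 s hs y (hpx.trans hy) hy' hc))
  obtain ⟨e3, he3, g3⟩ := list_delta (L := L3) (x := x) (fun s hs =>
    right3 (K := K) P hxq (fun y z hy hyz hz hc hc' =>
      F.c3 s hs y z (hpx.trans hy) hyz hz hc hc'))
  set δ := min d0 (min (min e0 e1) (min e2 e3)) with hδ
  have i0 : δ ≤ d0 := min_le_left _ _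
  have i1 : δ ≤ e0 := (min_le_right _ _).trans ((min_le_left _ _).trans (min_le_left _ _))
  have i2 : δ ≤ e1 := (min_le_right _ _).trans ((min_le_left _ _).trans (min_le_right _ _))
  have i3 : δ ≤ e2 := (min_le_right _ _).trans ((min_le_right _ _).trans (min_le_left _ _))
  have i4 : δ ≤ e3 := (min_le_right _ _).trans ((min_le_right _ _).trans (min_le_right _ _))
  refine ⟨δ, lt_min hd0 (lt_min (lt_min he0 he1) (lt_min he2 he3)), fun y hy hy' => ?_⟩
  have j := affine_piece P hy.le (fun z hz hz' => hb z hz (by linarith))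
  have k1 := F.sb x y hpx hy.le (by linarith)
  exact rpiece_iff.2 ⟨j.1, j.2, by linarith, by linarith [k1.1], by linarith [k1.2],
    g0 y hy (by linarith), g1 y hy (by linarith), g2 y hy (by linarith), g3 y hy (by linarith)⟩

/-- reflection of pieces -/
theorem RPiece.reflect {t h v a t' h' v' a' : ℝ}
    (hR : RPiece K (L0.map Stp.R) (L1.map Stp.N) (L2.map Stp.R) (L3.map Stp.N)
      (-t', h', -v', a') (-t, h, -v, a)) :
    RPiece K L0 L1 L2 L3 (t, h, v, a) (t', h', v', a') := by
  obtain ⟨i1, i2, i3, i4, i5, i6, i7, i8, i9⟩ := rpiece_iff.1 hR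
  obtain ⟨d, hd⟩ : ∃ d, d = t' - t := ⟨_, rfl⟩
  have hd' : -t - -t' = d := by rw [hd]; ring
  rw [hd'] at i1 i2 i3 i4 i5
  have j1 : 2 * (v' - v) = d * (a + a') := by linarith
  have j2 : 6 * (h' - h) = 6 * (d * v) + d * d * (2 * a + a') := by
    have : d * (2 * (v' - v)) = d * (d * (a + a')) := by rw [j1]
    linarith
  have j3 : d * (2 * (v' - v)) = d * (d * (a + a')) := by rw [j1]
  refine rpiece_iff.2 ⟨?_, ?_, ?_, ?_, ?_, ?_, ?_, ?_, ?_⟩
  · rw [← hd]; linarith
  · rw [← hd]; linarith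
  · rw [← hd]; linarith
  · rw [← hd]; linarith
  · rw [← hd]; linarith
  · intro s hs
    have j := stepOK0.1 (i6 s.R (List.mem_map_of_mem hs))
    rw [hd'] at j
    refine stepOK0.2 ?_
    rw [← hd]
    simp only [Stp.R] at j
    rcases j with j | j | ⟨k1, k2, k3, k4, k5, k6, k7, k8⟩
    · right; left; linarith
    · left; linarith
    · right; right
      refine ⟨?_, ?_, ?_, ?_, ?_, ?_, ?_, ?_⟩ <;> linarith
  · intro s hs
    have j := stepOK1.1 (i7 s.N (List.mem_map_of_mem hs))
    rw [hd'] at j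
    refine stepOK1.2 ?_
    rw [← hd]
    simp only [Stp.N] at j
    rcases j with j | j | ⟨k1, k2, k3, k4, k5, k6⟩
    · right; left; linarith
    · left; linarith
    · right; right
      refine ⟨?_, ?_, ?_, ?_, ?_, ?_⟩ <;> linarith
  · intro s hs
    have j := stepOK2.1 (i8 s.R (List.mem_map_of_mem hs))
    refine stepOK2.2 ?_
    simp only [Stp.R] at j
    rcases j with j | j | ⟨k1, k2, k3, k4⟩
    · right; left; linarith
    · left; linarith
    · right; right
      refine ⟨?_, ?_, ?_, ?_⟩ <;> linarith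
  · intro s hs
    have j := stepOK3.1 (i9 s.N (List.mem_map_of_mem hs))
    rw [hd'] at j
    refine stepOK3.2 ?_
    rw [← hd]
    simp only [Stp.N] at j
    rcases j with j | j | ⟨k1, k2⟩
    · right; left; linarith
    · left; linarith
    · right; right
      constructor <;> linarith

theorem piece_left (P : IsPath H V b) (hPL : PL p q b) (F : GF L0 L1 L2 L3 K p q H V b)
    (hpx : p < x) (hxq : x ≤ q) :
    ∃ δ > 0, ∀ y, y < x → x - δ < y → RPiece K L0 L1 L2 L3 (nd H V b y) (nd H V b x) := by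
  obtain ⟨δ, hδ, R⟩ := piece_right P.reflect hPL.reflect F.reflect
    (by linarith : -q ≤ -x) (by linarith : -x < -p)
  refine ⟨δ, hδ, fun y h1 h2 => ?_⟩
  have := R (-y) (by linarith) (by linarith)
  simp only [nd, neg_neg] at this
  exact this.reflect

/-- the chain of a path with piecewise affine second derivative -/
theorem exists_chain (P : IsPath H V b) (hPL : PL p q b) (F : GF L0 L1 L2 L3 K p q H V b)
    (hpq : p < q) : Relation.TransGen (RPiece K L0 L1 L2 L3) (nd H V b p) (nd H V b q) := by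
  set S : Set ℝ := {x | p ≤ x ∧ x ≤ q ∧
    (x = p ∨ Relation.TransGen (RPiece K L0 L1 L2 L3) (nd H V b p) (nd H V b x))} with hS
  have hpS : p ∈ S := ⟨le_rfl, hpq.le, Or.inl rfl⟩
  have hne : S.Nonempty := ⟨p, hpS⟩
  have hbd : BddAbove S := ⟨q, fun x hx => hx.2.1⟩
  set z := sSup S with hz
  have hpz : p ≤ z := le_csSup hbd hpS
  have hzq : z ≤ q := csSup_le hne (fun x hx => hx.2.1)
  have hzS : z ∈ S := by
    rcases eq_or_lt_of_le hpz with h0 | h0
    · rw [← h0]; exact hpS
    · obtain ⟨δ, hδ, R⟩ := piece_left P hPL F h0 hzq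
      obtain ⟨x, hxS, hx⟩ := exists_lt_of_lt_csSup hne (show z - δ < sSup S by linarith)
      have hxz : x ≤ z := le_csSup hbd hxS
      rcases eq_or_lt_of_le hxz with h1 | h1
      · rw [← h1]; exact hxS
      · refine ⟨hpz, hzq, Or.inr ?_⟩
        rcases hxS.2.2 with h2 | h2
        · rw [← h2]
          exact Relation.TransGen.single (R x h1 hx)
        · exact h2.tail (R x h1 hx)
  rcases eq_or_lt_of_le hzq with h0 | h0
  · rcases hzS.2.2 with h2 | h2
    · exfalso; linarith
    · rwa [h0] at h2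
  · exfalso
    obtain ⟨δ, hδ, R⟩ := piece_right P hPL F hpz h0
    set y := min q (z + δ / 2) with hy
    have hzy : z < y := lt_min h0 (by linarith)
    have hyq : y ≤ q := min_le_left _ _
    have hyδ : y < z + δ := (min_le_right _ _).trans_lt (by linarith)
    have hyS : y ∈ S := by
      refine ⟨hpz.trans hzy.le, hyq, Or.inr ?_⟩
      rcases hzS.2.2 with h2 | h2
      · rw [← h2]
        exact Relation.TransGen.single (R y hzy hyδ)
      · exact h2.tail (R y hzy hyδ)
    exact absurd (le_csSup hbd hyS) (not_le.2 hzy)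

end right

end MP44e4f6
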