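import Mathlib

/-!
Definitions for the problem MP_44e4f6_lc: step functions with rational data, consistency of basis elements of `D^m(U)`,
piecewise polynomials.
-/

namespace MP44e4f6

/-- a single step function `(c - r, c + r) ↘ [lo, hi]` with rational data -/
structure Step where
  c : ℚ
  r : ℚ
  lo : ℚ
  hi : ℚ

/-- the open interval `(c - r, c + r)` of a single step function -/
def Step.dom (s : Step) : Set ℝ := {x | |x - s.c| < s.r}

/-- the value `[lo, hi]` of a single step function -/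
def Step.val (s : Step) : Set ℝ := Set.Icc (s.lo : ℝ) s.hi

/-- `f ⊑ g` on `U`, where the step function `f` is the pointwise intersection of a finite family of single step functions
(`f = []` is the step function which is `⊥` everywhere) -/
def Below (U : Set ℝ) (f : List Step) (g : ℝ → ℝ) : Prop :=
  ∀ s ∈ f, ∀ x ∈ U ∩ s.dom, g x ∈ s.val

/-- `f ⊑ 𝓛 g` on `U`: the step function `f` approximates the L-derivative of `g` -/
def BelowL (U : Set ℝ) (f : List Step) (g : ℝ → ℝ) : Prop :=
  ∀ s ∈ f, ∀ x ∈ U ∩ s.dom, ∀ y ∈ U ∩ s.dom, x ≠ y → (g x - g y) / (x - y) ∈ s.val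

/-- `h` shows that the tuple `(f 0, ..., f m)` is consistent on `U`: it is of class `C^(m-1)`, `f d ⊑ h^(d)` for `d < m`, and
`f m ⊑ 𝓛 h^(m-1)` -/
def Witness (U : Set ℝ) (m : ℕ) (f : ℕ → List Step) (h : ℝ → ℝ) : Prop :=
  ContDiffOn ℝ (m - 1 : ℕ) h U ∧ (∀ d < m, Below U (f d) (iteratedDeriv d h)) ∧
    BelowL U (f m) (iteratedDeriv (m - 1) h)

/-- the tuple `(f 0, ..., f m)` is consistent on `U` -/
def Consistent (U : Set ℝ) (m : ℕ) (f : ℕ → List Step) : Prop := ∃ h : ℝ → ℝ, Witness U m f h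

/-- `h` is on `[p, q]` a piecewise polynomial of degree at most `k`, with finitely many pieces: there are
`p = t 0 ≤ t 1 ≤ ... ≤ t n = q` such that `h` is on each `[t i, t (i + 1)]` a polynomial of degree at most `k` -/
def PP (p q : ℝ) (k : ℕ) (h : ℝ → ℝ) : Prop :=
  ∃ (n : ℕ) (t : ℕ → ℝ) (P : ℕ → Polynomial ℝ), Monotone t ∧ t 0 = p ∧ t n = q ∧
    ∀ i < n, (P i).natDegree ≤ k ∧ ∀ x, t i ≤ x → x ≤ t (i + 1) → h x = (P i).eval x

end MP44e4f6
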