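import Mathlib
import Pool.Agent.Lib.MP_44e4f6_lc.Defs
import Pool.Agent.Lib.MP_44e4f6_lc.PL
import Pool.Agent.Lib.MP_44e4f6_lc.Mom
import Pool.Agent.Lib.MP_44e4f6_lc.Rep

/-!
Piecewise polynomial functions.
-/

namespace MP44e4f6

open Set MeasureTheory intervalIntegral

theorem PL.toPP {p q : ℝ} {a : ℝ → ℝ} (h : PL p q a) : p ≤ q → PP p q 1 a := by
  induction h with
  | aff p q k b a h =>
    intro hpq
    refine ⟨1, fun i => if i = 0 then p else q, fun _ => Polynomial.C k * Polynomial.X +
      Polynomial.C b, ?_, by simp, by simp, ?_⟩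
    · apply monotone_nat_of_le_succ
      intro i
      by_cases hi : i = 0
      · subst hi; simpa using hpq
      · simp [hi]
    · intro i hi
      have hi0 : i = 0 := by omega
      subst hi0
      refine ⟨Polynomial.natDegree_linear_le, fun x h1 h2 => ?_⟩
      simp only [if_true] at h1
      simp only [zero_add, one_ne_zero, if_false] at h2
      rw [h x h1 h2]
      simp
  | glue p m q a hpm hmq h1 h2 ih1 ih2 =>
    intro _
    obtain ⟨n1, t1, P1, M1, e1, f1, g1⟩ := ih1 hpm
    obtain ⟨n2, t2, P2, M2, e2, f2, g2⟩ := ih2 hmq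
    have key : ∀ i, n1 ≤ i → (if i ≤ n1 then t1 i else t2 (i - n1)) = t2 (i - n1) := by
      intro i hi
      by_cases h : i ≤ n1
      · have : i = n1 := le_antisymm h hi
        subst this
        simp [f1, e2]
      · simp [h]
    refine ⟨n1 + n2, fun i => if i ≤ n1 then t1 i else t2 (i - n1),
      fun i => if i < n1 then P1 i else P2 (i - n1), ?_, ?_, ?_, ?_⟩
    · apply monotone_nat_of_le_succ
      intro i
      by_cases hi : i + 1 ≤ n1
      · have hi' : i ≤ n1 := by omega
        simp only [hi, hi', if_true]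
        exact M1 (Nat.le_succ i)
      · have hi' : n1 ≤ i := by omega
        rw [key i hi', key (i + 1) (by omega)]
        exact M2 (by omega)
    · simp [e1]
    · show (if n1 + n2 ≤ n1 then t1 (n1 + n2) else t2 (n1 + n2 - n1)) = q
      rw [key (n1 + n2) (by omega), Nat.add_sub_cancel_left, f2]
    · intro i hi
      by_cases hi1 : i < n1
      · have h3 : i ≤ n1 := hi1.le
        have h4 : i + 1 ≤ n1 := hi1
        simp only [hi1, h3, h4, if_true]
        exact g1 i hi1
      · have h3 : n1 ≤ i := by omega
        simp only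
        rw [key i h3, key (i + 1) (by omega)]
        simp only [hi1, if_false]
        have := g2 (i - n1) (by omega)
        have h5 : i - n1 + 1 = i + 1 - n1 := by omega
        rwa [h5] at this

theorem exists_anti (P : Polynomial ℝ) (k : ℕ) (hk : P.natDegree ≤ k) :
    ∃ Q : Polynomial ℝ, Q.natDegree ≤ k + 1 ∧ Polynomial.derivative Q = P := by
  refine ⟨∑ i ∈ Finset.range (k + 1), Polynomial.monomial (i + 1) (P.coeff i / ((i : ℝ) + 1)),
    ?_, ?_⟩
  · apply Polynomial.natDegree_sum_le_of_forall_le
    intro i hi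
    rw [Finset.mem_range] at hi
    exact (Polynomial.natDegree_monomial_le _).trans (by omega)
  · rw [Polynomial.derivative_sum]
    conv_rhs => rw [Polynomial.as_sum_range' P (k + 1) (by omega)]
    apply Finset.sum_congr rfl
    intro i _
    rw [Polynomial.derivative_monomial]
    have : ((i : ℝ) + 1) ≠ 0 := by positivity
    push_cast
    rw [div_mul_cancel₀ _ this]

theorem PP.integrate {p q : ℝ} {k : ℕ} {f F : ℝ → ℝ} (hf : PP p q k f)
    (hF : ∀ x, HasDerivAt F (f x) x) (hc : Continuous f) : PP p q (k + 1) F := by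
  obtain ⟨n, t, P, M, e1, e2, g⟩ := hf
  choose Q hQ hQ' using fun i : ℕ => (fun h : i < n => exists_anti (P i) k (g i h).1)
  refine ⟨n, t, fun i => if h : i < n then Q i h + Polynomial.C (F (t i) - (Q i h).eval (t i))
    else 0, M, e1, e2, ?_⟩
  intro i hi
  simp only [hi, dif_pos]
  constructor
  · refine (Polynomial.natDegree_add_le _ _).trans (max_le (hQ i hi) ?_)
    simp
  · intro x h1 h2
    have e3 : ∫ y in (t i)..x, f y = F x - F (t i) :=
      intervalIntegral.integral_eq_sub_of_hasDerivAt (fun y _ => hF y)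
        (hc.intervalIntegrable _ _)
    have e4 : ∫ y in (t i)..x, f y = (Q i hi).eval x - (Q i hi).eval (t i) := by
      apply intervalIntegral.integral_eq_sub_of_hasDerivAt _ (hc.intervalIntegrable _ _)
      intro y hy
      rw [uIcc_of_le h1] at hy
      rw [(g i hi).2 y hy.1 (hy.2.trans h2)]
      have := (Q i hi).hasDerivAt y
      rwa [hQ' i hi] at this
    rw [Polynomial.eval_add, Polynomial.eval_C]
    linarith

end MP44e4f6
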