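import Mathlib
import Pool.Agent.Lib.MP_44e4f6_lc.Glob
import Pool.Agent.Lib.MP_44e4f6_lc.PP

/-!
From data on an open interval to paths on the line.
-/

namespace MP44e4f6

open Set MeasureTheory intervalIntegral

/-- slope bounds on `U` from local slope bounds -/
theorem lip_of_local {p q K : ℝ} {f : ℝ → ℝ}
    (h : ∀ x, p < x → x < q → ∃ δ > 0, ∀ y z, |y - x| < δ → |z - x| < δ → p < y → y ≤ z → z < q →
      -K * (z - y) ≤ f z - f y ∧ f z - f y ≤ K * (z - y)) :
    ∀ x y, p < x → x ≤ y → y < q → -K * (y - x) ≤ f y - f x ∧ f y - f x ≤ K * (y - x) := by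
  intro x y hx hxy hy
  set S : Set ℝ := {z | x ≤ z ∧ z ≤ y ∧ -K * (z - x) ≤ f z - f x ∧ f z - f x ≤ K * (z - x)} with hS
  have hxS : x ∈ S := ⟨le_rfl, hxy, by simp, by simp⟩
  have hne : S.Nonempty := ⟨x, hxS⟩
  have hbd : BddAbove S := ⟨y, fun z hz => hz.2.1⟩
  set z := sSup S with hz
  have hxz : x ≤ z := le_csSup hbd hxS
  have hzy : z ≤ y := csSup_le hne (fun w hw => hw.2.1)
  obtain ⟨δ, hδ, hl⟩ := h z (by linarith) (by linarith)
  obtain ⟨w, hwS, hw⟩ := exists_lt_of_lt_csSup hne (show z - δ < sSup S by linarith)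
  have hwz : w ≤ z := le_csSup hbd hwS
  have hzS : z ∈ S := by
    have := hl w z (by rw [abs_lt]; constructor <;> linarith) (by simpa using hδ)
      (by linarith [hwS.1]) hwz (by linarith)
    exact ⟨hxz, hzy, by linarith [hwS.2.2.1, this.1], by linarith [hwS.2.2.2, this.2]⟩
  rcases eq_or_lt_of_le hzy with h0 | h0
  · rw [← h0]; exact hzS.2.2
  · exfalso
    set z' := min y (z + δ / 2) with hz'
    have e1 : z < z' := lt_min h0 (by linarith)
    have e2 : z' ≤ y := min_le_left _ _
    have e3 : z' < z + δ := (min_le_right _ _).trans_lt (by linarith)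
    have := hl z z' (by simpa using hδ) (by rw [abs_lt]; constructor <;> linarith)
      (by linarith) e1.le (by linarith)
    have hz'S : z' ∈ S := ⟨hxz.trans e1.le, e2, by linarith [hzS.2.2.1, this.1],
      by linarith [hzS.2.2.2, this.2]⟩
    exact absurd (le_csSup hbd hz'S) (not_le.2 e1)

/-- slope bounds on `(p, q)` from local slope bounds off a finite set -/
theorem lip_of_local_fin {K : ℝ} {f : ℝ → ℝ} (E : Finset ℝ) :
    ∀ p q : ℝ, (∀ x, p < x → x < q → ContinuousAt f x) →
    (∀ x, p < x → x < q → x ∉ E → ∃ δ > 0, ∀ y z, |y - x| < δ → |z - x| < δ → p < y → y ≤ z →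
      z < q → -K * (z - y) ≤ f z - f y ∧ f z - f y ≤ K * (z - y)) →
    ∀ x y, p < x → x ≤ y → y < q → -K * (y - x) ≤ f y - f x ∧ f y - f x ≤ K * (y - x) := by
  induction E using Finset.induction_on with
  | empty =>
    intro p q _ h
    exact lip_of_local (fun x h1 h2 => h x h1 h2 (by simp))
  | insert e E he ih =>
    intro p q hc h
    by_cases hpe : p < e ∧ e < q
    · have A := ih p e (fun x h1 h2 => hc x h1 (h2.trans hpe.2)) (by
        intro x h1 h2 h3
        obtain ⟨δ, hδ, h4⟩ := h x h1 (h2.trans hpe.2) (by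
          rw [Finset.mem_insert]
          rintro (rfl | h5)
          · exact lt_irrefl _ h2
          · exact h3 h5)
        exact ⟨δ, hδ, fun y z i1 i2 i3 i4 i5 => h4 y z i1 i2 i3 i4 (i5.trans hpe.2)⟩)
      have B := ih e q (fun x h1 h2 => hc x (hpe.1.trans h1) h2) (by
        intro x h1 h2 h3
        obtain ⟨δ, hδ, h4⟩ := h x (hpe.1.trans h1) h2 (by
          rw [Finset.mem_insert]
          rintro (rfl | h5)
          · exact lt_irrefl _ h1
          · exact h3 h5)
        exact ⟨δ, hδ, fun y z i1 i2 i3 i4 i5 => h4 y z i1 i2 (hpe.1.trans i3) i4 i5⟩)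
      have hce := hc e hpe.1 hpe.2
      have A' : ∀ x, p < x → x ≤ e → -K * (e - x) ≤ f e - f x ∧ f e - f x ≤ K * (e - x) := by
        intro x h1 h2
        rcases eq_or_lt_of_le h2 with h3 | h3
        · subst h3; simp
        · have hcl : e ∈ closure (Ioo x e) := by
            rw [closure_Ioo h3.ne]
            exact ⟨h2, le_rfl⟩
          constructor
          · exact ContinuousWithinAt.closure_le (f := fun w => -K * (w - x))
              (g := fun w => f w - f x) hcl (by fun_prop)
              ((hce.sub continuousAt_const).continuousWithinAt)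
              (fun w hw => (A x w h1 hw.1.le hw.2).1)
          · exact ContinuousWithinAt.closure_le (f := fun w => f w - f x)
              (g := fun w => K * (w - x)) hcl
              ((hce.sub continuousAt_const).continuousWithinAt) (by fun_prop)
              (fun w hw => (A x w h1 hw.1.le hw.2).2)
      have B' : ∀ y, e ≤ y → y < q → -K * (y - e) ≤ f y - f e ∧ f y - f e ≤ K * (y - e) := by
        intro y h1 h2
        rcases eq_or_lt_of_le h1 with h3 | h3
        · subst h3; simp
        · have hcl : e ∈ closure (Ioo e y) := by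
            rw [closure_Ioo h3.ne]
            exact ⟨le_rfl, h1⟩
          constructor
          · exact ContinuousWithinAt.closure_le (f := fun w => -K * (y - w))
              (g := fun w => f y - f w) hcl (by fun_prop)
              ((continuousAt_const.sub hce).continuousWithinAt)
              (fun w hw => (B w y hw.1 hw.2.le h2).1)
          · exact ContinuousWithinAt.closure_le (f := fun w => f y - f w)
              (g := fun w => K * (y - w)) hcl
              ((continuousAt_const.sub hce).continuousWithinAt) (by fun_prop)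
              (fun w hw => (B w y hw.1 hw.2.le h2).2)
      intro x y h1 h2 h3
      rcases lt_or_ge y e with h4 | h4
      · exact A x y h1 h2 h4
      · rcases lt_or_ge e x with h5 | h5
        · exact B x y h5 h2 h3
        · have i1 := A' x h1 h5
          have i2 := B' y h4 h3
          constructor
          · linarith [i1.1, i2.1]
          · linarith [i1.2, i2.2]
    · apply ih p q hc
      intro x h1 h2 h3
      apply h x h1 h2
      rw [Finset.mem_insert]
      rintro (rfl | h5)
      · exact hpe ⟨h1, h2⟩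
      · exact h3 h5

theorem closed_O {A O : Set ℝ} (hA : IsClosed A) (hO : IsOpen O) {s t : ℝ} (hst : s < t)
    (h : ∀ x, s < x → x < t → x ∈ O → x ∈ A) : ∀ x, s ≤ x → x ≤ t → x ∈ O → x ∈ A := by
  intro x h1 h2 h3
  have h4 : x ∈ closure (Ioo s t) := by
    rw [closure_Ioo hst.ne]
    exact ⟨h1, h2⟩
  have h5 : x ∈ closure (O ∩ Ioo s t) := hO.inter_closure ⟨h3, h4⟩
  exact closure_minimal (fun y hy => h y hy.2.1 hy.2.2 hy.1) hA h5

theorem isOpen_dom (c r : ℝ) : IsOpen {x : ℝ | |x - c| < r} :=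
  isOpen_lt (by fun_prop) (by fun_prop)

/-- value constraints extend to the closed interval -/
theorem VC.of_open {L : List Stp} {p q : ℝ} (hpq : p < q) {f : ℝ → ℝ} (hf : Continuous f)
    (h : ∀ st ∈ L, ∀ x, p < x → x < q → |x - st.c| < st.r → st.lo ≤ f x ∧ f x ≤ st.hi) :
    VC L p q f := by
  intro st hst x h1 h2 h3
  exact closed_O (isClosed_Icc.preimage hf) (isOpen_dom st.c st.r) hpq
    (fun y hy hy' hy'' => h st hst y hy hy' hy'') x h1 h2 h3

theorem SC.of_open {L : List Stp} {p q : ℝ} (hpq : p < q) {f : ℝ → ℝ} (hf : Continuous f)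
    (h : ∀ st ∈ L, ∀ x y, p < x → x < q → p < y → y < q → |x - st.c| < st.r → |y - st.c| < st.r →
      st.lo * (y - x) ^ 2 ≤ (f y - f x) * (y - x) ∧ (f y - f x) * (y - x) ≤ st.hi * (y - x) ^ 2) :
    SC L p q f := by
  intro st hst
  have hA1 : ∀ y, IsClosed {x : ℝ | st.lo * (y - x) ^ 2 ≤ (f y - f x) * (y - x) ∧
      (f y - f x) * (y - x) ≤ st.hi * (y - x) ^ 2} := by
    intro y
    have e1 : IsClosed {x : ℝ | st.lo * (y - x) ^ 2 ≤ (f y - f x) * (y - x)} :=
      isClosed_le (f := fun x : ℝ => st.lo * (y - x) ^ 2)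
        (g := fun x : ℝ => (f y - f x) * (y - x)) (by fun_prop) (by fun_prop)
    have e2 : IsClosed {x : ℝ | (f y - f x) * (y - x) ≤ st.hi * (y - x) ^ 2} :=
      isClosed_le (f := fun x : ℝ => (f y - f x) * (y - x))
        (g := fun x : ℝ => st.hi * (y - x) ^ 2) (by fun_prop) (by fun_prop)
    exact e1.inter e2
  have hA2 : ∀ x, IsClosed {y : ℝ | st.lo * (y - x) ^ 2 ≤ (f y - f x) * (y - x) ∧
      (f y - f x) * (y - x) ≤ st.hi * (y - x) ^ 2} := by
    intro x
    have e1 : IsClosed {y : ℝ | st.lo * (y - x) ^ 2 ≤ (f y - f x) * (y - x)} :=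
      isClosed_le (f := fun y : ℝ => st.lo * (y - x) ^ 2)
        (g := fun y : ℝ => (f y - f x) * (y - x)) (by fun_prop) (by fun_prop)
    have e2 : IsClosed {y : ℝ | (f y - f x) * (y - x) ≤ st.hi * (y - x) ^ 2} :=
      isClosed_le (f := fun y : ℝ => (f y - f x) * (y - x))
        (g := fun y : ℝ => st.hi * (y - x) ^ 2) (by fun_prop) (by fun_prop)
    exact e1.inter e2
  have s1 : ∀ y, p < y → y < q → |y - st.c| < st.r → ∀ x, p ≤ x → x ≤ q → |x - st.c| < st.r →
      st.lo * (y - x) ^ 2 ≤ (f y - f x) * (y - x) ∧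
      (f y - f x) * (y - x) ≤ st.hi * (y - x) ^ 2 := by
    intro y h1 h2 h3 x h4 h5 h6
    exact closed_O (hA1 y) (isOpen_dom st.c st.r) hpq
      (fun z hz hz' hz'' => h st hst z y hz hz' h1 h2 hz'' h3) x h4 h5 h6
  have s2 : ∀ x, p ≤ x → x ≤ q → |x - st.c| < st.r → ∀ y, p ≤ y → y ≤ q → |y - st.c| < st.r →
      st.lo * (y - x) ^ 2 ≤ (f y - f x) * (y - x) ∧
      (f y - f x) * (y - x) ≤ st.hi * (y - x) ^ 2 := by
    intro x h1 h2 h3 y h4 h5 h6
    exact closed_O (hA2 x) (isOpen_dom st.c st.r) hpq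
      (fun z hz hz' hz'' => s1 z hz hz' hz'' x h1 h2 h3) y h4 h5 h6
  intro x y h1 h2 h3 h4 h5
  rcases eq_or_lt_of_le h2 with h0 | h0
  · subst h0; simp
  · have := s2 x h1 (h2.trans h3) h4 y (h1.trans h2) h3 h5
    have hpos : 0 < y - x := by linarith
    constructor
    · have e := this.1
      have : (st.lo * (y - x)) * (y - x) ≤ (f y - f x) * (y - x) := by nlinarith
      exact le_of_mul_le_mul_right this hpos
    · have e := this.2
      have : (f y - f x) * (y - x) ≤ (st.hi * (y - x)) * (y - x) := by nlinarith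
      exact le_of_mul_le_mul_right this hpos

/-- extension of a `C²` function on `(p,q)` with Lipschitz second derivative -/
theorem exists_path {p q K : ℝ} (hpq : p < q) {g g1 g2 : ℝ → ℝ}
    (h1 : ∀ x, p < x → x < q → HasDerivAt g (g1 x) x)
    (h2 : ∀ x, p < x → x < q → HasDerivAt g1 (g2 x) x)
    (hK : ∀ x y, p < x → x ≤ y → y < q → -K * (y - x) ≤ g2 y - g2 x ∧ g2 y - g2 x ≤ K * (y - x)) :
    ∃ h v a : ℝ → ℝ, IsPath h v a ∧ SB (-K) K p q a ∧ (∀ x, p < x → x < q → h x = g x) ∧
      (∀ x, p < x → x < q → v x = g1 x) ∧ (∀ x, p < x → x < q → a x = g2 x) := by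
  have hK0 : 0 ≤ K := by
    set x := p + (q - p) / 3 with hx
    set y := p + (q - p) / 2 with hy
    have hxy : 0 < y - x := by rw [hx, hy]; linarith
    have := hK x y (by linarith) (by linarith) (by linarith)
    by_contra hcon
    push Not at hcon
    have e : K * (y - x) < 0 := mul_neg_of_neg_of_pos hcon hxy
    linarith [this.1, this.2]
  have hL : LipschitzOnWith (Real.toNNReal K) g2 (Ioo p q) := by
    apply LipschitzOnWith.of_dist_le_mul
    intro x hx y hy
    rw [Real.coe_toNNReal K hK0, Real.dist_eq, Real.dist_eq]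
    rcases le_total x y with h | h
    · have := hK x y hx.1 h hy.2
      rw [abs_sub_comm x y, abs_of_nonneg (by linarith : 0 ≤ y - x), abs_le]
      constructor <;> linarith [this.1, this.2]
    · have := hK y x hy.1 h hx.2
      rw [abs_of_nonneg (by linarith : 0 ≤ x - y), abs_le]
      constructor <;> linarith [this.1, this.2]
  obtain ⟨a, ha, hag⟩ := hL.extend_real
  have hac : Continuous a := ha.continuous
  set x0 := (p + q) / 2 with hx0
  have hp0 : p < x0 := by linarith
  have h0q : x0 < q := by linarith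
  have hseg : ∀ x, p < x → x < q → ∀ y ∈ uIcc x0 x, p < y ∧ y < q := by
    intro x hx hx' y hy
    rcases le_total x0 x with h | h
    · rw [uIcc_of_le h] at hy
      exact ⟨by linarith [hy.1], by linarith [hy.2]⟩
    · rw [uIcc_of_ge h] at hy
      exact ⟨by linarith [hy.1], by linarith [hy.2]⟩
  have Q := isPath_mk hac x0 (g x0) (g1 x0)
  have hv : ∀ x, p < x → x < q → g1 x0 + ∫ y in x0..x, a y = g1 x := by
    intro x hx hx'
    have : ∫ y in x0..x, a y = g1 x - g1 x0 := by
      apply intervalIntegral.integral_eq_sub_of_hasDerivAt _ (hac.intervalIntegrable _ _)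
      intro y hy
      obtain ⟨e1, e2⟩ := hseg x hx hx' y hy
      rw [← hag ⟨e1, e2⟩]
      exact h2 y e1 e2
    linarith
  refine ⟨_, _, a, Q, ?_, ?_, hv, fun x hx hx' => (hag ⟨hx, hx'⟩).symm⟩
  · intro x y _ hxy _
    have := ha.dist_le_mul y x
    rw [Real.coe_toNNReal K hK0, Real.dist_eq, Real.dist_eq,
      abs_of_nonneg (by linarith : 0 ≤ y - x), abs_le] at this
    constructor <;> linarith [this.1, this.2]
  · intro x hx hx'
    have hvc : Continuous (fun x => g1 x0 + ∫ y in x0..x, a y) := Q.vcont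
    have : ∫ y in x0..x, (g1 x0 + ∫ z in x0..y, a z) = g x - g x0 := by
      apply intervalIntegral.integral_eq_sub_of_hasDerivAt _ (hvc.intervalIntegrable _ _)
      intro y hy
      obtain ⟨e1, e2⟩ := hseg x hx hx' y hy
      rw [hv y e1 e2]
      exact h1 y e1 e2
    show g x0 + ∫ y in x0..x, (g1 x0 + ∫ z in x0..y, a z) = g x
    linarith

/-- `n`-fold antiderivative -/
noncomputable def anti (H : ℝ → ℝ) : ℕ → (ℝ → ℝ)
  | 0 => H
  | n + 1 => fun x => ∫ y in (0:ℝ)..x, anti H n y

theorem anti_cont {H : ℝ → ℝ} (hH : Continuous H) : ∀ n, Continuous (anti H n)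
  | 0 => hH
  | n + 1 => intervalIntegral.continuous_primitive
      (fun x y => (anti_cont hH n).intervalIntegrable x y) 0

theorem anti_hasDerivAt {H : ℝ → ℝ} (hH : Continuous H) (n : ℕ) (x : ℝ) :
    HasDerivAt (anti H (n + 1)) (anti H n x) x := by
  have hc := anti_cont hH n
  exact intervalIntegral.integral_hasDerivAt_right (hc.intervalIntegrable _ _)
    (hc.stronglyMeasurableAtFilter _ _) hc.continuousAt

theorem anti_deriv {H : ℝ → ℝ} (hH : Continuous H) (n : ℕ) :
    deriv (anti H (n + 1)) = anti H n :=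
  funext (fun x => (anti_hasDerivAt hH n x).deriv)

theorem iteratedDeriv_anti {H : ℝ → ℝ} (hH : Continuous H) (k : ℕ) :
    ∀ n, iteratedDeriv (n + k) (anti H n) = iteratedDeriv k H
  | 0 => by rw [Nat.zero_add]; rfl
  | n + 1 => by
    have : n + 1 + k = (n + k) + 1 := by omega
    rw [this, iteratedDeriv_succ', anti_deriv hH n, iteratedDeriv_anti hH k n]

theorem anti_contDiff {H : ℝ → ℝ} {k : ℕ} (hH : ContDiff ℝ k H) :
    ∀ n : ℕ, ContDiff ℝ ((n + k : ℕ) : WithTop ℕ∞) (anti H n)
  | 0 => by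
    rw [Nat.zero_add]
    exact hH
  | n + 1 => by
    have e : ((n + 1 + k : ℕ) : WithTop ℕ∞) = ((n + k : ℕ) : WithTop ℕ∞) + 1 := by
      push_cast
      ring
    rw [e, contDiff_succ_iff_deriv]
    refine ⟨fun x => (anti_hasDerivAt hH.continuous n x).differentiableAt, ?_, ?_⟩
    · intro h
      exact absurd h (by simp)
    · rw [anti_deriv hH.continuous n]
      exact anti_contDiff hH n

theorem anti_PP {H : ℝ → ℝ} (hH : Continuous H) {p q : ℝ} {k : ℕ} (h : PP p q k H) :
    ∀ n : ℕ, PP p q (k + n) (anti H n)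
  | 0 => h
  | n + 1 => (anti_PP hH h n).integrate (anti_hasDerivAt hH n) (anti_cont hH n)

theorem IsPath.contDiff {h v a : ℝ → ℝ} (P : IsPath h v a) :
    ContDiff ℝ ((2 : ℕ) : WithTop ℕ∞) h := by
  have hv : deriv h = v := funext (fun x => (P.dh x).deriv)
  have ha : deriv v = a := funext (fun x => (P.dv x).deriv)
  have e2 : ((2 : ℕ) : WithTop ℕ∞) = 1 + 1 := by norm_num
  rw [e2, contDiff_succ_iff_deriv]
  refine ⟨fun x => (P.dh x).differentiableAt, fun h => absurd h (by simp), ?_⟩
  rw [hv, contDiff_one_iff_deriv, ha]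
  exact ⟨fun x => (P.dv x).differentiableAt, P.cont⟩

theorem IsPath.it1 {h v a : ℝ → ℝ} (P : IsPath h v a) : iteratedDeriv 1 h = v := by
  rw [iteratedDeriv_one]
  exact funext (fun x => (P.dh x).deriv)

theorem IsPath.it2 {h v a : ℝ → ℝ} (P : IsPath h v a) : iteratedDeriv 2 h = a := by
  rw [iteratedDeriv_succ, P.it1]
  exact funext (fun x => (P.dv x).deriv)

end MP44e4f6
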