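import Mathlib
import Pool.Agent.Lib.MP_44e4f6_lc.Defs
import Pool.Agent.Lib.MP_44e4f6_lc.Glob
import Pool.Agent.Lib.MP_44e4f6_lc.PP
import Pool.Agent.Lib.MP_44e4f6_lc.Ext

/-!
The main theorem, in terms of step functions.
-/

namespace MP44e4f6

open Set MeasureTheory intervalIntegral

def Step.toStp (s : Step) : Stp := ⟨s.c, s.r, s.lo, s.hi⟩

/-- a common bound for all slopes of a step function -/
theorem exists_bound (f : List Step) :
    ∃ K : ℝ, ∀ s ∈ f, -K ≤ (s.lo : ℝ) ∧ (s.hi : ℝ) ≤ K := by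
  induction f with
  | nil => exact ⟨0, fun s hs => absurd hs List.not_mem_nil⟩
  | cons s f ih =>
    obtain ⟨K, hK⟩ := ih
    refine ⟨max K (max (-(s.lo : ℝ)) s.hi), fun s' hs' => ?_⟩
    rcases List.mem_cons.1 hs' with rfl | hs'
    · have e1 := le_max_left (-(s'.lo : ℝ)) (s'.hi : ℝ)
      have e2 := le_max_right (-(s'.lo : ℝ)) (s'.hi : ℝ)
      have e3 := le_max_right K (max (-(s'.lo : ℝ)) s'.hi)
      constructor <;> linarith
    · have e3 := le_max_left K (max (-(s.lo : ℝ)) s.hi)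
      have := hK s' hs'
      constructor <;> linarith [this.1, this.2]

theorem slope_of_belowL {s : Step} {g : ℝ → ℝ} {x y : ℝ}
    (h : x ≠ y → (g x - g y) / (x - y) ∈ s.val) (hxy : x ≤ y) :
    (s.lo : ℝ) * (y - x) ≤ g y - g x ∧ g y - g x ≤ (s.hi : ℝ) * (y - x) := by
  rcases eq_or_lt_of_le hxy with h0 | h0
  · subst h0; simp
  · have := h h0.ne
    have e : (g x - g y) / (x - y) = (g y - g x) / (y - x) := by
      rw [← neg_sub (g y) (g x), ← neg_sub y x, neg_div_neg_eq]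
    rw [e] at this
    have hpos : 0 < y - x := by linarith
    exact ⟨(le_div_iff₀ hpos).1 this.1, (div_le_iff₀ hpos).1 this.2⟩

theorem belowL_of_slope {s : Step} {g : ℝ → ℝ} {x y : ℝ}
    (h : x ≤ y → (s.lo : ℝ) * (y - x) ≤ g y - g x ∧ g y - g x ≤ (s.hi : ℝ) * (y - x))
    (h' : y ≤ x → (s.lo : ℝ) * (x - y) ≤ g x - g y ∧ g x - g y ≤ (s.hi : ℝ) * (x - y))
    (hxy : x ≠ y) : (g x - g y) / (x - y) ∈ s.val := by
  rcases lt_or_gt_of_ne hxy with h0 | h0
  · have e : (g x - g y) / (x - y) = (g y - g x) / (y - x) := by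
      rw [← neg_sub (g y) (g x), ← neg_sub y x, neg_div_neg_eq]
    have hpos : 0 < y - x := by linarith
    rw [e]
    exact ⟨(le_div_iff₀ hpos).2 (h h0.le).1, (div_le_iff₀ hpos).2 (h h0.le).2⟩
  · have hpos : 0 < x - y := by linarith
    exact ⟨(le_div_iff₀ hpos).2 (h' h0.le).1, (div_le_iff₀ hpos).2 (h' h0.le).2⟩

theorem main_aux (p q : ℝ) (hpq : p < q) (n : ℕ) (f : ℕ → List Step)
    (hbot : ∀ d < n, f d = [])
    (hfin : {x : ℝ | x ∈ Ioo p q ∧ ∀ s ∈ f (n + 3), x ∉ s.dom}.Finite) (g : ℝ → ℝ)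
    (hg : Witness (Ioo p q) (n + 3) f g) :
    ∃ h : ℝ → ℝ, Witness (Ioo p q) (n + 3) f h ∧ PP p q (n + 3) h := by
  obtain ⟨hC, hB, hL⟩ := hg
  have hC' : ContDiffOn ℝ ((n + 2 : ℕ) : WithTop ℕ∞) g (Ioo p q) := hC
  have hopen : IsOpen (Ioo p q) := isOpen_Ioo
  -- derivatives
  have hder : ∀ k < n + 2, ∀ x, p < x → x < q →
      HasDerivAt (iteratedDeriv k g) (iteratedDeriv (k + 1) g x) x := by
    intro k hk x h1 h2
    have hx : x ∈ Ioo p q := ⟨h1, h2⟩
    have e1 : ContDiffAt ℝ ((n + 2 : ℕ) : WithTop ℕ∞) g x := hC'.contDiffAt (hopen.mem_nhds hx)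
    have e2 : DifferentiableAt ℝ (iteratedDeriv k g) x := by
      have e3 : DifferentiableOn ℝ (iteratedDerivWithin k g (Ioo p q)) (Ioo p q) :=
        hC'.differentiableOn_iteratedDerivWithin (by exact_mod_cast hk) hopen.uniqueDiffOn
      have e4 : DifferentiableAt ℝ (iteratedDerivWithin k g (Ioo p q)) x :=
        (e3 x hx).differentiableAt (hopen.mem_nhds hx)
      apply e4.congr_of_eventuallyEq
      filter_upwards [hopen.mem_nhds hx] with y hy
      exact (iteratedDerivWithin_of_isOpen hopen hy).symm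
    rw [iteratedDeriv_succ]
    exact e2.hasDerivAt
  -- Lipschitz bound
  obtain ⟨K, hK⟩ := exists_bound (f (n + 3))
  have hLs : ∀ s ∈ f (n + 3), ∀ x y, p < x → x < q → p < y → y < q → x ∈ s.dom → y ∈ s.dom →
      x ≤ y → (s.lo : ℝ) * (y - x) ≤ iteratedDeriv (n + 2) g y - iteratedDeriv (n + 2) g x ∧
      iteratedDeriv (n + 2) g y - iteratedDeriv (n + 2) g x ≤ (s.hi : ℝ) * (y - x) := by
    intro s hs x y h1 h2 h3 h4 h5 h6 h7
    exact slope_of_belowL (fun hne => hL s hs x ⟨⟨h1, h2⟩, h5⟩ y ⟨⟨h3, h4⟩, h6⟩ hne) h7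
  have hcont : ∀ x, p < x → x < q → ContinuousAt (iteratedDeriv (n + 2) g) x := by
    intro x h1 h2
    have hx : x ∈ Ioo p q := ⟨h1, h2⟩
    have e3 : ContinuousOn (iteratedDerivWithin (n + 2) g (Ioo p q)) (Ioo p q) :=
      hC'.continuousOn_iteratedDerivWithin le_rfl hopen.uniqueDiffOn
    have e4 := (e3 x hx).continuousAt (hopen.mem_nhds hx)
    apply e4.congr
    filter_upwards [hopen.mem_nhds hx] with y hy
    exact iteratedDerivWithin_of_isOpen hopen hy
  have hlip := lip_of_local_fin (K := K) (f := iteratedDeriv (n + 2) g) hfin.toFinset p q hcont (by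
    intro x h1 h2 h0
    obtain ⟨s, hs, hxs⟩ : ∃ s ∈ f (n + 3), x ∈ s.dom := by
      by_contra hcon
      push Not at hcon
      exact h0 (hfin.mem_toFinset.2 ⟨⟨h1, h2⟩, hcon⟩)
    have ho : IsOpen s.dom := isOpen_dom _ _
    obtain ⟨δ, hδ, hball⟩ := Metric.isOpen_iff.1 ho x hxs
    refine ⟨δ, hδ, fun y z hy hz h3 h4 h5 => ?_⟩
    have hy' : y ∈ s.dom := hball (by rw [Metric.mem_ball, Real.dist_eq]; exact hy)
    have hz' : z ∈ s.dom := hball (by rw [Metric.mem_ball, Real.dist_eq]; exact hz)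
    have := hLs s hs y z h3 (h4.trans_lt h5) (h3.trans_le h4) h5 hy' hz' h4
    have e : 0 ≤ z - y := by linarith
    exact ⟨(mul_le_mul_of_nonneg_right (hK s hs).1 e).trans this.1,
      this.2.trans (mul_le_mul_of_nonneg_right (hK s hs).2 e)⟩)
  -- the path
  obtain ⟨h, v, a, P, hSB, e0, e1, e2⟩ := exists_path hpq (g := iteratedDeriv n g)
    (g1 := iteratedDeriv (n + 1) g) (g2 := iteratedDeriv (n + 2) g)
    (hder n (by omega)) (hder (n + 1) (by omega)) hlip
  have hhc : Continuous h := by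
    rw [continuous_iff_continuousAt]
    exact fun y => (P.dh y).continuousAt
  have hmem : ∀ {k : ℕ} {st : Stp}, st ∈ (f k).map Step.toStp →
      ∃ s ∈ f k, s.toStp = st := fun h => List.mem_map.1 h
  have F : GF ((f n).map Step.toStp) ((f (n + 1)).map Step.toStp) ((f (n + 2)).map Step.toStp)
      ((f (n + 3)).map Step.toStp) K p q h v a := by
    refine ⟨?_, ?_, ?_, ?_, hSB⟩
    · apply VC.of_open hpq hhc
      intro st hst x h1 h2 h3
      obtain ⟨s, hs, rfl⟩ := hmem hst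
      rw [e0 x h1 h2]
      exact hB n (by omega) s hs x ⟨⟨h1, h2⟩, h3⟩
    · apply VC.of_open hpq P.vcont
      intro st hst x h1 h2 h3
      obtain ⟨s, hs, rfl⟩ := hmem hst
      rw [e1 x h1 h2]
      exact hB (n + 1) (by omega) s hs x ⟨⟨h1, h2⟩, h3⟩
    · apply VC.of_open hpq P.cont
      intro st hst x h1 h2 h3
      obtain ⟨s, hs, rfl⟩ := hmem hst
      rw [e2 x h1 h2]
      exact hB (n + 2) (by omega) s hs x ⟨⟨h1, h2⟩, h3⟩
    · apply SC.of_open hpq P.cont
      intro st hst x y h1 h2 h3 h4 h5 h6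
      obtain ⟨s, hs, rfl⟩ := hmem hst
      rw [e2 x h1 h2, e2 y h3 h4]
      rcases le_total x y with hxy | hxy
      · have := hLs s hs x y h1 h2 h3 h4 h5 h6 hxy
        have e : 0 ≤ y - x := by linarith
        have i1 := mul_le_mul_of_nonneg_right this.1 e
        have i2 := mul_le_mul_of_nonneg_right this.2 e
        constructor
        · show (s.lo : ℝ) * (y - x) ^ 2 ≤ _
          calc (s.lo : ℝ) * (y - x) ^ 2 = (s.lo : ℝ) * (y - x) * (y - x) := by ring
            _ ≤ _ := i1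
        · show _ ≤ (s.hi : ℝ) * (y - x) ^ 2
          calc _ ≤ (s.hi : ℝ) * (y - x) * (y - x) := i2
            _ = (s.hi : ℝ) * (y - x) ^ 2 := by ring
      · have := hLs s hs y x h3 h4 h1 h2 h6 h5 hxy
        have e : 0 ≤ x - y := by linarith
        have i1 := mul_le_mul_of_nonneg_right this.1 e
        have i2 := mul_le_mul_of_nonneg_right this.2 e
        constructor
        · show (s.lo : ℝ) * (y - x) ^ 2 ≤ _
          calc (s.lo : ℝ) * (y - x) ^ 2 = (s.lo : ℝ) * (x - y) * (x - y) := by ring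
            _ ≤ (iteratedDeriv (n + 2) g x - iteratedDeriv (n + 2) g y) * (x - y) := i1
            _ = _ := by ring
        · show _ ≤ (s.hi : ℝ) * (y - x) ^ 2
          calc (iteratedDeriv (n + 2) g y - iteratedDeriv (n + 2) g x) * (y - x)
              = (iteratedDeriv (n + 2) g x - iteratedDeriv (n + 2) g y) * (x - y) := by ring
            _ ≤ (s.hi : ℝ) * (x - y) * (x - y) := i2
            _ = (s.hi : ℝ) * (y - x) ^ 2 := by ring
  obtain ⟨H, V, b, Q, hPL, _, _, _, _, _, _, G⟩ := gglob P hpq.le F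
  have hHc : Continuous H := by
    rw [continuous_iff_continuousAt]
    exact fun y => (Q.dh y).continuousAt
  have hPP : PP p q 3 H := ((hPL.toPP hpq.le).integrate Q.dv Q.cont).integrate Q.dh Q.vcont
  have it0 : iteratedDeriv n (anti H n) = H := by
    have := iteratedDeriv_anti hHc 0 n
    rwa [Nat.add_zero, iteratedDeriv_zero] at this
  have it1 : iteratedDeriv (n + 1) (anti H n) = V := by
    rw [iteratedDeriv_anti hHc 1 n, Q.it1]
  have it2 : iteratedDeriv (n + 2) (anti H n) = b := by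
    rw [iteratedDeriv_anti hHc 2 n, Q.it2]
  refine ⟨anti H n, ⟨?_, ?_, ?_⟩, ?_⟩
  · exact (anti_contDiff Q.contDiff n).contDiffOn
  · intro d hd s hs x hx
    rcases lt_or_ge d n with h1 | h1
    · rw [hbot d h1] at hs
      exact absurd hs List.not_mem_nil
    · have h2 : d = n ∨ d = n + 1 ∨ d = n + 2 := by omega
      rcases h2 with rfl | rfl | rfl
      · rw [it0]
        exact G.c0 s.toStp (List.mem_map_of_mem hs) x hx.1.1.le hx.1.2.le hx.2
      · rw [it1]
        exact G.c1 s.toStp (List.mem_map_of_mem hs) x hx.1.1.le hx.1.2.le hx.2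
      · rw [it2]
        exact G.c2 s.toStp (List.mem_map_of_mem hs) x hx.1.1.le hx.1.2.le hx.2
  · intro s hs x hx y hy hxy
    have e : n + 3 - 1 = n + 2 := rfl
    rw [e, it2]
    apply belowL_of_slope _ _ hxy
    · intro h1
      exact G.c3 s.toStp (List.mem_map_of_mem hs) x y hx.1.1.le h1 hy.1.2.le hx.2 hy.2
    · intro h1
      exact G.c3 s.toStp (List.mem_map_of_mem hs) y x hy.1.1.le h1 hx.1.2.le hy.2 hx.2
  · have := anti_PP hHc hPP n
    rwa [Nat.add_comm 3 n] at this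

end MP44e4f6
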