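import Mathlib
import Pool.Agent.Lib.MP_44e4f6_lc.Defs
import Pool.Agent.Lib.MP_44e4f6_lc.Ext
import Pool.Agent.Lib.MP_44e4f6_lc.Main
import Pool.Agent.Lib.MP_44e4f6_lc.ChainEx
import Pool.Agent.Lib.MP_44e4f6_lc.AL

/-!
Algebraic certificates for consistency.
-/

namespace MP44e4f6

open Polynomial

/-- application of a function to a quadruple -/
def m4 {R S : Type*} (φ : R → S) (n : R × R × R × R) : S × S × S × S :=
  (φ n.1, φ n.2.1, φ n.2.2.1, φ n.2.2.2)

theorem map_env {R S : Type*} [CommRing R] [CommRing S] (φ : R →+* S) (n n' s : R × R × R × R)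
    (K : R) : (fun i => φ (env n n' s K i)) = env (m4 φ n) (m4 φ n') (m4 φ s) (φ K) := by
  funext i
  match i with
  | 0 => rfl
  | 1 => rfl
  | 2 => rfl
  | 3 => rfl
  | 4 => rfl
  | 5 => rfl
  | 6 => rfl
  | 7 => rfl
  | 8 => rfl
  | 9 => rfl
  | 10 => rfl
  | 11 => rfl
  | 12 => rfl
  | i + 13 => simp [env]

section map

variable {R S : Type*} [CommRing R] [CommRing S] (φ : R →+* S) {Z N : R → Prop} {Z' N' : S → Prop}
  {K : R} {L0 L1 L2 L3 : List (R × R × R × R)} {n n' : R × R × R × R}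

theorem ev_map_env (e : Ex) (n n' s : R × R × R × R) (K : R) :
    φ (e.ev (env n n' s K)) = e.ev (env (m4 φ n) (m4 φ n') (m4 φ s) (φ K)) := by
  rw [Ex.map_ev, map_env]

theorem StepOK.map (hN : ∀ x, N x → N' (φ x)) {A : List Ex} {s : R × R × R × R}
    (h : StepOK N A K n n' s) : StepOK N' A (φ K) (m4 φ n) (m4 φ n') (m4 φ s) := by
  rcases h with h | h | h
  · left
    rw [← ev_map_env]
    exact hN _ h
  · right; left
    rw [← ev_map_env]
    exact hN _ h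
  · right; right
    intro e he
    rw [← ev_map_env]
    exact hN _ (h e he)

theorem Piece.map (hZ : ∀ x, Z x → Z' (φ x)) (hN : ∀ x, N x → N' (φ x))
    (h : Piece Z N K L0 L1 L2 L3 n n') :
    Piece Z' N' (φ K) (L0.map (m4 φ)) (L1.map (m4 φ)) (L2.map (m4 φ)) (L3.map (m4 φ)) (m4 φ n)
      (m4 φ n') := by
  obtain ⟨i1, i2, i3, i4, i5, i6, i7, i8, i9⟩ := h
  refine ⟨?_, ?_, ?_, ?_, ?_, ?_, ?_, ?_, ?_⟩
  · rw [← ev_map_env]; exact hZ _ i1
  · rw [← ev_map_env]; exact hZ _ i2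
  · rw [← ev_map_env]; exact hN _ i3
  · rw [← ev_map_env]; exact hN _ i4
  · rw [← ev_map_env]; exact hN _ i5
  · intro s hs
    obtain ⟨s', hs', rfl⟩ := List.mem_map.1 hs
    exact (i6 s' hs').map φ hN
  · intro s hs
    obtain ⟨s', hs', rfl⟩ := List.mem_map.1 hs
    exact (i7 s' hs').map φ hN
  · intro s hs
    obtain ⟨s', hs', rfl⟩ := List.mem_map.1 hs
    exact (i8 s' hs').map φ hN
  · intro s hs
    obtain ⟨s', hs', rfl⟩ := List.mem_map.1 hs
    exact (i9 s' hs').map φ hN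

end map

/-- a step as a quadruple of constant polynomials -/
noncomputable def Step.poly (s : Step) : ℚ[X] × ℚ[X] × ℚ[X] × ℚ[X] := (C s.c, C s.r, C s.lo, C s.hi)

/-- zero modulo `F` -/
def ZF (F c : ℚ[X]) : Prop := F ∣ c

/-- a square modulo `F` -/
def NF (F c : ℚ[X]) : Prop := ∃ S : ℚ[X], F ∣ c - S ^ 2

/-- an algebraic certificate -/
def Cert (p q K : ℚ) (f0 f1 f2 f3 : List Step) : Prop :=
  ∃ (F : ℚ[X]) (r s : ℚ), r < s ∧ F.eval r * F.eval s < 0 ∧
    ∃ (n : ℕ) (ν : ℕ → ℚ[X] × ℚ[X] × ℚ[X] × ℚ[X]), 0 < n ∧ F ∣ (ν 0).1 - C p ∧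
      F ∣ (ν n).1 - C q ∧ ∀ i < n, Piece (ZF F) (NF F) (C K) (f0.map Step.poly) (f1.map Step.poly)
        (f2.map Step.poly) (f3.map Step.poly) (ν i) (ν (i + 1))

/-- real paths which satisfy all conditions -/
def Cons3 (p q K : ℝ) (L0 L1 L2 L3 : List Stp) : Prop :=
  ∃ h v a : ℝ → ℝ, IsPath h v a ∧ GF L0 L1 L2 L3 K p q h v a

theorem transGen_of_fun {α : Type*} {R : α → α → Prop} (ν : ℕ → α) :
    ∀ n, 0 < n → (∀ i < n, R (ν i) (ν (i + 1))) → Relation.TransGen R (ν 0) (ν n)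
  | 0, h, _ => absurd h (lt_irrefl _)
  | 1, _, h => Relation.TransGen.single (h 0 one_pos)
  | n + 2, _, h => (transGen_of_fun ν (n + 1) (Nat.succ_pos _) (fun i hi => h i (by omega))).tail
      (h (n + 1) (by omega))

theorem fun_of_transGen {α : Type*} {R : α → α → Prop} {a b : α} (h : Relation.TransGen R a b) :
    ∃ (n : ℕ) (ν : ℕ → α), 0 < n ∧ ν 0 = a ∧ ν n = b ∧ ∀ i < n, R (ν i) (ν (i + 1)) := by
  induction h with
  | single h1 =>
    rename_i b
    refine ⟨1, fun i => if i = 0 then a else b, one_pos, by simp, by simp, ?_⟩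
    intro i hi
    have : i = 0 := by omega
    subst this
    simpa using h1
  | tail h1 h2 ih =>
    rename_i b c
    obtain ⟨n, ν, hn, e1, e2, h3⟩ := ih
    refine ⟨n + 1, fun i => if i ≤ n then ν i else c, by omega, by simp [e1], by simp, ?_⟩
    intro i hi
    rcases lt_or_ge i n with h4 | h4
    · have h5 : i ≤ n := h4.le
      have h6 : i + 1 ≤ n := h4
      simp only [h5, h6, if_true]
      exact h3 i h4
    · have : i = n := by omega
      subst this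
      have h6 : ¬ (i + 1 ≤ i) := by omega
      simp only [le_refl, h6, if_true, if_false]
      rwa [e2]

theorem exists_root {F : ℚ[X]} {r s : ℚ} (hrs : r < s) (h : F.eval r * F.eval s < 0) :
    ∃ θ : ℝ, aeval θ F = 0 := by
  have hc : Continuous (fun x : ℝ => aeval x F) := by
    have := (F.map (algebraMap ℚ ℝ)).continuous
    simp only [Polynomial.eval_map_algebraMap] at this
    exact this
  have hr : ∀ x : ℚ, aeval (x : ℝ) F = ((F.eval x : ℚ) : ℝ) := by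
    intro x
    have := Polynomial.aeval_algebraMap_apply ℝ x F
    simpa using this
  have hle : (r : ℝ) ≤ s := by exact_mod_cast hrs.le
  rcases mul_neg_iff.1 h with ⟨h1, h2⟩ | ⟨h1, h2⟩
  · have := intermediate_value_Icc' hle hc.continuousOn
    have h0 : (0 : ℝ) ∈ Set.Icc (aeval (s : ℝ) F) (aeval (r : ℝ) F) := by
      rw [hr, hr]
      constructor
      · exact_mod_cast h2.le
      · exact_mod_cast h1.le
    obtain ⟨θ, _, hθ⟩ := this h0
    exact ⟨θ, hθ⟩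
  · have := intermediate_value_Icc hle hc.continuousOn
    have h0 : (0 : ℝ) ∈ Set.Icc (aeval (r : ℝ) F) (aeval (s : ℝ) F) := by
      rw [hr, hr]
      constructor
      · exact_mod_cast h1.le
      · exact_mod_cast h2.le
    obtain ⟨θ, _, hθ⟩ := this h0
    exact ⟨θ, hθ⟩

theorem map_poly (θ : ℝ) (f : List Step) :
    (f.map Step.poly).map (m4 (aeval θ : ℚ[X] →ₐ[ℚ] ℝ)) = (f.map Step.toStp).map Stp.tup := by
  rw [List.map_map, List.map_map]
  apply List.map_congr_left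
  intro s _
  simp [Step.poly, m4, Stp.tup, Step.toStp]

/-- soundness of the algebraic certificates -/
theorem Cert.sound {p q K : ℚ} {f0 f1 f2 f3 : List Step} (h : Cert p q K f0 f1 f2 f3) :
    Cons3 p q K (f0.map Step.toStp) (f1.map Step.toStp) (f2.map Step.toStp)
      (f3.map Step.toStp) := by
  obtain ⟨F, r, s, hrs, hF, n, ν, hn, hp, hq, hP⟩ := h
  obtain ⟨θ, hθ⟩ := exists_root hrs hF
  have hZ : ∀ x : ℚ[X], F ∣ x → aeval θ x = 0 := by
    rintro x ⟨y, rfl⟩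
    rw [map_mul, hθ, zero_mul]
  set φ : ℚ[X] →+* ℝ := (aeval θ : ℚ[X] →ₐ[ℚ] ℝ).toRingHom with hφ
  have hφ' : ∀ x, φ x = aeval θ x := fun x => rfl
  have hpc : ∀ i < n, RPiece K (f0.map Step.toStp) (f1.map Step.toStp) (f2.map Step.toStp)
      (f3.map Step.toStp) (m4 φ (ν i)) (m4 φ (ν (i + 1))) := by
    intro i hi
    have := (hP i hi).map φ (Z' := fun x : ℝ => x = 0) (N' := fun x : ℝ => 0 ≤ x)
      (fun x hx => hZ x hx) (fun x hx => by
        obtain ⟨S, hS⟩ := hx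
        have e := hZ _ hS
        rw [map_sub, map_pow] at e
        have : φ x = (aeval θ S) ^ 2 := by
          rw [hφ']; linarith
        show 0 ≤ φ x
        rw [this]
        positivity)
    have e1 : φ (C K) = (K : ℝ) := by
      rw [hφ']; simp
    rw [e1] at this
    have e2 := map_poly θ f0
    have e3 := map_poly θ f1
    have e4 := map_poly θ f2
    have e5 := map_poly θ f3
    unfold RPiece
    rw [← e2, ← e3, ← e4, ← e5]
    exact this
  have hT := transGen_of_fun (fun i => m4 φ (ν i)) n hn hpc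
  obtain ⟨h1, H, V, b, P, _, _, _, _, _, _, G⟩ := chain_path hT
  have ep : (m4 φ (ν 0)).1 = (p : ℝ) := by
    have := hZ _ hp
    rw [map_sub, aeval_C] at this
    show aeval θ (ν 0).1 = (p : ℝ)
    simp only [eq_ratCast] at this
    linarith
  have eq : (m4 φ (ν n)).1 = (q : ℝ) := by
    have := hZ _ hq
    rw [map_sub, aeval_C] at this
    show aeval θ (ν n).1 = (q : ℝ)
    simp only [eq_ratCast] at this
    linarith
  rw [ep, eq] at G
  exact ⟨H, V, b, P, G⟩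

/-! completeness -/

section compl

variable {σ : Type} (x : σ → ℝ) (g : σ → ℚ[X])

/-- `γ` corresponds to `r` -/
def Rel (r : ℝ) (γ : ℚ[X]) : Prop :=
  ∃ μ : MvPolynomial σ ℚ, MvPolynomial.aeval x μ = r ∧ MvPolynomial.aeval g μ = γ

variable {x g}

theorem Rel.const (c : ℚ) : Rel x g (c : ℝ) (C c) := by
  refine ⟨MvPolynomial.C c, ?_, ?_⟩
  · rw [MvPolynomial.aeval_C]; simp
  · rw [MvPolynomial.aeval_C]; rfl

theorem Rel.gen (i : σ) : Rel x g (x i) (g i) :=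
  ⟨MvPolynomial.X i, MvPolynomial.aeval_X _ _, MvPolynomial.aeval_X _ _⟩

theorem Rel.zero : Rel x g 0 0 := ⟨0, map_zero _, map_zero _⟩

theorem Rel.ev {ρ : ℕ → ℝ} {γ : ℕ → ℚ[X]} (h : ∀ i, Rel x g (ρ i) (γ i)) (e : Ex) :
    Rel x g (e.ev ρ) (e.ev γ) := by
  choose μ h1 h2 using h
  refine ⟨e.ev μ, ?_, ?_⟩
  · have := Ex.map_ev (MvPolynomial.aeval x : MvPolynomial σ ℚ →ₐ[ℚ] ℝ).toRingHom μ e
    simp only [AlgHom.toRingHom_eq_coe, RingHom.coe_coe] at this
    rw [this]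
    congr 1
    funext i
    exact h1 i
  · have := Ex.map_ev (MvPolynomial.aeval g : MvPolynomial σ ℚ →ₐ[ℚ] ℚ[X]).toRingHom μ e
    simp only [AlgHom.toRingHom_eq_coe, RingHom.coe_coe] at this
    rw [this]
    congr 1
    funext i
    exact h2 i

theorem Rel.env {n n' s : ℝ × ℝ × ℝ × ℝ} {N N' T : ℚ[X] × ℚ[X] × ℚ[X] × ℚ[X]} {K : ℝ} {κ : ℚ[X]}
    (h1 : Rel x g n.1 N.1 ∧ Rel x g n.2.1 N.2.1 ∧ Rel x g n.2.2.1 N.2.2.1 ∧
      Rel x g n.2.2.2 N.2.2.2)
    (h2 : Rel x g n'.1 N'.1 ∧ Rel x g n'.2.1 N'.2.1 ∧ Rel x g n'.2.2.1 N'.2.2.1 ∧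
      Rel x g n'.2.2.2 N'.2.2.2)
    (h3 : Rel x g s.1 T.1 ∧ Rel x g s.2.1 T.2.1 ∧ Rel x g s.2.2.1 T.2.2.1 ∧
      Rel x g s.2.2.2 T.2.2.2) (h4 : Rel x g K κ) :
    ∀ i, Rel x g (MP44e4f6.env n n' s K i) (MP44e4f6.env N N' T κ i) := by
  intro i
  match i with
  | 0 => exact h1.1
  | 1 => exact h1.2.1
  | 2 => exact h1.2.2.1
  | 3 => exact h1.2.2.2
  | 4 => exact h2.1
  | 5 => exact h2.2.1
  | 6 => exact h2.2.2.1
  | 7 => exact h2.2.2.2
  | 8 => exact h3.1
  | 9 => exact h3.2.1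
  | 10 => exact h3.2.2.1
  | 11 => exact h3.2.2.2
  | 12 => exact h4
  | i + 13 => exact Rel.zero

end compl

/-- all expressions used -/
def allE : List Ex := [eD, eK1, eK2, eL, eR] ++ at0 ++ at1 ++ at2 ++ at3

/-- completeness of the algebraic certificates -/
theorem Cert.complete {p q K : ℚ} {f0 f1 f2 f3 : List Step} (hpq : p < q)
    (h : Cons3 p q K (f0.map Step.toStp) (f1.map Step.toStp) (f2.map Step.toStp)
      (f3.map Step.toStp)) : Cert p q K f0 f1 f2 f3 := by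
  obtain ⟨h, v, a, P, G⟩ := h
  have hpq' : (p : ℝ) < q := by exact_mod_cast hpq
  obtain ⟨H, V, b, Q, hPL, _, _, _, _, _, _, G'⟩ := gglob P hpq'.le G
  obtain ⟨n, ν, hn, e1, e2, hP⟩ := fun_of_transGen (exists_chain Q hPL G' hpq')
  -- the finite list of reals
  set allS : ℕ → List (ℝ × ℝ × ℝ × ℝ) := fun i =>
    (ν i) :: ((f0 ++ f1 ++ f2 ++ f3).map Step.toStp).map Stp.tup with hallS
  set l : List ℝ := (List.range (n + 1)).flatMap (fun i => [(ν i).1, (ν i).2.1, (ν i).2.2.1,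
      (ν i).2.2.2]) ++
    (List.range n).flatMap (fun i => (allS i).flatMap (fun s => allE.map (fun e =>
      Real.sqrt (e.ev (env (ν i) (ν (i + 1)) s (K : ℝ)))))) with hl
  obtain ⟨F, r, s, g, hrs, hF, hrel⟩ := AL (σ := {y : ℝ // y ∈ l}) (fun y => y.1)
  classical
  set G0 : ℝ → ℚ[X] := fun y => if hy : y ∈ l then g ⟨y, hy⟩ else 0 with hG0
  have hG : ∀ y ∈ l, Rel (fun y : {y : ℝ // y ∈ l} => y.1) g y (G0 y) := by
    intro y hy
    have : G0 y = g ⟨y, hy⟩ := dif_pos hy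
    rw [this]
    exact Rel.gen (x := fun y : {y : ℝ // y ∈ l} => y.1) (g := g) ⟨y, hy⟩
  have hzero : ∀ γ, Rel (fun y : {y : ℝ // y ∈ l} => y.1) g 0 γ → F ∣ γ := by
    rintro γ ⟨μ, h1, h2⟩
    rw [← h2]
    exact hrel μ h1
  have hnn : ∀ y γ, Rel (fun y : {y : ℝ // y ∈ l} => y.1) g y γ → 0 ≤ y → Real.sqrt y ∈ l →
      NF F γ := by
    rintro y γ ⟨μ, h1, h2⟩ hy hs
    obtain ⟨μ', h3, h4⟩ := hG _ hs
    refine ⟨G0 (Real.sqrt y), hzero _ ⟨μ - μ' ^ 2, ?_, ?_⟩⟩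
    · rw [map_sub, map_pow, h1, h3, Real.sq_sqrt hy, sub_self]
    · rw [map_sub, map_pow, h2, h4]
  have hnode : ∀ i ≤ n, ∀ y ∈ [(ν i).1, (ν i).2.1, (ν i).2.2.1, (ν i).2.2.2], y ∈ l := by
    intro i hi y hy
    rw [hl]
    apply List.mem_append_left
    exact List.mem_flatMap.2 ⟨i, List.mem_range.2 (by omega), hy⟩
  have hval : ∀ i < n, ∀ s ∈ allS i, ∀ e ∈ allE,
      Real.sqrt (e.ev (env (ν i) (ν (i + 1)) s (K : ℝ))) ∈ l := by
    intro i hi s hs e he
    rw [hl]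
    apply List.mem_append_right
    exact List.mem_flatMap.2 ⟨i, List.mem_range.2 hi, List.mem_flatMap.2 ⟨s, hs,
      List.mem_map_of_mem he⟩⟩
  have hrn : ∀ i ≤ n, Rel (fun y : {y : ℝ // y ∈ l} => y.1) g (ν i).1 (m4 G0 (ν i)).1 ∧
      Rel (fun y : {y : ℝ // y ∈ l} => y.1) g (ν i).2.1 (m4 G0 (ν i)).2.1 ∧
      Rel (fun y : {y : ℝ // y ∈ l} => y.1) g (ν i).2.2.1 (m4 G0 (ν i)).2.2.1 ∧
      Rel (fun y : {y : ℝ // y ∈ l} => y.1) g (ν i).2.2.2 (m4 G0 (ν i)).2.2.2 := by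
    intro i hi
    exact ⟨hG _ (hnode i hi _ (by simp)), hG _ (hnode i hi _ (by simp)),
      hG _ (hnode i hi _ (by simp)), hG _ (hnode i hi _ (by simp))⟩
  have hK : Rel (fun y : {y : ℝ // y ∈ l} => y.1) g (K : ℝ) (C K) := Rel.const K
  have hst : ∀ s : Step, Rel (fun y : {y : ℝ // y ∈ l} => y.1) g s.toStp.tup.1 s.poly.1 ∧
      Rel (fun y : {y : ℝ // y ∈ l} => y.1) g s.toStp.tup.2.1 s.poly.2.1 ∧
      Rel (fun y : {y : ℝ // y ∈ l} => y.1) g s.toStp.tup.2.2.1 s.poly.2.2.1 ∧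
      Rel (fun y : {y : ℝ // y ∈ l} => y.1) g s.toStp.tup.2.2.2 s.poly.2.2.2 :=
    fun s => ⟨Rel.const s.c, Rel.const s.r, Rel.const s.lo, Rel.const s.hi⟩
  refine ⟨F, r, s, hrs, hF, n, fun i => m4 G0 (ν i), hn, ?_, ?_, ?_⟩
  · have h1 := (hrn 0 (Nat.zero_le _)).1
    rw [e1] at h1
    obtain ⟨μ, h2, h3⟩ := h1
    apply hzero
    refine ⟨μ - MvPolynomial.C p, ?_, ?_⟩
    · rw [map_sub, h2, MvPolynomial.aeval_C]
      simp [nd]
    · rw [map_sub, h3, MvPolynomial.aeval_C, ← e1]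
      rfl
  · have h1 := (hrn n le_rfl).1
    rw [e2] at h1
    obtain ⟨μ, h2, h3⟩ := h1
    apply hzero
    refine ⟨μ - MvPolynomial.C q, ?_, ?_⟩
    · rw [map_sub, h2, MvPolynomial.aeval_C]
      simp [nd]
    · rw [map_sub, h3, MvPolynomial.aeval_C, ← e2]
      rfl
  · intro i hi
    have R1 := hrn i hi.le
    have R2 := hrn (i + 1) hi
    have hPi := hP i hi
    have evn : ∀ e : Ex, Rel (fun y : {y : ℝ // y ∈ l} => y.1) g
        (e.ev (env (ν i) (ν (i + 1)) (ν i) (K : ℝ)))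
        (e.ev (env (m4 G0 (ν i)) (m4 G0 (ν (i + 1))) (m4 G0 (ν i)) (C K))) :=
      fun e => Rel.ev (Rel.env R1 R2 R1 hK) e
    have evs : ∀ (s : Step) (e : Ex), Rel (fun y : {y : ℝ // y ∈ l} => y.1) g
        (e.ev (env (ν i) (ν (i + 1)) s.toStp.tup (K : ℝ)))
        (e.ev (env (m4 G0 (ν i)) (m4 G0 (ν (i + 1))) s.poly (C K))) :=
      fun s e => Rel.ev (Rel.env R1 R2 (hst s) hK) e
    have mem0 : ν i ∈ allS i := List.mem_cons_self
    have memS : ∀ s : Step, (s ∈ f0 ∨ s ∈ f1 ∨ s ∈ f2 ∨ s ∈ f3) → s.toStp.tup ∈ allS i := by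
      intro s hs
      apply List.mem_cons_of_mem
      apply List.mem_map_of_mem
      apply List.mem_map_of_mem
      simp only [List.mem_append]
      tauto
    have step : ∀ (f : List Step) (A : List Ex), (∀ s ∈ f, s ∈ f0 ∨ s ∈ f1 ∨ s ∈ f2 ∨ s ∈ f3) →
        (∀ e ∈ A, e ∈ allE) →
        (∀ s ∈ (f.map Step.toStp).map Stp.tup,
          StepOK (fun x : ℝ => 0 ≤ x) A (K : ℝ) (ν i) (ν (i + 1)) s) →
        ∀ s ∈ f.map Step.poly, StepOK (NF F) A (C K) (m4 G0 (ν i)) (m4 G0 (ν (i + 1))) s := by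
      intro f A hf hA hs s' hs'
      obtain ⟨s, hsf, rfl⟩ := List.mem_map.1 hs'
      have hm := memS s (hf s hsf)
      rcases hs _ (List.mem_map_of_mem (List.mem_map_of_mem hsf)) with h1 | h1 | h1
      · exact Or.inl (hnn _ _ (evs s eL) h1 (hval i hi _ hm eL (by simp [allE])))
      · exact Or.inr (Or.inl (hnn _ _ (evs s eR) h1 (hval i hi _ hm eR (by simp [allE]))))
      · exact Or.inr (Or.inr (fun e he => hnn _ _ (evs s e) (h1 e he)
          (hval i hi _ hm e (hA e he))))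
    refine ⟨?_, ?_, ?_, ?_, ?_, ?_, ?_, ?_, ?_⟩
    · apply hzero
      have := evn eV
      rwa [hPi.hV] at this
    · apply hzero
      have := evn eH
      rwa [hPi.hH] at this
    · exact hnn _ _ (evn eD) hPi.hD (hval i hi _ mem0 eD (by simp [allE]))
    · exact hnn _ _ (evn eK1) hPi.hK1 (hval i hi _ mem0 eK1 (by simp [allE]))
    · exact hnn _ _ (evn eK2) hPi.hK2 (hval i hi _ mem0 eK2 (by simp [allE]))
    · exact step f0 at0 (fun s hs => Or.inl hs) (fun e he => by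
        simp only [allE, List.mem_append]; tauto) hPi.h0
    · exact step f1 at1 (fun s hs => Or.inr (Or.inl hs)) (fun e he => by
        simp only [allE, List.mem_append]; tauto) hPi.h1
    · exact step f2 at2 (fun s hs => Or.inr (Or.inr (Or.inl hs))) (fun e he => by
        simp only [allE, List.mem_append]; tauto) hPi.h2
    · exact step f3 at3 (fun s hs => Or.inr (Or.inr (Or.inr hs))) (fun e he => by
        simp only [allE, List.mem_append]; tauto) hPi.h3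

end MP44e4f6
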