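import Mathlib
import Pool.Agent.Lib.MP_44e4f6_lc.Ext

/-!
Regularisation where there are no slope conditions: definitions.
-/

namespace MP44e4f6

open Set MeasureTheory intervalIntegral

/-- `b` is Lipschitz on `[s, t]` -/
def Lp (s t : ℝ) (b : ℝ → ℝ) : Prop := ∃ K : ℝ, SB (-K) K s t b

/-- the path `(H, V, b)` has the same `2`-jets as `(h, v, a)` at `p` and at `q`, `b` is Lipschitz on `[p, q]` and `ε`-close to `a`
there -/
structure Cl (p q ε : ℝ) (h v a H V b : ℝ → ℝ) : Prop where
  path : IsPath H V b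
  lip : Lp p q b
  h0 : H p = h p
  v0 : V p = v p
  a0 : b p = a p
  h1 : H q = h q
  v1 : V q = v q
  a1 : b q = a q
  cl : ∀ x, p ≤ x → x ≤ q → |b x - a x| ≤ ε

end MP44e4f6
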