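import Mathlib
import Pool.Agent.Lib.MP_44e4f6_lc.B0

/-!
LEAF B1a. Proof. Let `A x := a (max x p)` (continuous, `0` for `x ≤ p` since `a p = 0`), `S0 x := ∫_p^x A`, `R0 x := ∫_p^x S0`,
`W x := ∫_p^x R0` (all `0` for `x ≤ p`; on `[p, ∞)` one has `A = a`, `S0 = s`, `R0 = r` by `IsPath.hv`, `IsPath.hh` and the zero
jets). For `τ > 0` put
  `b x := (S0 x - S0 (x - τ)) / τ`, `S x := (R0 x - R0 (x - τ)) / τ`, `R x := (W x - W (x - τ)) / τ`
(one-sided Steklov averages: `b x = τ⁻¹ ∫_{x-τ}^x A` and so on). `(R, S, b)` is a path (use `isPath_mk`, or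
`IsPath.hv`/`hh` by `integral_eq_sub_of_hasDerivAt`), all three vanish at `p`, `b` is Lipschitz on `[p, q]` (its derivative is
`(A x - A (x - τ)) / τ`, bounded on `[p, q]`; or `|b x - b y| ≤ 2 M / τ |x - y|` with `M` a bound of `|A|` on `[p - τ, q]`),
positivity: `b x = τ⁻¹ ∫_{x-τ}^x A`, an average of nonnegative values, and the same for `S` (average of `S0`) and `R` (average of
`R0`). Closeness: for `τ` small, by uniform continuity of `A`, `S0`, `R0` on `[p - 1, q]`.
-/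

namespace MP44e4f6

open Set MeasureTheory intervalIntegral

private noncomputable def B1a_Av (τ : ℝ) (G : ℝ → ℝ) (x : ℝ) : ℝ := τ⁻¹ * ∫ t in (x - τ)..x, G t

private theorem B1a_prim {G : ℝ → ℝ} (hG : Continuous G) (p : ℝ) : Continuous (fun x => ∫ t in p..x, G t) :=
  intervalIntegral.continuous_primitive (fun x y => hG.intervalIntegrable x y) p

private theorem B1a_Av_eq {G : ℝ → ℝ} (hG : Continuous G) (p τ x : ℝ) :
    B1a_Av τ G x = τ⁻¹ * ((∫ t in p..x, G t) - ∫ t in p..(x - τ), G t) := by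
  have h := intervalIntegral.integral_add_adjacent_intervals (hG.intervalIntegrable (μ := volume) p (x - τ))
    (hG.intervalIntegrable (x - τ) x)
  unfold B1a_Av
  rw [← h]
  ring

private theorem B1a_cont {G : ℝ → ℝ} (hG : Continuous G) (τ : ℝ) : Continuous (B1a_Av τ G) := by
  have h : B1a_Av τ G = fun x => τ⁻¹ * ((∫ t in (0 : ℝ)..x, G t) - ∫ t in (0 : ℝ)..(x - τ), G t) :=
    funext fun x => B1a_Av_eq hG 0 τ x
  rw [h]
  exact continuous_const.mul ((B1a_prim hG 0).sub ((B1a_prim hG 0).comp (continuous_id.sub continuous_const)))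

private theorem B1a_path {G : ℝ → ℝ} (hG : Continuous G) (p τ s x : ℝ) :
    B1a_Av τ (fun x => ∫ t in p..x, G t) x = B1a_Av τ (fun x => ∫ t in p..x, G t) s + ∫ t in s..x, B1a_Av τ G t := by
  have hΦ := B1a_prim hG p
  have hi : ∀ a b, IntervalIntegrable (fun x => ∫ t in p..x, G t) volume a b := fun a b => hΦ.intervalIntegrable a b
  have h1 : (∫ t in s..x, B1a_Av τ G t) =
      τ⁻¹ * ((∫ t in s..x, ∫ u in p..t, G u) - ∫ t in (s - τ)..(x - τ), ∫ u in p..t, G u) := by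
    have h2 : (∫ t in s..x, B1a_Av τ G t) =
        ∫ t in s..x, τ⁻¹ * ((∫ u in p..t, G u) - ∫ u in p..(t - τ), G u) :=
      intervalIntegral.integral_congr fun t _ => B1a_Av_eq hG p τ t
    have h3 : IntervalIntegrable (fun t => ∫ u in p..(t - τ), G u) volume s x :=
      (hΦ.comp (continuous_id.sub continuous_const)).intervalIntegrable s x
    rw [h2, intervalIntegral.integral_const_mul, intervalIntegral.integral_sub (hi s x) h3,
      intervalIntegral.integral_comp_sub_right (fun t => ∫ u in p..t, G u) τ]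
  have a1 := intervalIntegral.integral_add_adjacent_intervals (hi (x - τ) s) (hi s x)
  have a2 := intervalIntegral.integral_add_adjacent_intervals (hi (s - τ) (x - τ)) (hi (x - τ) s)
  rw [h1]
  unfold B1a_Av
  rw [← a1, ← a2]
  ring

private theorem B1a_zero {G : ℝ → ℝ} {p τ : ℝ} (hτ : 0 < τ) (h0 : ∀ x, x ≤ p → G x = 0) : B1a_Av τ G p = 0 := by
  unfold B1a_Av
  have h : (∫ t in (p - τ)..p, G t) = ∫ t in (p - τ)..p, (0 : ℝ) := by
    refine intervalIntegral.integral_congr fun t ht => ?_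
    rw [uIcc_of_le (by linarith)] at ht
    exact h0 t ht.2
  rw [h, intervalIntegral.integral_zero, mul_zero]

private theorem B1a_nonneg {G : ℝ → ℝ} {p τ m : ℝ} (hτ : 0 < τ) (h0 : ∀ x, x ≤ p → G x = 0)
    (h : ∀ x, p ≤ x → x ≤ m → 0 ≤ G x) : ∀ x, p ≤ x → x ≤ m → 0 ≤ B1a_Av τ G x := by
  intro x hx hxm
  unfold B1a_Av
  refine mul_nonneg (by positivity) (intervalIntegral.integral_nonneg (by linarith) fun t ht => ?_)
  rcases le_or_gt t p with h1 | h1
  · rw [h0 t h1]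
  · exact h t h1.le (ht.2.trans hxm)

private theorem B1a_close {G : ℝ → ℝ} (hG : Continuous G) {τ x ε : ℝ} (hτ : 0 < τ)
    (h : ∀ t, x - τ ≤ t → t ≤ x → |G t - G x| ≤ ε) : |B1a_Av τ G x - G x| ≤ ε := by
  have hi : ∀ a b, IntervalIntegrable G volume a b := fun a b => hG.intervalIntegrable a b
  have h1 : B1a_Av τ G x - G x = τ⁻¹ * ∫ t in (x - τ)..x, (G t - G x) := by
    unfold B1a_Av
    rw [intervalIntegral.integral_sub (hi _ _) intervalIntegrable_const, intervalIntegral.integral_const, smul_eq_mul]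
    field_simp
    ring
  have h2 : ‖∫ t in (x - τ)..x, (G t - G x)‖ ≤ ε * |x - (x - τ)| := by
    refine intervalIntegral.norm_integral_le_of_norm_le_const fun t ht => ?_
    rw [uIoc_of_le (by linarith)] at ht
    exact h t ht.1.le ht.2
  rw [Real.norm_eq_abs, sub_sub_cancel, abs_of_pos hτ] at h2
  rw [h1, abs_mul, abs_of_pos (inv_pos.2 hτ)]
  calc τ⁻¹ * |∫ t in (x - τ)..x, (G t - G x)| ≤ τ⁻¹ * (ε * τ) := mul_le_mul_of_nonneg_left h2 (by positivity)
    _ = ε := by field_simp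

private theorem B1a_unif {G : ℝ → ℝ} (hG : Continuous G) (p q : ℝ) {ε : ℝ} (hε : 0 < ε) :
    ∃ δ > 0, ∀ x t, p - 1 ≤ t → t ≤ x → x ≤ q → x - t < δ → |G t - G x| ≤ ε := by
  have h1 : UniformContinuousOn G (Icc (p - 1) q) := isCompact_Icc.uniformContinuousOn_of_continuous hG.continuousOn
  rw [Metric.uniformContinuousOn_iff] at h1
  obtain ⟨δ, hδ, h2⟩ := h1 ε hε
  refine ⟨δ, hδ, fun x t h3 h4 h5 h6 => ?_⟩
  have h7 := h2 t ⟨h3, h4.trans h5⟩ x ⟨h3.trans h4, h5⟩ (by rw [Real.dist_eq, abs_sub_comm, abs_of_nonneg (by linarith)]; exact h6)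
  rw [Real.dist_eq] at h7
  exact h7.le

private theorem B1a_lip {G : ℝ → ℝ} (hG : Continuous G) {p q τ : ℝ} (hτ : 0 < τ) (hτ1 : τ ≤ 1) : Lp p q (B1a_Av τ G) := by
  obtain ⟨M, hM⟩ := isCompact_Icc.exists_bound_of_continuousOn (s := Icc (p - 1) q) hG.continuousOn
  have hi : ∀ a b, IntervalIntegrable G volume a b := fun a b => hG.intervalIntegrable a b
  refine ⟨τ⁻¹ * (2 * M), fun x y hx hxy hy => ?_⟩
  have h1 : B1a_Av τ G y - B1a_Av τ G x = τ⁻¹ * ((∫ t in x..y, G t) - ∫ t in (x - τ)..(y - τ), G t) := by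
    have a1 := intervalIntegral.integral_add_adjacent_intervals (hi (y - τ) x) (hi x y)
    have a2 := intervalIntegral.integral_add_adjacent_intervals (hi (x - τ) (y - τ)) (hi (y - τ) x)
    unfold B1a_Av
    rw [← a1, ← a2]
    ring
  have h2 : ‖∫ t in x..y, G t‖ ≤ M * |y - x| := by
    refine intervalIntegral.norm_integral_le_of_norm_le_const fun t ht => ?_
    rw [uIoc_of_le hxy] at ht
    exact hM t ⟨by linarith [ht.1], ht.2.trans hy⟩
  have h3 : ‖∫ t in (x - τ)..(y - τ), G t‖ ≤ M * |(y - τ) - (x - τ)| := by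
    refine intervalIntegral.norm_integral_le_of_norm_le_const fun t ht => ?_
    rw [uIoc_of_le (by linarith)] at ht
    exact hM t ⟨by linarith [ht.1], by linarith [ht.2]⟩
  have e : (y - τ) - (x - τ) = y - x := by ring
  rw [e] at h3
  rw [Real.norm_eq_abs, abs_of_nonneg (by linarith : 0 ≤ y - x)] at h2 h3
  have h4 : |(∫ t in x..y, G t) - ∫ t in (x - τ)..(y - τ), G t| ≤ 2 * M * (y - x) := by
    have h5 := abs_sub (∫ t in x..y, G t) (∫ t in (x - τ)..(y - τ), G t)
    linarith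
  have h6 := abs_le.1 h4
  have h7 : 0 < τ⁻¹ := inv_pos.2 hτ
  have h8 := mul_le_mul_of_nonneg_left h6.1 h7.le
  have h9 := mul_le_mul_of_nonneg_left h6.2 h7.le
  rw [h1]
  constructor
  · linarith
  · linarith

theorem stek {p q ε : ℝ} {r s a : ℝ → ℝ} (P : IsPath r s a) (hpq : p < q) (hr : r p = 0) (hs : s p = 0)
    (ha : a p = 0) (hε : 0 < ε) :
    ∃ R S b : ℝ → ℝ, IsPath R S b ∧ Lp p q b ∧ R p = 0 ∧ S p = 0 ∧ b p = 0 ∧
      (∀ x, p ≤ x → x ≤ q → |R x - r x| ≤ ε ∧ |S x - s x| ≤ ε ∧ |b x - a x| ≤ ε) ∧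
      (∀ m, m ≤ q → (∀ x, p ≤ x → x ≤ m → 0 ≤ r x) → ∀ x, p ≤ x → x ≤ m → 0 ≤ R x) ∧
      (∀ m, m ≤ q → (∀ x, p ≤ x → x ≤ m → 0 ≤ s x) → ∀ x, p ≤ x → x ≤ m → 0 ≤ S x) ∧
      (∀ m, m ≤ q → (∀ x, p ≤ x → x ≤ m → 0 ≤ a x) → ∀ x, p ≤ x → x ≤ m → 0 ≤ b x) := by
  -- the data
  set A : ℝ → ℝ := fun x => a (max x p) with hA
  have hAc : Continuous A := P.cont.comp (continuous_id.max continuous_const)
  have hA0 : ∀ x, x ≤ p → A x = 0 := fun x hx => by rw [hA]; beta_reduce; rw [max_eq_right hx, ha]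
  have hA1 : ∀ x, p ≤ x → A x = a x := fun x hx => by rw [hA]; beta_reduce; rw [max_eq_left hx]
  set S0 : ℝ → ℝ := fun x => ∫ t in p..x, A t with hS0
  have hS0c : Continuous S0 := B1a_prim hAc p
  have hS00 : ∀ x, x ≤ p → S0 x = 0 := by
    intro x hx
    have h : (∫ t in p..x, A t) = ∫ t in p..x, (0 : ℝ) := by
      refine intervalIntegral.integral_congr fun t ht => ?_
      rw [uIcc_of_ge hx] at ht
      exact hA0 t ht.2
    rw [hS0]
    beta_reduce
    rw [h, intervalIntegral.integral_zero]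
  have hS01 : ∀ x, p ≤ x → S0 x = s x := by
    intro x hx
    have h : (∫ t in p..x, A t) = ∫ t in p..x, a t := by
      refine intervalIntegral.integral_congr fun t ht => ?_
      rw [uIcc_of_le hx] at ht
      exact hA1 t ht.1
    rw [hS0]
    beta_reduce
    rw [h, P.hv p x, hs, zero_add]
  set R0 : ℝ → ℝ := fun x => ∫ t in p..x, S0 t with hR0
  have hR0c : Continuous R0 := B1a_prim hS0c p
  have hR00 : ∀ x, x ≤ p → R0 x = 0 := by
    intro x hx
    have h : (∫ t in p..x, S0 t) = ∫ t in p..x, (0 : ℝ) := by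
      refine intervalIntegral.integral_congr fun t ht => ?_
      rw [uIcc_of_ge hx] at ht
      exact hS00 t ht.2
    rw [hR0]
    beta_reduce
    rw [h, intervalIntegral.integral_zero]
  have hR01 : ∀ x, p ≤ x → R0 x = r x := by
    intro x hx
    have h : (∫ t in p..x, S0 t) = ∫ t in p..x, s t := by
      refine intervalIntegral.integral_congr fun t ht => ?_
      rw [uIcc_of_le hx] at ht
      exact hS01 t ht.1
    rw [hR0]
    beta_reduce
    rw [h, P.hh p x, hr, zero_add]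
  obtain ⟨d1, hd1, h1⟩ := B1a_unif hAc p q hε
  obtain ⟨d2, hd2, h2⟩ := B1a_unif hS0c p q hε
  obtain ⟨d3, hd3, h3⟩ := B1a_unif hR0c p q hε
  set τ : ℝ := min 1 (min d1 (min d2 d3)) / 2 with hτd
  have hm : 0 < min 1 (min d1 (min d2 d3)) := lt_min one_pos (lt_min hd1 (lt_min hd2 hd3))
  have hτ : 0 < τ := by positivity
  have hm1 : min 1 (min d1 (min d2 d3)) ≤ 1 := min_le_left _ _
  have hm2 : min 1 (min d1 (min d2 d3)) ≤ d1 := (min_le_right _ _).trans (min_le_left _ _)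
  have hm3 : min 1 (min d1 (min d2 d3)) ≤ d2 := (min_le_right _ _).trans ((min_le_right _ _).trans (min_le_left _ _))
  have hm4 : min 1 (min d1 (min d2 d3)) ≤ d3 := (min_le_right _ _).trans ((min_le_right _ _).trans (min_le_right _ _))
  have t1 : τ < 1 := by rw [hτd]; linarith
  have t2 : τ < d1 := by rw [hτd]; linarith
  have t3 : τ < d2 := by rw [hτd]; linarith
  have t4 : τ < d3 := by rw [hτd]; linarith
  refine ⟨B1a_Av τ R0, B1a_Av τ S0, B1a_Av τ A, ⟨B1a_cont hAc τ, fun s x => B1a_path hAc p τ s x,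
    fun s x => B1a_path hS0c p τ s x⟩, B1a_lip hAc hτ t1.le, B1a_zero hτ hR00, B1a_zero hτ hS00, B1a_zero hτ hA0,
    ?_, ?_, ?_, ?_⟩
  · intro x hx hxq
    refine ⟨?_, ?_, ?_⟩
    · rw [← hR01 x hx]
      exact B1a_close hR0c hτ fun t ht ht' => h3 x t (by linarith) ht' hxq (by linarith)
    · rw [← hS01 x hx]
      exact B1a_close hS0c hτ fun t ht ht' => h2 x t (by linarith) ht' hxq (by linarith)
    · rw [← hA1 x hx]
      exact B1a_close hAc hτ fun t ht ht' => h1 x t (by linarith) ht' hxq (by linarith)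
  · intro m _ h
    exact B1a_nonneg hτ hR00 fun x hx hxm => by rw [hR01 x hx]; exact h x hx hxm
  · intro m _ h
    exact B1a_nonneg hτ hS00 fun x hx hxm => by rw [hS01 x hx]; exact h x hx hxm
  · intro m _ h
    exact B1a_nonneg hτ hA0 fun x hx hxm => by rw [hA1 x hx]; exact h x hx hxm

end MP44e4f6
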