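import Mathlib
import Pool.Agent.Lib.MP_44e4f6_lc.B0

/-!
LEAF B1b. Proof. With `y := max (x - m) 0` and `ρ := q - m > 0` put `Z x := c1 y + c2 y² + c3 y³`,
`Y x := c1 y²/2 + c2 y³/3 + c3 y⁴/4`, `X x := c1 y³/6 + c2 y⁴/12 + c3 y⁵/20` (a path: `isPath_mk` or derivatives of `max`), and
solve the `3 × 3` linear system `Z q = e2`, `Y q = e1`, `X q = e0` for `c1, c2, c3` (determinant `≠ 0`; each `c_i` is a linear
combination of the `e_j` with coefficients which are constants times powers of `ρ⁻¹`; write the solution out explicitly). Then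
`|X|, |Y|, |Z| ≤ C max |e_j|` on `[p, q]`.
-/

namespace MP44e4f6

open Set MeasureTheory intervalIntegral

private theorem B1b_der (m : ℝ) (k : ℕ) (x : ℝ) :
    HasDerivAt (fun t : ℝ => (max (t - m) 0) ^ (k + 2)) (((k : ℝ) + 2) * (max (x - m) 0) ^ (k + 1)) x := by
  have hR : ∀ z, HasDerivAt (fun t : ℝ => (t - m) ^ (k + 2)) (((k : ℝ) + 2) * (z - m) ^ (k + 1)) z := by
    intro z
    have h := ((hasDerivAt_id z).sub_const m).pow (k + 2)
    have e : (((k + 2 : ℕ) : ℝ)) * (id z - m) ^ (k + 2 - 1) * 1 = ((k : ℝ) + 2) * (z - m) ^ (k + 1) := by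
      push_cast
      simp
    rw [← e]
    exact h
  rcases lt_trichotomy x m with hx | hx | hx
  · have h0 : (fun t : ℝ => (max (t - m) 0) ^ (k + 2)) =ᶠ[nhds x] fun _ => (0 : ℝ) := by
      filter_upwards [Iio_mem_nhds hx] with t ht
      have : max (t - m) 0 = 0 := max_eq_right (by linarith [mem_Iio.mp ht])
      rw [this]
      simp
    have h1 : ((k : ℝ) + 2) * (max (x - m) 0) ^ (k + 1) = 0 := by
      have : max (x - m) 0 = 0 := max_eq_right (by linarith)
      rw [this]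
      simp
    rw [h1]
    exact (hasDerivAt_const x (0 : ℝ)).congr_of_eventuallyEq h0
  · subst hx
    have h1 : ((k : ℝ) + 2) * (max (x - x) 0) ^ (k + 1) = 0 := by simp
    rw [h1]
    have hl : HasDerivWithinAt (fun t : ℝ => (max (t - x) 0) ^ (k + 2)) 0 (Iic x) x := by
      refine (hasDerivWithinAt_const x (Iic x) (0 : ℝ)).congr (fun t ht => ?_) (by simp)
      have : max (t - x) 0 = 0 := max_eq_right (by linarith [mem_Iic.mp ht])
      rw [this]
      simp
    have hr : HasDerivWithinAt (fun t : ℝ => (max (t - x) 0) ^ (k + 2)) 0 (Ici x) x := by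
      have h2 := (hR x).hasDerivWithinAt (s := Ici x)
      have h3 : ((k : ℝ) + 2) * (x - x) ^ (k + 1) = 0 := by simp
      rw [h3] at h2
      refine h2.congr (fun t ht => ?_) (by simp)
      have : max (t - x) 0 = t - x := max_eq_left (by linarith [mem_Ici.mp ht])
      rw [this]
    have := hl.union hr
    rw [Iic_union_Ici] at this
    exact hasDerivWithinAt_univ.mp this
  · have h0 : (fun t : ℝ => (max (t - m) 0) ^ (k + 2)) =ᶠ[nhds x] fun t => (t - m) ^ (k + 2) := by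
      filter_upwards [Ioi_mem_nhds hx] with t ht
      have : max (t - m) 0 = t - m := max_eq_left (by linarith [mem_Ioi.mp ht])
      rw [this]
    have h1 : max (x - m) 0 = x - m := max_eq_left (by linarith)
    rw [h1]
    exact (hR x).congr_of_eventuallyEq h0

private theorem B1b_mk {X Y Z : ℝ → ℝ} (hZ : Continuous Z) (hY : ∀ x, HasDerivAt Y (Z x) x)
    (hX : ∀ x, HasDerivAt X (Y x) x) : IsPath X Y Z := by
  have hYc : Continuous Y := continuous_iff_continuousAt.mpr (fun x => (hY x).continuousAt)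
  refine ⟨hZ, fun s x => ?_, fun s x => ?_⟩
  · rw [intervalIntegral.integral_eq_sub_of_hasDerivAt (fun t _ => hY t) (hZ.intervalIntegrable _ _)]
    ring
  · rw [intervalIntegral.integral_eq_sub_of_hasDerivAt (fun t _ => hX t) (hYc.intervalIntegrable _ _)]
    ring

private theorem B1b_abs {u1 u2 u3 w1 w2 w3 : ℝ} (h1 : 0 ≤ w1) (h1' : w1 ≤ 1) (h2 : 0 ≤ w2) (h2' : w2 ≤ 1)
    (h3 : 0 ≤ w3) (h3' : w3 ≤ 1) : |u1 * w1 + u2 * w2 + u3 * w3| ≤ |u1| + |u2| + |u3| := by
  have a1 : |u1 * w1| ≤ |u1| := by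
    rw [abs_mul, abs_of_nonneg h1]
    exact mul_le_of_le_one_right (abs_nonneg _) h1'
  have a2 : |u2 * w2| ≤ |u2| := by
    rw [abs_mul, abs_of_nonneg h2]
    exact mul_le_of_le_one_right (abs_nonneg _) h2'
  have a3 : |u3 * w3| ≤ |u3| := by
    rw [abs_mul, abs_of_nonneg h3]
    exact mul_le_of_le_one_right (abs_nonneg _) h3'
  have b1 := abs_add_le (u1 * w1 + u2 * w2) (u3 * w3)
  have b2 := abs_add_le (u1 * w1) (u2 * w2)
  linarith

theorem corr {p m q ε : ℝ} (hpm : p ≤ m) (hmq : m < q) (hε : 0 < ε) :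
    ∃ η > 0, ∀ e0 e1 e2 : ℝ, |e0| ≤ η → |e1| ≤ η → |e2| ≤ η →
      ∃ X Y Z : ℝ → ℝ, IsPath X Y Z ∧ Lp p q Z ∧ (∀ x, x ≤ m → X x = 0 ∧ Y x = 0 ∧ Z x = 0) ∧
        X q = e0 ∧ Y q = e1 ∧ Z q = e2 ∧
        ∀ x, p ≤ x → x ≤ q → |X x| ≤ ε ∧ |Y x| ≤ ε ∧ |Z x| ≤ ε := by
  set r : ℝ := q - m with hr
  have hr0 : 0 < r := by rw [hr]; linarith
  set C : ℝ := 360 * (1 / r ^ 2 + 1 / r + 1) * (1 + r + r ^ 2) with hC
  have hC0 : 0 < C := by positivity
  refine ⟨ε / C, by positivity, ?_⟩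
  intro e0 e1 e2 h0 h1 h2
  set η : ℝ := ε / C with hη
  have hη0 : 0 < η := by positivity
  set E0 : ℝ := e0 / r ^ 2 with hE0
  set E1 : ℝ := e1 / r with hE1
  set u1 : ℝ := 60 * E0 - 24 * E1 + 3 * e2 with hu1
  set u2 : ℝ := -180 * E0 + 84 * E1 - 12 * e2 with hu2
  set u3 : ℝ := 120 * E0 - 60 * E1 + 10 * e2 with hu3
  have hS : |u1| + |u2| + |u3| ≤ 360 * (1 / r ^ 2 + 1 / r + 1) * η := by
    have a0 : |E0| ≤ 1 / r ^ 2 * η := by
      rw [hE0, abs_div, abs_of_pos (by positivity : 0 < r ^ 2), div_mul_eq_mul_div, one_mul]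
      exact div_le_div_of_nonneg_right h0 (by positivity)
    have a1 : |E1| ≤ 1 / r * η := by
      rw [hE1, abs_div, abs_of_pos hr0, div_mul_eq_mul_div, one_mul]
      exact div_le_div_of_nonneg_right h1 hr0.le
    have b1 : |u1| ≤ 60 * |E0| + 24 * |E1| + 3 * |e2| := by
      rw [hu1, abs_le]
      constructor
      · linarith [neg_abs_le E0, le_abs_self E1, neg_abs_le e2]
      · linarith [le_abs_self E0, neg_abs_le E1, le_abs_self e2]
    have b2 : |u2| ≤ 180 * |E0| + 84 * |E1| + 12 * |e2| := by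
      rw [hu2, abs_le]
      constructor
      · linarith [le_abs_self E0, neg_abs_le E1, le_abs_self e2]
      · linarith [neg_abs_le E0, le_abs_self E1, neg_abs_le e2]
    have b3 : |u3| ≤ 120 * |E0| + 60 * |E1| + 10 * |e2| := by
      rw [hu3, abs_le]
      constructor
      · linarith [neg_abs_le E0, le_abs_self E1, neg_abs_le e2]
      · linarith [le_abs_self E0, neg_abs_le E1, le_abs_self e2]
    have c1 : 0 ≤ 1 / r * η := by positivity
    linarith
  set S : ℝ := |u1| + |u2| + |u3| with hSd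
  have hS0 : 0 ≤ S := by positivity
  have hSε : S * (1 + r + r ^ 2) ≤ ε := by
    have h3 : S * (1 + r + r ^ 2) ≤ 360 * (1 / r ^ 2 + 1 / r + 1) * η * (1 + r + r ^ 2) :=
      mul_le_mul_of_nonneg_right hS (by positivity)
    have h4 : 360 * (1 / r ^ 2 + 1 / r + 1) * η * (1 + r + r ^ 2) = C * η := by
      rw [hC]
      ring
    rw [h4, hη, mul_div_cancel₀ _ hC0.ne'] at h3
    exact h3
  have hSr : 0 ≤ S * r := by positivity
  have hSr2 : 0 ≤ S * r ^ 2 := by positivity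
  set y : ℝ → ℝ := fun x => max (x - m) 0 with hy
  have hyc : Continuous y := by
    rw [hy]
    fun_prop
  have hy0 : ∀ x, 0 ≤ y x := fun x => le_max_right _ _
  have hyr : ∀ x, x ≤ q → y x ≤ r := fun x hx => max_le (by rw [hr]; linarith) hr0.le
  have hyq : y q = r := by
    rw [hy, hr]
    exact max_eq_left (by linarith)
  have hd : ∀ (k : ℕ) (x : ℝ), HasDerivAt (fun t => y t ^ (k + 2)) (((k : ℝ) + 2) * y x ^ (k + 1)) x :=
    fun k x => B1b_der m k x
  have hw0 : ∀ x, 0 ≤ y x / r := fun x => div_nonneg (hy0 x) hr0.le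
  have hw1 : ∀ x, x ≤ q → y x / r ≤ 1 := fun x hx => (div_le_one hr0).mpr (hyr x hx)
  refine ⟨fun x => u1 / r * y x ^ 3 / 6 + u2 / r ^ 2 * y x ^ 4 / 12 + u3 / r ^ 3 * y x ^ 5 / 20,
    fun x => u1 / r * y x ^ 2 / 2 + u2 / r ^ 2 * y x ^ 3 / 3 + u3 / r ^ 3 * y x ^ 4 / 4,
    fun x => u1 / r * y x + u2 / r ^ 2 * y x ^ 2 + u3 / r ^ 3 * y x ^ 3, ?_, ?_, ?_, ?_, ?_, ?_, ?_⟩
  · refine B1b_mk (by fun_prop) (fun x => ?_) (fun x => ?_)
    · have d2 := ((hd 0 x).const_mul (u1 / r)).div_const 2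
      have d3 := ((hd 1 x).const_mul (u2 / r ^ 2)).div_const 3
      have d4 := ((hd 2 x).const_mul (u3 / r ^ 3)).div_const 4
      have := (d2.add d3).add d4
      refine this.congr_deriv ?_
      push_cast
      ring
    · have d3 := ((hd 1 x).const_mul (u1 / r)).div_const 6
      have d4 := ((hd 2 x).const_mul (u2 / r ^ 2)).div_const 12
      have d5 := ((hd 3 x).const_mul (u3 / r ^ 3)).div_const 20
      have := (d3.add d4).add d5
      refine this.congr_deriv ?_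
      push_cast
      ring
  · refine ⟨(|u1| + 2 * |u2| + 3 * |u3|) / r, fun s t hs hst ht => ?_⟩
    have hsq : s ≤ q := hst.trans ht
    set a := y s / r with ha
    set b := y t / r with hb
    have ha0 : 0 ≤ a := hw0 s
    have hb0 : 0 ≤ b := hw0 t
    have ha1 : a ≤ 1 := hw1 s hsq
    have hb1 : b ≤ 1 := hw1 t ht
    have hyst : y s ≤ y t := max_le_max (by linarith) le_rfl
    have hyst' : y t - y s ≤ t - s := by
      have : y t ≤ y s + (t - s) := by
        refine max_le ?_ ?_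
        · have := le_max_left (s - m) (0 : ℝ)
          show t - m ≤ max (s - m) 0 + (t - s)
          linarith
        · have := hy0 s
          linarith
      linarith
    have hab : a ≤ b := div_le_div_of_nonneg_right hyst hr0.le
    have hab' : b - a ≤ (t - s) / r := by
      rw [ha, hb, ← sub_div]
      exact div_le_div_of_nonneg_right hyst' hr0.le
    have key : (u1 / r * y t + u2 / r ^ 2 * y t ^ 2 + u3 / r ^ 3 * y t ^ 3) -
        (u1 / r * y s + u2 / r ^ 2 * y s ^ 2 + u3 / r ^ 3 * y s ^ 3) =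
        (b - a) * (u1 + u2 * (a + b) + u3 * (a ^ 2 + a * b + b ^ 2)) := by
      rw [ha, hb]
      field_simp
      ring
    have hbd : |u1 + u2 * (a + b) + u3 * (a ^ 2 + a * b + b ^ 2)| ≤ |u1| + 2 * |u2| + 3 * |u3| := by
      have n1 : |u2 * (a + b)| ≤ 2 * |u2| := by
        rw [abs_mul, abs_of_nonneg (by linarith : 0 ≤ a + b)]
        have g0 := mul_le_mul_of_nonneg_left (by linarith : a + b ≤ 2) (abs_nonneg u2)
        linarith only [g0]
      have n2 : |u3 * (a ^ 2 + a * b + b ^ 2)| ≤ 3 * |u3| := by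
        have g1 : 0 ≤ a ^ 2 + a * b + b ^ 2 := by positivity
        have g3 : a ^ 2 ≤ 1 := pow_le_one₀ ha0 ha1
        have g4 : b ^ 2 ≤ 1 := pow_le_one₀ hb0 hb1
        have g5 : a * b ≤ 1 := mul_le_one₀ ha1 hb0 hb1
        have g2 : a ^ 2 + a * b + b ^ 2 ≤ 3 := by linarith only [g3, g4, g5]
        rw [abs_mul, abs_of_nonneg g1]
        have g6 := mul_le_mul_of_nonneg_left g2 (abs_nonneg u3)
        linarith only [g6]
      have n3 := abs_add_le (u1 + u2 * (a + b)) (u3 * (a ^ 2 + a * b + b ^ 2))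
      have n4 := abs_add_le u1 (u2 * (a + b))
      linarith
    have hfin : |(b - a) * (u1 + u2 * (a + b) + u3 * (a ^ 2 + a * b + b ^ 2))| ≤
        (|u1| + 2 * |u2| + 3 * |u3|) / r * (t - s) := by
      rw [abs_mul, abs_of_nonneg (by linarith : 0 ≤ b - a)]
      calc (b - a) * |u1 + u2 * (a + b) + u3 * (a ^ 2 + a * b + b ^ 2)|
          ≤ (t - s) / r * (|u1| + 2 * |u2| + 3 * |u3|) :=
            mul_le_mul hab' hbd (abs_nonneg _) (by have := sub_nonneg.mpr hst; positivity)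
        _ = (|u1| + 2 * |u2| + 3 * |u3|) / r * (t - s) := by ring
    have hf := abs_le.mp hfin
    show -((|u1| + 2 * |u2| + 3 * |u3|) / r) * (t - s) ≤
        (u1 / r * y t + u2 / r ^ 2 * y t ^ 2 + u3 / r ^ 3 * y t ^ 3) -
        (u1 / r * y s + u2 / r ^ 2 * y s ^ 2 + u3 / r ^ 3 * y s ^ 3) ∧
        (u1 / r * y t + u2 / r ^ 2 * y t ^ 2 + u3 / r ^ 3 * y t ^ 3) -
        (u1 / r * y s + u2 / r ^ 2 * y s ^ 2 + u3 / r ^ 3 * y s ^ 3) ≤
        (|u1| + 2 * |u2| + 3 * |u3|) / r * (t - s)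
    rw [key]
    exact ⟨by linarith [hf.1], hf.2⟩
  · intro x hx
    have hx0 : y x = 0 := max_eq_right (by linarith)
    simp [hx0]
  · show u1 / r * y q ^ 3 / 6 + u2 / r ^ 2 * y q ^ 4 / 12 + u3 / r ^ 3 * y q ^ 5 / 20 = e0
    rw [hyq]
    have : e0 = r ^ 2 * E0 := by rw [hE0]; field_simp
    rw [this, hu1, hu2, hu3]
    field_simp
    ring
  · show u1 / r * y q ^ 2 / 2 + u2 / r ^ 2 * y q ^ 3 / 3 + u3 / r ^ 3 * y q ^ 4 / 4 = e1
    rw [hyq]
    have : e1 = r * E1 := by rw [hE1]; field_simp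
    rw [this, hu1, hu2, hu3]
    field_simp
    ring
  · show u1 / r * y q + u2 / r ^ 2 * y q ^ 2 + u3 / r ^ 3 * y q ^ 3 = e2
    rw [hyq, hu1, hu2, hu3]
    field_simp
    ring
  · intro x _ hx
    have g0 := hw0 x
    have g1 := hw1 x hx
    set w := y x / r with hw
    have p2 : 0 ≤ w ^ 2 := by positivity
    have p3 : 0 ≤ w ^ 3 := by positivity
    have p4 : 0 ≤ w ^ 4 := by positivity
    have p5 : 0 ≤ w ^ 5 := by positivity
    have q2 : w ^ 2 ≤ 1 := pow_le_one₀ g0 g1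
    have q3 : w ^ 3 ≤ 1 := pow_le_one₀ g0 g1
    have q4 : w ^ 4 ≤ 1 := pow_le_one₀ g0 g1
    have q5 : w ^ 5 ≤ 1 := pow_le_one₀ g0 g1
    have hyw : y x = r * w := by rw [hw]; field_simp
    refine ⟨?_, ?_, ?_⟩
    · show |u1 / r * y x ^ 3 / 6 + u2 / r ^ 2 * y x ^ 4 / 12 + u3 / r ^ 3 * y x ^ 5 / 20| ≤ ε
      have e : u1 / r * y x ^ 3 / 6 + u2 / r ^ 2 * y x ^ 4 / 12 + u3 / r ^ 3 * y x ^ 5 / 20 =
          r ^ 2 * (u1 * (w ^ 3 / 6) + u2 * (w ^ 4 / 12) + u3 * (w ^ 5 / 20)) := by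
        rw [hyw]
        field_simp
      rw [e, abs_mul, abs_of_nonneg (by positivity : 0 ≤ r ^ 2)]
      have := B1b_abs (u1 := u1) (u2 := u2) (u3 := u3) (w1 := w ^ 3 / 6) (w2 := w ^ 4 / 12) (w3 := w ^ 5 / 20)
        (by positivity) (by linarith) (by positivity) (by linarith) (by positivity) (by linarith)
      have h5 := mul_le_mul_of_nonneg_left this (by positivity : 0 ≤ r ^ 2)
      rw [← hSd] at h5
      linarith
    · show |u1 / r * y x ^ 2 / 2 + u2 / r ^ 2 * y x ^ 3 / 3 + u3 / r ^ 3 * y x ^ 4 / 4| ≤ ε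
      have e : u1 / r * y x ^ 2 / 2 + u2 / r ^ 2 * y x ^ 3 / 3 + u3 / r ^ 3 * y x ^ 4 / 4 =
          r * (u1 * (w ^ 2 / 2) + u2 * (w ^ 3 / 3) + u3 * (w ^ 4 / 4)) := by
        rw [hyw]
        field_simp
      rw [e, abs_mul, abs_of_nonneg hr0.le]
      have := B1b_abs (u1 := u1) (u2 := u2) (u3 := u3) (w1 := w ^ 2 / 2) (w2 := w ^ 3 / 3) (w3 := w ^ 4 / 4)
        (by positivity) (by linarith) (by positivity) (by linarith) (by positivity) (by linarith)
      have h5 := mul_le_mul_of_nonneg_left this hr0.le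
      rw [← hSd] at h5
      linarith
    · show |u1 / r * y x + u2 / r ^ 2 * y x ^ 2 + u3 / r ^ 3 * y x ^ 3| ≤ ε
      have e : u1 / r * y x + u2 / r ^ 2 * y x ^ 2 + u3 / r ^ 3 * y x ^ 3 =
          u1 * w + u2 * w ^ 2 + u3 * w ^ 3 := by
        rw [hyw]
        field_simp
      rw [e]
      have := B1b_abs (u1 := u1) (u2 := u2) (u3 := u3) (w1 := w) (w2 := w ^ 2) (w3 := w ^ 3)
        g0 g1 p2 q2 p3 q3
      rw [← hSd] at this
      linarith

end MP44e4f6
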