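import Mathlib
import Pool.Agent.Lib.MP_44e4f6_lc.B0
import Pool.Agent.Lib.MP_44e4f6_lc.B1a
import Pool.Agent.Lib.MP_44e4f6_lc.B1b

/-!
LEAF B2. Proof. `nice2, nice1, nice0, free`: subtract the Taylor polynomial of degree 2 at `p`:
`r x := h x - h p - v p (x - p) - a p (x - p)²/2`, `s x := v x - v p - a p (x - p)`, `α x := a x - a p` is a path with zero
`2`-jet at `p`. In `nice_k` the `k`-th derivative of `r` is `≥ 0` on `[p, q]` and `> 0` at `q`, so it is `≥ δ > 0` on `[m, q]` for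
some `p < m < q` (continuity). Apply `corr` (with `δ/2` and `ε/2`, take the minimum) and then `stek` (with
`min η (min (ε/2) (δ/2))`) and add: `R := Rs + X` and so on with `(e0, e1, e2) := (r q - Rs q, ...)`. On `[p, m]` the correction
vanishes and `stek` gives `≥ 0`; on `[m, q]` closeness gives `≥ δ - δ/2 - δ/2 = 0`. Add the Taylor polynomial back. A common lemma
for the four statements (private, prefix B2) is the best way. `free` is the same without positivity (any `m`).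
-/

namespace MP44e4f6

open Set MeasureTheory intervalIntegral

private theorem B2_mk {h v a : ℝ → ℝ} (hc : Continuous a) (hv : ∀ x, HasDerivAt v (a x) x)
    (hh : ∀ x, HasDerivAt h (v x) x) : IsPath h v a := by
  have hvc : Continuous v := continuous_iff_continuousAt.2 fun x => (hv x).continuousAt
  refine ⟨hc, fun s x => ?_, fun s x => ?_⟩
  · rw [intervalIntegral.integral_eq_sub_of_hasDerivAt (fun t _ => hv t) (hc.intervalIntegrable _ _)]
    ring
  · rw [intervalIntegral.integral_eq_sub_of_hasDerivAt (fun t _ => hh t) (hvc.intervalIntegrable _ _)]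
    ring

private theorem B2_add {h v a h' v' a' : ℝ → ℝ} (P : IsPath h v a) (P' : IsPath h' v' a') :
    IsPath (fun x => h x + h' x) (fun x => v x + v' x) (fun x => a x + a' x) :=
  B2_mk (P.cont.add P'.cont) (fun x => (P.dv x).add (P'.dv x)) (fun x => (P.dh x).add (P'.dh x))

private theorem B2_taylor (p c0 c1 c2 : ℝ) :
    IsPath (fun x => c0 + c1 * (x - p) + c2 * (x - p) ^ 2 / 2) (fun x => c1 + c2 * (x - p))
      (fun _ => c2) := by
  refine B2_mk continuous_const (fun x => ?_) (fun x => ?_)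
  · have h1 : HasDerivAt (fun x : ℝ => x - p) 1 x := (hasDerivAt_id x).sub_const p
    have h2 := (h1.const_mul c2).const_add c1
    rwa [mul_one] at h2
  · have h1 : HasDerivAt (fun x : ℝ => x - p) 1 x := (hasDerivAt_id x).sub_const p
    have h2 := ((h1.const_mul c1).const_add c0).add (((h1.pow 2).const_mul c2).div_const 2)
    have e : c1 * 1 + c2 * ((2 : ℕ) * (x - p) ^ (2 - 1) * 1) / 2 = c1 + c2 * (x - p) := by
      push_cast
      ring
    rw [e] at h2
    exact h2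

private theorem B2_lip {s t : ℝ} {b b' : ℝ → ℝ} (h : Lp s t b) (h' : Lp s t b') :
    Lp s t (fun x => b x + b' x) := by
  obtain ⟨K, hK⟩ := h
  obtain ⟨K', hK'⟩ := h'
  refine ⟨K + K', fun x y h1 h2 h3 => ?_⟩
  have e1 := hK x y h1 h2 h3
  have e2 := hK' x y h1 h2 h3
  constructor
  · have : -(K + K') * (y - x) = -K * (y - x) + -K' * (y - x) := by ring
    rw [this]
    show _ ≤ b y + b' y - (b x + b' x)
    linarith [e1.1, e2.1]
  · have : (K + K') * (y - x) = K * (y - x) + K' * (y - x) := by ring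
    rw [this]
    show b y + b' y - (b x + b' x) ≤ _
    linarith [e1.2, e2.2]

private theorem B2_const (s t c : ℝ) : Lp s t (fun _ => c) :=
  ⟨0, fun x y _ _ _ => by constructor <;> simp⟩

private theorem B2_near {p q : ℝ} (hpq : p < q) {f : ℝ → ℝ} (hf : Continuous f) (hq : 0 < f q) :
    ∃ m, p ≤ m ∧ m < q ∧ ∀ x, m ≤ x → x ≤ q → f q / 2 ≤ f x := by
  have h1 : ∀ᶠ x in nhds q, f q / 2 < f x :=
    (hf.tendsto q).eventually (lt_mem_nhds (by linarith))
  obtain ⟨ρ, hρ, h2⟩ := Metric.eventually_nhds_iff.1 h1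
  refine ⟨max p (q - ρ / 2), le_max_left _ _, max_lt hpq (by linarith), fun x h3 h4 => ?_⟩
  have h5 : q - ρ / 2 ≤ x := (le_max_right _ _).trans h3
  refine (h2 ?_).le
  rw [Real.dist_eq, abs_lt]
  constructor <;> linarith

/-- the common part: everything for a path with a vanishing 2-jet at `p` -/
private theorem B2_core {p q m δ : ℝ} {r s a : ℝ → ℝ} (P : IsPath r s a) (hpq : p < q) (hr : r p = 0)
    (hs : s p = 0) (ha : a p = 0) (hpm : p ≤ m) (hmq : m < q) (hδ : 0 < δ) :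
    ∃ R S b : ℝ → ℝ, IsPath R S b ∧ Lp p q b ∧ R p = 0 ∧ S p = 0 ∧ b p = 0 ∧
      R q = r q ∧ S q = s q ∧ b q = a q ∧
      (∀ x, p ≤ x → x ≤ q → |R x - r x| ≤ δ ∧ |S x - s x| ≤ δ ∧ |b x - a x| ≤ δ) ∧
      ((∀ x, p ≤ x → x ≤ m → 0 ≤ r x) → ∀ x, p ≤ x → x ≤ m → 0 ≤ R x) ∧
      ((∀ x, p ≤ x → x ≤ m → 0 ≤ s x) → ∀ x, p ≤ x → x ≤ m → 0 ≤ S x) ∧
      ((∀ x, p ≤ x → x ≤ m → 0 ≤ a x) → ∀ x, p ≤ x → x ≤ m → 0 ≤ b x) := by
  obtain ⟨η, hη, hcorr⟩ := corr hpm hmq (half_pos hδ)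
  obtain ⟨R, S, b, PR, hL, hR0, hS0, hb0, hcl, k0, k1, k2⟩ :=
    stek P hpq hr hs ha (lt_min hη (half_pos hδ))
  have hq := hcl q hpq.le le_rfl
  obtain ⟨X, Y, Z, PX, hLZ, hz, hXq, hYq, hZq, hXc⟩ := hcorr (r q - R q) (s q - S q) (a q - b q)
    (by rw [abs_sub_comm]; exact hq.1.trans (min_le_left _ _))
    (by rw [abs_sub_comm]; exact hq.2.1.trans (min_le_left _ _))
    (by rw [abs_sub_comm]; exact hq.2.2.trans (min_le_left _ _))
  have hzp := hz p hpm
  refine ⟨fun x => R x + X x, fun x => S x + Y x, fun x => b x + Z x, B2_add PR PX, B2_lip hL hLZ,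
    ?_, ?_, ?_, ?_, ?_, ?_, ?_, ?_, ?_, ?_⟩
  · show R p + X p = 0
    rw [hR0, hzp.1, add_zero]
  · show S p + Y p = 0
    rw [hS0, hzp.2.1, add_zero]
  · show b p + Z p = 0
    rw [hb0, hzp.2.2, add_zero]
  · show R q + X q = r q
    rw [hXq]
    ring
  · show S q + Y q = s q
    rw [hYq]
    ring
  · show b q + Z q = a q
    rw [hZq]
    ring
  · intro x h1 h2
    have e1 := hcl x h1 h2
    have e2 := hXc x h1 h2
    have h3 : min η (δ / 2) ≤ δ / 2 := min_le_right _ _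
    refine ⟨?_, ?_, ?_⟩
    · have e3 : R x + X x - r x = (R x - r x) + X x := by ring
      show |R x + X x - r x| ≤ δ
      rw [e3]
      have := abs_add_le (R x - r x) (X x)
      linarith [e1.1, e2.1]
    · have e3 : S x + Y x - s x = (S x - s x) + Y x := by ring
      show |S x + Y x - s x| ≤ δ
      rw [e3]
      have := abs_add_le (S x - s x) (Y x)
      linarith [e1.2.1, e2.2.1]
    · have e3 : b x + Z x - a x = (b x - a x) + Z x := by ring
      show |b x + Z x - a x| ≤ δ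
      rw [e3]
      have := abs_add_le (b x - a x) (Z x)
      linarith [e1.2.2, e2.2.2]
  · intro hk x h1 h2
    show 0 ≤ R x + X x
    rw [(hz x h2).1, add_zero]
    exact k0 m hmq.le hk x h1 h2
  · intro hk x h1 h2
    show 0 ≤ S x + Y x
    rw [(hz x h2).2.1, add_zero]
    exact k1 m hmq.le hk x h1 h2
  · intro hk x h1 h2
    show 0 ≤ b x + Z x
    rw [(hz x h2).2.2, add_zero]
    exact k2 m hmq.le hk x h1 h2

/-- the common part, with the Taylor polynomial added back -/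
private theorem B2_main {p q m ε δ : ℝ} {h v a : ℝ → ℝ} (P : IsPath h v a) (hpq : p < q) (hε : 0 < ε)
    (hpm : p ≤ m) (hmq : m < q) (hδ : 0 < δ) :
    ∃ H V b : ℝ → ℝ, Cl p q ε h v a H V b ∧
      (∀ x, p ≤ x → x ≤ q → |H x - h x| ≤ δ ∧ |V x - v x| ≤ δ ∧ |b x - a x| ≤ δ) ∧
      ((∀ x, p ≤ x → x ≤ m → h p + v p * (x - p) + a p * (x - p) ^ 2 / 2 ≤ h x) →
        ∀ x, p ≤ x → x ≤ m → h p + v p * (x - p) + a p * (x - p) ^ 2 / 2 ≤ H x) ∧
      ((∀ x, p ≤ x → x ≤ m → v p + a p * (x - p) ≤ v x) →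
        ∀ x, p ≤ x → x ≤ m → v p + a p * (x - p) ≤ V x) ∧
      ((∀ x, p ≤ x → x ≤ m → a p ≤ a x) → ∀ x, p ≤ x → x ≤ m → a p ≤ b x) := by
  have PT := B2_taylor p (-h p) (-v p) (-a p)
  have PT' := B2_taylor p (h p) (v p) (a p)
  obtain ⟨R, S, b, PR, hL, hR0, hS0, hb0, hRq, hSq, hbq, hcl, k0, k1, k2⟩ :=
    B2_core (m := m) (δ := min ε δ) (B2_add P PT) hpq
      (show h p + (-h p + -v p * (p - p) + -a p * (p - p) ^ 2 / 2) = 0 by ring)
      (show v p + (-v p + -a p * (p - p)) = 0 by ring)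
      (show a p + -a p = 0 by ring) hpm hmq (lt_min hε hδ)
  have hRq' : R q = h q + (-h p + -v p * (q - p) + -a p * (q - p) ^ 2 / 2) := hRq
  have hSq' : S q = v q + (-v p + -a p * (q - p)) := hSq
  have hbq' : b q = a q + -a p := hbq
  have hcl' : ∀ x, p ≤ x → x ≤ q →
      |R x + (h p + v p * (x - p) + a p * (x - p) ^ 2 / 2) - h x| ≤ min ε δ ∧
      |S x + (v p + a p * (x - p)) - v x| ≤ min ε δ ∧ |b x + a p - a x| ≤ min ε δ := by
    intro x h1 h2
    have e := hcl x h1 h2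
    refine ⟨?_, ?_, ?_⟩
    · have e1 : |R x - (h x + (-h p + -v p * (x - p) + -a p * (x - p) ^ 2 / 2))| ≤ min ε δ := e.1
      have e2 : R x + (h p + v p * (x - p) + a p * (x - p) ^ 2 / 2) - h x =
        R x - (h x + (-h p + -v p * (x - p) + -a p * (x - p) ^ 2 / 2)) := by ring
      rw [e2]
      exact e1
    · have e1 : |S x - (v x + (-v p + -a p * (x - p)))| ≤ min ε δ := e.2.1
      have e2 : S x + (v p + a p * (x - p)) - v x = S x - (v x + (-v p + -a p * (x - p))) := by ring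
      rw [e2]
      exact e1
    · have e1 : |b x - (a x + -a p)| ≤ min ε δ := e.2.2
      have e2 : b x + a p - a x = b x - (a x + -a p) := by ring
      rw [e2]
      exact e1
  refine ⟨fun x => R x + (h p + v p * (x - p) + a p * (x - p) ^ 2 / 2),
    fun x => S x + (v p + a p * (x - p)), fun x => b x + a p,
    ⟨B2_add PR PT', B2_lip hL (B2_const _ _ _), ?_, ?_, ?_, ?_, ?_, ?_, ?_⟩, ?_, ?_, ?_, ?_⟩
  · show R p + (h p + v p * (p - p) + a p * (p - p) ^ 2 / 2) = h p
    rw [hR0]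
    ring
  · show S p + (v p + a p * (p - p)) = v p
    rw [hS0]
    ring
  · show b p + a p = a p
    rw [hb0]
    ring
  · show R q + (h p + v p * (q - p) + a p * (q - p) ^ 2 / 2) = h q
    rw [hRq']
    ring
  · show S q + (v p + a p * (q - p)) = v q
    rw [hSq']
    ring
  · show b q + a p = a q
    rw [hbq']
    ring
  · exact fun x h1 h2 => (hcl' x h1 h2).2.2.trans (min_le_left _ _)
  · exact fun x h1 h2 => ⟨(hcl' x h1 h2).1.trans (min_le_right _ _),
      (hcl' x h1 h2).2.1.trans (min_le_right _ _), (hcl' x h1 h2).2.2.trans (min_le_right _ _)⟩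
  · intro hk x h1 h2
    have e := k0 (fun y g1 g2 => by
      show 0 ≤ h y + (-h p + -v p * (y - p) + -a p * (y - p) ^ 2 / 2)
      have := hk y g1 g2
      linarith) x h1 h2
    show _ ≤ R x + (h p + v p * (x - p) + a p * (x - p) ^ 2 / 2)
    linarith
  · intro hk x h1 h2
    have e := k1 (fun y g1 g2 => by
      show 0 ≤ v y + (-v p + -a p * (y - p))
      have := hk y g1 g2
      linarith) x h1 h2
    show _ ≤ S x + (v p + a p * (x - p))
    linarith
  · intro hk x h1 h2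
    have e := k2 (fun y g1 g2 => by
      show 0 ≤ a y + -a p
      have := hk y g1 g2
      linarith) x h1 h2
    show _ ≤ b x + a p
    linarith

theorem free {p q ε : ℝ} {h v a : ℝ → ℝ} (P : IsPath h v a) (hpq : p < q) (hε : 0 < ε) :
    ∃ H V b : ℝ → ℝ, Cl p q ε h v a H V b := by
  obtain ⟨H, V, b, hC, _⟩ := B2_main P hpq hε le_rfl hpq hε
  exact ⟨H, V, b, hC⟩

theorem nice2 {p q ε : ℝ} {h v a : ℝ → ℝ} (P : IsPath h v a) (hpq : p < q) (hε : 0 < ε)
    (hk : ∀ x, p ≤ x → x ≤ q → a p ≤ a x) (hq : a p < a q) :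
    ∃ H V b : ℝ → ℝ, Cl p q ε h v a H V b ∧ ∀ x, p ≤ x → x ≤ q → a p ≤ b x := by
  have hf : Continuous fun x => a x - a p := P.cont.sub continuous_const
  obtain ⟨m, hpm, hmq, hm⟩ := B2_near hpq hf (show 0 < a q - a p by linarith)
  obtain ⟨H, V, b, hC, hcl, _, _, k2⟩ :=
    B2_main P hpq hε hpm hmq (show 0 < (a q - a p) / 2 by linarith)
  refine ⟨H, V, b, hC, fun x h1 h2 => ?_⟩
  rcases le_total x m with h3 | h3
  · exact k2 (fun y g1 g2 => hk y g1 (g2.trans hmq.le)) x h1 h3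
  · have e1 := (abs_le.1 (hcl x h1 h2).2.2).1
    have e2 : (a q - a p) / 2 ≤ a x - a p := hm x h3 h2
    linarith

theorem nice1 {p q ε : ℝ} {h v a : ℝ → ℝ} (P : IsPath h v a) (hpq : p < q) (hε : 0 < ε)
    (ha : a p = 0) (hk : ∀ x, p ≤ x → x ≤ q → v p ≤ v x) (hq : v p < v q) :
    ∃ H V b : ℝ → ℝ, Cl p q ε h v a H V b ∧ ∀ x, p ≤ x → x ≤ q → v p ≤ V x := by
  have hf : Continuous fun x => v x - v p := P.vcont.sub continuous_const
  obtain ⟨m, hpm, hmq, hm⟩ := B2_near hpq hf (show 0 < v q - v p by linarith)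
  obtain ⟨H, V, b, hC, hcl, _, k1, _⟩ :=
    B2_main P hpq hε hpm hmq (show 0 < (v q - v p) / 2 by linarith)
  refine ⟨H, V, b, hC, fun x h1 h2 => ?_⟩
  rcases le_total x m with h3 | h3
  · have e := k1 (fun y g1 g2 => by
      rw [ha, zero_mul, add_zero]
      exact hk y g1 (g2.trans hmq.le)) x h1 h3
    rwa [ha, zero_mul, add_zero] at e
  · have e1 := (abs_le.1 (hcl x h1 h2).2.1).1
    have e2 : (v q - v p) / 2 ≤ v x - v p := hm x h3 h2
    linarith

theorem nice0 {p q ε : ℝ} {h v a : ℝ → ℝ} (P : IsPath h v a) (hpq : p < q) (hε : 0 < ε)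
    (ha : a p = 0) (hv : v p = 0) (hk : ∀ x, p ≤ x → x ≤ q → h p ≤ h x) (hq : h p < h q) :
    ∃ H V b : ℝ → ℝ, Cl p q ε h v a H V b ∧ ∀ x, p ≤ x → x ≤ q → h p ≤ H x := by
  have hh : Continuous h := continuous_iff_continuousAt.2 fun x => (P.dh x).continuousAt
  have hf : Continuous fun x => h x - h p := hh.sub continuous_const
  obtain ⟨m, hpm, hmq, hm⟩ := B2_near hpq hf (show 0 < h q - h p by linarith)
  obtain ⟨H, V, b, hC, hcl, k0, _, _⟩ :=
    B2_main P hpq hε hpm hmq (show 0 < (h q - h p) / 2 by linarith)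
  refine ⟨H, V, b, hC, fun x h1 h2 => ?_⟩
  rcases le_total x m with h3 | h3
  · have e := k0 (fun y g1 g2 => by
      rw [ha, hv, zero_mul, zero_mul, zero_div, add_zero, add_zero]
      exact hk y g1 (g2.trans hmq.le)) x h1 h3
    rwa [ha, hv, zero_mul, zero_mul, zero_div, add_zero, add_zero] at e
  · have e1 := (abs_le.1 (hcl x h1 h2).1).1
    have e2 : (h q - h p) / 2 ≤ h x - h p := hm x h3 h2
    linarith

end MP44e4f6
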