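import Mathlib
import Pool.Agent.Lib.MP_44e4f6_lc.B0
import Pool.Agent.Lib.MP_44e4f6_lc.B2

/-!
LEAF B3. Proof. `Cl.glue`: as `GRepl.glue` in Glob.lean (the glued second derivative is `if x ≤ m then b1 x else b2 x`,
`SB.glue` for the Lipschitz bound with the larger constant, `SB.weaken`). `Cl.self`: `(h, v, a)` itself if `a` is constant on
`[p, q]`. `Cl.reflect`: by `IsPath.reflect` (Loc.lean), `SB.reflect`. `Cl.neg`: `IsPath.neg`.

`loc2` (`p < q < q'`): if `a` is constant on `[p, q]`: `Cl.self`. If `a p < a q`: `nice2`. Otherwise `a q = a p` (from `hk`) and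
there is `z` in `(p, q)` with `a p < a z`: `nice2` on `[p, z]`, and `nice2` for the reflected path `(h (-x), -v (-x), a (-x))` on
`[-q, -z]`, glue.
`loc1` (`a p = 0`, `v p ≤ v x` on `[p, q']`): if `v` is constant on `[p, q]`, then `a = 0` there (derivative; `zero_of_const` in
Loc.lean) and `Cl.self`. If `v p < v q`: `nice1`. Otherwise `v q = v p` and `q` is an interior minimum of `v`, so `a q = 0`; take
`z` in `(p, q)` with `v p < v z`: `nice1` on `[p, z]`, and `nice1` for the path `(-h (-x), v (-x), -a (-x))` (reflected and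
negated) on `[-q, -z]`, glue.
`loc0` (`a p = v p = 0`, `h p ≤ h x` on `[p, q']`): if `h` is constant on `[p, q]`: then `v = 0`, `a = 0`, `Cl.self`. If `h p < h q`:
`nice0`. Otherwise `h q = h p`, `q` is an interior minimum of `h`: `v q = 0`, and `a q ≥ 0` (if `a q < 0` then `h < h q` near `q`;
`low0`, `low1` in Loc.lean are such lemmas to the right of a point: `low0` applied at `q` gives it). If `a q = 0`: as before with
`nice0` for `(h (-x), -v (-x), a (-x))`. If `a q > 0`: take `z` in `(p, q)` near `q` with `a x ≥ c > 0` on `[z, q]`; then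
`h z > h q = h p` (strict: `v < 0` on `[z, q)`), `nice0` on `[p, z]`, `free` on `[z, q]` with `min ε c`: there `b ≥ 0`, so `V ≤ V q =
0` and `H ≥ H q`.
-/

namespace MP44e4f6

open Set MeasureTheory intervalIntegral

theorem Cl.glue {p m q ε : ℝ} {h v a H1 V1 b1 H2 V2 b2 : ℝ → ℝ} (hpm : p ≤ m) (hmq : m ≤ q)
    (A : Cl p m ε h v a H1 V1 b1) (B : Cl m q ε h v a H2 V2 b2) :
    ∃ H V b : ℝ → ℝ, Cl p q ε h v a H V b ∧
      (∀ x, x ≤ m → H x = H1 x ∧ V x = V1 x ∧ b x = b1 x) ∧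
      (∀ x, m ≤ x → H x = H2 x ∧ V x = V2 x ∧ b x = b2 x) := by
  obtain ⟨Q1, ⟨K1, S1⟩, i1, i2, i3, i4, i5, i6, c1⟩ := A
  obtain ⟨Q2, ⟨K2, S2⟩, j1, j2, j3, j4, j5, j6, c2⟩ := B
  set b : ℝ → ℝ := fun x => if x ≤ m then b1 x else b2 x with hb
  have hbc : Continuous b := by
    apply Continuous.if_le Q1.cont Q2.cont continuous_id continuous_const
    intro x hx
    have hx' : x = m := hx
    rw [hx', i6, j3]
  have hbl : ∀ x, x ≤ m → b x = b1 x := fun x hx => if_pos hx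
  have hbr : ∀ x, m ≤ x → b x = b2 x := by
    intro x hx
    rcases eq_or_lt_of_le hx with hx' | hx'
    · rw [← hx', hbl m le_rfl, i6, j3]
    · exact if_neg (not_le.2 hx')
  have Q := isPath_mk hbc m (h m) (v m)
  set V : ℝ → ℝ := fun x => v m + ∫ y in m..x, b y with hV
  set H : ℝ → ℝ := fun x => h m + ∫ t in m..x, (v m + ∫ y in m..t, b y) with hH
  have hVl : ∀ x, x ≤ m → V x = V1 x := by
    intro x hx
    rw [Q1.hv m x, i5]
    show v m + ∫ y in m..x, b y = _
    congr 1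
    apply intervalIntegral.integral_congr
    intro y hy
    rw [uIcc_of_ge hx] at hy
    exact hbl y hy.2
  have hVr : ∀ x, m ≤ x → V x = V2 x := by
    intro x hx
    rw [Q2.hv m x, j2]
    show v m + ∫ y in m..x, b y = _
    congr 1
    apply intervalIntegral.integral_congr
    intro y hy
    rw [uIcc_of_le hx] at hy
    exact hbr y hy.1
  have hHl : ∀ x, x ≤ m → H x = H1 x := by
    intro x hx
    rw [Q1.hh m x, i4]
    show h m + ∫ t in m..x, V t = _
    congr 1
    apply intervalIntegral.integral_congr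
    intro y hy
    rw [uIcc_of_ge hx] at hy
    exact hVl y hy.2
  have hHr : ∀ x, m ≤ x → H x = H2 x := by
    intro x hx
    rw [Q2.hh m x, j1]
    show h m + ∫ t in m..x, V t = _
    congr 1
    apply intervalIntegral.integral_congr
    intro y hy
    rw [uIcc_of_le hx] at hy
    exact hVr y hy.1
  refine ⟨H, V, b, ⟨Q, ⟨max K1 K2, ?_⟩, ?_, ?_, ?_, ?_, ?_, ?_, ?_⟩,
    fun x hx => ⟨hHl x hx, hVl x hx, hbl x hx⟩, fun x hx => ⟨hHr x hx, hVr x hx, hbr x hx⟩⟩
  · exact ((S1.weaken (neg_le_neg (le_max_left K1 K2)) (le_max_left K1 K2)).congr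
      (fun x _ h2 => hbl x h2)).glue
      ((S2.weaken (neg_le_neg (le_max_right K1 K2)) (le_max_right K1 K2)).congr
      (fun x h1 _ => hbr x h1))
  · rw [hHl p hpm, i1]
  · rw [hVl p hpm, i2]
  · rw [hbl p hpm, i3]
  · rw [hHr q hmq, j4]
  · rw [hVr q hmq, j5]
  · rw [hbr q hmq, j6]
  · intro x hx hx'
    rcases le_total x m with h0 | h0
    · rw [hbl x h0]; exact c1 x hx h0
    · rw [hbr x h0]; exact c2 x h0 hx'

private theorem B3_self {p q ε : ℝ} {h v a : ℝ → ℝ} (P : IsPath h v a) (hε : 0 ≤ ε)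
    (hc : ∀ x, p ≤ x → x ≤ q → a x = a p) : Cl p q ε h v a h v a :=
  ⟨P, ⟨0, fun x y h1 h2 h3 => by
    rw [hc x h1 (h2.trans h3), hc y (h1.trans h2) h3]; simp⟩, rfl, rfl, rfl, rfl, rfl, rfl,
    fun x _ _ => by simpa using hε⟩

private theorem B3_refl {p q ε : ℝ} {h v a H V b : ℝ → ℝ} (A : Cl p q ε h v a H V b) :
    Cl (-q) (-p) ε (fun x => h (-x)) (fun x => - v (-x)) (fun x => a (-x))
      (fun x => H (-x)) (fun x => - V (-x)) (fun x => b (-x)) := by
  obtain ⟨Q, ⟨K, S⟩, i1, i2, i3, i4, i5, i6, c⟩ := A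
  refine ⟨Q.reflect, ⟨K, ?_⟩, ?_, ?_, ?_, ?_, ?_, ?_, ?_⟩
  · have := S.reflect
    rwa [neg_neg] at this
  · show H (- -q) = h (- -q)
    rw [neg_neg, i4]
  · show - V (- -q) = - v (- -q)
    rw [neg_neg, i5]
  · show b (- -q) = a (- -q)
    rw [neg_neg, i6]
  · show H (- -p) = h (- -p)
    rw [neg_neg, i1]
  · show - V (- -p) = - v (- -p)
    rw [neg_neg, i2]
  · show b (- -p) = a (- -p)
    rw [neg_neg, i3]
  · intro x hx hx'
    exact c (-x) (by linarith) (by linarith)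

private theorem B3_neg {p q ε : ℝ} {h v a H V b : ℝ → ℝ} (A : Cl p q ε h v a H V b) :
    Cl p q ε (fun x => - h x) (fun x => - v x) (fun x => - a x)
      (fun x => - H x) (fun x => - V x) (fun x => - b x) := by
  obtain ⟨Q, ⟨K, S⟩, i1, i2, i3, i4, i5, i6, c⟩ := A
  refine ⟨Q.neg, ⟨K, ?_⟩, ?_, ?_, ?_, ?_, ?_, ?_, ?_⟩
  · have := S.neg
    rwa [neg_neg] at this
  · show - H p = - h p
    rw [i1]
  · show - V p = - v p
    rw [i2]
  · show - b p = - a p
    rw [i3]
  · show - H q = - h q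
    rw [i4]
  · show - V q = - v q
    rw [i5]
  · show - b q = - a q
    rw [i6]
  · intro x hx hx'
    show |- b x - - a x| ≤ ε
    have e : - b x - - a x = - (b x - a x) := by ring
    rw [e, abs_neg]
    exact c x hx hx'

private theorem B3_weak {p q ε ε' : ℝ} {h v a H V b : ℝ → ℝ} (A : Cl p q ε h v a H V b)
    (hle : ε ≤ ε') : Cl p q ε' h v a H V b :=
  ⟨A.path, A.lip, A.h0, A.v0, A.a0, A.h1, A.v1, A.a1, fun x h1 h2 => (A.cl x h1 h2).trans hle⟩

private theorem B3_back {z q ε : ℝ} {h v a H V b : ℝ → ℝ}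
    (A : Cl (-q) (-z) ε (fun x => h (-x)) (fun x => - v (-x)) (fun x => a (-x)) H V b) :
    Cl z q ε h v a (fun x => H (-x)) (fun x => - V (-x)) (fun x => b (-x)) := by
  simpa using B3_refl A

private theorem B3_back' {z q ε : ℝ} {h v a H V b : ℝ → ℝ}
    (A : Cl (-q) (-z) ε (fun x => - h (-x)) (fun x => - - v (-x)) (fun x => - a (-x)) H V b) :
    Cl z q ε h v a (fun x => - H (-x)) (fun x => V (-x)) (fun x => - b (-x)) := by
  simpa using B3_refl (B3_neg A)

theorem loc2 {p q q' ε : ℝ} {h v a : ℝ → ℝ} (P : IsPath h v a) (hpq : p < q) (hqq : q < q') (hε : 0 < ε)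
    (hk : ∀ x, p ≤ x → x ≤ q' → a p ≤ a x) :
    ∃ H V b : ℝ → ℝ, Cl p q ε h v a H V b ∧ ∀ x, p ≤ x → x ≤ q → a p ≤ b x := by
  by_cases hc : ∀ x, p ≤ x → x ≤ q → a x = a p
  · exact ⟨h, v, a, B3_self P hε.le hc, fun x h1 h2 => hk x h1 (h2.trans hqq.le)⟩
  rcases (hk q hpq.le hqq.le).lt_or_eq with hq | hq
  · exact nice2 P hpq hε (fun x h1 h2 => hk x h1 (h2.trans hqq.le)) hq
  push Not at hc
  obtain ⟨z, hz1, hz2, hz3⟩ := hc
  have hpz : p < z := lt_of_le_of_ne hz1 (fun e => hz3 (by rw [← e]))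
  have hzq : z < q := lt_of_le_of_ne hz2 (fun e => hz3 (by rw [e, ← hq]))
  have haz : a p < a z := lt_of_le_of_ne (hk z hz1 (hz2.trans hqq.le)) (Ne.symm hz3)
  obtain ⟨H1, V1, b1, A, hA⟩ := nice2 P hpz hε (fun x h1 h2 => hk x h1 (h2.trans (hz2.trans hqq.le))) haz
  obtain ⟨H2, V2, b2, B, hB⟩ := nice2 P.reflect (neg_lt_neg hzq) hε (fun x h1 h2 => by
    show a (- -q) ≤ a (-x)
    rw [neg_neg, ← hq]
    exact hk (-x) (by linarith) (by linarith)) (by
    show a (- -q) < a (- -z)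
    rw [neg_neg, neg_neg, ← hq]
    exact haz)
  obtain ⟨H, V, b, C, hl, hr⟩ := Cl.glue hpz.le hzq.le A (B3_back B)
  refine ⟨H, V, b, C, fun x h1 h2 => ?_⟩
  rcases le_total x z with h0 | h0
  · rw [(hl x h0).2.2]
    exact hA x h1 h0
  · rw [(hr x h0).2.2]
    have h3 := hB (-x) (by linarith) (by linarith)
    have h4 : a (- -q) ≤ b2 (-x) := h3
    rw [neg_neg, ← hq] at h4
    exact h4

theorem loc1 {p q q' ε : ℝ} {h v a : ℝ → ℝ} (P : IsPath h v a) (hpq : p < q) (hqq : q < q') (hε : 0 < ε)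
    (ha : a p = 0) (hk : ∀ x, p ≤ x → x ≤ q' → v p ≤ v x) :
    ∃ H V b : ℝ → ℝ, Cl p q ε h v a H V b ∧ ∀ x, p ≤ x → x ≤ q → v p ≤ V x := by
  by_cases hc : ∀ x, p ≤ x → x ≤ q → v x = v p
  · have h0 := zero_of_const P.dv hpq hc
    exact ⟨h, v, a, B3_self P hε.le (fun x h1 h2 => by rw [h0 x h1 h2, ha]),
      fun x h1 h2 => hk x h1 (h2.trans hqq.le)⟩
  rcases (hk q hpq.le hqq.le).lt_or_eq with hq | hq
  · exact nice1 P hpq hε ha (fun x h1 h2 => hk x h1 (h2.trans hqq.le)) hq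
  push Not at hc
  obtain ⟨z, hz1, hz2, hz3⟩ := hc
  have hpz : p < z := lt_of_le_of_ne hz1 (fun e => hz3 (by rw [← e]))
  have hzq : z < q := lt_of_le_of_ne hz2 (fun e => hz3 (by rw [e, ← hq]))
  have hvz : v p < v z := lt_of_le_of_ne (hk z hz1 (hz2.trans hqq.le)) (Ne.symm hz3)
  have hmin : IsLocalMin v q := by
    filter_upwards [Ioo_mem_nhds hpq hqq] with x hx
    rw [← hq]
    exact hk x hx.1.le hx.2.le
  have haq : a q = 0 := hmin.hasDerivAt_eq_zero (P.dv q)
  obtain ⟨H1, V1, b1, A, hA⟩ := nice1 P hpz hε ha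
    (fun x h1 h2 => hk x h1 (h2.trans (hz2.trans hqq.le))) hvz
  obtain ⟨H2, V2, b2, B, hB⟩ := nice1 P.reflect.neg (neg_lt_neg hzq) hε (by
    show - a (- -q) = 0
    rw [neg_neg, haq, neg_zero]) (fun x h1 h2 => by
    show - - v (- -q) ≤ - - v (-x)
    rw [neg_neg, neg_neg, neg_neg, ← hq]
    exact hk (-x) (by linarith) (by linarith)) (by
    show - - v (- -q) < - - v (- -z)
    rw [neg_neg, neg_neg, neg_neg, neg_neg, ← hq]
    exact hvz)
  obtain ⟨H, V, b, C, hl, hr⟩ := Cl.glue hpz.le hzq.le A (B3_back' B)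
  refine ⟨H, V, b, C, fun x h1 h2 => ?_⟩
  rcases le_total x z with h0 | h0
  · rw [(hl x h0).2.1]
    exact hA x h1 h0
  · rw [(hr x h0).2.1]
    have h4 : - - v (- -q) ≤ V2 (-x) := hB (-x) (by linarith) (by linarith)
    rw [neg_neg, neg_neg, ← hq] at h4
    exact h4

theorem loc0 {p q q' ε : ℝ} {h v a : ℝ → ℝ} (P : IsPath h v a) (hpq : p < q) (hqq : q < q') (hε : 0 < ε)
    (ha : a p = 0) (hv : v p = 0) (hk : ∀ x, p ≤ x → x ≤ q' → h p ≤ h x) :
    ∃ H V b : ℝ → ℝ, Cl p q ε h v a H V b ∧ ∀ x, p ≤ x → x ≤ q → h p ≤ H x := by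
  by_cases hc : ∀ x, p ≤ x → x ≤ q → h x = h p
  · have h0 := zero_of_const P.dh hpq hc
    have h1 := zero_of_const P.dv hpq (fun x h1 h2 => by rw [h0 x h1 h2, hv])
    exact ⟨h, v, a, B3_self P hε.le (fun x h2 h3 => by rw [h1 x h2 h3, ha]),
      fun x h1 h2 => hk x h1 (h2.trans hqq.le)⟩
  rcases (hk q hpq.le hqq.le).lt_or_eq with hq | hq
  · exact nice0 P hpq hε ha hv (fun x h1 h2 => hk x h1 (h2.trans hqq.le)) hq
  push Not at hc
  obtain ⟨z0, hz1, hz2, hz3⟩ := hc
  have hpz0 : p < z0 := lt_of_le_of_ne hz1 (fun e => hz3 (by rw [← e]))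
  have hzq0 : z0 < q := lt_of_le_of_ne hz2 (fun e => hz3 (by rw [e, ← hq]))
  have hhz0 : h p < h z0 := lt_of_le_of_ne (hk z0 hz1 (hz2.trans hqq.le)) (Ne.symm hz3)
  have hmin : IsLocalMin h q := by
    filter_upwards [Ioo_mem_nhds hpq hqq] with x hx
    rw [← hq]
    exact hk x hx.1.le hx.2.le
  have hvq : v q = 0 := hmin.hasDerivAt_eq_zero (P.dh q)
  have haq : 0 ≤ a q := (low0 P hqq (fun x h1 h2 => by
    rw [← hq]
    exact hk x (hpq.le.trans h1) h2)).2 hvq
  rcases haq.eq_or_lt with haq0 | haq0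
  · obtain ⟨H1, V1, b1, A, hA⟩ := nice0 P hpz0 hε ha hv
      (fun x h1 h2 => hk x h1 (h2.trans (hz2.trans hqq.le))) hhz0
    obtain ⟨H2, V2, b2, B, hB⟩ := nice0 P.reflect (neg_lt_neg hzq0) hε (by
      show a (- -q) = 0
      rw [neg_neg, ← haq0]) (by
      show - v (- -q) = 0
      rw [neg_neg, hvq, neg_zero]) (fun x h1 h2 => by
      show h (- -q) ≤ h (-x)
      rw [neg_neg, ← hq]
      exact hk (-x) (by linarith) (by linarith)) (by
      show h (- -q) < h (- -z0)
      rw [neg_neg, neg_neg, ← hq]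
      exact hhz0)
    obtain ⟨H, V, b, C, hl, hr⟩ := Cl.glue hpz0.le hzq0.le A (B3_back B)
    refine ⟨H, V, b, C, fun x h1 h2 => ?_⟩
    rcases le_total x z0 with h0 | h0
    · rw [(hl x h0).1]
      exact hA x h1 h0
    · rw [(hr x h0).1]
      have h4 : h (- -q) ≤ H2 (-x) := hB (-x) (by linarith) (by linarith)
      rw [neg_neg, ← hq] at h4
      exact h4
  · obtain ⟨δ, hδ, hd⟩ := Metric.continuousAt_iff.1 (P.cont.continuousAt (x := q)) (a q / 2)
      (by linarith)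
    set z := max ((p + q) / 2) (q - δ / 2) with hz
    have hpz : p < z := lt_of_lt_of_le (by linarith) (le_max_left _ _)
    have hzq : z < q := max_lt (by linarith) (by linarith)
    have hac : ∀ x, z ≤ x → x ≤ q → a q / 2 ≤ a x := by
      intro x hx hx'
      have h1 : q - δ / 2 ≤ z := le_max_right _ _
      have h2 : dist x q < δ := by
        rw [Real.dist_eq, abs_lt]
        constructor <;> linarith
      have h3 := hd h2
      rw [Real.dist_eq, abs_lt] at h3
      linarith [h3.1]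
    have hvneg : ∀ x, z ≤ x → x ≤ q → v x ≤ 0 := by
      intro x hx hx'
      have := P.mono_v hx' (fun t h1 h2 => (by linarith : (0:ℝ) ≤ a q / 2).trans
        (hac t (hx.trans h1) h2))
      rwa [hvq] at this
    have hhz : h p < h z := by
      refine lt_of_le_of_ne (hk z hpz.le (hzq.le.trans hqq.le)) (fun e => ?_)
      have h1 := v_zero_of P.neg hzq (fun x h1 h2 => by
        show 0 ≤ - v x
        linarith [hvneg x h1 h2]) (fun x h1 h2 => by
        show - h x ≤ - h z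
        rw [← e]
        exact neg_le_neg (hk x (hpz.le.trans h1) (h2.trans hqq.le)))
      have h2 : ∀ x, z ≤ x → x ≤ q → v x = v z := by
        intro x h3 h4
        have h5 : - v x = 0 := h1 x h3 h4
        have h6 : - v z = 0 := h1 z le_rfl hzq.le
        linarith
      have h3 := zero_of_const P.dv hzq h2 z le_rfl hzq.le
      have h4 := hac z le_rfl hzq.le
      linarith
    obtain ⟨H1, V1, b1, A, hA⟩ := nice0 P hpz hε ha hv
      (fun x h1 h2 => hk x h1 (h2.trans (hzq.le.trans hqq.le))) hhz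
    obtain ⟨H2, V2, b2, B⟩ := free (ε := min ε (a q / 2)) P hzq (lt_min hε (by linarith))
    obtain ⟨H, V, b, C, hl, hr⟩ := Cl.glue hpz.le hzq.le A (B3_weak B (min_le_left _ _))
    refine ⟨H, V, b, C, fun x h1 h2 => ?_⟩
    rcases le_total x z with h0 | h0
    · rw [(hl x h0).1]
      exact hA x h1 h0
    · rw [(hr x h0).1]
      have hb2 : ∀ t, z ≤ t → t ≤ q → 0 ≤ b2 t := by
        intro t h3 h4
        have h5 := B.cl t h3 h4
        have h6 := hac t h3 h4
        have h7 := min_le_right ε (a q / 2)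
        rw [abs_le] at h5
        linarith [h5.1]
      have hV2 : ∀ t, z ≤ t → t ≤ q → V2 t ≤ 0 := by
        intro t h3 h4
        have h5 := B.path.mono_v h4 (fun s h6 h7 => hb2 s (h3.trans h6) h7)
        rwa [B.v1, hvq] at h5
      have h8 := B.path.neg.mono_h h2 (fun s h6 h7 => by
        show 0 ≤ - V2 s
        linarith [hV2 s (h0.trans h6) h7])
      have h9 : - H2 x ≤ - H2 q := h8
      rw [B.h1, ← hq] at h9
      linarith

end MP44e4f6
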