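import Mathlib
import Pool.Agent.Lib.MP_44e4f6_lc.B0

/-!
LEAF B4. Proof. `nearB`: `|b x - a p| ≤ ε0 + |a x - a p|` and continuity of `a`; then `|V x - v p| = |∫_p^x b| ≤ (|a p| + ε) (x - p)`
and `|H x - h p| ≤ (|v p| + ε) (x - p)` (compare `near` in Loc.lean).
`finishB`: adapt `lowhalf` and `finish` of Loc2.lean (there the hypothesis `SB l u p q b` is only used through `near`; use `nearB`
instead; the part about `C2` by `mem_of_near o2`).
-/

namespace MP44e4f6

open Set MeasureTheory intervalIntegral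

theorem nearB {p ε : ℝ} {h v a : ℝ → ℝ} (P : IsPath h v a) (hε : 0 < ε) :
    ∃ δ > 0, ∃ ε0 > 0, ∀ q, p ≤ q → q < p + δ → ∀ H V b : ℝ → ℝ, IsPath H V b → H p = h p →
      V p = v p → b p = a p → (∀ x, p ≤ x → x ≤ q → |b x - a x| ≤ ε0) →
      ∀ x, p ≤ x → x ≤ q → |b x - a p| < ε ∧ |V x - v p| < ε ∧ |H x - h p| < ε := by
  obtain ⟨δa, hδa, hda⟩ := Metric.continuousAt_iff.1 (P.cont.continuousAt (x := p)) (ε / 4) (by linarith)
  set A := |a p| + ε with hA
  set B := |v p| + A with hB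
  have hA0 : 0 < A := by positivity
  have hB0 : 0 < B := by positivity
  set δ := min δa (min 1 (ε / (A + B))) with hδ
  have hδ0 : 0 < δ := lt_min hδa (lt_min one_pos (by positivity))
  refine ⟨δ, hδ0, ε / 4, by linarith, ?_⟩
  intro q hpq hq H V b hP hHp hVp hbp hcl x hx hx'
  have hxδ : x - p < δ := by linarith
  have hx1 : x - p ≤ 1 := by
    have h1 : δ ≤ min 1 (ε / (A + B)) := min_le_right _ _
    have h2 := min_le_left 1 (ε / (A + B))
    linarith
  have hx2 : (x - p) * (A + B) < ε := by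
    have h1 : δ ≤ min 1 (ε / (A + B)) := min_le_right _ _
    have h2 : min 1 (ε / (A + B)) ≤ ε / (A + B) := min_le_right _ _
    have h3 : x - p < ε / (A + B) := by linarith
    rwa [lt_div_iff₀ (by positivity)] at h3
  have hb : ∀ y, p ≤ y → y ≤ x → |b y - a p| ≤ ε / 2 := by
    intro y hy hy'
    have h1 := hcl y hy (hy'.trans hx')
    have h2 : |a y - a p| < ε / 4 := by
      have h3 : dist y p < δa := by
        rw [Real.dist_eq, abs_of_nonneg (by linarith)]
        have h4 : δ ≤ δa := min_le_left _ _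
        linarith
      have h5 := hda h3
      rwa [Real.dist_eq] at h5
    have h6 : |b y - a p| ≤ |b y - a y| + |a y - a p| := abs_sub_le _ _ _
    linarith
  have hbA : ∀ y, p ≤ y → y ≤ x → |b y| ≤ A := by
    intro y hy hy'
    have h1 := hb y hy hy'
    have h2 : |b y| ≤ |b y - a p| + |a p| := by
      have := abs_add_le (b y - a p) (a p)
      rwa [sub_add_cancel] at this
    linarith
  have hV : ∀ y, p ≤ y → y ≤ x → |V y - v p| ≤ A * (y - p) := by
    intro y hy hy'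
    have h1 := hP.hv p y
    rw [hVp] at h1
    rw [h1, add_sub_cancel_left]
    have h2 := intervalIntegral.norm_integral_le_of_norm_le_const (a := p) (b := y) (f := b)
      (C := A) (fun t ht => by
        rw [uIoc_of_le hy] at ht
        rw [Real.norm_eq_abs]
        exact hbA t ht.1.le (ht.2.trans hy'))
    rwa [Real.norm_eq_abs, abs_of_nonneg (by linarith : (0:ℝ) ≤ y - p)] at h2
  have hVB : ∀ y, p ≤ y → y ≤ x → |V y| ≤ B := by
    intro y hy hy'
    have h1 := hV y hy hy'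
    have h2 : |V y| ≤ |V y - v p| + |v p| := by
      have := abs_add_le (V y - v p) (v p)
      rwa [sub_add_cancel] at this
    have h3 : A * (y - p) ≤ A * 1 := mul_le_mul_of_nonneg_left (by linarith) hA0.le
    linarith
  have hH : |H x - h p| ≤ B * (x - p) := by
    have h1 := hP.hh p x
    rw [hHp] at h1
    rw [h1, add_sub_cancel_left]
    have h2 := intervalIntegral.norm_integral_le_of_norm_le_const (a := p) (b := x) (f := V)
      (C := B) (fun t ht => by
        rw [uIoc_of_le hx] at ht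
        rw [Real.norm_eq_abs]
        exact hVB t ht.1.le ht.2)
    rwa [Real.norm_eq_abs, abs_of_nonneg (by linarith : (0:ℝ) ≤ x - p)] at h2
  have hxp : 0 ≤ x - p := by linarith
  refine ⟨(hb x hx le_rfl).trans_lt (by linarith), (hV x hx le_rfl).trans_lt ?_, hH.trans_lt ?_⟩
  · nlinarith [mul_nonneg hA0.le hxp, mul_nonneg hB0.le hxp]
  · nlinarith [mul_nonneg hA0.le hxp, mul_nonneg hB0.le hxp]

private theorem B4_low {C0 C1 : Set ℝ} {p t : ℝ} {h v a : ℝ → ℝ} (P : IsPath h v a) (hpt : p < t)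
    (m0 : ∀ x, p ≤ x → x ≤ t → h x ∈ C0) (m1 : ∀ x, p ≤ x → x ≤ t → v x ∈ C1) :
    ∃ δ > 0, ∃ ε0 > 0, ∀ q, p ≤ q → q < p + δ → ∀ H V b : ℝ → ℝ, IsPath H V b → H p = h p →
      V p = v p → b p = a p → (∀ x, p ≤ x → x ≤ q → |b x - a x| ≤ ε0) →
      (LowCrit C1 (v p) → (a p = 0 → ∀ x, p ≤ x → x ≤ q → v p ≤ V x) →
        ∀ x, p ≤ x → x ≤ q → v p ≤ V x) ∧
      (LowCrit C0 (h p) → (a p = 0 → v p = 0 → ∀ x, p ≤ x → x ≤ q → h p ≤ H x) →
        ∀ x, p ≤ x → x ≤ q → h p ≤ H x) := by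
  set ε := min (if a p = 0 then 1 else |a p|) (if v p = 0 then 1 else |v p|) with hε
  have hε0 : 0 < ε := by
    apply lt_min
    · split_ifs with h0
      · exact one_pos
      · exact abs_pos.2 h0
    · split_ifs with h0
      · exact one_pos
      · exact abs_pos.2 h0
  obtain ⟨δ, hδ, ε1, hε1, hn⟩ := nearB P hε0
  refine ⟨δ, hδ, ε1, hε1, ?_⟩
  intro q hpq hq H V b Q e1 e2 e3 hcl
  have hN := hn q hpq hq H V b Q e1 e2 e3 hcl
  have hbpos : 0 < a p → ∀ x, p ≤ x → x ≤ q → 0 ≤ b x := by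
    intro h0 x h1 h2
    have h3 := (hN x h1 h2).1
    have h4 : ε ≤ a p := by
      rw [hε, if_neg h0.ne', abs_of_pos h0]
      exact min_le_left _ _
    have := (abs_lt.1 h3).1
    linarith
  have hVpos : 0 < v p → ∀ x, p ≤ x → x ≤ q → 0 ≤ V x := by
    intro h0 x h1 h2
    have h3 := (hN x h1 h2).2.1
    have h4 : ε ≤ v p := by
      have h5 : (if v p = 0 then 1 else |v p|) = v p := by
        rw [if_neg h0.ne', abs_of_pos h0]
      rw [hε, h5]
      exact min_le_right _ _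
    have := (abs_lt.1 h3).1
    linarith
  constructor
  · intro hc hyp x h1 h2
    have ha0 := low1 P hpt (fun y hy hy' => hc _ (m1 y hy hy'))
    rcases eq_or_lt_of_le ha0 with h0 | h0
    · exact hyp h0.symm x h1 h2
    · rw [← e2]
      exact Q.mono_v h1 (fun y hy hy' => hbpos h0 y hy (hy'.trans h2))
  · intro hc hyp x h1 h2
    obtain ⟨hv0, hva⟩ := low0 P hpt (fun y hy hy' => hc _ (m0 y hy hy'))
    rcases eq_or_lt_of_le hv0 with h0 | h0
    · rcases eq_or_lt_of_le (hva h0.symm) with h3 | h3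
      · exact hyp h3.symm h0.symm x h1 h2
      · rw [← e1]
        apply Q.mono_h h1
        intro y hy hy'
        have := Q.mono_v hy (fun z hz hz' => hbpos h3 z hz (hz'.trans (hy'.trans h2)))
        rw [e2, ← h0] at this
        exact this
    · rw [← e1]
      exact Q.mono_h h1 (fun y hy hy' => hVpos h0 y hy (hy'.trans h2))

theorem finishB {C0 C1 C2 : Set ℝ} {p t : ℝ} {h v a : ℝ → ℝ} (P : IsPath h v a) (hpt : p < t)
    (m0 : ∀ x, p ≤ x → x ≤ t → h x ∈ C0) (m1 : ∀ x, p ≤ x → x ≤ t → v x ∈ C1)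
    (m2 : ∀ x, p ≤ x → x ≤ t → a x ∈ C2)
    (o0 : C0.OrdConnected) (o1 : C1.OrdConnected) (o2 : C2.OrdConnected) :
    ∃ δ > 0, ∃ ε0 > 0, ∀ q, p ≤ q → q < p + δ → ∀ H V b : ℝ → ℝ, IsPath H V b → H p = h p →
      V p = v p → b p = a p → (∀ x, p ≤ x → x ≤ q → |b x - a x| ≤ ε0) →
      (LowCrit C2 (a p) → ∀ x, p ≤ x → x ≤ q → a p ≤ b x) →
      (UpCrit C2 (a p) → ∀ x, p ≤ x → x ≤ q → b x ≤ a p) →
      (LowCrit C1 (v p) → a p = 0 → ∀ x, p ≤ x → x ≤ q → v p ≤ V x) →
      (UpCrit C1 (v p) → a p = 0 → ∀ x, p ≤ x → x ≤ q → V x ≤ v p) →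
      (LowCrit C0 (h p) → a p = 0 → v p = 0 → ∀ x, p ≤ x → x ≤ q → h p ≤ H x) →
      (UpCrit C0 (h p) → a p = 0 → v p = 0 → ∀ x, p ≤ x → x ≤ q → H x ≤ h p) →
      ∀ x, p ≤ x → x ≤ q → H x ∈ C0 ∧ V x ∈ C1 ∧ b x ∈ C2 := by
  obtain ⟨ε0, hε0, hm0⟩ := mem_of_near o0 (m0 p le_rfl hpt.le)
  obtain ⟨ε1, hε1, hm1⟩ := mem_of_near o1 (m1 p le_rfl hpt.le)
  obtain ⟨ε2, hε2, hm2⟩ := mem_of_near o2 (m2 p le_rfl hpt.le)
  obtain ⟨δ1, hδ1, η1, hη1, hn⟩ := nearB P (lt_min hε0 (lt_min hε1 hε2))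
  obtain ⟨δ2, hδ2, η2, hη2, hl⟩ := B4_low P hpt m0 m1
  obtain ⟨δ3, hδ3, η3, hη3, hu⟩ := B4_low (C0 := -C0) (C1 := -C1) P.neg hpt
    (fun x h1 h2 => by simpa using m0 x h1 h2) (fun x h1 h2 => by simpa using m1 x h1 h2)
  refine ⟨min δ1 (min δ2 δ3), lt_min hδ1 (lt_min hδ2 hδ3), min η1 (min η2 η3),
    lt_min hη1 (lt_min hη2 hη3), ?_⟩
  intro q hpq hq H V b Q e1 e2 e3 hcl l2 u2 l1 u1 l0 u0
  have hq1 : q < p + δ1 := hq.trans_le (by linarith [min_le_left δ1 (min δ2 δ3)])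
  have hq2 : q < p + δ2 := hq.trans_le (by
    linarith [min_le_right δ1 (min δ2 δ3), min_le_left δ2 δ3])
  have hq3 : q < p + δ3 := hq.trans_le (by
    linarith [min_le_right δ1 (min δ2 δ3), min_le_right δ2 δ3])
  have hN := hn q hpq hq1 H V b Q e1 e2 e3 (fun x h1 h2 => (hcl x h1 h2).trans (min_le_left _ _))
  have hL := hl q hpq hq2 H V b Q e1 e2 e3
    (fun x h1 h2 => (hcl x h1 h2).trans ((min_le_right _ _).trans (min_le_left _ _)))
  have hU := hu q hpq hq3 _ _ _ Q.neg (by simp [e1]) (by simp [e2]) (by simp [e3]) (fun x h1 h2 => by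
    have h3 := (hcl x h1 h2).trans ((min_le_right _ _).trans (min_le_right _ _))
    show |-b x - -a x| ≤ η3
    rw [show -b x - -a x = -(b x - a x) by ring, abs_neg]
    exact h3)
  intro x h1 h2
  refine ⟨?_, ?_, ?_⟩
  · apply hm0 _ ((hN x h1 h2).2.2.trans_le (min_le_left _ _))
    · intro hc
      exact hL.2 hc (l0 hc) x h1 h2
    · intro hc
      have := hU.2 (lowCrit_neg hc) (by
        intro b1 b2 x h1 h2
        have := u0 hc (by simpa using b1) (by simpa using b2) x h1 h2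
        show - h p ≤ - H x
        linarith) x h1 h2
      have this' : - h p ≤ - H x := this
      linarith
  · apply hm1 _ ((hN x h1 h2).2.1.trans_le ((min_le_right _ _).trans (min_le_left _ _)))
    · intro hc
      exact hL.1 hc (l1 hc) x h1 h2
    · intro hc
      have := hU.1 (lowCrit_neg hc) (by
        intro b1 x h1 h2
        have := u1 hc (by simpa using b1) x h1 h2
        show - v p ≤ - V x
        linarith) x h1 h2
      have this' : - v p ≤ - V x := this
      linarith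
  · exact hm2 _ ((hN x h1 h2).1.trans_le ((min_le_right _ _).trans (min_le_right _ _)))
      (fun hc => l2 hc x h1 h2) (fun hc => u2 hc x h1 h2)

end MP44e4f6
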