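import Mathlib
import Pool.Agent.Lib.MP_44e4f6_lc.B0
import Pool.Agent.Lib.MP_44e4f6_lc.B3
import Pool.Agent.Lib.MP_44e4f6_lc.B4

/-!
LEAF B5. Proof: adapt the case analysis `case2, case1, case0, rloc` of Loc2.lean. `(δ, ε0)` from `finishB`, `q' := t`, `q < min (p + δ) t`.
* `LowCrit C2 (a p)` and `UpCrit C2 (a p)`: `a` is constant on `[p, t]`, take `(h, v, a)` itself (`Lp` with `K = 0`).
* `LowCrit C2 (a p)` only (case2): if `a p = 0 ∧ UpCrit C1 (v p)` or `a p = 0 ∧ v p = 0 ∧ UpCrit C0 (h p)`, then `a = 0` on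
  `[p, t]` as in `case2`, take `(h, v, a)` itself; otherwise `loc2` with `ε0`; the conditions of `finishB` as in `case2`.
* `UpCrit C2 (a p)` only: apply the previous case to `(-h, -v, -a)` and `-C0, -C1, -C2` (`ReplB.neg`).
* neither, `a p = 0`: `LowCrit C1 (v p)` and `UpCrit C1 (v p)`: `v` constant, `a = 0`, itself. `LowCrit C1` only (case1): if
  `v p = 0 ∧ UpCrit C0 (h p)` then itself, otherwise `loc1`. `UpCrit C1` only: negation.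
  Neither, `v p = 0`: `LowCrit C0 (h p)` and `UpCrit C0 (h p)`: `h` constant, itself; `LowCrit` only: `loc0`; `UpCrit` only:
  negation; neither: `free`. `v p ≠ 0`: `free`.
* neither, `a p ≠ 0`: `free`.
-/

namespace MP44e4f6

open Set MeasureTheory intervalIntegral

/-- replacement by a path with Lipschitz second derivative, constant constraints -/
def ReplB (C0 C1 C2 : Set ℝ) (s t : ℝ) (h v a : ℝ → ℝ) : Prop :=
  ∃ H V b : ℝ → ℝ, IsPath H V b ∧ Lp s t b ∧ H s = h s ∧ V s = v s ∧ b s = a s ∧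
    H t = h t ∧ V t = v t ∧ b t = a t ∧ ∀ x, s ≤ x → x ≤ t → H x ∈ C0 ∧ V x ∈ C1 ∧ b x ∈ C2

private def B5RL (C0 C1 C2 : Set ℝ) (p : ℝ) (h v a : ℝ → ℝ) : Prop :=
  ∃ δ > 0, ∀ q, p < q → q < p + δ → ReplB C0 C1 C2 p q h v a

private theorem B5_neg {C0 C1 C2 : Set ℝ} {p : ℝ} {h v a : ℝ → ℝ}
    (R : B5RL (-C0) (-C1) (-C2) p (fun x => - h x) (fun x => - v x) (fun x => - a x)) :
    B5RL C0 C1 C2 p h v a := by
  obtain ⟨δ, hδ, hR⟩ := R
  refine ⟨δ, hδ, fun q h1 h2 => ?_⟩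
  obtain ⟨H, V, b, Q, ⟨K, hK⟩, e1, e2, e3, e4, e5, e6, hm⟩ := hR q h1 h2
  refine ⟨fun x => - H x, fun x => - V x, fun x => - b x, Q.neg, ⟨K, ?_⟩, ?_, ?_, ?_, ?_, ?_, ?_, ?_⟩
  · have := hK.neg
    rwa [neg_neg] at this
  · show - H p = h p
    rw [e1, neg_neg]
  · show - V p = v p
    rw [e2, neg_neg]
  · show - b p = a p
    rw [e3, neg_neg]
  · show - H q = h q
    rw [e4, neg_neg]
  · show - V q = v q
    rw [e5, neg_neg]
  · show - b q = a q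
    rw [e6, neg_neg]
  · intro x hx hx'
    obtain ⟨g1, g2, g3⟩ := hm x hx hx'
    exact ⟨g1, g2, g3⟩

section B5loc

variable {C0 C1 C2 : Set ℝ} {p t : ℝ} {h v a : ℝ → ℝ}

private theorem B5_triv (P : IsPath h v a) (hpt : p < t)
    (m0 : ∀ x, p ≤ x → x ≤ t → h x ∈ C0) (m1 : ∀ x, p ≤ x → x ≤ t → v x ∈ C1)
    (m2 : ∀ x, p ≤ x → x ≤ t → a x ∈ C2)
    (hc : ∀ x, p ≤ x → x ≤ t → a x = a p) : B5RL C0 C1 C2 p h v a := by
  refine ⟨t - p, sub_pos.2 hpt, fun q h1 h2 => ?_⟩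
  have hqt : q ≤ t := by linarith
  refine ⟨h, v, a, P, ⟨0, ?_⟩, rfl, rfl, rfl, rfl, rfl, rfl, fun x hx hx' =>
    ⟨m0 x hx (hx'.trans hqt), m1 x hx (hx'.trans hqt), m2 x hx (hx'.trans hqt)⟩⟩
  intro x y hx hxy hy
  rw [hc x hx (hxy.trans (hy.trans hqt)), hc y (hx.trans hxy) (hy.trans hqt)]
  constructor <;> simp

private theorem B5_case2 (P : IsPath h v a) (hpt : p < t)
    (m0 : ∀ x, p ≤ x → x ≤ t → h x ∈ C0) (m1 : ∀ x, p ≤ x → x ≤ t → v x ∈ C1)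
    (m2 : ∀ x, p ≤ x → x ≤ t → a x ∈ C2)
    (o0 : C0.OrdConnected) (o1 : C1.OrdConnected) (o2 : C2.OrdConnected)
    (c1 : LowCrit C2 (a p)) (c2 : ¬ UpCrit C2 (a p)) : B5RL C0 C1 C2 p h v a := by
  have hge : ∀ x, p ≤ x → x ≤ t → a p ≤ a x := fun x h1 h2 => c1 _ (m2 x h1 h2)
  by_cases t1 : a p = 0 ∧ UpCrit C1 (v p)
  · have hz := a_zero_of P hpt (fun x h1 h2 => t1.1 ▸ hge x h1 h2)
      (fun x h1 h2 => t1.2 _ (m1 x h1 h2))
    exact B5_triv P hpt m0 m1 m2 (fun x h1 h2 => by rw [hz x h1 h2, t1.1])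
  by_cases t2 : a p = 0 ∧ v p = 0 ∧ UpCrit C0 (h p)
  · have hvge : ∀ x, p ≤ x → x ≤ t → 0 ≤ v x := by
      intro x h1 h2
      have := P.mono_v h1 (fun y hy hy' => t2.1 ▸ hge y hy (hy'.trans h2))
      rwa [t2.2.1] at this
    have hz := v_zero_of P hpt hvge (fun x h1 h2 => t2.2.2 _ (m0 x h1 h2))
    have hz2 := zero_of_const P.dv hpt (fun x h1 h2 => by rw [hz x h1 h2, t2.2.1])
    exact B5_triv P hpt m0 m1 m2 (fun x h1 h2 => by rw [hz2 x h1 h2, t2.1])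
  obtain ⟨δ, hδ, ε0, hε0, hf⟩ := finishB P hpt m0 m1 m2 o0 o1 o2
  refine ⟨min δ (t - p), lt_min hδ (sub_pos.2 hpt), fun q hpq hq => ?_⟩
  have hq1 : q < p + δ := hq.trans_le (by linarith [min_le_left δ (t - p)])
  have hqt : q < t := hq.trans_le (by linarith [min_le_right δ (t - p)])
  obtain ⟨H, V, b, hC, hfl⟩ := loc2 P hpq hqt hε0 hge
  have hVge : a p = 0 → ∀ x, p ≤ x → x ≤ q → v p ≤ V x := by
    intro h0 x h1 h2
    rw [← hC.v0]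
    exact hC.path.mono_v h1 (fun y hy hy' => h0 ▸ hfl y hy (hy'.trans h2))
  refine ⟨H, V, b, hC.path, hC.lip, hC.h0, hC.v0, hC.a0, hC.h1, hC.v1, hC.a1,
    hf q hpq.le hq1 H V b hC.path hC.h0 hC.v0 hC.a0 hC.cl (fun _ => hfl)
      (fun hc => absurd hc c2) ?_ ?_ ?_ ?_⟩
  · intro _ h0
    exact hVge h0
  · intro hc h0
    exact absurd ⟨h0, hc⟩ t1
  · intro _ h0 hv0 x h1 h2
    rw [← hC.h0]
    apply hC.path.mono_h h1
    intro y hy hy'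
    have := hVge h0 y hy (hy'.trans h2)
    rwa [hv0] at this
  · intro hc h0 hv0
    exact absurd ⟨h0, hv0, hc⟩ t2

private theorem B5_case1 (P : IsPath h v a) (hpt : p < t)
    (m0 : ∀ x, p ≤ x → x ≤ t → h x ∈ C0) (m1 : ∀ x, p ≤ x → x ≤ t → v x ∈ C1)
    (m2 : ∀ x, p ≤ x → x ≤ t → a x ∈ C2)
    (o0 : C0.OrdConnected) (o1 : C1.OrdConnected) (o2 : C2.OrdConnected)
    (c1 : ¬ LowCrit C2 (a p)) (c2 : ¬ UpCrit C2 (a p)) (hap : a p = 0)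
    (d1 : LowCrit C1 (v p)) (d2 : ¬ UpCrit C1 (v p)) : B5RL C0 C1 C2 p h v a := by
  have hge : ∀ x, p ≤ x → x ≤ t → v p ≤ v x := fun x h1 h2 => d1 _ (m1 x h1 h2)
  by_cases t2 : v p = 0 ∧ UpCrit C0 (h p)
  · have hz := v_zero_of P hpt (fun x h1 h2 => t2.1 ▸ hge x h1 h2)
      (fun x h1 h2 => t2.2 _ (m0 x h1 h2))
    have hz2 := zero_of_const P.dv hpt (fun x h1 h2 => by rw [hz x h1 h2, t2.1])
    exact B5_triv P hpt m0 m1 m2 (fun x h1 h2 => by rw [hz2 x h1 h2, hap])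
  obtain ⟨δ, hδ, ε0, hε0, hf⟩ := finishB P hpt m0 m1 m2 o0 o1 o2
  refine ⟨min δ (t - p), lt_min hδ (sub_pos.2 hpt), fun q hpq hq => ?_⟩
  have hq1 : q < p + δ := hq.trans_le (by linarith [min_le_left δ (t - p)])
  have hqt : q < t := hq.trans_le (by linarith [min_le_right δ (t - p)])
  obtain ⟨H, V, b, hC, hVge⟩ := loc1 P hpq hqt hε0 hap hge
  refine ⟨H, V, b, hC.path, hC.lip, hC.h0, hC.v0, hC.a0, hC.h1, hC.v1, hC.a1,
    hf q hpq.le hq1 H V b hC.path hC.h0 hC.v0 hC.a0 hC.cl (fun hc => absurd hc c1)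
      (fun hc => absurd hc c2) ?_ ?_ ?_ ?_⟩
  · intro _ _
    exact hVge
  · intro hc _
    exact absurd hc d2
  · intro _ _ hv0 x h1 h2
    rw [← hC.h0]
    apply hC.path.mono_h h1
    intro y hy hy'
    have := hVge y hy (hy'.trans h2)
    rwa [hv0] at this
  · intro hc _ hv0
    exact absurd ⟨hv0, hc⟩ t2

private theorem B5_case0 (P : IsPath h v a) (hpt : p < t)
    (m0 : ∀ x, p ≤ x → x ≤ t → h x ∈ C0) (m1 : ∀ x, p ≤ x → x ≤ t → v x ∈ C1)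
    (m2 : ∀ x, p ≤ x → x ≤ t → a x ∈ C2)
    (o0 : C0.OrdConnected) (o1 : C1.OrdConnected) (o2 : C2.OrdConnected)
    (c1 : ¬ LowCrit C2 (a p)) (c2 : ¬ UpCrit C2 (a p))
    (d1 : a p = 0 → ¬ LowCrit C1 (v p)) (d2 : a p = 0 → ¬ UpCrit C1 (v p))
    (e0 : a p = 0 → v p = 0 → ¬ UpCrit C0 (h p)) : B5RL C0 C1 C2 p h v a := by
  obtain ⟨δ, hδ, ε0, hε0, hf⟩ := finishB P hpt m0 m1 m2 o0 o1 o2
  refine ⟨min δ (t - p), lt_min hδ (sub_pos.2 hpt), fun q hpq hq => ?_⟩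
  have hq1 : q < p + δ := hq.trans_le (by linarith [min_le_left δ (t - p)])
  have hqt : q < t := hq.trans_le (by linarith [min_le_right δ (t - p)])
  have key : ∃ H V b : ℝ → ℝ, Cl p q ε0 h v a H V b ∧
      (LowCrit C0 (h p) → a p = 0 → v p = 0 → ∀ x, p ≤ x → x ≤ q → h p ≤ H x) := by
    by_cases f : a p = 0 ∧ v p = 0 ∧ LowCrit C0 (h p)
    · obtain ⟨H, V, b, hC, hH⟩ := loc0 P hpq hqt hε0 f.1 f.2.1 (fun x h1 h2 => f.2.2 _ (m0 x h1 h2))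
      exact ⟨H, V, b, hC, fun _ _ _ => hH⟩
    · obtain ⟨H, V, b, hC⟩ := free P hpq hε0
      exact ⟨H, V, b, hC, fun g0 g1 g2 => absurd ⟨g1, g2, g0⟩ f⟩
  obtain ⟨H, V, b, hC, hH⟩ := key
  refine ⟨H, V, b, hC.path, hC.lip, hC.h0, hC.v0, hC.a0, hC.h1, hC.v1, hC.a1,
    hf q hpq.le hq1 H V b hC.path hC.h0 hC.v0 hC.a0 hC.cl (fun hc => absurd hc c1)
      (fun hc => absurd hc c2) ?_ ?_ hH ?_⟩
  · intro hc h0
    exact absurd hc (d1 h0)
  · intro hc h0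
    exact absurd hc (d2 h0)
  · intro hc h0 hv0
    exact absurd hc (e0 h0 hv0)

private theorem B5_mneg {C : Set ℝ} {g : ℝ → ℝ} (m : ∀ x, p ≤ x → x ≤ t → g x ∈ C) :
    ∀ x, p ≤ x → x ≤ t → (fun x => - g x) x ∈ -C := by
  intro x h1 h2
  show - g x ∈ -C
  simpa using m x h1 h2

private theorem B5_all (P : IsPath h v a) (hpt : p < t)
    (m0 : ∀ x, p ≤ x → x ≤ t → h x ∈ C0) (m1 : ∀ x, p ≤ x → x ≤ t → v x ∈ C1)
    (m2 : ∀ x, p ≤ x → x ≤ t → a x ∈ C2)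
    (o0 : C0.OrdConnected) (o1 : C1.OrdConnected) (o2 : C2.OrdConnected) :
    B5RL C0 C1 C2 p h v a := by
  have n0 := ordConnected_neg o0
  have n1 := ordConnected_neg o1
  have n2 := ordConnected_neg o2
  have k0 := B5_mneg m0
  have k1 := B5_mneg m1
  have k2 := B5_mneg m2
  by_cases c1 : LowCrit C2 (a p)
  · by_cases c2 : UpCrit C2 (a p)
    · exact B5_triv P hpt m0 m1 m2 (fun x h1 h2 =>
        le_antisymm (c2 _ (m2 x h1 h2)) (c1 _ (m2 x h1 h2)))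
    · exact B5_case2 P hpt m0 m1 m2 o0 o1 o2 c1 c2
  by_cases c2 : UpCrit C2 (a p)
  · apply B5_neg
    exact B5_case2 P.neg hpt k0 k1 k2 n0 n1 n2 (lowCrit_neg c2)
      (fun hc => c1 (upCrit_neg_iff.1 hc))
  by_cases hap : a p = 0
  · by_cases d1 : LowCrit C1 (v p)
    · by_cases d2 : UpCrit C1 (v p)
      · have hz := zero_of_const P.dv hpt (fun x h1 h2 =>
          le_antisymm (d2 _ (m1 x h1 h2)) (d1 _ (m1 x h1 h2)))
        exact B5_triv P hpt m0 m1 m2 (fun x h1 h2 => by rw [hz x h1 h2, hap])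
      · exact B5_case1 P hpt m0 m1 m2 o0 o1 o2 c1 c2 hap d1 d2
    by_cases d2 : UpCrit C1 (v p)
    · apply B5_neg
      exact B5_case1 P.neg hpt k0 k1 k2 n0 n1 n2 (fun hc => c2 (lowCrit_neg_iff.1 hc))
        (fun hc => c1 (upCrit_neg_iff.1 hc)) (by simp [hap]) (lowCrit_neg d2)
        (fun hc => d1 (upCrit_neg_iff.1 hc))
    by_cases hvp : v p = 0
    · by_cases f2 : UpCrit C0 (h p)
      · by_cases f1 : LowCrit C0 (h p)
        · have hz := zero_of_const P.dh hpt (fun x h1 h2 =>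
            le_antisymm (f2 _ (m0 x h1 h2)) (f1 _ (m0 x h1 h2)))
          have hz2 := zero_of_const P.dv hpt (fun x h1 h2 => by rw [hz x h1 h2, hvp])
          exact B5_triv P hpt m0 m1 m2 (fun x h1 h2 => by rw [hz2 x h1 h2, hap])
        · apply B5_neg
          exact B5_case0 P.neg hpt k0 k1 k2 n0 n1 n2 (fun hc => c2 (lowCrit_neg_iff.1 hc))
            (fun hc => c1 (upCrit_neg_iff.1 hc)) (fun _ hc => d2 (lowCrit_neg_iff.1 hc))
            (fun _ hc => d1 (upCrit_neg_iff.1 hc)) (fun _ _ hc => f1 (upCrit_neg_iff.1 hc))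
      · exact B5_case0 P hpt m0 m1 m2 o0 o1 o2 c1 c2 (fun _ => d1) (fun _ => d2) (fun _ _ => f2)
    · exact B5_case0 P hpt m0 m1 m2 o0 o1 o2 c1 c2 (fun _ => d1) (fun _ => d2)
        (fun _ h0 => absurd h0 hvp)
  · exact B5_case0 P hpt m0 m1 m2 o0 o1 o2 c1 c2 (fun h0 => absurd h0 hap)
      (fun h0 => absurd h0 hap) (fun h0 => absurd h0 hap)

end B5loc

theorem rlocB {C0 C1 C2 : Set ℝ} {p t : ℝ} {h v a : ℝ → ℝ} (P : IsPath h v a) (hpt : p < t)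
    (m0 : ∀ x, p ≤ x → x ≤ t → h x ∈ C0) (m1 : ∀ x, p ≤ x → x ≤ t → v x ∈ C1)
    (m2 : ∀ x, p ≤ x → x ≤ t → a x ∈ C2)
    (o0 : C0.OrdConnected) (o1 : C1.OrdConnected) (o2 : C2.OrdConnected) :
    ∃ δ > 0, ∀ q, p < q → q < p + δ → ReplB C0 C1 C2 p q h v a := by
  exact B5_all P hpt m0 m1 m2 o0 o1 o2

end MP44e4f6
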