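import Mathlib
import Pool.Agent.Lib.MP_44e4f6_lc.B0
import Pool.Agent.Lib.MP_44e4f6_lc.B5

/-!
LEAF B6. Proof. `grightB`: (1) if some `st ∈ L3` has `st.c - st.r ≤ x < st.c + st.r`, then `a` has slopes in `[st.lo, st.hi]` on
`[x, x + δ]` (as in `sc_right` of Glob.lean, `SB.closed`), so `(h, v, a)` itself is a replacement (`Lp` by `SB.weaken`). (2)
Otherwise every `st ∈ L3` has `x < st.c - st.r` or `st.c + st.r ≤ x`, so there is `δ` such that no point of `[x, x + δ)` lies in the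
domain of a step of `L3` (induction on `L3`), `SC L3 x y` is trivial for `y < x + δ`, and `rlocB` with the sets of `vc_right`
(Glob.lean) gives the rest.
`gleftB` by reflection (`VC.reflect`, `VC.reflect'`, `SC.reflect`, `IsPath.reflect`, `map_RR`, `map_NN`, as `gleft` in Glob.lean),
`GReplB.glue` as `GRepl.glue`, `bglob` as `gglob` (the same supremum argument) in Glob.lean.
-/

namespace MP44e4f6

open Set MeasureTheory intervalIntegral

def GReplB (L0 L1 L2 L3 : List Stp) (s t : ℝ) (h v a : ℝ → ℝ) : Prop :=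
  ∃ H V b : ℝ → ℝ, IsPath H V b ∧ Lp s t b ∧ H s = h s ∧ V s = v s ∧ b s = a s ∧
    H t = h t ∧ V t = v t ∧ b t = a t ∧ VC L0 s t H ∧ VC L1 s t V ∧ VC L2 s t b ∧ SC L3 s t b

private theorem B6_lp_of_sb {l u s t : ℝ} {b : ℝ → ℝ} (h : SB l u s t b) : Lp s t b := by
  refine ⟨Max.max (-l) u, h.weaken ?_ (le_max_right _ _)⟩
  have := le_max_left (-l) u
  linarith

private theorem B6_lp_congr {s t : ℝ} {f g : ℝ → ℝ} (hf : Lp s t f) (h : ∀ x, s ≤ x → x ≤ t → g x = f x) :
    Lp s t g := by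
  obtain ⟨K, hK⟩ := hf
  exact ⟨K, hK.congr h⟩

private theorem B6_lp_reflect {s t : ℝ} {f : ℝ → ℝ} (hf : Lp s t f) : Lp (-t) (-s) (fun x => f (-x)) := by
  obtain ⟨K, hK⟩ := hf
  have h1 := hK.reflect
  rw [neg_neg] at h1
  exact ⟨K, h1⟩

private theorem B6_lp_glue {s m t : ℝ} {f : ℝ → ℝ} (h1 : Lp s m f) (h2 : Lp m t f) : Lp s t f := by
  obtain ⟨K1, hK1⟩ := h1
  obtain ⟨K2, hK2⟩ := h2
  have e1 := le_max_left K1 K2
  have e2 := le_max_right K1 K2
  exact ⟨Max.max K1 K2, (hK1.weaken (by linarith) e1).glue (hK2.weaken (by linarith) e2)⟩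

private theorem B6_free (L : List Stp) {x : ℝ} (hL : ∀ st ∈ L, x < st.c - st.r ∨ st.c + st.r ≤ x) :
    ∃ δ > 0, ∀ (g : ℝ → ℝ) (t : ℝ), t < x + δ → SC L x t g := by
  induction L with
  | nil => exact ⟨1, one_pos, fun g t _ st hst => absurd hst (List.not_mem_nil)⟩
  | cons st L ih =>
    obtain ⟨δ, hδ, hg⟩ := ih (fun st' h' => hL st' (List.mem_cons_of_mem _ h'))
    rcases hL st (List.mem_cons_self) with h1 | h1
    · refine ⟨Min.min δ (st.c - st.r - x), lt_min hδ (by linarith), ?_⟩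
      intro g t ht st' hst'
      have hd1 : Min.min δ (st.c - st.r - x) ≤ δ := min_le_left _ _
      have hd2 : Min.min δ (st.c - st.r - x) ≤ st.c - st.r - x := min_le_right _ _
      rcases List.mem_cons.1 hst' with rfl | hst'
      · intro y z hy hyz hz hc _
        rw [abs_lt] at hc
        linarith [hc.1]
      · exact hg g t (by linarith) st' hst'
    · refine ⟨δ, hδ, ?_⟩
      intro g t ht st' hst'
      rcases List.mem_cons.1 hst' with rfl | hst'
      · intro y z hy hyz hz hc _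
        rw [abs_lt] at hc
        linarith [hc.2]
      · exact hg g t ht st' hst'

theorem grightB {L0 L1 L2 L3 : List Stp} {x q : ℝ} {h v a : ℝ → ℝ} (P : IsPath h v a) (hxq : x < q)
    (c0 : VC L0 x q h) (c1 : VC L1 x q v) (c2 : VC L2 x q a) (c3 : SC L3 x q a) :
    ∃ δ > 0, ∀ y, x < y → y < x + δ → GReplB L0 L1 L2 L3 x y h v a := by
  by_cases hex : ∃ st ∈ L3, st.c - st.r ≤ x ∧ x < st.c + st.r
  · obtain ⟨st, hst, h1, h2⟩ := hex
    refine ⟨Min.min (q - x) (st.c + st.r - x), lt_min (by linarith) (by linarith), ?_⟩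
    intro y hxy hy
    have hd1 : Min.min (q - x) (st.c + st.r - x) ≤ q - x := min_le_left _ _
    have hd2 : Min.min (q - x) (st.c + st.r - x) ≤ st.c + st.r - x := min_le_right _ _
    have hsb : SB st.lo st.hi x y a := by
      apply SB.closed P.cont
      intro w z hw hwz hz
      exact c3 st hst w z hw.le hwz (by linarith)
        (by rw [abs_lt]; constructor <;> linarith) (by rw [abs_lt]; constructor <;> linarith)
    exact ⟨h, v, a, P, B6_lp_of_sb hsb, rfl, rfl, rfl, rfl, rfl, rfl, c0.mono le_rfl (by linarith),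
      c1.mono le_rfl (by linarith), c2.mono le_rfl (by linarith), c3.mono le_rfl (by linarith)⟩
  · have hno : ∀ st ∈ L3, x < st.c - st.r ∨ st.c + st.r ≤ x := by
      intro st hst
      by_contra hcon
      push Not at hcon
      exact hex ⟨st, hst, hcon.1, hcon.2⟩
    have hhc : Continuous h := by
      rw [continuous_iff_continuousAt]
      exact fun y => (P.dh y).continuousAt
    obtain ⟨C0, o0, d0, hd0, hq0, m0, g0⟩ := vc_right L0 hhc hxq c0
    obtain ⟨C1, o1, d1, hd1, hq1, m1, g1⟩ := vc_right L1 P.vcont hxq c1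
    obtain ⟨C2, o2, d2, hd2, hq2, m2, g2⟩ := vc_right L2 P.cont hxq c2
    obtain ⟨d3, hd3, g3⟩ := B6_free L3 hno
    set δ := Min.min (Min.min d0 d1) (Min.min d2 d3) with hδ
    have hδ0 : 0 < δ := lt_min (lt_min hd0 hd1) (lt_min hd2 hd3)
    have e0 : δ ≤ d0 := (min_le_left _ _).trans (min_le_left _ _)
    have e1 : δ ≤ d1 := (min_le_left _ _).trans (min_le_right _ _)
    have e2 : δ ≤ d2 := (min_le_right _ _).trans (min_le_left _ _)
    have e3 : δ ≤ d3 := (min_le_right _ _).trans (min_le_right _ _)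
    obtain ⟨δ', hδ', R⟩ := rlocB P (by linarith : x < x + δ) (fun y h1 h2 => m0 y h1 (by linarith))
      (fun y h1 h2 => m1 y h1 (by linarith)) (fun y h1 h2 => m2 y h1 (by linarith)) o0 o1 o2
    refine ⟨Min.min δ δ', lt_min hδ0 hδ', ?_⟩
    intro y hxy hy
    have hm1 : Min.min δ δ' ≤ δ := min_le_left _ _
    have hm2 : Min.min δ δ' ≤ δ' := min_le_right _ _
    obtain ⟨H, V, b, Q, hLp, i1, i2, i3, i4, i5, i6, G⟩ := R y hxy (by linarith)
    exact ⟨H, V, b, Q, hLp, i1, i2, i3, i4, i5, i6, g0 _ _ (by linarith) (fun w h1 h2 => (G w h1 h2).1),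
      g1 _ _ (by linarith) (fun w h1 h2 => (G w h1 h2).2.1),
      g2 _ _ (by linarith) (fun w h1 h2 => (G w h1 h2).2.2), g3 _ _ (by linarith)⟩

private theorem B6_reflect {L0 L1 L2 L3 : List Stp} {s t : ℝ} {h v a : ℝ → ℝ}
    (R : GReplB L0 L1 L2 L3 s t h v a) :
    GReplB (L0.map Stp.R) (L1.map Stp.N) (L2.map Stp.R) (L3.map Stp.N) (-t) (-s)
      (fun x => h (-x)) (fun x => - v (-x)) (fun x => a (-x)) := by
  obtain ⟨H, V, b, Q, hLp, i1, i2, i3, i4, i5, i6, G0, G1, G2, G3⟩ := R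
  exact ⟨_, _, _, Q.reflect, B6_lp_reflect hLp, by simpa using i4, by simpa using i5,
    by simpa using i6, by simpa using i1, by simpa using i2, by simpa using i3,
    G0.reflect, G1.reflect', G2.reflect, G3.reflect⟩

private theorem B6_left {L0 L1 L2 L3 : List Stp} {s x : ℝ} {h v a : ℝ → ℝ} (P : IsPath h v a) (hsx : s < x)
    (c0 : VC L0 s x h) (c1 : VC L1 s x v) (c2 : VC L2 s x a) (c3 : SC L3 s x a) :
    ∃ δ > 0, ∀ y, y < x → x - δ < y → GReplB L0 L1 L2 L3 y x h v a := by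
  obtain ⟨δ, hδ, R⟩ := grightB P.reflect (by linarith : -x < -s) c0.reflect c1.reflect' c2.reflect
    c3.reflect
  refine ⟨δ, hδ, fun y h1 h2 => ?_⟩
  have := B6_reflect (R (-y) (by linarith) (by linarith))
  rw [map_RR, map_NN, map_RR, map_NN] at this
  simpa using this

private theorem B6_glue {L0 L1 L2 L3 : List Stp} {s m t : ℝ} {h v a : ℝ → ℝ} (hsm : s ≤ m) (hmt : m ≤ t)
    (R1 : GReplB L0 L1 L2 L3 s m h v a) (R2 : GReplB L0 L1 L2 L3 m t h v a) :
    GReplB L0 L1 L2 L3 s t h v a := by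
  obtain ⟨H1, V1, b1, Q1, P1, i1, i2, i3, i4, i5, i6, G10, G11, G12, G13⟩ := R1
  obtain ⟨H2, V2, b2, Q2, P2, j1, j2, j3, j4, j5, j6, G20, G21, G22, G23⟩ := R2
  set b : ℝ → ℝ := fun x => if x ≤ m then b1 x else b2 x with hb
  have hbc : Continuous b := by
    apply Continuous.if_le Q1.cont Q2.cont continuous_id continuous_const
    intro x hx
    have hx' : x = m := hx
    rw [hx', i6, j3]
  have hbl : ∀ x, x ≤ m → b x = b1 x := fun x hx => if_pos hx
  have hbr : ∀ x, m ≤ x → b x = b2 x := by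
    intro x hx
    rcases eq_or_lt_of_le hx with hx' | hx'
    · rw [← hx', hbl m le_rfl, i6, j3]
    · exact if_neg (not_le.2 hx')
  have Q := isPath_mk hbc m (h m) (v m)
  set V : ℝ → ℝ := fun x => v m + ∫ y in m..x, b y with hV
  set H : ℝ → ℝ := fun x => h m + ∫ t in m..x, (v m + ∫ y in m..t, b y) with hH
  have hVl : ∀ x, x ≤ m → V x = V1 x := by
    intro x hx
    rw [Q1.hv m x, i5]
    show v m + ∫ y in m..x, b y = _
    congr 1
    apply intervalIntegral.integral_congr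
    intro y hy
    rw [uIcc_of_ge hx] at hy
    exact hbl y hy.2
  have hVr : ∀ x, m ≤ x → V x = V2 x := by
    intro x hx
    rw [Q2.hv m x, j2]
    show v m + ∫ y in m..x, b y = _
    congr 1
    apply intervalIntegral.integral_congr
    intro y hy
    rw [uIcc_of_le hx] at hy
    exact hbr y hy.1
  have hHl : ∀ x, x ≤ m → H x = H1 x := by
    intro x hx
    rw [Q1.hh m x, i4]
    show h m + ∫ t in m..x, V t = _
    congr 1
    apply intervalIntegral.integral_congr
    intro y hy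
    rw [uIcc_of_ge hx] at hy
    exact hVl y hy.2
  have hHr : ∀ x, m ≤ x → H x = H2 x := by
    intro x hx
    rw [Q2.hh m x, j1]
    show h m + ∫ t in m..x, V t = _
    congr 1
    apply intervalIntegral.integral_congr
    intro y hy
    rw [uIcc_of_le hx] at hy
    exact hVr y hy.1
  refine ⟨H, V, b, Q, ?_, ?_, ?_, ?_, ?_, ?_, ?_, ?_, ?_, ?_, ?_⟩
  · exact B6_lp_glue (B6_lp_congr P1 (fun x _ h2 => hbl x h2))
      (B6_lp_congr P2 (fun x h1 _ => hbr x h1))
  · rw [hHl s hsm, i1]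
  · rw [hVl s hsm, i2]
  · rw [hbl s hsm, i3]
  · rw [hHr t hmt, j4]
  · rw [hVr t hmt, j5]
  · rw [hbr t hmt, j6]
  · exact (G10.congr (fun x _ h2 => hHl x h2)).glue (G20.congr (fun x h1 _ => hHr x h1))
  · exact (G11.congr (fun x _ h2 => hVl x h2)).glue (G21.congr (fun x h1 _ => hVr x h1))
  · exact (G12.congr (fun x _ h2 => hbl x h2)).glue (G22.congr (fun x h1 _ => hbr x h1))
  · exact (G13.congr (fun x _ h2 => hbl x h2)).glue (G23.congr (fun x h1 _ => hbr x h1))

private theorem B6_triv {L0 L1 L2 L3 : List Stp} {s : ℝ} {h v a : ℝ → ℝ} (P : IsPath h v a)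
    (c0 : VC L0 s s h) (c1 : VC L1 s s v) (c2 : VC L2 s s a) (c3 : SC L3 s s a) :
    GReplB L0 L1 L2 L3 s s h v a := by
  refine ⟨h, v, a, P, ⟨0, ?_⟩, rfl, rfl, rfl, rfl, rfl, rfl, c0, c1, c2, c3⟩
  intro y z hy hyz hz
  have h1 : y = s := le_antisymm (hyz.trans hz) hy
  have h2 : z = s := le_antisymm hz (hy.trans hyz)
  rw [h1, h2]
  simp

theorem bglob {L0 L1 L2 L3 : List Stp} {p q : ℝ} {h v a : ℝ → ℝ} (P : IsPath h v a) (hpq : p ≤ q)
    (c0 : VC L0 p q h) (c1 : VC L1 p q v) (c2 : VC L2 p q a) (c3 : SC L3 p q a) :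
    GReplB L0 L1 L2 L3 p q h v a := by
  set S : Set ℝ := {x | p ≤ x ∧ x ≤ q ∧ GReplB L0 L1 L2 L3 p x h v a} with hS
  have hpS : p ∈ S := ⟨le_rfl, hpq, B6_triv P (c0.mono le_rfl hpq) (c1.mono le_rfl hpq)
    (c2.mono le_rfl hpq) (c3.mono le_rfl hpq)⟩
  have hne : S.Nonempty := ⟨p, hpS⟩
  have hbd : BddAbove S := ⟨q, fun x hx => hx.2.1⟩
  set z := sSup S with hz
  have hpz : p ≤ z := le_csSup hbd hpS
  have hzq : z ≤ q := csSup_le hne (fun x hx => hx.2.1)
  have hzS : GReplB L0 L1 L2 L3 p z h v a := by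
    rcases eq_or_lt_of_le hpz with h0 | h0
    · rw [← h0]; exact hpS.2.2
    · obtain ⟨δ, hδ, R⟩ := B6_left P h0 (c0.mono le_rfl hzq) (c1.mono le_rfl hzq)
        (c2.mono le_rfl hzq) (c3.mono le_rfl hzq)
      obtain ⟨x, hxS, hx⟩ := exists_lt_of_lt_csSup hne (show z - δ < sSup S by linarith)
      have hxz : x ≤ z := le_csSup hbd hxS
      rcases eq_or_lt_of_le hxz with h1 | h1
      · rw [← h1]; exact hxS.2.2
      · exact B6_glue hxS.1 hxz hxS.2.2 (R x h1 hx)
  rcases eq_or_lt_of_le hzq with h0 | h0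
  · rw [← h0]; exact hzS
  · exfalso
    obtain ⟨δ, hδ, R⟩ := grightB P h0 (c0.mono hpz le_rfl) (c1.mono hpz le_rfl)
      (c2.mono hpz le_rfl) (c3.mono hpz le_rfl)
    set y := Min.min q (z + δ / 2) with hy
    have hzy : z < y := lt_min h0 (by linarith)
    have hyq : y ≤ q := min_le_left _ _
    have hyδ : y < z + δ := (min_le_right _ _).trans_lt (by linarith)
    have hyS : y ∈ S := ⟨hpz.trans hzy.le, hyq, B6_glue hpz hzy.le hzS (R y hzy hyδ)⟩
    exact absurd (le_csSup hbd hyS) (not_le.2 hzy)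

end MP44e4f6
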