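import Mathlib
import Pool.Agent.Lib.MP_44e4f6_lc.Glob

/-!
Grid approximations: definitions.
-/

namespace MP44e4f6

/-- the grid points `p + (i / (N + 1)) (q - p)` -/
noncomputable def gx (p q : ℝ) (N i : ℕ) : ℝ := p + (i : ℝ) / ((N : ℝ) + 1) * (q - p)

/-- approximate conditions for the values of `h'', h', h` (here `A, V, H`) at the grid points number `i` and `j` -/
structure GC (p q K B : ℝ) (L0 L1 L2 L3 : List Stp) (N : ℕ) (A V H : ℕ → ℝ) (i j : ℕ) : Prop where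
  t1 : |V j - V i - (gx p q N j - gx p q N i) * A i| ≤
    K * (gx p q N j - gx p q N i) ^ 2 + 1 / ((N : ℝ) + 1)
  t2 : |H j - H i - (gx p q N j - gx p q N i) * V i| ≤
    B * (gx p q N j - gx p q N i) ^ 2 + 1 / ((N : ℝ) + 1)
  t3 : i ≤ j → |A j - A i| ≤ K * (gx p q N j - gx p q N i) + 1 / ((N : ℝ) + 1)
  c0 : ∀ s ∈ L0, |gx p q N i - s.c| < s.r →
    s.lo - 1 / ((N : ℝ) + 1) ≤ H i ∧ H i ≤ s.hi + 1 / ((N : ℝ) + 1)
  c1 : ∀ s ∈ L1, |gx p q N i - s.c| < s.r →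
    s.lo - 1 / ((N : ℝ) + 1) ≤ V i ∧ V i ≤ s.hi + 1 / ((N : ℝ) + 1)
  c2 : ∀ s ∈ L2, |gx p q N i - s.c| < s.r →
    s.lo - 1 / ((N : ℝ) + 1) ≤ A i ∧ A i ≤ s.hi + 1 / ((N : ℝ) + 1)
  c3 : ∀ s ∈ L3, i ≤ j → |gx p q N i - s.c| < s.r → |gx p q N j - s.c| < s.r →
    s.lo * (gx p q N j - gx p q N i) - 1 / ((N : ℝ) + 1) ≤ A j - A i ∧
      A j - A i ≤ s.hi * (gx p q N j - gx p q N i) + 1 / ((N : ℝ) + 1)

end MP44e4f6
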