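import Mathlib
import Pool.Agent.Lib.MP_44e4f6_lc.Defs

/-!
Codes of the rational data of a basis element of `D^m(U)`, the inputs of the decision procedure.
-/

namespace MP44e4f6

/-- the rational number `m / (n + 1)` with the code `(m, n)` -/
def num (z : ℤ × ℕ) : ℚ := z.1 / (z.2 + 1)

/-- the single step function `(c - r, c + r) ↘ [lo, hi]` with the code `(c, r, lo, hi)` -/
def stepOf (s : (ℤ × ℕ) × (ℤ × ℕ) × (ℤ × ℕ) × (ℤ × ℕ)) : Step :=
  ⟨num s.1, num s.2.1, num s.2.2.1, num s.2.2.2⟩

/-- an input: the codes of the end points `p, q` of `U`, and the list `[f 0, ..., f m]`, where each `f d` is given by the list of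
the codes of its single step functions -/
abbrev Input : Type :=
  ((ℤ × ℕ) × (ℤ × ℕ)) × List (List ((ℤ × ℕ) × (ℤ × ℕ) × (ℤ × ℕ) × (ℤ × ℕ)))

/-- the step function `f d` of an input -/
def tuple (x : Input) (d : ℕ) : List Step := (x.2.getD d []).map stepOf

end MP44e4f6
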