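import Mathlib

/-!
Leaf QP (MATHLIB ONLY): primitive recursive arithmetic of codes for polynomials over `ℚ`.

A code `z : ℕ × List ℤ` stands for the polynomial `(∑ z.2[i] X^i) / (z.1 + 1)` (`toQ`).
Define `padd`, `pmul`, `pneg` on codes (replace the `sorry`s in the definitions), prove that they are primitive recursive and
correct, and that equality of the polynomials is a primitive recursive relation.

Hints. For `List ℤ` use coefficient formulas: sum: `(List.range (max a.length b.length)).map (fun i => a.getD i 0 + b.getD i 0)`;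
product: `(List.range (a.length + b.length)).map (fun n => ((List.range (n + 1)).map (fun i => a.getD i 0 * b.getD (n - i) 0)).sum)`
(`Primrec.list_map`, `Primrec.list_range`, `Primrec.list_getD`, `Primrec.list_foldr`; `Polynomial.coeff_mul`,
`Finset.Nat.sum_antidiagonal_eq_sum_range_succ`). Addition and multiplication of integers are not in Mathlib as `Primrec`: the
encoding of `ℤ` is `n ↦ 2 n`, `-(n+1) ↦ 2 n + 1`; see `pr_toNat`, `pr_toNatNeg` (lines 340-380) in
`Pool/Agent/Lib/MP_a69748_lc/Low.lean`, and prove `Primrec₂ (fun a b : ℕ => (a : ℤ) - b)`.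
-/

open Polynomial

namespace MP44e4f6

private theorem QP_pos : Primrec (fun z : ℤ => z.toNat) := by
  have h : Primrec fun z : ℤ => if Encodable.encode z % 2 = 0 then Encodable.encode z / 2 else 0 :=
    Primrec.ite (Primrec.eq.comp (Primrec.nat_mod.comp Primrec.encode (Primrec.const 2)) (Primrec.const 0))
      (Primrec.nat_div.comp Primrec.encode (Primrec.const 2)) (Primrec.const 0)
  refine h.of_eq fun z => ?_
  cases z with
  | ofNat n =>
    have e : Encodable.encode (Int.ofNat n) = 2 * n := rfl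
    rw [e]
    simp
  | negSucc n =>
    have e : Encodable.encode (Int.negSucc n) = 2 * n + 1 := rfl
    rw [e, if_neg (by omega)]
    simp

private theorem QP_neg : Primrec (fun z : ℤ => (-z).toNat) := by
  have h : Primrec fun z : ℤ => if Encodable.encode z % 2 = 0 then 0 else Encodable.encode z / 2 + 1 :=
    Primrec.ite (Primrec.eq.comp (Primrec.nat_mod.comp Primrec.encode (Primrec.const 2)) (Primrec.const 0))
      (Primrec.const 0) (Primrec.succ.comp (Primrec.nat_div.comp Primrec.encode (Primrec.const 2)))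
  refine h.of_eq fun z => ?_
  cases z with
  | ofNat n =>
    have e : Encodable.encode (Int.ofNat n) = 2 * n := rfl
    rw [e, if_pos (by omega)]
    simp
  | negSucc n =>
    have e : Encodable.encode (Int.negSucc n) = 2 * n + 1 := rfl
    rw [e, if_neg (by omega)]
    have : (-(Int.negSucc n)).toNat = n + 1 := rfl
    rw [this]
    omega

private theorem QP_sub : Primrec₂ (fun a b : ℕ => (a : ℤ) - b) := by
  have h : Primrec fun p : ℕ × ℕ => if p.2 ≤ p.1 then 2 * (p.1 - p.2) else 2 * (p.2 - p.1 - 1) + 1 :=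
    Primrec.ite (Primrec.nat_le.comp Primrec.snd Primrec.fst)
      (Primrec.nat_mul.comp (Primrec.const 2) (Primrec.nat_sub.comp Primrec.fst Primrec.snd))
      (Primrec.succ.comp (Primrec.nat_mul.comp (Primrec.const 2) (Primrec.nat_sub.comp
        (Primrec.nat_sub.comp Primrec.snd Primrec.fst) (Primrec.const 1))))
  refine Primrec.encode_iff.1 (h.of_eq fun p => ?_)
  obtain ⟨a, b⟩ := p
  by_cases hab : b ≤ a
  · have e : (a : ℤ) - b = Int.ofNat (a - b) := by
      rw [Int.ofNat_eq_natCast, Nat.cast_sub hab]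
    have e2 : Encodable.encode (Int.ofNat (a - b)) = 2 * (a - b) := rfl
    simp only [if_pos hab]
    rw [e, e2]
  · have e : (a : ℤ) - b = Int.negSucc (b - a - 1) := by
      rw [Int.negSucc_eq]
      omega
    have e2 : Encodable.encode (Int.negSucc (b - a - 1)) = 2 * (b - a - 1) + 1 := rfl
    simp only [if_neg hab]
    rw [e, e2]

theorem primrec_int_add : Primrec₂ (fun a b : ℤ => a + b) := by
  have h : Primrec fun p : ℤ × ℤ => ((p.1.toNat + p.2.toNat : ℕ) : ℤ) - ((-p.1).toNat + (-p.2).toNat : ℕ) :=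
    QP_sub.comp (Primrec.nat_add.comp (QP_pos.comp Primrec.fst) (QP_pos.comp Primrec.snd))
      (Primrec.nat_add.comp (QP_neg.comp Primrec.fst) (QP_neg.comp Primrec.snd))
  refine h.of_eq fun p => ?_
  show _ = p.1 + p.2
  omega

theorem primrec_int_mul : Primrec₂ (fun a b : ℤ => a * b) := by
  have h : Primrec fun p : ℤ × ℤ => ((p.1.toNat * p.2.toNat + (-p.1).toNat * (-p.2).toNat : ℕ) : ℤ) -
      (p.1.toNat * (-p.2).toNat + (-p.1).toNat * p.2.toNat : ℕ) :=
    QP_sub.comp (Primrec.nat_add.comp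
      (Primrec.nat_mul.comp (QP_pos.comp Primrec.fst) (QP_pos.comp Primrec.snd))
      (Primrec.nat_mul.comp (QP_neg.comp Primrec.fst) (QP_neg.comp Primrec.snd)))
      (Primrec.nat_add.comp
      (Primrec.nat_mul.comp (QP_pos.comp Primrec.fst) (QP_neg.comp Primrec.snd))
      (Primrec.nat_mul.comp (QP_neg.comp Primrec.fst) (QP_pos.comp Primrec.snd)))
  refine h.of_eq fun p => ?_
  show _ = p.1 * p.2
  have e1 : p.1 = (p.1.toNat : ℤ) - ((-p.1).toNat : ℤ) := by omega
  have e2 : p.2 = (p.2.toNat : ℤ) - ((-p.2).toNat : ℤ) := by omega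
  conv_rhs => rw [e1, e2]
  push_cast
  ring

theorem primrec_int_neg : Primrec (fun a : ℤ => -a) := by
  have h : Primrec fun z : ℤ => (((-z).toNat : ℕ) : ℤ) - (z.toNat : ℕ) := QP_sub.comp QP_neg QP_pos
  refine h.of_eq fun z => ?_
  omega

theorem primrec_int_le : PrimrecRel (fun a b : ℤ => a ≤ b) := by
  have h : PrimrecPred fun p : ℤ × ℤ => p.1.toNat + (-p.2).toNat ≤ p.2.toNat + (-p.1).toNat :=
    Primrec.nat_le.comp (Primrec.nat_add.comp (QP_pos.comp Primrec.fst) (QP_neg.comp Primrec.snd))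
      (Primrec.nat_add.comp (QP_pos.comp Primrec.snd) (QP_neg.comp Primrec.fst))
  refine h.of_eq fun p => ?_
  omega

theorem primrec_int_natCast : Primrec (fun n : ℕ => (n : ℤ)) := by
  have h : Primrec fun n : ℕ => (n : ℤ) - ((0 : ℕ) : ℤ) := QP_sub.comp Primrec.id (Primrec.const 0)
  refine h.of_eq fun n => ?_
  simp

/-- the polynomial with a given list of coefficients -/
noncomputable def toP (l : List ℤ) : ℚ[X] :=
  ∑ i ∈ Finset.range l.length, C ((l.getD i 0 : ℤ) : ℚ) * X ^ i

/-- the polynomial with a given code -/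
noncomputable def toQ (z : ℕ × List ℤ) : ℚ[X] := C (1 / ((z.1 : ℚ) + 1)) * toP z.2

private theorem QP_coeff (l : List ℤ) (i : ℕ) : (toP l).coeff i = ((l.getD i 0 : ℤ) : ℚ) := by
  unfold toP
  rw [finsetSum_coeff]
  simp only [coeff_C_mul, coeff_X_pow, mul_ite, mul_one, mul_zero]
  rw [Finset.sum_ite_eq]
  split_ifs with h
  · rfl
  · rw [Finset.mem_range, not_lt] at h
    rw [List.getD_eq_default _ _ h, Int.cast_zero]

private theorem QP_coeffQ (z : ℕ × List ℤ) (i : ℕ) :
    (toQ z).coeff i = 1 / ((z.1 : ℚ) + 1) * ((z.2.getD i 0 : ℤ) : ℚ) := by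
  unfold toQ
  rw [coeff_C_mul, QP_coeff]

private theorem QP_getD (N : ℕ) (f : ℕ → ℤ) (i : ℕ) :
    ((List.range N).map f).getD i 0 = if i < N then f i else 0 := by
  rw [List.getD_eq_getElem?_getD, List.getElem?_map]
  split_ifs with h
  · rw [List.getElem?_range h]
    rfl
  · rw [List.getElem?_eq_none (by rw [List.length_range]; omega)]
    rfl

private theorem QP_d (n : ℕ) : ((n : ℚ) + 1) ≠ 0 := by positivity

theorem toQ_surjective : Function.Surjective toQ := by
  intro p
  obtain ⟨D, hD⟩ : ∃ D : ℕ, D = ∏ i ∈ Finset.range (p.natDegree + 1), (p.coeff i).den := ⟨_, rfl⟩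
  have hD0 : D ≠ 0 := by
    rw [hD]
    exact Finset.prod_ne_zero_iff.2 fun i _ => (p.coeff i).den_ne_zero
  have hDq : (D : ℚ) ≠ 0 := by exact_mod_cast hD0
  have hD1 : ((D - 1 : ℕ) : ℚ) + 1 = D := by
    have : D - 1 + 1 = D := by omega
    exact_mod_cast this
  refine ⟨(D - 1, (List.range (p.natDegree + 1)).map fun i => (p.coeff i * D).num), ?_⟩
  ext i
  rw [QP_coeffQ]
  simp only []
  rw [QP_getD, hD1]
  split_ifs with h
  · have h1 : (p.coeff i).den ∣ D := by
      rw [hD]
      exact Finset.dvd_prod_of_mem _ (Finset.mem_range.2 h)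
    obtain ⟨c, hc⟩ := h1
    have h2 : p.coeff i * D = (((p.coeff i).num * c : ℤ) : ℚ) := by
      rw [hc]
      push_cast
      have h3 := Rat.mul_den_eq_num (p.coeff i)
      rw [← mul_assoc, h3]
    rw [h2, Rat.num_intCast, ← h2]
    field_simp
  · rw [Int.cast_zero, mul_zero]
    exact (coeff_eq_zero_of_natDegree_lt (by omega)).symm

def padd (z w : ℕ × List ℤ) : ℕ × List ℤ :=
  (z.1 * w.1 + z.1 + w.1, (List.range (max z.2.length w.2.length)).map fun i =>
    ((w.1 + 1 : ℕ) : ℤ) * z.2.getD i 0 + ((z.1 + 1 : ℕ) : ℤ) * w.2.getD i 0)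

def pmul (z w : ℕ × List ℤ) : ℕ × List ℤ :=
  (z.1 * w.1 + z.1 + w.1, (List.range (z.2.length + w.2.length)).map fun n =>
    ((List.range (n + 1)).map fun i => z.2.getD i 0 * w.2.getD (n - i) 0).sum)

def pneg (z : ℕ × List ℤ) : ℕ × List ℤ := (z.1, z.2.map fun a => -a)

private theorem QP_den : Primrec fun p : (ℕ × List ℤ) × (ℕ × List ℤ) => p.1.1 * p.2.1 + p.1.1 + p.2.1 :=
  Primrec.nat_add.comp (Primrec.nat_add.comp
    (Primrec.nat_mul.comp (Primrec.fst.comp Primrec.fst) (Primrec.fst.comp Primrec.snd))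
    (Primrec.fst.comp Primrec.fst)) (Primrec.fst.comp Primrec.snd)

private theorem QP_get {α : Type} [Primcodable α] {l : α → List ℤ} {i : α → ℕ} (hl : Primrec l) (hi : Primrec i) :
    Primrec fun x => (l x).getD (i x) 0 := (Primrec.list_getD (0 : ℤ)).comp hl hi

theorem primrec_padd : Primrec₂ padd := by
  refine Primrec.pair QP_den ?_
  refine Primrec.list_map (Primrec.list_range.comp (Primrec.nat_max.comp
    (Primrec.list_length.comp (Primrec.snd.comp Primrec.fst))
    (Primrec.list_length.comp (Primrec.snd.comp Primrec.snd)))) ?_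
  refine primrec_int_add.comp (primrec_int_mul.comp (primrec_int_natCast.comp (Primrec.succ.comp
    (Primrec.fst.comp (Primrec.snd.comp Primrec.fst)))) (QP_get (Primrec.snd.comp (Primrec.fst.comp Primrec.fst))
    Primrec.snd)) (primrec_int_mul.comp (primrec_int_natCast.comp (Primrec.succ.comp
    (Primrec.fst.comp (Primrec.fst.comp Primrec.fst)))) (QP_get (Primrec.snd.comp (Primrec.snd.comp Primrec.fst))
    Primrec.snd))

private theorem QP_sum : Primrec (fun l : List ℤ => l.sum) := by
  have h : Primrec fun l : List ℤ => l.foldr (fun b s => b + s) 0 :=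
    Primrec.list_foldr Primrec.id (Primrec.const 0) (h := fun _ p => p.1 + p.2)
      (primrec_int_add.comp (Primrec.fst.comp Primrec.snd) (Primrec.snd.comp Primrec.snd))
  exact h.of_eq fun l => rfl

theorem primrec_pmul : Primrec₂ pmul := by
  refine Primrec.pair QP_den ?_
  refine Primrec.list_map (Primrec.list_range.comp (Primrec.nat_add.comp
    (Primrec.list_length.comp (Primrec.snd.comp Primrec.fst))
    (Primrec.list_length.comp (Primrec.snd.comp Primrec.snd)))) ?_
  refine QP_sum.comp (Primrec.list_map (Primrec.list_range.comp (Primrec.succ.comp Primrec.snd)) ?_)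
  exact primrec_int_mul.comp
    (QP_get (Primrec.snd.comp (Primrec.fst.comp (Primrec.fst.comp Primrec.fst))) Primrec.snd)
    (QP_get (Primrec.snd.comp (Primrec.snd.comp (Primrec.fst.comp Primrec.fst)))
      (Primrec.nat_sub.comp (Primrec.snd.comp Primrec.fst) Primrec.snd))

theorem primrec_pneg : Primrec pneg :=
  Primrec.pair Primrec.fst (Primrec.list_map Primrec.snd (primrec_int_neg.comp Primrec.snd))

theorem toQ_padd (z w : ℕ × List ℤ) : toQ (padd z w) = toQ z + toQ w := by
  ext i
  rw [coeff_add, QP_coeffQ, QP_coeffQ, QP_coeffQ]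
  have h1 : (padd z w).2.getD i 0 =
      ((w.1 + 1 : ℕ) : ℤ) * z.2.getD i 0 + ((z.1 + 1 : ℕ) : ℤ) * w.2.getD i 0 := by
    show ((List.range (max z.2.length w.2.length)).map fun i =>
      ((w.1 + 1 : ℕ) : ℤ) * z.2.getD i 0 + ((z.1 + 1 : ℕ) : ℤ) * w.2.getD i 0).getD i 0 = _
    rw [QP_getD]
    split_ifs with h
    · rfl
    · rw [not_lt, max_le_iff] at h
      rw [List.getD_eq_default _ _ h.1, List.getD_eq_default _ _ h.2, mul_zero, mul_zero, add_zero]
  have h2 : (((padd z w).1 : ℕ) : ℚ) + 1 = ((z.1 : ℚ) + 1) * ((w.1 : ℚ) + 1) := by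
    show ((z.1 * w.1 + z.1 + w.1 : ℕ) : ℚ) + 1 = _
    push_cast
    ring
  rw [h1, h2]
  have e1 := QP_d z.1
  have e2 := QP_d w.1
  push_cast
  field_simp

private theorem QP_sumr (n : ℕ) (f : ℕ → ℤ) : ((List.range n).map f).sum = ∑ i ∈ Finset.range n, f i := by
  induction n with
  | zero => rfl
  | succ n ih => rw [List.sum_range_succ, ih, Finset.sum_range_succ]

theorem toQ_pmul (z w : ℕ × List ℤ) : toQ (pmul z w) = toQ z * toQ w := by
  ext n
  rw [coeff_mul, Finset.Nat.sum_antidiagonal_eq_sum_range_succ (fun i j => (toQ z).coeff i * (toQ w).coeff j), QP_coeffQ]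
  have h1 : (pmul z w).2.getD n 0 = ∑ i ∈ Finset.range (n + 1), z.2.getD i 0 * w.2.getD (n - i) 0 := by
    show ((List.range (z.2.length + w.2.length)).map fun n =>
      ((List.range (n + 1)).map fun i => z.2.getD i 0 * w.2.getD (n - i) 0).sum).getD n 0 = _
    rw [QP_getD]
    split_ifs with h
    · exact QP_sumr _ _
    · refine (Finset.sum_eq_zero fun i _ => ?_).symm
      rw [not_lt] at h
      by_cases hi : z.2.length ≤ i
      · rw [List.getD_eq_default _ _ hi, zero_mul]
      · rw [List.getD_eq_default w.2 _ (by omega), mul_zero]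
  have h2 : (((pmul z w).1 : ℕ) : ℚ) + 1 = ((z.1 : ℚ) + 1) * ((w.1 : ℚ) + 1) := by
    show ((z.1 * w.1 + z.1 + w.1 : ℕ) : ℚ) + 1 = _
    push_cast
    ring
  rw [h1, h2, Int.cast_sum, Finset.mul_sum]
  refine Finset.sum_congr rfl fun i _ => ?_
  rw [QP_coeffQ, QP_coeffQ]
  have e1 := QP_d z.1
  have e2 := QP_d w.1
  push_cast
  field_simp

theorem toQ_pneg (z : ℕ × List ℤ) : toQ (pneg z) = - toQ z := by
  ext i
  rw [coeff_neg, QP_coeffQ, QP_coeffQ]
  have h1 : (pneg z).2.getD i 0 = - z.2.getD i 0 := by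
    show (z.2.map fun a => -a).getD i 0 = _
    rw [List.getD_eq_getElem?_getD, List.getD_eq_getElem?_getD, List.getElem?_map]
    cases z.2[i]? <;> simp
  have h2 : (pneg z).1 = z.1 := rfl
  rw [h1, h2]
  push_cast
  ring

theorem toQ_const (n : ℕ) (m : ℤ) : toQ (n, [m]) = C ((m : ℚ) / ((n : ℚ) + 1)) := by
  unfold toQ toP
  simp only [List.length_cons, List.length_nil, zero_add, Finset.sum_range_one, List.getD_cons_zero, pow_zero, mul_one]
  rw [← C_mul, one_div, div_eq_inv_mul]

theorem primrec_toQ_eq : PrimrecRel (fun z w : ℕ × List ℤ => toQ z = toQ w) := by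
  have hlen : Primrec fun p : (ℕ × List ℤ) × (ℕ × List ℤ) => List.range (max p.1.2.length p.2.2.length) :=
    Primrec.list_range.comp (Primrec.nat_max.comp
      (Primrec.list_length.comp (Primrec.snd.comp Primrec.fst))
      (Primrec.list_length.comp (Primrec.snd.comp Primrec.snd)))
  have h1 : Primrec fun p : (ℕ × List ℤ) × (ℕ × List ℤ) => (List.range (max p.1.2.length p.2.2.length)).map
      fun i => ((p.2.1 + 1 : ℕ) : ℤ) * p.1.2.getD i 0 :=
    Primrec.list_map hlen (primrec_int_mul.comp (primrec_int_natCast.comp (Primrec.succ.comp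
      (Primrec.fst.comp (Primrec.snd.comp Primrec.fst)))) (QP_get (Primrec.snd.comp (Primrec.fst.comp Primrec.fst))
      Primrec.snd))
  have h2 : Primrec fun p : (ℕ × List ℤ) × (ℕ × List ℤ) => (List.range (max p.1.2.length p.2.2.length)).map
      fun i => ((p.1.1 + 1 : ℕ) : ℤ) * p.2.2.getD i 0 :=
    Primrec.list_map hlen (primrec_int_mul.comp (primrec_int_natCast.comp (Primrec.succ.comp
      (Primrec.fst.comp (Primrec.fst.comp Primrec.fst)))) (QP_get (Primrec.snd.comp (Primrec.snd.comp Primrec.fst))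
      Primrec.snd))
  refine (Primrec.eq.comp h1 h2).of_eq fun p => ?_
  obtain ⟨z, w⟩ := p
  have e1 := QP_d z.1
  have e2 := QP_d w.1
  have key : ∀ i, ((w.1 + 1 : ℕ) : ℤ) * z.2.getD i 0 = ((z.1 + 1 : ℕ) : ℤ) * w.2.getD i 0 ↔
      (toQ z).coeff i = (toQ w).coeff i := by
    intro i
    rw [QP_coeffQ, QP_coeffQ]
    have e3 : (((w.1 + 1 : ℕ) : ℤ) * z.2.getD i 0 = ((z.1 + 1 : ℕ) : ℤ) * w.2.getD i 0) ↔
        ((w.1 : ℚ) + 1) * ((z.2.getD i 0 : ℤ) : ℚ) = ((z.1 : ℚ) + 1) * ((w.2.getD i 0 : ℤ) : ℚ) := by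
      constructor
      · intro h
        exact_mod_cast congrArg (fun t : ℤ => (t : ℚ)) h
      · intro h
        exact_mod_cast h
    rw [e3]
    constructor
    · intro h
      field_simp
      linarith
    · intro h
      field_simp at h
      linarith
  constructor
  · intro h
    ext i
    rw [← key]
    by_cases hi : i < max z.2.length w.2.length
    · have h3 := congrArg (fun l : List ℤ => l.getD i 0) h
      simp only [] at h3
      rw [QP_getD, QP_getD, if_pos hi, if_pos hi] at h3
      exact h3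
    · rw [not_lt, max_le_iff] at hi
      rw [List.getD_eq_default _ _ hi.1, List.getD_eq_default _ _ hi.2, mul_zero, mul_zero]
  · intro h
    refine List.map_congr_left fun i _ => ?_
    rw [key, h]

end MP44e4f6
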