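import Mathlib

/-!
Leaf Sg (MATHLIB ONLY): closure properties of semi-decidable predicates.

`Sg P`: there is a computable `c` such that `P x` iff `c x n = true` for some `n`.

Hints. `and`: search over `Nat.unpair`. `ball` (bounded universal quantifier): the witness is the code of a `List ℕ` of length
`k x` (`Encodable.decode (α := List ℕ) n`, `Computable.decode`, `List.getD`, or `Nat.rec` with `Computable.nat_rec` for the
bounded conjunction). `bex`, `dec_ball`, `dec_bex`: `Computable.nat_rec`. `decide`: Post's theorem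
`ComputablePred.computable_iff_re_compl_re'`, or a search for `n` with `c x n = true` or `c' x n = true`
(`Partrec.rfind` / `Nat.rfind`).
-/

namespace MP44e4f6

def Sg {α : Type} [Primcodable α] (P : α → Prop) : Prop :=
  ∃ c : α → ℕ → Bool, Computable₂ c ∧ ∀ x, P x ↔ ∃ n, c x n = true

/-- decidable predicates -/
def Dc {α : Type} [Primcodable α] (P : α → Prop) : Prop :=
  ∃ c : α → Bool, Computable c ∧ ∀ x, P x ↔ c x = true

variable {α β : Type} [Primcodable α] [Primcodable β]

private theorem Sg_dc_of_eq {P Q : α → Prop} (h : Dc P) (hPQ : ∀ x, P x ↔ Q x) : Dc Q := by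
  obtain ⟨c, hc, h⟩ := h
  exact ⟨c, hc, fun x => (hPQ x).symm.trans (h x)⟩

theorem Dc.sg {P : α → Prop} (h : Dc P) : Sg P := by
  obtain ⟨c, hc, h⟩ := h
  refine ⟨fun x _ => c x, hc.comp Computable.fst, fun x => ?_⟩
  rw [h x]
  exact ⟨fun h => ⟨0, h⟩, fun ⟨_, h⟩ => h⟩

theorem Dc.of_primrec {P : α → Prop} (h : PrimrecPred P) : Dc P := by
  obtain ⟨_, h⟩ := h
  exact ⟨fun x => decide (P x), h.to_comp, fun x => decide_eq_true_iff.symm⟩

theorem Dc.comp {P : β → Prop} (h : Dc P) {f : α → β} (hf : Computable f) : Dc (fun x => P (f x)) := by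
  obtain ⟨c, hc, h⟩ := h
  exact ⟨fun x => c (f x), hc.comp hf, fun x => h (f x)⟩

theorem Dc.and {P Q : α → Prop} (h : Dc P) (h' : Dc Q) : Dc (fun x => P x ∧ Q x) := by
  obtain ⟨c, hc, h⟩ := h
  obtain ⟨c', hc', h'⟩ := h'
  refine ⟨fun x => c x && c' x, Primrec.and.to_comp.comp hc hc', fun x => ?_⟩
  beta_reduce
  rw [Bool.and_eq_true, h x, h' x]

theorem Dc.or {P Q : α → Prop} (h : Dc P) (h' : Dc Q) : Dc (fun x => P x ∨ Q x) := by
  obtain ⟨c, hc, h⟩ := h
  obtain ⟨c', hc', h'⟩ := h'
  refine ⟨fun x => c x || c' x, Primrec.or.to_comp.comp hc hc', fun x => ?_⟩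
  beta_reduce
  rw [Bool.or_eq_true, h x, h' x]

theorem Dc.not {P : α → Prop} (h : Dc P) : Dc (fun x => ¬ P x) := by
  obtain ⟨c, hc, h⟩ := h
  refine ⟨fun x => !c x, Primrec.not.to_comp.comp hc, fun x => ?_⟩
  beta_reduce
  rw [h x]
  cases c x <;> simp

theorem Dc.ball {P : α → ℕ → Prop} (h : Dc (fun z : α × ℕ => P z.1 z.2)) {k : α → ℕ}
    (hk : Computable k) : Dc (fun x => ∀ i < k x, P x i) := by
  obtain ⟨c, hc, h⟩ := h
  refine ⟨fun x => Nat.rec (motive := fun _ => Bool) true (fun i b => b && c (x, i)) (k x), ?_, fun x => ?_⟩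
  · exact Computable.nat_rec hk (Computable.const true) (h := fun x p => p.2 && c (x, p.1))
      (Primrec.and.to_comp.comp (Computable.snd.comp Computable.snd)
        (hc.comp (Computable.fst.pair (Computable.fst.comp Computable.snd))))
  · beta_reduce
    generalize k x = m
    induction m with
    | zero => simp
    | succ m ih =>
      show _ ↔ (Nat.rec (motive := fun _ => Bool) true (fun i b => b && c (x, i)) m && c (x, m)) = true
      rw [Bool.and_eq_true, ← ih, ← h (x, m)]
      constructor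
      · intro h1
        exact ⟨fun i hi => h1 i (Nat.lt_succ_of_lt hi), h1 m (Nat.lt_succ_self m)⟩
      · rintro ⟨h1, h2⟩ i hi
        rcases Nat.lt_succ_iff_lt_or_eq.1 hi with h3 | rfl
        · exact h1 i h3
        · exact h2

theorem Dc.bex {P : α → ℕ → Prop} (h : Dc (fun z : α × ℕ => P z.1 z.2)) {k : α → ℕ}
    (hk : Computable k) : Dc (fun x => ∃ i < k x, P x i) := by
  refine Sg_dc_of_eq (Dc.not (Dc.ball (P := fun x i => ¬ P x i) (Dc.not h) hk)) fun x => ?_
  constructor
  · intro h1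
    by_contra h2
    exact h1 fun i hi h3 => h2 ⟨i, hi, h3⟩
  · rintro ⟨i, hi, h1⟩ h2
    exact h2 i hi h1

theorem Dc.ball_list {P : α → β → Prop} (h : Dc (fun z : α × β => P z.1 z.2)) {l : α → List β}
    (hl : Computable l) : Dc (fun x => ∀ y ∈ l x, P x y) := by
  obtain ⟨c, hc, h⟩ := h
  have h1 : Dc (fun z : α × ℕ => ∀ y, (l z.1)[z.2]? = some y → P z.1 y) := by
    refine ⟨fun z => Option.casesOn (motive := fun _ => Bool) ((l z.1)[z.2]?) true (fun y => c (z.1, y)),
      Computable.option_casesOn (Computable.list_getElem?.comp (hl.comp Computable.fst) Computable.snd)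
        (Computable.const true) (hc.comp ((Computable.fst.comp Computable.fst).pair Computable.snd)), fun z => ?_⟩
    beta_reduce
    cases (l z.1)[z.2]? with
    | none => simp
    | some y =>
      show _ ↔ c (z.1, y) = true
      rw [← h (z.1, y)]
      exact ⟨fun h2 => h2 y rfl, fun h2 y' hy' => by rw [← Option.some.inj hy']; exact h2⟩
  refine Sg_dc_of_eq (Dc.ball (P := fun x i => ∀ y, (l x)[i]? = some y → P x y) h1
    (Computable.list_length.comp hl)) fun x => ?_
  constructor
  · intro hx y hy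
    obtain ⟨i, hi, rfl⟩ := List.mem_iff_getElem.1 hy
    exact hx i hi _ (List.getElem?_eq_getElem hi)
  · intro hx i _ y hy
    exact hx y (List.mem_of_getElem? hy)

theorem Sg.of_eq {P Q : α → Prop} (h : Sg P) (hPQ : ∀ x, P x ↔ Q x) : Sg Q := by
  obtain ⟨c, hc, h⟩ := h
  exact ⟨c, hc, fun x => (hPQ x).symm.trans (h x)⟩

theorem Sg.comp {P : β → Prop} (h : Sg P) {f : α → β} (hf : Computable f) : Sg (fun x => P (f x)) := by
  obtain ⟨c, hc, h⟩ := h
  exact ⟨fun x n => c (f x) n, hc.comp (hf.comp Computable.fst) Computable.snd, fun x => h (f x)⟩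

theorem Sg.and {P Q : α → Prop} (h : Sg P) (h' : Sg Q) : Sg (fun x => P x ∧ Q x) := by
  obtain ⟨c, hc, h⟩ := h
  obtain ⟨c', hc', h'⟩ := h'
  refine ⟨fun x n => c x n.unpair.1 && c' x n.unpair.2, Primrec.and.to_comp.comp
    (hc.comp Computable.fst (Computable.fst.comp (Computable.unpair.comp Computable.snd)))
    (hc'.comp Computable.fst (Computable.snd.comp (Computable.unpair.comp Computable.snd))), fun x => ?_⟩
  beta_reduce
  rw [h x, h' x]
  constructor
  · rintro ⟨⟨n, hn⟩, m, hm⟩
    refine ⟨Nat.pair n m, ?_⟩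
    rw [Nat.unpair_pair, Bool.and_eq_true]
    exact ⟨hn, hm⟩
  · rintro ⟨n, hn⟩
    rw [Bool.and_eq_true] at hn
    exact ⟨⟨_, hn.1⟩, _, hn.2⟩

theorem Sg.or {P Q : α → Prop} (h : Sg P) (h' : Sg Q) : Sg (fun x => P x ∨ Q x) := by
  obtain ⟨c, hc, h⟩ := h
  obtain ⟨c', hc', h'⟩ := h'
  refine ⟨fun x n => c x n || c' x n, Primrec.or.to_comp.comp hc hc', fun x => ?_⟩
  beta_reduce
  rw [h x, h' x]
  constructor
  · rintro (⟨n, hn⟩ | ⟨n, hn⟩)
    · exact ⟨n, by rw [hn, Bool.true_or]⟩
    · exact ⟨n, by rw [hn, Bool.or_true]⟩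
  · rintro ⟨n, hn⟩
    rw [Bool.or_eq_true] at hn
    rcases hn with hn | hn
    · exact Or.inl ⟨n, hn⟩
    · exact Or.inr ⟨n, hn⟩

theorem Sg.ex {P : α → β → Prop} (h : Sg (fun z : α × β => P z.1 z.2)) : Sg (fun x => ∃ y, P x y) := by
  obtain ⟨c, hc, h⟩ := h
  refine ⟨fun x n => Option.casesOn (motive := fun _ => Bool) (Encodable.decode (α := β) n.unpair.1) false
    (fun y => c (x, y) n.unpair.2), Computable.option_casesOn
      (Computable.decode.comp (Computable.fst.comp (Computable.unpair.comp Computable.snd)))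
      (Computable.const false) (hc.comp ((Computable.fst.comp Computable.fst).pair Computable.snd)
        (Computable.snd.comp (Computable.unpair.comp (Computable.snd.comp Computable.fst)))), fun x => ?_⟩
  constructor
  · rintro ⟨y, hy⟩
    obtain ⟨n, hn⟩ := (h (x, y)).1 hy
    refine ⟨Nat.pair (Encodable.encode y) n, ?_⟩
    beta_reduce
    rw [Nat.unpair_pair]
    show Option.casesOn (motive := fun _ => Bool) (Encodable.decode (α := β) (Encodable.encode y)) false
      (fun y => c (x, y) n) = true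
    rw [Encodable.encodek]
    exact hn
  · rintro ⟨n, hn⟩
    beta_reduce at hn
    cases hd : (Encodable.decode (α := β) n.unpair.1) with
    | none =>
      rw [hd] at hn
      exact absurd hn Bool.false_ne_true
    | some y =>
      rw [hd] at hn
      exact ⟨y, (h (x, y)).2 ⟨_, hn⟩⟩

theorem Sg.ball {P : α → ℕ → Prop} (h : Sg (fun z : α × ℕ => P z.1 z.2)) {k : α → ℕ}
    (hk : Computable k) : Sg (fun x => ∀ i < k x, P x i) := by
  obtain ⟨c, hc, h⟩ := h
  have h1 : Dc (fun w : ((α × ℕ) × ℕ) × ℕ => c (w.1.1.1, w.1.2) w.2 = true) :=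
    ⟨fun w => c (w.1.1.1, w.1.2) w.2, hc.comp ((Computable.fst.comp (Computable.fst.comp Computable.fst)).pair
      (Computable.snd.comp Computable.fst)) Computable.snd, fun w => Iff.rfl⟩
  have h2 : Dc (fun w : (α × ℕ) × ℕ => ∃ n < w.1.2, c (w.1.1, w.2) n = true) :=
    Dc.bex (P := fun (w : (α × ℕ) × ℕ) n => c (w.1.1, w.2) n = true) h1
      (k := fun w => w.1.2) (Computable.snd.comp Computable.fst)
  have h3 : Dc (fun z : α × ℕ => ∀ i < k z.1, ∃ n < z.2, c (z.1, i) n = true) :=
    Dc.ball (P := fun (z : α × ℕ) i => ∃ n < z.2, c (z.1, i) n = true) h2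
      (k := fun z => k z.1) (hk.comp Computable.fst)
  obtain ⟨d, hd, h4⟩ := h3
  refine ⟨fun x m => d (x, m), hd, fun x => ?_⟩
  constructor
  · intro hx
    have h5 : ∀ i, i < k x → ∃ n, c (x, i) n = true := fun i hi => (h (x, i)).1 (hx i hi)
    choose! n hn using h5
    refine ⟨(Finset.range (k x)).sup n + 1, (h4 (x, _)).1 fun i hi => ⟨n i, ?_, hn i hi⟩⟩
    exact Nat.lt_succ_of_le (Finset.le_sup (Finset.mem_range.2 hi))
  · rintro ⟨m, hm⟩ i hi
    obtain ⟨n, -, hn⟩ := (h4 (x, m)).2 hm i hi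
    exact (h (x, i)).2 ⟨n, hn⟩

theorem Sg.ball_list {P : α → β → Prop} (h : Sg (fun z : α × β => P z.1 z.2)) {l : α → List β}
    (hl : Computable l) : Sg (fun x => ∀ y ∈ l x, P x y) := by
  obtain ⟨c, hc, h⟩ := h
  have h1 : Sg (fun z : α × ℕ => ∀ y, (l z.1)[z.2]? = some y → P z.1 y) := by
    refine ⟨fun z n => Option.casesOn (motive := fun _ => Bool) ((l z.1)[z.2]?) true (fun y => c (z.1, y) n),
      Computable.option_casesOn (Computable.list_getElem?.comp (hl.comp (Computable.fst.comp Computable.fst))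
        (Computable.snd.comp Computable.fst)) (Computable.const true)
        (hc.comp ((Computable.fst.comp (Computable.fst.comp Computable.fst)).pair Computable.snd)
          (Computable.snd.comp Computable.fst)), fun z => ?_⟩
    beta_reduce
    cases (l z.1)[z.2]? with
    | none => simp
    | some y =>
      show _ ↔ ∃ n, c (z.1, y) n = true
      rw [← h (z.1, y)]
      exact ⟨fun h2 => h2 y rfl, fun h2 y' hy' => by rw [← Option.some.inj hy']; exact h2⟩
  refine Sg.of_eq (Sg.ball (P := fun x i => ∀ y, (l x)[i]? = some y → P x y) h1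
    (Computable.list_length.comp hl)) fun x => ?_
  constructor
  · intro hx y hy
    obtain ⟨i, hi, rfl⟩ := List.mem_iff_getElem.1 hy
    exact hx i hi _ (List.getElem?_eq_getElem hi)
  · intro hx i _ y hy
    exact hx y (List.mem_of_getElem? hy)

/-- The choice between two semi-decidable predicates. -/
theorem Sg.choose {P Q : α → Prop} (h : Sg P) (h' : Sg Q) (hPQ : ∀ x, P x ∨ Q x) :
    ∃ D : α → Bool, Computable D ∧ ∀ x, (D x = true → P x) ∧ (D x = false → Q x) := by
  obtain ⟨c, hc, h⟩ := h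
  obtain ⟨c', hc', h'⟩ := h'
  have hex : ∀ x, ∃ n, (c x n || c' x n) = true := by
    intro x
    rcases hPQ x with hx | hx
    · obtain ⟨n, hn⟩ := (h x).1 hx
      exact ⟨n, by rw [hn, Bool.true_or]⟩
    · obtain ⟨n, hn⟩ := (h' x).1 hx
      exact ⟨n, by rw [hn, Bool.or_true]⟩
  have hp : Computable₂ fun x n => (c x n || c' x n) := Primrec.or.to_comp.comp hc hc'
  have hN : Computable fun x => Nat.find (hex x) := by
    refine Partrec.of_eq_tot (Partrec.rfind (p := fun x => fun n => Part.some (c x n || c' x n)) hp.partrec₂)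
      fun x => ?_
    rw [Nat.mem_rfind]
    refine ⟨Part.mem_some_iff.2 (Nat.find_spec (hex x)).symm, fun {m} hm => Part.mem_some_iff.2 ?_⟩
    have h1 := Nat.find_min (hex x) hm
    cases hb : (c x m || c' x m) with
    | false => rfl
    | true => exact absurd hb h1
  refine ⟨fun x => c x (Nat.find (hex x)), hc.comp Computable.id hN, fun x => ⟨fun hx => (h x).2 ⟨_, hx⟩, fun hx => ?_⟩⟩
  have h1 := Nat.find_spec (hex x)
  rw [Bool.or_eq_true] at h1
  rcases h1 with h1 | h1
  · beta_reduce at hx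
    rw [hx] at h1
    exact absurd h1 Bool.false_ne_true
  · exact (h' x).2 ⟨_, h1⟩

/-- Post's theorem -/
theorem Sg.decide {P : α → Prop} (h : Sg P) (h' : Sg (fun x => ¬ P x)) :
    ∃ D : α → Bool, Computable D ∧ ∀ x, D x = true ↔ P x := by
  obtain ⟨D, hD, h1⟩ := Sg.choose h h' fun x => em (P x)
  refine ⟨D, hD, fun x => ⟨(h1 x).1, fun hx => ?_⟩⟩
  by_contra h2
  exact (h1 x).2 (Bool.eq_false_of_not_eq_true h2) hx

end MP44e4f6
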