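import Mathlib
import Pool.Agent.Lib.MP_44e4f6_lc.Alg
import Pool.Agent.Lib.MP_44e4f6_lc.Grid
import Pool.Agent.Lib.MP_44e4f6_lc.QP
import Pool.Agent.Lib.MP_44e4f6_lc.Sg
import Pool.Agent.Lib.MP_44e4f6_lc.Input

/-!
Codes of rational data.
-/

namespace MP44e4f6

/-- inputs: the end points `p, q` of `U` and the families of single steps of `f 0, f 1, f 2, f 3` -/
abbrev Inp : Type :=
  ((ℤ × ℕ) × (ℤ × ℕ)) × (List ((ℤ × ℕ) × (ℤ × ℕ) × (ℤ × ℕ) × (ℤ × ℕ)) ×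
    List ((ℤ × ℕ) × (ℤ × ℕ) × (ℤ × ℕ) × (ℤ × ℕ)) ×
    List ((ℤ × ℕ) × (ℤ × ℕ) × (ℤ × ℕ) × (ℤ × ℕ)) ×
    List ((ℤ × ℕ) × (ℤ × ℕ) × (ℤ × ℕ) × (ℤ × ℕ)))

/-- the digits of `z` in base `W` -/
def dig (W z k : ℕ) : ℕ := z / W ^ k % W

end MP44e4f6
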