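import Mathlib
import Pool.Agent.Lib.MP_44e4f6_lc.Code

/-!
Leaf CE: signs of rational polynomial expressions are decidable. And digits.

`dc_ev`: define addition and multiplication of codes, `(a, m) + (b, n) = (a (n+1) + b (m+1), (m+1)(n+1) - 1)`,
`(a, m) (b, n) = (a b, (m+1)(n+1) - 1)`, computable by `primrec_int_add` etc. (file QP), and evaluate `e` by induction.
`exists_dig`: induction on `n`, or `finFunctionFinEquiv`.
-/

namespace MP44e4f6

private def CE_add (z w : ℤ × ℕ) : ℤ × ℕ :=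
  (z.1 * ((w.2 + 1 : ℕ) : ℤ) + w.1 * ((z.2 + 1 : ℕ) : ℤ), z.2 * w.2 + z.2 + w.2)

private def CE_mul (z w : ℤ × ℕ) : ℤ × ℕ := (z.1 * w.1, z.2 * w.2 + z.2 + w.2)

private theorem CE_den : Primrec fun p : (ℤ × ℕ) × (ℤ × ℕ) => p.1.2 * p.2.2 + p.1.2 + p.2.2 :=
  Primrec.nat_add.comp (Primrec.nat_add.comp
    (Primrec.nat_mul.comp (Primrec.snd.comp Primrec.fst) (Primrec.snd.comp Primrec.snd))
    (Primrec.snd.comp Primrec.fst)) (Primrec.snd.comp Primrec.snd)

private theorem CE_primrec_add : Primrec₂ CE_add := by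
  refine Primrec.pair ?_ CE_den
  exact primrec_int_add.comp
    (primrec_int_mul.comp (Primrec.fst.comp Primrec.fst)
      (primrec_int_natCast.comp (Primrec.succ.comp (Primrec.snd.comp Primrec.snd))))
    (primrec_int_mul.comp (Primrec.fst.comp Primrec.snd)
      (primrec_int_natCast.comp (Primrec.succ.comp (Primrec.snd.comp Primrec.fst))))

private theorem CE_primrec_mul : Primrec₂ CE_mul := by
  refine Primrec.pair ?_ CE_den
  exact primrec_int_mul.comp (Primrec.fst.comp Primrec.fst) (Primrec.fst.comp Primrec.snd)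

private theorem CE_num_add (z w : ℤ × ℕ) : num (CE_add z w) = num z + num w := by
  unfold num CE_add
  have h1 : ((z.2 : ℚ) + 1) ≠ 0 := by positivity
  have h2 : ((w.2 : ℚ) + 1) ≠ 0 := by positivity
  have h3 : ((z.2 * w.2 + z.2 + w.2 : ℕ) : ℚ) + 1 = ((z.2 : ℚ) + 1) * ((w.2 : ℚ) + 1) := by
    push_cast
    ring
  rw [h3, div_add_div _ _ h1 h2]
  congr 1
  push_cast
  ring

private theorem CE_num_mul (z w : ℤ × ℕ) : num (CE_mul z w) = num z * num w := by
  unfold num CE_mul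
  have h3 : ((z.2 * w.2 + z.2 + w.2 : ℕ) : ℚ) + 1 = ((z.2 : ℚ) + 1) * ((w.2 : ℚ) + 1) := by
    push_cast
    ring
  rw [h3, div_mul_div_comm]
  congr 1
  push_cast
  ring

private theorem CE_code {α : Type} [Primcodable α] (e : Ex) (ρ : ℕ → α → ℤ × ℕ) (hρ : ∀ i, Computable (ρ i)) :
    ∃ f : α → ℤ × ℕ, Computable f ∧ ∀ z, num (f z) = e.ev (fun i => num (ρ i z)) := by
  induction e with
  | v i => exact ⟨ρ i, hρ i, fun z => rfl⟩
  | c n =>
    refine ⟨fun _ => (n, 0), Computable.const _, fun z => ?_⟩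
    change (n : ℚ) / (((0 : ℕ) : ℚ) + 1) = (n : ℚ)
    rw [Nat.cast_zero, zero_add, div_one]
  | add a b iha ihb =>
    obtain ⟨f, hf, h⟩ := iha
    obtain ⟨g, hg, h'⟩ := ihb
    refine ⟨fun z => CE_add (f z) (g z), CE_primrec_add.to_comp.comp hf hg, fun z => ?_⟩
    rw [CE_num_add, h, h']
    rfl
  | mul a b iha ihb =>
    obtain ⟨f, hf, h⟩ := iha
    obtain ⟨g, hg, h'⟩ := ihb
    refine ⟨fun z => CE_mul (f z) (g z), CE_primrec_mul.to_comp.comp hf hg, fun z => ?_⟩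
    rw [CE_num_mul, h, h']
    rfl

private theorem CE_sign (z : ℤ × ℕ) : 0 ≤ num z ↔ 0 ≤ z.1 := by
  unfold num
  rw [le_div_iff₀ (show (0 : ℚ) < (z.2 : ℚ) + 1 by positivity), zero_mul]
  exact Int.cast_nonneg_iff

private theorem CE_nonneg : Dc (fun z : ℤ × ℕ => 0 ≤ num z) := by
  have h : PrimrecPred (fun z : ℤ × ℕ => (0 : ℤ) ≤ z.1) :=
    primrec_int_le.comp (Primrec.const 0) Primrec.fst
  obtain ⟨c, hc, h'⟩ := Dc.of_primrec h
  exact ⟨c, hc, fun z => (CE_sign z).trans (h' z)⟩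

theorem dc_ev {α : Type} [Primcodable α] (e : Ex) (ρ : ℕ → α → ℤ × ℕ) (hρ : ∀ i, Computable (ρ i)) :
    Dc (fun z : α => 0 ≤ e.ev (fun i => num (ρ i z))) := by
  obtain ⟨f, hf, h⟩ := CE_code e ρ hρ
  obtain ⟨c, hc, h'⟩ := CE_nonneg.comp hf
  refine ⟨c, hc, fun z => ?_⟩
  change 0 ≤ e.ev (fun i => num (ρ i z)) ↔ _
  rw [← h z]
  exact h' z

theorem exists_dig (W n : ℕ) (f : ℕ → ℕ) (hf : ∀ k < n, f k < W) :
    ∃ z < W ^ n, ∀ k < n, dig W z k = f k := by
  induction n with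
  | zero => exact ⟨0, by simp, fun k hk => absurd hk (Nat.not_lt_zero k)⟩
  | succ n ih =>
    obtain ⟨z, hz, h⟩ := ih (fun k hk => hf k (Nat.lt_succ_of_lt hk))
    have hfn := hf n (Nat.lt_succ_self n)
    have hW : 0 < W := lt_of_le_of_lt (Nat.zero_le _) hfn
    have hWn : 0 < W ^ n := pow_pos hW n
    refine ⟨z + W ^ n * f n, ?_, fun k hk => ?_⟩
    · calc z + W ^ n * f n < W ^ n + W ^ n * f n := Nat.add_lt_add_right hz _
        _ = W ^ n * (f n + 1) := by ring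
        _ ≤ W ^ n * W := Nat.mul_le_mul_left _ hfn
        _ = W ^ (n + 1) := (pow_succ W n).symm
    · unfold dig
      rcases Nat.lt_succ_iff_lt_or_eq.mp hk with hkn | rfl
      · obtain ⟨m, rfl⟩ := Nat.exists_eq_add_of_lt hkn
        have hWk : 0 < W ^ k := pow_pos hW k
        have e1 : z + W ^ (k + m + 1) * f (k + m + 1) = z + W ^ k * (W * (W ^ m * f (k + m + 1))) := by
          rw [pow_succ, pow_add]
          ring
        rw [e1, Nat.add_mul_div_left _ _ hWk, Nat.add_mul_mod_self_left]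
        exact h k hkn
      · rw [Nat.add_mul_div_left _ _ hWn, Nat.div_eq_of_lt hz, zero_add, Nat.mod_eq_of_lt hfn]

end MP44e4f6
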