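import Mathlib
import Pool.Agent.Lib.MP_44e4f6_lc.Code
import Pool.Agent.Lib.MP_44e4f6_lc.CE

/-!
Leaf CG: the grid conditions are decidable.

Every condition of `GC` is a Boolean combination of conditions `0 ≤ e.ev (...)` with the environment (codes of rationals, all
computable functions of the input, `i`, `j` and the step `s`; use `dc_ev`)
`x_i, x_j, A i, V i, H i, A j, V j, H j, c, r, lo, hi, K, B, 1 / (N + 1)`, where `x_i = p + (i / (N + 1)) (q - p)` may itself be put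
into the expressions with the variables `p, q, i / (N + 1), j / (N + 1)` (codes `((i : ℤ), N)`), and `A i = (d - B (m + 1)) / (m + 1)`
has the code `((d : ℤ) - B (m + 1), m)`. `|u| ≤ w` is `0 ≤ w - u ∧ 0 ≤ w + u`; `|u| < r` is `¬ (0 ≤ u - r) ∧ ¬ (0 ≤ - u - r)`.
The quantifiers over `i`, `j` and over the steps: `Dc.ball`, `Dc.ball_list`. Casts `ℚ → ℝ`: `exact_mod_cast`, or `Ex.map_ev` with
`Rat.castHom ℝ`. It is probably best to treat each of the seven fields of `GC` in a lemma of its own.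
-/

namespace MP44e4f6

/-- the approximate solution with the code `z`, base `W = 2 B (m + 1) + 1`, offset `B (m + 1)`, denominator `m + 1` -/
noncomputable def val (B m z k i : ℕ) : ℝ :=
  ((dig (2 * B * (m + 1) + 1) z (3 * i + k) : ℝ) - B * ((m + 1 : ℕ) : ℝ)) / ((m + 1 : ℕ) : ℝ)

section

variable {α : Type} [Primcodable α]

/-- real functions with a computable rational code -/
private def CG_R (u : α → ℝ) : Prop := ∃ ρ : α → ℤ × ℕ, Computable ρ ∧ ∀ x, u x = ((num (ρ x) : ℚ) : ℝ)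

private theorem CG_num (z : ℤ × ℕ) : ((num z : ℚ) : ℝ) = (z.1 : ℝ) / ((z.2 : ℝ) + 1) := by
  unfold num
  push_cast
  ring

private theorem CG_R.num {ρ : α → ℤ × ℕ} (hρ : Computable ρ) : CG_R (fun x => ((MP44e4f6.num (ρ x) : ℚ) : ℝ)) :=
  ⟨ρ, hρ, fun _ => rfl⟩

private theorem CG_R.div {a b : α → ℕ} (ha : Computable a) (hb : Computable b) :
    CG_R (fun x => (a x : ℝ) / ((b x : ℝ) + 1)) := by
  refine ⟨fun x => ((a x : ℤ), b x), (primrec_int_natCast.to_comp.comp ha).pair hb, fun x => ?_⟩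
  rw [CG_num]
  push_cast
  rfl

private theorem CG_R.nat {a : α → ℕ} (ha : Computable a) : CG_R (fun x => (a x : ℝ)) := by
  obtain ⟨ρ, h1, h2⟩ := CG_R.div ha (Computable.const 0)
  refine ⟨ρ, h1, fun x => ?_⟩
  rw [← h2 x]
  push_cast
  rw [zero_add, div_one]

private theorem CG_one (a b : ℕ) : (((a + 1) * (b + 1) - 1 : ℕ) : ℝ) + 1 = ((a : ℝ) + 1) * ((b : ℝ) + 1) := by
  have h1 : (a + 1) * (b + 1) - 1 + 1 = (a + 1) * (b + 1) :=
    Nat.sub_add_cancel (Nat.one_le_iff_ne_zero.2 (Nat.mul_ne_zero (Nat.succ_ne_zero _) (Nat.succ_ne_zero _)))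
  have h2 : (((a + 1) * (b + 1) - 1 + 1 : ℕ) : ℝ) = (((a + 1) * (b + 1) : ℕ) : ℝ) := by rw [h1]
  push_cast at h2
  exact h2

private theorem CG_den {a b : α → ℕ} (ha : Computable a) (hb : Computable b) :
    Computable (fun x => (a x + 1) * (b x + 1) - 1) :=
  Primrec.nat_sub.to_comp.comp (Primrec.nat_mul.to_comp.comp (Primrec.succ.to_comp.comp ha)
    (Primrec.succ.to_comp.comp hb)) (Computable.const 1)

private theorem CG_R.mul {u w : α → ℝ} (hu : CG_R u) (hw : CG_R w) : CG_R (fun x => u x * w x) := by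
  obtain ⟨ρ, h1, h2⟩ := hu
  obtain ⟨σ, h3, h4⟩ := hw
  refine ⟨fun x => ((ρ x).1 * (σ x).1, ((ρ x).2 + 1) * ((σ x).2 + 1) - 1),
    (primrec_int_mul.to_comp.comp (Computable.fst.comp h1) (Computable.fst.comp h3)).pair
      (CG_den (Computable.snd.comp h1) (Computable.snd.comp h3)), fun x => ?_⟩
  beta_reduce
  rw [h2, h4, CG_num, CG_num, CG_num, CG_one]
  have e1 : ((ρ x).2 : ℝ) + 1 ≠ 0 := by positivity
  have e2 : ((σ x).2 : ℝ) + 1 ≠ 0 := by positivity
  push_cast
  field_simp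

private theorem CG_R.add {u w : α → ℝ} (hu : CG_R u) (hw : CG_R w) : CG_R (fun x => u x + w x) := by
  obtain ⟨ρ, h1, h2⟩ := hu
  obtain ⟨σ, h3, h4⟩ := hw
  refine ⟨fun x => ((ρ x).1 * (((σ x).2 + 1 : ℕ) : ℤ) + (σ x).1 * (((ρ x).2 + 1 : ℕ) : ℤ),
    ((ρ x).2 + 1) * ((σ x).2 + 1) - 1), ?_, fun x => ?_⟩
  · refine (primrec_int_add.to_comp.comp ?_ ?_).pair (CG_den (Computable.snd.comp h1) (Computable.snd.comp h3))
    · exact primrec_int_mul.to_comp.comp (Computable.fst.comp h1) (primrec_int_natCast.to_comp.comp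
        (Primrec.succ.to_comp.comp (Computable.snd.comp h3)))
    · exact primrec_int_mul.to_comp.comp (Computable.fst.comp h3) (primrec_int_natCast.to_comp.comp
        (Primrec.succ.to_comp.comp (Computable.snd.comp h1)))
  · beta_reduce
    rw [h2, h4, CG_num, CG_num, CG_num, CG_one]
    have e1 : ((ρ x).2 : ℝ) + 1 ≠ 0 := by positivity
    have e2 : ((σ x).2 : ℝ) + 1 ≠ 0 := by positivity
    push_cast
    field_simp

private theorem CG_R.neg {u : α → ℝ} (hu : CG_R u) : CG_R (fun x => - u x) := by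
  obtain ⟨ρ, h1, h2⟩ := hu
  refine ⟨fun x => (- (ρ x).1, (ρ x).2), (primrec_int_neg.to_comp.comp (Computable.fst.comp h1)).pair
    (Computable.snd.comp h1), fun x => ?_⟩
  beta_reduce
  rw [h2, CG_num, CG_num]
  push_cast
  ring

private theorem CG_R.sub {u w : α → ℝ} (hu : CG_R u) (hw : CG_R w) : CG_R (fun x => u x - w x) := by
  obtain ⟨ρ, h1, h2⟩ := hu.add hw.neg
  exact ⟨ρ, h1, fun x => (sub_eq_add_neg _ _).trans (h2 x)⟩

private theorem CG_R.sq {u : α → ℝ} (hu : CG_R u) : CG_R (fun x => u x ^ 2) := by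
  obtain ⟨ρ, h1, h2⟩ := hu.mul hu
  exact ⟨ρ, h1, fun x => (pow_two _).trans (h2 x)⟩

private theorem CG_R.comp {β : Type} [Primcodable β] {u : α → ℝ} (hu : CG_R u) {f : β → α} (hf : Computable f) :
    CG_R (fun x => u (f x)) := by
  obtain ⟨ρ, h1, h2⟩ := hu
  exact ⟨fun x => ρ (f x), h1.comp hf, fun x => h2 (f x)⟩

private theorem CG_of_iff {P Q : α → Prop} (h : Dc P) (hPQ : ∀ x, P x ↔ Q x) : Dc Q := by
  obtain ⟨c, hc, h⟩ := h
  exact ⟨c, hc, fun x => (hPQ x).symm.trans (h x)⟩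

private theorem CG_imp {P Q : α → Prop} (h : Dc P) (h' : Dc Q) : Dc (fun x => P x → Q x) :=
  CG_of_iff (h.not.or h') fun _ => imp_iff_not_or.symm

private theorem CG_nonneg {u : α → ℝ} (hu : CG_R u) : Dc (fun x => 0 ≤ u x) := by
  obtain ⟨ρ, h1, h2⟩ := hu
  have h3 : Dc (fun x : α => (0 : ℤ) ≤ (ρ x).1) :=
    (Dc.of_primrec (P := fun z : ℤ => (0 : ℤ) ≤ z) (primrec_int_le.comp (Primrec.const 0) Primrec.id)).comp
      (Computable.fst.comp h1)
  refine CG_of_iff h3 fun x => ?_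
  rw [h2, CG_num]
  have e1 : (0 : ℝ) < ((ρ x).2 : ℝ) + 1 := by positivity
  rw [le_div_iff₀ e1, zero_mul]
  exact_mod_cast Iff.rfl

private theorem CG_le {u w : α → ℝ} (hu : CG_R u) (hw : CG_R w) : Dc (fun x => u x ≤ w x) :=
  CG_of_iff (CG_nonneg (hw.sub hu)) fun _ => sub_nonneg

private theorem CG_lt {u w : α → ℝ} (hu : CG_R u) (hw : CG_R w) : Dc (fun x => u x < w x) :=
  CG_of_iff (CG_le hw hu).not fun _ => not_le

private theorem CG_abs_le {u w : α → ℝ} (hu : CG_R u) (hw : CG_R w) : Dc (fun x => |u x| ≤ w x) :=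
  CG_of_iff ((CG_le hw.neg hu).and (CG_le hu hw)) fun _ => abs_le.symm

private theorem CG_abs_lt {u w : α → ℝ} (hu : CG_R u) (hw : CG_R w) : Dc (fun x => |u x| < w x) :=
  CG_of_iff ((CG_lt hw.neg hu).and (CG_lt hu hw)) fun _ => abs_lt.symm

private theorem CG_pow {W k : α → ℕ} (hW : Computable W) (hk : Computable k) : Computable (fun x => W x ^ k x) := by
  have h1 : Computable fun x => Nat.rec (motive := fun _ => ℕ) 1 (fun _ r => r * W x) (k x) :=
    Computable.nat_rec hk (Computable.const 1) (h := fun x p => p.2 * W x)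
      (Primrec.nat_mul.to_comp.comp (Computable.snd.comp Computable.snd) (hW.comp Computable.fst))
  refine h1.of_eq fun x => ?_
  induction k x with
  | zero => rfl
  | succ n ih =>
    rw [pow_succ, ← ih]

private theorem CG_dig {W z k : α → ℕ} (hW : Computable W) (hz : Computable z) (hk : Computable k) :
    Computable (fun x => dig (W x) (z x) (k x)) :=
  Primrec.nat_mod.to_comp.comp (Primrec.nat_div.to_comp.comp hz (CG_pow hW hk)) hW

private theorem CG_val {B m z i : α → ℕ} (k : ℕ) (hB : Computable B) (hm : Computable m) (hz : Computable z)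
    (hi : Computable i) : CG_R (fun x => val (B x) (m x) (z x) k (i x)) := by
  have hW : Computable fun x => 2 * B x * (m x + 1) + 1 :=
    Primrec.succ.to_comp.comp (Primrec.nat_mul.to_comp.comp (Primrec.nat_mul.to_comp.comp (Computable.const 2) hB)
      (Primrec.succ.to_comp.comp hm))
  have hi' : Computable fun x => 3 * i x + k :=
    Primrec.nat_add.to_comp.comp (Primrec.nat_mul.to_comp.comp (Computable.const 3) hi) (Computable.const k)
  have h1 := CG_R.nat (CG_dig hW hz hi')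
  have h2 := CG_R.nat (Primrec.nat_mul.to_comp.comp hB (Primrec.succ.to_comp.comp hm))
  obtain ⟨ρ, h4, h5⟩ := (h1.sub h2).mul (CG_R.div (Computable.const 1) hm)
  refine ⟨ρ, h4, fun x => ?_⟩
  rw [← h5 x]
  unfold val
  show _ = ((dig (2 * B x * (m x + 1) + 1) (z x) (3 * i x + k) : ℝ) - ((B x * (m x + 1) : ℕ) : ℝ)) *
    (((1 : ℕ) : ℝ) / ((m x : ℝ) + 1))
  push_cast
  ring

private theorem CG_gx {P Q : α → ℤ × ℕ} {N i : α → ℕ} (hP : Computable P) (hQ : Computable Q)
    (hN : Computable N) (hi : Computable i) :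
    CG_R (fun x => gx ((num (P x) : ℚ) : ℝ) ((num (Q x) : ℚ) : ℝ) (N x) (i x)) :=
  (CG_R.num hP).add ((CG_R.div hi hN).mul ((CG_R.num hQ).sub (CG_R.num hP)))

private abbrev CG_T : Type := (ℤ × ℕ) × (ℤ × ℕ) × (ℤ × ℕ) × (ℤ × ℕ)

private theorem CG_list {L : α → List CG_T} (hL : Computable L) {P : α → Stp → Prop}
    (h : Dc (fun z : α × CG_T => P z.1 (Step.toStp (stepOf z.2)))) :
    Dc (fun x => ∀ t ∈ ((L x).map stepOf).map Step.toStp, P x t) :=
  CG_of_iff (Dc.ball_list (P := fun x y => P x (Step.toStp (stepOf y))) h hL) fun _ => by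
    rw [List.forall_mem_map, List.forall_mem_map]

private theorem CG_c {L : α → List CG_T} (hL : Computable L) {g u e : α → ℝ} (hg : CG_R g) (hu : CG_R u)
    (he : CG_R e) : Dc (fun x => ∀ s ∈ ((L x).map stepOf).map Step.toStp, |g x - s.c| < s.r →
      s.lo - e x ≤ u x ∧ u x ≤ s.hi + e x) := by
  refine CG_list (P := fun x s => |g x - s.c| < s.r → s.lo - e x ≤ u x ∧ u x ≤ s.hi + e x) hL ?_
  have s1 : CG_R (fun z : α × CG_T => ((num z.2.1 : ℚ) : ℝ)) := CG_R.num (Computable.fst.comp Computable.snd)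
  have s2 : CG_R (fun z : α × CG_T => ((num z.2.2.1 : ℚ) : ℝ)) :=
    CG_R.num (Computable.fst.comp (Computable.snd.comp Computable.snd))
  have s3 : CG_R (fun z : α × CG_T => ((num z.2.2.2.1 : ℚ) : ℝ)) :=
    CG_R.num (Computable.fst.comp (Computable.snd.comp (Computable.snd.comp Computable.snd)))
  have s4 : CG_R (fun z : α × CG_T => ((num z.2.2.2.2 : ℚ) : ℝ)) :=
    CG_R.num (Computable.snd.comp (Computable.snd.comp (Computable.snd.comp Computable.snd)))
  have g' := hg.comp (Computable.fst (α := α) (β := CG_T))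
  have u' := hu.comp (Computable.fst (α := α) (β := CG_T))
  have e' := he.comp (Computable.fst (α := α) (β := CG_T))
  exact CG_imp (CG_abs_lt (g'.sub s1) s2) ((CG_le (s3.sub e') u').and (CG_le u' (s4.add e')))

private theorem CG_c3 {L : α → List CG_T} (hL : Computable L) {i j : α → ℕ} (hij : Dc (fun x => i x ≤ j x))
    {g g' u e : α → ℝ} (hg : CG_R g) (hg' : CG_R g') (hu : CG_R u) (he : CG_R e) :
    Dc (fun x => ∀ s ∈ ((L x).map stepOf).map Step.toStp, i x ≤ j x → |g x - s.c| < s.r → |g' x - s.c| < s.r →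
      s.lo * (g' x - g x) - e x ≤ u x ∧ u x ≤ s.hi * (g' x - g x) + e x) := by
  refine CG_list (P := fun x s => i x ≤ j x → |g x - s.c| < s.r → |g' x - s.c| < s.r →
      s.lo * (g' x - g x) - e x ≤ u x ∧ u x ≤ s.hi * (g' x - g x) + e x) hL ?_
  have s1 : CG_R (fun z : α × CG_T => ((num z.2.1 : ℚ) : ℝ)) := CG_R.num (Computable.fst.comp Computable.snd)
  have s2 : CG_R (fun z : α × CG_T => ((num z.2.2.1 : ℚ) : ℝ)) :=
    CG_R.num (Computable.fst.comp (Computable.snd.comp Computable.snd))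
  have s3 : CG_R (fun z : α × CG_T => ((num z.2.2.2.1 : ℚ) : ℝ)) :=
    CG_R.num (Computable.fst.comp (Computable.snd.comp (Computable.snd.comp Computable.snd)))
  have s4 : CG_R (fun z : α × CG_T => ((num z.2.2.2.2 : ℚ) : ℝ)) :=
    CG_R.num (Computable.snd.comp (Computable.snd.comp (Computable.snd.comp Computable.snd)))
  have p := hg.comp (Computable.fst (α := α) (β := CG_T))
  have p' := hg'.comp (Computable.fst (α := α) (β := CG_T))
  have u' := hu.comp (Computable.fst (α := α) (β := CG_T))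
  have e' := he.comp (Computable.fst (α := α) (β := CG_T))
  have ij' : Dc (fun z : α × CG_T => i z.1 ≤ j z.1) := hij.comp Computable.fst
  exact CG_imp ij' (CG_imp (CG_abs_lt (p.sub s1) s2) (CG_imp (CG_abs_lt (p'.sub s1) s2)
    ((CG_le ((s3.mul (p'.sub p)).sub e') u').and (CG_le u' ((s4.mul (p'.sub p)).add e')))))

private theorem CG_gc {P Q K : α → ℤ × ℕ} {B m N z i j : α → ℕ} {L0 L1 L2 L3 : α → List CG_T}
    (hP : Computable P) (hQ : Computable Q) (hK : Computable K) (hB : Computable B) (hm : Computable m)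
    (hN : Computable N) (hz : Computable z) (hi : Computable i) (hj : Computable j) (h0 : Computable L0)
    (h1 : Computable L1) (h2 : Computable L2) (h3 : Computable L3) :
    Dc (fun x => GC ((num (P x) : ℚ) : ℝ) ((num (Q x) : ℚ) : ℝ) ((num (K x) : ℚ) : ℝ) ((B x : ℕ) : ℝ)
      (((L0 x).map stepOf).map Step.toStp) (((L1 x).map stepOf).map Step.toStp)
      (((L2 x).map stepOf).map Step.toStp) (((L3 x).map stepOf).map Step.toStp) (N x)
      (val (B x) (m x) (z x) 0) (val (B x) (m x) (z x) 1) (val (B x) (m x) (z x) 2) (i x) (j x)) := by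
  have gi := CG_gx hP hQ hN hi
  have gj := CG_gx hP hQ hN hj
  have gd := gj.sub gi
  have ai := CG_val 0 hB hm hz hi
  have aj := CG_val 0 hB hm hz hj
  have vi := CG_val 1 hB hm hz hi
  have vj := CG_val 1 hB hm hz hj
  have hi' := CG_val 2 hB hm hz hi
  have hj' := CG_val 2 hB hm hz hj
  have he : CG_R (fun x => (1 : ℝ) / ((N x : ℝ) + 1)) := by
    obtain ⟨ρ, e1, e2⟩ := CG_R.div (Computable.const 1) hN
    exact ⟨ρ, e1, fun x => by rw [← e2 x, Nat.cast_one]⟩
  have hij : Dc (fun x => i x ≤ j x) :=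
    (Dc.of_primrec (P := fun z : ℕ × ℕ => z.1 ≤ z.2) (Primrec.nat_le.comp Primrec.fst Primrec.snd)).comp
      (hi.pair hj)
  have d1 := CG_abs_le ((vj.sub vi).sub (gd.mul ai)) (((CG_R.num hK).mul gd.sq).add he)
  have d2 := CG_abs_le ((hj'.sub hi').sub (gd.mul vi)) (((CG_R.nat hB).mul gd.sq).add he)
  have d3 := CG_imp hij (CG_abs_le (aj.sub ai) (((CG_R.num hK).mul gd).add he))
  have d4 := CG_c h0 gi hi' he
  have d5 := CG_c h1 gi vi he
  have d6 := CG_c h2 gi ai he
  have d7 := CG_c3 h3 hij gi gj (aj.sub ai) he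
  exact CG_of_iff (d1.and (d2.and (d3.and (d4.and (d5.and (d6.and d7)))))) fun x =>
    ⟨fun h => ⟨h.1, h.2.1, h.2.2.1, h.2.2.2.1, h.2.2.2.2.1, h.2.2.2.2.2.1, h.2.2.2.2.2.2⟩,
      fun h => ⟨h.t1, h.t2, h.t3, h.c0, h.c1, h.c2, h.c3⟩⟩

end

private abbrev CG_W : Type := ((Inp × (ℤ × ℕ)) × (ℕ × ℕ × ℕ)) × ℕ

private theorem CG_ball {α : Type} [Primcodable α] {P : α × ℕ → Prop} (h : Dc P) {k : α → ℕ} (hk : Computable k) :
    Dc (fun x => ∀ i < k x, P (x, i)) :=
  Dc.ball (P := fun x i => P (x, i)) h hk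

theorem dc_grid : Dc (fun w : ((Inp × (ℤ × ℕ)) × (ℕ × ℕ × ℕ)) × ℕ =>
    ∀ i < w.1.2.2.2 + 2, ∀ j < w.1.2.2.2 + 2,
      GC ((num w.1.1.1.1.1 : ℚ) : ℝ) ((num w.1.1.1.1.2 : ℚ) : ℝ) ((num w.1.1.2 : ℚ) : ℝ)
        ((w.1.2.1 : ℕ) : ℝ) ((w.1.1.1.2.1.map stepOf).map Step.toStp)
        ((w.1.1.1.2.2.1.map stepOf).map Step.toStp) ((w.1.1.1.2.2.2.1.map stepOf).map Step.toStp)
        ((w.1.1.1.2.2.2.2.map stepOf).map Step.toStp) w.1.2.2.2
        (val w.1.2.1 w.1.2.2.1 w.2 0) (val w.1.2.1 w.1.2.2.1 w.2 1) (val w.1.2.1 w.1.2.2.1 w.2 2)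
        i j) := by
  have hk : Computable fun w : CG_W => w.1.2.2.2 + 2 :=
    Primrec.nat_add.to_comp.comp (Computable.snd.comp (Computable.snd.comp (Computable.snd.comp Computable.fst)))
      (Computable.const 2)
  have c1 : Computable fun x : (CG_W × ℕ) × ℕ => x.1.1 := Computable.fst.comp Computable.fst
  have c0 : Computable fun x : (CG_W × ℕ) × ℕ => x.1.1.1 := Computable.fst.comp c1
  have c2 : Computable fun x : (CG_W × ℕ) × ℕ => x.1.1.1.1 := Computable.fst.comp c0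
  have c3 : Computable fun x : (CG_W × ℕ) × ℕ => x.1.1.1.2 := Computable.snd.comp c0
  have c4 : Computable fun x : (CG_W × ℕ) × ℕ => x.1.1.1.1.1 := Computable.fst.comp c2
  have c5 : Computable fun x : (CG_W × ℕ) × ℕ => x.1.1.1.1.1.1 := Computable.fst.comp c4
  have c6 : Computable fun x : (CG_W × ℕ) × ℕ => x.1.1.1.1.1.2 := Computable.snd.comp c4
  have c7 : Computable fun x : (CG_W × ℕ) × ℕ => x.1.1.1.1.1.2.2 := Computable.snd.comp c6
  have c8 : Computable fun x : (CG_W × ℕ) × ℕ => x.1.1.1.1.1.2.2.2 := Computable.snd.comp c7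
  have p1 : Computable fun x : (CG_W × ℕ) × ℕ => x.1.1.1.1.1.1.1 := Computable.fst.comp c5
  have p2 : Computable fun x : (CG_W × ℕ) × ℕ => x.1.1.1.1.1.1.2 := Computable.snd.comp c5
  have p3 : Computable fun x : (CG_W × ℕ) × ℕ => x.1.1.1.1.2 := Computable.snd.comp c2
  have p4 : Computable fun x : (CG_W × ℕ) × ℕ => x.1.1.1.2.1 := Computable.fst.comp c3
  have p5 : Computable fun x : (CG_W × ℕ) × ℕ => x.1.1.1.2.2.1 := Computable.fst.comp (Computable.snd.comp c3)
  have p6 : Computable fun x : (CG_W × ℕ) × ℕ => x.1.1.1.2.2.2 := Computable.snd.comp (Computable.snd.comp c3)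
  have p7 : Computable fun x : (CG_W × ℕ) × ℕ => x.1.1.2 := Computable.snd.comp c1
  have p8 : Computable fun x : (CG_W × ℕ) × ℕ => x.1.2 := Computable.snd.comp Computable.fst
  have p9 : Computable fun x : (CG_W × ℕ) × ℕ => x.2 := Computable.snd
  have l0 : Computable fun x : (CG_W × ℕ) × ℕ => x.1.1.1.1.1.2.1 := Computable.fst.comp c6
  have l1 : Computable fun x : (CG_W × ℕ) × ℕ => x.1.1.1.1.1.2.2.1 := Computable.fst.comp c7
  have l2 : Computable fun x : (CG_W × ℕ) × ℕ => x.1.1.1.1.1.2.2.2.1 := Computable.fst.comp c8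
  have l3 : Computable fun x : (CG_W × ℕ) × ℕ => x.1.1.1.1.1.2.2.2.2 := Computable.snd.comp c8
  have h1 := CG_gc p1 p2 p3 p4 p5 p6 p7 p8 p9 l0 l1 l2 l3
  have h2 := CG_ball (k := fun v : CG_W × ℕ => v.1.1.2.2.2 + 2) h1 (hk.comp Computable.fst)
  exact CG_ball h2 hk

end MP44e4f6
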