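import Mathlib
import Pool.Agent.Lib.MP_44e4f6_lc.Glob
import Pool.Agent.Lib.MP_44e4f6_lc.Grid

/-!
Leaf GD: a solution gives approximate solutions on all grids, with values in `(1 / M) ℤ`.

Proof. `α i = ⌊M a(x i)⌋ + B M` (as a natural number; `|a| ≤ B`), and the same for `v, h`; the rounding error is less than `1 / M` in
each value, so at most `(2 + (q - p)) / M ≤ 1 / (N + 1)` in each condition. For the path itself: `|a y - a x| ≤ K |y - x|`
(`F.sb`), `|v y - v x - (y - x) a x| ≤ K (y - x)^2` and `|h y - h x - (y - x) v x| ≤ B (y - x)^2` (`IsPath.hv`, `IsPath.hh`,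
`intervalIntegral.norm_integral_le_of_norm_le_const` applied to the integral of `a t - a x`, and of `v t - v x` with
`|v t - v x| ≤ B |t - x|`). The other conditions are in `F`.
-/

namespace MP44e4f6

open Set

/-- rounding down to a multiple of `1 / M` -/
private theorem GD_round {B M : ℕ} (hM : 0 < M) {y : ℝ} (hy : |y| ≤ B) :
    ∃ n : ℕ, n ≤ 2 * B * M ∧ 0 ≤ y - ((n : ℝ) - B * M) / M ∧ y - ((n : ℝ) - B * M) / M ≤ 1 / M := by
  have hM' : (0 : ℝ) < M := by exact_mod_cast hM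
  rw [abs_le] at hy
  have h1 : 0 ≤ ⌊(M : ℝ) * y⌋ + (B * M : ℤ) := by
    have h2 : (-(B * M : ℤ)) ≤ ⌊(M : ℝ) * y⌋ := by
      rw [Int.le_floor]
      push_cast
      nlinarith [hy.1]
    linarith
  obtain ⟨n, hn⟩ := Int.eq_ofNat_of_zero_le h1
  have h3 : ((⌊(M : ℝ) * y⌋ : ℤ) : ℝ) = (n : ℝ) - B * M := by
    have h4 : ((⌊(M : ℝ) * y⌋ + (B * M : ℤ) : ℤ) : ℝ) = ((n : ℤ) : ℝ) := by rw [hn]
    push_cast at h4
    linarith
  refine ⟨n, ?_, ?_, ?_⟩
  · have h4 : ⌊(M : ℝ) * y⌋ ≤ (B * M : ℤ) := by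
      have h5 : ((⌊(M : ℝ) * y⌋ : ℤ) : ℝ) ≤ ((B * M : ℤ) : ℝ) := by
        refine (Int.floor_le _).trans ?_
        push_cast
        nlinarith [hy.2]
      exact_mod_cast h5
    have h5 : (n : ℤ) ≤ 2 * B * M := by
      have h6 : (n : ℤ) = ⌊(M : ℝ) * y⌋ + (B * M : ℤ) := hn.symm
      rw [h6]
      linarith
    exact_mod_cast h5
  · rw [← h3, sub_nonneg, div_le_iff₀ hM', mul_comm]
    exact Int.floor_le _
  · rw [← h3]
    have h4 := Int.lt_floor_add_one ((M : ℝ) * y)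
    have h5 : y = ((M : ℝ) * y) / M := by field_simp
    calc y - ((⌊(M : ℝ) * y⌋ : ℤ) : ℝ) / M = ((M : ℝ) * y - ((⌊(M : ℝ) * y⌋ : ℤ) : ℝ)) / M := by
          rw [sub_div, ← h5]
      _ ≤ 1 / M := by
          apply div_le_div_of_nonneg_right _ hM'.le
          linarith

/-- the grid points are in `[p, q]` -/
private theorem GD_mem {p q : ℝ} (hpq : p < q) {N i : ℕ} (hi : i ≤ N + 1) :
    p ≤ gx p q N i ∧ gx p q N i ≤ q := by
  have hN : (0 : ℝ) < (N : ℝ) + 1 := by positivity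
  have h1 : (0 : ℝ) ≤ (i : ℝ) / ((N : ℝ) + 1) := by positivity
  have h2 : (i : ℝ) / ((N : ℝ) + 1) ≤ 1 := by
    rw [div_le_one hN]
    exact_mod_cast hi
  have h3 : 0 ≤ q - p := by linarith
  unfold gx
  constructor
  · nlinarith [mul_nonneg h1 h3]
  · nlinarith [mul_le_mul_of_nonneg_right h2 h3]

/-- the grid points are increasing -/
private theorem GD_mono {p q : ℝ} (hpq : p < q) {N i j : ℕ} (hij : i ≤ j) :
    gx p q N i ≤ gx p q N j := by
  have hN : (0 : ℝ) < (N : ℝ) + 1 := by positivity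
  have h1 : (i : ℝ) / ((N : ℝ) + 1) ≤ (j : ℝ) / ((N : ℝ) + 1) := by
    apply div_le_div_of_nonneg_right _ hN.le
    exact_mod_cast hij
  have h3 : 0 ≤ q - p := by linarith
  unfold gx
  nlinarith [mul_le_mul_of_nonneg_right h1 h3]

/-- the first order expansion of a primitive of a Lipschitz function -/
private theorem GD_lin {p q C : ℝ} {f g : ℝ → ℝ} (hg : Continuous g) (hC : 0 ≤ C)
    (hf : ∀ x y, f y = f x + ∫ t in x..y, g t)
    (hL : ∀ x y, p ≤ x → x ≤ q → p ≤ y → y ≤ q → |g y - g x| ≤ C * |y - x|) {x y : ℝ} (hx : p ≤ x) (hx' : x ≤ q)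
    (hy : p ≤ y) (hy' : y ≤ q) : |f y - f x - (y - x) * g x| ≤ C * (y - x) ^ 2 := by
  have h1 : f y - f x - (y - x) * g x = ∫ t in x..y, (g t - g x) := by
    rw [intervalIntegral.integral_sub (hg.intervalIntegrable x y) (intervalIntegrable_const),
      intervalIntegral.integral_const, smul_eq_mul, hf x y]
    ring
  rw [h1]
  have h2 : ∀ t ∈ uIoc x y, ‖g t - g x‖ ≤ C * |y - x| := by
    intro t ht
    have h3 : p ≤ t ∧ t ≤ q ∧ |t - x| ≤ |y - x| := by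
      rcases le_total x y with h | h
      · rw [uIoc_of_le h] at ht
        refine ⟨by linarith [ht.1], by linarith [ht.2], ?_⟩
        rw [abs_of_nonneg (by linarith [ht.1]), abs_of_nonneg (by linarith)]
        linarith [ht.2]
      · rw [uIoc_of_ge h] at ht
        refine ⟨by linarith [ht.1], by linarith [ht.2], ?_⟩
        rw [abs_of_nonpos (by linarith [ht.2]), abs_of_nonpos (by linarith)]
        linarith [ht.1]
    rw [Real.norm_eq_abs]
    exact (hL x t hx hx' h3.1 h3.2.1).trans (mul_le_mul_of_nonneg_left h3.2.2 hC)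
  have h4 := intervalIntegral.norm_integral_le_of_norm_le_const h2
  rw [Real.norm_eq_abs] at h4
  refine h4.trans (le_of_eq ?_)
  rw [mul_assoc, ← sq, sq_abs]

/-- a primitive of a bounded function -/
private theorem GD_lip {p q C : ℝ} {f g : ℝ → ℝ} (hf : ∀ x y, f y = f x + ∫ t in x..y, g t)
    (hB : ∀ x, p ≤ x → x ≤ q → |g x| ≤ C) {x y : ℝ} (hx : p ≤ x) (hx' : x ≤ q)
    (hy : p ≤ y) (hy' : y ≤ q) : |f y - f x| ≤ C * |y - x| := by
  have h1 : f y - f x = ∫ t in x..y, g t := by rw [hf x y]; ring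
  rw [h1, ← Real.norm_eq_abs]
  refine intervalIntegral.norm_integral_le_of_norm_le_const fun t ht => ?_
  rw [Real.norm_eq_abs]
  rcases le_total x y with h | h
  · rw [uIoc_of_le h] at ht
    exact hB t (by linarith [ht.1]) (by linarith [ht.2])
  · rw [uIoc_of_ge h] at ht
    exact hB t (by linarith [ht.1]) (by linarith [ht.2])

/-- rounding of the three values in a first order condition -/
private theorem GD_err {V1 V2 A v1 v2 a d D m E : ℝ} (h1 : 0 ≤ v1 - V1) (h1' : v1 - V1 ≤ m)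
    (h2 : 0 ≤ v2 - V2) (h2' : v2 - V2 ≤ m) (h3 : 0 ≤ a - A) (h3' : a - A ≤ m) (hd : |d| ≤ D)
    (hm : (2 + D) * m ≤ E) {R : ℝ} (h : |v2 - v1 - d * a| ≤ R) : |V2 - V1 - d * A| ≤ R + E := by
  have hm0 : 0 ≤ m := h1.trans h1'
  have e1 : |d * (a - A)| ≤ D * m := by
    rw [abs_mul, abs_of_nonneg h3]
    exact mul_le_mul hd h3' h3 ((abs_nonneg d).trans hd)
  rw [abs_le] at e1 h ⊢
  constructor
  · nlinarith [e1.1, e1.2, h.1, h.2]
  · nlinarith [e1.1, e1.2, h.1, h.2]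

theorem exists_grid (p q K : ℝ) (B M N : ℕ) (hpq : p < q) (hK : 0 ≤ K)
    (hM : (2 + (q - p)) * ((N : ℝ) + 1) ≤ M) (L0 L1 L2 L3 : List Stp) {h v a : ℝ → ℝ}
    (P : IsPath h v a) (F : GF L0 L1 L2 L3 K p q h v a)
    (hb : ∀ x, p ≤ x → x ≤ q → |a x| ≤ B ∧ |v x| ≤ B ∧ |h x| ≤ B) :
    ∃ α β γ : ℕ → ℕ, (∀ i ≤ N + 1, α i ≤ 2 * B * M ∧ β i ≤ 2 * B * M ∧ γ i ≤ 2 * B * M) ∧
      ∀ i ≤ N + 1, ∀ j ≤ N + 1, GC p q K B L0 L1 L2 L3 N
        (fun i => ((α i : ℝ) - B * M) / M) (fun i => ((β i : ℝ) - B * M) / M)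
        (fun i => ((γ i : ℝ) - B * M) / M) i j := by
  have hN : (0 : ℝ) < (N : ℝ) + 1 := by positivity
  have hD : 0 < q - p := by linarith
  have hM0 : (0 : ℝ) < M := lt_of_lt_of_le (by positivity) hM
  have hM1 : 0 < M := by exact_mod_cast hM0
  have hE : (2 + (q - p)) * (1 / (M : ℝ)) ≤ 1 / ((N : ℝ) + 1) := by
    rw [mul_one_div, div_le_div_iff₀ hM0 hN]
    linarith
  have hE1 : 1 / (M : ℝ) ≤ 1 / ((N : ℝ) + 1) := by
    refine le_trans ?_ hE
    have : 0 ≤ 1 / (M : ℝ) := by positivity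
    nlinarith
  -- the rounded values
  have ra : ∀ i, ∃ n : ℕ, i ≤ N + 1 → n ≤ 2 * B * M ∧ 0 ≤ a (gx p q N i) - ((n : ℝ) - B * M) / M ∧
      a (gx p q N i) - ((n : ℝ) - B * M) / M ≤ 1 / M := by
    intro i
    by_cases hi : i ≤ N + 1
    · obtain ⟨n, hn⟩ := GD_round hM1 (hb _ (GD_mem hpq hi).1 (GD_mem hpq hi).2).1
      exact ⟨n, fun _ => hn⟩
    · exact ⟨0, fun h => absurd h hi⟩
  have rv : ∀ i, ∃ n : ℕ, i ≤ N + 1 → n ≤ 2 * B * M ∧ 0 ≤ v (gx p q N i) - ((n : ℝ) - B * M) / M ∧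
      v (gx p q N i) - ((n : ℝ) - B * M) / M ≤ 1 / M := by
    intro i
    by_cases hi : i ≤ N + 1
    · obtain ⟨n, hn⟩ := GD_round hM1 (hb _ (GD_mem hpq hi).1 (GD_mem hpq hi).2).2.1
      exact ⟨n, fun _ => hn⟩
    · exact ⟨0, fun h => absurd h hi⟩
  have rh : ∀ i, ∃ n : ℕ, i ≤ N + 1 → n ≤ 2 * B * M ∧ 0 ≤ h (gx p q N i) - ((n : ℝ) - B * M) / M ∧
      h (gx p q N i) - ((n : ℝ) - B * M) / M ≤ 1 / M := by
    intro i
    by_cases hi : i ≤ N + 1
    · obtain ⟨n, hn⟩ := GD_round hM1 (hb _ (GD_mem hpq hi).1 (GD_mem hpq hi).2).2.2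
      exact ⟨n, fun _ => hn⟩
    · exact ⟨0, fun h => absurd h hi⟩
  choose α hα using ra
  choose β hβ using rv
  choose γ hγ using rh
  refine ⟨α, β, γ, fun i hi => ⟨(hα i hi).1, (hβ i hi).1, (hγ i hi).1⟩, ?_⟩
  -- the path
  have la : ∀ x y, p ≤ x → x ≤ q → p ≤ y → y ≤ q → |a y - a x| ≤ K * |y - x| := by
    intro x y hx hx' hy hy'
    rcases le_total x y with hxy | hxy
    · have e := F.sb x y hx hxy hy'
      rw [abs_of_nonneg (by linarith : 0 ≤ y - x), abs_le]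
      constructor <;> linarith [e.1, e.2]
    · have e := F.sb y x hy hxy hx'
      rw [abs_of_nonpos (by linarith : y - x ≤ 0), abs_le]
      constructor <;> linarith [e.1, e.2]
  have lv : ∀ x y, p ≤ x → x ≤ q → p ≤ y → y ≤ q → |v y - v x| ≤ (B : ℝ) * |y - x| :=
    fun x y hx hx' hy hy' => GD_lip P.hv (fun x h1 h2 => (hb x h1 h2).1) hx hx' hy hy'
  intro i hi j hj
  obtain ⟨i1, i2⟩ := GD_mem hpq hi
  obtain ⟨j1, j2⟩ := GD_mem hpq hj
  have hd : |gx p q N j - gx p q N i| ≤ q - p := by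
    rw [abs_le]
    constructor <;> linarith
  obtain ⟨-, ai, ai'⟩ := hα i hi
  obtain ⟨-, aj, aj'⟩ := hα j hj
  obtain ⟨-, vi, vi'⟩ := hβ i hi
  obtain ⟨-, vj, vj'⟩ := hβ j hj
  obtain ⟨-, gi, gi'⟩ := hγ i hi
  obtain ⟨-, gj, gj'⟩ := hγ j hj
  refine ⟨?_, ?_, ?_, ?_, ?_, ?_, ?_⟩
  · exact GD_err vi vi' vj vj' ai ai' hd hE (GD_lin P.cont hK P.hv la i1 i2 j1 j2)
  · exact GD_err gi gi' gj gj' vi vi' hd hE (GD_lin P.vcont (Nat.cast_nonneg B) P.hh lv i1 i2 j1 j2)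
  · intro hij
    have e := la _ _ i1 i2 j1 j2
    rw [abs_of_nonneg (by linarith [GD_mono (N := N) hpq hij] : 0 ≤ gx p q N j - gx p q N i), abs_le] at e
    show |((α j : ℝ) - B * M) / M - ((α i : ℝ) - B * M) / M| ≤ _
    rw [abs_le]
    constructor <;> linarith [e.1, e.2]
  · intro s hs hc
    have e := F.c0 s hs _ i1 i2 hc
    show s.lo - 1 / ((N : ℝ) + 1) ≤ ((γ i : ℝ) - B * M) / M ∧ ((γ i : ℝ) - B * M) / M ≤ s.hi + 1 / ((N : ℝ) + 1)
    constructor <;> linarith [e.1, e.2]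
  · intro s hs hc
    have e := F.c1 s hs _ i1 i2 hc
    show s.lo - 1 / ((N : ℝ) + 1) ≤ ((β i : ℝ) - B * M) / M ∧ ((β i : ℝ) - B * M) / M ≤ s.hi + 1 / ((N : ℝ) + 1)
    constructor <;> linarith [e.1, e.2]
  · intro s hs hc
    have e := F.c2 s hs _ i1 i2 hc
    show s.lo - 1 / ((N : ℝ) + 1) ≤ ((α i : ℝ) - B * M) / M ∧ ((α i : ℝ) - B * M) / M ≤ s.hi + 1 / ((N : ℝ) + 1)
    constructor <;> linarith [e.1, e.2]
  · intro s hs hij hc hc'
    have e := F.c3 s hs _ _ i1 (GD_mono hpq hij) j2 hc hc'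
    show s.lo * (gx p q N j - gx p q N i) - 1 / ((N : ℝ) + 1) ≤
        ((α j : ℝ) - B * M) / M - ((α i : ℝ) - B * M) / M ∧
      ((α j : ℝ) - B * M) / M - ((α i : ℝ) - B * M) / M ≤
        s.hi * (gx p q N j - gx p q N i) + 1 / ((N : ℝ) + 1)
    constructor <;> linarith [e.1, e.2]

end MP44e4f6
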