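import Mathlib
import Pool.Agent.Lib.MP_44e4f6_lc.Glob
import Pool.Agent.Lib.MP_44e4f6_lc.Grid
import Pool.Agent.Lib.MP_44e4f6_lc.Ext

/-!
Leaf GL: compactness. Approximate solutions on all grids give a solution.

Proof. Let `𝒰 = Filter.hyperfilter ℕ` (`≤ atTop`), and for `y ∈ [p, q]` let `k N y = ⌊(N + 1) (y - p) / (q - p)⌋₊ ≤ N + 1`, so that
`|gx p q N (k N y) - y| ≤ (q - p) / (N + 1)` and `k N` is monotone. The sequences `A N (k N y)`, `V N (k N y)`, `H N (k N y)`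
are bounded by `B`, so they have limits `a y, v y, h y` along `𝒰` (`isCompact_Icc.ultrafilter_le_nhds`). All inequalities pass to
the limit (`le_of_tendsto`, `le_of_tendsto_of_tendsto`): for `y, z ∈ [p, q]`
  `|v z - v y - (z - y) a y| ≤ K (z - y)^2`, `|h z - h y - (z - y) v y| ≤ B (z - y)^2`, `|a z - a y| ≤ K (z - y)` for `y ≤ z`,
so `v' = a`, `h' = v` on `(p, q)` (`hasDerivAt` from a quadratic estimate), and the value and slope conditions hold on `(p, q)`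
(if `|y - c| < r` then also `|gx p q N (k N y) - c| < r` for large `N`; for `y ≤ z` also `k N y ≤ k N z`). Then use
`exists_path` (file Ext) and `VC.of_open`, `SC.of_open` (file Ext) as in `main_aux` (file Main, after `obtain ⟨h, v, a, P, ...⟩`).
-/

namespace MP44e4f6

open Set

open Filter Topology in
/-- a bounded real sequence has a limit along the hyperfilter -/
private theorem GL_lim (F : ℕ → ℝ) (B : ℝ) (hF : ∀ N, |F N| ≤ B) :
    ∃ l : ℝ, Tendsto F ((hyperfilter ℕ : Ultrafilter ℕ) : Filter ℕ) (𝓝 l) := by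
  have hcp : IsCompact (Icc (-B) B) := isCompact_Icc
  have hle : ((Ultrafilter.map F (hyperfilter ℕ) : Ultrafilter ℝ) : Filter ℝ) ≤
      𝓟 (Icc (-B) B) := by
    rw [Filter.le_principal_iff, Ultrafilter.coe_map, Filter.mem_map]
    exact Filter.Eventually.of_forall (fun N => abs_le.1 (hF N))
  obtain ⟨l, _, hl⟩ := hcp.ultrafilter_le_nhds _ hle
  exact ⟨l, by rw [Ultrafilter.coe_map] at hl; exact hl⟩

open Filter Topology Asymptotics in
/-- a quadratic estimate gives a derivative -/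
private theorem GL_deriv {f : ℝ → ℝ} {d x C p q : ℝ} (h1 : p < x) (h2 : x < q)
    (h : ∀ z, p ≤ z → z ≤ q → |f z - f x - (z - x) * d| ≤ C * (z - x) ^ 2) :
    HasDerivAt f d x := by
  rw [hasDerivAt_iff_isLittleO]
  have hO : (fun z => f z - f x - (z - x) • d) =O[𝓝 x] fun z => (z - x) ^ 2 := by
    apply IsBigO.of_bound C
    filter_upwards [Icc_mem_nhds h1 h2] with z hz
    rw [Real.norm_eq_abs, Real.norm_eq_abs, abs_of_nonneg (sq_nonneg (z - x))]
    exact h z hz.1 hz.2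
  refine hO.trans_isLittleO ?_
  have ht : Tendsto (fun z : ℝ => z - x) (𝓝 x) (𝓝 0) := by
    have : Tendsto (fun z : ℝ => z - x) (𝓝 x) (𝓝 (x - x)) :=
      (continuous_id.sub continuous_const).tendsto x
    rwa [sub_self] at this
  exact (isLittleO_pow_id (𝕜 := ℝ) (n := 2) one_lt_two).comp_tendsto ht

/-- number of the grid point to the left of `y` -/
private noncomputable def GL_k (p q : ℝ) (N : ℕ) (y : ℝ) : ℕ :=
  ⌊((N : ℝ) + 1) * (y - p) / (q - p)⌋₊

private theorem GL_k_le {p q y : ℝ} (hpq : p < q) (hy' : y ≤ q) (N : ℕ) :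
    GL_k p q N y ≤ N + 1 := by
  unfold GL_k
  apply Nat.floor_le_of_le
  have hN : (0 : ℝ) < (N : ℝ) + 1 := by positivity
  have hd : 0 < q - p := by linarith
  rw [div_le_iff₀ hd]
  push_cast
  exact mul_le_mul_of_nonneg_left (by linarith) hN.le

private theorem GL_k_mono {p q y z : ℝ} (hpq : p < q) (hyz : y ≤ z) (N : ℕ) :
    GL_k p q N y ≤ GL_k p q N z := by
  unfold GL_k
  apply Nat.floor_le_floor
  have hN : (0 : ℝ) < (N : ℝ) + 1 := by positivity
  have hd : 0 < q - p := by linarith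
  apply div_le_div_of_nonneg_right _ hd.le
  exact mul_le_mul_of_nonneg_left (by linarith) hN.le

private theorem GL_gx {p q y : ℝ} (hpq : p < q) (hy : p ≤ y) (N : ℕ) :
    |gx p q N (GL_k p q N y) - y| ≤ (q - p) * (1 / ((N : ℝ) + 1)) := by
  have hN : (0 : ℝ) < (N : ℝ) + 1 := by positivity
  have hd : 0 < q - p := by linarith
  have e0 : 0 ≤ ((N : ℝ) + 1) * (y - p) / (q - p) :=
    div_nonneg (mul_nonneg hN.le (by linarith)) hd.le
  have e1 := Nat.floor_le e0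
  have e2 := Nat.lt_floor_add_one (((N : ℝ) + 1) * (y - p) / (q - p))
  unfold gx GL_k
  set k : ℝ := ((⌊((N : ℝ) + 1) * (y - p) / (q - p)⌋₊ : ℕ) : ℝ) with hk
  have e3 : k * (q - p) ≤ ((N : ℝ) + 1) * (y - p) := (le_div_iff₀ hd).1 e1
  have e4 : ((N : ℝ) + 1) * (y - p) < (k + 1) * (q - p) := (div_lt_iff₀ hd).1 e2
  have e5 : p + k / ((N : ℝ) + 1) * (q - p) - y =
      (k * (q - p) - ((N : ℝ) + 1) * (y - p)) * (1 / ((N : ℝ) + 1)) := by
    field_simp
    ring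
  rw [e5, abs_mul, abs_of_pos (one_div_pos.2 hN)]
  apply mul_le_mul_of_nonneg_right _ (one_div_pos.2 hN).le
  rw [abs_le]
  constructor <;> nlinarith

open Filter Topology in
private theorem GL_inv : Tendsto (fun N : ℕ => 1 / ((N : ℝ) + 1))
    ((hyperfilter ℕ : Ultrafilter ℕ) : Filter ℕ) (𝓝 0) :=
  (tendsto_one_div_add_atTop_nhds_zero_nat (𝕜 := ℝ)).mono_left Nat.hyperfilter_le_atTop

open Filter Topology in
private theorem GL_gx_lim {p q y : ℝ} (hpq : p < q) (hy : p ≤ y) :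
    Tendsto (fun N : ℕ => gx p q N (GL_k p q N y))
      ((hyperfilter ℕ : Ultrafilter ℕ) : Filter ℕ) (𝓝 y) := by
  rw [tendsto_iff_norm_sub_tendsto_zero]
  have hz : Tendsto (fun N : ℕ => (q - p) * (1 / ((N : ℝ) + 1)))
      ((hyperfilter ℕ : Ultrafilter ℕ) : Filter ℕ) (𝓝 0) := by
    have := GL_inv.const_mul (q - p)
    rwa [mul_zero] at this
  exact squeeze_zero (fun N => norm_nonneg _)
    (fun N => by rw [Real.norm_eq_abs]; exact GL_gx hpq hy N) hz

open Filter Topology in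
/-- all limits at once -/
private theorem GL_limits (p q K B : ℝ) (hpq : p < q) (L0 L1 L2 L3 : List Stp)
    (h : ∀ N : ℕ, ∃ A V H : ℕ → ℝ, (∀ i ≤ N + 1, |A i| ≤ B ∧ |V i| ≤ B ∧ |H i| ≤ B) ∧
      ∀ i ≤ N + 1, ∀ j ≤ N + 1, GC p q K B L0 L1 L2 L3 N A V H i j) :
    ∃ h v a : ℝ → ℝ,
      (∀ y z, p ≤ y → y ≤ q → p ≤ z → z ≤ q →
        |v z - v y - (z - y) * a y| ≤ K * (z - y) ^ 2) ∧
      (∀ y z, p ≤ y → y ≤ q → p ≤ z → z ≤ q →
        |h z - h y - (z - y) * v y| ≤ B * (z - y) ^ 2) ∧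
      (∀ y z, p ≤ y → y ≤ z → z ≤ q → |a z - a y| ≤ K * (z - y)) ∧
      (∀ s ∈ L0, ∀ y, p ≤ y → y ≤ q → |y - s.c| < s.r → s.lo ≤ h y ∧ h y ≤ s.hi) ∧
      (∀ s ∈ L1, ∀ y, p ≤ y → y ≤ q → |y - s.c| < s.r → s.lo ≤ v y ∧ v y ≤ s.hi) ∧
      (∀ s ∈ L2, ∀ y, p ≤ y → y ≤ q → |y - s.c| < s.r → s.lo ≤ a y ∧ a y ≤ s.hi) ∧
      (∀ s ∈ L3, ∀ y z, p ≤ y → y ≤ z → z ≤ q → |y - s.c| < s.r → |z - s.c| < s.r →
        s.lo * (z - y) ≤ a z - a y ∧ a z - a y ≤ s.hi * (z - y)) := by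
  choose A V H hb hc using h
  have hlim : ∀ (F : ℕ → ℕ → ℝ), (∀ N, ∀ i ≤ N + 1, |F N i| ≤ B) →
      ∃ f : ℝ → ℝ, ∀ y, p ≤ y → y ≤ q → Tendsto (fun N => F N (GL_k p q N y))
        ((hyperfilter ℕ : Ultrafilter ℕ) : Filter ℕ) (𝓝 (f y)) := by
    intro F hF
    have : ∀ y : ℝ, ∃ l : ℝ, p ≤ y → y ≤ q → Tendsto (fun N => F N (GL_k p q N y))
        ((hyperfilter ℕ : Ultrafilter ℕ) : Filter ℕ) (𝓝 l) := by
      intro y
      by_cases hy : y ≤ q
      · obtain ⟨l, hl⟩ := GL_lim (fun N => F N (GL_k p q N y)) B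
          (fun N => hF N _ (GL_k_le hpq hy N))
        exact ⟨l, fun _ _ => hl⟩
      · exact ⟨0, fun _ h => absurd h hy⟩
    choose f hf using this
    exact ⟨f, hf⟩
  obtain ⟨a, ha⟩ := hlim A (fun N i hi => (hb N i hi).1)
  obtain ⟨v, hv⟩ := hlim V (fun N i hi => (hb N i hi).2.1)
  obtain ⟨h, hh⟩ := hlim H (fun N i hi => (hb N i hi).2.2)
  have hg : ∀ {y : ℝ}, p ≤ y → Tendsto (fun N : ℕ => gx p q N (GL_k p q N y))
      ((hyperfilter ℕ : Ultrafilter ℕ) : Filter ℕ) (𝓝 y) := fun hy => GL_gx_lim hpq hy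
  have hI := GL_inv
  have hev : ∀ {y c r : ℝ}, p ≤ y → |y - c| < r →
      ∀ᶠ N in ((hyperfilter ℕ : Ultrafilter ℕ) : Filter ℕ),
        |gx p q N (GL_k p q N y) - c| < r := by
    intro y c r hy hr
    have : Tendsto (fun N : ℕ => |gx p q N (GL_k p q N y) - c|)
        ((hyperfilter ℕ : Ultrafilter ℕ) : Filter ℕ) (𝓝 |y - c|) :=
      ((hg hy).sub tendsto_const_nhds).abs
    exact this.eventually (gt_mem_nhds hr)
  -- value constraints
  have hval : ∀ (F : ℕ → ℕ → ℝ) (f : ℝ → ℝ) (L : List Stp),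
      (∀ y, p ≤ y → y ≤ q → Tendsto (fun N => F N (GL_k p q N y))
        ((hyperfilter ℕ : Ultrafilter ℕ) : Filter ℕ) (𝓝 (f y))) →
      (∀ N, ∀ i ≤ N + 1, ∀ s ∈ L, |gx p q N i - s.c| < s.r →
        s.lo - 1 / ((N : ℝ) + 1) ≤ F N i ∧ F N i ≤ s.hi + 1 / ((N : ℝ) + 1)) →
      ∀ s ∈ L, ∀ y, p ≤ y → y ≤ q → |y - s.c| < s.r → s.lo ≤ f y ∧ f y ≤ s.hi := by
    intro F f L hf hF s hs y h1 h2 h3
    have hE := hev h1 h3
    have l1 : Tendsto (fun N : ℕ => s.lo - 1 / ((N : ℝ) + 1))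
        ((hyperfilter ℕ : Ultrafilter ℕ) : Filter ℕ) (𝓝 (s.lo - 0)) :=
      tendsto_const_nhds.sub hI
    have l2 : Tendsto (fun N : ℕ => s.hi + 1 / ((N : ℝ) + 1))
        ((hyperfilter ℕ : Ultrafilter ℕ) : Filter ℕ) (𝓝 (s.hi + 0)) :=
      tendsto_const_nhds.add hI
    rw [sub_zero] at l1
    rw [add_zero] at l2
    constructor
    · refine le_of_tendsto_of_tendsto l1 (hf y h1 h2) ?_
      filter_upwards [hE] with N hN
      exact (hF N _ (GL_k_le hpq h2 N) s hs hN).1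
    · refine le_of_tendsto_of_tendsto (hf y h1 h2) l2 ?_
      filter_upwards [hE] with N hN
      exact (hF N _ (GL_k_le hpq h2 N) s hs hN).2
  refine ⟨h, v, a, ?_, ?_, ?_, ?_, ?_, ?_, ?_⟩
  · intro y z h1 h2 h3 h4
    have l1 : Tendsto (fun N : ℕ => |V N (GL_k p q N z) - V N (GL_k p q N y) -
        (gx p q N (GL_k p q N z) - gx p q N (GL_k p q N y)) * A N (GL_k p q N y)|)
        ((hyperfilter ℕ : Ultrafilter ℕ) : Filter ℕ) (𝓝 |v z - v y - (z - y) * a y|) :=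
      (((hv z h3 h4).sub (hv y h1 h2)).sub (((hg h3).sub (hg h1)).mul (ha y h1 h2))).abs
    have l2 : Tendsto (fun N : ℕ => K * (gx p q N (GL_k p q N z) -
        gx p q N (GL_k p q N y)) ^ 2 + 1 / ((N : ℝ) + 1))
        ((hyperfilter ℕ : Ultrafilter ℕ) : Filter ℕ) (𝓝 (K * (z - y) ^ 2 + 0)) :=
      ((((hg h3).sub (hg h1)).pow 2).const_mul K).add hI
    rw [add_zero] at l2
    exact le_of_tendsto_of_tendsto' l1 l2
      (fun N => (hc N _ (GL_k_le hpq h2 N) _ (GL_k_le hpq h4 N)).t1)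
  · intro y z h1 h2 h3 h4
    have l1 : Tendsto (fun N : ℕ => |H N (GL_k p q N z) - H N (GL_k p q N y) -
        (gx p q N (GL_k p q N z) - gx p q N (GL_k p q N y)) * V N (GL_k p q N y)|)
        ((hyperfilter ℕ : Ultrafilter ℕ) : Filter ℕ) (𝓝 |h z - h y - (z - y) * v y|) :=
      (((hh z h3 h4).sub (hh y h1 h2)).sub (((hg h3).sub (hg h1)).mul (hv y h1 h2))).abs
    have l2 : Tendsto (fun N : ℕ => B * (gx p q N (GL_k p q N z) -
        gx p q N (GL_k p q N y)) ^ 2 + 1 / ((N : ℝ) + 1))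
        ((hyperfilter ℕ : Ultrafilter ℕ) : Filter ℕ) (𝓝 (B * (z - y) ^ 2 + 0)) :=
      ((((hg h3).sub (hg h1)).pow 2).const_mul B).add hI
    rw [add_zero] at l2
    exact le_of_tendsto_of_tendsto' l1 l2
      (fun N => (hc N _ (GL_k_le hpq h2 N) _ (GL_k_le hpq h4 N)).t2)
  · intro y z h1 h2 h3
    have l1 : Tendsto (fun N : ℕ => |A N (GL_k p q N z) - A N (GL_k p q N y)|)
        ((hyperfilter ℕ : Ultrafilter ℕ) : Filter ℕ) (𝓝 |a z - a y|) :=
      ((ha z (h1.trans h2) h3).sub (ha y h1 (h2.trans h3))).abs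
    have l2 : Tendsto (fun N : ℕ => K * (gx p q N (GL_k p q N z) -
        gx p q N (GL_k p q N y)) + 1 / ((N : ℝ) + 1))
        ((hyperfilter ℕ : Ultrafilter ℕ) : Filter ℕ) (𝓝 (K * (z - y) + 0)) :=
      (((hg (h1.trans h2)).sub (hg h1)).const_mul K).add hI
    rw [add_zero] at l2
    exact le_of_tendsto_of_tendsto' l1 l2
      (fun N => (hc N _ (GL_k_le hpq (h2.trans h3) N) _ (GL_k_le hpq h3 N)).t3
        (GL_k_mono hpq h2 N))
  · exact hval H h L0 hh (fun N i hi s hs hr => (hc N i hi i hi).c0 s hs hr)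
  · exact hval V v L1 hv (fun N i hi s hs hr => (hc N i hi i hi).c1 s hs hr)
  · exact hval A a L2 ha (fun N i hi s hs hr => (hc N i hi i hi).c2 s hs hr)
  · intro s hs y z h1 h2 h3 h4 h5
    have hE1 := hev h1 h4
    have hE2 := hev (h1.trans h2) h5
    have l0 : Tendsto (fun N : ℕ => A N (GL_k p q N z) - A N (GL_k p q N y))
        ((hyperfilter ℕ : Ultrafilter ℕ) : Filter ℕ) (𝓝 (a z - a y)) :=
      (ha z (h1.trans h2) h3).sub (ha y h1 (h2.trans h3))
    have l1 : Tendsto (fun N : ℕ => s.lo * (gx p q N (GL_k p q N z) -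
        gx p q N (GL_k p q N y)) - 1 / ((N : ℝ) + 1))
        ((hyperfilter ℕ : Ultrafilter ℕ) : Filter ℕ) (𝓝 (s.lo * (z - y) - 0)) :=
      (((hg (h1.trans h2)).sub (hg h1)).const_mul s.lo).sub hI
    have l2 : Tendsto (fun N : ℕ => s.hi * (gx p q N (GL_k p q N z) -
        gx p q N (GL_k p q N y)) + 1 / ((N : ℝ) + 1))
        ((hyperfilter ℕ : Ultrafilter ℕ) : Filter ℕ) (𝓝 (s.hi * (z - y) + 0)) :=
      (((hg (h1.trans h2)).sub (hg h1)).const_mul s.hi).add hI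
    rw [sub_zero] at l1
    rw [add_zero] at l2
    constructor
    · refine le_of_tendsto_of_tendsto l1 l0 ?_
      filter_upwards [hE1, hE2] with N hN1 hN2
      exact ((hc N _ (GL_k_le hpq (h2.trans h3) N) _ (GL_k_le hpq h3 N)).c3 s hs
        (GL_k_mono hpq h2 N) hN1 hN2).1
    · refine le_of_tendsto_of_tendsto l0 l2 ?_
      filter_upwards [hE1, hE2] with N hN1 hN2
      exact ((hc N _ (GL_k_le hpq (h2.trans h3) N) _ (GL_k_le hpq h3 N)).c3 s hs
        (GL_k_mono hpq h2 N) hN1 hN2).2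

theorem grid_limit (p q K B : ℝ) (hpq : p < q) (hK : 0 ≤ K) (L0 L1 L2 L3 : List Stp)
    (h : ∀ N : ℕ, ∃ A V H : ℕ → ℝ, (∀ i ≤ N + 1, |A i| ≤ B ∧ |V i| ≤ B ∧ |H i| ≤ B) ∧
      ∀ i ≤ N + 1, ∀ j ≤ N + 1, GC p q K B L0 L1 L2 L3 N A V H i j) :
    ∃ h v a : ℝ → ℝ, IsPath h v a ∧ GF L0 L1 L2 L3 K p q h v a := by
  obtain ⟨h, v, a, ht1, ht2, ht3, hc0, hc1, hc2, hc3⟩ :=
    GL_limits p q K B hpq L0 L1 L2 L3 h
  obtain ⟨h', v', a', P, hSB, e0, e1, e2⟩ := exists_path hpq (K := K) (g := h) (g1 := v)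
    (g2 := a)
    (fun x h1 h2 => GL_deriv h1 h2 (fun z h3 h4 => ht2 x z h1.le h2.le h3 h4))
    (fun x h1 h2 => GL_deriv h1 h2 (fun z h3 h4 => ht1 x z h1.le h2.le h3 h4))
    (fun x y h1 h2 h3 => by
      have := abs_le.1 (ht3 x y h1.le h2 h3.le)
      constructor <;> linarith [this.1, this.2])
  have hhc : Continuous h' := by
    rw [continuous_iff_continuousAt]
    exact fun y => (P.dh y).continuousAt
  refine ⟨h', v', a', P, ?_, ?_, ?_, ?_, hSB⟩
  · apply VC.of_open hpq hhc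
    intro st hst x h1 h2 h3
    rw [e0 x h1 h2]
    exact hc0 st hst x h1.le h2.le h3
  · apply VC.of_open hpq P.vcont
    intro st hst x h1 h2 h3
    rw [e1 x h1 h2]
    exact hc1 st hst x h1.le h2.le h3
  · apply VC.of_open hpq P.cont
    intro st hst x h1 h2 h3
    rw [e2 x h1 h2]
    exact hc2 st hst x h1.le h2.le h3
  · apply SC.of_open hpq P.cont
    intro st hst x y h1 h2 h3 h4 h5 h6
    rw [e2 x h1 h2, e2 y h3 h4]
    rcases le_total x y with hxy | hxy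
    · have := hc3 st hst x y h1.le hxy h4.le h5 h6
      have e : 0 ≤ y - x := by linarith
      have i1 := mul_le_mul_of_nonneg_right this.1 e
      have i2 := mul_le_mul_of_nonneg_right this.2 e
      constructor
      · calc st.lo * (y - x) ^ 2 = st.lo * (y - x) * (y - x) := by ring
          _ ≤ _ := i1
      · calc (a y - a x) * (y - x) ≤ st.hi * (y - x) * (y - x) := i2
          _ = _ := by ring
    · have := hc3 st hst y x h3.le hxy h2.le h6 h5
      have e : 0 ≤ x - y := by linarith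
      have i1 := mul_le_mul_of_nonneg_right this.1 e
      have i2 := mul_le_mul_of_nonneg_right this.2 e
      constructor
      · calc st.lo * (y - x) ^ 2 = st.lo * (x - y) * (x - y) := by ring
          _ ≤ (a x - a y) * (x - y) := i1
          _ = _ := by ring
      · calc (a y - a x) * (y - x) = (a x - a y) * (x - y) := by ring
          _ ≤ st.hi * (x - y) * (x - y) := i2
          _ = _ := by ring

end MP44e4f6
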