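import Mathlib
import Pool.Agent.Lib.MP_44e4f6_lc.Main
import Pool.Agent.Lib.MP_44e4f6_lc.Alg
import Pool.Agent.Lib.MP_44e4f6_lc.Grid
import Pool.Agent.Lib.MP_44e4f6_lc.GL
import Pool.Agent.Lib.MP_44e4f6_lc.GD
import Pool.Agent.Lib.MP_44e4f6_lc.AB
import Pool.Agent.Lib.MP_44e4f6_lc.Code
import Pool.Agent.Lib.MP_44e4f6_lc.CE
import Pool.Agent.Lib.MP_44e4f6_lc.CG

/-!
From consistency to real paths and grid approximations, and back.
-/

namespace MP44e4f6

open Set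

/-- a consistent tuple has a real path -/
theorem cons3_of_consistent {p q K : ℝ} (hpq : p < q) {f : ℕ → List Step}
    (hfin : {x : ℝ | x ∈ Ioo p q ∧ ∀ s ∈ f 3, x ∉ s.dom}.Finite)
    (hK : ∀ s ∈ f 3, -K ≤ (s.lo : ℝ) ∧ (s.hi : ℝ) ≤ K)
    (hg : Consistent (Ioo p q) 3 f) :
    Cons3 p q K ((f 0).map Step.toStp) ((f 1).map Step.toStp) ((f 2).map Step.toStp)
      ((f 3).map Step.toStp) := by
  obtain ⟨g, hC, hB, hL⟩ := hg
  have hC' : ContDiffOn ℝ ((2 : ℕ) : WithTop ℕ∞) g (Ioo p q) := hC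
  have hopen : IsOpen (Ioo p q) := isOpen_Ioo
  have hder : ∀ k < 2, ∀ x, p < x → x < q →
      HasDerivAt (iteratedDeriv k g) (iteratedDeriv (k + 1) g x) x := by
    intro k hk x h1 h2
    have hx : x ∈ Ioo p q := ⟨h1, h2⟩
    have e2 : DifferentiableAt ℝ (iteratedDeriv k g) x := by
      have e3 : DifferentiableOn ℝ (iteratedDerivWithin k g (Ioo p q)) (Ioo p q) :=
        hC'.differentiableOn_iteratedDerivWithin (by exact_mod_cast hk) hopen.uniqueDiffOn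
      have e4 : DifferentiableAt ℝ (iteratedDerivWithin k g (Ioo p q)) x :=
        (e3 x hx).differentiableAt (hopen.mem_nhds hx)
      apply e4.congr_of_eventuallyEq
      filter_upwards [hopen.mem_nhds hx] with y hy
      exact (iteratedDerivWithin_of_isOpen hopen hy).symm
    rw [iteratedDeriv_succ]
    exact e2.hasDerivAt
  have hLs : ∀ s ∈ f 3, ∀ x y, p < x → x < q → p < y → y < q → x ∈ s.dom → y ∈ s.dom →
      x ≤ y → (s.lo : ℝ) * (y - x) ≤ iteratedDeriv 2 g y - iteratedDeriv 2 g x ∧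
      iteratedDeriv 2 g y - iteratedDeriv 2 g x ≤ (s.hi : ℝ) * (y - x) := by
    intro s hs x y h1 h2 h3 h4 h5 h6 h7
    exact slope_of_belowL (fun hne => hL s hs x ⟨⟨h1, h2⟩, h5⟩ y ⟨⟨h3, h4⟩, h6⟩ hne) h7
  have hcont : ∀ x, p < x → x < q → ContinuousAt (iteratedDeriv 2 g) x := by
    intro x h1 h2
    have hx : x ∈ Ioo p q := ⟨h1, h2⟩
    have e3 : ContinuousOn (iteratedDerivWithin 2 g (Ioo p q)) (Ioo p q) :=
      hC'.continuousOn_iteratedDerivWithin le_rfl hopen.uniqueDiffOn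
    have e4 := (e3 x hx).continuousAt (hopen.mem_nhds hx)
    apply e4.congr
    filter_upwards [hopen.mem_nhds hx] with y hy
    exact iteratedDerivWithin_of_isOpen hopen hy
  have hlip := lip_of_local_fin (K := K) (f := iteratedDeriv 2 g) hfin.toFinset p q hcont (by
    intro x h1 h2 h0
    obtain ⟨s, hs, hxs⟩ : ∃ s ∈ f 3, x ∈ s.dom := by
      by_contra hcon
      push Not at hcon
      exact h0 (hfin.mem_toFinset.2 ⟨⟨h1, h2⟩, hcon⟩)
    have ho : IsOpen s.dom := isOpen_dom _ _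
    obtain ⟨δ, hδ, hball⟩ := Metric.isOpen_iff.1 ho x hxs
    refine ⟨δ, hδ, fun y z hy hz h3 h4 h5 => ?_⟩
    have hy' : y ∈ s.dom := hball (by rw [Metric.mem_ball, Real.dist_eq]; exact hy)
    have hz' : z ∈ s.dom := hball (by rw [Metric.mem_ball, Real.dist_eq]; exact hz)
    have := hLs s hs y z h3 (h4.trans_lt h5) (h3.trans_le h4) h5 hy' hz' h4
    have e : 0 ≤ z - y := by linarith
    exact ⟨(mul_le_mul_of_nonneg_right (hK s hs).1 e).trans this.1,
      this.2.trans (mul_le_mul_of_nonneg_right (hK s hs).2 e)⟩)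
  obtain ⟨h, v, a, P, hSB, e0, e1, e2⟩ := exists_path hpq (g := iteratedDeriv 0 g)
    (g1 := iteratedDeriv 1 g) (g2 := iteratedDeriv 2 g)
    (hder 0 (by omega)) (hder 1 (by omega)) hlip
  have hhc : Continuous h := by
    rw [continuous_iff_continuousAt]
    exact fun y => (P.dh y).continuousAt
  refine ⟨h, v, a, P, ?_, ?_, ?_, ?_, hSB⟩
  · apply VC.of_open hpq hhc
    intro st hst x h1 h2 h3
    obtain ⟨s, hs, rfl⟩ := List.mem_map.1 hst
    rw [e0 x h1 h2]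
    exact hB 0 (by omega) s hs x ⟨⟨h1, h2⟩, h3⟩
  · apply VC.of_open hpq P.vcont
    intro st hst x h1 h2 h3
    obtain ⟨s, hs, rfl⟩ := List.mem_map.1 hst
    rw [e1 x h1 h2]
    exact hB 1 (by omega) s hs x ⟨⟨h1, h2⟩, h3⟩
  · apply VC.of_open hpq P.cont
    intro st hst x h1 h2 h3
    obtain ⟨s, hs, rfl⟩ := List.mem_map.1 hst
    rw [e2 x h1 h2]
    exact hB 2 (by omega) s hs x ⟨⟨h1, h2⟩, h3⟩
  · apply SC.of_open hpq P.cont
    intro st hst x y h1 h2 h3 h4 h5 h6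
    obtain ⟨s, hs, rfl⟩ := List.mem_map.1 hst
    rw [e2 x h1 h2, e2 y h3 h4]
    rcases le_total x y with hxy | hxy
    · have := hLs s hs x y h1 h2 h3 h4 h5 h6 hxy
      have e : 0 ≤ y - x := by linarith
      have i1 := mul_le_mul_of_nonneg_right this.1 e
      have i2 := mul_le_mul_of_nonneg_right this.2 e
      constructor
      · show (s.lo : ℝ) * (y - x) ^ 2 ≤ _
        calc (s.lo : ℝ) * (y - x) ^ 2 = (s.lo : ℝ) * (y - x) * (y - x) := by ring
          _ ≤ _ := i1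
      · show _ ≤ (s.hi : ℝ) * (y - x) ^ 2
        calc _ ≤ (s.hi : ℝ) * (y - x) * (y - x) := i2
          _ = (s.hi : ℝ) * (y - x) ^ 2 := by ring
    · have := hLs s hs y x h3 h4 h1 h2 h6 h5 hxy
      have e : 0 ≤ x - y := by linarith
      have i1 := mul_le_mul_of_nonneg_right this.1 e
      have i2 := mul_le_mul_of_nonneg_right this.2 e
      constructor
      · show (s.lo : ℝ) * (y - x) ^ 2 ≤ _
        calc (s.lo : ℝ) * (y - x) ^ 2 = (s.lo : ℝ) * (x - y) * (x - y) := by ring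
          _ ≤ (iteratedDeriv 2 g x - iteratedDeriv 2 g y) * (x - y) := i1
          _ = _ := by ring
      · show _ ≤ (s.hi : ℝ) * (y - x) ^ 2
        calc (iteratedDeriv 2 g y - iteratedDeriv 2 g x) * (y - x)
            = (iteratedDeriv 2 g x - iteratedDeriv 2 g y) * (x - y) := by ring
          _ ≤ (s.hi : ℝ) * (x - y) * (x - y) := i2
          _ = (s.hi : ℝ) * (y - x) ^ 2 := by ring

/-- a real path shows consistency -/
theorem consistent_of_cons3 {p q K : ℝ} {f : ℕ → List Step}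
    (h : Cons3 p q K ((f 0).map Step.toStp) ((f 1).map Step.toStp) ((f 2).map Step.toStp)
      ((f 3).map Step.toStp)) : Consistent (Ioo p q) 3 f := by
  obtain ⟨H, V, b, Q, G⟩ := h
  refine ⟨H, Q.contDiff.contDiffOn, ?_, ?_⟩
  · intro d hd s hs x hx
    have h2 : d = 0 ∨ d = 1 ∨ d = 2 := by omega
    rcases h2 with rfl | rfl | rfl
    · rw [iteratedDeriv_zero]
      exact G.c0 s.toStp (List.mem_map_of_mem hs) x hx.1.1.le hx.1.2.le hx.2
    · rw [Q.it1]
      exact G.c1 s.toStp (List.mem_map_of_mem hs) x hx.1.1.le hx.1.2.le hx.2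
    · rw [Q.it2]
      exact G.c2 s.toStp (List.mem_map_of_mem hs) x hx.1.1.le hx.1.2.le hx.2
  · intro s hs x hx y hy hxy
    have e : 3 - 1 = 2 := rfl
    rw [e, Q.it2]
    apply belowL_of_slope _ _ hxy
    · intro h1
      exact G.c3 s.toStp (List.mem_map_of_mem hs) x y hx.1.1.le h1 hy.1.2.le hx.2 hy.2
    · intro h1
      exact G.c3 s.toStp (List.mem_map_of_mem hs) y x hy.1.1.le h1 hx.1.2.le hy.2 hx.2

/-- if infinitely many points are not covered then some rational interval is not covered -/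
theorem exists_uncovered {p q : ℚ} {f : List Step}
    (h : ¬ {x : ℝ | x ∈ Ioo (p : ℝ) q ∧ ∀ s ∈ f, x ∉ s.dom}.Finite) :
    ∃ y z : ℚ, p < y ∧ y < z ∧ z < q ∧ ∀ s ∈ f, z ≤ s.c - s.r ∨ s.c + s.r ≤ y := by
  classical
  set P : Finset ℝ := (f.map (fun s => ((s.c : ℝ) - s.r)) ++
    f.map (fun s => ((s.c : ℝ) + s.r))).toFinset with hP
  obtain ⟨x, ⟨hx, hn⟩, hxP⟩ := Set.Infinite.exists_notMem_finset h P
  have hn' : ∀ s ∈ f, x < s.c - s.r ∨ s.c + s.r < x := by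
    intro s hs
    have h1 := hn s hs
    simp only [Step.dom, mem_ofPred_eq, not_lt] at h1
    have h2 : x ≠ s.c - s.r := by
      rintro rfl
      apply hxP
      rw [hP, List.mem_toFinset, List.mem_append]
      exact Or.inl (List.mem_map_of_mem (f := fun s : Step => ((s.c : ℝ) - s.r)) hs)
    have h3 : x ≠ s.c + s.r := by
      rintro rfl
      apply hxP
      rw [hP, List.mem_toFinset, List.mem_append]
      exact Or.inr (List.mem_map_of_mem (f := fun s : Step => ((s.c : ℝ) + s.r)) hs)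
    rcases le_abs.1 h1 with h4 | h4
    · right
      exact lt_of_le_of_ne (by linarith) (Ne.symm h3)
    · left
      exact lt_of_le_of_ne (by linarith) h2
  have key : ∀ g : List Step, (∀ s ∈ g, x < s.c - s.r ∨ s.c + s.r < x) →
      ∃ δ > 0, ∀ s ∈ g, x + δ ≤ s.c - s.r ∨ s.c + s.r ≤ x - δ := by
    intro g
    induction g with
    | nil => exact fun _ => ⟨1, one_pos, fun s hs => absurd hs List.not_mem_nil⟩
    | cons s g ih =>
      intro hg
      obtain ⟨δ, hδ, h1⟩ := ih (fun s' hs' => hg s' (List.mem_cons_of_mem _ hs'))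
      have h2 : ∃ δ' > 0, x + δ' ≤ s.c - s.r ∨ s.c + s.r ≤ x - δ' := by
        rcases hg s List.mem_cons_self with h3 | h3
        · exact ⟨s.c - s.r - x, by linarith, Or.inl (by linarith)⟩
        · exact ⟨x - (s.c + s.r), by linarith, Or.inr (by linarith)⟩
      obtain ⟨δ', hδ', h3⟩ := h2
      refine ⟨min δ δ', lt_min hδ hδ', fun s' hs' => ?_⟩
      have e1 := min_le_left δ δ'
      have e2 := min_le_right δ δ'
      rcases List.mem_cons.1 hs' with rfl | hs'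
      · rcases h3 with h3 | h3
        · left; linarith
        · right; linarith
      · rcases h1 s' hs' with h3 | h3
        · left; linarith
        · right; linarith
  obtain ⟨δ, hδ, h1⟩ := key f hn'
  obtain ⟨y, hy1, hy2⟩ := exists_rat_btwn (show max (p : ℝ) (x - δ) < x from
    max_lt hx.1 (by linarith))
  obtain ⟨z, hz1, hz2⟩ := exists_rat_btwn (show x < min (q : ℝ) (x + δ) from
    lt_min hx.2 (by linarith))
  have hy3 : (p : ℝ) < y := (le_max_left _ _).trans_lt hy1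
  have hy4 : x - δ < y := (le_max_right _ _).trans_lt hy1
  have hz3 : (z : ℝ) < q := hz2.trans_le (min_le_left _ _)
  have hz4 : (z : ℝ) < x + δ := hz2.trans_le (min_le_right _ _)
  refine ⟨y, z, by exact_mod_cast hy3, by exact_mod_cast hy2.trans hz1, by exact_mod_cast hz3,
    fun s hs => ?_⟩
  rcases h1 s hs with h3 | h3
  · left
    have : (z : ℝ) ≤ s.c - s.r := by linarith
    exact_mod_cast this
  · right
    have : (s.c : ℝ) + s.r ≤ y := by linarith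
    exact_mod_cast this

/-- the conditions under which `B` bounds some solution -/
structure Bnd (p q K ρ M c a0 v0 h0 B : ℝ) (L0 L1 L2 : List Stp) : Prop where
  hK : 0 ≤ K
  hρ : 0 < ρ
  hpc : p ≤ c
  hcq : c + ρ ≤ q
  alt : (∃ s ∈ L0, s.c - s.r < c ∧ c + ρ < s.c + s.r ∧ -M ≤ s.lo ∧ s.hi ≤ M ∧
      24 * M + 8 * K * ρ ^ 3 ≤ a0 * ρ ^ 2 ∧ 14 * M + 5 * K * ρ ^ 3 ≤ v0 * ρ ∧ M ≤ h0) ∨
    (L0 = [] ∧ ∃ s ∈ L1, s.c - s.r < c ∧ c + ρ < s.c + s.r ∧ -M ≤ s.lo ∧ s.hi ≤ M ∧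
      2 * M + K * ρ ^ 2 ≤ a0 * ρ ∧ M ≤ v0 ∧ 0 ≤ h0) ∨
    (L0 = [] ∧ L1 = [] ∧ ∃ s ∈ L2, s.c - s.r < c ∧ c + ρ < s.c + s.r ∧ -M ≤ s.lo ∧ s.hi ≤ M ∧
      M ≤ a0 ∧ 0 ≤ v0 ∧ 0 ≤ h0) ∨
    (L0 = [] ∧ L1 = [] ∧ L2 = [] ∧ 0 ≤ a0 ∧ 0 ≤ v0 ∧ 0 ≤ h0)
  h1 : a0 + K * (q - p) ≤ B
  h2 : v0 + (a0 + K * (q - p)) * (q - p) ≤ B
  h3 : h0 + (v0 + (a0 + K * (q - p)) * (q - p)) * (q - p) ≤ B

theorem gf_shift {p q K c x y z : ℝ} {L0 L1 L2 L3 : List Stp} {h v a : ℝ → ℝ}
    (F : GF L0 L1 L2 L3 K p q h v a) (h0 : L0 = []) (h1 : L1 = [] ∨ (y = 0 ∧ z = 0))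
    (h2 : L2 = [] ∨ z = 0) :
    GF L0 L1 L2 L3 K p q (fun t => h t - (x + y * (t - c) + z * (t - c) ^ 2 / 2))
      (fun t => v t - (y + z * (t - c))) (fun t => a t - z) := by
  refine ⟨?_, ?_, ?_, ?_, ?_⟩
  · rw [h0]
    exact fun s hs => absurd hs List.not_mem_nil
  · rcases h1 with h1 | ⟨rfl, rfl⟩
    · rw [h1]
      exact fun s hs => absurd hs List.not_mem_nil
    · exact F.c1.congr (fun t _ _ => by ring)
  · rcases h2 with h2 | rfl
    · rw [h2]
      exact fun s hs => absurd hs List.not_mem_nil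
    · exact F.c2.congr (fun t _ _ => by ring)
  · intro s hs t t' i1 i2 i3 i4 i5
    have := F.c3 s hs t t' i1 i2 i3 i4 i5
    constructor
    · show _ ≤ (a t' - z) - (a t - z)
      linarith [this.1]
    · show (a t' - z) - (a t - z) ≤ _
      linarith [this.2]
  · intro t t' i1 i2 i3
    have := F.sb t t' i1 i2 i3
    constructor
    · show _ ≤ (a t' - z) - (a t - z)
      linarith [this.1]
    · show (a t' - z) - (a t - z) ≤ _
      linarith [this.2]

/-- some solution is bounded -/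
theorem exists_bounded {p q K ρ M c a0 v0 h0 B : ℝ} {L0 L1 L2 L3 : List Stp}
    (hB : Bnd p q K ρ M c a0 v0 h0 B L0 L1 L2) (h : Cons3 p q K L0 L1 L2 L3) :
    ∃ h v a : ℝ → ℝ, IsPath h v a ∧ GF L0 L1 L2 L3 K p q h v a ∧
      ∀ x, p ≤ x → x ≤ q → |a x| ≤ B ∧ |v x| ≤ B ∧ |h x| ≤ B := by
  obtain ⟨h, v, a, P, F⟩ := h
  have hcq' : c ≤ q := by linarith [hB.hcq, hB.hρ]
  have dom : ∀ s : Stp, s.c - s.r < c → c + ρ < s.c + s.r → ∀ x, c ≤ x → x ≤ c + ρ →
      |x - s.c| < s.r := by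
    intro s i1 i2 x i3 i4
    rw [abs_lt]
    constructor <;> linarith
  have hS : SB (-K) K c (c + ρ) a := F.sb.mono hB.hpc hB.hcq
  rcases hB.alt with ⟨s, hs, i1, i2, i3, i4, i5, i6, i7⟩ | ⟨e0, s, hs, i1, i2, i3, i4, i5, i6, i7⟩ |
    ⟨e0, e1, s, hs, i1, i2, i3, i4, i5, i6, i7⟩ | ⟨e0, e1, e2, i5, i6, i7⟩
  · have hM : ∀ x, c ≤ x → x ≤ c + ρ → |h x| ≤ M := by
      intro x j1 j2
      have := F.c0 s hs x (hB.hpc.trans j1) (j2.trans hB.hcq) (dom s i1 i2 x j1 j2)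
      rw [abs_le]
      constructor <;> linarith [this.1, this.2]
    have hb := bound_h P hB.hρ hB.hK hS hM i5 i6
    exact ⟨h, v, a, P, F, bound_all P hB.hpc hcq' hB.hK F.sb hb.1 hb.2
      ((hM c le_rfl (by linarith [hB.hρ])).trans i7) hB.h1 hB.h2 hB.h3⟩
  · have hM : ∀ x, c ≤ x → x ≤ c + ρ → |v x| ≤ M := by
      intro x j1 j2
      have := F.c1 s hs x (hB.hpc.trans j1) (j2.trans hB.hcq) (dom s i1 i2 x j1 j2)
      rw [abs_le]
      constructor <;> linarith [this.1, this.2]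
    have hb := bound_v P hB.hρ hB.hK hS hM i5
    have P' := shift P c (h c) 0 0
    have F' := gf_shift (c := c) (x := h c) (y := 0) (z := 0) F e0 (Or.inr ⟨rfl, rfl⟩) (Or.inr rfl)
    refine ⟨_, _, _, P', F', bound_all (a0 := a0) (v0 := v0) (h0 := h0) P' hB.hpc hcq' hB.hK F'.sb
      ?_ ?_ ?_ hB.h1 hB.h2 hB.h3⟩
    · simpa using hb
    · simpa using (hM c le_rfl (by linarith [hB.hρ])).trans i6
    · simpa using i7
  · have hM : |a c| ≤ M := by
      have := F.c2 s hs c hB.hpc hcq' (dom s i1 i2 c le_rfl (by linarith [hB.hρ]))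
      rw [abs_le]
      constructor <;> linarith [this.1, this.2]
    have P' := shift P c (h c) (v c) 0
    have F' := gf_shift (c := c) (x := h c) (y := v c) (z := 0) F e0 (Or.inl e1) (Or.inr rfl)
    refine ⟨_, _, _, P', F', bound_all (a0 := a0) (v0 := v0) (h0 := h0) P' hB.hpc hcq' hB.hK F'.sb
      ?_ ?_ ?_ hB.h1 hB.h2 hB.h3⟩
    · simpa using hM.trans i5
    · simpa using i6
    · simpa using i7
  · have P' := shift P c (h c) (v c) (a c)
    have F' := gf_shift (c := c) (x := h c) (y := v c) (z := a c) F e0 (Or.inl e1) (Or.inl e2)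
    refine ⟨_, _, _, P', F', bound_all (a0 := a0) (v0 := v0) (h0 := h0) P' hB.hpc hcq' hB.hK F'.sb
      ?_ ?_ ?_ hB.h1 hB.h2 hB.h3⟩
    · simpa using i5
    · simpa using i6
    · simpa using i7

/-- a bounded grid approximation -/
def GOK (p q K : ℝ) (L0 L1 L2 L3 : List Stp) (B m N z : ℕ) : Prop :=
  ∀ i < N + 2, ∀ j < N + 2, GC p q K B L0 L1 L2 L3 N (val B m z 0) (val B m z 1) (val B m z 2) i j

theorem dig_interleave {W n : ℕ} {α β γ : ℕ → ℕ} (h : ∀ i < n, α i < W ∧ β i < W ∧ γ i < W) :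
    ∃ z < W ^ (3 * n), ∀ i < n, dig W z (3 * i) = α i ∧ dig W z (3 * i + 1) = β i ∧
      dig W z (3 * i + 2) = γ i := by
  obtain ⟨z, hz, hd⟩ := exists_dig W (3 * n)
    (fun k => if k % 3 = 0 then α (k / 3) else if k % 3 = 1 then β (k / 3) else γ (k / 3)) (by
      intro k hk
      have := h (k / 3) (by omega)
      show (if k % 3 = 0 then α (k / 3) else if k % 3 = 1 then β (k / 3) else γ (k / 3)) < W
      split_ifs
      · exact this.1
      · exact this.2.1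
      · exact this.2.2)
  refine ⟨z, hz, fun i hi => ⟨?_, ?_, ?_⟩⟩
  · rw [hd (3 * i) (by omega)]
    have e1 : 3 * i % 3 = 0 := by omega
    have e2 : 3 * i / 3 = i := by omega
    simp [e1, e2]
  · rw [hd (3 * i + 1) (by omega)]
    have e1 : (3 * i + 1) % 3 = 1 := by omega
    have e2 : (3 * i + 1) / 3 = i := by omega
    simp [e1, e2]
  · rw [hd (3 * i + 2) (by omega)]
    have e1 : (3 * i + 2) % 3 = 2 := by omega
    have e2 : (3 * i + 2) / 3 = i := by omega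
    simp [e1, e2]

/-- a solution has grid approximations -/
theorem gok_of_cons3 {p q K ρ M c a0 v0 h0 : ℝ} {B m N : ℕ} {L0 L1 L2 L3 : List Stp} (hpq : p < q)
    (hB : Bnd p q K ρ M c a0 v0 h0 B L0 L1 L2)
    (hm : (2 + (q - p)) * ((N : ℝ) + 1) ≤ ((m + 1 : ℕ) : ℝ)) (h : Cons3 p q K L0 L1 L2 L3) :
    ∃ z < (2 * B * (m + 1) + 1) ^ (3 * (N + 2)), GOK p q K L0 L1 L2 L3 B m N z := by
  obtain ⟨h, v, a, P, F, hb⟩ := exists_bounded hB h
  obtain ⟨α, β, γ, h1, h2⟩ := exists_grid p q K B (m + 1) N hpq hB.hK hm L0 L1 L2 L3 P F hb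
  obtain ⟨z, hz, hd⟩ := dig_interleave (W := 2 * B * (m + 1) + 1) (n := N + 2) (α := α) (β := β)
    (γ := γ) (fun i hi => by
      have := h1 i (by omega)
      omega)
  refine ⟨z, hz, fun i hi j hj => ?_⟩
  have e := h2 i (by omega) j (by omega)
  have hi' := hd i hi
  have hj' := hd j hj
  have vi0 : val B m z 0 i = ((α i : ℝ) - B * ((m + 1 : ℕ) : ℝ)) / ((m + 1 : ℕ) : ℝ) := by
    unfold val
    rw [show 3 * i + 0 = 3 * i from rfl, hi'.1]
  have vi1 : val B m z 1 i = ((β i : ℝ) - B * ((m + 1 : ℕ) : ℝ)) / ((m + 1 : ℕ) : ℝ) := by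
    unfold val
    rw [hi'.2.1]
  have vi2 : val B m z 2 i = ((γ i : ℝ) - B * ((m + 1 : ℕ) : ℝ)) / ((m + 1 : ℕ) : ℝ) := by
    unfold val
    rw [hi'.2.2]
  have vj0 : val B m z 0 j = ((α j : ℝ) - B * ((m + 1 : ℕ) : ℝ)) / ((m + 1 : ℕ) : ℝ) := by
    unfold val
    rw [show 3 * j + 0 = 3 * j from rfl, hj'.1]
  have vj1 : val B m z 1 j = ((β j : ℝ) - B * ((m + 1 : ℕ) : ℝ)) / ((m + 1 : ℕ) : ℝ) := by
    unfold val
    rw [hj'.2.1]
  have vj2 : val B m z 2 j = ((γ j : ℝ) - B * ((m + 1 : ℕ) : ℝ)) / ((m + 1 : ℕ) : ℝ) := by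
    unfold val
    rw [hj'.2.2]
  obtain ⟨t1, t2, t3, c0, c1, c2, c3⟩ := e
  refine ⟨?_, ?_, ?_, ?_, ?_, ?_, ?_⟩
  · rw [vj1, vi1, vi0]; exact t1
  · rw [vj2, vi2, vi1]; exact t2
  · rw [vj0, vi0]; exact t3
  · rw [vi2]; exact c0
  · rw [vi1]; exact c1
  · rw [vi0]; exact c2
  · rw [vj0, vi0]; exact c3

theorem abs_val_le (B m z k i : ℕ) : |val B m z k i| ≤ B := by
  unfold val
  have hm : (0 : ℝ) < ((m + 1 : ℕ) : ℝ) := by exact_mod_cast Nat.succ_pos m
  rw [abs_div, abs_of_pos hm, div_le_iff₀ hm, abs_le]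
  have h1 : dig (2 * B * (m + 1) + 1) z (3 * i + k) ≤ 2 * B * (m + 1) :=
    Nat.lt_succ_iff.1 (Nat.mod_lt _ (Nat.succ_pos _))
  have h2 : (dig (2 * B * (m + 1) + 1) z (3 * i + k) : ℝ) ≤ 2 * B * ((m + 1 : ℕ) : ℝ) := by
    exact_mod_cast h1
  have h3 : (0 : ℝ) ≤ (dig (2 * B * (m + 1) + 1) z (3 * i + k) : ℝ) := Nat.cast_nonneg _
  constructor <;> linarith

/-- no solution: no grid approximations for some `N` -/
theorem exists_not_gok {p q K : ℝ} {B : ℕ} {L0 L1 L2 L3 : List Stp} (hpq : p < q) (hK : 0 ≤ K)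
    (h : ¬ Cons3 p q K L0 L1 L2 L3) :
    ∃ N : ℕ, ∀ m z : ℕ, ¬ GOK p q K L0 L1 L2 L3 B m N z := by
  by_contra hcon
  push Not at hcon
  apply h
  apply grid_limit p q K B hpq hK
  intro N
  obtain ⟨m, z, hz⟩ := hcon N
  exact ⟨val B m z 0, val B m z 1, val B m z 2,
    fun i _ => ⟨abs_val_le _ _ _ _ _, abs_val_le _ _ _ _ _, abs_val_le _ _ _ _ _⟩,
    fun i hi j hj => hz i (by omega) j (by omega)⟩

end MP44e4f6
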