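import Mathlib
import Pool.Agent.Lib.MP_44e4f6_lc.Code
import Pool.Agent.Lib.MP_44e4f6_lc.CE

/-!
Leaf CC: the existence of an algebraic certificate (`Cert`, file Alg) is semi-decidable.

All polynomials are coded by `ℕ × List ℤ` (`toQ`, file QP; `toQ_surjective`), rationals by `num` (surjective), the function `ν` and
`n` by a list `l` of quadruples of codes (`ν i = l.getD i default`, `n = l.length - 1`). Use the closure properties of file Sg
(`Sg.ex`, `Sg.and`, `Sg.or`, `Sg.ball`, `Sg.ball_list`, `Dc.sg`) and: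
* `ZF F c` is `∃ Q, toQ c = toQ F * toQ Q`, `NF F c` is `∃ S Q, toQ c = toQ S ^ 2 + toQ F * toQ Q` (`primrec_toQ_eq`, `primrec_padd`,
  `primrec_pmul`, `toQ_padd`, ...);
* evaluation of an `Ex` in an environment of codes is computable (induction on the expression), and `toQ` of it is `Ex.ev`;
* the lists `at0, ..., at3` are fixed finite lists, so `∀ e ∈ A, ...` is a finite conjunction (induction on `A`);
* `F.eval r = u` is `∃ Q, toQ F = (X - C r) * toQ Q + C u`; signs and order of rationals: `dc_ev` (file CE), or directly;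
* a step `s` in `f.map stepOf` has the polynomials `toQ (s.1.2, [s.1.1])`, ... (`toQ_const`, `num`).
It is probably best to make lemmas: `Sg` of `ZF`, of `NF`, of `StepOK`, of `Piece`, of the chain.
-/

open Polynomial

namespace MP44e4f6

/-- codes of polynomials -/
private abbrev CC_P : Type := ℕ × List ℤ

/-- codes of quadruples of polynomials -/
private abbrev CC_Q : Type := CC_P × CC_P × CC_P × CC_P

/-- codes of rational numbers -/
private abbrev CC_R : Type := ℤ × ℕ

/-- codes of steps -/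
private abbrev CC_S : Type := (ℤ × ℕ) × (ℤ × ℕ) × (ℤ × ℕ) × (ℤ × ℕ)

private theorem CC_zf : Sg (fun z : CC_P × CC_P => ZF (toQ z.1) (toQ z.2)) := by
  refine (Sg.ex (β := CC_P) (P := fun z w => toQ z.2 = toQ (pmul z.1 w)) ?_).of_eq fun z => ?_
  · exact Dc.sg (Dc.of_primrec (primrec_toQ_eq.comp (Primrec.snd.comp Primrec.fst)
      (primrec_pmul.comp (Primrec.fst.comp Primrec.fst) Primrec.snd)))
  · constructor
    · rintro ⟨w, hw⟩
      exact ⟨toQ w, by rw [hw, toQ_pmul]⟩
    · rintro ⟨Q, hQ⟩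
      obtain ⟨w, hw⟩ := toQ_surjective Q
      exact ⟨w, by rw [toQ_pmul, hw, hQ]⟩

private theorem CC_nf : Sg (fun z : CC_P × CC_P => NF (toQ z.1) (toQ z.2)) := by
  refine (Sg.ex (β := CC_P × CC_P)
    (P := fun z w => toQ z.2 = toQ (padd (pmul w.1 w.1) (pmul z.1 w.2))) ?_).of_eq fun z => ?_
  · exact Dc.sg (Dc.of_primrec (primrec_toQ_eq.comp (Primrec.snd.comp Primrec.fst)
      (primrec_padd.comp
        (primrec_pmul.comp (Primrec.fst.comp Primrec.snd) (Primrec.fst.comp Primrec.snd))
        (primrec_pmul.comp (Primrec.fst.comp Primrec.fst) (Primrec.snd.comp Primrec.snd)))))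
  · constructor
    · rintro ⟨w, hw⟩
      refine ⟨toQ w.1, toQ w.2, ?_⟩
      rw [hw, toQ_padd, toQ_pmul, toQ_pmul]
      ring
    · rintro ⟨S, Q, hQ⟩
      obtain ⟨a, ha⟩ := toQ_surjective S
      obtain ⟨b, hb⟩ := toQ_surjective Q
      refine ⟨(a, b), ?_⟩
      rw [toQ_padd, toQ_pmul, toQ_pmul, ha, hb]
      linear_combination hQ

/-- the environment in codes -/
private def CC_env (n n' s : CC_Q) (K : CC_P) : ℕ → CC_P
  | 0 => n.1
  | 1 => n.2.1
  | 2 => n.2.2.1
  | 3 => n.2.2.2
  | 4 => n'.1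
  | 5 => n'.2.1
  | 6 => n'.2.2.1
  | 7 => n'.2.2.2
  | 8 => s.1
  | 9 => s.2.1
  | 10 => s.2.2.1
  | 11 => s.2.2.2
  | 12 => K
  | _ => (0, [])

private theorem CC_env_toQ (n n' s : CC_Q) (K : CC_P) :
    (fun i => toQ (CC_env n n' s K i)) = env (m4 toQ n) (m4 toQ n') (m4 toQ s) (toQ K) := by
  funext i
  match i with
  | 0 => rfl
  | 1 => rfl
  | 2 => rfl
  | 3 => rfl
  | 4 => rfl
  | 5 => rfl
  | 6 => rfl
  | 7 => rfl
  | 8 => rfl
  | 9 => rfl
  | 10 => rfl
  | 11 => rfl
  | 12 => rfl
  | i + 13 => simp [env, CC_env, toQ, toP]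

private theorem CC_env_comp {α : Type} [Primcodable α] {n n' s : α → CC_Q} {K : α → CC_P}
    (hn : Computable n) (hn' : Computable n') (hs : Computable s) (hK : Computable K) (i : ℕ) :
    Computable fun x => CC_env (n x) (n' x) (s x) (K x) i := by
  match i with
  | 0 => exact Computable.fst.comp hn
  | 1 => exact Computable.fst.comp (Computable.snd.comp hn)
  | 2 => exact Computable.fst.comp (Computable.snd.comp (Computable.snd.comp hn))
  | 3 => exact Computable.snd.comp (Computable.snd.comp (Computable.snd.comp hn))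
  | 4 => exact Computable.fst.comp hn'
  | 5 => exact Computable.fst.comp (Computable.snd.comp hn')
  | 6 => exact Computable.fst.comp (Computable.snd.comp (Computable.snd.comp hn'))
  | 7 => exact Computable.snd.comp (Computable.snd.comp (Computable.snd.comp hn'))
  | 8 => exact Computable.fst.comp hs
  | 9 => exact Computable.fst.comp (Computable.snd.comp hs)
  | 10 => exact Computable.fst.comp (Computable.snd.comp (Computable.snd.comp hs))
  | 11 => exact Computable.snd.comp (Computable.snd.comp (Computable.snd.comp hs))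
  | 12 => exact hK
  | i + 13 => exact Computable.const _

/-- the value of an expression in codes -/
private def CC_ev (ρ : ℕ → CC_P) : Ex → CC_P
  | .v i => ρ i
  | .c n => (0, [n])
  | .add a b => padd (CC_ev ρ a) (CC_ev ρ b)
  | .mul a b => pmul (CC_ev ρ a) (CC_ev ρ b)

private theorem CC_ev_toQ (ρ : ℕ → CC_P) (e : Ex) : toQ (CC_ev ρ e) = e.ev (fun i => toQ (ρ i)) := by
  induction e with
  | v i => rfl
  | c n =>
    show toQ (0, [n]) = ((n : ℤ) : ℚ[X])
    rw [toQ_const]
    simp
  | add a b iha ihb =>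
    show toQ (padd (CC_ev ρ a) (CC_ev ρ b)) = a.ev (fun i => toQ (ρ i)) + b.ev (fun i => toQ (ρ i))
    rw [toQ_padd, iha, ihb]
  | mul a b iha ihb =>
    show toQ (pmul (CC_ev ρ a) (CC_ev ρ b)) = a.ev (fun i => toQ (ρ i)) * b.ev (fun i => toQ (ρ i))
    rw [toQ_pmul, iha, ihb]

private theorem CC_ev_comp {α : Type} [Primcodable α] {ρ : α → ℕ → CC_P}
    (h : ∀ i, Computable fun x => ρ x i) (e : Ex) : Computable fun x => CC_ev (ρ x) e := by
  induction e with
  | v i => exact h i
  | c n => exact Computable.const _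
  | add a b iha ihb => exact primrec_padd.to_comp.comp iha ihb
  | mul a b iha ihb => exact primrec_pmul.to_comp.comp iha ihb

section

variable {α : Type} [Primcodable α] {F K : α → CC_P} {n n' s : α → CC_Q}

private theorem CC_ex {N : ℚ[X] → ℚ[X] → Prop} (hN : Sg (fun z : CC_P × CC_P => N (toQ z.1) (toQ z.2)))
    (hF : Computable F) (hK : Computable K) (hn : Computable n) (hn' : Computable n')
    (hs : Computable s) (e : Ex) :
    Sg (fun x => N (toQ (F x))
      (e.ev (env (m4 toQ (n x)) (m4 toQ (n' x)) (m4 toQ (s x)) (toQ (K x))))) := by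
  refine (hN.comp (f := fun x => (F x, CC_ev (CC_env (n x) (n' x) (s x) (K x)) e))
    (hF.pair (CC_ev_comp (fun i => CC_env_comp hn hn' hs hK i) e))).of_eq fun x => ?_
  rw [← CC_env_toQ, ← CC_ev_toQ]

private theorem CC_step (hF : Computable F) (hK : Computable K) (hn : Computable n)
    (hn' : Computable n') (hs : Computable s) (A : List Ex) :
    Sg (fun x => StepOK (NF (toQ (F x))) A (toQ (K x)) (m4 toQ (n x)) (m4 toQ (n' x))
      (m4 toQ (s x))) := by
  have h : Sg (fun x => ∀ e ∈ A, NF (toQ (F x))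
      (e.ev (env (m4 toQ (n x)) (m4 toQ (n' x)) (m4 toQ (s x)) (toQ (K x))))) := by
    induction A with
    | nil => exact Dc.sg ⟨fun _ => true, Computable.const true, fun x => by simp⟩
    | cons a A ih =>
      exact ((CC_ex CC_nf hF hK hn hn' hs a).and ih).of_eq fun x => by rw [List.forall_mem_cons]
  exact (CC_ex CC_nf hF hK hn hn' hs eL).or ((CC_ex CC_nf hF hK hn hn' hs eR).or h)

/-- the code of a constant -/
private def CC_cst (u : CC_R) : CC_P := (u.2, [u.1])

private theorem CC_cst_toQ (u : CC_R) : toQ (CC_cst u) = C (num u) := toQ_const _ _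

private theorem CC_cst_comp : Computable CC_cst :=
  Computable.snd.pair (Computable.list_cons.comp Computable.fst (Computable.const []))

private theorem CC_m4_comp : Computable (fun y : CC_S => (m4 CC_cst y : CC_Q)) :=
  (CC_cst_comp.comp Computable.fst).pair ((CC_cst_comp.comp (Computable.fst.comp Computable.snd)).pair
    ((CC_cst_comp.comp (Computable.fst.comp (Computable.snd.comp Computable.snd))).pair
      (CC_cst_comp.comp (Computable.snd.comp (Computable.snd.comp Computable.snd)))))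

private theorem CC_poly (y : CC_S) : (stepOf y).poly = m4 toQ (m4 CC_cst y) := by
  show (C (num y.1), C (num y.2.1), C (num y.2.2.1), C (num y.2.2.2)) =
    (toQ (CC_cst y.1), toQ (CC_cst y.2.1), toQ (CC_cst y.2.2.1), toQ (CC_cst y.2.2.2))
  rw [CC_cst_toQ, CC_cst_toQ, CC_cst_toQ, CC_cst_toQ]

private theorem CC_list (hF : Computable F) (hK : Computable K) (hn : Computable n)
    (hn' : Computable n') {L : α → List CC_S} (hL : Computable L) (A : List Ex) :
    Sg (fun x => ∀ s ∈ ((L x).map stepOf).map Step.poly, StepOK (NF (toQ (F x))) A (toQ (K x))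
      (m4 toQ (n x)) (m4 toQ (n' x)) s) := by
  refine (Sg.ball_list (P := fun x y => StepOK (NF (toQ (F x))) A (toQ (K x)) (m4 toQ (n x))
    (m4 toQ (n' x)) (m4 toQ (m4 CC_cst y))) ?_ hL).of_eq fun x => ?_
  · exact CC_step (F := fun z : α × CC_S => F z.1) (K := fun z => K z.1) (n := fun z => n z.1)
      (n' := fun z => n' z.1) (s := fun z => m4 CC_cst z.2) (hF.comp Computable.fst)
      (hK.comp Computable.fst) (hn.comp Computable.fst) (hn'.comp Computable.fst)
      (CC_m4_comp.comp Computable.snd) A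
  · rw [List.map_map]
    constructor
    · intro h t ht
      obtain ⟨y, hy, rfl⟩ := List.mem_map.1 ht
      have := h y hy
      rw [← CC_poly] at this
      exact this
    · intro h y hy
      have := h _ (List.mem_map_of_mem hy)
      rw [← CC_poly]
      exact this

private theorem CC_piece (hF : Computable F) (hK : Computable K) (hn : Computable n)
    (hn' : Computable n') {L0 L1 L2 L3 : α → List CC_S} (h0 : Computable L0) (h1 : Computable L1)
    (h2 : Computable L2) (h3 : Computable L3) :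
    Sg (fun x => Piece (ZF (toQ (F x))) (NF (toQ (F x))) (toQ (K x))
      (((L0 x).map stepOf).map Step.poly) (((L1 x).map stepOf).map Step.poly)
      (((L2 x).map stepOf).map Step.poly) (((L3 x).map stepOf).map Step.poly)
      (m4 toQ (n x)) (m4 toQ (n' x))) := by
  refine ((CC_ex CC_zf hF hK hn hn' hn eV).and ((CC_ex CC_zf hF hK hn hn' hn eH).and
    ((CC_ex CC_nf hF hK hn hn' hn eD).and ((CC_ex CC_nf hF hK hn hn' hn eK1).and
    ((CC_ex CC_nf hF hK hn hn' hn eK2).and ((CC_list hF hK hn hn' h0 at0).and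
    ((CC_list hF hK hn hn' h1 at1).and ((CC_list hF hK hn hn' h2 at2).and
    (CC_list hF hK hn hn' h3 at3))))))))).of_eq fun x => ?_
  constructor
  · rintro ⟨i1, i2, i3, i4, i5, i6, i7, i8, i9⟩
    exact ⟨i1, i2, i3, i4, i5, i6, i7, i8, i9⟩
  · rintro ⟨i1, i2, i3, i4, i5, i6, i7, i8, i9⟩
    exact ⟨i1, i2, i3, i4, i5, i6, i7, i8, i9⟩

end

private theorem CC_num_surj (q : ℚ) : ∃ z : CC_R, num z = q := by
  refine ⟨(q.num, q.den - 1), ?_⟩
  have h1 : 0 < q.den := q.den_pos
  have h2 : ((q.den - 1 : ℕ) : ℚ) + 1 = q.den := by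
    have : q.den - 1 + 1 = q.den := by omega
    exact_mod_cast this
  show (q.num : ℚ) / (((q.den - 1 : ℕ) : ℚ) + 1) = q
  rw [h2]
  exact Rat.num_div_den q

/-- the sign of an expression in two rational numbers -/
private theorem CC_sgn (e : Ex) :
    Dc (fun z : CC_R × CC_R => e.ev (fun i => num (if i = 0 then z.1 else z.2)) < 0) := by
  obtain ⟨c, hc, h⟩ := Dc.not (dc_ev e (fun i (z : CC_R × CC_R) => if i = 0 then z.1 else z.2)
    (fun i => by
      by_cases hi : i = 0
      · simp only [hi, if_true]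
        exact Computable.fst
      · simp only [hi, if_false]
        exact Computable.snd))
  exact ⟨c, hc, fun z => not_le.symm.trans (h z)⟩

private theorem CC_lt : Dc (fun z : CC_R × CC_R => num z.1 < num z.2) := by
  obtain ⟨c, hc, h⟩ := CC_sgn (Ex.sub (Ex.v 0) (Ex.v 1))
  refine ⟨c, hc, fun z => Iff.trans ?_ (h z)⟩
  show num z.1 < num z.2 ↔
    (Ex.sub (Ex.v 0) (Ex.v 1)).ev (fun i => num (if i = 0 then z.1 else z.2)) < 0
  rw [Ex.ev_sub]
  show num z.1 < num z.2 ↔ num z.1 - num z.2 < 0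
  rw [sub_neg]

private theorem CC_neg : Dc (fun z : CC_R × CC_R => num z.1 * num z.2 < 0) := by
  obtain ⟨c, hc, h⟩ := CC_sgn (Ex.mul (Ex.v 0) (Ex.v 1))
  exact ⟨c, hc, fun z => Iff.trans Iff.rfl (h z)⟩

private theorem CC_X : toQ (0, [0, 1]) = X := by
  simp [toQ, toP, Finset.sum_range_succ]

private theorem CC_cst_prim : Primrec CC_cst :=
  Primrec.pair Primrec.snd (Primrec.list_cons.comp Primrec.fst (Primrec.const []))

/-- the values of a polynomial -/
private theorem CC_eval : Sg (fun z : CC_P × CC_R × CC_R => (toQ z.1).eval (num z.2.1) = num z.2.2) := by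
  refine (Sg.ex (β := CC_P) (P := fun z w => toQ z.1 =
    toQ (padd (pmul (padd (0, [0, 1]) (pneg (CC_cst z.2.1))) w) (CC_cst z.2.2))) ?_).of_eq fun z => ?_
  · exact Dc.sg (Dc.of_primrec (primrec_toQ_eq.comp (Primrec.fst.comp Primrec.fst)
      (primrec_padd.comp (primrec_pmul.comp (primrec_padd.comp (Primrec.const _)
        (primrec_pneg.comp (CC_cst_prim.comp (Primrec.fst.comp (Primrec.snd.comp Primrec.fst)))))
        Primrec.snd) (CC_cst_prim.comp (Primrec.snd.comp (Primrec.snd.comp Primrec.fst))))))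
  · simp only [toQ_padd, toQ_pmul, toQ_pneg, CC_cst_toQ, CC_X]
    constructor
    · rintro ⟨w, hw⟩
      rw [hw]
      simp
    · intro h
      obtain ⟨Q, hQ⟩ := X_sub_C_dvd_sub_C_eval (a := num z.2.1) (p := toQ z.1)
      obtain ⟨w, hw⟩ := toQ_surjective Q
      refine ⟨w, ?_⟩
      rw [hw, ← sub_eq_add_neg, ← hQ, h]
      ring

/-- the default quadruple -/
private def CC_d : CC_Q := ((0, []), (0, []), (0, []), (0, []))

/-- the second part of the certificate -/
private theorem CC_chain : Sg (fun x : (Inp × (ℤ × ℕ)) × (CC_P × List CC_Q) =>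
    ZF (toQ x.2.1) (toQ (padd (x.2.2.getD 0 CC_d).1 (pneg (CC_cst x.1.1.1.1)))) ∧
    ZF (toQ x.2.1) (toQ (padd (x.2.2.getD (x.2.2.length - 1) CC_d).1 (pneg (CC_cst x.1.1.1.2)))) ∧
    ∀ i < x.2.2.length - 1, Piece (ZF (toQ x.2.1)) (NF (toQ x.2.1)) (toQ (CC_cst x.1.2))
      ((x.1.1.2.1.map stepOf).map Step.poly) ((x.1.1.2.2.1.map stepOf).map Step.poly)
      ((x.1.1.2.2.2.1.map stepOf).map Step.poly) ((x.1.1.2.2.2.2.map stepOf).map Step.poly)
      (m4 toQ (x.2.2.getD i CC_d)) (m4 toQ (x.2.2.getD (i + 1) CC_d))) := by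
  have hF : Computable (fun x : (Inp × (ℤ × ℕ)) × (CC_P × List CC_Q) => x.2.1) :=
    Computable.fst.comp Computable.snd
  have hl : Primrec (fun x : (Inp × (ℤ × ℕ)) × (CC_P × List CC_Q) => x.2.2) :=
    Primrec.snd.comp Primrec.snd
  have hlen : Primrec (fun x : (Inp × (ℤ × ℕ)) × (CC_P × List CC_Q) => x.2.2.length - 1) :=
    Primrec.nat_sub.comp (Primrec.list_length.comp hl) (Primrec.const 1)
  refine Sg.and ?_ (Sg.and ?_ ?_)
  · refine CC_zf.comp (f := fun x : (Inp × (ℤ × ℕ)) × (CC_P × List CC_Q) =>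
      (x.2.1, padd (x.2.2.getD 0 CC_d).1 (pneg (CC_cst x.1.1.1.1)))) (hF.pair ?_)
    exact primrec_padd.to_comp.comp (Computable.fst.comp
      ((Primrec.list_getD CC_d).comp hl (Primrec.const 0)).to_comp)
      (primrec_pneg.to_comp.comp (CC_cst_comp.comp (Computable.fst.comp (Computable.fst.comp
        (Computable.fst.comp Computable.fst)))))
  · refine CC_zf.comp (f := fun x : (Inp × (ℤ × ℕ)) × (CC_P × List CC_Q) =>
      (x.2.1, padd (x.2.2.getD (x.2.2.length - 1) CC_d).1 (pneg (CC_cst x.1.1.1.2)))) (hF.pair ?_)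
    exact primrec_padd.to_comp.comp (Computable.fst.comp
      ((Primrec.list_getD CC_d).comp hl hlen).to_comp)
      (primrec_pneg.to_comp.comp (CC_cst_comp.comp (Computable.snd.comp (Computable.fst.comp
        (Computable.fst.comp Computable.fst)))))
  · refine Sg.ball (P := fun (x : (Inp × (ℤ × ℕ)) × (CC_P × List CC_Q)) (i : ℕ) =>
      Piece (ZF (toQ x.2.1)) (NF (toQ x.2.1)) (toQ (CC_cst x.1.2))
      ((x.1.1.2.1.map stepOf).map Step.poly) ((x.1.1.2.2.1.map stepOf).map Step.poly)
      ((x.1.1.2.2.2.1.map stepOf).map Step.poly) ((x.1.1.2.2.2.2.map stepOf).map Step.poly)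
      (m4 toQ (x.2.2.getD i CC_d)) (m4 toQ (x.2.2.getD (i + 1) CC_d))) ?_ hlen.to_comp
    have hin : Computable (fun z : ((Inp × (ℤ × ℕ)) × (CC_P × List CC_Q)) × ℕ => z.1.1.1.2) :=
      Computable.snd.comp (Computable.fst.comp (Computable.fst.comp Computable.fst))
    exact CC_piece (α := ((Inp × (ℤ × ℕ)) × (CC_P × List CC_Q)) × ℕ) (F := fun z => z.1.2.1)
      (K := fun z => CC_cst z.1.1.2) (n := fun z => z.1.2.2.getD z.2 CC_d)
      (n' := fun z => z.1.2.2.getD (z.2 + 1) CC_d) (L0 := fun z => z.1.1.1.2.1)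
      (L1 := fun z => z.1.1.1.2.2.1) (L2 := fun z => z.1.1.1.2.2.2.1)
      (L3 := fun z => z.1.1.1.2.2.2.2) (hF.comp Computable.fst)
      (CC_cst_comp.comp (Computable.snd.comp (Computable.fst.comp Computable.fst)))
      (((Primrec.list_getD CC_d).comp (hl.comp Primrec.fst) Primrec.snd).to_comp)
      (((Primrec.list_getD CC_d).comp (hl.comp Primrec.fst) (Primrec.succ.comp Primrec.snd)).to_comp)
      (Computable.fst.comp hin) (Computable.fst.comp (Computable.snd.comp hin))
      (Computable.fst.comp (Computable.snd.comp (Computable.snd.comp hin)))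
      (Computable.snd.comp (Computable.snd.comp (Computable.snd.comp hin)))

/-- the first part of the certificate -/
private theorem CC_root : Sg (fun x : CC_P × (CC_R × CC_R) × (CC_R × CC_R) =>
    num x.2.1.1 < num x.2.1.2 ∧ (toQ x.1).eval (num x.2.1.1) = num x.2.2.1 ∧
      (toQ x.1).eval (num x.2.1.2) = num x.2.2.2 ∧ num x.2.2.1 * num x.2.2.2 < 0) := by
  refine Sg.and ?_ (Sg.and ?_ (Sg.and ?_ ?_))
  · exact (CC_lt.comp (f := fun x : CC_P × (CC_R × CC_R) × (CC_R × CC_R) => x.2.1)
      (Computable.fst.comp Computable.snd)).sg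
  · exact CC_eval.comp (f := fun x : CC_P × (CC_R × CC_R) × (CC_R × CC_R) => (x.1, x.2.1.1, x.2.2.1))
      (Computable.fst.pair ((Computable.fst.comp (Computable.fst.comp Computable.snd)).pair
        (Computable.fst.comp (Computable.snd.comp Computable.snd))))
  · exact CC_eval.comp (f := fun x : CC_P × (CC_R × CC_R) × (CC_R × CC_R) => (x.1, x.2.1.2, x.2.2.2))
      (Computable.fst.pair ((Computable.snd.comp (Computable.fst.comp Computable.snd)).pair
        (Computable.snd.comp (Computable.snd.comp Computable.snd))))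
  · exact (CC_neg.comp (f := fun x : CC_P × (CC_R × CC_R) × (CC_R × CC_R) => x.2.2)
      (Computable.snd.comp Computable.snd)).sg

private theorem CC_range {c : ℕ → CC_Q} {n i : ℕ} (hi : i ≤ n) :
    ((List.range (n + 1)).map c).getD i CC_d = c i := by
  rw [List.getD_eq_getElem?_getD, List.getElem?_map, List.getElem?_range (by omega)]
  rfl

/-- the certificate in codes -/
private def CC_ok (z : Inp × (ℤ × ℕ)) (w : CC_P × (CC_R × CC_R) × (CC_R × CC_R) × List CC_Q) : Prop :=
  (num w.2.1.1 < num w.2.1.2 ∧ (toQ w.1).eval (num w.2.1.1) = num w.2.2.1.1 ∧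
    (toQ w.1).eval (num w.2.1.2) = num w.2.2.1.2 ∧ num w.2.2.1.1 * num w.2.2.1.2 < 0) ∧
  0 < w.2.2.2.length - 1 ∧
  (ZF (toQ w.1) (toQ (padd (w.2.2.2.getD 0 CC_d).1 (pneg (CC_cst z.1.1.1)))) ∧
    ZF (toQ w.1) (toQ (padd (w.2.2.2.getD (w.2.2.2.length - 1) CC_d).1 (pneg (CC_cst z.1.1.2)))) ∧
    ∀ i < w.2.2.2.length - 1, Piece (ZF (toQ w.1)) (NF (toQ w.1)) (toQ (CC_cst z.2))
      ((z.1.2.1.map stepOf).map Step.poly) ((z.1.2.2.1.map stepOf).map Step.poly)
      ((z.1.2.2.2.1.map stepOf).map Step.poly) ((z.1.2.2.2.2.map stepOf).map Step.poly)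
      (m4 toQ (w.2.2.2.getD i CC_d)) (m4 toQ (w.2.2.2.getD (i + 1) CC_d)))

theorem sg_cert : Sg (fun z : Inp × (ℤ × ℕ) =>
    Cert (num z.1.1.1) (num z.1.1.2) (num z.2) (z.1.2.1.map stepOf) (z.1.2.2.1.map stepOf)
      (z.1.2.2.2.1.map stepOf) (z.1.2.2.2.2.map stepOf)) := by
  have key : Sg (fun x : (Inp × (ℤ × ℕ)) × (CC_P × (CC_R × CC_R) × (CC_R × CC_R) × List CC_Q) =>
      CC_ok x.1 x.2) := by
    refine Sg.and ?_ (Sg.and ?_ ?_)
    · exact CC_root.comp (f := fun x : (Inp × (ℤ × ℕ)) × (CC_P × (CC_R × CC_R) × (CC_R × CC_R) ×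
        List CC_Q) => (x.2.1, x.2.2.1, x.2.2.2.1)) ((Computable.fst.comp Computable.snd).pair
        ((Computable.fst.comp (Computable.snd.comp Computable.snd)).pair
          (Computable.fst.comp (Computable.snd.comp (Computable.snd.comp Computable.snd)))))
    · exact (Dc.of_primrec (Primrec.nat_lt.comp (Primrec.const 0) (Primrec.nat_sub.comp
        (Primrec.list_length.comp (Primrec.snd.comp (Primrec.snd.comp (Primrec.snd.comp
          Primrec.snd)))) (Primrec.const 1)))).sg
    · exact CC_chain.comp (f := fun x : (Inp × (ℤ × ℕ)) × (CC_P × (CC_R × CC_R) × (CC_R × CC_R) ×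
        List CC_Q) => (x.1, x.2.1, x.2.2.2.2)) (Computable.fst.pair
        ((Computable.fst.comp Computable.snd).pair
          (Computable.snd.comp (Computable.snd.comp (Computable.snd.comp Computable.snd)))))
  refine (Sg.ex key).of_eq fun z => ?_
  simp only [CC_ok, toQ_padd, toQ_pneg, CC_cst_toQ, ← sub_eq_add_neg]
  constructor
  · rintro ⟨⟨F, ⟨r, s⟩, ⟨u, u'⟩, l⟩, ⟨h1, h2, h3, h4⟩, h5, h6, h7, h8⟩
    refine ⟨toQ F, num r, num s, h1, ?_, l.length - 1, fun i => m4 toQ (l.getD i CC_d), h5, h6, h7,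
      h8⟩
    have h2' : (toQ F).eval (num r) = num u := h2
    have h3' : (toQ F).eval (num s) = num u' := h3
    rw [h2', h3']
    exact h4
  · rintro ⟨F, r, s, h1, h2, n, ν, h3, h4, h5, h6⟩
    obtain ⟨F, rfl⟩ := toQ_surjective F
    obtain ⟨r, rfl⟩ := CC_num_surj r
    obtain ⟨s, rfl⟩ := CC_num_surj s
    obtain ⟨u, hu⟩ := CC_num_surj ((toQ F).eval (num r))
    obtain ⟨u', hu'⟩ := CC_num_surj ((toQ F).eval (num s))
    have hc : ∀ i, ∃ c : CC_Q, m4 toQ c = ν i := by
      intro i
      obtain ⟨a1, h1⟩ := toQ_surjective (ν i).1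
      obtain ⟨a2, h2⟩ := toQ_surjective (ν i).2.1
      obtain ⟨a3, h3⟩ := toQ_surjective (ν i).2.2.1
      obtain ⟨a4, h4⟩ := toQ_surjective (ν i).2.2.2
      refine ⟨(a1, a2, a3, a4), ?_⟩
      show (toQ a1, toQ a2, toQ a3, toQ a4) = ν i
      rw [h1, h2, h3, h4]
    choose c hc using hc
    have hlen : ((List.range (n + 1)).map c).length - 1 = n := by
      rw [List.length_map, List.length_range]
      rfl
    refine ⟨(F, (r, s), (u, u'), (List.range (n + 1)).map c), ⟨h1, hu.symm, hu'.symm, ?_⟩, ?_, ?_,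
      ?_, ?_⟩
    · show num u * num u' < 0
      rw [hu, hu']
      exact h2
    · show 0 < ((List.range (n + 1)).map c).length - 1
      rw [hlen]
      exact h3
    · show ZF (toQ F) (toQ (((List.range (n + 1)).map c).getD 0 CC_d).1 - C (num z.1.1.1))
      rw [CC_range (Nat.zero_le _)]
      have : toQ (c 0).1 = (ν 0).1 := by
        rw [← hc 0]
        rfl
      rw [this]
      exact h4
    · show ZF (toQ F) (toQ (((List.range (n + 1)).map c).getD
        (((List.range (n + 1)).map c).length - 1) CC_d).1 - C (num z.1.1.2))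
      rw [hlen, CC_range le_rfl]
      have : toQ (c n).1 = (ν n).1 := by
        rw [← hc n]
        rfl
      rw [this]
      exact h5
    · intro i hi
      have hi' : i < n := by
        have h := hi
        rw [show (F, (r, s), (u, u'), (List.range (n + 1)).map c).2.2.2.length - 1 = n from hlen] at h
        exact h
      show Piece (ZF (toQ F)) (NF (toQ F)) (C (num z.2)) _ _ _ _
        (m4 toQ (((List.range (n + 1)).map c).getD i CC_d))
        (m4 toQ (((List.range (n + 1)).map c).getD (i + 1) CC_d))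
      rw [CC_range hi'.le, CC_range hi', hc, hc]
      exact h6 i hi'

end MP44e4f6
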