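import Mathlib
import Pool.Agent.Lib.MP_44e4f6_lc.Bridge
import Pool.Agent.Lib.MP_44e4f6_lc.CC

/-!
The decision theorem.
-/

namespace MP44e4f6

open Set

/-- the tuple of step functions with a given code -/
def tup (x : Inp) : ℕ → List Step
  | 0 => x.2.1.map stepOf
  | 1 => x.2.2.1.map stepOf
  | 2 => x.2.2.2.1.map stepOf
  | 3 => x.2.2.2.2.map stepOf
  | _ => []

theorem num_surjective : Function.Surjective num := by
  intro r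
  refine ⟨(r.num, r.den - 1), ?_⟩
  unfold num
  have h1 : 0 < r.den := r.den_pos
  have h2 : ((r.den - 1 : ℕ) : ℚ) + 1 = r.den := by
    have : r.den - 1 + 1 = r.den := by omega
    exact_mod_cast this
  rw [h2]
  exact Rat.num_div_den r

theorem num_nat (B : ℕ) : num ((B : ℤ), 0) = B := by
  simp [num]

/-! closure properties -/

section closure

variable {α β : Type} [Primcodable α] [Primcodable β]

theorem Dc.of_eq {P Q : α → Prop} (h : Dc P) (hPQ : ∀ x, P x ↔ Q x) : Dc Q := by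
  obtain ⟨c, hc, h1⟩ := h
  exact ⟨c, hc, fun x => (hPQ x).symm.trans (h1 x)⟩

theorem Dc.bex_list {P : α → β → Prop} (h : Dc (fun z : α × β => P z.1 z.2)) {l : α → List β}
    (hl : Computable l) : Dc (fun x => ∃ y ∈ l x, P x y) := by
  have h1 := (Dc.ball_list (P := fun x y => ¬ P x y) h.not hl).not
  exact h1.of_eq (fun x => by push Not; rfl)

theorem dc_le (e1 e2 : Ex) (ρ : ℕ → α → ℤ × ℕ) (hρ : ∀ i, Computable (ρ i)) :
    Dc (fun z : α => e1.ev (fun i => num (ρ i z)) ≤ e2.ev (fun i => num (ρ i z))) :=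
  (dc_ev (Ex.sub e2 e1) ρ hρ).of_eq (fun z => by rw [Ex.ev_sub, sub_nonneg])

theorem dc_lt (e1 e2 : Ex) (ρ : ℕ → α → ℤ × ℕ) (hρ : ∀ i, Computable (ρ i)) :
    Dc (fun z : α => e1.ev (fun i => num (ρ i z)) < e2.ev (fun i => num (ρ i z))) :=
  (dc_le e2 e1 ρ hρ).not.of_eq (fun z => by rw [not_le])

theorem dc_nil {l : α → List β} (hl : Computable l) : Dc (fun x => l x = []) := by
  have h : Dc (fun x => ∀ y ∈ l x, False) :=
    Dc.ball_list (P := fun _ _ => False)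
      ⟨fun _ => false, Computable.const false, fun x => by simp⟩ hl
  exact h.of_eq (fun x => by
    constructor
    · intro h
      exact List.eq_nil_iff_forall_not_mem.2 h
    · intro h
      rw [h]
      exact fun y hy => absurd hy List.not_mem_nil)

end closure

/-- `Bnd` over the rationals -/
structure BndQ (p q K ρ M c a0 v0 h0 B : ℚ) (f0 f1 f2 : List Step) : Prop where
  hK : 0 ≤ K
  hρ : 0 < ρ
  hpc : p ≤ c
  hcq : c + ρ ≤ q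
  alt : (∃ s ∈ f0, s.c - s.r < c ∧ c + ρ < s.c + s.r ∧ -M ≤ s.lo ∧ s.hi ≤ M ∧
      24 * M + 8 * K * ρ ^ 3 ≤ a0 * ρ ^ 2 ∧ 14 * M + 5 * K * ρ ^ 3 ≤ v0 * ρ ∧ M ≤ h0) ∨
    (f0 = [] ∧ ∃ s ∈ f1, s.c - s.r < c ∧ c + ρ < s.c + s.r ∧ -M ≤ s.lo ∧ s.hi ≤ M ∧
      2 * M + K * ρ ^ 2 ≤ a0 * ρ ∧ M ≤ v0 ∧ 0 ≤ h0) ∨
    (f0 = [] ∧ f1 = [] ∧ ∃ s ∈ f2, s.c - s.r < c ∧ c + ρ < s.c + s.r ∧ -M ≤ s.lo ∧ s.hi ≤ M ∧
      M ≤ a0 ∧ 0 ≤ v0 ∧ 0 ≤ h0) ∨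
    (f0 = [] ∧ f1 = [] ∧ f2 = [] ∧ 0 ≤ a0 ∧ 0 ≤ v0 ∧ 0 ≤ h0)
  h1 : a0 + K * (q - p) ≤ B
  h2 : v0 + (a0 + K * (q - p)) * (q - p) ≤ B
  h3 : h0 + (v0 + (a0 + K * (q - p)) * (q - p)) * (q - p) ≤ B

theorem BndQ.cast {p q K ρ M c a0 v0 h0 B : ℚ} {f0 f1 f2 : List Step}
    (h : BndQ p q K ρ M c a0 v0 h0 B f0 f1 f2) :
    Bnd p q K ρ M c a0 v0 h0 B (f0.map Step.toStp) (f1.map Step.toStp) (f2.map Step.toStp) := by
  obtain ⟨i1, i2, i3, i4, i5, i6, i7, i8⟩ := h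
  refine ⟨by exact_mod_cast i1, by exact_mod_cast i2, by exact_mod_cast i3, by exact_mod_cast i4,
    ?_, by exact_mod_cast i6, by exact_mod_cast i7, by exact_mod_cast i8⟩
  rcases i5 with ⟨s, hs, j1, j2, j3, j4, j5, j6, j7⟩ | ⟨e0, s, hs, j1, j2, j3, j4, j5, j6, j7⟩ |
    ⟨e0, e1, s, hs, j1, j2, j3, j4, j5, j6, j7⟩ | ⟨e0, e1, e2, j5, j6, j7⟩
  · refine Or.inl ⟨s.toStp, List.mem_map_of_mem hs, ?_, ?_, ?_, ?_, ?_, ?_, ?_⟩
    · show (s.c : ℝ) - s.r < c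
      exact_mod_cast j1
    · show (c : ℝ) + ρ < s.c + s.r
      exact_mod_cast j2
    · show -(M : ℝ) ≤ s.lo
      exact_mod_cast j3
    · show (s.hi : ℝ) ≤ M
      exact_mod_cast j4
    · exact_mod_cast j5
    · exact_mod_cast j6
    · exact_mod_cast j7
  · refine Or.inr (Or.inl ⟨by rw [e0]; rfl, s.toStp, List.mem_map_of_mem hs, ?_, ?_, ?_, ?_, ?_, ?_,
      ?_⟩)
    · show (s.c : ℝ) - s.r < c
      exact_mod_cast j1
    · show (c : ℝ) + ρ < s.c + s.r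
      exact_mod_cast j2
    · show -(M : ℝ) ≤ s.lo
      exact_mod_cast j3
    · show (s.hi : ℝ) ≤ M
      exact_mod_cast j4
    · exact_mod_cast j5
    · exact_mod_cast j6
    · exact_mod_cast j7
  · refine Or.inr (Or.inr (Or.inl ⟨by rw [e0]; rfl, by rw [e1]; rfl, s.toStp,
      List.mem_map_of_mem hs, ?_, ?_, ?_, ?_, ?_, ?_, ?_⟩))
    · show (s.c : ℝ) - s.r < c
      exact_mod_cast j1
    · show (c : ℝ) + ρ < s.c + s.r
      exact_mod_cast j2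
    · show -(M : ℝ) ≤ s.lo
      exact_mod_cast j3
    · show (s.hi : ℝ) ≤ M
      exact_mod_cast j4
    · exact_mod_cast j5
    · exact_mod_cast j6
    · exact_mod_cast j7
  · refine Or.inr (Or.inr (Or.inr ⟨by rw [e0]; rfl, by rw [e1]; rfl, by rw [e2]; rfl, ?_, ?_, ?_⟩))
    · exact_mod_cast j5
    · exact_mod_cast j6
    · exact_mod_cast j7

theorem exists_bndQ {p q K : ℚ} (hpq : p < q) (hK : 0 ≤ K) {f0 f1 f2 : List Step}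
    (w0 : ∀ s ∈ f0, p < s.c ∧ s.c < q ∧ 0 < s.r) (w1 : ∀ s ∈ f1, p < s.c ∧ s.c < q ∧ 0 < s.r)
    (w2 : ∀ s ∈ f2, p < s.c ∧ s.c < q ∧ 0 < s.r) :
    ∃ (ρ M c a0 v0 h0 : ℚ) (B : ℕ), BndQ p q K ρ M c a0 v0 h0 B f0 f1 f2 := by
  have hB : ∀ x y z : ℚ, ∃ B : ℕ, x ≤ B ∧ y ≤ B ∧ z ≤ B := by
    intro x y z
    obtain ⟨B, hB⟩ := exists_nat_ge (max x (max y z))
    exact ⟨B, (le_max_left _ _).trans hB, ((le_max_left _ _).trans (le_max_right _ _)).trans hB,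
      ((le_max_right _ _).trans (le_max_right _ _)).trans hB⟩
  have hstep : ∀ s : Step, p < s.c ∧ s.c < q ∧ 0 < s.r → ∃ ρ M : ℚ, 0 < ρ ∧ s.c + ρ ≤ q ∧
      s.c - s.r < s.c ∧ s.c + ρ < s.c + s.r ∧ -M ≤ s.lo ∧ s.hi ≤ M := by
    intro s ⟨h1, h2, h3⟩
    have e1 := min_le_left (q - s.c) s.r
    have e2 := min_le_right (q - s.c) s.r
    have e3 : 0 < min (q - s.c) s.r := lt_min (by linarith) h3
    refine ⟨min (q - s.c) s.r / 2, max (-s.lo) s.hi, by linarith, by linarith, by linarith,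
      by linarith, ?_, le_max_right _ _⟩
    have := le_max_left (-s.lo) s.hi
    linarith
  rcases List.eq_nil_or_concat' f0 with h0 | ⟨l, s, h0⟩
  · rcases List.eq_nil_or_concat' f1 with h1 | ⟨l, s, h1⟩
    · rcases List.eq_nil_or_concat' f2 with h2 | ⟨l, s, h2⟩
      · obtain ⟨B, i1, i2, i3⟩ := hB (0 + K * (q - p)) (0 + (0 + K * (q - p)) * (q - p))
          (0 + (0 + (0 + K * (q - p)) * (q - p)) * (q - p))
        exact ⟨(q - p) / 2, 0, p, 0, 0, 0, B, hK, by linarith, le_rfl, by linarith,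
          Or.inr (Or.inr (Or.inr ⟨h0, h1, h2, le_rfl, le_rfl, le_rfl⟩)), i1, i2, i3⟩
      · have hs : s ∈ f2 := by rw [h2]; simp
        obtain ⟨ρ, M, j1, j2, j3, j4, j5, j6⟩ := hstep s (w2 s hs)
        obtain ⟨B, i1, i2, i3⟩ := hB (M + K * (q - p)) (0 + (M + K * (q - p)) * (q - p))
          (0 + (0 + (M + K * (q - p)) * (q - p)) * (q - p))
        exact ⟨ρ, M, s.c, M, 0, 0, B, hK, j1, (w2 s hs).1.le, j2,
          Or.inr (Or.inr (Or.inl ⟨h0, h1, s, hs, j3, j4, j5, j6, le_rfl, le_rfl, le_rfl⟩)),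
          i1, i2, i3⟩
    · have hs : s ∈ f1 := by rw [h1]; simp
      obtain ⟨ρ, M, j1, j2, j3, j4, j5, j6⟩ := hstep s (w1 s hs)
      obtain ⟨a0, ha0⟩ : ∃ a0, a0 * ρ = 2 * M + K * ρ ^ 2 :=
        ⟨(2 * M + K * ρ ^ 2) / ρ, div_mul_cancel₀ _ j1.ne'⟩
      obtain ⟨B, i1, i2, i3⟩ := hB (a0 + K * (q - p)) (M + (a0 + K * (q - p)) * (q - p))
        (0 + (M + (a0 + K * (q - p)) * (q - p)) * (q - p))
      exact ⟨ρ, M, s.c, a0, M, 0, B, hK, j1, (w1 s hs).1.le, j2,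
        Or.inr (Or.inl ⟨h0, s, hs, j3, j4, j5, j6, ha0.ge, le_rfl, le_rfl⟩), i1, i2, i3⟩
  · have hs : s ∈ f0 := by rw [h0]; simp
    obtain ⟨ρ, M, j1, j2, j3, j4, j5, j6⟩ := hstep s (w0 s hs)
    obtain ⟨a0, ha0⟩ : ∃ a0, a0 * ρ ^ 2 = 24 * M + 8 * K * ρ ^ 3 :=
      ⟨(24 * M + 8 * K * ρ ^ 3) / ρ ^ 2, div_mul_cancel₀ _ (pow_pos j1 2).ne'⟩
    obtain ⟨v0, hv0⟩ : ∃ v0, v0 * ρ = 14 * M + 5 * K * ρ ^ 3 :=
      ⟨(14 * M + 5 * K * ρ ^ 3) / ρ, div_mul_cancel₀ _ j1.ne'⟩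
    obtain ⟨B, i1, i2, i3⟩ := hB (a0 + K * (q - p)) (v0 + (a0 + K * (q - p)) * (q - p))
      (M + (v0 + (a0 + K * (q - p)) * (q - p)) * (q - p))
    exact ⟨ρ, M, s.c, a0, v0, M, B, hK, j1, (w0 s hs).1.le, j2,
      Or.inl ⟨s, hs, j3, j4, j5, j6, ha0.ge, hv0.ge, le_rfl⟩, i1, i2, i3⟩

/-- parameters of a certificate of inconsistency: `((K, ρ, M, c), (a0, v0, h0)), (B, m, N)` -/
abbrev Par : Type :=
  (((ℤ × ℕ) × (ℤ × ℕ) × (ℤ × ℕ) × (ℤ × ℕ)) × ((ℤ × ℕ) × (ℤ × ℕ) × (ℤ × ℕ))) × (ℕ × ℕ × ℕ)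

/-- certificates of inconsistency -/
def R2c (x : Inp) (y : Par) : Prop :=
  num x.1.1 < num x.1.2 ∧
  (∀ s ∈ x.2.2.2.2, -(num y.1.1.1) ≤ (stepOf s).lo ∧ (stepOf s).hi ≤ num y.1.1.1) ∧
  BndQ (num x.1.1) (num x.1.2) (num y.1.1.1) (num y.1.1.2.1) (num y.1.1.2.2.1)
    (num y.1.1.2.2.2) (num y.1.2.1) (num y.1.2.2.1) (num y.1.2.2.2) (y.2.1 : ℚ)
    (x.2.1.map stepOf) (x.2.2.1.map stepOf) (x.2.2.2.1.map stepOf) ∧
  (2 + (num x.1.2 - num x.1.1)) * ((y.2.2.2 : ℚ) + 1) ≤ (y.2.2.1 : ℚ) + 1 ∧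
  ∀ z < (2 * y.2.1 * (y.2.2.1 + 1) + 1) ^ (3 * (y.2.2.2 + 2)),
    ¬ GOK ((num x.1.1 : ℚ) : ℝ) ((num x.1.2 : ℚ) : ℝ) ((num y.1.1.1 : ℚ) : ℝ)
      ((x.2.1.map stepOf).map Step.toStp) ((x.2.2.1.map stepOf).map Step.toStp)
      ((x.2.2.2.1.map stepOf).map Step.toStp) ((x.2.2.2.2.map stepOf).map Step.toStp)
      y.2.1 y.2.2.1 y.2.2.2 z

/-- inputs which are not of the form required -/
def R3c (x : Inp) : Prop :=
  ¬ (num x.1.1 < num x.1.2) ∨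
  ¬ (∀ s ∈ x.2.1, num x.1.1 < (stepOf s).c ∧ (stepOf s).c < num x.1.2 ∧ 0 < (stepOf s).r) ∨
  ¬ (∀ s ∈ x.2.2.1, num x.1.1 < (stepOf s).c ∧ (stepOf s).c < num x.1.2 ∧ 0 < (stepOf s).r) ∨
  ¬ (∀ s ∈ x.2.2.2.1, num x.1.1 < (stepOf s).c ∧ (stepOf s).c < num x.1.2 ∧ 0 < (stepOf s).r) ∨
  ∃ y : (ℤ × ℕ) × (ℤ × ℕ), num x.1.1 < num y.1 ∧ num y.1 < num y.2 ∧ num y.2 < num x.1.2 ∧
    ∀ s ∈ x.2.2.2.2, num y.2 ≤ (stepOf s).c - (stepOf s).r ∨ (stepOf s).c + (stepOf s).r ≤ num y.1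

/-- certificates of consistency -/
def R1c (x : Inp) (K : ℤ × ℕ) : Prop :=
  Cert (num x.1.1) (num x.1.2) (num K) (x.2.1.map stepOf) (x.2.2.1.map stepOf)
    (x.2.2.2.1.map stepOf) (x.2.2.2.2.map stepOf)

theorem r1_sound {x : Inp} {K : ℤ × ℕ} (h : R1c x K) :
    Consistent (Ioo ((num x.1.1 : ℚ) : ℝ) ((num x.1.2 : ℚ) : ℝ)) 3 (tup x) :=
  consistent_of_cons3 (f := tup x) h.sound

theorem r2_sound {x : Inp} {y : Par} (h : R2c x y)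
    (hfin : {t : ℝ | t ∈ Ioo ((num x.1.1 : ℚ) : ℝ) ((num x.1.2 : ℚ) : ℝ) ∧
      ∀ s ∈ tup x 3, t ∉ s.dom}.Finite) :
    ¬ Consistent (Ioo ((num x.1.1 : ℚ) : ℝ) ((num x.1.2 : ℚ) : ℝ)) 3 (tup x) := by
  intro hc
  obtain ⟨h0, h1, h2, h3, h4⟩ := h
  have hpq : ((num x.1.1 : ℚ) : ℝ) < ((num x.1.2 : ℚ) : ℝ) := by exact_mod_cast h0
  have hK : ∀ s ∈ tup x 3, -((num y.1.1.1 : ℚ) : ℝ) ≤ (s.lo : ℝ) ∧
      (s.hi : ℝ) ≤ ((num y.1.1.1 : ℚ) : ℝ) := by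
    intro s hs
    obtain ⟨s', hs', rfl⟩ := List.mem_map.1 hs
    have := h1 s' hs'
    exact ⟨by exact_mod_cast this.1, by exact_mod_cast this.2⟩
  have h5 := cons3_of_consistent hpq hfin hK hc
  have h6 := h2.cast
  push_cast at h6
  obtain ⟨z, hz, hz'⟩ := gok_of_cons3 (m := y.2.2.1) (N := y.2.2.2) hpq h6 (by
    push_cast
    exact_mod_cast h3) h5
  exact h4 z hz hz'

theorem r_cases (x : Inp) : (∃ K, R1c x K) ∨ ((∃ y, R2c x y) ∨ R3c x) := by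
  by_cases h3 : R3c x
  · exact Or.inr (Or.inr h3)
  unfold R3c at h3
  push Not at h3
  obtain ⟨hpq, w0, w1, w2, hcov⟩ := h3
  -- covered up to finitely many points
  have hfin : {t : ℝ | t ∈ Ioo ((num x.1.1 : ℚ) : ℝ) ((num x.1.2 : ℚ) : ℝ) ∧
      ∀ s ∈ tup x 3, t ∉ s.dom}.Finite := by
    by_contra hcon
    obtain ⟨y, z, i1, i2, i3, i4⟩ := exists_uncovered hcon
    obtain ⟨y', rfl⟩ := num_surjective y
    obtain ⟨z', rfl⟩ := num_surjective z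
    obtain ⟨s, hs, j1, j2⟩ := hcov (y', z') i1 i2 i3
    rcases i4 (stepOf s) (List.mem_map_of_mem hs) with h | h
    · exact absurd h (not_le.2 j1)
    · exact absurd h (not_le.2 j2)
  -- a rational Lipschitz bound
  obtain ⟨K0, hK0⟩ := exists_bound (tup x 3)
  obtain ⟨k, hk⟩ := exists_nat_ge K0
  obtain ⟨κ, hκ⟩ := num_surjective (k : ℚ)
  have hKs : ∀ s ∈ x.2.2.2.2, -(num κ) ≤ (stepOf s).lo ∧ (stepOf s).hi ≤ num κ := by
    intro s hs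
    have := hK0 (stepOf s) (List.mem_map_of_mem hs)
    rw [hκ]
    constructor
    · have h1 : -(k : ℝ) ≤ (stepOf s).lo := by linarith [this.1]
      exact_mod_cast h1
    · have h1 : ((stepOf s).hi : ℝ) ≤ k := by linarith [this.2]
      exact_mod_cast h1
  have hκ0 : 0 ≤ num κ := by rw [hκ]; exact Nat.cast_nonneg k
  have hpq' : ((num x.1.1 : ℚ) : ℝ) < ((num x.1.2 : ℚ) : ℝ) := by exact_mod_cast hpq
  by_cases hc : Cons3 ((num x.1.1 : ℚ) : ℝ) ((num x.1.2 : ℚ) : ℝ) ((num κ : ℚ) : ℝ)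
      ((x.2.1.map stepOf).map Step.toStp) ((x.2.2.1.map stepOf).map Step.toStp)
      ((x.2.2.2.1.map stepOf).map Step.toStp) ((x.2.2.2.2.map stepOf).map Step.toStp)
  · exact Or.inl ⟨κ, Cert.complete hpq hc⟩
  · right; left
    have w0' : ∀ s ∈ x.2.1.map stepOf, num x.1.1 < s.c ∧ s.c < num x.1.2 ∧ 0 < s.r := by
      intro s hs
      obtain ⟨s', hs', rfl⟩ := List.mem_map.1 hs
      exact w0 s' hs'
    have w1' : ∀ s ∈ x.2.2.1.map stepOf, num x.1.1 < s.c ∧ s.c < num x.1.2 ∧ 0 < s.r := by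
      intro s hs
      obtain ⟨s', hs', rfl⟩ := List.mem_map.1 hs
      exact w1 s' hs'
    have w2' : ∀ s ∈ x.2.2.2.1.map stepOf, num x.1.1 < s.c ∧ s.c < num x.1.2 ∧ 0 < s.r := by
      intro s hs
      obtain ⟨s', hs', rfl⟩ := List.mem_map.1 hs
      exact w2 s' hs'
    obtain ⟨ρ, M, c, a0, v0, h0, B, hB⟩ := exists_bndQ hpq hκ0 w0' w1' w2'
    obtain ⟨ρ', rfl⟩ := num_surjective ρ
    obtain ⟨M', rfl⟩ := num_surjective M
    obtain ⟨c', rfl⟩ := num_surjective c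
    obtain ⟨a0', rfl⟩ := num_surjective a0
    obtain ⟨v0', rfl⟩ := num_surjective v0
    obtain ⟨h0', rfl⟩ := num_surjective h0
    obtain ⟨N, hN⟩ := exists_not_gok (B := B) hpq' (by exact_mod_cast hκ0) hc
    obtain ⟨m, hm⟩ := exists_nat_ge ((2 + (num x.1.2 - num x.1.1)) * ((N : ℚ) + 1))
    refine ⟨(((κ, ρ', M', c'), (a0', v0', h0')), (B, m, N)), hpq, hKs, hB, ?_, ?_⟩
    · show (2 + (num x.1.2 - num x.1.1)) * ((N : ℚ) + 1) ≤ (m : ℚ) + 1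
      linarith
    · exact fun z _ => hN m z

end MP44e4f6
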