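import Mathlib
import Pool.Agent.Lib.MP_44e4f6_lc.B0

/-!
Ends of the interval: definitions.
-/

namespace MP44e4f6

open Set MeasureTheory intervalIntegral

/-- `C` is the line or a compact interval -/
def CI (C : Set ℝ) : Prop := C = univ ∨ ∃ c d : ℝ, C = Icc c d

/-- a path on the open interval `(p, t)` -/
structure OP (p t : ℝ) (g g1 g2 : ℝ → ℝ) : Prop where
  d0 : ∀ x, p < x → x < t → HasDerivAt g (g1 x) x
  d1 : ∀ x, p < x → x < t → HasDerivAt g1 (g2 x) x
  c2 : ∀ x, p < x → x < t → ContinuousAt g2 x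

end MP44e4f6
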