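import Mathlib
import Pool.Agent.Lib.MP_44e4f6_lc.E0

/-!
LEAF E1. Proof: induction on `L` as in `vc_right` (Glob.lean); `univ ∩ Icc = Icc`, `Icc c d ∩ Icc c' d' = Icc (max c c') (min d d')`.
-/

namespace MP44e4f6

open Set MeasureTheory intervalIntegral

theorem vc_end (L : List Stp) {f : ℝ → ℝ} {p q : ℝ} (hpq : p < q)
    (hV : ∀ st ∈ L, ∀ x, p < x → x < q → |x - st.c| < st.r → st.lo ≤ f x ∧ f x ≤ st.hi) :
    ∃ C : Set ℝ, CI C ∧ ∃ δ > 0, p + δ ≤ q ∧ (∀ y, p < y → y < p + δ → f y ∈ C) ∧
      ∀ (g : ℝ → ℝ) (t : ℝ), t < p + δ → (∀ y, p ≤ y → y ≤ t → g y ∈ C) → VC L p t g := by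
  induction L with
  | nil =>
    exact ⟨univ, Or.inl rfl, q - p, by linarith, by linarith, fun _ _ _ => trivial,
      fun g t _ _ st hst => absurd hst (List.not_mem_nil)⟩
  | cons st L ih =>
    obtain ⟨C, hC, δ, hδ, hδq, hm, hg⟩ := ih (fun st' h' => hV st' (List.mem_cons_of_mem _ h'))
    by_cases h1 : p < st.c + st.r
    · by_cases h2 : st.c - st.r ≤ p
      · have hd0 : 0 < min δ (st.c + st.r - p) := lt_min hδ (by linarith)
        have hd1 : min δ (st.c + st.r - p) ≤ δ := min_le_left _ _
        have hd2 : min δ (st.c + st.r - p) ≤ st.c + st.r - p := min_le_right _ _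
        refine ⟨C ∩ Icc st.lo st.hi, ?_, min δ (st.c + st.r - p), hd0, by linarith, ?_, ?_⟩
        · rcases hC with rfl | ⟨c, d, rfl⟩
          · exact Or.inr ⟨st.lo, st.hi, univ_inter _⟩
          · exact Or.inr ⟨max c st.lo, min d st.hi, Icc_inter_Icc⟩
        · intro y hy hy'
          have h3 := hV st (List.mem_cons_self) y hy (by linarith) (by
            rw [abs_lt]; constructor <;> linarith)
          exact ⟨hm y hy (by linarith), h3.1, h3.2⟩
        · intro g t ht hgm st' hst'
          rcases List.mem_cons.1 hst' with rfl | hst'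
          · intro y hy hy' _
            exact (hgm y hy hy').2
          · exact hg g t (by linarith) (fun y hy hy' => (hgm y hy hy').1) st' hst'
      · push Not at h2
        have hd0 : 0 < min δ (st.c - st.r - p) := lt_min hδ (by linarith)
        have hd1 : min δ (st.c - st.r - p) ≤ δ := min_le_left _ _
        have hd2 : min δ (st.c - st.r - p) ≤ st.c - st.r - p := min_le_right _ _
        refine ⟨C, hC, min δ (st.c - st.r - p), hd0, by linarith,
          fun y hy hy' => hm y hy (by linarith), ?_⟩
        intro g t ht hgm st' hst'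
        rcases List.mem_cons.1 hst' with rfl | hst'
        · intro y hy hy' hc
          rw [abs_lt] at hc
          linarith [hc.1]
        · exact hg g t (by linarith) hgm st' hst'
    · refine ⟨C, hC, δ, hδ, hδq, hm, ?_⟩
      intro g t ht hgm st' hst'
      rcases List.mem_cons.1 hst' with rfl | hst'
      · intro y hy hy' hc
        rw [abs_lt] at hc
        push Not at h1
        linarith [hc.2]
      · exact hg g t ht hgm st' hst'

end MP44e4f6
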