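import Mathlib
import Pool.Agent.Lib.MP_44e4f6_lc.E0

/-!
LEAF E2 (time change). Proof. Let `κ := 0` if `0 ∈ C2`; otherwise `C2 = Icc c2 d2` and `κ := c2` if `0 < c2`, `κ := d2` if `d2 < 0`.
For `p < ξ < ξ1` put `φ x := x + (ξ - x)² / (2 (ξ - p))` for `p ≤ x ≤ ξ` and `φ x := x` for `x ≥ ξ` (`C¹`; on `[p, ξ]`:
`φ' x = (x - p) / (ξ - p) ∈ [0, 1]`, `φ p = p + (ξ - p) / 2 > p`, `x ≤ φ x ≤ ξ`), and
`V x := g1 (φ x) + κ (x - φ x)`, `b x := g2 (φ x) φ' x + κ (1 - φ' x)`, `H x := g τ - ∫_x^τ V` on `[p, τ]` (extend `b` by constants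
outside `[p, τ]` and use `isPath_mk`). Then `H = g`, `V = g1`, `b = g2` on `[ξ, τ]`; `b x ∈ C2` as a convex combination of
`g2 (φ x)` and `κ`; `V x ∈ C1`: clear if `κ = 0`; if `κ = c2 > 0` then `g1 x' ≤ V x ≤ g1 (φ x)` since the slopes of `g1` are `≥ c2`
(for `x = p` take the limit, or compare with points `p < x' < φ p`), if `κ = d2 < 0` then `g1 (φ x) ≤ V x ≤ g1 x'` in the same way;
and `C1` is `OrdConnected` and closed. `|H x - g x| ≤ ∫_x^ξ |V - g1| ≤ (2 M + |κ| (ξ - p)) (ξ - p)` for `p < x ≤ ξ`, which is `≤ ε` for `ξ`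
near `p`.
-/

namespace MP44e4f6

open Set MeasureTheory intervalIntegral

private theorem E2_kappa {C2 : Set ℝ} (h2 : CI C2) (hne : C2.Nonempty) :
    ∃ κ : ℝ, κ ∈ C2 ∧ (κ = 0 ∨ (0 < κ ∧ ∀ z ∈ C2, κ ≤ z) ∨ (κ < 0 ∧ ∀ z ∈ C2, z ≤ κ)) := by
  rcases h2 with rfl | ⟨c, d, rfl⟩
  · exact ⟨0, mem_univ _, Or.inl rfl⟩
  · obtain ⟨z, hz⟩ := hne
    have hcd : c ≤ d := hz.1.trans hz.2
    by_cases hc : 0 < c
    · exact ⟨c, ⟨le_rfl, hcd⟩, Or.inr (Or.inl ⟨hc, fun z hz => hz.1⟩)⟩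
    · by_cases hd : d < 0
      · exact ⟨d, ⟨hcd, le_rfl⟩, Or.inr (Or.inr ⟨hd, fun z hz => hz.2⟩)⟩
      · exact ⟨0, ⟨not_lt.1 hc, not_lt.1 hd⟩, Or.inl rfl⟩

private theorem E2_closed {C : Set ℝ} (h : CI C) : IsClosed C := by
  rcases h with rfl | ⟨c, d, rfl⟩
  · exact isClosed_univ
  · exact isClosed_Icc

private theorem E2_ord {C : Set ℝ} (h : CI C) : C.OrdConnected := by
  rcases h with rfl | ⟨c, d, rfl⟩
  · exact ordConnected_univ
  · exact ordConnected_Icc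

private theorem E2_sq (x : ℝ) : HasDerivAt (fun y : ℝ => (max y 0) ^ 2) (2 * max x 0) x := by
  rcases lt_trichotomy x 0 with h | h | h
  · have e : (fun y : ℝ => (max y 0) ^ 2) =ᶠ[nhds x] fun _ => 0 := by
      filter_upwards [Iio_mem_nhds h] with y hy
      rw [max_eq_right (le_of_lt hy)]
      norm_num
    rw [max_eq_right h.le, mul_zero]
    exact (hasDerivAt_const x (0:ℝ)).congr_of_eventuallyEq e
  · subst h
    rw [max_self, mul_zero, hasDerivAt_iff_isLittleO_nhds_zero]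
    have e : (fun h : ℝ => (max (0 + h) 0) ^ 2 - (max (0:ℝ) 0) ^ 2 - h • (0:ℝ)) =O[nhds 0]
        fun h : ℝ => h ^ 2 := by
      refine Asymptotics.IsBigO.of_bound 1 (Filter.Eventually.of_forall fun h => ?_)
      rw [zero_add, max_self, smul_zero]
      simp only [ne_eq, OfNat.ofNat_ne_zero, not_false_eq_true, zero_pow, sub_zero, norm_pow,
        Real.norm_eq_abs, one_mul, sq_abs]
      rcases le_total h 0 with h' | h'
      · rw [max_eq_right h']
        have := sq_nonneg h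
        simpa using this
      · rw [max_eq_left h']
    exact e.trans_isLittleO (Asymptotics.isLittleO_pow_id one_lt_two)
  · have e : (fun y : ℝ => (max y 0) ^ 2) =ᶠ[nhds x] fun y => y ^ 2 := by
      filter_upwards [Ioi_mem_nhds h] with y hy
      rw [max_eq_left (le_of_lt hy)]
    rw [max_eq_left h.le]
    have := (hasDerivAt_pow 2 x).congr_of_eventuallyEq e
    simpa using this

private theorem E2_phi {p d τ x : ℝ} (hd : 0 < d) (hdτ : p + d ≤ τ) (h1 : p ≤ x) (h2 : x ≤ τ) :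
    x ≤ x + (max (p + d - x) 0) ^ 2 / (2 * d) ∧ p < x + (max (p + d - x) 0) ^ 2 / (2 * d) ∧
    x + (max (p + d - x) 0) ^ 2 / (2 * d) ≤ τ ∧ x + (max (p + d - x) 0) ^ 2 / (2 * d) - x ≤ d ∧
    0 ≤ 1 - max (p + d - x) 0 / d ∧ 1 - max (p + d - x) 0 / d ≤ 1 := by
  have hw0 : 0 ≤ max (p + d - x) 0 := le_max_right _ _
  have hw1 : max (p + d - x) 0 ≤ d := max_le (by linarith) hd.le
  have hw2 : max (p + d - x) 0 ≤ τ - x := max_le (by linarith) (by linarith)
  have hq0 : 0 ≤ (max (p + d - x) 0) ^ 2 / (2 * d) := by positivity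
  have hq1 : (max (p + d - x) 0) ^ 2 / (2 * d) ≤ max (p + d - x) 0 := by
    rw [div_le_iff₀ (by positivity)]
    nlinarith
  refine ⟨by linarith, ?_, by linarith, by linarith, ?_, ?_⟩
  · rcases h1.eq_or_lt with h | h
    · rw [← h]
      have : 0 < (max (p + d - p) 0) ^ 2 / (2 * d) := by
        rw [show p + d - p = d by ring, max_eq_left hd.le]
        positivity
      linarith
    · linarith
  · have : max (p + d - x) 0 / d ≤ 1 := (div_le_one hd).2 hw1
    linarith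
  · have : 0 ≤ max (p + d - x) 0 / d := by positivity
    linarith

private theorem E2_dphi (p d x : ℝ) (hd : 0 < d) :
    HasDerivAt (fun x => x + (max (p + d - x) 0) ^ 2 / (2 * d)) (1 - max (p + d - x) 0 / d) x := by
  have h1 : HasDerivAt (fun y : ℝ => p + d - y) (-1) x := by
    simpa using (hasDerivAt_id x).const_sub (p + d)
  have h2 := (E2_sq (p + d - x)).comp x h1
  have h3 := (hasDerivAt_id x).add (h2.div_const (2 * d))
  refine (h3.congr_deriv ?_)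
  field_simp
  ring

theorem tchange {p t τ ξ1 ε M : ℝ} {g g1 g2 : ℝ → ℝ} {C1 C2 : Set ℝ} (G : OP p t g g1 g2) (hM : ∀ x, p < x → x < t → |g1 x| ≤ M)
    (h1 : CI C1) (h2 : CI C2) (m1 : ∀ x, p < x → x < t → g1 x ∈ C1)
    (m2 : ∀ x, p < x → x < t → g2 x ∈ C2) (hτ : τ < t) (hξ1 : p < ξ1) (hξτ : ξ1 ≤ τ) (hε : 0 < ε) :
    ∃ H V b : ℝ → ℝ, IsPath H V b ∧ (∀ x, ξ1 ≤ x → x ≤ τ → H x = g x ∧ V x = g1 x ∧ b x = g2 x) ∧
      (∀ x, p < x → x ≤ τ → |H x - g x| ≤ ε) ∧ (∀ x, p ≤ x → x ≤ τ → V x ∈ C1 ∧ b x ∈ C2) := by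
  have hx1 : ξ1 < t := hξτ.trans_lt hτ
  have hpτ : p < τ := hξ1.trans_le hξτ
  have hM0 : 0 ≤ M := (abs_nonneg _).trans (hM ξ1 hξ1 hx1)
  obtain ⟨κ, hκ, hκc⟩ := E2_kappa h2 ⟨g2 ξ1, m2 ξ1 hξ1 hx1⟩
  have hden : 0 < 2 * M + |κ| + 1 := by positivity
  obtain ⟨d, hd0, hd1, hd2, hd3⟩ : ∃ d : ℝ, 0 < d ∧ d ≤ ξ1 - p ∧ d ≤ 1 ∧
      d ≤ ε / (2 * M + |κ| + 1) :=
    ⟨min (ξ1 - p) (min 1 (ε / (2 * M + |κ| + 1))),
      lt_min (by linarith) (lt_min one_pos (div_pos hε hden)), min_le_left _ _,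
      (min_le_right _ _).trans (min_le_left _ _), (min_le_right _ _).trans (min_le_right _ _)⟩
  have hdε : (2 * M + |κ| * d) * d ≤ ε := by
    have e1 : (2 * M + |κ| + 1) * d ≤ ε := by
      rw [mul_comm]
      exact (le_div_iff₀ hden).1 hd3
    have e2 : |κ| * d ≤ |κ| := mul_le_of_le_one_right (abs_nonneg _) hd2
    nlinarith [mul_le_mul_of_nonneg_right e2 hd0.le]
  have hdτ : p + d ≤ τ := by linarith
  obtain ⟨φ, hφ⟩ : ∃ φ : ℝ → ℝ, φ = fun x => x + (max (p + d - x) 0) ^ 2 / (2 * d) := ⟨_, rfl⟩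
  obtain ⟨ψ, hψ⟩ : ∃ ψ : ℝ → ℝ, ψ = fun x => 1 - max (p + d - x) 0 / d := ⟨_, rfl⟩
  have hdφ : ∀ x, HasDerivAt φ (ψ x) x := fun x => by
    rw [hφ, hψ]
    exact E2_dphi p d x hd0
  have hφc : Continuous φ := by
    rw [hφ]
    fun_prop
  have hψc : Continuous ψ := by
    rw [hψ]
    fun_prop
  have P : ∀ x, p ≤ x → x ≤ τ → x ≤ φ x ∧ p < φ x ∧ φ x ≤ τ ∧ φ x - x ≤ d ∧ 0 ≤ ψ x ∧ ψ x ≤ 1 := by
    intro x hx hx'
    rw [hφ, hψ]
    exact E2_phi hd0 hdτ hx hx'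
  have hφe : ∀ x, p + d ≤ x → φ x = x ∧ ψ x = 1 := by
    intro x hx
    rw [hφ, hψ]
    have : max (p + d - x) 0 = 0 := max_eq_right (by linarith)
    simp only [this]
    constructor <;> simp
  obtain ⟨Vf, hVf⟩ : ∃ Vf : ℝ → ℝ, Vf = fun x => g1 (φ x) + κ * (x - φ x) := ⟨_, rfl⟩
  obtain ⟨B, hB⟩ : ∃ B : ℝ → ℝ, B = fun x => g2 (φ x) * ψ x + κ * (1 - ψ x) := ⟨_, rfl⟩
  have hVd : ∀ x, p ≤ x → x ≤ τ → HasDerivAt Vf (B x) x := by
    intro x hx hx'
    obtain ⟨-, q1, q2, -⟩ := P x hx hx'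
    rw [hVf, hB]
    have a1 := (G.d1 (φ x) q1 (q2.trans_lt hτ)).comp x (hdφ x)
    have a2 := ((hasDerivAt_id x).sub (hdφ x)).const_mul κ
    exact a1.add a2
  have hBc : ContinuousOn B (Icc p τ) := by
    intro x hx
    obtain ⟨-, q1, q2, -⟩ := P x hx.1 hx.2
    rw [hB]
    have a1 : ContinuousAt (fun x => g2 (φ x)) x :=
      ContinuousAt.comp (f := φ) (G.c2 (φ x) q1 (q2.trans_lt hτ)) hφc.continuousAt
    exact ((a1.mul hψc.continuousAt).add
      (continuousAt_const.mul (continuousAt_const.sub hψc.continuousAt))).continuousWithinAt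
  have hcl : ∀ x, max p (min x τ) ∈ Icc p τ := fun x =>
    ⟨le_max_left _ _, max_le hpτ.le (min_le_right _ _)⟩
  have hcle : ∀ x, p ≤ x → x ≤ τ → max p (min x τ) = x := fun x hx hx' => by
    rw [min_eq_left hx', max_eq_right hx]
  have hbc : Continuous (fun x => B (max p (min x τ))) :=
    hBc.comp_continuous (by fun_prop) hcl
  have K0 := isPath_mk hbc τ (g τ) (g1 τ)
  obtain ⟨b, hb⟩ : ∃ b : ℝ → ℝ, b = fun x => B (max p (min x τ)) := ⟨_, rfl⟩
  rw [← hb] at hbc K0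
  have hbe : ∀ x, p ≤ x → x ≤ τ → b x = B x := fun x hx hx' => by
    rw [hb]
    show B (max p (min x τ)) = B x
    rw [hcle x hx hx']
  obtain ⟨V, hV⟩ : ∃ V : ℝ → ℝ, V = fun x => g1 τ + ∫ y in τ..x, b y := ⟨_, rfl⟩
  obtain ⟨H, hH⟩ : ∃ H : ℝ → ℝ, H = fun x => g τ + ∫ t in τ..x, (g1 τ + ∫ y in τ..t, b y) :=
    ⟨_, rfl⟩
  have K : IsPath H V b := by
    rw [hH, hV]
    exact K0
  have hVτ : Vf τ = g1 τ := by
    rw [hVf]
    show g1 (φ τ) + κ * (τ - φ τ) = g1 τ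
    rw [(hφe τ hdτ).1]
    ring
  have hVe : ∀ x, p ≤ x → x ≤ τ → V x = Vf x := by
    intro x hx hx'
    have e : ∫ y in τ..x, b y = Vf x - Vf τ := by
      apply intervalIntegral.integral_eq_sub_of_hasDerivAt
      · intro y hy
        rw [uIcc_of_ge hx'] at hy
        rw [hbe y (hx.trans hy.1) hy.2]
        exact hVd y (hx.trans hy.1) hy.2
      · exact hbc.intervalIntegrable _ _
    rw [hV]
    show g1 τ + ∫ y in τ..x, b y = Vf x
    rw [e, hVτ]
    ring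
  have hVg : ∀ x, p + d ≤ x → x ≤ τ → V x = g1 x ∧ b x = g2 x := by
    intro x hx hx'
    have hx0 : p ≤ x := by linarith
    obtain ⟨e1, e2⟩ := hφe x hx
    rw [hVe x hx0 hx', hbe x hx0 hx', hVf, hB]
    constructor
    · show g1 (φ x) + κ * (x - φ x) = g1 x
      rw [e1]
      ring
    · show g2 (φ x) * ψ x + κ * (1 - ψ x) = g2 x
      rw [e1, e2]
      ring
  have hHτ : H τ = g τ := by
    rw [hH]
    simp
  -- mean value estimates
  have hdF : ∀ x, p < x → x ≤ τ → HasDerivAt (fun x => H x - g x) (V x - g1 x) x :=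
    fun x hx hx' => (K.dh x).sub (G.d0 x hx (hx'.trans_lt hτ))
  have hHg : ∀ x, p + d ≤ x → x ≤ τ → H x - g x = 0 := by
    intro x hx hx'
    have e : ‖(fun x => H x - g x) τ - (fun x => H x - g x) x‖ ≤ 0 * ‖τ - x‖ := by
      apply Convex.norm_image_sub_le_of_norm_hasDerivWithin_le (f := fun x => H x - g x)
        (s := Icc x τ) (f' := fun x => V x - g1 x) (C := 0)
      · intro y hy
        exact (hdF y (by linarith [hy.1]) hy.2).hasDerivWithinAt
      · intro y hy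
        rw [(hVg y (hx.trans hy.1) hy.2).1]
        simp
      · exact convex_Icc _ _
      · exact left_mem_Icc.2 hx'
      · exact right_mem_Icc.2 hx'
    rw [zero_mul] at e
    have e' := norm_le_zero_iff.1 e
    simp only [hHτ] at e'
    linarith
  have hVb : ∀ x, p < x → x ≤ τ → |V x - g1 x| ≤ 2 * M + |κ| * d := by
    intro x hx hx'
    obtain ⟨q0, q1, q2, q3, -⟩ := P x hx.le hx'
    rw [hVe x hx.le hx', hVf]
    show |g1 (φ x) + κ * (x - φ x) - g1 x| ≤ _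
    have a1 := hM (φ x) q1 (q2.trans_lt hτ)
    have a2 := hM x hx (hx'.trans_lt hτ)
    have a3 : |κ * (x - φ x)| ≤ |κ| * d := by
      rw [abs_mul]
      apply mul_le_mul_of_nonneg_left _ (abs_nonneg _)
      rw [abs_sub_comm, abs_of_nonneg (by linarith)]
      exact q3
    have a4 := abs_sub (g1 (φ x) + κ * (x - φ x)) (g1 x)
    have a5 := abs_add_le (g1 (φ x)) (κ * (x - φ x))
    linarith
  have hE : ∀ x, p < x → x ≤ τ → |H x - g x| ≤ ε := by
    intro x hx hx'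
    rcases le_total (p + d) x with h | h
    · rw [hHg x h hx']
      simpa using hε.le
    · have e : ‖(fun x => H x - g x) (p + d) - (fun x => H x - g x) x‖ ≤
          (2 * M + |κ| * d) * ‖p + d - x‖ := by
        apply Convex.norm_image_sub_le_of_norm_hasDerivWithin_le (f := fun x => H x - g x)
          (s := Icc x (p + d)) (f' := fun x => V x - g1 x)
        · intro y hy
          exact (hdF y (by linarith [hy.1]) (hy.2.trans hdτ)).hasDerivWithinAt
        · intro y hy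
          exact hVb y (by linarith [hy.1]) (hy.2.trans hdτ)
        · exact convex_Icc _ _
        · exact left_mem_Icc.2 h
        · exact right_mem_Icc.2 h
      simp only [hHg (p + d) le_rfl hdτ] at e
      rw [zero_sub, norm_neg, Real.norm_eq_abs, Real.norm_eq_abs,
        abs_of_nonneg (by linarith : 0 ≤ p + d - x)] at e
      have : (2 * M + |κ| * d) * (p + d - x) ≤ (2 * M + |κ| * d) * d :=
        mul_le_mul_of_nonneg_left (by linarith) (by positivity)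
      linarith
  -- memberships
  have hV1 : ∀ x, p < x → x ≤ τ → V x ∈ C1 := by
    intro x hx hx'
    obtain ⟨q0, q1, q2, q3, -⟩ := P x hx.le hx'
    have hg1 : g1 x ∈ C1 := m1 x hx (hx'.trans_lt hτ)
    have hg2 : g1 (φ x) ∈ C1 := m1 (φ x) q1 (q2.trans_lt hτ)
    rw [hVe x hx.le hx', hVf]
    show g1 (φ x) + κ * (x - φ x) ∈ C1
    rcases q0.eq_or_lt with h | h
    · rw [← h]
      simpa using hg1
    obtain ⟨c, hc, hc'⟩ := exists_hasDerivAt_eq_slope g1 g2 h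
      (fun y hy => (G.d1 y (hx.trans_le hy.1) ((hy.2.trans q2).trans_lt hτ)).continuousAt.continuousWithinAt)
      (fun y hy => G.d1 y (hx.trans hy.1) ((hy.2.le.trans q2).trans_lt hτ))
    have hpos : 0 < φ x - x := by linarith
    rw [eq_div_iff hpos.ne'] at hc'
    have hcC : g2 c ∈ C2 := m2 c (hx.trans hc.1) ((hc.2.le.trans q2).trans_lt hτ)
    rcases hκc with h0 | ⟨h0, h0'⟩ | ⟨h0, h0'⟩
    · rw [h0]
      simpa using hg2
    · have := h0' _ hcC
      exact (E2_ord h1).out hg1 hg2 ⟨by nlinarith, by nlinarith⟩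
    · have := h0' _ hcC
      exact (E2_ord h1).out hg2 hg1 ⟨by nlinarith, by nlinarith⟩
  refine ⟨H, V, b, K, ?_, hE, ?_⟩
  · intro x hx hx'
    have hx0 : p + d ≤ x := by linarith
    refine ⟨?_, hVg x hx0 hx'⟩
    linarith [hHg x hx0 hx']
  · intro x hx hx'
    constructor
    · rcases hx.eq_or_lt with h | h
      · rw [← h]
        have tt : Filter.Tendsto V (nhdsWithin p (Ioi p)) (nhds (V p)) :=
          K.vcont.continuousAt.tendsto.mono_left nhdsWithin_le_nhds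
        refine (E2_closed h1).mem_of_tendsto tt ?_
        filter_upwards [Ioc_mem_nhdsGT hpτ] with y hy
        exact hV1 y hy.1 hy.2
      · exact hV1 x h hx'
    · obtain ⟨-, q1, q2, -, q4, q5⟩ := P x hx hx'
      rw [hbe x hx hx', hB]
      show g2 (φ x) * ψ x + κ * (1 - ψ x) ∈ C2
      have := (E2_ord h2).convex (m2 (φ x) q1 (q2.trans_lt hτ)) hκ q4 (by linarith : 0 ≤ 1 - ψ x)
        (by ring)
      simp only [smul_eq_mul] at this
      rw [mul_comm (g2 (φ x)), mul_comm κ]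
      exact this

end MP44e4f6
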