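import Mathlib
import Pool.Agent.Lib.MP_44e4f6_lc.E0

/-!
LEAF E3 (bump). Proof. Suppose first that there is `s` with `p < s < τ`, `g2 s` in the interior of `C2` and `g1 s` not the
smallest element of `C1` (i.e. `∃ c ∈ C1, c < g1 s`). By continuity there are `ρ > 0`, `θ > 0` such that `[s - ρ, s + ρ] ⊆ (p, τ)`
and on it `Icc (g1 x - θ) (g1 x) ⊆ C1` (`C1` is `OrdConnected`) and `Icc (g2 x - θ) (g2 x + θ) ⊆ C2`. Let `β x := (max 0 (ρ² - (x -
s)²))²` (`C¹`, support `[s - ρ, s + ρ]`, derivative `β' x = -4 (x - s) max 0 (ρ² - (x - s)²)`), and for small `λ > 0`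
`G1 := g1 - λ β`, `G2 := g2 - λ β'`, `G x := g x + λ ∫_x^(s+ρ) β` ; `B := λ ∫_(s-ρ)^(s+ρ) β > 0`, `σ := s - ρ`.
Otherwise, for some `τ` and all `x` in `(p, τ)`: `g2 x` is not interior to `C2` (so `C2 = Icc c2 d2` and `g2 x = c2 ∨ g2 x = d2`), or
`g1 x` is the smallest element of `C1` and so `g2 x = 0` (interior minimum of `g1`). So `g2` takes on `(p, τ)` at most the values `c2,
d2, 0` and is continuous, hence constant there (connectedness; e.g. `IsPreconnected.constant`-like, or intermediate values).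
-/

namespace MP44e4f6

open Set MeasureTheory intervalIntegral

private theorem E3_sq (y : ℝ) : HasDerivAt (fun y : ℝ => (max 0 y) ^ 2) (2 * max 0 y) y := by
  have hp : ∀ y : ℝ, HasDerivAt (fun y : ℝ => y ^ 2) (2 * y) y := fun y => by
    have h := hasDerivAt_pow 2 y
    norm_num at h
    exact h
  rcases lt_trichotomy y 0 with h | h | h
  · have h1 : (fun y : ℝ => (max 0 y) ^ 2) =ᶠ[nhds y] fun _ => (0 : ℝ) := by
      filter_upwards [Iio_mem_nhds h] with z hz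
      rw [max_eq_left (le_of_lt hz)]
      norm_num
    rw [max_eq_left h.le, mul_zero]
    exact (hasDerivAt_const y (0 : ℝ)).congr_of_eventuallyEq h1
  · subst h
    have hl : HasDerivWithinAt (fun y : ℝ => (max 0 y) ^ 2) 0 (Iic 0) 0 := by
      refine ((hasDerivAt_const (0 : ℝ) (0 : ℝ)).hasDerivWithinAt).congr (fun z hz => ?_) (by norm_num)
      rw [max_eq_left hz]
      norm_num
    have hr : HasDerivWithinAt (fun y : ℝ => (max 0 y) ^ 2) 0 (Ici 0) 0 := by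
      have h2 : HasDerivAt (fun y : ℝ => y ^ 2) 0 0 := by
        have h3 := hp 0
        rwa [mul_zero] at h3
      refine h2.hasDerivWithinAt.congr (fun z hz => ?_) (by norm_num)
      rw [max_eq_right hz]
    have hu := hl.union hr
    rw [Iic_union_Ici, hasDerivWithinAt_univ] at hu
    rw [max_self, mul_zero]
    exact hu
  · have h1 : (fun y : ℝ => (max 0 y) ^ 2) =ᶠ[nhds y] fun y => y ^ 2 := by
      filter_upwards [Ioi_mem_nhds h] with z hz
      rw [max_eq_right (le_of_lt hz)]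
    rw [max_eq_right h.le]
    exact (hp y).congr_of_eventuallyEq h1

private noncomputable def E3_b (s ρ x : ℝ) : ℝ := (max 0 (ρ ^ 2 - (x - s) ^ 2)) ^ 2

private noncomputable def E3_b1 (s ρ x : ℝ) : ℝ := -4 * (x - s) * max 0 (ρ ^ 2 - (x - s) ^ 2)

private theorem E3_deriv (s ρ x : ℝ) : HasDerivAt (E3_b s ρ) (E3_b1 s ρ x) x := by
  have h1 : HasDerivAt (fun x : ℝ => ρ ^ 2 - (x - s) ^ 2) (-(2 * (x - s))) x := by
    have h2 : HasDerivAt (fun x : ℝ => x - s) 1 x := (hasDerivAt_id x).sub_const s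
    have h3 := (h2.pow 2).const_sub (ρ ^ 2)
    norm_num at h3
    exact h3
  have h2 := (E3_sq (ρ ^ 2 - (x - s) ^ 2)).comp x h1
  have h3 : 2 * max 0 (ρ ^ 2 - (x - s) ^ 2) * -(2 * (x - s)) = E3_b1 s ρ x := by
    unfold E3_b1
    ring
  rw [h3] at h2
  exact h2

private theorem E3_cont (s ρ : ℝ) : Continuous (E3_b s ρ) := by
  unfold E3_b
  fun_prop

private theorem E3_cont1 (s ρ : ℝ) : Continuous (E3_b1 s ρ) := by
  unfold E3_b1
  fun_prop

private theorem E3_nonneg (s ρ x : ℝ) : 0 ≤ E3_b s ρ x := by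
  unfold E3_b
  positivity

private theorem E3_out {s ρ x : ℝ} (hρ : 0 < ρ) (h : x ≤ s - ρ ∨ s + ρ ≤ x) :
    E3_b s ρ x = 0 ∧ E3_b1 s ρ x = 0 := by
  have h1 : ρ ^ 2 - (x - s) ^ 2 ≤ 0 := by
    rcases h with h | h <;> nlinarith
  unfold E3_b E3_b1
  rw [max_eq_left h1]
  norm_num

private theorem E3_le {s ρ x : ℝ} (hρ : 0 < ρ) : E3_b s ρ x ≤ ρ ^ 4 := by
  have h1 : max 0 (ρ ^ 2 - (x - s) ^ 2) ≤ ρ ^ 2 := max_le (by positivity) (by nlinarith [sq_nonneg (x - s)])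
  have h2 : 0 ≤ max 0 (ρ ^ 2 - (x - s) ^ 2) := le_max_left _ _
  unfold E3_b
  calc (max 0 (ρ ^ 2 - (x - s) ^ 2)) ^ 2 ≤ (ρ ^ 2) ^ 2 := pow_le_pow_left₀ h2 h1 2
    _ = ρ ^ 4 := by ring

private theorem E3_le1 {s ρ x : ℝ} (hρ : 0 < ρ) (hx : |x - s| ≤ ρ) : |E3_b1 s ρ x| ≤ 4 * ρ ^ 3 := by
  have h1 : max 0 (ρ ^ 2 - (x - s) ^ 2) ≤ ρ ^ 2 := max_le (by positivity) (by nlinarith [sq_nonneg (x - s)])
  have h2 : 0 ≤ max 0 (ρ ^ 2 - (x - s) ^ 2) := le_max_left _ _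
  unfold E3_b1
  rw [abs_mul, abs_mul, abs_of_nonneg h2]
  have h3 : |(-4 : ℝ)| = 4 := by norm_num
  rw [h3]
  calc 4 * |x - s| * max 0 (ρ ^ 2 - (x - s) ^ 2) ≤ 4 * ρ * ρ ^ 2 :=
        mul_le_mul (by linarith) h1 h2 (by positivity)
    _ = 4 * ρ ^ 3 := by ring

/-- the case of few values -/
private theorem E3_const {p t τ : ℝ} {g g1 g2 : ℝ → ℝ} {C1 C2 : Set ℝ} (G : OP p t g g1 g2) (hτt : τ < t)
    (h2 : CI C2) (m1 : ∀ x, p < x → x < t → g1 x ∈ C1) (m2 : ∀ x, p < x → x < t → g2 x ∈ C2)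
    (hno : ∀ s, p < s → s < τ → ¬ (g2 s ∈ interior C2 ∧ ∃ c ∈ C1, c < g1 s)) :
    ∀ x y, p < x → x < τ → p < y → y < τ → g2 x = g2 y := by
  obtain ⟨T, hTf, hT⟩ : ∃ T : Set ℝ, T.Finite ∧ ∀ s, p < s → s < τ → g2 s ∈ T := by
    have hzero : ∀ s, p < s → s < τ → (∀ c ∈ C1, ¬ c < g1 s) → g2 s = 0 := by
      intro s hs1 hs2 hc
      have hmin : IsLocalMin g1 s := by
        filter_upwards [Ioo_mem_nhds hs1 (hs2.trans hτt)] with x hx
        exact not_lt.1 (hc _ (m1 x hx.1 hx.2))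
      exact hmin.hasDerivAt_eq_zero (G.d1 s hs1 (hs2.trans hτt))
    rcases h2 with h2 | ⟨c, d, h2⟩
    · refine ⟨{0}, Set.finite_singleton _, fun s hs1 hs2 => ?_⟩
      refine hzero s hs1 hs2 fun c hc hlt => hno s hs1 hs2 ⟨?_, c, hc, hlt⟩
      rw [h2, interior_univ]
      exact mem_univ _
    · refine ⟨{0, c, d}, by simp, fun s hs1 hs2 => ?_⟩
      by_cases hint : g2 s ∈ interior C2
      · have h3 := hzero s hs1 hs2 fun c hc hlt => hno s hs1 hs2 ⟨hint, c, hc, hlt⟩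
        rw [h3]
        simp
      · have h4 := m2 s hs1 (hs2.trans hτt)
        rw [h2] at h4 hint
        rw [interior_Icc] at hint
        by_cases h5 : g2 s = c
        · rw [h5]; simp
        · by_cases h6 : g2 s = d
          · rw [h6]; simp
          · exact absurd ⟨lt_of_le_of_ne h4.1 (Ne.symm h5), lt_of_le_of_ne h4.2 h6⟩ hint
  intro x y hx1 hx2 hy1 hy2
  have hfin : Finite T := hTf.to_subtype
  have hpre : IsPreconnected (Ioo p τ) := isPreconnected_Ioo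
  have hcont : ContinuousOn g2 (Ioo p τ) := fun z hz => (G.c2 z hz.1 (hz.2.trans hτt)).continuousWithinAt
  exact hpre.constant_of_mapsTo hTf.isDiscrete hcont (fun z hz => hT z hz.1 hz.2) ⟨hx1, hx2⟩ ⟨hy1, hy2⟩

theorem bump {p t : ℝ} {g g1 g2 : ℝ → ℝ} {C1 C2 : Set ℝ} (G : OP p t g g1 g2) (hpt : p < t)
    (h1 : CI C1) (h2 : CI C2) (m1 : ∀ x, p < x → x < t → g1 x ∈ C1)
    (m2 : ∀ x, p < x → x < t → g2 x ∈ C2) :
    (∃ σ, p < σ ∧ σ < t ∧ ∀ x y, p < x → x < σ → p < y → y < σ → g2 x = g2 y) ∨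
    ∀ τ η : ℝ, p < τ → τ < t → 0 < η → ∃ B σ : ℝ, 0 < B ∧ B ≤ η ∧ p < σ ∧ σ < τ ∧
      ∃ F F1 F2 : ℝ → ℝ, OP p t F F1 F2 ∧ (∀ x, τ ≤ x → x < t → F x = g x ∧ F1 x = g1 x ∧ F2 x = g2 x) ∧
        (∀ x, p < x → x ≤ σ → F x = g x + B) ∧
        (∀ x, p < x → x < t → g x ≤ F x ∧ F x ≤ g x + B ∧ F1 x ∈ C1 ∧ F2 x ∈ C2) := by
  by_cases hcase : ∃ τ, p < τ ∧ τ < t ∧ ∀ s, p < s → s < τ → ¬ (g2 s ∈ interior C2 ∧ ∃ c ∈ C1, c < g1 s)
  · obtain ⟨τ, hpτ, hτt, hno⟩ := hcase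
    exact Or.inl ⟨τ, hpτ, hτt, E3_const G hτt h2 m1 m2 hno⟩
  right
  intro τ η hpτ hτt hη
  obtain ⟨s, hps, hsτ, hint, c, hc, hcs⟩ : ∃ s, p < s ∧ s < τ ∧ g2 s ∈ interior C2 ∧ ∃ c ∈ C1, c < g1 s := by
    by_contra hcon
    apply hcase
    refine ⟨τ, hpτ, hτt, fun s hs1 hs2 h3 => hcon ⟨s, hs1, hs2, h3.1, h3.2⟩⟩
  have hst : s < t := hsτ.trans hτt
  have hoc1 : C1.OrdConnected := by
    rcases h1 with h1 | ⟨a, b, h1⟩
    · rw [h1]; exact ordConnected_univ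
    · rw [h1]; exact ordConnected_Icc
  obtain ⟨θ1, hθ1⟩ : ∃ θ1 : ℝ, θ1 = (g1 s - c) / 2 := ⟨_, rfl⟩
  have hθ10 : 0 < θ1 := by rw [hθ1]; linarith
  obtain ⟨e, he0, he⟩ := Metric.mem_nhds_iff.1 (mem_interior_iff_mem_nhds.1 hint)
  obtain ⟨θ2, hθ2⟩ : ∃ θ2 : ℝ, θ2 = e / 2 := ⟨_, rfl⟩
  have hθ20 : 0 < θ2 := by rw [hθ2]; linarith
  have hcg1 : ContinuousAt g1 s := (G.d1 s hps hst).continuousAt
  have hcg2 : ContinuousAt g2 s := G.c2 s hps hst
  have hev : ∀ᶠ x in nhds s, (p < x ∧ x < τ) ∧ |g1 x - g1 s| < θ1 ∧ |g2 x - g2 s| < θ2 := by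
    have e1 : ∀ᶠ x in nhds s, p < x ∧ x < τ := Ioo_mem_nhds hps hsτ
    have e2 : ∀ᶠ x in nhds s, |g1 x - g1 s| < θ1 := by
      have := hcg1.eventually (Metric.ball_mem_nhds (g1 s) hθ10)
      filter_upwards [this] with x hx
      rw [← Real.dist_eq]
      exact hx
    have e3 : ∀ᶠ x in nhds s, |g2 x - g2 s| < θ2 := by
      have := hcg2.eventually (Metric.ball_mem_nhds (g2 s) hθ20)
      filter_upwards [this] with x hx
      rw [← Real.dist_eq]
      exact hx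
    filter_upwards [e1, e2, e3] with x a1 a2 a3
    exact ⟨a1, a2, a3⟩
  obtain ⟨δ, hδ0, hδ⟩ := Metric.eventually_nhds_iff.1 hev
  obtain ⟨ρ, hρ⟩ : ∃ ρ : ℝ, ρ = δ / 2 := ⟨_, rfl⟩
  have hρ0 : 0 < ρ := by rw [hρ]; linarith
  have hin : ∀ x, |x - s| ≤ ρ → (p < x ∧ x < τ) ∧ |g1 x - g1 s| < θ1 ∧ |g2 x - g2 s| < θ2 := by
    intro x hx
    refine hδ ?_
    rw [Real.dist_eq]
    linarith
  have hl : p < s - ρ := (hin (s - ρ) (by rw [sub_sub_cancel_left, abs_neg, abs_of_pos hρ0])).1.1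
  have hr : s + ρ < τ := (hin (s + ρ) (by rw [add_sub_cancel_left, abs_of_pos hρ0])).1.2
  obtain ⟨P, hP⟩ : ∃ P : ℝ → ℝ, ∀ x, P x = ∫ u in (s - ρ)..x, E3_b s ρ u := ⟨_, fun _ => rfl⟩
  have hint' : ∀ a b : ℝ, IntervalIntegrable (E3_b s ρ) volume a b := fun a b => (E3_cont s ρ).intervalIntegrable a b
  have hPd : ∀ x, HasDerivAt P (E3_b s ρ x) x := by
    intro x
    have h3 := ((E3_cont s ρ).integral_hasStrictDerivAt (s - ρ) x).hasDerivAt
    have h4 : P = fun x => ∫ u in (s - ρ)..x, E3_b s ρ u := funext hP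
    rw [h4]
    exact h3
  have hPsub : ∀ x y, P y - P x = ∫ u in x..y, E3_b s ρ u := by
    intro x y
    rw [hP, hP]
    exact intervalIntegral.integral_interval_sub_left (hint' _ _) (hint' _ _)
  have hPmono : ∀ x y, x ≤ y → P x ≤ P y := by
    intro x y hxy
    have h3 := hPsub x y
    have h4 : 0 ≤ ∫ u in x..y, E3_b s ρ u :=
      intervalIntegral.integral_nonneg hxy fun u _ => E3_nonneg s ρ u
    linarith
  have hPl : ∀ x, x ≤ s - ρ → P x = 0 := by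
    intro x hx
    rw [hP]
    have h3 : ∫ u in (s - ρ)..x, E3_b s ρ u = ∫ _u in (s - ρ)..x, (0 : ℝ) := by
      refine intervalIntegral.integral_congr fun u hu => ?_
      rw [uIcc_of_ge hx] at hu
      exact (E3_out hρ0 (Or.inl hu.2)).1
    rw [h3]
    simp
  have hPr : ∀ x, s + ρ ≤ x → P x = P (s + ρ) := by
    intro x hx
    have h3 := hPsub (s + ρ) x
    have h4 : ∫ u in (s + ρ)..x, E3_b s ρ u = ∫ _u in (s + ρ)..x, (0 : ℝ) := by
      refine intervalIntegral.integral_congr fun u hu => ?_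
      rw [uIcc_of_le hx] at hu
      exact (E3_out hρ0 (Or.inr hu.1)).1
    rw [h4] at h3
    simp at h3
    linarith
  have hI : 0 < P (s + ρ) := by
    rw [hP]
    refine intervalIntegral.intervalIntegral_pos_of_pos_on (hint' _ _) (fun u hu => ?_) (by linarith)
    have h3 : 0 < ρ ^ 2 - (u - s) ^ 2 := by nlinarith [hu.1, hu.2]
    unfold E3_b
    rw [max_eq_right h3.le]
    positivity
  obtain ⟨θ, hθ⟩ : ∃ θ : ℝ, θ = min θ1 θ2 := ⟨_, rfl⟩
  have hθ0 : 0 < θ := by rw [hθ]; exact lt_min hθ10 hθ20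
  have hθa : θ ≤ θ1 := by rw [hθ]; exact min_le_left _ _
  have hθb : θ ≤ θ2 := by rw [hθ]; exact min_le_right _ _
  obtain ⟨M, hM⟩ : ∃ M : ℝ, M = 1 + ρ ^ 4 + 4 * ρ ^ 3 + P (s + ρ) := ⟨_, rfl⟩
  have hρ3 : 0 < ρ ^ 3 := by positivity
  have hρ4 : 0 < ρ ^ 4 := by positivity
  have hM0 : 0 < M := by rw [hM]; linarith
  obtain ⟨l, hl'⟩ : ∃ l : ℝ, l = min θ η / M := ⟨_, rfl⟩
  have hl0 : 0 < l := by rw [hl']; exact div_pos (lt_min hθ0 hη) hM0
  have hlM : l * M = min θ η := by rw [hl']; field_simp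
  have hmin1 : min θ η ≤ θ := min_le_left _ _
  have hmin2 : min θ η ≤ η := min_le_right _ _
  have hb1 : l * ρ ^ 4 ≤ θ := by
    have : l * ρ ^ 4 ≤ l * M := mul_le_mul_of_nonneg_left (by rw [hM]; linarith) hl0.le
    linarith
  have hb2 : l * (4 * ρ ^ 3) ≤ θ := by
    have : l * (4 * ρ ^ 3) ≤ l * M := mul_le_mul_of_nonneg_left (by rw [hM]; linarith) hl0.le
    linarith
  have hb3 : l * P (s + ρ) ≤ η := by
    have : l * P (s + ρ) ≤ l * M := mul_le_mul_of_nonneg_left (by rw [hM]; linarith) hl0.le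
    linarith
  refine ⟨l * P (s + ρ), s - ρ, mul_pos hl0 hI, hb3, hl, by linarith, fun x => g x + l * (P (s + ρ) - P x),
    fun x => g1 x - l * E3_b s ρ x, fun x => g2 x - l * E3_b1 s ρ x, ⟨fun x hx1 hx2 => ?_, fun x hx1 hx2 => ?_,
    fun x hx1 hx2 => ?_⟩, fun x hx1 hx2 => ⟨?_, ?_, ?_⟩, fun x hx1 hx2 => ?_, fun x hx1 hx2 => ⟨?_, ?_, ?_, ?_⟩⟩
  · have h3 := (G.d0 x hx1 hx2).add (((hPd x).const_sub (P (s + ρ))).const_mul l)
    have h4 : g1 x + l * -E3_b s ρ x = g1 x - l * E3_b s ρ x := by ring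
    rw [h4] at h3
    exact h3
  · exact (G.d1 x hx1 hx2).sub ((E3_deriv s ρ x).const_mul l)
  · exact (G.c2 x hx1 hx2).sub ((E3_cont1 s ρ).continuousAt.const_mul l)
  · show g x + l * (P (s + ρ) - P x) = g x
    rw [hPr x (by linarith), sub_self, mul_zero, add_zero]
  · show g1 x - l * E3_b s ρ x = g1 x
    rw [(E3_out hρ0 (Or.inr (by linarith))).1, mul_zero, sub_zero]
  · show g2 x - l * E3_b1 s ρ x = g2 x
    rw [(E3_out hρ0 (Or.inr (by linarith))).2, mul_zero, sub_zero]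
  · show g x + l * (P (s + ρ) - P x) = g x + l * P (s + ρ)
    rw [hPl x hx2, sub_zero]
  · show g x ≤ g x + l * (P (s + ρ) - P x)
    have h3 : P x ≤ P (s + ρ) := by
      rcases le_total x (s + ρ) with h | h
      · exact hPmono _ _ h
      · exact (hPr x h).le
    have h4 : 0 ≤ l * (P (s + ρ) - P x) := mul_nonneg hl0.le (by linarith)
    linarith
  · show g x + l * (P (s + ρ) - P x) ≤ g x + l * P (s + ρ)
    have h3 : 0 ≤ P x := by
      rcases le_total x (s - ρ) with h | h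
      · exact (hPl x h).ge
      · have h5 := hPmono _ _ h
        rw [hPl (s - ρ) le_rfl] at h5
        exact h5
    have h4 : 0 ≤ l * P x := mul_nonneg hl0.le h3
    have h5 : l * (P (s + ρ) - P x) = l * P (s + ρ) - l * P x := by ring
    linarith
  · show g1 x - l * E3_b s ρ x ∈ C1
    by_cases hx : |x - s| ≤ ρ
    · have h3 := (hin x hx).2.1
      rw [abs_lt] at h3
      have h4 : l * E3_b s ρ x ≤ θ := (mul_le_mul_of_nonneg_left (E3_le hρ0) hl0.le).trans hb1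
      have h5 : 0 ≤ l * E3_b s ρ x := mul_nonneg hl0.le (E3_nonneg s ρ x)
      refine hoc1.out hc (m1 x hx1 hx2) ⟨?_, ?_⟩
      · linarith
      · linarith
    · have h3 : x ≤ s - ρ ∨ s + ρ ≤ x := by
        rw [abs_le, not_and_or, not_le, not_le] at hx
        rcases hx with hx | hx
        · left; linarith
        · right; linarith
      rw [(E3_out hρ0 h3).1, mul_zero, sub_zero]
      exact m1 x hx1 hx2
  · show g2 x - l * E3_b1 s ρ x ∈ C2
    by_cases hx : |x - s| ≤ ρ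
    · have h3 := (hin x hx).2.2
      have h4 : |l * E3_b1 s ρ x| ≤ θ := by
        rw [abs_mul, abs_of_pos hl0]
        exact (mul_le_mul_of_nonneg_left (E3_le1 hρ0 hx) hl0.le).trans hb2
      refine he ?_
      rw [Metric.mem_ball, Real.dist_eq]
      rw [abs_lt] at h3 ⊢
      rw [abs_le] at h4
      constructor
      · linarith
      · linarith
    · have h3 : x ≤ s - ρ ∨ s + ρ ≤ x := by
        rw [abs_le, not_and_or, not_le, not_le] at hx
        rcases hx with hx | hx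
        · left; linarith
        · right; linarith
      rw [(E3_out hρ0 h3).2, mul_zero, sub_zero]
      exact m2 x hx1 hx2

end MP44e4f6
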