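import Mathlib
import Pool.Agent.Lib.MP_44e4f6_lc.E0

/-!
LEAF E4. Proof. `C0 = univ`: any `τ'`, the quadratic Taylor polynomial. `C0 = Icc c d`: if there is `x` in `(p, τ)` with
`c < g x < d`, let `τ' := x`, and with `y := x' - τ'` (argument `x'`), `u := g1 τ'`, `w := g2 τ' - 6 u / ε`:
`H x' := g τ' + (u y + w y² / 2) (max 0 (1 + y / ε))³` for `x' ≤ τ'` (and any extension to the right, e.g. the Taylor polynomial
`g τ' + u y + g2 τ' y² / 2`, or just the same formula, which is also `C²`); its `2`-jet at `τ'` is `(g τ', g1 τ', g2 τ')`, and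
`|H - g τ'| ≤ 4 |u| ε + |g2 τ'| ε² / 2 ≤ min (g τ' - c) (d - g τ')` on `(-∞, τ']` for small `ε > 0`. Otherwise `g x = c ∨ g x = d` for all
`x` in `(p, τ)`, so `g` is constant on `(p, τ)` by continuity, `g1 = g2 = 0` there, and `H` = this constant will do.
-/

namespace MP44e4f6

open Set MeasureTheory intervalIntegral

private theorem E4_mk {H V b : ℝ → ℝ} (hb : Continuous b) (h1 : ∀ x, HasDerivAt H (V x) x)
    (h2 : ∀ x, HasDerivAt V (b x) x) : IsPath H V b := by
  have hV : Continuous V := continuous_iff_continuousAt.2 (fun x => (h2 x).continuousAt)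
  refine ⟨hb, fun s x => ?_, fun s x => ?_⟩
  · have := intervalIntegral.integral_eq_sub_of_hasDerivAt (f := V) (f' := b) (a := s) (b := x)
      (fun y _ => h2 y) (hb.intervalIntegrable _ _)
    linarith
  · have := intervalIntegral.integral_eq_sub_of_hasDerivAt (f := H) (f' := V) (a := s) (b := x)
      (fun y _ => h1 y) (hV.intervalIntegrable _ _)
    linarith

private theorem E4_path (s h u a k : ℝ) (hk : k ≠ 0) :
    IsPath (fun x => h + (u / k * Real.sin (k * (x - s)) + a / k ^ 2 * (1 - Real.cos (k * (x - s)))))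
      (fun x => u * Real.cos (k * (x - s)) + a / k * Real.sin (k * (x - s)))
      (fun x => -(u * k) * Real.sin (k * (x - s)) + a * Real.cos (k * (x - s))) := by
  have hl : ∀ x, HasDerivAt (fun x : ℝ => k * (x - s)) k x := by
    intro x
    have := ((hasDerivAt_id x).sub_const s).const_mul k
    simpa using this
  have hs : ∀ x, HasDerivAt (fun x : ℝ => Real.sin (k * (x - s))) (Real.cos (k * (x - s)) * k) x :=
    fun x => (Real.hasDerivAt_sin _).comp x (hl x)
  have hc : ∀ x, HasDerivAt (fun x : ℝ => Real.cos (k * (x - s))) (-Real.sin (k * (x - s)) * k) x :=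
    fun x => (Real.hasDerivAt_cos _).comp x (hl x)
  apply E4_mk
  · fun_prop
  · intro x
    have h1 := (((hs x).const_mul (u / k)).add (((hc x).const_sub 1).const_mul (a / k ^ 2))).const_add h
    refine h1.congr_deriv ?_
    field_simp
    try ring
  · intro x
    have h1 := ((hc x).const_mul u).add ((hs x).const_mul (a / k))
    refine h1.congr_deriv ?_
    field_simp
    try ring

private theorem E4_small (u a η : ℝ) (hη : 0 < η) : ∃ k : ℝ, 0 < k ∧ ∀ z : ℝ,
    |u / k * Real.sin z + a / k ^ 2 * (1 - Real.cos z)| ≤ η := by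
  refine ⟨1 + (|u| + 2 * |a|) / η, by positivity, fun z => ?_⟩
  set k : ℝ := 1 + (|u| + 2 * |a|) / η with hk
  have hk1 : 1 ≤ k := by
    rw [hk]
    have : 0 ≤ (|u| + 2 * |a|) / η := by positivity
    linarith
  have hk0 : 0 < k := by linarith
  have h1 : |u / k * Real.sin z| ≤ |u| / k := by
    rw [abs_mul, abs_div, abs_of_pos hk0]
    have := Real.abs_sin_le_one z
    have h2 : 0 ≤ |u| / k := by positivity
    nlinarith
  have h2 : |a / k ^ 2 * (1 - Real.cos z)| ≤ 2 * |a| / k := by
    rw [abs_mul, abs_div, abs_of_pos (by positivity : (0 : ℝ) < k ^ 2)]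
    have h3 : |1 - Real.cos z| ≤ 2 := by
      rw [abs_le]
      have := Real.neg_one_le_cos z
      have := Real.cos_le_one z
      constructor <;> linarith
    have h4 : |a| / k ^ 2 ≤ |a| / k := by
      apply div_le_div_of_nonneg_left (abs_nonneg a) hk0
      nlinarith
    have h5 : 0 ≤ |a| / k ^ 2 := by positivity
    calc |a| / k ^ 2 * |1 - Real.cos z| ≤ |a| / k ^ 2 * 2 := by
          exact mul_le_mul_of_nonneg_left h3 h5
      _ ≤ |a| / k * 2 := by linarith
      _ = 2 * |a| / k := by ring
  have h3 : (|u| + 2 * |a|) / k ≤ η := by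
    rw [div_le_iff₀ hk0]
    have h6 : (|u| + 2 * |a|) / η * η = |u| + 2 * |a| := by field_simp
    have h7 : η * k = η + (|u| + 2 * |a|) / η * η := by rw [hk]; ring
    rw [h7, h6]
    linarith
  calc |u / k * Real.sin z + a / k ^ 2 * (1 - Real.cos z)|
      ≤ |u / k * Real.sin z| + |a / k ^ 2 * (1 - Real.cos z)| := abs_add_le _ _
    _ ≤ |u| / k + 2 * |a| / k := by linarith
    _ = (|u| + 2 * |a|) / k := by ring
    _ ≤ η := h3

theorem end_free {p t τ : ℝ} {g g1 g2 : ℝ → ℝ} {C0 : Set ℝ} (G : OP p t g g1 g2) (h0 : CI C0)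
    (m0 : ∀ x, p < x → x < t → g x ∈ C0) (hτ : p < τ) (hτt : τ < t) :
    ∃ τ' : ℝ, p < τ' ∧ τ' < τ ∧ ∃ H V b : ℝ → ℝ, IsPath H V b ∧ H τ' = g τ' ∧ V τ' = g1 τ' ∧
      b τ' = g2 τ' ∧ ∀ x, p ≤ x → x ≤ τ' → H x ∈ C0 := by
  rcases h0 with h0 | ⟨c, d, h0⟩
  · subst h0
    refine ⟨(p + τ) / 2, by linarith, by linarith, _, _, _,
      E4_path ((p + τ) / 2) (g ((p + τ) / 2)) (g1 ((p + τ) / 2)) (g2 ((p + τ) / 2)) 1 one_ne_zero,
      by simp, by simp, by simp, fun x _ _ => mem_univ _⟩
  · subst h0
    by_cases hx : ∃ x, p < x ∧ x < τ ∧ c < g x ∧ g x < d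
    · obtain ⟨x, h1, h2, h3, h4⟩ := hx
      obtain ⟨k, hk, hs⟩ := E4_small (g1 x) (g2 x) (min (g x - c) (d - g x))
        (lt_min (by linarith) (by linarith))
      refine ⟨x, h1, h2, _, _, _, E4_path x (g x) (g1 x) (g2 x) k hk.ne', by simp, by simp, by simp,
        fun y _ _ => ?_⟩
      have h5 := abs_le.1 (hs (k * (y - x)))
      have h6 := min_le_left (g x - c) (d - g x)
      have h7 := min_le_right (g x - c) (d - g x)
      constructor
      · linarith [h5.1]
      · linarith [h5.2]
    · push Not at hx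
      have z1 : ∀ x, p < x → x < τ → g1 x = 0 := by
        intro x h1 h2
        have hm := m0 x h1 (by linarith)
        have hn : Ioo p τ ∈ nhds x := Ioo_mem_nhds h1 h2
        rcases eq_or_lt_of_le hm.1 with h3 | h3
        · have hmin : IsLocalMin g x := by
            filter_upwards [hn] with y hy
            rw [← h3]
            exact (m0 y hy.1 (by linarith [hy.2])).1
          exact hmin.hasDerivAt_eq_zero (G.d0 x h1 (by linarith))
        · have h4 : g x = d := le_antisymm hm.2 (hx x h1 h2 h3)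
          have hmax : IsLocalMax g x := by
            filter_upwards [hn] with y hy
            rw [h4]
            exact (m0 y hy.1 (by linarith [hy.2])).2
          exact hmax.hasDerivAt_eq_zero (G.d0 x h1 (by linarith))
      have z2 : g2 ((p + τ) / 2) = 0 := by
        have h1 : HasDerivAt g1 (g2 ((p + τ) / 2)) ((p + τ) / 2) :=
          G.d1 _ (by linarith) (by linarith)
        have h2 : HasDerivAt g1 0 ((p + τ) / 2) := by
          refine (hasDerivAt_const ((p + τ) / 2) (0 : ℝ)).congr_of_eventuallyEq ?_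
          filter_upwards [Ioo_mem_nhds (a := p) (b := τ) (x := (p + τ) / 2) (by linarith) (by linarith)] with y hy
          exact z1 y hy.1 hy.2
        exact h1.unique h2
      refine ⟨(p + τ) / 2, by linarith, by linarith, fun _ => g ((p + τ) / 2), fun _ => 0, fun _ => 0,
        E4_mk continuous_const (fun x => hasDerivAt_const x _) (fun x => hasDerivAt_const x _), rfl,
        (z1 _ (by linarith) (by linarith)).symm, z2.symm, fun x _ _ => m0 _ (by linarith) (by linarith)⟩

end MP44e4f6
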