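import Mathlib
import Pool.Agent.Lib.MP_44e4f6_lc.E0
import Pool.Agent.Lib.MP_44e4f6_lc.E2
import Pool.Agent.Lib.MP_44e4f6_lc.E3
import Pool.Agent.Lib.MP_44e4f6_lc.E4

/-!
LEAF E5. Proof. If `C1 = univ` and `C2 = univ`: `end_free`. Otherwise `g1` is bounded by some `M` on `(p, t')` for some `t' ∈ (τ, t)`:
clear if `C1 = Icc`; if `C2 = Icc c2 d2`, then `|g1 x - g1 τ| ≤ max |c2| |d2| (t - p)` (mean value theorem). Apply the lemmas with
`t'` instead of `t` (or with `t`; decrease `τ` freely).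
`C0 = univ`: `tchange`, `ε = 1`. `C0 = Icc c d`, `c = d`: `g` is constant, `g1 = g2 = 0` on `(p, t)`, `H = c`, `V = 0`, `b = 0`
(`0 ∈ C1`, `0 ∈ C2`). `c < d`: let `e := (d - c) / 8`; choose `τ` so near `p` that `|g x - g y| ≤ 2 e` for `x, y` in `(p, τ]`
(`|g x - g y| ≤ M |x - y|`).
(a) `c + e ≤ g x ≤ d - e` on `(p, τ]`: `tchange` with `e`.
(b) there is `x` in `(p, τ]` with `g x < c + e`: then `g ≤ c + 3 e ≤ d - 2 e` on `(p, τ]`. Use `bump`. If `g2` is constant on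
`(p, σ)`, say `g2 = k`: let `τ' < σ`, `H` := the quadratic Taylor polynomial of `g` at `τ'`, which equals `g` on `(p, τ']` (and at
`p` the memberships follow since `C0, C1, C2` are closed). Otherwise take `B ≤ e`, `σ`, `F` from `bump` (for `τ`, `η = e`), and apply
`tchange` to `F` with `ξ1 := σ` and `ε := B`: for `p < x ≤ σ`: `c ≤ g x = F x - B ≤ H x ≤ F x + B ≤ g x + 2 e ≤ d`, for `σ ≤ x ≤ τ`:
`H x = F x ∈ [g x, g x + B] ⊆ [c, d]`; `x = p` by closedness and continuity of `H`.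
(c) there is `x` in `(p, τ]` with `g x > d - e`: apply (b) to `(-g, -g1, -g2)` and `-C0, -C1, -C2` (neg of a `CI` set is a `CI` set).
-/

namespace MP44e4f6

open Set MeasureTheory intervalIntegral

private theorem E5_closed {C : Set ℝ} (h : CI C) : IsClosed C := by
  rcases h with h | ⟨c, d, h⟩
  · rw [h]; exact isClosed_univ
  · rw [h]; exact isClosed_Icc

private theorem E5_neg {C : Set ℝ} (h : CI C) : CI {x | -x ∈ C} := by
  rcases h with h | ⟨c, d, h⟩
  · left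
    ext x
    simp [h]
  · right
    refine ⟨-d, -c, ?_⟩
    ext x
    rw [h]
    constructor
    · intro hx
      have hx' : c ≤ -x ∧ -x ≤ d := hx
      exact ⟨by linarith [hx'.2], by linarith [hx'.1]⟩
    · intro hx
      show c ≤ -x ∧ -x ≤ d
      exact ⟨by linarith [hx.2], by linarith [hx.1]⟩

private theorem E5_lim {p s : ℝ} {H : ℝ → ℝ} {C : Set ℝ} (hH : Continuous H) (hC : IsClosed C) (hps : p < s)
    (h : ∀ x, p < x → x ≤ s → H x ∈ C) : ∀ x, p ≤ x → x ≤ s → H x ∈ C := by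
  intro x hx hxs
  rcases hx.lt_or_eq with h1 | h1
  · exact h x h1 hxs
  · subst h1
    have h2 : p ∈ closure (Ioo p s) := by
      rw [closure_Ioo (ne_of_lt hps)]
      exact left_mem_Icc.2 hps.le
    have h3 := map_mem_closure hH h2 (fun y hy => h y hy.1 hy.2.le)
    rwa [hC.closure_eq] at h3

private theorem E5_lip {p t M : ℝ} {f f' : ℝ → ℝ} (hd : ∀ x, p < x → x < t → HasDerivAt f (f' x) x)
    (hM : ∀ x, p < x → x < t → |f' x| ≤ M) {x y : ℝ} (hx : p < x) (hxt : x < t) (hy : p < y) (hyt : y < t) :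
    |f y - f x| ≤ M * |y - x| := by
  have h := Convex.norm_image_sub_le_of_norm_hasDerivWithin_le (f := f) (f' := f') (s := Ioo p t) (C := M)
    (fun z hz => (hd z hz.1 hz.2).hasDerivWithinAt) (fun z hz => by rw [Real.norm_eq_abs]; exact hM z hz.1 hz.2)
    (convex_Ioo p t) (⟨hx, hxt⟩ : x ∈ Ioo p t) (⟨hy, hyt⟩ : y ∈ Ioo p t)
  rwa [Real.norm_eq_abs, Real.norm_eq_abs] at h

private theorem E5_const {p t : ℝ} {f : ℝ → ℝ} (hd : ∀ x, p < x → x < t → HasDerivAt f 0 x)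
    {x y : ℝ} (hx : p < x) (hxt : x < t) (hy : p < y) (hyt : y < t) : f y = f x := by
  have h := E5_lip (M := 0) (f' := fun _ => 0) hd (fun _ _ _ => by simp) hx hxt hy hyt
  rw [zero_mul] at h
  have := abs_nonpos_iff.1 h
  linarith

private theorem E5_zero {p t : ℝ} {f f' : ℝ → ℝ} {c : ℝ} (hd : ∀ x, p < x → x < t → HasDerivAt f (f' x) x)
    (hc : ∀ x, p < x → x < t → f x = c) : ∀ x, p < x → x < t → f' x = 0 := by
  intro x hx hxt
  have h1 : HasDerivAt f 0 x := by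
    apply (hasDerivAt_const x c).congr_of_eventuallyEq
    filter_upwards [Ioo_mem_nhds hx hxt] with y hy
    exact hc y hy.1 hy.2
  exact (hd x hx hxt).unique h1

private theorem E5_path {H V b : ℝ → ℝ} (hb : Continuous b) (h1 : ∀ x, HasDerivAt H (V x) x)
    (h2 : ∀ x, HasDerivAt V (b x) x) : IsPath H V b := by
  have hV : Continuous V := continuous_iff_continuousAt.2 (fun x => (h2 x).continuousAt)
  refine ⟨hb, fun s x => ?_, fun s x => ?_⟩
  · rw [intervalIntegral.integral_eq_sub_of_hasDerivAt (fun y _ => h2 y) (hb.intervalIntegrable _ _)]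
    ring
  · rw [intervalIntegral.integral_eq_sub_of_hasDerivAt (fun y _ => h1 y) (hV.intervalIntegrable _ _)]
    ring

private theorem E5_hcont {H V b : ℝ → ℝ} (P : IsPath H V b) : Continuous H :=
  continuous_iff_continuousAt.2 (fun x => (P.dh x).continuousAt)

private theorem E5_bnd {p t τ : ℝ} {g g1 g2 : ℝ → ℝ} {C1 C2 : Set ℝ} (G : OP p t g g1 g2) (h1 : CI C1)
    (h2 : CI C2) (m1 : ∀ x, p < x → x < t → g1 x ∈ C1) (m2 : ∀ x, p < x → x < t → g2 x ∈ C2)
    (hτ : p < τ) (hτt : τ < t) (hn : ¬ (C1 = univ ∧ C2 = univ)) :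
    ∃ M : ℝ, ∀ x, p < x → x < t → |g1 x| ≤ M := by
  rcases h1 with h1 | ⟨c, d, h1⟩
  · rcases h2 with h2 | ⟨c, d, h2⟩
    · exact absurd ⟨h1, h2⟩ hn
    · have hK : ∀ x, p < x → x < t → |g2 x| ≤ max |c| |d| := by
        intro x hx hxt
        have h := m2 x hx hxt
        rw [h2] at h
        exact abs_le_max_abs_abs h.1 h.2
      refine ⟨|g1 τ| + max |c| |d| * (t - p), fun x hx hxt => ?_⟩
      have h3 := E5_lip G.d1 hK hτ hτt hx hxt
      have h4 : |x - τ| ≤ t - p := by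
        rw [abs_le]
        constructor <;> linarith
      have h5 : max |c| |d| * |x - τ| ≤ max |c| |d| * (t - p) :=
        mul_le_mul_of_nonneg_left h4 ((abs_nonneg c).trans (le_max_left _ _))
      have h6 : |g1 x| ≤ |g1 τ| + |g1 x - g1 τ| := by
        have := abs_add_le (g1 τ) (g1 x - g1 τ)
        rwa [add_sub_cancel] at this
      linarith
  · refine ⟨max |c| |d|, fun x hx hxt => ?_⟩
    have h := m1 x hx hxt
    rw [h1] at h
    exact abs_le_max_abs_abs h.1 h.2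

private theorem E5_b {p t τ c d e : ℝ} {g g1 g2 : ℝ → ℝ} {C1 C2 : Set ℝ} (G : OP p t g g1 g2)
    (h1 : CI C1) (h2 : CI C2) (hn : ¬ (C1 = univ ∧ C2 = univ)) (m0 : ∀ x, p < x → x < t → g x ∈ Icc c d)
    (m1 : ∀ x, p < x → x < t → g1 x ∈ C1) (m2 : ∀ x, p < x → x < t → g2 x ∈ C2)
    (hτ : p < τ) (hτt : τ < t) (he : 0 < e) (hed : c + 5 * e ≤ d) (hb : ∀ x, p < x → x ≤ τ → g x ≤ c + 3 * e) :
    ∃ τ' : ℝ, p < τ' ∧ τ' ≤ τ ∧ ∃ H V b : ℝ → ℝ, IsPath H V b ∧ H τ' = g τ' ∧ V τ' = g1 τ' ∧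
      b τ' = g2 τ' ∧ ∀ x, p ≤ x → x ≤ τ' → H x ∈ Icc c d ∧ V x ∈ C1 ∧ b x ∈ C2 := by
  have hpt : p < t := hτ.trans hτt
  rcases bump G hpt h1 h2 m1 m2 with ⟨σ, hσ, hσt, hcon⟩ | hbump
  · -- `g2` is constant near `p`
    set r := min σ τ with hr
    have hpr : p < r := lt_min hσ hτ
    set τ' := (p + r) / 2 with hτ'
    have q1 : p < τ' := by rw [hτ']; linarith
    have q2 : τ' < r := by rw [hτ']; linarith
    have hrσ : r ≤ σ := min_le_left _ _
    have hrτ : r ≤ τ := min_le_right _ _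
    set k := g2 τ' with hk
    have hV : ∀ x, HasDerivAt (fun x => g1 τ' + k * (x - τ')) k x := by
      intro x
      have h := (((hasDerivAt_id x).sub_const τ').const_mul k).const_add (g1 τ')
      simpa using h
    have hH : ∀ x, HasDerivAt (fun x => g τ' + g1 τ' * (x - τ') + k / 2 * (x - τ') ^ 2)
        (g1 τ' + k * (x - τ')) x := by
      intro x
      have ha := (((hasDerivAt_id x).sub_const τ').const_mul (g1 τ')).const_add (g τ')
      have hb' := ((((hasDerivAt_id x).sub_const τ').pow 2).const_mul (k / 2))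
      have hs := ha.add hb'
      refine (hs.congr_deriv ?_)
      simp only [id]
      norm_num
      ring
    have P := E5_path (continuous_const : Continuous (fun _ : ℝ => k)) hH hV
    have e2 : ∀ x, p < x → x ≤ τ' → g2 x = k := fun x hx hxτ =>
      hcon x τ' hx (lt_of_le_of_lt hxτ (q2.trans_le hrσ)) q1 (q2.trans_le hrσ)
    have e1 : ∀ x, p < x → x < r → g1 x = g1 τ' + k * (x - τ') := by
      intro x hx hxr
      have h := E5_const (p := p) (t := r) (f := fun y => g1 y - (g1 τ' + k * (y - τ')))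
        (fun y hy hyr => by
          have h := (G.d1 y hy (by linarith)).sub (hV y)
          have h' : g2 y - k = 0 := by
            rw [hcon y τ' hy (by linarith) q1 (by linarith)]
            exact sub_self _
          rwa [h'] at h) q1 q2 hx hxr
      have h' : g1 x - (g1 τ' + k * (x - τ')) = g1 τ' - (g1 τ' + k * (τ' - τ')) := h
      rw [sub_self τ', mul_zero, add_zero, sub_self] at h'
      linarith
    have e0 : ∀ x, p < x → x < r → g x = g τ' + g1 τ' * (x - τ') + k / 2 * (x - τ') ^ 2 := by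
      intro x hx hxr
      have h := E5_const (p := p) (t := r)
        (f := fun y => g y - (g τ' + g1 τ' * (y - τ') + k / 2 * (y - τ') ^ 2))
        (fun y hy hyr => by
          have h := (G.d0 y hy (by linarith)).sub (hH y)
          have h' : g1 y - (g1 τ' + k * (y - τ')) = 0 := by
            rw [e1 y hy hyr]
            exact sub_self _
          rwa [h'] at h) q1 q2 hx hxr
      have h' : g x - (g τ' + g1 τ' * (x - τ') + k / 2 * (x - τ') ^ 2) =
        g τ' - (g τ' + g1 τ' * (τ' - τ') + k / 2 * (τ' - τ') ^ 2) := h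
      rw [sub_self τ'] at h'
      have h'' : g τ' - (g τ' + g1 τ' * 0 + k / 2 * 0 ^ 2) = 0 := by ring
      rw [h''] at h'
      linarith
    refine ⟨τ', q1, by linarith, _, _, _, P, by ring, by ring, rfl, fun x hx hxτ => ⟨?_, ?_, ?_⟩⟩
    · refine E5_lim (E5_hcont P) isClosed_Icc q1 (fun y hy hyτ => ?_) x hx hxτ
      rw [← e0 y hy (lt_of_le_of_lt hyτ q2)]
      exact m0 y hy (by linarith)
    · refine E5_lim P.vcont (E5_closed h1) q1 (fun y hy hyτ => ?_) x hx hxτ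
      rw [← e1 y hy (lt_of_le_of_lt hyτ q2)]
      exact m1 y hy (by linarith)
    · refine E5_lim P.cont (E5_closed h2) q1 (fun y hy hyτ => ?_) x hx hxτ
      rw [← e2 y hy hyτ]
      exact m2 y hy (by linarith)
  · obtain ⟨B, σ, hB, hBe, hpσ, hστ, F, F1, F2, GF, f1, f2, f3⟩ := hbump τ e hτ hτt he
    obtain ⟨M, hM⟩ := E5_bnd GF h1 h2 (fun x hx hxt => (f3 x hx hxt).2.2.1)
      (fun x hx hxt => (f3 x hx hxt).2.2.2) hτ hτt hn
    obtain ⟨H, V, b, P, k1, k2, k3⟩ := tchange GF hM h1 h2 (fun x hx hxt => (f3 x hx hxt).2.2.1)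
      (fun x hx hxt => (f3 x hx hxt).2.2.2) hτt hpσ hστ.le hB
    obtain ⟨j0, j1, j2⟩ := k1 τ hστ.le le_rfl
    obtain ⟨i0, i1, i2⟩ := f1 τ le_rfl hτt
    refine ⟨τ, hτ, le_rfl, H, V, b, P, j0.trans i0, j1.trans i1, j2.trans i2, fun x hx hxτ => ⟨?_, k3 x hx hxτ⟩⟩
    refine E5_lim (E5_hcont P) isClosed_Icc hτ (fun y hy hyτ => ?_) x hx hxτ
    have c0 := (m0 y hy (by linarith)).1
    have c1 := hb y hy hyτ
    rcases le_total y σ with h | h
    · have a1 := abs_le.1 (k2 y hy hyτ)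
      rw [f2 y hy h] at a1
      exact ⟨by linarith [a1.1], by linarith [a1.2]⟩
    · rw [(k1 y h hyτ).1]
      obtain ⟨b1, b2, -, -⟩ := f3 y hy (by linarith)
      exact ⟨by linarith, by linarith⟩

private theorem E5_main {p t τ c d : ℝ} {g g1 g2 : ℝ → ℝ} {C1 C2 : Set ℝ} (G : OP p t g g1 g2)
    (h1 : CI C1) (h2 : CI C2) (hn : ¬ (C1 = univ ∧ C2 = univ)) (m0 : ∀ x, p < x → x < t → g x ∈ Icc c d)
    (m1 : ∀ x, p < x → x < t → g1 x ∈ C1) (m2 : ∀ x, p < x → x < t → g2 x ∈ C2)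
    (hτ : p < τ) (hτt : τ < t) (hcd : c < d) :
    ∃ τ' : ℝ, p < τ' ∧ τ' ≤ τ ∧ ∃ H V b : ℝ → ℝ, IsPath H V b ∧ H τ' = g τ' ∧ V τ' = g1 τ' ∧
      b τ' = g2 τ' ∧ ∀ x, p ≤ x → x ≤ τ' → H x ∈ Icc c d ∧ V x ∈ C1 ∧ b x ∈ C2 := by
  obtain ⟨M, hM⟩ := E5_bnd G h1 h2 m1 m2 hτ hτt hn
  have hM0 : 0 ≤ M := (abs_nonneg _).trans (hM τ hτ hτt)
  set e := (d - c) / 8 with he
  have hepos : 0 < e := by rw [he]; linarith
  have hde : d = c + 8 * e := by rw [he]; ring
  set s := min τ (p + 2 * e / (M + 1)) with hs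
  have hM1 : 0 < M + 1 := by linarith
  have hps : p < s := lt_min hτ (by have := div_pos (by linarith : 0 < 2 * e) hM1; linarith)
  have hsτ : s ≤ τ := min_le_left _ _
  have hst : s < t := lt_of_le_of_lt hsτ hτt
  have hosc : ∀ x y, p < x → x ≤ s → p < y → y ≤ s → |g y - g x| ≤ 2 * e := by
    intro x y hx hxs hy hys
    have a1 := E5_lip G.d0 hM hx (by linarith) hy (by linarith)
    have a2 : |y - x| ≤ 2 * e / (M + 1) := by
      have : s ≤ p + 2 * e / (M + 1) := min_le_right _ _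
      rw [abs_le]
      constructor <;> linarith
    have a3 : M * |y - x| ≤ (M + 1) * (2 * e / (M + 1)) :=
      mul_le_mul (by linarith) a2 (abs_nonneg _) hM1.le
    have a4 : (M + 1) * (2 * e / (M + 1)) = 2 * e := by field_simp
    linarith
  by_cases hlow : ∃ x, p < x ∧ x ≤ s ∧ g x < c + e
  · obtain ⟨x0, hx0, hx0s, hg0⟩ := hlow
    obtain ⟨τ', r1, r2, r3⟩ := E5_b (e := e) G h1 h2 hn m0 m1 m2 hps hst hepos (by linarith)
      (fun x hx hxs => by
        have := (abs_le.1 (hosc x0 x hx0 hx0s hx hxs)).2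
        linarith)
    exact ⟨τ', r1, r2.trans hsτ, r3⟩
  by_cases hup : ∃ x, p < x ∧ x ≤ s ∧ d - e < g x
  · obtain ⟨x0, hx0, hx0s, hg0⟩ := hup
    have G' : OP p t (fun x => - g x) (fun x => - g1 x) (fun x => - g2 x) :=
      ⟨fun x hx hxt => (G.d0 x hx hxt).neg, fun x hx hxt => (G.d1 x hx hxt).neg,
        fun x hx hxt => (G.c2 x hx hxt).neg⟩
    have hn' : ¬ ({x | -x ∈ C1} = univ ∧ {x | -x ∈ C2} = univ) := by
      rintro ⟨u1, u2⟩
      apply hn
      constructor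
      · ext x
        have : -x ∈ {x | -x ∈ C1} := by rw [u1]; trivial
        have h' : - -x ∈ C1 := this
        rw [neg_neg] at h'
        exact ⟨fun _ => trivial, fun _ => h'⟩
      · ext x
        have : -x ∈ {x | -x ∈ C2} := by rw [u2]; trivial
        have h' : - -x ∈ C2 := this
        rw [neg_neg] at h'
        exact ⟨fun _ => trivial, fun _ => h'⟩
    obtain ⟨τ', r1, r2, H, V, b, P, s0, s1, s2, s3⟩ := E5_b (e := e) (c := -d) (d := -c) G' (E5_neg h1) (E5_neg h2) hn'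
      (fun x hx hxt => ⟨by linarith [(m0 x hx hxt).2], by linarith [(m0 x hx hxt).1]⟩)
      (fun x hx hxt => by
        show - - g1 x ∈ C1
        rw [neg_neg]
        exact m1 x hx hxt)
      (fun x hx hxt => by
        show - - g2 x ∈ C2
        rw [neg_neg]
        exact m2 x hx hxt) hps hst hepos (by linarith)
      (fun x hx hxs => by
        have := (abs_le.1 (hosc x0 x hx0 hx0s hx hxs)).1
        show - g x ≤ -d + 3 * e
        linarith)
    refine ⟨τ', r1, r2.trans hsτ, _, _, _, P.neg, ?_, ?_, ?_, fun x hx hxτ => ?_⟩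
    · show - H τ' = g τ'
      rw [s0]; ring
    · show - V τ' = g1 τ'
      rw [s1]; ring
    · show - b τ' = g2 τ'
      rw [s2]; ring
    · obtain ⟨z0, z1, z2⟩ := s3 x hx hxτ
      exact ⟨⟨by linarith [z0.2], by linarith [z0.1]⟩, z1, z2⟩
  · push Not at hlow hup
    obtain ⟨H, V, b, P, k1, k2, k3⟩ := tchange G hM h1 h2 m1 m2 hst hps le_rfl hepos
    obtain ⟨j0, j1, j2⟩ := k1 s le_rfl le_rfl
    refine ⟨s, hps, hsτ, H, V, b, P, j0, j1, j2, fun x hx hxs => ⟨?_, k3 x hx hxs⟩⟩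
    refine E5_lim (E5_hcont P) isClosed_Icc hps (fun y hy hys => ?_) x hx hxs
    have a1 := abs_le.1 (k2 y hy hys)
    exact ⟨by linarith [a1.1, hlow y hy hys], by linarith [a1.2, hup y hy hys]⟩

theorem end_left {p t τ : ℝ} {g g1 g2 : ℝ → ℝ} {C0 C1 C2 : Set ℝ} (G : OP p t g g1 g2) (h0 : CI C0)
    (h1 : CI C1) (h2 : CI C2) (m0 : ∀ x, p < x → x < t → g x ∈ C0)
    (m1 : ∀ x, p < x → x < t → g1 x ∈ C1) (m2 : ∀ x, p < x → x < t → g2 x ∈ C2)
    (hτ : p < τ) (hτt : τ < t) :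
    ∃ τ' : ℝ, p < τ' ∧ τ' ≤ τ ∧ ∃ H V b : ℝ → ℝ, IsPath H V b ∧ H τ' = g τ' ∧ V τ' = g1 τ' ∧
      b τ' = g2 τ' ∧ ∀ x, p ≤ x → x ≤ τ' → H x ∈ C0 ∧ V x ∈ C1 ∧ b x ∈ C2 := by
  by_cases hn : C1 = univ ∧ C2 = univ
  · obtain ⟨τ', q1, q2, H, V, b, P, e0, e1, e2, hm⟩ := end_free G h0 m0 hτ hτt
    refine ⟨τ', q1, q2.le, H, V, b, P, e0, e1, e2, fun x hx hxτ => ⟨hm x hx hxτ, ?_, ?_⟩⟩
    · rw [hn.1]; trivial
    · rw [hn.2]; trivial
  rcases h0 with h0 | ⟨c, d, h0⟩
  · obtain ⟨M, hM⟩ := E5_bnd G h1 h2 m1 m2 hτ hτt hn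
    obtain ⟨H, V, b, P, k1, -, k3⟩ := tchange G hM h1 h2 m1 m2 hτt hτ le_rfl one_pos
    obtain ⟨j0, j1, j2⟩ := k1 τ le_rfl le_rfl
    refine ⟨τ, hτ, le_rfl, H, V, b, P, j0, j1, j2, fun x hx hxτ => ⟨?_, k3 x hx hxτ⟩⟩
    rw [h0]; trivial
  · subst h0
    have hcd : c ≤ d := (m0 τ hτ hτt).1.trans (m0 τ hτ hτt).2
    rcases hcd.lt_or_eq with hlt | heq
    · exact E5_main G h1 h2 hn m0 m1 m2 hτ hτt hlt
    · have z0 : ∀ x, p < x → x < t → g x = c := fun x hx hxt =>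
        le_antisymm (by linarith [(m0 x hx hxt).2]) (m0 x hx hxt).1
      have z1 := E5_zero G.d0 z0
      have z2 := E5_zero G.d1 z1
      have P := E5_path (H := fun _ => c) (V := fun _ => 0) (b := fun _ => 0) continuous_const
        (fun x => hasDerivAt_const x c) (fun x => hasDerivAt_const x 0)
      refine ⟨τ, hτ, le_rfl, _, _, _, P, (z0 τ hτ hτt).symm, (z1 τ hτ hτt).symm, (z2 τ hτ hτt).symm,
        fun x _ _ => ⟨⟨le_rfl, hcd⟩, ?_, ?_⟩⟩
      · have := m1 τ hτ hτt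
        rwa [z1 τ hτ hτt] at this
      · have := m2 τ hτ hτt
        rwa [z2 τ hτ hτt] at this

end MP44e4f6
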