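import Mathlib
import Pool.Agent.Lib.MP_44e4f6_lc.E0
import Pool.Agent.Lib.MP_44e4f6_lc.E1
import Pool.Agent.Lib.MP_44e4f6_lc.E5

/-!
LEAF E6. Proof. `left_end`: (1) if some `st ∈ L3` has `st.c - st.r ≤ p < st.c + st.r`, then `g2` is Lipschitz on `(p, p + δ)`
(`(p, p + δ) ⊆` the domain), `exists_path` (Ext.lean) on `(p, p + δ)` gives a path `(H, V, b)` which agrees with `(g, g1, g2)` on
`(p, p + δ)`; take `t1 ∈ (p, min τ (p + δ))`, `VC.of_open` and `SC.of_open` (Ext.lean; on `(p, t1)`). (2) Otherwise no point of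
`[p, p + δ)` lies in the domain of a step of `L3` (induction on `L3`), so `SC L3 p t1 b` is trivial for `t1 < p + δ`; `vc_end` for
`L0, L1, L2` and `end_left` on `(p, p + δ')` give the rest.
`ends`: `left_end` at `p`, and at `q` the reflected version (apply `left_end` to `(g (-x), -g1 (-x), g2 (-x))` on `(-q, -p)` with the
lists `L0.map Stp.R, L1.map Stp.N, L2.map Stp.R, L3.map Stp.N`, see `VC.reflect`, `SC.reflect`, `map_RR`, `map_NN` in Glob.lean),
with `t1 < t2`. Glue: `a x := b1 x` for `x ≤ t1`, `g2 x` for `t1 ≤ x ≤ t2`, `b2 x` for `x ≥ t2` (continuous), `(h, v, a)` from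
`isPath_mk` with base point `t1` (Rep.lean); then `h = H1, v = V1` on `(-∞, t1]`, `h = g, v = g1` on `[t1, t2]`, `h = H2, v = V2` on
`[t2, ∞)`; `VC.glue`, `SC.glue`, `VC.congr`, `SC.congr`.
-/

namespace MP44e4f6

open Set MeasureTheory intervalIntegral

/-- value constraints on the open interval -/
def VO (L : List Stp) (p q : ℝ) (f : ℝ → ℝ) : Prop :=
  ∀ st ∈ L, ∀ x, p < x → x < q → |x - st.c| < st.r → st.lo ≤ f x ∧ f x ≤ st.hi

/-- slope constraints on the open interval -/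
def SO (L : List Stp) (p q : ℝ) (f : ℝ → ℝ) : Prop :=
  ∀ st ∈ L, ∀ x y, p < x → x ≤ y → y < q → |x - st.c| < st.r → |y - st.c| < st.r →
    st.lo * (y - x) ≤ f y - f x ∧ f y - f x ≤ st.hi * (y - x)

private theorem E6_free (L : List Stp) {p : ℝ} (h : ∀ st ∈ L, ¬ (st.c - st.r ≤ p ∧ p < st.c + st.r)) :
    ∃ δ > 0, ∀ st ∈ L, ∀ x, p ≤ x → x ≤ p + δ → ¬ |x - st.c| < st.r := by
  induction L with
  | nil => exact ⟨1, one_pos, fun st hst => absurd hst (List.not_mem_nil)⟩
  | cons st L ih =>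
    obtain ⟨δ, hδ, hL⟩ := ih (fun st' h' => h st' (List.mem_cons_of_mem _ h'))
    by_cases h1 : st.c + st.r ≤ p
    · refine ⟨δ, hδ, fun st' hst' x hx hx' hc => ?_⟩
      rcases List.mem_cons.1 hst' with rfl | hst'
      · rw [abs_lt] at hc
        linarith [hc.2]
      · exact hL st' hst' x hx hx' hc
    · push Not at h1
      have h2 : p < st.c - st.r := by
        by_contra h3
        push Not at h3
        exact h st (List.mem_cons_self) ⟨h3, h1⟩
      refine ⟨min δ (st.c - st.r - p), lt_min hδ (by linarith), fun st' hst' x hx hx' hc => ?_⟩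
      have e1 : min δ (st.c - st.r - p) ≤ δ := min_le_left _ _
      have e2 : min δ (st.c - st.r - p) ≤ st.c - st.r - p := min_le_right _ _
      rcases List.mem_cons.1 hst' with rfl | hst'
      · rw [abs_lt] at hc
        linarith [hc.1]
      · exact hL st' hst' x hx (by linarith) hc

private theorem E6_hcont {h v a : ℝ → ℝ} (P : IsPath h v a) : Continuous h := by
  rw [continuous_iff_continuousAt]
  exact fun y => (P.dh y).continuousAt

theorem left_end {L0 L1 L2 L3 : List Stp} {p q τ : ℝ} {g g1 g2 : ℝ → ℝ} (G : OP p q g g1 g2)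
    (c0 : VO L0 p q g) (c1 : VO L1 p q g1) (c2 : VO L2 p q g2) (c3 : SO L3 p q g2)
    (hτ : p < τ) (hτq : τ < q) :
    ∃ t1 : ℝ, p < t1 ∧ t1 ≤ τ ∧ ∃ H V b : ℝ → ℝ, IsPath H V b ∧ H t1 = g t1 ∧ V t1 = g1 t1 ∧
      b t1 = g2 t1 ∧ VC L0 p t1 H ∧ VC L1 p t1 V ∧ VC L2 p t1 b ∧ SC L3 p t1 b := by
  by_cases hL : ∃ st ∈ L3, st.c - st.r ≤ p ∧ p < st.c + st.r
  · obtain ⟨st, hst, hl, hr⟩ := hL
    set q' := min q (st.c + st.r) with hq'
    have hq1 : q' ≤ q := min_le_left _ _
    have hq2 : q' ≤ st.c + st.r := min_le_right _ _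
    have hpq' : p < q' := lt_min (hτ.trans hτq) hr
    have hK : ∀ x y, p < x → x ≤ y → y < q' →
        -(max |st.lo| |st.hi|) * (y - x) ≤ g2 y - g2 x ∧ g2 y - g2 x ≤ (max |st.lo| |st.hi|) * (y - x) := by
      intro x y hx hxy hy
      have h1 := c3 st hst x y hx hxy (by linarith) (by rw [abs_lt]; constructor <;> linarith)
        (by rw [abs_lt]; constructor <;> linarith)
      have h2 : 0 ≤ y - x := by linarith
      have h3 : -(max |st.lo| |st.hi|) ≤ st.lo := by
        have := neg_abs_le st.lo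
        have := le_max_left |st.lo| |st.hi|
        linarith
      have h4 : st.hi ≤ max |st.lo| |st.hi| := (le_abs_self _).trans (le_max_right _ _)
      exact ⟨(mul_le_mul_of_nonneg_right h3 h2).trans h1.1, h1.2.trans (mul_le_mul_of_nonneg_right h4 h2)⟩
    obtain ⟨H, V, b, P, -, i0, i1, i2⟩ := exists_path hpq' (fun x h1 h2 => G.d0 x h1 (h2.trans_le hq1))
      (fun x h1 h2 => G.d1 x h1 (h2.trans_le hq1)) hK
    set t1 := min τ ((p + q') / 2) with ht1
    have e1 : t1 ≤ τ := min_le_left _ _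
    have e2 : t1 ≤ (p + q') / 2 := min_le_right _ _
    have e3 : p < t1 := lt_min hτ (by linarith)
    have e4 : t1 < q' := by linarith
    refine ⟨t1, e3, e1, H, V, b, P, i0 t1 e3 e4, i1 t1 e3 e4, i2 t1 e3 e4, ?_, ?_, ?_, ?_⟩
    · refine VC.of_open e3 (E6_hcont P) fun st hst x h1 h2 h3 => ?_
      rw [i0 x h1 (h2.trans e4)]
      exact c0 st hst x h1 (by linarith) h3
    · refine VC.of_open e3 P.vcont fun st hst x h1 h2 h3 => ?_
      rw [i1 x h1 (h2.trans e4)]
      exact c1 st hst x h1 (by linarith) h3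
    · refine VC.of_open e3 P.cont fun st hst x h1 h2 h3 => ?_
      rw [i2 x h1 (h2.trans e4)]
      exact c2 st hst x h1 (by linarith) h3
    · refine SC.of_open e3 P.cont fun st hst x y h1 h2 h3 h4 h5 h6 => ?_
      rw [i2 x h1 (h2.trans e4), i2 y h3 (h4.trans e4)]
      rcases le_total x y with h | h
      · have h7 := c3 st hst x y h1 h (by linarith) h5 h6
        have h8 : 0 ≤ y - x := by linarith
        constructor
        · nlinarith [mul_le_mul_of_nonneg_right h7.1 h8]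
        · nlinarith [mul_le_mul_of_nonneg_right h7.2 h8]
      · have h7 := c3 st hst y x h3 h (by linarith) h6 h5
        have h8 : 0 ≤ x - y := by linarith
        constructor
        · nlinarith [mul_le_mul_of_nonneg_right h7.1 h8]
        · nlinarith [mul_le_mul_of_nonneg_right h7.2 h8]
  · push Not at hL
    have hpq : p < q := hτ.trans hτq
    obtain ⟨δ, hδ, hfree⟩ := E6_free L3 (p := p) fun st hst h => absurd h.2 (not_lt.2 (hL st hst h.1))
    obtain ⟨C0, k0, d0, hd0, hq0, m0, n0⟩ := vc_end L0 hpq c0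
    obtain ⟨C1, k1, d1, hd1, hq1, m1, n1⟩ := vc_end L1 hpq c1
    obtain ⟨C2, k2, d2, hd2, hq2, m2, n2⟩ := vc_end L2 hpq c2
    set η := min (min d0 d1) (min d2 δ) with hη
    have hη0 : 0 < η := lt_min (lt_min hd0 hd1) (lt_min hd2 hδ)
    have e0 : η ≤ d0 := (min_le_left _ _).trans (min_le_left _ _)
    have e1 : η ≤ d1 := (min_le_left _ _).trans (min_le_right _ _)
    have e2 : η ≤ d2 := (min_le_right _ _).trans (min_le_left _ _)
    have e3 : η ≤ δ := (min_le_right _ _).trans (min_le_right _ _)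
    set σ := min τ (p + η / 2) with hσ
    have s1 : σ ≤ τ := min_le_left _ _
    have s2 : σ ≤ p + η / 2 := min_le_right _ _
    have s3 : p < σ := lt_min hτ (by linarith)
    obtain ⟨t1, a1, a2, H, V, b, P, j0, j1, j2, hm⟩ := end_left (p := p) (t := p + η) (τ := σ)
      (g := g) (g1 := g1) (g2 := g2) (C0 := C0) (C1 := C1) (C2 := C2)
      ⟨fun x h1 h2 => G.d0 x h1 (by linarith), fun x h1 h2 => G.d1 x h1 (by linarith),
        fun x h1 h2 => G.c2 x h1 (by linarith)⟩ k0 k1 k2 (fun x h1 h2 => m0 x h1 (by linarith))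
      (fun x h1 h2 => m1 x h1 (by linarith)) (fun x h1 h2 => m2 x h1 (by linarith)) s3 (by linarith)
    refine ⟨t1, a1, a2.trans s1, H, V, b, P, j0, j1, j2, ?_, ?_, ?_, ?_⟩
    · exact n0 H t1 (by linarith) fun y h1 h2 => (hm y h1 h2).1
    · exact n1 V t1 (by linarith) fun y h1 h2 => (hm y h1 h2).2.1
    · exact n2 b t1 (by linarith) fun y h1 h2 => (hm y h1 h2).2.2
    · intro st hst x y h1 h2 h3 h4 _
      exact absurd h4 (hfree st hst x h1 (by linarith))

/-- reflection of the data -/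
private theorem E6_OP {p q : ℝ} {g g1 g2 : ℝ → ℝ} (G : OP p q g g1 g2) :
    OP (-q) (-p) (fun x => g (-x)) (fun x => - g1 (-x)) (fun x => g2 (-x)) := by
  refine ⟨fun x h1 h2 => ?_, fun x h1 h2 => ?_, fun x h1 h2 => ?_⟩
  · have h3 := (G.d0 (-x) (by linarith) (by linarith)).comp x (hasDerivAt_neg x)
    rw [mul_neg_one] at h3
    exact h3
  · have h3 := ((G.d1 (-x) (by linarith) (by linarith)).comp x (hasDerivAt_neg x)).neg
    rw [mul_neg_one, neg_neg] at h3
    exact h3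
  · exact ContinuousAt.comp (f := fun x : ℝ => -x) (g := g2) (G.c2 (-x) (by linarith) (by linarith))
      continuous_neg.continuousAt

private theorem E6_VR {L : List Stp} {p q : ℝ} {f : ℝ → ℝ} (h : VO L p q f) :
    VO (L.map Stp.R) (-q) (-p) (fun x => f (-x)) := by
  intro st hst x h1 h2 h3
  obtain ⟨st', hst', rfl⟩ := List.mem_map.1 hst
  exact h st' hst' (-x) (by linarith) (by linarith) (by
    rw [abs_neg_sub']; exact h3)

private theorem E6_VN {L : List Stp} {p q : ℝ} {f : ℝ → ℝ} (h : VO L p q f) :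
    VO (L.map Stp.N) (-q) (-p) (fun x => - f (-x)) := by
  intro st hst x h1 h2 h3
  obtain ⟨st', hst', rfl⟩ := List.mem_map.1 hst
  have := h st' hst' (-x) (by linarith) (by linarith) (by
    rw [abs_neg_sub']; exact h3)
  exact ⟨neg_le_neg this.2, neg_le_neg this.1⟩

private theorem E6_SN {L : List Stp} {p q : ℝ} {f : ℝ → ℝ} (h : SO L p q f) :
    SO (L.map Stp.N) (-q) (-p) (fun x => f (-x)) := by
  intro st hst x y h1 h2 h3 h4 h5
  obtain ⟨st', hst', rfl⟩ := List.mem_map.1 hst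
  have := h st' hst' (-y) (-x) (by linarith) (by linarith) (by linarith)
    (by rw [abs_neg_sub']; exact h5) (by rw [abs_neg_sub']; exact h4)
  constructor
  · show -st'.hi * (y - x) ≤ f (-y) - f (-x)
    linarith [this.2]
  · show f (-y) - f (-x) ≤ -st'.lo * (y - x)
    linarith [this.1]

/-- the right end -/
private theorem E6_right {L0 L1 L2 L3 : List Stp} {p q τ : ℝ} {g g1 g2 : ℝ → ℝ} (G : OP p q g g1 g2)
    (c0 : VO L0 p q g) (c1 : VO L1 p q g1) (c2 : VO L2 p q g2) (c3 : SO L3 p q g2)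
    (hτ : p < τ) (hτq : τ < q) :
    ∃ t2 : ℝ, τ ≤ t2 ∧ t2 < q ∧ ∃ H V b : ℝ → ℝ, IsPath H V b ∧ H t2 = g t2 ∧ V t2 = g1 t2 ∧
      b t2 = g2 t2 ∧ VC L0 t2 q H ∧ VC L1 t2 q V ∧ VC L2 t2 q b ∧ SC L3 t2 q b := by
  obtain ⟨t, h1, h2, H, V, b, P, i0, i1, i2, k0, k1, k2, k3⟩ := left_end (τ := -τ) (E6_OP G) (E6_VR c0) (E6_VN c1)
    (E6_VR c2) (E6_SN c3) (by linarith) (by linarith)
  refine ⟨-t, by linarith, by linarith, _, _, _, P.reflect, ?_, ?_, ?_, ?_, ?_, ?_, ?_⟩
  · simp only [neg_neg]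
    exact i0
  · simp only [neg_neg]
    rw [i1, neg_neg]
  · simp only [neg_neg]
    exact i2
  · have h := k0.reflect
    rw [map_RR, neg_neg] at h
    exact h
  · have h := k1.reflect'
    rw [map_NN, neg_neg] at h
    exact h
  · have h := k2.reflect
    rw [map_RR, neg_neg] at h
    exact h
  · have h := k3.reflect
    rw [map_NN, neg_neg] at h
    exact h

/-- gluing of three paths -/
private theorem E6_glue {p q t1 t2 : ℝ} (h1 : p < t1) (h12 : t1 < t2) (h2 : t2 < q) {g g1 g2 : ℝ → ℝ}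
    (G : OP p q g g1 g2) {H1 V1 b1 H2 V2 b2 : ℝ → ℝ} (P1 : IsPath H1 V1 b1) (P2 : IsPath H2 V2 b2)
    (i0 : H1 t1 = g t1) (i1 : V1 t1 = g1 t1) (i2 : b1 t1 = g2 t1)
    (j0 : H2 t2 = g t2) (j1 : V2 t2 = g1 t2) (j2 : b2 t2 = g2 t2) :
    ∃ h v a : ℝ → ℝ, IsPath h v a ∧
      (∀ x, x ≤ t1 → h x = H1 x ∧ v x = V1 x ∧ a x = b1 x) ∧
      (∀ x, t1 ≤ x → x ≤ t2 → h x = g x ∧ v x = g1 x ∧ a x = g2 x) ∧
      ∀ x, t2 ≤ x → h x = H2 x ∧ v x = V2 x ∧ a x = b2 x := by
  have hm : ∀ x, t1 ≤ x → x ≤ t2 → p < x ∧ x < q := fun x hx hx' => ⟨by linarith, by linarith⟩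
  have hg2 : Continuous fun x => g2 (max t1 (min x t2)) := by
    have hc : ContinuousOn g2 (Icc t1 t2) := fun x hx =>
      (G.c2 x (hm x hx.1 hx.2).1 (hm x hx.1 hx.2).2).continuousWithinAt
    exact hc.comp_continuous (by fun_prop) fun x => ⟨le_max_left _ _, max_le h12.le (min_le_right _ _)⟩
  have hb1 : Continuous fun x => b1 (min x t1) := P1.cont.comp (by fun_prop)
  have hb2 : Continuous fun x => b2 (max x t2) := P2.cont.comp (by fun_prop)
  set a : ℝ → ℝ := fun x => b1 (min x t1) + g2 (max t1 (min x t2)) + b2 (max x t2) - g2 t1 - g2 t2 with ha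
  have hac : Continuous a := (((hb1.add hg2).add hb2).sub continuous_const).sub continuous_const
  have al : ∀ x, x ≤ t1 → a x = b1 x := by
    intro x hx
    show b1 (min x t1) + g2 (max t1 (min x t2)) + b2 (max x t2) - g2 t1 - g2 t2 = _
    rw [min_eq_left hx, min_eq_left (hx.trans h12.le), max_eq_left hx, max_eq_right (hx.trans h12.le), j2]
    ring
  have am : ∀ x, t1 ≤ x → x ≤ t2 → a x = g2 x := by
    intro x hx hx'
    show b1 (min x t1) + g2 (max t1 (min x t2)) + b2 (max x t2) - g2 t1 - g2 t2 = _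
    rw [min_eq_right hx, min_eq_left hx', max_eq_right hx, max_eq_right hx', i2, j2]
    ring
  have ar : ∀ x, t2 ≤ x → a x = b2 x := by
    intro x hx
    show b1 (min x t1) + g2 (max t1 (min x t2)) + b2 (max x t2) - g2 t1 - g2 t2 = _
    rw [min_eq_right (h12.le.trans hx), min_eq_right hx, max_eq_right h12.le, max_eq_left hx, i2]
    ring
  have Q := isPath_mk hac t1 (g t1) (g1 t1)
  set v : ℝ → ℝ := fun x => g1 t1 + ∫ y in t1..x, a y with hv
  set h : ℝ → ℝ := fun x => g t1 + ∫ t in t1..x, (g1 t1 + ∫ y in t1..t, a y) with hh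
  have vl : ∀ x, x ≤ t1 → v x = V1 x := by
    intro x hx
    rw [P1.hv t1 x, i1]
    show g1 t1 + ∫ y in t1..x, a y = _
    congr 1
    apply intervalIntegral.integral_congr
    intro y hy
    rw [uIcc_of_ge hx] at hy
    exact al y hy.2
  have hl : ∀ x, x ≤ t1 → h x = H1 x := by
    intro x hx
    rw [P1.hh t1 x, i0]
    show g t1 + ∫ t in t1..x, v t = _
    congr 1
    apply intervalIntegral.integral_congr
    intro y hy
    rw [uIcc_of_ge hx] at hy
    exact vl y hy.2
  have vm : ∀ x, t1 ≤ x → x ≤ t2 → v x = g1 x := by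
    intro x hx hx'
    have : ∫ y in t1..x, a y = g1 x - g1 t1 := by
      apply intervalIntegral.integral_eq_sub_of_hasDerivAt _ (hac.intervalIntegrable _ _)
      intro y hy
      rw [uIcc_of_le hx] at hy
      rw [am y hy.1 (hy.2.trans hx')]
      exact G.d1 y (hm y hy.1 (hy.2.trans hx')).1 (hm y hy.1 (hy.2.trans hx')).2
    show g1 t1 + ∫ y in t1..x, a y = _
    rw [this]
    ring
  have hvc : Continuous v := Q.vcont
  have hm' : ∀ x, t1 ≤ x → x ≤ t2 → h x = g x := by
    intro x hx hx'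
    have : ∫ y in t1..x, v y = g x - g t1 := by
      apply intervalIntegral.integral_eq_sub_of_hasDerivAt _ (hvc.intervalIntegrable _ _)
      intro y hy
      rw [uIcc_of_le hx] at hy
      rw [vm y hy.1 (hy.2.trans hx')]
      exact G.d0 y (hm y hy.1 (hy.2.trans hx')).1 (hm y hy.1 (hy.2.trans hx')).2
    show g t1 + ∫ y in t1..x, v y = _
    rw [this]
    ring
  have vr : ∀ x, t2 ≤ x → v x = V2 x := by
    intro x hx
    rw [P2.hv t2 x, j1, Q.hv t2 x]
    have e1 : v t2 = g1 t2 := vm t2 h12.le le_rfl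
    rw [e1]
    congr 1
    apply intervalIntegral.integral_congr
    intro y hy
    rw [uIcc_of_le hx] at hy
    exact ar y hy.1
  have hr : ∀ x, t2 ≤ x → h x = H2 x := by
    intro x hx
    rw [P2.hh t2 x, j0]
    have e0 := Q.hh t2 x
    have e1 : h t2 = g t2 := hm' t2 h12.le le_rfl
    have e2 : h x = h t2 + ∫ t in t2..x, v t := e0
    rw [e2, e1]
    congr 1
    apply intervalIntegral.integral_congr
    intro y hy
    rw [uIcc_of_le hx] at hy
    exact vr y hy.1
  exact ⟨h, v, a, Q, fun x hx => ⟨hl x hx, vl x hx, al x hx⟩,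
    fun x hx hx' => ⟨hm' x hx hx', vm x hx hx', am x hx hx'⟩, fun x hx => ⟨hr x hx, vr x hx, ar x hx⟩⟩

theorem ends {L0 L1 L2 L3 : List Stp} {p q : ℝ} (hpq : p < q) {g g1 g2 : ℝ → ℝ} (G : OP p q g g1 g2)
    (c0 : VO L0 p q g) (c1 : VO L1 p q g1) (c2 : VO L2 p q g2) (c3 : SO L3 p q g2) :
    ∃ h v a : ℝ → ℝ, IsPath h v a ∧ VC L0 p q h ∧ VC L1 p q v ∧ VC L2 p q a ∧ SC L3 p q a := by
  obtain ⟨t1, a1, a2, H1, V1, b1, P1, i0, i1, i2, k0, k1, k2, k3⟩ := left_end (τ := p + (q - p) / 3) G c0 c1 c2 c3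
    (by linarith) (by linarith)
  obtain ⟨t2, a3, a4, H2, V2, b2, P2, j0, j1, j2, l0, l1, l2, l3⟩ := E6_right (τ := q - (q - p) / 3) G c0 c1 c2 c3
    (by linarith) (by linarith)
  have h12 : t1 < t2 := by linarith
  obtain ⟨h, v, a, Q, gl, gm, gr⟩ := E6_glue a1 h12 a4 G P1 P2 i0 i1 i2 j0 j1 j2
  have vo : ∀ (L : List Stp) (f : ℝ → ℝ), VO L p q f → VC L t1 t2 f := fun L f hL st hst x h1 h2 h3 =>
    hL st hst x (by linarith) (by linarith) h3
  have so : SC L3 t1 t2 g2 := fun st hst x y h1 h2 h3 h4 h5 =>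
    c3 st hst x y (by linarith) h2 (by linarith) h4 h5
  refine ⟨h, v, a, Q, ?_, ?_, ?_, ?_⟩
  · exact (k0.congr fun x _ hx => (gl x hx).1).glue
      (((vo L0 g c0).congr fun x hx hx' => (gm x hx hx').1).glue (l0.congr fun x hx _ => (gr x hx).1))
  · exact (k1.congr fun x _ hx => (gl x hx).2.1).glue
      (((vo L1 g1 c1).congr fun x hx hx' => (gm x hx hx').2.1).glue (l1.congr fun x hx _ => (gr x hx).2.1))
  · exact (k2.congr fun x _ hx => (gl x hx).2.2).glue
      (((vo L2 g2 c2).congr fun x hx hx' => (gm x hx hx').2.2).glue (l2.congr fun x hx _ => (gr x hx).2.2))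
  · exact (k3.congr fun x _ hx => (gl x hx).2.2).glue
      ((so.congr fun x hx hx' => (gm x hx hx').2.2).glue (l3.congr fun x hx _ => (gr x hx).2.2))

end MP44e4f6
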