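import Mathlib
import Pool.Agent.Lib.MP_44e4f6_lc.Dec

/-!
Computability of the certificates, and the final theorem.
-/

namespace MP44e4f6

open Set Ex

/-- environment for inputs and parameters -/
def ro (z : Inp × Par) : ℕ → ℤ × ℕ
  | 0 => z.1.1.1
  | 1 => z.1.1.2
  | 2 => z.2.1.1.1
  | 3 => z.2.1.1.2.1
  | 4 => z.2.1.1.2.2.1
  | 5 => z.2.1.1.2.2.2
  | 6 => z.2.1.2.1
  | 7 => z.2.1.2.2.1
  | 8 => z.2.1.2.2.2
  | 9 => ((z.2.2.1 : ℤ), 0)
  | 10 => ((z.2.2.2.1 : ℤ), 0)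
  | 11 => ((z.2.2.2.2 : ℤ), 0)
  | _ => (0, 0)

theorem comp_cast {α : Type} [Primcodable α] {f : α → ℕ} (hf : Computable f) :
    Computable (fun x => ((f x : ℤ), (0 : ℕ))) :=
  Computable.pair (primrec_int_natCast.to_comp.comp hf) (Computable.const 0)

theorem comp_ro (i : ℕ) : Computable (fun z : Inp × Par => ro z i) := by
  have f1 : Computable (fun z : Inp × Par => z.1) := Computable.fst
  have f2 : Computable (fun z : Inp × Par => z.2) := Computable.snd
  have f11 : Computable (fun z : Inp × Par => z.1.1) := Computable.fst.comp f1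
  have f21 : Computable (fun z : Inp × Par => z.2.1) := Computable.fst.comp f2
  have f22 : Computable (fun z : Inp × Par => z.2.2) := Computable.snd.comp f2
  have f211 : Computable (fun z : Inp × Par => z.2.1.1) := Computable.fst.comp f21
  have f212 : Computable (fun z : Inp × Par => z.2.1.2) := Computable.snd.comp f21
  have f2112 : Computable (fun z : Inp × Par => z.2.1.1.2) := Computable.snd.comp f211
  have f21122 : Computable (fun z : Inp × Par => z.2.1.1.2.2) := Computable.snd.comp f2112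
  have f2122 : Computable (fun z : Inp × Par => z.2.1.2.2) := Computable.snd.comp f212
  have f222 : Computable (fun z : Inp × Par => z.2.2.2) := Computable.snd.comp f22
  match i with
  | 0 => exact Computable.fst.comp f11
  | 1 => exact Computable.snd.comp f11
  | 2 => exact Computable.fst.comp f211
  | 3 => exact Computable.fst.comp f2112
  | 4 => exact Computable.fst.comp f21122
  | 5 => exact Computable.snd.comp f21122
  | 6 => exact Computable.fst.comp f212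
  | 7 => exact Computable.fst.comp f2122
  | 8 => exact Computable.snd.comp f2122
  | 9 => exact comp_cast (Computable.fst.comp f22)
  | 10 => exact comp_cast (Computable.fst.comp f222)
  | 11 => exact comp_cast (Computable.snd.comp f222)
  | i + 12 => exact Computable.const _

/-- environment with a step in places `20, ..., 23` -/
def ros (z : (Inp × Par) × ((ℤ × ℕ) × (ℤ × ℕ) × (ℤ × ℕ) × (ℤ × ℕ))) (i : ℕ) : ℤ × ℕ :=
  if i = 20 then z.2.1 else if i = 21 then z.2.2.1 else if i = 22 then z.2.2.2.1 else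
    if i = 23 then z.2.2.2.2 else ro z.1 i

theorem comp_ros (i : ℕ) : Computable
    (fun z : (Inp × Par) × ((ℤ × ℕ) × (ℤ × ℕ) × (ℤ × ℕ) × (ℤ × ℕ)) => ros z i) := by
  have s2 : Computable (fun z : (Inp × Par) × ((ℤ × ℕ) × (ℤ × ℕ) × (ℤ × ℕ) × (ℤ × ℕ)) => z.2) :=
    Computable.snd
  have s22 := Computable.snd.comp s2
  have s222 := Computable.snd.comp s22
  unfold ros
  by_cases h0 : i = 20
  · simp only [h0, if_true]
    exact Computable.fst.comp s2
  by_cases h1 : i = 21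
  · simp only [h1, if_true]
    norm_num
    exact Computable.fst.comp s22
  by_cases h2 : i = 22
  · simp only [h2, if_true]
    norm_num
    exact Computable.fst.comp s222
  by_cases h3 : i = 23
  · simp only [h3, if_true]
    norm_num
    exact Computable.snd.comp s222
  simp only [h0, h1, h2, h3, if_false]
  exact (comp_ro i).comp Computable.fst

theorem dc_leP {P : Inp × Par → Prop} (e1 e2 : Ex)
    (h : ∀ z, e1.ev (fun i => num (ro z i)) ≤ e2.ev (fun i => num (ro z i)) ↔ P z) : Dc P :=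
  (dc_le e1 e2 (fun i z => ro z i) comp_ro).of_eq h

theorem dc_ltP {P : Inp × Par → Prop} (e1 e2 : Ex)
    (h : ∀ z, e1.ev (fun i => num (ro z i)) < e2.ev (fun i => num (ro z i)) ↔ P z) : Dc P :=
  (dc_lt e1 e2 (fun i z => ro z i) comp_ro).of_eq h

theorem dc_leS {P : (Inp × Par) × ((ℤ × ℕ) × (ℤ × ℕ) × (ℤ × ℕ) × (ℤ × ℕ)) → Prop} (e1 e2 : Ex)
    (h : ∀ z, e1.ev (fun i => num (ros z i)) ≤ e2.ev (fun i => num (ros z i)) ↔ P z) : Dc P :=
  (dc_le e1 e2 (fun i z => ros z i) comp_ros).of_eq h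

theorem dc_ltS {P : (Inp × Par) × ((ℤ × ℕ) × (ℤ × ℕ) × (ℤ × ℕ) × (ℤ × ℕ)) → Prop} (e1 e2 : Ex)
    (h : ∀ z, e1.ev (fun i => num (ros z i)) < e2.ev (fun i => num (ros z i)) ↔ P z) : Dc P :=
  (dc_lt e1 e2 (fun i z => ros z i) comp_ros).of_eq h

section lists

theorem cl0 {α : Type} [Primcodable α] {f : α → Inp} (hf : Computable f) :
    Computable (fun x => (f x).2.1) :=
  Computable.fst.comp (Computable.snd.comp hf)

theorem cl1 {α : Type} [Primcodable α] {f : α → Inp} (hf : Computable f) :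
    Computable (fun x => (f x).2.2.1) :=
  Computable.fst.comp (Computable.snd.comp (Computable.snd.comp hf))

theorem cl2 {α : Type} [Primcodable α] {f : α → Inp} (hf : Computable f) :
    Computable (fun x => (f x).2.2.2.1) :=
  Computable.fst.comp (Computable.snd.comp (Computable.snd.comp (Computable.snd.comp hf)))

theorem cl3 {α : Type} [Primcodable α] {f : α → Inp} (hf : Computable f) :
    Computable (fun x => (f x).2.2.2.2) :=
  Computable.snd.comp (Computable.snd.comp (Computable.snd.comp (Computable.snd.comp hf)))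

end lists

/-- the part of the four alternatives about one step -/
theorem dc_alt (P Q : Inp × Par → Prop) (hP : Dc P) (hQ : Dc Q) (l : Inp → List _)
    (hl : Computable (fun z : Inp × Par => l z.1)) :
    Dc (fun z : Inp × Par => P z ∧ ∃ s ∈ (l z.1).map stepOf, s.c - s.r < num z.2.1.1.2.2.2 ∧
      num z.2.1.1.2.2.2 + num z.2.1.1.2.1 < s.c + s.r ∧ -(num z.2.1.1.2.2.1) ≤ s.lo ∧
      s.hi ≤ num z.2.1.1.2.2.1 ∧ Q z) := by
  have h1 : Dc (fun w : (Inp × Par) × ((ℤ × ℕ) × (ℤ × ℕ) × (ℤ × ℕ) × (ℤ × ℕ)) =>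
      (stepOf w.2).c - (stepOf w.2).r < num w.1.2.1.1.2.2.2 ∧
      num w.1.2.1.1.2.2.2 + num w.1.2.1.1.2.1 < (stepOf w.2).c + (stepOf w.2).r ∧
      -(num w.1.2.1.1.2.2.1) ≤ (stepOf w.2).lo ∧ (stepOf w.2).hi ≤ num w.1.2.1.1.2.2.1 ∧
      Q w.1) := by
    refine Dc.and ?_ (Dc.and ?_ (Dc.and ?_ (Dc.and ?_ (hQ.comp Computable.fst))))
    · exact dc_ltS (sub (v 20) (v 21)) (v 5) (fun z => by
        rw [ev_sub]; simp [ev, ros, ro, stepOf])
    · exact dc_ltS (add (v 5) (v 3)) (add (v 20) (v 21)) (fun z => by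
        simp [ev, ros, ro, stepOf])
    · exact dc_leS (sub (c 0) (v 4)) (v 22) (fun z => by
        rw [ev_sub]; simp [ev, ros, ro, stepOf])
    · exact dc_leS (v 23) (v 4) (fun z => by
        simp [ev, ros, ro, stepOf])
  have h2 := Dc.bex_list (P := fun z s => (stepOf s).c - (stepOf s).r < num z.2.1.1.2.2.2 ∧
      num z.2.1.1.2.2.2 + num z.2.1.1.2.1 < (stepOf s).c + (stepOf s).r ∧
      -(num z.2.1.1.2.2.1) ≤ (stepOf s).lo ∧ (stepOf s).hi ≤ num z.2.1.1.2.2.1 ∧ Q z) h1 hl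
  exact (hP.and h2).of_eq (fun z => by
    constructor
    · rintro ⟨i, s, hs, j⟩
      exact ⟨i, stepOf s, List.mem_map_of_mem hs, j⟩
    · rintro ⟨i, s, hs, j⟩
      obtain ⟨s', hs', rfl⟩ := List.mem_map.1 hs
      exact ⟨i, s', hs', j⟩)

theorem dc_nilP (l : Inp → List ((ℤ × ℕ) × (ℤ × ℕ) × (ℤ × ℕ) × (ℤ × ℕ)))
    (hl : Computable (fun z : Inp × Par => l z.1)) :
    Dc (fun z : Inp × Par => (l z.1).map stepOf = []) :=
  (dc_nil hl).of_eq (fun z => by rw [List.map_eq_nil_iff])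

theorem dc_bnd : Dc (fun z : Inp × Par =>
    BndQ (num z.1.1.1) (num z.1.1.2) (num z.2.1.1.1) (num z.2.1.1.2.1) (num z.2.1.1.2.2.1)
    (num z.2.1.1.2.2.2) (num z.2.1.2.1) (num z.2.1.2.2.1) (num z.2.1.2.2.2) (z.2.2.1 : ℚ)
    (z.1.2.1.map stepOf) (z.1.2.2.1.map stepOf) (z.1.2.2.2.1.map stepOf)) := by
  have hfst : Computable (fun z : Inp × Par => z.1) := Computable.fst
  have hT : Dc (fun _ : Inp × Par => True) :=
    ⟨fun _ => true, Computable.const true, fun x => by simp⟩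
  have i1 : Dc (fun z : Inp × Par => 0 ≤ num z.2.1.1.1) :=
    dc_leP (c 0) (v 2) (fun z => by simp [ev, ro])
  have i2 : Dc (fun z : Inp × Par => 0 < num z.2.1.1.2.1) :=
    dc_ltP (c 0) (v 3) (fun z => by simp [ev, ro])
  have i3 : Dc (fun z : Inp × Par => num z.1.1.1 ≤ num z.2.1.1.2.2.2) :=
    dc_leP (v 0) (v 5) (fun z => by simp [ev, ro])
  have i4 : Dc (fun z : Inp × Par => num z.2.1.1.2.2.2 + num z.2.1.1.2.1 ≤ num z.1.1.2) :=
    dc_leP (add (v 5) (v 3)) (v 1) (fun z => by simp [ev, ro])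
  have a00 : Dc (fun z : Inp × Par => 24 * num z.2.1.1.2.2.1 + 8 * num z.2.1.1.1 * num z.2.1.1.2.1 ^ 3
      ≤ num z.2.1.2.1 * num z.2.1.1.2.1 ^ 2 ∧ 14 * num z.2.1.1.2.2.1 +
      5 * num z.2.1.1.1 * num z.2.1.1.2.1 ^ 3 ≤ num z.2.1.2.2.1 * num z.2.1.1.2.1 ∧
      num z.2.1.1.2.2.1 ≤ num z.2.1.2.2.2) := by
    refine Dc.and ?_ (Dc.and ?_ ?_)
    · exact dc_leP (add (mul (c 24) (v 4)) (mul (mul (c 8) (v 2)) (mul (v 3) (mul (v 3) (v 3)))))
        (mul (v 6) (mul (v 3) (v 3))) (fun z => by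
          simp only [ev, ro]
          push_cast
          constructor <;> intro h <;> linarith)
    · exact dc_leP (add (mul (c 14) (v 4)) (mul (mul (c 5) (v 2)) (mul (v 3) (mul (v 3) (v 3)))))
        (mul (v 7) (v 3)) (fun z => by
          simp only [ev, ro]
          push_cast
          constructor <;> intro h <;> linarith)
    · exact dc_leP (v 4) (v 8) (fun z => by simp [ev, ro])
  have a10 : Dc (fun z : Inp × Par => 2 * num z.2.1.1.2.2.1 + num z.2.1.1.1 * num z.2.1.1.2.1 ^ 2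
      ≤ num z.2.1.2.1 * num z.2.1.1.2.1 ∧ num z.2.1.1.2.2.1 ≤ num z.2.1.2.2.1 ∧
      0 ≤ num z.2.1.2.2.2) := by
    refine Dc.and ?_ (Dc.and ?_ ?_)
    · exact dc_leP (add (mul (c 2) (v 4)) (mul (v 2) (mul (v 3) (v 3))))
        (mul (v 6) (v 3)) (fun z => by
          simp only [ev, ro]
          push_cast
          constructor <;> intro h <;> linarith)
    · exact dc_leP (v 4) (v 7) (fun z => by simp [ev, ro])
    · exact dc_leP (c 0) (v 8) (fun z => by simp [ev, ro])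
  have a20 : Dc (fun z : Inp × Par => num z.2.1.1.2.2.1 ≤ num z.2.1.2.1 ∧ 0 ≤ num z.2.1.2.2.1 ∧
      0 ≤ num z.2.1.2.2.2) := by
    refine Dc.and ?_ (Dc.and ?_ ?_)
    · exact dc_leP (v 4) (v 6) (fun z => by simp [ev, ro])
    · exact dc_leP (c 0) (v 7) (fun z => by simp [ev, ro])
    · exact dc_leP (c 0) (v 8) (fun z => by simp [ev, ro])
  have a30 : Dc (fun z : Inp × Par => 0 ≤ num z.2.1.2.1 ∧ 0 ≤ num z.2.1.2.2.1 ∧
      0 ≤ num z.2.1.2.2.2) := by
    refine Dc.and ?_ (Dc.and ?_ ?_)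
    · exact dc_leP (c 0) (v 6) (fun z => by simp [ev, ro])
    · exact dc_leP (c 0) (v 7) (fun z => by simp [ev, ro])
    · exact dc_leP (c 0) (v 8) (fun z => by simp [ev, ro])
  have n0 := dc_nilP (fun x => x.2.1) (cl0 hfst)
  have n1 := dc_nilP (fun x => x.2.2.1) (cl1 hfst)
  have n2 := dc_nilP (fun x => x.2.2.2.1) (cl2 hfst)
  have b0 := dc_alt _ _ hT a00 (fun x => x.2.1) (cl0 hfst)
  have b1 := dc_alt _ _ n0 a10 (fun x => x.2.2.1) (cl1 hfst)
  have b2 := dc_alt _ _ (n0.and n1) a20 (fun x => x.2.2.2.1) (cl2 hfst)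
  have b3 := (n0.and (n1.and n2)).and a30
  have j1 : Dc (fun z : Inp × Par => num z.2.1.2.1 + num z.2.1.1.1 * (num z.1.1.2 - num z.1.1.1) ≤
      (z.2.2.1 : ℚ)) :=
    dc_leP (add (v 6) (mul (v 2) (sub (v 1) (v 0)))) (v 9) (fun z => by
      simp only [ev, ev_sub, ro, num_nat])
  have j2 : Dc (fun z : Inp × Par => num z.2.1.2.2.1 + (num z.2.1.2.1 +
      num z.2.1.1.1 * (num z.1.1.2 - num z.1.1.1)) * (num z.1.1.2 - num z.1.1.1) ≤
      (z.2.2.1 : ℚ)) :=
    dc_leP (add (v 7) (mul (add (v 6) (mul (v 2) (sub (v 1) (v 0)))) (sub (v 1) (v 0)))) (v 9)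
      (fun z => by simp only [ev, ev_sub, ro, num_nat])
  have j3 : Dc (fun z : Inp × Par => num z.2.1.2.2.2 + (num z.2.1.2.2.1 + (num z.2.1.2.1 +
      num z.2.1.1.1 * (num z.1.1.2 - num z.1.1.1)) * (num z.1.1.2 - num z.1.1.1)) *
      (num z.1.1.2 - num z.1.1.1) ≤ (z.2.2.1 : ℚ)) :=
    dc_leP (add (v 8) (mul (add (v 7) (mul (add (v 6) (mul (v 2) (sub (v 1) (v 0))))
      (sub (v 1) (v 0)))) (sub (v 1) (v 0)))) (v 9)
      (fun z => by simp only [ev, ev_sub, ro, num_nat])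
  have all := i1.and (i2.and (i3.and (i4.and ((b0.or (b1.or (b2.or b3))).and (j1.and (j2.and j3))))))
  refine all.of_eq (fun z => ?_)
  constructor
  · rintro ⟨k1, k2, k3, k4, k5, k6, k7, k8⟩
    refine ⟨k1, k2, k3, k4, ?_, k6, k7, k8⟩
    rcases k5 with ⟨_, k5⟩ | ⟨k5, k5'⟩ | ⟨⟨k5, k5'⟩, k5''⟩ | ⟨⟨k5, k5', k5''⟩, k5'''⟩
    · exact Or.inl k5
    · exact Or.inr (Or.inl ⟨k5, k5'⟩)
    · exact Or.inr (Or.inr (Or.inl ⟨k5, k5', k5''⟩))
    · exact Or.inr (Or.inr (Or.inr ⟨k5, k5', k5'', k5'''⟩))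
  · rintro ⟨k1, k2, k3, k4, k5, k6, k7, k8⟩
    refine ⟨k1, k2, k3, k4, ?_, k6, k7, k8⟩
    rcases k5 with k5 | ⟨k5, k5'⟩ | ⟨k5, k5', k5''⟩ | ⟨k5, k5', k5'', k5'''⟩
    · exact Or.inl ⟨trivial, k5⟩
    · exact Or.inr (Or.inl ⟨k5, k5'⟩)
    · exact Or.inr (Or.inr (Or.inl ⟨⟨k5, k5'⟩, k5''⟩))
    · exact Or.inr (Or.inr (Or.inr ⟨⟨k5, k5', k5''⟩, k5'''⟩))

theorem primrec_pow : Primrec₂ (fun a b : ℕ => a ^ b) :=
  Primrec₂.unpaired'.1 Nat.Primrec.pow

theorem sg_r2 : Sg (fun x : Inp => ∃ y, R2c x y) := by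
  apply Sg.ex
  apply Dc.sg
  have hfst : Computable (fun z : Inp × Par => z.1) := Computable.fst
  have c1 : Dc (fun z : Inp × Par => num z.1.1.1 < num z.1.1.2) :=
    dc_ltP (v 0) (v 1) (fun z => by simp [ev, ro])
  have c2 : Dc (fun z : Inp × Par => ∀ s ∈ z.1.2.2.2.2, -(num z.2.1.1.1) ≤ (stepOf s).lo ∧
      (stepOf s).hi ≤ num z.2.1.1.1) := by
    refine Dc.ball_list (P := fun z s => -(num z.2.1.1.1) ≤ (stepOf s).lo ∧
      (stepOf s).hi ≤ num z.2.1.1.1) (Dc.and ?_ ?_) (cl3 hfst)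
    · exact dc_leS (sub (c 0) (v 2)) (v 22) (fun z => by
        rw [ev_sub]; simp [ev, ros, ro, stepOf])
    · exact dc_leS (v 23) (v 2) (fun z => by
        simp [ev, ros, ro, stepOf])
  have c3 := dc_bnd
  have c4 : Dc (fun z : Inp × Par => (2 + (num z.1.1.2 - num z.1.1.1)) * ((z.2.2.2.2 : ℚ) + 1) ≤
      (z.2.2.2.1 : ℚ) + 1) :=
    dc_leP (mul (add (c 2) (sub (v 1) (v 0))) (add (v 11) (c 1))) (add (v 10) (c 1))
      (fun z => by
        simp only [ev, ev_sub, ro, num_nat]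
        push_cast
        rfl)
  have c5 : Dc (fun z : Inp × Par =>
      ∀ w < (2 * z.2.2.1 * (z.2.2.2.1 + 1) + 1) ^ (3 * (z.2.2.2.2 + 2)),
      ¬ GOK ((num z.1.1.1 : ℚ) : ℝ) ((num z.1.1.2 : ℚ) : ℝ) ((num z.2.1.1.1 : ℚ) : ℝ)
        ((z.1.2.1.map stepOf).map Step.toStp) ((z.1.2.2.1.map stepOf).map Step.toStp)
        ((z.1.2.2.2.1.map stepOf).map Step.toStp) ((z.1.2.2.2.2.map stepOf).map Step.toStp)
        z.2.2.1 z.2.2.2.1 z.2.2.2.2 w) := by
    have hg := dc_grid.not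
    have hmap : Computable (fun u : (Inp × Par) × ℕ =>
        (((u.1.1, u.1.2.1.1.1), u.1.2.2), u.2)) := by
      have g1 : Computable (fun u : (Inp × Par) × ℕ => u.1) := Computable.fst
      have g2 : Computable (fun u : (Inp × Par) × ℕ => u.1.2) := Computable.snd.comp g1
      have g3 : Computable (fun u : (Inp × Par) × ℕ => u.1.2.1) := Computable.fst.comp g2
      have g4 : Computable (fun u : (Inp × Par) × ℕ => u.1.2.1.1) := Computable.fst.comp g3
      exact Computable.pair (Computable.pair (Computable.pair (Computable.fst.comp g1)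
        (Computable.fst.comp g4)) (Computable.snd.comp g2)) Computable.snd
    refine Dc.ball (P := fun (z : Inp × Par) (w : ℕ) => ¬ GOK ((num z.1.1.1 : ℚ) : ℝ) ((num z.1.1.2 : ℚ) : ℝ)
        ((num z.2.1.1.1 : ℚ) : ℝ) ((z.1.2.1.map stepOf).map Step.toStp)
        ((z.1.2.2.1.map stepOf).map Step.toStp) ((z.1.2.2.2.1.map stepOf).map Step.toStp)
        ((z.1.2.2.2.2.map stepOf).map Step.toStp) z.2.2.1 z.2.2.2.1 z.2.2.2.2 w)
      (hg.comp hmap) ?_
    have hB : Primrec (fun z : Inp × Par => z.2.2.1) :=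
      Primrec.fst.comp (Primrec.snd.comp Primrec.snd)
    have hm : Primrec (fun z : Inp × Par => z.2.2.2.1) :=
      Primrec.fst.comp (Primrec.snd.comp (Primrec.snd.comp Primrec.snd))
    have hN : Primrec (fun z : Inp × Par => z.2.2.2.2) :=
      Primrec.snd.comp (Primrec.snd.comp (Primrec.snd.comp Primrec.snd))
    apply Primrec.to_comp
    exact primrec_pow.comp (Primrec.nat_add.comp (Primrec.nat_mul.comp (Primrec.nat_mul.comp
      (Primrec.const 2) hB) (Primrec.nat_add.comp hm (Primrec.const 1))) (Primrec.const 1))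
      (Primrec.nat_mul.comp (Primrec.const 3) (Primrec.nat_add.comp hN (Primrec.const 2)))
  exact c1.and (c2.and (c3.and (c4.and c5)))

/-! the third predicate -/

def rt (z : Inp × ((ℤ × ℕ) × (ℤ × ℕ))) : ℕ → ℤ × ℕ
  | 0 => z.1.1.1
  | 1 => z.1.1.2
  | 2 => z.2.1
  | _ => z.2.2

def rts (z : (Inp × ((ℤ × ℕ) × (ℤ × ℕ))) × ((ℤ × ℕ) × (ℤ × ℕ) × (ℤ × ℕ) × (ℤ × ℕ))) : ℕ → ℤ × ℕ
  | 0 => z.1.1.1.1
  | 1 => z.1.1.1.2
  | 2 => z.1.2.1
  | 3 => z.2.1
  | 4 => z.2.2.1
  | _ => z.1.2.2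

theorem comp_rt (i : ℕ) : Computable (fun z : Inp × ((ℤ × ℕ) × (ℤ × ℕ)) => rt z i) := by
  have f11 : Computable (fun z : Inp × ((ℤ × ℕ) × (ℤ × ℕ)) => z.1.1) :=
    Computable.fst.comp Computable.fst
  match i with
  | 0 => exact Computable.fst.comp f11
  | 1 => exact Computable.snd.comp f11
  | 2 => exact Computable.fst.comp Computable.snd
  | i + 3 => exact Computable.snd.comp Computable.snd

theorem comp_rts (i : ℕ) : Computable
    (fun z : (Inp × ((ℤ × ℕ) × (ℤ × ℕ))) × ((ℤ × ℕ) × (ℤ × ℕ) × (ℤ × ℕ) × (ℤ × ℕ)) => rts z i) := by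
  have f1 : Computable (fun z : (Inp × ((ℤ × ℕ) × (ℤ × ℕ))) ×
      ((ℤ × ℕ) × (ℤ × ℕ) × (ℤ × ℕ) × (ℤ × ℕ)) => z.1) := Computable.fst
  have f111 := Computable.fst.comp (Computable.fst.comp f1)
  have f12 := Computable.snd.comp f1
  have f2 : Computable (fun z : (Inp × ((ℤ × ℕ) × (ℤ × ℕ))) ×
      ((ℤ × ℕ) × (ℤ × ℕ) × (ℤ × ℕ) × (ℤ × ℕ)) => z.2) := Computable.snd
  match i with
  | 0 => exact Computable.fst.comp f111
  | 1 => exact Computable.snd.comp f111
  | 2 => exact Computable.fst.comp f12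
  | 3 => exact Computable.fst.comp f2
  | 4 => exact Computable.fst.comp (Computable.snd.comp f2)
  | i + 5 => exact Computable.snd.comp f12

theorem sg_r3 : Sg R3c := by
  have g0 : Computable (fun x : Inp => (x, (((0 : ℤ), (0 : ℕ)), ((0 : ℤ), (0 : ℕ))))) :=
    Computable.pair Computable.id (Computable.const _)
  have hid : Computable (fun x : Inp => x) := Computable.id
  have c1 : Dc (fun x : Inp => num x.1.1 < num x.1.2) := by
    have := (dc_lt (v 0) (v 1) (fun i z => rt z i) comp_rt).comp g0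
    exact this.of_eq (fun z => by simp [ev, rt])
  have w : ∀ l : Inp → List ((ℤ × ℕ) × (ℤ × ℕ) × (ℤ × ℕ) × (ℤ × ℕ)), Computable l →
      Dc (fun x : Inp => ∀ s ∈ l x, num x.1.1 < (stepOf s).c ∧ (stepOf s).c < num x.1.2 ∧
        0 < (stepOf s).r) := by
    intro l hl
    have g1 : Computable (fun w : Inp × ((ℤ × ℕ) × (ℤ × ℕ) × (ℤ × ℕ) × (ℤ × ℕ)) =>
        ((w.1, (((0 : ℤ), (0 : ℕ)), ((0 : ℤ), (0 : ℕ)))), w.2)) :=
      Computable.pair (Computable.pair Computable.fst (Computable.const _)) Computable.snd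
    refine Dc.ball_list (P := fun x s => num x.1.1 < (stepOf s).c ∧ (stepOf s).c < num x.1.2 ∧
        0 < (stepOf s).r) (Dc.and ?_ (Dc.and ?_ ?_)) hl
    · exact ((dc_lt (v 0) (v 3) (fun i z => rts z i) comp_rts).comp g1).of_eq
        (fun z => by simp [ev, rts, stepOf])
    · exact ((dc_lt (v 3) (v 1) (fun i z => rts z i) comp_rts).comp g1).of_eq
        (fun z => by simp [ev, rts, stepOf])
    · exact ((dc_lt (c 0) (v 4) (fun i z => rts z i) comp_rts).comp g1).of_eq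
        (fun z => by simp [ev, rts, stepOf])
  refine Sg.or c1.not.sg (Sg.or (w _ (cl0 hid)).not.sg (Sg.or (w _ (cl1 hid)).not.sg
    (Sg.or (w _ (cl2 hid)).not.sg (Sg.ex (Dc.sg ?_)))))
  refine Dc.and ?_ (Dc.and ?_ (Dc.and ?_ ?_))
  · exact (dc_lt (v 0) (v 2) (fun i z => rt z i) comp_rt).of_eq (fun z => by simp [ev, rt])
  · exact (dc_lt (v 2) (v 3) (fun i z => rt z i) comp_rt).of_eq (fun z => by simp [ev, rt])
  · exact (dc_lt (v 3) (v 1) (fun i z => rt z i) comp_rt).of_eq (fun z => by simp [ev, rt])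
  · refine Dc.ball_list (P := fun (z : Inp × ((ℤ × ℕ) × (ℤ × ℕ))) s =>
      num z.2.2 ≤ (stepOf s).c - (stepOf s).r ∨ (stepOf s).c + (stepOf s).r ≤ num z.2.1)
      (Dc.or ?_ ?_) (cl3 Computable.fst)
    · exact (dc_le (v 5) (sub (v 3) (v 4)) (fun i z => rts z i) comp_rts).of_eq
        (fun z => by rw [ev_sub]; simp [ev, rts, stepOf])
    · exact (dc_le (add (v 3) (v 4)) (v 2) (fun i z => rts z i) comp_rts).of_eq
        (fun z => by simp [ev, rts, stepOf])

/-- the decision theorem -/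
theorem decidable_main : ∃ D : Inp → Bool, Computable D ∧ ∀ x : Inp, num x.1.1 < num x.1.2 →
    (∀ d < 4, ∀ s ∈ tup x d, num x.1.1 < s.c ∧ s.c < num x.1.2 ∧ 0 < s.r) →
    {t : ℝ | t ∈ Ioo ((num x.1.1 : ℚ) : ℝ) ((num x.1.2 : ℚ) : ℝ) ∧
      ∀ s ∈ tup x 3, t ∉ s.dom}.Finite →
    (D x = true ↔ Consistent (Ioo ((num x.1.1 : ℚ) : ℝ) ((num x.1.2 : ℚ) : ℝ)) 3 (tup x)) := by
  have h1 : Sg (fun x : Inp => ∃ K, R1c x K) := Sg.ex sg_cert
  obtain ⟨D, hD, hD'⟩ := Sg.choose h1 (sg_r2.or sg_r3) r_cases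
  refine ⟨D, hD, fun x hpq hwf hfin => ?_⟩
  constructor
  · intro h
    obtain ⟨K, hK⟩ := (hD' x).1 h
    exact r1_sound hK
  · intro h
    by_contra hcon
    rw [Bool.not_eq_true] at hcon
    rcases (hD' x).2 hcon with ⟨y, hy⟩ | h3
    · exact r2_sound hy hfin h
    · rcases h3 with h3 | h3 | h3 | h3 | ⟨y, i1, i2, i3, i4⟩
      · exact h3 hpq
      · exact h3 (fun s hs => hwf 0 (by norm_num) (stepOf s) (List.mem_map_of_mem hs))
      · exact h3 (fun s hs => hwf 1 (by norm_num) (stepOf s) (List.mem_map_of_mem hs))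
      · exact h3 (fun s hs => hwf 2 (by norm_num) (stepOf s) (List.mem_map_of_mem hs))
      · have i2' : ((num y.1 : ℚ) : ℝ) < ((num y.2 : ℚ) : ℝ) := by exact_mod_cast i2
        have i1' : ((num x.1.1 : ℚ) : ℝ) < ((num y.1 : ℚ) : ℝ) := by exact_mod_cast i1
        have i3' : ((num y.2 : ℚ) : ℝ) < ((num x.1.2 : ℚ) : ℝ) := by exact_mod_cast i3
        refine Set.Ioo_infinite i2' (hfin.subset ?_)
        intro t ht
        refine ⟨⟨i1'.trans ht.1, ht.2.trans i3'⟩, fun s hs hd => ?_⟩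
        obtain ⟨s', hs', rfl⟩ := List.mem_map.1 hs
        have hd' : |t - (stepOf s').c| < (stepOf s').r := hd
        rw [abs_lt] at hd'
        rcases i4 s' hs' with j | j
        · have j' : ((num y.2 : ℚ) : ℝ) ≤ (stepOf s').c - (stepOf s').r := by exact_mod_cast j
          linarith [ht.2, hd'.1]
        · have j' : ((stepOf s').c : ℝ) + (stepOf s').r ≤ ((num y.1 : ℚ) : ℝ) := by exact_mod_cast j
          linarith [ht.1, hd'.2]

end MP44e4f6
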