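import Mathlib
import Pool.Agent.Lib.MP_44e4f6_lc.Fin

/-!
The decision theorem for all `m ≥ 3`.
-/

namespace MP44e4f6

open Set MeasureTheory

theorem it_add (d : ℕ) : ∀ (n : ℕ) (g : ℝ → ℝ),
    iteratedDeriv d (iteratedDeriv n g) = iteratedDeriv (n + d) g
  | 0, g => by rw [iteratedDeriv_zero, Nat.zero_add]
  | n + 1, g => by
    have e : n + 1 + d = (n + d) + 1 := by omega
    rw [iteratedDeriv_succ', it_add d n (deriv g), e, iteratedDeriv_succ']

theorem cd_it {U : Set ℝ} (hU : IsOpen U) (k : ℕ) : ∀ (n : ℕ) (g : ℝ → ℝ),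
    ContDiffOn ℝ ((n + k : ℕ) : WithTop ℕ∞) g U → ContDiffOn ℝ (k : WithTop ℕ∞) (iteratedDeriv n g) U
  | 0, g, h => by
    rw [Nat.zero_add] at h
    rw [iteratedDeriv_zero]
    exact h
  | n + 1, g, h => by
    rw [iteratedDeriv_succ']
    apply cd_it hU k n
    have e : ((n + 1 + k : ℕ) : WithTop ℕ∞) = ((n + k : ℕ) : WithTop ℕ∞) + 1 := by
      push_cast
      ring
    rw [e, contDiffOn_succ_iff_deriv_of_isOpen hU] at h
    exact h.2.2

theorem anti_on {p q : ℝ} (hpq : p < q) (k : ℕ) (g' : ℝ → ℝ)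
    (hg : ContDiffOn ℝ (k : WithTop ℕ∞) g' (Ioo p q)) : ∀ n : ℕ, ∃ g : ℝ → ℝ,
    ContDiffOn ℝ ((n + k : ℕ) : WithTop ℕ∞) g (Ioo p q) ∧
      ∀ d, EqOn (iteratedDeriv (n + d) g) (iteratedDeriv d g') (Ioo p q)
  | 0 => ⟨g', by rw [Nat.zero_add]; exact hg, fun d => by rw [Nat.zero_add]; exact fun x _ => rfl⟩
  | n + 1 => by
    obtain ⟨g1, h1, h2⟩ := anti_on hpq k g' hg n
    have hU : IsOpen (Ioo p q) := isOpen_Ioo
    have hc : ContinuousOn g1 (Ioo p q) := h1.continuousOn
    set x0 := (p + q) / 2 with hx0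
    have hx0' : x0 ∈ Ioo p q := ⟨by linarith, by linarith⟩
    have hd : ∀ x ∈ Ioo p q, HasDerivAt (fun x => ∫ y in x0..x, g1 y) (g1 x) x := by
      intro x hx
      apply intervalIntegral.integral_hasDerivAt_right
      · apply ContinuousOn.intervalIntegrable
        apply hc.mono
        intro y hy
        rcases le_total x0 x with h | h
        · rw [uIcc_of_le h] at hy
          exact ⟨hx0'.1.trans_le hy.1, hy.2.trans_lt hx.2⟩
        · rw [uIcc_of_ge h] at hy
          exact ⟨hx.1.trans_le hy.1, hy.2.trans_lt hx0'.2⟩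
      · exact hc.stronglyMeasurableAtFilter hU x hx
      · exact (hc x hx).continuousAt (hU.mem_nhds hx)
    have hE : EqOn (deriv (fun x => ∫ y in x0..x, g1 y)) g1 (Ioo p q) :=
      fun x hx => (hd x hx).deriv
    refine ⟨fun x => ∫ y in x0..x, g1 y, ?_, fun d => ?_⟩
    · have e : ((n + 1 + k : ℕ) : WithTop ℕ∞) = ((n + k : ℕ) : WithTop ℕ∞) + 1 := by
        push_cast
        ring
      rw [e, contDiffOn_succ_iff_deriv_of_isOpen hU]
      refine ⟨fun x hx => (hd x hx).differentiableAt.differentiableWithinAt,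
        fun h => absurd h (by simp), h1.congr hE⟩
    · have e : n + 1 + d = (n + d) + 1 := by omega
      rw [e, iteratedDeriv_succ']
      exact (hE.iteratedDeriv_of_isOpen hU (n + d)).trans (h2 d)

/-- reduction to `m = 3` -/
theorem consistent_shift {p q : ℝ} (hpq : p < q) (n : ℕ) (f : ℕ → List Step)
    (hbot : ∀ d < n, f d = []) :
    Consistent (Ioo p q) 3 (fun d => f (n + d)) ↔ Consistent (Ioo p q) (n + 3) f := by
  constructor
  · rintro ⟨g', hC, hB, hL⟩
    obtain ⟨g, h1, h2⟩ := anti_on hpq 2 g' hC n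
    refine ⟨g, h1, ?_, ?_⟩
    · intro d hd s hs x hx
      rcases lt_or_ge d n with h3 | h3
      · rw [hbot d h3] at hs
        exact absurd hs List.not_mem_nil
      · obtain ⟨e, rfl⟩ := Nat.exists_eq_add_of_le h3
        rw [h2 e hx.1]
        exact hB e (by omega) s hs x hx
    · intro s hs x hx y hy hxy
      have e : n + 3 - 1 = n + 2 := rfl
      rw [e, h2 2 hx.1, h2 2 hy.1]
      exact hL s hs x hx y hy hxy
  · rintro ⟨g, hC, hB, hL⟩
    refine ⟨iteratedDeriv n g, cd_it isOpen_Ioo 2 n g hC, ?_, ?_⟩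
    · intro d hd s hs x hx
      rw [it_add]
      exact hB (n + d) (by omega) s hs x hx
    · intro s hs x hx y hy hxy
      rw [it_add]
      exact hL s hs x hx y hy hxy

/-- the last four components -/
def red (x : Input) : Inp :=
  (x.1, (x.2.getD (x.2.length - 4) [], x.2.getD (x.2.length - 3) [], x.2.getD (x.2.length - 2) [],
    x.2.getD (x.2.length - 1) []))

theorem primrec_red : Primrec red := by
  have hl : Primrec (fun x : Input => x.2) := Primrec.snd
  have hn : Primrec (fun x : Input => x.2.length) := Primrec.list_length.comp hl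
  have h : ∀ k : ℕ, Primrec (fun x : Input => x.2.getD (x.2.length - k) []) := fun k =>
    (Primrec.list_getD _).comp hl (Primrec.nat_sub.comp hn (Primrec.const k))
  exact Primrec.pair Primrec.fst (Primrec.pair (h 4) (Primrec.pair (h 3) (Primrec.pair (h 2) (h 1))))

theorem tup_red {x : Input} {n : ℕ} (hx : x.2.length = n + 4) :
    tup (red x) = fun d => tuple x (n + d) := by
  funext d
  match d with
  | 0 => simp [tup, red, tuple, hx]
  | 1 =>
    have e : n + 4 - 3 = n + 1 := by omega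
    simp [tup, red, tuple, hx, e]
  | 2 =>
    have e : n + 4 - 2 = n + 2 := by omega
    simp [tup, red, tuple, hx, e]
  | 3 =>
    have e : n + 4 - 1 = n + 3 := by omega
    simp [tup, red, tuple, hx, e]
  | d + 4 =>
    have h : x.2[n + (d + 4)]? = none := List.getElem?_eq_none (by omega)
    simp [tup, tuple, h]

/-- the decision theorem -/
theorem decidable_all : ∃ D : Input → Bool, Computable D ∧ ∀ (x : Input) (p q : ℚ) (m : ℕ),
    p = num x.1.1 → q = num x.1.2 → p < q → x.2.length = m + 1 → 3 ≤ m →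
    (∀ d, ∀ s ∈ tuple x d, p < s.c ∧ s.c < q ∧ 0 < s.r) → (∀ d, d + 3 < m → tuple x d = []) →
    {t : ℝ | t ∈ Ioo (p : ℝ) q ∧ ∀ s ∈ tuple x m, t ∉ s.dom}.Finite →
    (D x = true ↔ Consistent (Ioo (p : ℝ) q) m (tuple x)) := by
  obtain ⟨D, hD, h⟩ := decidable_main
  refine ⟨fun x => D (red x), hD.comp primrec_red.to_comp, ?_⟩
  rintro x p q m rfl rfl hpq hlen hm hwf hbot hfin
  obtain ⟨n, rfl⟩ : ∃ n, m = n + 3 := ⟨m - 3, by omega⟩
  have e := tup_red (n := n) hlen
  have hpq' : ((num x.1.1 : ℚ) : ℝ) < ((num x.1.2 : ℚ) : ℝ) := by exact_mod_cast hpq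
  rw [← consistent_shift hpq' n (tuple x) (fun d hd => hbot d (by omega)), ← e]
  apply h (red x) hpq
  · intro d _ s hs
    rw [e] at hs
    exact hwf _ s hs
  · rw [e]
    exact hfin

end MP44e4f6
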