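import Mathlib
import Pool.Agent.Lib.MP_44e4f6_lc.Input

/-!
Codes of basis elements of `D^m(U)`, where the open interval `U` may be unbounded.
-/

namespace MP44e4f6

/-- the open interval `U` with the end points coded by `a` and `b`; `none` stands for `-∞` and for `+∞` -/
def ivl (a b : Option (ℤ × ℕ)) : Set ℝ :=
  {t | (∀ c ∈ a, ((num c : ℚ) : ℝ) < t) ∧ ∀ c ∈ b, t < ((num c : ℚ) : ℝ)}

/-- an input: the codes of the end points of `U`, and the list `[f 0, ..., f m]`, where each `f d` is given by the list of the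
codes of its single step functions -/
abbrev InputE : Type :=
  (Option (ℤ × ℕ) × Option (ℤ × ℕ)) × List (List ((ℤ × ℕ) × (ℤ × ℕ) × (ℤ × ℕ) × (ℤ × ℕ)))

/-- the step function `f d` -/
def fam (l : List (List ((ℤ × ℕ) × (ℤ × ℕ) × (ℤ × ℕ) × (ℤ × ℕ)))) (d : ℕ) : List Step :=
  (l.getD d []).map stepOf

end MP44e4f6
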