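import Mathlib
import Pool.Agent.Lib.MP_44e4f6_lc.Defs
import Pool.Agent.Lib.MP_44e4f6_lc.Glob
import Pool.Agent.Lib.MP_44e4f6_lc.PP
import Pool.Agent.Lib.MP_44e4f6_lc.Ext
import Pool.Agent.Lib.MP_44e4f6_lc.Main
import Pool.Agent.Lib.MP_44e4f6_lc.B6
import Pool.Agent.Lib.MP_44e4f6_lc.E6

/-!
The main theorem without a hypothesis on `f m`, in terms of step functions.
-/

namespace MP44e4f6

open Set MeasureTheory intervalIntegral

/-- a consistent tuple has a solution with Lipschitz second derivative (of the `n`-th derivative) -/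
theorem gf_any {p q : ℝ} (hpq : p < q) (n : ℕ) (f : ℕ → List Step) (g : ℝ → ℝ)
    (hg : Witness (Ioo p q) (n + 3) f g) :
    ∃ K : ℝ, 0 ≤ K ∧ ∃ h v a : ℝ → ℝ, IsPath h v a ∧
      GF ((f n).map Step.toStp) ((f (n + 1)).map Step.toStp) ((f (n + 2)).map Step.toStp)
        ((f (n + 3)).map Step.toStp) K p q h v a := by
  obtain ⟨hC, hB, hL⟩ := hg
  have hC' : ContDiffOn ℝ ((n + 2 : ℕ) : WithTop ℕ∞) g (Ioo p q) := hC
  have hopen : IsOpen (Ioo p q) := isOpen_Ioo
  have hder : ∀ k < n + 2, ∀ x, p < x → x < q →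
      HasDerivAt (iteratedDeriv k g) (iteratedDeriv (k + 1) g x) x := by
    intro k hk x h1 h2
    have hx : x ∈ Ioo p q := ⟨h1, h2⟩
    have e1 : ContDiffAt ℝ ((n + 2 : ℕ) : WithTop ℕ∞) g x := hC'.contDiffAt (hopen.mem_nhds hx)
    have e2 : DifferentiableAt ℝ (iteratedDeriv k g) x := by
      have e3 : DifferentiableOn ℝ (iteratedDerivWithin k g (Ioo p q)) (Ioo p q) :=
        hC'.differentiableOn_iteratedDerivWithin (by exact_mod_cast hk) hopen.uniqueDiffOn
      have e4 : DifferentiableAt ℝ (iteratedDerivWithin k g (Ioo p q)) x :=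
        (e3 x hx).differentiableAt (hopen.mem_nhds hx)
      apply e4.congr_of_eventuallyEq
      filter_upwards [hopen.mem_nhds hx] with y hy
      exact (iteratedDerivWithin_of_isOpen hopen hy).symm
    rw [iteratedDeriv_succ]
    exact e2.hasDerivAt
  have hcont : ∀ x, p < x → x < q → ContinuousAt (iteratedDeriv (n + 2) g) x := by
    intro x h1 h2
    have hx : x ∈ Ioo p q := ⟨h1, h2⟩
    have e3 : ContinuousOn (iteratedDerivWithin (n + 2) g (Ioo p q)) (Ioo p q) :=
      hC'.continuousOn_iteratedDerivWithin le_rfl hopen.uniqueDiffOn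
    have e4 := (e3 x hx).continuousAt (hopen.mem_nhds hx)
    apply e4.congr
    filter_upwards [hopen.mem_nhds hx] with y hy
    exact iteratedDerivWithin_of_isOpen hopen hy
  have G : OP p q (iteratedDeriv n g) (iteratedDeriv (n + 1) g) (iteratedDeriv (n + 2) g) :=
    ⟨hder n (by omega), hder (n + 1) (by omega), hcont⟩
  have hmem : ∀ {k : ℕ} {st : Stp}, st ∈ (f k).map Step.toStp →
      ∃ s ∈ f k, s.toStp = st := fun h => List.mem_map.1 h
  have c0 : VO ((f n).map Step.toStp) p q (iteratedDeriv n g) := by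
    intro st hst x h1 h2 h3
    obtain ⟨s, hs, rfl⟩ := hmem hst
    exact hB n (by omega) s hs x ⟨⟨h1, h2⟩, h3⟩
  have c1 : VO ((f (n + 1)).map Step.toStp) p q (iteratedDeriv (n + 1) g) := by
    intro st hst x h1 h2 h3
    obtain ⟨s, hs, rfl⟩ := hmem hst
    exact hB (n + 1) (by omega) s hs x ⟨⟨h1, h2⟩, h3⟩
  have c2 : VO ((f (n + 2)).map Step.toStp) p q (iteratedDeriv (n + 2) g) := by
    intro st hst x h1 h2 h3
    obtain ⟨s, hs, rfl⟩ := hmem hst
    exact hB (n + 2) (by omega) s hs x ⟨⟨h1, h2⟩, h3⟩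
  have c3 : SO ((f (n + 3)).map Step.toStp) p q (iteratedDeriv (n + 2) g) := by
    intro st hst x y h1 h2 h3 h4 h5
    obtain ⟨s, hs, rfl⟩ := hmem hst
    exact slope_of_belowL (s := s)
      (fun hne => hL s hs x ⟨⟨h1, h2.trans_lt h3⟩, h4⟩ y ⟨⟨h1.trans_le h2, h3⟩, h5⟩ hne) h2
  obtain ⟨h, v, a, P, i0, i1, i2, i3⟩ := ends hpq G c0 c1 c2 c3
  obtain ⟨H, V, b, Q, ⟨K, hK⟩, _, _, _, _, _, _, j0, j1, j2, j3⟩ := bglob P hpq.le i0 i1 i2 i3
  have hle : K ≤ |K| := le_abs_self K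
  exact ⟨|K|, abs_nonneg K, H, V, b, Q, j0, j1, j2, j3, hK.weaken (by linarith) hle⟩

/-- from a path to a piecewise polynomial solution -/
theorem witness_of_gf {p q : ℝ} (hpq : p < q) (n : ℕ) (f : ℕ → List Step)
    (hbot : ∀ d < n, f d = []) {K : ℝ} {h v a : ℝ → ℝ} (P : IsPath h v a)
    (F : GF ((f n).map Step.toStp) ((f (n + 1)).map Step.toStp) ((f (n + 2)).map Step.toStp)
      ((f (n + 3)).map Step.toStp) K p q h v a) :
    ∃ h : ℝ → ℝ, Witness (Ioo p q) (n + 3) f h ∧ PP p q (n + 3) h := by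
  obtain ⟨H, V, b, Q, hPL, _, _, _, _, _, _, G⟩ := gglob P hpq.le F
  have hHc : Continuous H := by
    rw [continuous_iff_continuousAt]
    exact fun y => (Q.dh y).continuousAt
  have hPP : PP p q 3 H := ((hPL.toPP hpq.le).integrate Q.dv Q.cont).integrate Q.dh Q.vcont
  have it0 : iteratedDeriv n (anti H n) = H := by
    have := iteratedDeriv_anti hHc 0 n
    rwa [Nat.add_zero, iteratedDeriv_zero] at this
  have it1 : iteratedDeriv (n + 1) (anti H n) = V := by
    rw [iteratedDeriv_anti hHc 1 n, Q.it1]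
  have it2 : iteratedDeriv (n + 2) (anti H n) = b := by
    rw [iteratedDeriv_anti hHc 2 n, Q.it2]
  refine ⟨anti H n, ⟨?_, ?_, ?_⟩, ?_⟩
  · exact (anti_contDiff Q.contDiff n).contDiffOn
  · intro d hd s hs x hx
    rcases lt_or_ge d n with h1 | h1
    · rw [hbot d h1] at hs
      exact absurd hs List.not_mem_nil
    · have h2 : d = n ∨ d = n + 1 ∨ d = n + 2 := by omega
      rcases h2 with rfl | rfl | rfl
      · rw [it0]
        exact G.c0 s.toStp (List.mem_map_of_mem hs) x hx.1.1.le hx.1.2.le hx.2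
      · rw [it1]
        exact G.c1 s.toStp (List.mem_map_of_mem hs) x hx.1.1.le hx.1.2.le hx.2
      · rw [it2]
        exact G.c2 s.toStp (List.mem_map_of_mem hs) x hx.1.1.le hx.1.2.le hx.2
  · intro s hs x hx y hy hxy
    have e : n + 3 - 1 = n + 2 := rfl
    rw [e, it2]
    apply belowL_of_slope _ _ hxy
    · intro h1
      exact G.c3 s.toStp (List.mem_map_of_mem hs) x y hx.1.1.le h1 hy.1.2.le hx.2 hy.2
    · intro h1
      exact G.c3 s.toStp (List.mem_map_of_mem hs) y x hy.1.1.le h1 hx.1.2.le hy.2 hx.2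
  · have := anti_PP hHc hPP n
    rwa [Nat.add_comm 3 n] at this

/-- the spline theorem -/
theorem main_any {p q : ℝ} (hpq : p < q) (n : ℕ) (f : ℕ → List Step) (hbot : ∀ d < n, f d = [])
    (g : ℝ → ℝ) (hg : Witness (Ioo p q) (n + 3) f g) :
    ∃ h : ℝ → ℝ, Witness (Ioo p q) (n + 3) f h ∧ PP p q (n + 3) h := by
  obtain ⟨K, _, h, v, a, P, F⟩ := gf_any hpq n f g hg
  exact witness_of_gf hpq n f hbot P F

end MP44e4f6
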