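import Mathlib
import Pool.Agent.Lib.MP_44e4f6_lc.Gen
import Pool.Agent.Lib.MP_44e4f6_lc.MainB

/-!
Consistency is recursively enumerable.
-/

namespace MP44e4f6

open Set MeasureTheory

theorem r1_complete {x : Inp} (hpq : num x.1.1 < num x.1.2)
    (hc : Consistent (Ioo ((num x.1.1 : ℚ) : ℝ) ((num x.1.2 : ℚ) : ℝ)) 3 (tup x)) :
    ∃ K, R1c x K := by
  obtain ⟨g, hg⟩ := hc
  have hpq' : ((num x.1.1 : ℚ) : ℝ) < ((num x.1.2 : ℚ) : ℝ) := by exact_mod_cast hpq
  obtain ⟨K, _, h, v, a, P, F⟩ := gf_any hpq' 0 (tup x) g hg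
  obtain ⟨k, hk⟩ := exists_nat_ge K
  obtain ⟨κ, hκ⟩ := num_surjective (k : ℚ)
  refine ⟨κ, Cert.complete hpq ⟨h, v, a, P, F.c0, F.c1, F.c2, F.c3, ?_⟩⟩
  have e : ((num κ : ℚ) : ℝ) = (k : ℝ) := by rw [hκ]; push_cast; rfl
  rw [e]
  exact F.sb.weaken (by linarith) hk

theorem sg_consistent : Sg (fun x : Inp => num x.1.1 < num x.1.2 ∧
    Consistent (Ioo ((num x.1.1 : ℚ) : ℝ) ((num x.1.2 : ℚ) : ℝ)) 3 (tup x)) := by
  have h1 : Sg (fun x : Inp => ∃ K, R1c x K) := Sg.ex sg_cert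
  have g0 : Computable (fun x : Inp => (x, (((0 : ℤ), (0 : ℕ)), ((0 : ℤ), (0 : ℕ))))) :=
    Computable.pair Computable.id (Computable.const _)
  have c1 : Dc (fun x : Inp => num x.1.1 < num x.1.2) := by
    have := (dc_lt (.v 0) (.v 1) (fun i z => rt z i) comp_rt).comp g0
    exact this.of_eq (fun z => by simp [Ex.ev, rt])
  obtain ⟨c, hc, h⟩ := c1.sg.and h1
  refine ⟨c, hc, fun x => ?_⟩
  rw [← h x]
  constructor
  · rintro ⟨i1, i2⟩
    exact ⟨i1, r1_complete i1 i2⟩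
  · rintro ⟨i1, K, i2⟩
    exact ⟨i1, r1_sound i2⟩

theorem Sg.rePred {α : Type} [Primcodable α] {P : α → Prop} (h : Sg P) : REPred P := by
  obtain ⟨c, hc, h⟩ := h
  have h1 : Partrec (fun a => Nat.rfind (fun n => (Part.some (c a n) : Part Bool))) :=
    Partrec.rfind hc.partrec₂
  refine h1.dom_re.of_eq (fun a => ?_)
  rw [h a, Nat.rfind_dom]
  constructor
  · rintro ⟨n, h1, _⟩
    exact ⟨n, by simpa using h1⟩
  · rintro ⟨n, h1⟩
    exact ⟨n, by simpa using h1, fun _ => trivial⟩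

theorem sg_all : Sg (fun x : Input => num x.1.1 < num x.1.2 ∧ 4 ≤ x.2.length ∧
    (∀ d, d + 4 < x.2.length → tuple x d = []) ∧
    Consistent (Ioo ((num x.1.1 : ℚ) : ℝ) ((num x.1.2 : ℚ) : ℝ)) (x.2.length - 1) (tuple x)) := by
  have hlen : Computable (fun x : Input => x.2.length) :=
    (Primrec.list_length.comp Primrec.snd).to_comp
  have hred : Computable red := primrec_red.to_comp
  obtain ⟨c, hc, h⟩ := sg_consistent
  have s1 : Sg (fun x : Input => num x.1.1 < num x.1.2 ∧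
      Consistent (Ioo ((num x.1.1 : ℚ) : ℝ) ((num x.1.2 : ℚ) : ℝ)) 3 (tup (red x))) :=
    ⟨fun x n => c (red x) n, hc.comp (hred.comp Computable.fst) Computable.snd,
      fun x => h (red x)⟩
  have d1 : Dc (fun x : Input => 4 ≤ x.2.length) := by
    apply Dc.of_primrec
    exact Primrec.nat_le.comp (Primrec.const 4) (Primrec.list_length.comp Primrec.snd)
  have d2 : Dc (fun x : Input => ∀ d < x.2.length - 4, x.2.getD d [] = []) := by
    refine Dc.ball (P := fun (x : Input) d => x.2.getD d [] = []) ?_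
      ((Primrec.nat_sub.comp (Primrec.list_length.comp Primrec.snd) (Primrec.const 4)).to_comp)
    apply dc_nil
    exact ((Primrec.list_getD _).comp (Primrec.snd.comp Primrec.fst) Primrec.snd).to_comp
  obtain ⟨c', hc', h'⟩ := (d1.and d2).sg.and s1
  refine ⟨c', hc', fun x => ?_⟩
  rw [← h' x]
  have key : 4 ≤ x.2.length → (∀ d, d + 4 < x.2.length → tuple x d = []) →
      ((num x.1.1 : ℚ) : ℝ) < ((num x.1.2 : ℚ) : ℝ) →
      (Consistent (Ioo ((num x.1.1 : ℚ) : ℝ) ((num x.1.2 : ℚ) : ℝ)) 3 (tup (red x)) ↔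
      Consistent (Ioo ((num x.1.1 : ℚ) : ℝ) ((num x.1.2 : ℚ) : ℝ)) (x.2.length - 1) (tuple x)) := by
    intro h4 hbot hpq
    obtain ⟨n, hn⟩ : ∃ n, x.2.length = n + 4 := ⟨x.2.length - 4, by omega⟩
    have e := tup_red (n := n) hn
    have e2 : x.2.length - 1 = n + 3 := by omega
    rw [e, e2]
    exact consistent_shift hpq n (tuple x) (fun d hd => hbot d (by omega))
  have hb : (∀ d < x.2.length - 4, x.2.getD d [] = []) ↔
      (∀ d, d + 4 < x.2.length → tuple x d = []) := by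
    constructor
    · intro h0 d hd
      unfold tuple
      rw [h0 d (by omega)]
      rfl
    · intro h0 d hd
      have := h0 d (by omega)
      unfold tuple at this
      exact List.map_eq_nil_iff.1 this
  constructor
  · rintro ⟨i1, i2, i3, i4⟩
    exact ⟨⟨i2, hb.2 i3⟩, i1, (key i2 i3 (by exact_mod_cast i1)).2 i4⟩
  · rintro ⟨⟨i2, i3⟩, i1, i4⟩
    exact ⟨i1, i2, hb.1 i3, (key i2 (hb.1 i3) (by exact_mod_cast i1)).1 i4⟩

end MP44e4f6
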