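import Mathlib
import Pool.Agent.Lib.MP_44e4f6_lc.MainB

/-!
Unbounded intervals: the part of `U` outside the domains of the steps does not matter.
-/

namespace MP44e4f6

open Set MeasureTheory intervalIntegral

theorem consistent_sub {p q : ℝ} (hpq : p < q) (n : ℕ) (f : ℕ → List Step)
    (hbot : ∀ d < n, f d = []) {U : Set ℝ} (hsub : Ioo p q ⊆ U)
    (hU : ∀ d, ∀ s ∈ f d, ∀ x ∈ U ∩ s.dom, p ≤ x ∧ x ≤ q) :
    Consistent U (n + 3) f ↔ Consistent (Ioo p q) (n + 3) f := by
  constructor
  · rintro ⟨g, hC, hB, hL⟩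
    exact ⟨g, hC.mono hsub, fun d hd s hs x hx => hB d hd s hs x ⟨hsub hx.1, hx.2⟩,
      fun s hs x hx y hy hxy => hL s hs x ⟨hsub hx.1, hx.2⟩ y ⟨hsub hy.1, hy.2⟩ hxy⟩
  · rintro ⟨g, hg⟩
    obtain ⟨K, _, H, V, b, Q, G⟩ := gf_any hpq n f g hg
    have hHc : Continuous H := by
      rw [continuous_iff_continuousAt]
      exact fun y => (Q.dh y).continuousAt
    have it0 : iteratedDeriv n (anti H n) = H := by
      have := iteratedDeriv_anti hHc 0 n
      rwa [Nat.add_zero, iteratedDeriv_zero] at this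
    have it1 : iteratedDeriv (n + 1) (anti H n) = V := by
      rw [iteratedDeriv_anti hHc 1 n, Q.it1]
    have it2 : iteratedDeriv (n + 2) (anti H n) = b := by
      rw [iteratedDeriv_anti hHc 2 n, Q.it2]
    refine ⟨anti H n, ?_, ?_, ?_⟩
    · exact (anti_contDiff Q.contDiff n).contDiffOn
    · intro d hd s hs x hx
      rcases lt_or_ge d n with h1 | h1
      · rw [hbot d h1] at hs
        exact absurd hs List.not_mem_nil
      · obtain ⟨i1, i2⟩ := hU d s hs x hx
        have h2 : d = n ∨ d = n + 1 ∨ d = n + 2 := by omega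
        rcases h2 with rfl | rfl | rfl
        · rw [it0]
          exact G.c0 s.toStp (List.mem_map_of_mem hs) x i1 i2 hx.2
        · rw [it1]
          exact G.c1 s.toStp (List.mem_map_of_mem hs) x i1 i2 hx.2
        · rw [it2]
          exact G.c2 s.toStp (List.mem_map_of_mem hs) x i1 i2 hx.2
    · intro s hs x hx y hy hxy
      have e : n + 3 - 1 = n + 2 := rfl
      obtain ⟨i1, i2⟩ := hU (n + 3) s hs x hx
      obtain ⟨j1, j2⟩ := hU (n + 3) s hs y hy
      rw [e, it2]
      apply belowL_of_slope _ _ hxy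
      · intro h1
        exact G.c3 s.toStp (List.mem_map_of_mem hs) x y i1 h1 j2 hx.2 hy.2
      · intro h1
        exact G.c3 s.toStp (List.mem_map_of_mem hs) y x j1 h1 i2 hy.2 hx.2

end MP44e4f6
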