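import Mathlib
import Pool.Agent.Lib.MP_44e4f6_lc.Semi
import Pool.Agent.Lib.MP_44e4f6_lc.UB
import Pool.Agent.Lib.MP_44e4f6_lc.InputE

/-!
Consistency is recursively enumerable, all intervals `U`.
-/

namespace MP44e4f6

open Set MeasureTheory

/-- bounded inputs -/
def Good (x : Input) : Prop := num x.1.1 < num x.1.2 ∧ 4 ≤ x.2.length ∧
  (∀ d, d + 4 < x.2.length → tuple x d = []) ∧
  Consistent (Ioo ((num x.1.1 : ℚ) : ℝ) ((num x.1.2 : ℚ) : ℝ)) (x.2.length - 1) (tuple x)

/-- the bounded input with the bound `N` -/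
def cut (z : InputE × ℕ) : Input :=
  ((z.1.1.1.getD (-(z.2 : ℤ), 0), z.1.1.2.getD ((z.2 : ℤ), 0)), z.1.2)

/-- all steps lie in `[-N, N]` -/
def Big (z : InputE × ℕ) : Prop :=
  ∀ l ∈ z.1.2, ∀ s ∈ l, num (-(z.2 : ℤ), 0) ≤ (stepOf s).c - (stepOf s).r ∧
    (stepOf s).c + (stepOf s).r ≤ num ((z.2 : ℤ), 0)

theorem computable_cut : Computable cut := by
  have hc : Computable (fun z : InputE × ℕ => (z.2 : ℤ)) :=
    Computable.fst.comp (comp_cast Computable.snd)
  have hn : Computable (fun z : InputE × ℕ => (-(z.2 : ℤ))) :=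
    primrec_int_neg.to_comp.comp hc
  have h1 : Computable (fun z : InputE × ℕ => z.1.1.1) :=
    Computable.fst.comp (Computable.fst.comp Computable.fst)
  have h2 : Computable (fun z : InputE × ℕ => z.1.1.2) :=
    Computable.snd.comp (Computable.fst.comp Computable.fst)
  exact Computable.pair (Computable.pair
    (Computable.option_getD h1 (Computable.pair hn (Computable.const 0)))
    (Computable.option_getD h2 (Computable.pair hc (Computable.const 0))))
    (Computable.snd.comp Computable.fst)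

private def rb {α : Type} (n : α → ℕ) (s : α → (ℤ × ℕ) × (ℤ × ℕ) × (ℤ × ℕ) × (ℤ × ℕ)) :
    ℕ → α → ℤ × ℕ
  | 0 => fun z => (-(n z : ℤ), 0)
  | 1 => fun z => ((n z : ℤ), 0)
  | 2 => fun z => (s z).1
  | _ => fun z => (s z).2.1

private theorem comp_rb {α : Type} [Primcodable α] {n : α → ℕ}
    {s : α → (ℤ × ℕ) × (ℤ × ℕ) × (ℤ × ℕ) × (ℤ × ℕ)} (hn : Computable n) (hs : Computable s) (i : ℕ) :
    Computable (rb n s i) := by
  have hc : Computable (fun z => ((n z : ℤ), (0 : ℕ))) := comp_cast hn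
  have h1 : Computable (fun z => (n z : ℤ)) := Computable.fst.comp hc
  have h2 : Computable (fun z => -(n z : ℤ)) := primrec_int_neg.to_comp.comp h1
  have h3 : Computable (fun z => (-(n z : ℤ), (0 : ℕ))) := Computable.pair h2 (Computable.const 0)
  have h4 : Computable (fun z => (s z).1) := Computable.fst.comp hs
  have h5 : Computable (fun z => (s z).2.1) := Computable.fst.comp (Computable.snd.comp hs)
  match i with
  | 0 => exact h3
  | 1 => exact hc
  | 2 => exact h4
  | i + 3 => exact h5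

private theorem dc_box {α : Type} [Primcodable α] {n : α → ℕ}
    {s : α → (ℤ × ℕ) × (ℤ × ℕ) × (ℤ × ℕ) × (ℤ × ℕ)} (hn : Computable n) (hs : Computable s) :
    Dc (fun z => num (-(n z : ℤ), 0) ≤ (stepOf (s z)).c - (stepOf (s z)).r ∧
      (stepOf (s z)).c + (stepOf (s z)).r ≤ num ((n z : ℤ), 0)) := by
  refine Dc.and ?_ ?_
  · exact (dc_le (.v 0) (.sub (.v 2) (.v 3)) (rb n s) (comp_rb hn hs)).of_eq
      (fun z => by rw [Ex.ev_sub]; simp only [Ex.ev, rb, stepOf])
  · exact (dc_le (.add (.v 2) (.v 3)) (.v 1) (rb n s) (comp_rb hn hs)).of_eq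
      (fun z => by simp only [Ex.ev, rb, stepOf])

theorem dc_big : Dc Big := by
  refine Dc.ball_list (P := fun (z : InputE × ℕ) l => ∀ s ∈ l,
    num (-(z.2 : ℤ), 0) ≤ (stepOf s).c - (stepOf s).r ∧
    (stepOf s).c + (stepOf s).r ≤ num ((z.2 : ℤ), 0)) ?_ (Computable.snd.comp Computable.fst)
  refine Dc.ball_list (P := fun (w : (InputE × ℕ) × List ((ℤ × ℕ) × (ℤ × ℕ) × (ℤ × ℕ) × (ℤ × ℕ))) s =>
    num (-(w.1.2 : ℤ), 0) ≤ (stepOf s).c - (stepOf s).r ∧
    (stepOf s).c + (stepOf s).r ≤ num ((w.1.2 : ℤ), 0)) ?_ Computable.snd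
  exact dc_box (n := fun z : ((InputE × ℕ) × List ((ℤ × ℕ) × (ℤ × ℕ) × (ℤ × ℕ) × (ℤ × ℕ))) ×
    ((ℤ × ℕ) × (ℤ × ℕ) × (ℤ × ℕ) × (ℤ × ℕ)) => z.1.1.2) (s := fun z => z.2)
    (Computable.snd.comp (Computable.fst.comp Computable.fst)) Computable.snd

theorem num_neg_cast (N : ℕ) : num (-(N : ℤ), 0) = -(N : ℚ) := by
  unfold num
  push_cast
  simp

theorem num_cast (N : ℕ) : num ((N : ℤ), 0) = (N : ℚ) := by
  unfold num
  push_cast
  simp

theorem ex_big (l : List (List ((ℤ × ℕ) × (ℤ × ℕ) × (ℤ × ℕ) × (ℤ × ℕ)))) :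
    ∃ N : ℕ, ∀ M, N ≤ M → ∀ k ∈ l, ∀ s ∈ k, -(M : ℚ) ≤ (stepOf s).c - (stepOf s).r ∧
      (stepOf s).c + (stepOf s).r ≤ (M : ℚ) := by
  have h1 : ∀ k : List ((ℤ × ℕ) × (ℤ × ℕ) × (ℤ × ℕ) × (ℤ × ℕ)), ∃ N : ℕ, ∀ M, N ≤ M →
      ∀ s ∈ k, -(M : ℚ) ≤ (stepOf s).c - (stepOf s).r ∧
      (stepOf s).c + (stepOf s).r ≤ (M : ℚ) := by
    intro k
    induction k with
    | nil => exact ⟨0, fun M _ s hs => absurd hs List.not_mem_nil⟩
    | cons t k ih =>
      obtain ⟨N, hN⟩ := ih
      obtain ⟨N', hN'⟩ := exists_nat_ge (|(stepOf t).c| + |(stepOf t).r|)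
      refine ⟨max N N', fun M hM s hs => ?_⟩
      rcases List.mem_cons.1 hs with rfl | hs
      · have e1 : (N' : ℚ) ≤ M := by exact_mod_cast (le_max_right N N').trans hM
        have e2 := neg_abs_le (stepOf s).c
        have e3 := le_abs_self (stepOf s).c
        have e4 := neg_abs_le (stepOf s).r
        have e5 := le_abs_self (stepOf s).r
        constructor <;> linarith
      · exact hN M ((le_max_left _ _).trans hM) s hs
  induction l with
  | nil => exact ⟨0, fun M _ s hs => absurd hs List.not_mem_nil⟩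
  | cons t k ih =>
    obtain ⟨N, hN⟩ := ih
    obtain ⟨N', hN'⟩ := h1 t
    refine ⟨max N N', fun M hM k' hk' => ?_⟩
    rcases List.mem_cons.1 hk' with rfl | hk'
    · exact hN' M ((le_max_right _ _).trans hM)
    · exact hN M ((le_max_left _ _).trans hM) k' hk'

theorem cut_iff {x : InputE} {N : ℕ} (hB : Big (x, N)) (h4 : 4 ≤ x.2.length)
    (hbot : ∀ d, d + 4 < x.2.length → fam x.2 d = [])
    (hlt : num (cut (x, N)).1.1 < num (cut (x, N)).1.2) :
    Consistent (ivl x.1.1 x.1.2) (x.2.length - 1) (fam x.2) ↔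
      Consistent (Ioo ((num (cut (x, N)).1.1 : ℚ) : ℝ) ((num (cut (x, N)).1.2 : ℚ) : ℝ))
        (x.2.length - 1) (fam x.2) := by
  obtain ⟨n, hn⟩ : ∃ n, x.2.length - 1 = n + 3 := ⟨x.2.length - 4, by omega⟩
  rw [hn]
  apply consistent_sub (by exact_mod_cast hlt) n (fam x.2) (fun d hd => hbot d (by omega))
  · intro t ht
    refine ⟨fun c hc => ?_, fun c hc => ?_⟩
    · have e : (cut (x, N)).1.1 = c := by
        show x.1.1.getD _ = c
        rw [Option.mem_def.1 hc]; rfl
      rw [← e]; exact ht.1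
    · have e : (cut (x, N)).1.2 = c := by
        show x.1.2.getD _ = c
        rw [Option.mem_def.1 hc]; rfl
      rw [← e]; exact ht.2
  · intro d s hs t ht
    have hs' : ∃ l ∈ x.2, ∃ s' ∈ l, stepOf s' = s := by
      obtain ⟨s', hs', e⟩ := List.mem_map.1 hs
      refine ⟨x.2.getD d [], ?_, s', hs', e⟩
      by_cases hd : d < x.2.length
      · rw [List.getD_eq_getElem _ _ hd]
        exact List.getElem_mem hd
      · rw [List.getD_eq_default _ _ (by omega)] at hs'
        exact absurd hs' List.not_mem_nil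
    obtain ⟨l, hl, s', hs', rfl⟩ := hs'
    obtain ⟨b1, b2⟩ := hB l hl s' hs'
    have hd : |t - (stepOf s').c| < (stepOf s').r := ht.2
    rw [abs_lt] at hd
    have b1' : ((num (-(N : ℤ), 0) : ℚ) : ℝ) ≤ (stepOf s').c - (stepOf s').r := by
      exact_mod_cast b1
    have b2' : ((stepOf s').c : ℝ) + (stepOf s').r ≤ ((num ((N : ℤ), 0) : ℚ) : ℝ) := by
      exact_mod_cast b2
    constructor
    · rcases h1 : x.1.1 with _ | c
      · have e : (cut (x, N)).1.1 = (-(N : ℤ), 0) := by
          show x.1.1.getD _ = _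
          rw [h1]; rfl
        rw [e]; linarith [hd.1]
      · have e : (cut (x, N)).1.1 = c := by
          show x.1.1.getD _ = c
          rw [h1]; rfl
        rw [e]; exact (ht.1.1 c (Option.mem_def.2 h1)).le
    · rcases h1 : x.1.2 with _ | c
      · have e : (cut (x, N)).1.2 = ((N : ℤ), 0) := by
          show x.1.2.getD _ = _
          rw [h1]; rfl
        rw [e]; linarith [hd.2]
      · have e : (cut (x, N)).1.2 = c := by
          show x.1.2.getD _ = c
          rw [h1]; rfl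
        rw [e]; exact (ht.1.2 c (Option.mem_def.2 h1)).le

theorem sg_good : Sg Good := sg_all

theorem re_main : REPred (fun x : InputE => (∀ a ∈ x.1.1, ∀ b ∈ x.1.2, num a < num b) ∧
    4 ≤ x.2.length ∧ (∀ d, d + 4 < x.2.length → fam x.2 d = []) ∧
    Consistent (ivl x.1.1 x.1.2) (x.2.length - 1) (fam x.2)) := by
  apply Sg.rePred
  have h1 : Sg (fun x : InputE => ∃ N : ℕ, Big (x, N) ∧ Good (cut (x, N))) := by
    apply Sg.ex (P := fun (x : InputE) (N : ℕ) => Big (x, N) ∧ Good (cut (x, N)))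
    exact (dc_big.sg).and (sg_good.comp computable_cut)
  refine h1.of_eq (fun x => ?_)
  constructor
  · rintro ⟨N, hB, hlt, h4, hbot, hc⟩
    have hbot' : ∀ d, d + 4 < x.2.length → fam x.2 d = [] := hbot
    refine ⟨fun a ha b hb => ?_, h4, hbot', ?_⟩
    · have e1 : (cut (x, N)).1.1 = a := by
        show x.1.1.getD _ = a
        rw [Option.mem_def.1 ha]; rfl
      have e2 : (cut (x, N)).1.2 = b := by
        show x.1.2.getD _ = b
        rw [Option.mem_def.1 hb]; rfl
      rw [e1, e2] at hlt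
      exact hlt
    · exact (cut_iff hB h4 hbot' hlt).2 hc
  · rintro ⟨hab, h4, hbot, hc⟩
    obtain ⟨N, hN⟩ := ex_big x.2
    have hE : ∃ M, N ≤ M ∧ 0 < M ∧ num (cut (x, M)).1.1 < num (cut (x, M)).1.2 := by
      rcases ha : x.1.1 with _ | a
      · rcases hb : x.1.2 with _ | b
        · refine ⟨N + 1, by omega, by omega, ?_⟩
          show num (x.1.1.getD _) < num (x.1.2.getD _)
          rw [ha, hb]
          show num (-((N + 1 : ℕ) : ℤ), 0) < num (((N + 1 : ℕ) : ℤ), 0)
          rw [num_neg_cast, num_cast]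
          have : (0 : ℚ) < ((N + 1 : ℕ) : ℚ) := by exact_mod_cast Nat.succ_pos N
          linarith
        · obtain ⟨k, hk⟩ := exists_nat_gt (-(num b))
          refine ⟨N + 1 + k, by omega, by omega, ?_⟩
          show num (x.1.1.getD _) < num (x.1.2.getD _)
          rw [ha, hb]
          show num (-((N + 1 + k : ℕ) : ℤ), 0) < num b
          rw [num_neg_cast]
          have : (k : ℚ) ≤ ((N + 1 + k : ℕ) : ℚ) := by exact_mod_cast (by omega)
          linarith
      · rcases hb : x.1.2 with _ | b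
        · obtain ⟨k, hk⟩ := exists_nat_gt (num a)
          refine ⟨N + 1 + k, by omega, by omega, ?_⟩
          show num (x.1.1.getD _) < num (x.1.2.getD _)
          rw [ha, hb]
          show num a < num (((N + 1 + k : ℕ) : ℤ), 0)
          rw [num_cast]
          have : (k : ℚ) ≤ ((N + 1 + k : ℕ) : ℚ) := by exact_mod_cast (by omega)
          linarith
        · refine ⟨N + 1, by omega, by omega, ?_⟩
          show num (x.1.1.getD _) < num (x.1.2.getD _)
          rw [ha, hb]
          exact hab a (Option.mem_def.2 ha) b (Option.mem_def.2 hb)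
    obtain ⟨M, hM, _, hlt⟩ := hE
    have hB : Big (x, M) := by
      intro l hl s hs
      show num (-(M : ℤ), 0) ≤ _ ∧ _ ≤ num ((M : ℤ), 0)
      rw [num_neg_cast, num_cast]
      exact hN M hM l hl s hs
    exact ⟨M, hB, hlt, h4, hbot, (cut_iff hB h4 hbot hlt).1 hc⟩

end MP44e4f6
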