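import Mathlib
import Pool.Agent.Lib.MP_44e4f6_lc.SemiE

/-!
Solutions with a given Lipschitz constant of the derivative of order `m - 1`.
-/

namespace MP44e4f6

open Set MeasureTheory

/-- the code of `(p + q) / 2` -/
def mid (z : (ℤ × ℕ) × (ℤ × ℕ)) : ℤ × ℕ :=
  (z.1.1 * ((z.2.2 + 1 : ℕ) : ℤ) + z.2.1 * ((z.1.2 + 1 : ℕ) : ℤ),
    2 * (z.1.2 * z.2.2 + z.1.2 + z.2.2) + 1)

/-- the code of `(q - p) / 2` -/
def rad (z : (ℤ × ℕ) × (ℤ × ℕ)) : ℤ × ℕ :=
  (z.2.1 * ((z.1.2 + 1 : ℕ) : ℤ) + -(z.1.1 * ((z.2.2 + 1 : ℕ) : ℤ)),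
    2 * (z.1.2 * z.2.2 + z.1.2 + z.2.2) + 1)

theorem num_mid (z : (ℤ × ℕ) × (ℤ × ℕ)) : num (mid z) = (num z.1 + num z.2) / 2 := by
  unfold num mid
  have h1 : ((z.1.2 : ℚ) + 1) ≠ 0 := by positivity
  have h2 : ((z.2.2 : ℚ) + 1) ≠ 0 := by positivity
  have h3 : ((2 * (z.1.2 * z.2.2 + z.1.2 + z.2.2) + 1 : ℕ) : ℚ) + 1 =
      2 * (((z.1.2 : ℚ) + 1) * ((z.2.2 : ℚ) + 1)) := by
    push_cast
    ring
  rw [h3]
  push_cast
  field_simp

theorem num_rad (z : (ℤ × ℕ) × (ℤ × ℕ)) : num (rad z) = (num z.2 - num z.1) / 2 := by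
  unfold num rad
  have h1 : ((z.1.2 : ℚ) + 1) ≠ 0 := by positivity
  have h2 : ((z.2.2 : ℚ) + 1) ≠ 0 := by positivity
  have h3 : ((2 * (z.1.2 * z.2.2 + z.1.2 + z.2.2) + 1 : ℕ) : ℚ) + 1 =
      2 * (((z.1.2 : ℚ) + 1) * ((z.2.2 : ℚ) + 1)) := by
    push_cast
    ring
  rw [h3]
  push_cast
  field_simp
  ring

private theorem den_pr : Primrec (fun z : (ℤ × ℕ) × (ℤ × ℕ) =>
    2 * (z.1.2 * z.2.2 + z.1.2 + z.2.2) + 1) :=
  Primrec.succ.comp (Primrec.nat_mul.comp (Primrec.const 2) (Primrec.nat_add.comp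
    (Primrec.nat_add.comp (Primrec.nat_mul.comp (Primrec.snd.comp Primrec.fst)
      (Primrec.snd.comp Primrec.snd)) (Primrec.snd.comp Primrec.fst))
    (Primrec.snd.comp Primrec.snd)))

theorem primrec_mid : Primrec mid :=
  Primrec.pair (primrec_int_add.comp
    (primrec_int_mul.comp (Primrec.fst.comp Primrec.fst)
      (primrec_int_natCast.comp (Primrec.succ.comp (Primrec.snd.comp Primrec.snd))))
    (primrec_int_mul.comp (Primrec.fst.comp Primrec.snd)
      (primrec_int_natCast.comp (Primrec.succ.comp (Primrec.snd.comp Primrec.fst))))) den_pr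

theorem primrec_rad : Primrec rad :=
  Primrec.pair (primrec_int_add.comp
    (primrec_int_mul.comp (Primrec.fst.comp Primrec.snd)
      (primrec_int_natCast.comp (Primrec.succ.comp (Primrec.snd.comp Primrec.fst))))
    (primrec_int_neg.comp (primrec_int_mul.comp (Primrec.fst.comp Primrec.fst)
      (primrec_int_natCast.comp (Primrec.succ.comp (Primrec.snd.comp Primrec.snd)))))) den_pr

/-- the single step `U ↘ [-K, K]` -/
def lipStep (z : (ℤ × ℕ) × (ℤ × ℕ)) (K : ℕ) : (ℤ × ℕ) × (ℤ × ℕ) × (ℤ × ℕ) × (ℤ × ℕ) :=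
  (mid z, rad z, (-(K : ℤ), 0), ((K : ℤ), 0))

/-- the input with the additional step in the last family -/
def redK (z : Input × ℕ) : Inp :=
  (z.1.1, ((red z.1).2.1, (red z.1).2.2.1, (red z.1).2.2.2.1,
    (red z.1).2.2.2.2 ++ [lipStep z.1.1 z.2]))

theorem primrec_redK : Primrec redK := by
  have hr : Primrec (fun z : Input × ℕ => red z.1) := primrec_red.comp Primrec.fst
  have h2 : Primrec (fun z : Input × ℕ => (red z.1).2) := Primrec.snd.comp hr
  have h22 : Primrec (fun z : Input × ℕ => (red z.1).2.2) := Primrec.snd.comp h2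
  have h222 : Primrec (fun z : Input × ℕ => (red z.1).2.2.2) := Primrec.snd.comp h22
  have he : Primrec (fun z : Input × ℕ => z.1.1) := Primrec.fst.comp Primrec.fst
  have hK : Primrec (fun z : Input × ℕ => (z.2 : ℤ)) := primrec_int_natCast.comp Primrec.snd
  have hs : Primrec (fun z : Input × ℕ => lipStep z.1.1 z.2) :=
    Primrec.pair (primrec_mid.comp he) (Primrec.pair (primrec_rad.comp he)
      (Primrec.pair (Primrec.pair (primrec_int_neg.comp hK) (Primrec.const 0))
        (Primrec.pair hK (Primrec.const 0))))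
  exact Primrec.pair he (Primrec.pair (Primrec.fst.comp h2) (Primrec.pair (Primrec.fst.comp h22)
    (Primrec.pair (Primrec.fst.comp h222) (Primrec.list_append.comp (Primrec.snd.comp h222)
      (Primrec.list_cons.comp hs (Primrec.const []))))))

/-- the family with an additional step of order `m` -/
def addStep (f : ℕ → List Step) (m : ℕ) (s : Step) (d : ℕ) : List Step :=
  if d = m then f d ++ [s] else f d

theorem tup_redK {x : Input} {n K : ℕ} (hx : x.2.length = n + 4) :
    tup (redK (x, K)) = fun d => addStep (tuple x) (n + 3) (stepOf (lipStep x.1 K)) (n + d) := by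
  have h := tup_red hx
  have e : ∀ d, tup (red x) d = tuple x (n + d) := fun d => congrFun h d
  funext d
  unfold addStep
  match d with
  | 0 =>
    rw [if_neg (by omega), ← e 0]
    rfl
  | 1 =>
    rw [if_neg (by omega), ← e 1]
    rfl
  | 2 =>
    rw [if_neg (by omega), ← e 2]
    rfl
  | 3 =>
    rw [if_pos rfl, ← e 3]
    show ((red x).2.2.2.2 ++ [lipStep x.1 K]).map stepOf = _
    rw [List.map_append]
    rfl
  | d + 4 =>
    rw [if_neg (by omega), ← e (d + 4)]
    rfl

theorem dom_lip (z : (ℤ × ℕ) × (ℤ × ℕ)) (K : ℕ) :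
    (stepOf (lipStep z K)).dom = Ioo ((num z.1 : ℚ) : ℝ) ((num z.2 : ℚ) : ℝ) := by
  ext t
  show |t - ((num (mid z) : ℚ) : ℝ)| < ((num (rad z) : ℚ) : ℝ) ↔ _
  rw [num_mid, num_rad, abs_lt, mem_Ioo]
  push_cast
  constructor
  · rintro ⟨h1, h2⟩
    constructor <;> linarith
  · rintro ⟨h1, h2⟩
    constructor <;> linarith

theorem witness_add {p q : ℝ} {m K : ℕ} {f : ℕ → List Step} {s : Step} (hdom : s.dom = Ioo p q)
    (hlo : s.lo = -(K : ℚ)) (hhi : s.hi = (K : ℚ)) (h : ℝ → ℝ) :
    Witness (Ioo p q) m (addStep f m s) h ↔ Witness (Ioo p q) m f h ∧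
      LipschitzOnWith K (iteratedDeriv (m - 1) h) (Ioo p q) := by
  have hval : s.val = Icc (-(K : ℝ)) K := by
    unfold Step.val
    rw [hlo, hhi]
    push_cast
    rfl
  constructor
  · rintro ⟨h1, h2, h3⟩
    refine ⟨⟨h1, fun d hd => ?_, fun s' hs' => ?_⟩, ?_⟩
    · have := h2 d hd
      unfold addStep at this
      rwa [if_neg hd.ne] at this
    · apply h3
      unfold addStep
      rw [if_pos rfl]
      exact List.mem_append_left _ hs'
    · apply LipschitzOnWith.of_dist_le_mul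
      intro x hx y hy
      rw [Real.dist_eq, Real.dist_eq]
      rcases eq_or_ne x y with rfl | hne
      · simp
      · have h4 := h3 s (by unfold addStep; rw [if_pos rfl]; simp) x ⟨hx, hdom ▸ hx⟩ y
          ⟨hy, hdom ▸ hy⟩ hne
        rw [hval, mem_Icc, ← abs_le, abs_div, div_le_iff₀ (abs_pos.2 (sub_ne_zero.2 hne))] at h4
        simpa using h4
  · rintro ⟨⟨h1, h2, h3⟩, h4⟩
    refine ⟨h1, fun d hd => ?_, fun s' hs' x hx y hy hne => ?_⟩
    · unfold addStep
      rw [if_neg hd.ne]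
      exact h2 d hd
    · unfold addStep at hs'
      rw [if_pos rfl, List.mem_append] at hs'
      rcases hs' with hs' | hs'
      · exact h3 s' hs' x hx y hy hne
      · rw [List.mem_singleton] at hs'
        subst hs'
        have h5 := h4.dist_le_mul x hx.1 y hy.1
        rw [Real.dist_eq, Real.dist_eq] at h5
        rw [hval, mem_Icc, ← abs_le, abs_div, div_le_iff₀ (abs_pos.2 (sub_ne_zero.2 hne))]
        simpa using h5

/-- the main statement about solutions with a given Lipschitz constant -/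
theorem lip_main : ∃ D : Input × ℕ → Bool, Computable D ∧ ∀ (x : Input) (p q : ℚ) (m : ℕ),
    p = num x.1.1 → q = num x.1.2 → p < q → x.2.length = m + 1 → 3 ≤ m →
    (∀ d, ∀ s ∈ tuple x d, p < s.c ∧ s.c < q ∧ 0 < s.r) → (∀ d, d + 3 < m → tuple x d = []) →
    (∀ K : ℕ, D (x, K) = true ↔ ∃ h : ℝ → ℝ, Witness (Ioo (p : ℝ) q) m (tuple x) h ∧
      LipschitzOnWith K (iteratedDeriv (m - 1) h) (Ioo (p : ℝ) q)) ∧
    (Consistent (Ioo (p : ℝ) q) m (tuple x) ↔ ∃ K : ℕ, D (x, K) = true) := by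
  obtain ⟨D, hD, h⟩ := decidable_main
  refine ⟨fun z => D (redK z), hD.comp primrec_redK.to_comp, ?_⟩
  rintro x p q m rfl rfl hpq hlen hm hwf hbot
  obtain ⟨n, rfl⟩ : ∃ n, m = n + 3 := ⟨m - 3, by omega⟩
  have hpq' : ((num x.1.1 : ℚ) : ℝ) < ((num x.1.2 : ℚ) : ℝ) := by exact_mod_cast hpq
  have key : ∀ K : ℕ, D (redK (x, K)) = true ↔ ∃ h : ℝ → ℝ,
      Witness (Ioo ((num x.1.1 : ℚ) : ℝ) ((num x.1.2 : ℚ) : ℝ)) (n + 3) (tuple x) h ∧
      LipschitzOnWith K (iteratedDeriv (n + 3 - 1) h)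
        (Ioo ((num x.1.1 : ℚ) : ℝ) ((num x.1.2 : ℚ) : ℝ)) := by
    intro K
    have hdom := dom_lip x.1 K
    have hlo : (stepOf (lipStep x.1 K)).lo = -(K : ℚ) := num_neg_cast K
    have hhi : (stepOf (lipStep x.1 K)).hi = (K : ℚ) := num_cast K
    have e := tup_redK (n := n) (K := K) hlen
    have h1 : D (redK (x, K)) = true ↔
        Consistent (Ioo ((num x.1.1 : ℚ) : ℝ) ((num x.1.2 : ℚ) : ℝ)) 3 (tup (redK (x, K))) := by
      apply h (redK (x, K)) hpq
      · intro d _ s hs
        rw [e] at hs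
        have hs' : s ∈ addStep (tuple x) (n + 3) (stepOf (lipStep x.1 K)) (n + d) := hs
        unfold addStep at hs'
        by_cases h2 : n + d = n + 3
        · rw [if_pos h2, List.mem_append, List.mem_singleton] at hs'
          rcases hs' with hs' | rfl
          · exact hwf _ s hs'
          · show num x.1.1 < num (mid x.1) ∧ num (mid x.1) < num x.1.2 ∧ 0 < num (rad x.1)
            rw [num_mid, num_rad]
            refine ⟨?_, ?_, ?_⟩ <;> linarith
        · rw [if_neg h2] at hs'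
          exact hwf _ s hs'
      · apply Set.Finite.subset Set.finite_empty
        rintro t ⟨ht, ht2⟩
        apply ht2 (stepOf (lipStep x.1 K))
        · rw [e]
          show stepOf (lipStep x.1 K) ∈ addStep (tuple x) (n + 3) (stepOf (lipStep x.1 K)) (n + 3)
          unfold addStep
          rw [if_pos rfl]
          simp
        · rw [hdom]
          exact ht
    rw [h1, e, consistent_shift hpq' n (addStep (tuple x) (n + 3) (stepOf (lipStep x.1 K)))
      (fun d hd => by unfold addStep; rw [if_neg (by omega)]; exact hbot d (by omega))]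
    constructor
    · rintro ⟨g, hg⟩
      exact ⟨g, (witness_add hdom hlo hhi g).1 hg⟩
    · rintro ⟨g, hg⟩
      exact ⟨g, (witness_add hdom hlo hhi g).2 hg⟩
  refine ⟨key, ?_⟩
  constructor
  · rintro ⟨g, hg⟩
    obtain ⟨K, _, h0, v, a, P, F⟩ := gf_any hpq' n (tuple x) g hg
    obtain ⟨k, hk⟩ := exists_nat_ge K
    refine ⟨k, (key k).2 ?_⟩
    have hdom := dom_lip x.1 k
    have hlo : (stepOf (lipStep x.1 k)).lo = -(k : ℚ) := num_neg_cast k
    have hhi : (stepOf (lipStep x.1 k)).hi = (k : ℚ) := num_cast k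
    have ne : ∀ j, j < n + 3 → addStep (tuple x) (n + 3) (stepOf (lipStep x.1 k)) j = tuple x j := by
      intro j hj
      unfold addStep
      rw [if_neg hj.ne]
    have hsb : SB (-(k : ℝ)) k ((num x.1.1 : ℚ) : ℝ) ((num x.1.2 : ℚ) : ℝ) a :=
      F.sb.weaken (by linarith) hk
    obtain ⟨g', hg', _⟩ := witness_of_gf hpq' n
      (addStep (tuple x) (n + 3) (stepOf (lipStep x.1 k)))
      (fun d hd => by rw [ne d (by omega)]; exact hbot d (by omega)) (K := k) P (by
        refine ⟨?_, ?_, ?_, ?_, hsb⟩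
        · rw [ne n (by omega)]; exact F.c0
        · rw [ne (n + 1) (by omega)]; exact F.c1
        · rw [ne (n + 2) (by omega)]; exact F.c2
        · intro st hst x' y' i1 i2 i3 i4 i5
          unfold addStep at hst
          rw [if_pos rfl, List.map_append, List.mem_append] at hst
          rcases hst with hst | hst
          · exact F.c3 st hst x' y' i1 i2 i3 i4 i5
          · have e1 : st = (stepOf (lipStep x.1 k)).toStp := by simpa using hst
            have e2 : st.lo = -(k : ℝ) := by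
              rw [e1]
              show (((stepOf (lipStep x.1 k)).lo : ℚ) : ℝ) = _
              rw [hlo]; push_cast; rfl
            have e3 : st.hi = (k : ℝ) := by
              rw [e1]
              show (((stepOf (lipStep x.1 k)).hi : ℚ) : ℝ) = _
              rw [hhi]; push_cast; rfl
            rw [e2, e3]
            exact hsb x' y' i1 i2 i3)
    exact ⟨g', (witness_add hdom hlo hhi g').1 hg'⟩
  · rintro ⟨K, hK⟩
    obtain ⟨g, hg, _⟩ := (key K).1 hK
    exact ⟨g, hg⟩

end MP44e4f6
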