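import Mathlib
import Pool.Agent.Lib.MP_44e4f6_lc.LB

/-!
Solutions with a given Lipschitz constant; the case that the last family covers all but finitely many points.
-/

namespace MP44e4f6

open Set MeasureTheory

/-- if the last family covers all but finitely many points then its slopes bound the Lipschitz constant of all solutions -/
theorem lip_of_total {p q : ℝ} {K : ℕ} (n : ℕ) (f : ℕ → List Step)
    (hfin : {x : ℝ | x ∈ Ioo p q ∧ ∀ s ∈ f (n + 3), x ∉ s.dom}.Finite)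
    (hK : ∀ s ∈ f (n + 3), -(K : ℝ) ≤ (s.lo : ℝ) ∧ (s.hi : ℝ) ≤ K) (g : ℝ → ℝ)
    (hg : Witness (Ioo p q) (n + 3) f g) :
    LipschitzOnWith K (iteratedDeriv (n + 3 - 1) g) (Ioo p q) := by
  obtain ⟨hC, hB, hL⟩ := hg
  have hC' : ContDiffOn ℝ ((n + 2 : ℕ) : WithTop ℕ∞) g (Ioo p q) := hC
  have hopen : IsOpen (Ioo p q) := isOpen_Ioo
  have hLs : ∀ s ∈ f (n + 3), ∀ x y, p < x → x < q → p < y → y < q → x ∈ s.dom → y ∈ s.dom →
      x ≤ y → (s.lo : ℝ) * (y - x) ≤ iteratedDeriv (n + 2) g y - iteratedDeriv (n + 2) g x ∧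
      iteratedDeriv (n + 2) g y - iteratedDeriv (n + 2) g x ≤ (s.hi : ℝ) * (y - x) := by
    intro s hs x y h1 h2 h3 h4 h5 h6 h7
    exact slope_of_belowL (fun hne => hL s hs x ⟨⟨h1, h2⟩, h5⟩ y ⟨⟨h3, h4⟩, h6⟩ hne) h7
  have hcont : ∀ x, p < x → x < q → ContinuousAt (iteratedDeriv (n + 2) g) x := by
    intro x h1 h2
    have hx : x ∈ Ioo p q := ⟨h1, h2⟩
    have e3 : ContinuousOn (iteratedDerivWithin (n + 2) g (Ioo p q)) (Ioo p q) :=
      hC'.continuousOn_iteratedDerivWithin le_rfl hopen.uniqueDiffOn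
    have e4 := (e3 x hx).continuousAt (hopen.mem_nhds hx)
    apply e4.congr
    filter_upwards [hopen.mem_nhds hx] with y hy
    exact iteratedDerivWithin_of_isOpen hopen hy
  have hlip := lip_of_local_fin (K := K) (f := iteratedDeriv (n + 2) g) hfin.toFinset p q hcont (by
    intro x h1 h2 h0
    obtain ⟨s, hs, hxs⟩ : ∃ s ∈ f (n + 3), x ∈ s.dom := by
      by_contra hcon
      push Not at hcon
      exact h0 (hfin.mem_toFinset.2 ⟨⟨h1, h2⟩, hcon⟩)
    have ho : IsOpen s.dom := isOpen_dom _ _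
    obtain ⟨δ, hδ, hball⟩ := Metric.isOpen_iff.1 ho x hxs
    refine ⟨δ, hδ, fun y z hy hz h3 h4 h5 => ?_⟩
    have hy' : y ∈ s.dom := hball (by rw [Metric.mem_ball, Real.dist_eq]; exact hy)
    have hz' : z ∈ s.dom := hball (by rw [Metric.mem_ball, Real.dist_eq]; exact hz)
    have := hLs s hs y z h3 (h4.trans_lt h5) (h3.trans_le h4) h5 hy' hz' h4
    have e : 0 ≤ z - y := by linarith
    exact ⟨(mul_le_mul_of_nonneg_right (hK s hs).1 e).trans this.1,
      this.2.trans (mul_le_mul_of_nonneg_right (hK s hs).2 e)⟩)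
  show LipschitzOnWith K (iteratedDeriv (n + 2) g) (Ioo p q)
  apply LipschitzOnWith.of_dist_le_mul
  intro x hx y hy
  rw [Real.dist_eq, Real.dist_eq]
  rcases le_total x y with h | h
  · obtain ⟨h1, h2⟩ := hlip x y hx.1 h hy.2
    rw [abs_sub_comm, abs_sub_comm x y, abs_of_nonneg (by linarith : 0 ≤ y - x), abs_le]
    constructor
    · have : -(K : ℝ) * (y - x) = -((K : ℝ) * (y - x)) := by ring
      simpa [this] using h1
    · simpa using h2
  · obtain ⟨h1, h2⟩ := hlip y x hy.1 h hx.2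
    rw [abs_of_nonneg (by linarith : 0 ≤ x - y), abs_le]
    constructor
    · have : -(K : ℝ) * (x - y) = -((K : ℝ) * (x - y)) := by ring
      simpa [this] using h1
    · simpa using h2

/-- the main statement, with the case that the last family covers all but finitely many points -/
theorem lip_all : ∃ D : Input × ℕ → Bool, Computable D ∧ ∀ (x : Input) (p q : ℚ) (m : ℕ),
    p = num x.1.1 → q = num x.1.2 → p < q → x.2.length = m + 1 → 3 ≤ m →
    (∀ d, ∀ s ∈ tuple x d, p < s.c ∧ s.c < q ∧ 0 < s.r) → (∀ d, d + 3 < m → tuple x d = []) →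
    (∀ K : ℕ, D (x, K) = true ↔ ∃ h : ℝ → ℝ, Witness (Ioo (p : ℝ) q) m (tuple x) h ∧
      LipschitzOnWith K (iteratedDeriv (m - 1) h) (Ioo (p : ℝ) q)) ∧
    (Consistent (Ioo (p : ℝ) q) m (tuple x) ↔ ∃ K : ℕ, D (x, K) = true) ∧
    ({t : ℝ | t ∈ Ioo (p : ℝ) q ∧ ∀ s ∈ tuple x m, t ∉ s.dom}.Finite →
      ∀ K : ℕ, (∀ s ∈ tuple x m, -(K : ℚ) ≤ s.lo ∧ s.hi ≤ (K : ℚ)) →
        (D (x, K) = true ↔ Consistent (Ioo (p : ℝ) q) m (tuple x))) := by
  obtain ⟨D, hD, h⟩ := lip_main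
  refine ⟨D, hD, ?_⟩
  intro x p q m h1 h2 hpq hlen hm hwf hbot
  obtain ⟨hk, hc⟩ := h x p q m h1 h2 hpq hlen hm hwf hbot
  refine ⟨hk, hc, ?_⟩
  intro hfin K hK
  constructor
  · intro hd
    exact hc.2 ⟨K, hd⟩
  · rintro ⟨g, hg⟩
    obtain ⟨n, rfl⟩ : ∃ n, m = n + 3 := ⟨m - 3, by omega⟩
    refine (hk K).2 ⟨g, hg, lip_of_total n (tuple x) hfin (fun s hs => ?_) g hg⟩
    exact ⟨by exact_mod_cast (hK s hs).1, by exact_mod_cast (hK s hs).2⟩

end MP44e4f6
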